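import Pool.Agent.Gen.F5.X12CD13m5.S000
import Pool.Agent.Gen.F5.X12CD13m5.S001
import Pool.Agent.Gen.F5.X12CD13m5.S002
import Pool.Agent.Gen.F5.X12CD13m5.S003
import Pool.Agent.Gen.F5.X12CD13m5.S004
import Pool.Agent.Gen.F5.X12CD13m5.S005
import Pool.Agent.Gen.F5.X12CD13m5.S006
import Pool.Agent.Gen.F5.X12CD13m5.S007
import Pool.Agent.Gen.F5.X12CD13m5.S008
import Pool.Agent.Gen.F5.X12CD13m5.S009
import Pool.Agent.Gen.F5.X12CD13m5.S010
import Pool.Agent.Gen.F5.X12CD13m5.S011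
import Pool.Agent.Gen.F5.X12CD13m5.S012
import Pool.Agent.Gen.F5.X12CD13m5.S013

set_option autoImplicit false
set_option maxRecDepth 100000

namespace Pool.Agent.Gen.F5.X12CD13m5

open Pool.Agent.Helper72.F5

def n0 : Cl (O (nat_lit 5)) (R (nat_lit 104465))
    (p (nat_lit 0x10800c) (nat_lit 0) (p (nat_lit 0x100014) (nat_lit 0) (p (nat_lit 0xc1) (nat_lit 0) (p (nat_lit 0x10f0e900e0f9a) (nat_lit 0) (p (nat_lit 0xe8e0f8d8f1a) (nat_lit 0) (p (nat_lit 0x10e0d8f0d0c9a) (nat_lit 0) (p (nat_lit 0xd8d0e8c8c1a) (nat_lit 0) (p (nat_lit 0x2a825800002680d0d0e0c0d8a) (nat_lit 0) (p (nat_lit 0x2a825800002680d0c8d8b8b0a) (nat_lit 0) (p (nat_lit 0x100004) (nat_lit 0) (p (nat_lit 0x1fc014) (nat_lit 0) (p (nat_lit 0x1fc004) (nat_lit 0) (p (nat_lit 0xb000c) (nat_lit 1) (p (nat_lit 0x380c2) (nat_lit 0) (p (nat_lit 0x444aa) (nat_lit 7) (p (nat_lit 0xd1) (nat_lit 1) (p (nat_lit 0x111) (nat_lit 1)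 (p (nat_lit 0x109) (nat_lit 0) (p (nat_lit 0x101) (nat_lit 0) (p (nat_lit 0x119) (nat_lit 0) (p (nat_lit 0xc9) (nat_lit 0) (p (nat_lit 0x89) (nat_lit 1) (p (nat_lit 0x41) (nat_lit 0) (p (nat_lit 0x10a098b090a9a) (nat_lit 0) (p (nat_lit 0x9890a888a1a) (nat_lit 0) (p (nat_lit 0x109088a08079a) (nat_lit 0) (p (nat_lit 0x8880987871a) (nat_lit 0) (p (nat_lit 0x8000000000800080907088a) (nat_lit 0) (p (nat_lit 0x8000000000800078886860a) (nat_lit 0) (p (nat_lit 0x10688060782) (nat_lit 0) (p (nat_lit 0x607858702) (nat_lit 0) (p (nat_lit 0x10587050482) (nat_lit 0) (p (nat_lit 0x506848402) (nat_lit 0) (p (nat_lit 0x16000c) (nat_lit 0) (p (nat_lit 0x50612) (nat_lit 0) (p (nat_lit 0x40592) (nat_lit 0) (p (nat_lit 0x40492) (nat_lit 0) (p (nat_lit 0x30412) (nat_lit 0) (p (nat_lit 0x30212) (nat_lit 0) (p (nat_lit 0x20192) (nat_lit 0) (p (nat_lit 0x20092) (nat_lit 0) (p (nat_lit 0x10012) (nat_lit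 0) pn)))))))))))))))))))))))))))))))))))))))))) :=
  Cl.node (nat_lit 0xdc00c) (nat_lit 2) (by decide +kernel) (ClAll.succ (ClAll.succ ClAll.zero s383) s384)

def n1 : Cl (O (nat_lit 5)) (R (nat_lit 104465))
    (p (nat_lit 0x41) (nat_lit 0) (p (nat_lit 0x10f0e900e0f9a) (nat_lit 0) (p (nat_lit 0xe8e0f8d8f1a) (nat_lit 0) (p (nat_lit 0x10e0d8f0d0c9a) (nat_lit 0) (p (nat_lit 0xd8d0e8c8c1a) (nat_lit 0) (p (nat_lit 0x2680d000002680d0d0e0c0d8a) (nat_lit 0) (p (nat_lit 0x2680d000002680d0c8d8b8b0a) (nat_lit 0) (p (nat_lit 0x100004) (nat_lit 0) (p (nat_lit 0x100014) (nat_lit 0) (p (nat_lit 0x1fc014) (nat_lit 0) (p (nat_lit 0x1fc004) (nat_lit 0) (p (nat_lit 0xb000c) (nat_lit 1) (p (nat_lit 0x380c2) (nat_lit 1) (p (nat_lit 0x4c42a) (nat_lit 10) (p (nat_lit 0x119) (nat_lit 1) (p (nat_lit 0xc9) (nat_lit 0) (p (nat_lit 0x89) (nat_lit 1) (p (nat_lit 0x109) (nat_lit 1) (p (nat_lit 0x101) (nat_lit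 0) (p (nat_lit 0x111) (nat_lit 0) (p (nat_lit 0xd1) (nat_lit 1) (p (nat_lit 0x81) (nat_lit 0) (p (nat_lit 0x41) (nat_lit 1) (p (nat_lit 0x10a098b090a9a) (nat_lit 0) (p (nat_lit 0x9890a888a1a) (nat_lit 0) (p (nat_lit 0x109088a08079a) (nat_lit 0) (p (nat_lit 0x8880987871a) (nat_lit 0) (p (nat_lit 0x8000000000800080907088a) (nat_lit 0) (p (nat_lit 0x8000000000800078886860a) (nat_lit 0) (p (nat_lit 0x10688060782) (nat_lit 0) (p (nat_lit 0x607858702) (nat_lit 0) (p (nat_lit 0x10587050482) (nat_lit 0) (p (nat_lit 0x506848402) (nat_lit 0) (p (nat_lit 0x16000c) (nat_lit 0) (p (nat_lit 0x50612) (nat_lit 0) (p (nat_lit 0x40592) (nat_lit 0) (p (nat_lit 0x40492) (nat_lit 0) (p (nat_lit 0x30412) (nat_lit 0) (p (nat_lit 0x30212) (nat_lit 0) (p (nat_lit 0x20192) (nat_lit 0) (p (nat_lit 0x20092) (nat_lit 0) (p (nat_lit 0x10012) (nat_lit 0) pn)))))))))))))))))))))))))))))))))))))))))) :=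
  Cl.node (nat_lit 0x80004) (nat_lit 2) (by decide +kernel) (ClAll.succ (ClAll.succ ClAll.zero s831) s832)

def n2 : Cl (O (nat_lit 5)) (R (nat_lit 104465))
    (p (nat_lit 0x10f0e900e0f9a) (nat_lit 0) (p (nat_lit 0xe8e0f8d8f1a) (nat_lit 0) (p (nat_lit 0x10e0d8f0d0c9a) (nat_lit 0) (p (nat_lit 0xd8d0e8c8c1a) (nat_lit 0) (p (nat_lit 0x2680d000002680d0d0e0c0d8a) (nat_lit 0) (p (nat_lit 0x2680d000002680d0c8d8b8b0a) (nat_lit 0) (p (nat_lit 0x100004) (nat_lit 0) (p (nat_lit 0x100014) (nat_lit 0) (p (nat_lit 0x10800c) (nat_lit 0) (p (nat_lit 0x1fc004) (nat_lit 0) (p (nat_lit 0xb000c) (nat_lit 1) (p (nat_lit 0x200014) (nat_lit 0) (p (nat_lit 0x101) (nat_lit 0) (p (nat_lit 0x380c2) (nat_lit 0) (p (nat_lit 0x3cc2a) (nat_lit 2) (p (nat_lit 0x109) (nat_lit 1) (p (nat_lit 0xc9) (nat_lit 1) (p (nat_lit 0xc1) (nat_lit 0) (p (nat_lit 0x119) (nat_lit 1) (p (nat_lit 0xd1) (nat_lit 0) (p (nat_lit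 0x89) (nat_lit 0) (p (nat_lit 0x41) (nat_lit 0) (p (nat_lit 0x10a098b090a9a) (nat_lit 0) (p (nat_lit 0x9890a888a1a) (nat_lit 0) (p (nat_lit 0x109088a08079a) (nat_lit 0) (p (nat_lit 0x8880987871a) (nat_lit 0) (p (nat_lit 0x8000000000800080907088a) (nat_lit 0) (p (nat_lit 0x8000000000800078886860a) (nat_lit 0) (p (nat_lit 0x10688060782) (nat_lit 0) (p (nat_lit 0x607858702) (nat_lit 0) (p (nat_lit 0x10587050482) (nat_lit 0) (p (nat_lit 0x506848402) (nat_lit 0) (p (nat_lit 0x16000c) (nat_lit 0) (p (nat_lit 0x50612) (nat_lit 0) (p (nat_lit 0x40592) (nat_lit 0) (p (nat_lit 0x40492) (nat_lit 0) (p (nat_lit 0x30412) (nat_lit 0) (p (nat_lit 0x30212) (nat_lit 0) (p (nat_lit 0x20192) (nat_lit 0) (p (nat_lit 0x20092) (nat_lit 0) (p (nat_lit 0x10012) (nat_lit 0) pn))))))))))))))))))))))))))))))))))))))))) :=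
  Cl.node (nat_lit 0xc9) (nat_lit 2) (by decide +kernel) (ClAll.succ (ClAll.succ ClAll.zero s136) s137)

def n3 : Cl (O (nat_lit 5)) (R (nat_lit 104465))
    (p (nat_lit 0x100014) (nat_lit 0) (p (nat_lit 0xc1) (nat_lit 0) (p (nat_lit 0x10f0e900e0f9a) (nat_lit 0) (p (nat_lit 0xe8e0f8d8f1a) (nat_lit 0) (p (nat_lit 0x10e0d8f0d0c9a) (nat_lit 0) (p (nat_lit 0xd8d0e8c8c1a) (nat_lit 0) (p (nat_lit 0x2a825800002680d0d0e0c0d8a) (nat_lit 0) (p (nat_lit 0x2a825800002680d0c8d8b8b0a) (nat_lit 0) (p (nat_lit 0x100004) (nat_lit 0) (p (nat_lit 0x1fc014) (nat_lit 0) (p (nat_lit 0x1fc004) (nat_lit 0) (p (nat_lit 0xb000c) (nat_lit 1) (p (nat_lit 0x380c2) (nat_lit 0) (p (nat_lit 0x444aa) (nat_lit 7) (p (nat_lit 0xd1) (nat_lit 1) (p (nat_lit 0x111) (nat_lit 1) (p (nat_lit 0x109) (nat_lit 0) (p (nat_lit 0x101) (nat_lit 0) (p (nat_lit 0x119) (nat_lit 0) (p (nat_lit 0xc9) (nat_lit 0) (p (nat_lit 0x89)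 (nat_lit 1) (p (nat_lit 0x41) (nat_lit 0) (p (nat_lit 0x10a098b090a9a) (nat_lit 0) (p (nat_lit 0x9890a888a1a) (nat_lit 0) (p (nat_lit 0x109088a08079a) (nat_lit 0) (p (nat_lit 0x8880987871a) (nat_lit 0) (p (nat_lit 0x8000000000800080907088a) (nat_lit 0) (p (nat_lit 0x8000000000800078886860a) (nat_lit 0) (p (nat_lit 0x10688060782) (nat_lit 0) (p (nat_lit 0x607858702) (nat_lit 0) (p (nat_lit 0x10587050482) (nat_lit 0) (p (nat_lit 0x506848402) (nat_lit 0) (p (nat_lit 0x16000c) (nat_lit 0) (p (nat_lit 0x50612) (nat_lit 0) (p (nat_lit 0x40592) (nat_lit 0) (p (nat_lit 0x40492) (nat_lit 0) (p (nat_lit 0x30412) (nat_lit 0) (p (nat_lit 0x30212) (nat_lit 0) (p (nat_lit 0x20192) (nat_lit 0) (p (nat_lit 0x20092) (nat_lit 0) (p (nat_lit 0x10012) (nat_lit 0) pn))))))))))))))))))))))))))))))))))))))))) :=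
  Cl.node (nat_lit 0x10800c) (nat_lit 2) (by decide +kernel) (ClAll.succ (ClAll.succ ClAll.zero n0) s385)

def n4 : Cl (O (nat_lit 5)) (R (nat_lit 104465))
    (p (nat_lit 0x10f0e900e0f9a) (nat_lit 0) (p (nat_lit 0xe8e0f8d8f1a) (nat_lit 0) (p (nat_lit 0x10e0d8f0d0c9a) (nat_lit 0) (p (nat_lit 0xd8d0e8c8c1a) (nat_lit 0) (p (nat_lit 0x2680d000002680d0d0e0c0d8a) (nat_lit 0) (p (nat_lit 0x2680d000002680d0c8d8b8b0a) (nat_lit 0) (p (nat_lit 0x100004) (nat_lit 0) (p (nat_lit 0x100014) (nat_lit 0) (p (nat_lit 0x1fc014) (nat_lit 0) (p (nat_lit 0x1fc004) (nat_lit 0) (p (nat_lit 0xb000c) (nat_lit 1) (p (nat_lit 0x380c2) (nat_lit 1) (p (nat_lit 0x4c42a) (nat_lit 10) (p (nat_lit 0x119) (nat_lit 1) (p (nat_lit 0xc9) (nat_lit 0) (p (nat_lit 0x89) (nat_lit 1) (p (nat_lit 0x109) (nat_lit 1) (p (nat_lit 0x101) (nat_lit 0) (p (nat_lit 0x111) (nat_lit 0) (p (nat_lit 0xd1) (nat_lit 1) (p (nat_lit 0x81)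 (nat_lit 0) (p (nat_lit 0x41) (nat_lit 1) (p (nat_lit 0x10a098b090a9a) (nat_lit 0) (p (nat_lit 0x9890a888a1a) (nat_lit 0) (p (nat_lit 0x109088a08079a) (nat_lit 0) (p (nat_lit 0x8880987871a) (nat_lit 0) (p (nat_lit 0x8000000000800080907088a) (nat_lit 0) (p (nat_lit 0x8000000000800078886860a) (nat_lit 0) (p (nat_lit 0x10688060782) (nat_lit 0) (p (nat_lit 0x607858702) (nat_lit 0) (p (nat_lit 0x10587050482) (nat_lit 0) (p (nat_lit 0x506848402) (nat_lit 0) (p (nat_lit 0x16000c) (nat_lit 0) (p (nat_lit 0x50612) (nat_lit 0) (p (nat_lit 0x40592) (nat_lit 0) (p (nat_lit 0x40492) (nat_lit 0) (p (nat_lit 0x30412) (nat_lit 0) (p (nat_lit 0x30212) (nat_lit 0) (p (nat_lit 0x20192) (nat_lit 0) (p (nat_lit 0x20092) (nat_lit 0) (p (nat_lit 0x10012) (nat_lit 0) pn))))))))))))))))))))))))))))))))))))))))) :=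
  Cl.node (nat_lit 0x41) (nat_lit 2) (by decide +kernel) (ClAll.succ (ClAll.succ ClAll.zero n1) s833)

def n5 : Cl (O (nat_lit 5)) (R (nat_lit 104465))
    (p (nat_lit 0xe8e0f8d8f1a) (nat_lit 0) (p (nat_lit 0x10e0d8f0d0c9a) (nat_lit 0) (p (nat_lit 0xd8d0e8c8c1a) (nat_lit 0) (p (nat_lit 0x2680d000002680d0d0e0c0d8a) (nat_lit 0) (p (nat_lit 0x2680d000002680d0c8d8b8b0a) (nat_lit 0) (p (nat_lit 0x100004) (nat_lit 0) (p (nat_lit 0x100014) (nat_lit 0) (p (nat_lit 0x10800c) (nat_lit 0) (p (nat_lit 0x1fc004) (nat_lit 0) (p (nat_lit 0xb000c) (nat_lit 1) (p (nat_lit 0x200014) (nat_lit 0) (p (nat_lit 0x101) (nat_lit 0) (p (nat_lit 0x380c2) (nat_lit 0) (p (nat_lit 0x3cc2a) (nat_lit 2) (p (nat_lit 0x109) (nat_lit 1) (p (nat_lit 0xc9) (nat_lit 1) (p (nat_lit 0xc1) (nat_lit 0) (p (nat_lit 0x119) (nat_lit 1) (p (nat_lit 0xd1) (nat_lit 0) (p (nat_lit 0x89) (nat_lit 0) (p (nat_lit 0x41) (nat_lit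 0) (p (nat_lit 0x10a098b090a9a) (nat_lit 0) (p (nat_lit 0x9890a888a1a) (nat_lit 0) (p (nat_lit 0x109088a08079a) (nat_lit 0) (p (nat_lit 0x8880987871a) (nat_lit 0) (p (nat_lit 0x8000000000800080907088a) (nat_lit 0) (p (nat_lit 0x8000000000800078886860a) (nat_lit 0) (p (nat_lit 0x10688060782) (nat_lit 0) (p (nat_lit 0x607858702) (nat_lit 0) (p (nat_lit 0x10587050482) (nat_lit 0) (p (nat_lit 0x506848402) (nat_lit 0) (p (nat_lit 0x16000c) (nat_lit 0) (p (nat_lit 0x50612) (nat_lit 0) (p (nat_lit 0x40592) (nat_lit 0) (p (nat_lit 0x40492) (nat_lit 0) (p (nat_lit 0x30412) (nat_lit 0) (p (nat_lit 0x30212) (nat_lit 0) (p (nat_lit 0x20192) (nat_lit 0) (p (nat_lit 0x20092) (nat_lit 0) (p (nat_lit 0x10012) (nat_lit 0) pn)))))))))))))))))))))))))))))))))))))))) :=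
  Cl.node (nat_lit 0x10f0e900e0f9a) (nat_lit 1) (by decide +kernel) (ClAll.succ ClAll.zero n2)

def n6 : Cl (O (nat_lit 5)) (R (nat_lit 104465))
    (p (nat_lit 0x10f0e900e0f9a) (nat_lit 0) (p (nat_lit 0xe8e0f8d8f1a) (nat_lit 0) (p (nat_lit 0x10e0d8f0d0c9a) (nat_lit 0) (p (nat_lit 0xd8d0e8c8c1a) (nat_lit 0) (p (nat_lit 0x2680d000002680d0d0e0c0d8a) (nat_lit 0) (p (nat_lit 0x2680d000002680d0c8d8b8b0a) (nat_lit 0) (p (nat_lit 0xb000c) (nat_lit 1) (p (nat_lit 0x100004) (nat_lit 0) (p (nat_lit 0x200004) (nat_lit 0) (p (nat_lit 0x100014) (nat_lit 0) (p (nat_lit 0x200014) (nat_lit 0) (p (nat_lit 0xc9) (nat_lit 1) (p (nat_lit 0x380c2) (nat_lit 0) (p (nat_lit 0x3cc2a) (nat_lit 2) (p (nat_lit 0x109) (nat_lit 1) (p (nat_lit 0x81) (nat_lit 0) (p (nat_lit 0xc1) (nat_lit 1) (p (nat_lit 0x119) (nat_lit 1) (p (nat_lit 0xd1) (nat_lit 0) (p (nat_lit 0x89) (nat_lit 0) (p (nat_lit 0x41) (nat_lit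 0) (p (nat_lit 0x10a098b090a9a) (nat_lit 0) (p (nat_lit 0x9890a888a1a) (nat_lit 0) (p (nat_lit 0x109088a08079a) (nat_lit 0) (p (nat_lit 0x8880987871a) (nat_lit 0) (p (nat_lit 0x8000000000800080907088a) (nat_lit 0) (p (nat_lit 0x8000000000800078886860a) (nat_lit 0) (p (nat_lit 0x10688060782) (nat_lit 0) (p (nat_lit 0x607858702) (nat_lit 0) (p (nat_lit 0x10587050482) (nat_lit 0) (p (nat_lit 0x506848402) (nat_lit 0) (p (nat_lit 0x16000c) (nat_lit 0) (p (nat_lit 0x50612) (nat_lit 0) (p (nat_lit 0x40592) (nat_lit 0) (p (nat_lit 0x40492) (nat_lit 0) (p (nat_lit 0x30412) (nat_lit 0) (p (nat_lit 0x30212) (nat_lit 0) (p (nat_lit 0x20192) (nat_lit 0) (p (nat_lit 0x20092) (nat_lit 0) (p (nat_lit 0x10012) (nat_lit 0) pn)))))))))))))))))))))))))))))))))))))))) :=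
  Cl.node (nat_lit 0xd1) (nat_lit 2) (by decide +kernel) (ClAll.succ (ClAll.succ ClAll.zero s164) s165)

def n7 : Cl (O (nat_lit 5)) (R (nat_lit 104465))
    (p (nat_lit 0x10f0e900e0f9a) (nat_lit 0) (p (nat_lit 0xe8e0f8d8f1a) (nat_lit 0) (p (nat_lit 0x10e0d8f0d0c9a) (nat_lit 0) (p (nat_lit 0xd8d0e8c8c1a) (nat_lit 0) (p (nat_lit 0x2680d000002a8258d0e0c0d8a) (nat_lit 0) (p (nat_lit 0x2680d000002a8258c8d8b8b0a) (nat_lit 0) (p (nat_lit 0x100014) (nat_lit 0) (p (nat_lit 0x119) (nat_lit 1) (p (nat_lit 0x1fc014) (nat_lit 0) (p (nat_lit 0x1fc004) (nat_lit 0) (p (nat_lit 0xb000c) (nat_lit 1) (p (nat_lit 0x380c2) (nat_lit 1) (p (nat_lit 0x444aa) (nat_lit 7) (p (nat_lit 0x119) (nat_lit 0) (p (nat_lit 0xc1) (nat_lit 0) (p (nat_lit 0x81) (nat_lit 1) (p (nat_lit 0x101) (nat_lit 1) (p (nat_lit 0x111) (nat_lit 0) (p (nat_lit 0xd1) (nat_lit 1) (p (nat_lit 0x89) (nat_lit 0) (p (nat_lit 0x41) (nat_lit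 0) (p (nat_lit 0x10a098b090a9a) (nat_lit 0) (p (nat_lit 0x9890a888a1a) (nat_lit 0) (p (nat_lit 0x109088a08079a) (nat_lit 0) (p (nat_lit 0x8880987871a) (nat_lit 0) (p (nat_lit 0x8000000000800080907088a) (nat_lit 0) (p (nat_lit 0x8000000000800078886860a) (nat_lit 0) (p (nat_lit 0x10688060782) (nat_lit 0) (p (nat_lit 0x607858702) (nat_lit 0) (p (nat_lit 0x10587050482) (nat_lit 0) (p (nat_lit 0x506848402) (nat_lit 0) (p (nat_lit 0x16000c) (nat_lit 0) (p (nat_lit 0x50612) (nat_lit 0) (p (nat_lit 0x40592) (nat_lit 0) (p (nat_lit 0x40492) (nat_lit 0) (p (nat_lit 0x30412) (nat_lit 0) (p (nat_lit 0x30212) (nat_lit 0) (p (nat_lit 0x20192) (nat_lit 0) (p (nat_lit 0x20092) (nat_lit 0) (p (nat_lit 0x10012) (nat_lit 0) pn)))))))))))))))))))))))))))))))))))))))) :=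
  Cl.node (nat_lit 0xc9) (nat_lit 2) (by decide +kernel) (ClAll.succ (ClAll.succ ClAll.zero s313) s314)

def n8 : Cl (O (nat_lit 5)) (R (nat_lit 104465))
    (p (nat_lit 0xc1) (nat_lit 0) (p (nat_lit 0x10f0e900e0f9a) (nat_lit 0) (p (nat_lit 0xe8e0f8d8f1a) (nat_lit 0) (p (nat_lit 0x10e0d8f0d0c9a) (nat_lit 0) (p (nat_lit 0xd8d0e8c8c1a) (nat_lit 0) (p (nat_lit 0x2a825800002680d0d0e0c0d8a) (nat_lit 0) (p (nat_lit 0x2a825800002680d0c8d8b8b0a) (nat_lit 0) (p (nat_lit 0x100004) (nat_lit 0) (p (nat_lit 0x1fc014) (nat_lit 0) (p (nat_lit 0x1fc004) (nat_lit 0) (p (nat_lit 0xb000c) (nat_lit 1) (p (nat_lit 0x380c2) (nat_lit 0) (p (nat_lit 0x444aa) (nat_lit 7) (p (nat_lit 0xd1) (nat_lit 1) (p (nat_lit 0x111) (nat_lit 1) (p (nat_lit 0x109) (nat_lit 0) (p (nat_lit 0x101) (nat_lit 0) (p (nat_lit 0x119) (nat_lit 0) (p (nat_lit 0xc9) (nat_lit 0) (p (nat_lit 0x89) (nat_lit 1) (p (nat_lit 0x41) (nat_lit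 0) (p (nat_lit 0x10a098b090a9a) (nat_lit 0) (p (nat_lit 0x9890a888a1a) (nat_lit 0) (p (nat_lit 0x109088a08079a) (nat_lit 0) (p (nat_lit 0x8880987871a) (nat_lit 0) (p (nat_lit 0x8000000000800080907088a) (nat_lit 0) (p (nat_lit 0x8000000000800078886860a) (nat_lit 0) (p (nat_lit 0x10688060782) (nat_lit 0) (p (nat_lit 0x607858702) (nat_lit 0) (p (nat_lit 0x10587050482) (nat_lit 0) (p (nat_lit 0x506848402) (nat_lit 0) (p (nat_lit 0x16000c) (nat_lit 0) (p (nat_lit 0x50612) (nat_lit 0) (p (nat_lit 0x40592) (nat_lit 0) (p (nat_lit 0x40492) (nat_lit 0) (p (nat_lit 0x30412) (nat_lit 0) (p (nat_lit 0x30212) (nat_lit 0) (p (nat_lit 0x20192) (nat_lit 0) (p (nat_lit 0x20092) (nat_lit 0) (p (nat_lit 0x10012) (nat_lit 0) pn)))))))))))))))))))))))))))))))))))))))) :=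
  Cl.node (nat_lit 0x100014) (nat_lit 2) (by decide +kernel) (ClAll.succ (ClAll.succ ClAll.zero n3) s386)

def n9 : Cl (O (nat_lit 5)) (R (nat_lit 104465))
    (p (nat_lit 0xe8e0f8d8f1a) (nat_lit 0) (p (nat_lit 0x10e0d8f0d0c9a) (nat_lit 0) (p (nat_lit 0xd8d0e8c8c1a) (nat_lit 0) (p (nat_lit 0x2680d000002680d0d0e0c0d8a) (nat_lit 0) (p (nat_lit 0x2680d000002680d0c8d8b8b0a) (nat_lit 0) (p (nat_lit 0x100004) (nat_lit 0) (p (nat_lit 0x100014) (nat_lit 0) (p (nat_lit 0x1fc014) (nat_lit 0) (p (nat_lit 0x1fc004) (nat_lit 0) (p (nat_lit 0xb000c) (nat_lit 1) (p (nat_lit 0x380c2) (nat_lit 1) (p (nat_lit 0x4c42a) (nat_lit 10) (p (nat_lit 0x119) (nat_lit 1) (p (nat_lit 0xc9) (nat_lit 0) (p (nat_lit 0x89) (nat_lit 1) (p (nat_lit 0x109) (nat_lit 1) (p (nat_lit 0x101) (nat_lit 0) (p (nat_lit 0x111) (nat_lit 0) (p (nat_lit 0xd1) (nat_lit 1) (p (nat_lit 0x81) (nat_lit 0) (p (nat_lit 0x41) (nat_lit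 1) (p (nat_lit 0x10a098b090a9a) (nat_lit 0) (p (nat_lit 0x9890a888a1a) (nat_lit 0) (p (nat_lit 0x109088a08079a) (nat_lit 0) (p (nat_lit 0x8880987871a) (nat_lit 0) (p (nat_lit 0x8000000000800080907088a) (nat_lit 0) (p (nat_lit 0x8000000000800078886860a) (nat_lit 0) (p (nat_lit 0x10688060782) (nat_lit 0) (p (nat_lit 0x607858702) (nat_lit 0) (p (nat_lit 0x10587050482) (nat_lit 0) (p (nat_lit 0x506848402) (nat_lit 0) (p (nat_lit 0x16000c) (nat_lit 0) (p (nat_lit 0x50612) (nat_lit 0) (p (nat_lit 0x40592) (nat_lit 0) (p (nat_lit 0x40492) (nat_lit 0) (p (nat_lit 0x30412) (nat_lit 0) (p (nat_lit 0x30212) (nat_lit 0) (p (nat_lit 0x20192) (nat_lit 0) (p (nat_lit 0x20092) (nat_lit 0) (p (nat_lit 0x10012) (nat_lit 0) pn)))))))))))))))))))))))))))))))))))))))) :=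
  Cl.node (nat_lit 0x10f0e900e0f9a) (nat_lit 1) (by decide +kernel) (ClAll.succ ClAll.zero n4)

def n10 : Cl (O (nat_lit 5)) (R (nat_lit 104465))
    (p (nat_lit 0x10f0e900e0f9a) (nat_lit 0) (p (nat_lit 0xe8e0f8d8f1a) (nat_lit 0) (p (nat_lit 0x10e0d8f0d0c9a) (nat_lit 0) (p (nat_lit 0xd8d0e8c8c1a) (nat_lit 0) (p (nat_lit 0x2a825800002680d0d0e0c0d8a) (nat_lit 0) (p (nat_lit 0x2a825800002680d0c8d8b8b0a) (nat_lit 0) (p (nat_lit 0x100004) (nat_lit 0) (p (nat_lit 0x1fc014) (nat_lit 0) (p (nat_lit 0x1fc004) (nat_lit 0) (p (nat_lit 0xb000c) (nat_lit 1) (p (nat_lit 0x380c2) (nat_lit 0) (p (nat_lit 0x444aa) (nat_lit 7) (p (nat_lit 0x111) (nat_lit 0) (p (nat_lit 0xc9) (nat_lit 1) (p (nat_lit 0x81) (nat_lit 0) (p (nat_lit 0x101) (nat_lit 1) (p (nat_lit 0x119) (nat_lit 0) (p (nat_lit 0xd1) (nat_lit 0) (p (nat_lit 0x89) (nat_lit 0) (p (nat_lit 0x41) (nat_lit 0) (p (nat_lit 0x10a098b090a9a)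 (nat_lit 0) (p (nat_lit 0x9890a888a1a) (nat_lit 0) (p (nat_lit 0x109088a08079a) (nat_lit 0) (p (nat_lit 0x8880987871a) (nat_lit 0) (p (nat_lit 0x8000000000800080907088a) (nat_lit 0) (p (nat_lit 0x8000000000800078886860a) (nat_lit 0) (p (nat_lit 0x10688060782) (nat_lit 0) (p (nat_lit 0x607858702) (nat_lit 0) (p (nat_lit 0x10587050482) (nat_lit 0) (p (nat_lit 0x506848402) (nat_lit 0) (p (nat_lit 0x16000c) (nat_lit 0) (p (nat_lit 0x50612) (nat_lit 0) (p (nat_lit 0x40592) (nat_lit 0) (p (nat_lit 0x40492) (nat_lit 0) (p (nat_lit 0x30412) (nat_lit 0) (p (nat_lit 0x30212) (nat_lit 0) (p (nat_lit 0x20192) (nat_lit 0) (p (nat_lit 0x20092) (nat_lit 0) (p (nat_lit 0x10012) (nat_lit 0) pn))))))))))))))))))))))))))))))))))))))) :=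
  Cl.node (nat_lit 0x89) (nat_lit 2) (by decide +kernel) (ClAll.succ (ClAll.succ ClAll.zero s56) s57)

def n11 : Cl (O (nat_lit 5)) (R (nat_lit 104465))
    (p (nat_lit 0x10f0e900e0f9a) (nat_lit 0) (p (nat_lit 0xe8e0f8d8f1a) (nat_lit 0) (p (nat_lit 0x10e0d8f0d0c9a) (nat_lit 0) (p (nat_lit 0xd8d0e8c8c1a) (nat_lit 0) (p (nat_lit 0x2680d000002a8258d0e0c0d8a) (nat_lit 0) (p (nat_lit 0x2680d000002a8258c8d8b8b0a) (nat_lit 0) (p (nat_lit 0x100014) (nat_lit 0) (p (nat_lit 0x1fc014) (nat_lit 0) (p (nat_lit 0x1fc004) (nat_lit 0) (p (nat_lit 0xb000c) (nat_lit 1) (p (nat_lit 0x380c2) (nat_lit 1) (p (nat_lit 0x444aa) (nat_lit 7) (p (nat_lit 0x111) (nat_lit 0) (p (nat_lit 0xc9) (nat_lit 1) (p (nat_lit 0x81) (nat_lit 0) (p (nat_lit 0x101) (nat_lit 1) (p (nat_lit 0x119) (nat_lit 0) (p (nat_lit 0xd1) (nat_lit 0) (p (nat_lit 0x89) (nat_lit 0) (p (nat_lit 0x41) (nat_lit 0) (p (nat_lit 0x10a098b090a9a)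 (nat_lit 0) (p (nat_lit 0x9890a888a1a) (nat_lit 0) (p (nat_lit 0x109088a08079a) (nat_lit 0) (p (nat_lit 0x8880987871a) (nat_lit 0) (p (nat_lit 0x8000000000800080907088a) (nat_lit 0) (p (nat_lit 0x8000000000800078886860a) (nat_lit 0) (p (nat_lit 0x10688060782) (nat_lit 0) (p (nat_lit 0x607858702) (nat_lit 0) (p (nat_lit 0x10587050482) (nat_lit 0) (p (nat_lit 0x506848402) (nat_lit 0) (p (nat_lit 0x16000c) (nat_lit 0) (p (nat_lit 0x50612) (nat_lit 0) (p (nat_lit 0x40592) (nat_lit 0) (p (nat_lit 0x40492) (nat_lit 0) (p (nat_lit 0x30412) (nat_lit 0) (p (nat_lit 0x30212) (nat_lit 0) (p (nat_lit 0x20192) (nat_lit 0) (p (nat_lit 0x20092) (nat_lit 0) (p (nat_lit 0x10012) (nat_lit 0) pn))))))))))))))))))))))))))))))))))))))) :=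
  Cl.node (nat_lit 0x89) (nat_lit 2) (by decide +kernel) (ClAll.succ (ClAll.succ ClAll.zero s74) s75)

def n12 : Cl (O (nat_lit 5)) (R (nat_lit 104465))
    (p (nat_lit 0x10e0d8f0d0c9a) (nat_lit 0) (p (nat_lit 0xd8d0e8c8c1a) (nat_lit 0) (p (nat_lit 0x2680d000002680d0d0e0c0d8a) (nat_lit 0) (p (nat_lit 0x2680d000002680d0c8d8b8b0a) (nat_lit 0) (p (nat_lit 0x100004) (nat_lit 0) (p (nat_lit 0x100014) (nat_lit 0) (p (nat_lit 0x10800c) (nat_lit 0) (p (nat_lit 0x1fc004) (nat_lit 0) (p (nat_lit 0xb000c) (nat_lit 1) (p (nat_lit 0x200014) (nat_lit 0) (p (nat_lit 0x101) (nat_lit 0) (p (nat_lit 0x380c2) (nat_lit 0) (p (nat_lit 0x3cc2a) (nat_lit 2) (p (nat_lit 0x109) (nat_lit 1) (p (nat_lit 0xc9) (nat_lit 1) (p (nat_lit 0xc1) (nat_lit 0) (p (nat_lit 0x119) (nat_lit 1) (p (nat_lit 0xd1) (nat_lit 0) (p (nat_lit 0x89) (nat_lit 0) (p (nat_lit 0x41) (nat_lit 0) (p (nat_lit 0x10a098b090a9a) (nat_lit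 0) (p (nat_lit 0x9890a888a1a) (nat_lit 0) (p (nat_lit 0x109088a08079a) (nat_lit 0) (p (nat_lit 0x8880987871a) (nat_lit 0) (p (nat_lit 0x8000000000800080907088a) (nat_lit 0) (p (nat_lit 0x8000000000800078886860a) (nat_lit 0) (p (nat_lit 0x10688060782) (nat_lit 0) (p (nat_lit 0x607858702) (nat_lit 0) (p (nat_lit 0x10587050482) (nat_lit 0) (p (nat_lit 0x506848402) (nat_lit 0) (p (nat_lit 0x16000c) (nat_lit 0) (p (nat_lit 0x50612) (nat_lit 0) (p (nat_lit 0x40592) (nat_lit 0) (p (nat_lit 0x40492) (nat_lit 0) (p (nat_lit 0x30412) (nat_lit 0) (p (nat_lit 0x30212) (nat_lit 0) (p (nat_lit 0x20192) (nat_lit 0) (p (nat_lit 0x20092) (nat_lit 0) (p (nat_lit 0x10012) (nat_lit 0) pn))))))))))))))))))))))))))))))))))))))) :=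
  Cl.node (nat_lit 0xe8e0f8d8f1a) (nat_lit 1) (by decide +kernel) (ClAll.succ ClAll.zero n5)

def n13 : Cl (O (nat_lit 5)) (R (nat_lit 104465))
    (p (nat_lit 0xe8e0f8d8f1a) (nat_lit 0) (p (nat_lit 0x10e0d8f0d0c9a) (nat_lit 0) (p (nat_lit 0xd8d0e8c8c1a) (nat_lit 0) (p (nat_lit 0x2680d000002680d0d0e0c0d8a) (nat_lit 0) (p (nat_lit 0x2680d000002680d0c8d8b8b0a) (nat_lit 0) (p (nat_lit 0xb000c) (nat_lit 1) (p (nat_lit 0x100004) (nat_lit 0) (p (nat_lit 0x200004) (nat_lit 0) (p (nat_lit 0x100014) (nat_lit 0) (p (nat_lit 0x200014) (nat_lit 0) (p (nat_lit 0xc9) (nat_lit 1) (p (nat_lit 0x380c2) (nat_lit 0) (p (nat_lit 0x3cc2a) (nat_lit 2) (p (nat_lit 0x109) (nat_lit 1) (p (nat_lit 0x81) (nat_lit 0) (p (nat_lit 0xc1) (nat_lit 1) (p (nat_lit 0x119) (nat_lit 1) (p (nat_lit 0xd1) (nat_lit 0) (p (nat_lit 0x89) (nat_lit 0) (p (nat_lit 0x41) (nat_lit 0) (p (nat_lit 0x10a098b090a9a) (nat_lit 0)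 (p (nat_lit 0x9890a888a1a) (nat_lit 0) (p (nat_lit 0x109088a08079a) (nat_lit 0) (p (nat_lit 0x8880987871a) (nat_lit 0) (p (nat_lit 0x8000000000800080907088a) (nat_lit 0) (p (nat_lit 0x8000000000800078886860a) (nat_lit 0) (p (nat_lit 0x10688060782) (nat_lit 0) (p (nat_lit 0x607858702) (nat_lit 0) (p (nat_lit 0x10587050482) (nat_lit 0) (p (nat_lit 0x506848402) (nat_lit 0) (p (nat_lit 0x16000c) (nat_lit 0) (p (nat_lit 0x50612) (nat_lit 0) (p (nat_lit 0x40592) (nat_lit 0) (p (nat_lit 0x40492) (nat_lit 0) (p (nat_lit 0x30412) (nat_lit 0) (p (nat_lit 0x30212) (nat_lit 0) (p (nat_lit 0x20192) (nat_lit 0) (p (nat_lit 0x20092) (nat_lit 0) (p (nat_lit 0x10012) (nat_lit 0) pn))))))))))))))))))))))))))))))))))))))) :=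
  Cl.node (nat_lit 0x10f0e900e0f9a) (nat_lit 1) (by decide +kernel) (ClAll.succ ClAll.zero n6)

def n14 : Cl (O (nat_lit 5)) (R (nat_lit 104465))
    (p (nat_lit 0xe8e0f8d8f1a) (nat_lit 0) (p (nat_lit 0x10e0d8f0d0c9a) (nat_lit 0) (p (nat_lit 0xd8d0e8c8c1a) (nat_lit 0) (p (nat_lit 0x2680d000002a8258d0e0c0d8a) (nat_lit 0) (p (nat_lit 0x2680d000002a8258c8d8b8b0a) (nat_lit 0) (p (nat_lit 0x100014) (nat_lit 0) (p (nat_lit 0x119) (nat_lit 1) (p (nat_lit 0x1fc014) (nat_lit 0) (p (nat_lit 0x1fc004) (nat_lit 0) (p (nat_lit 0xb000c) (nat_lit 1) (p (nat_lit 0x380c2) (nat_lit 1) (p (nat_lit 0x444aa) (nat_lit 7) (p (nat_lit 0x119) (nat_lit 0) (p (nat_lit 0xc1) (nat_lit 0) (p (nat_lit 0x81) (nat_lit 1) (p (nat_lit 0x101) (nat_lit 1) (p (nat_lit 0x111) (nat_lit 0) (p (nat_lit 0xd1) (nat_lit 1) (p (nat_lit 0x89) (nat_lit 0) (p (nat_lit 0x41) (nat_lit 0) (p (nat_lit 0x10a098b090a9a) (nat_lit 0)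 (p (nat_lit 0x9890a888a1a) (nat_lit 0) (p (nat_lit 0x109088a08079a) (nat_lit 0) (p (nat_lit 0x8880987871a) (nat_lit 0) (p (nat_lit 0x8000000000800080907088a) (nat_lit 0) (p (nat_lit 0x8000000000800078886860a) (nat_lit 0) (p (nat_lit 0x10688060782) (nat_lit 0) (p (nat_lit 0x607858702) (nat_lit 0) (p (nat_lit 0x10587050482) (nat_lit 0) (p (nat_lit 0x506848402) (nat_lit 0) (p (nat_lit 0x16000c) (nat_lit 0) (p (nat_lit 0x50612) (nat_lit 0) (p (nat_lit 0x40592) (nat_lit 0) (p (nat_lit 0x40492) (nat_lit 0) (p (nat_lit 0x30412) (nat_lit 0) (p (nat_lit 0x30212) (nat_lit 0) (p (nat_lit 0x20192) (nat_lit 0) (p (nat_lit 0x20092) (nat_lit 0) (p (nat_lit 0x10012) (nat_lit 0) pn))))))))))))))))))))))))))))))))))))))) :=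
  Cl.node (nat_lit 0x10f0e900e0f9a) (nat_lit 1) (by decide +kernel) (ClAll.succ ClAll.zero n7)

def n15 : Cl (O (nat_lit 5)) (R (nat_lit 104465))
    (p (nat_lit 0x10f0e900e0f9a) (nat_lit 0) (p (nat_lit 0xe8e0f8d8f1a) (nat_lit 0) (p (nat_lit 0x10e0d8f0d0c9a) (nat_lit 0) (p (nat_lit 0xd8d0e8c8c1a) (nat_lit 0) (p (nat_lit 0x2a825800002680d0d0e0c0d8a) (nat_lit 0) (p (nat_lit 0x2a825800002680d0c8d8b8b0a) (nat_lit 0) (p (nat_lit 0x100004) (nat_lit 0) (p (nat_lit 0x1fc014) (nat_lit 0) (p (nat_lit 0x1fc004) (nat_lit 0) (p (nat_lit 0xb000c) (nat_lit 1) (p (nat_lit 0x380c2) (nat_lit 0) (p (nat_lit 0x444aa) (nat_lit 7) (p (nat_lit 0xd1) (nat_lit 1) (p (nat_lit 0x111) (nat_lit 1) (p (nat_lit 0x109) (nat_lit 0) (p (nat_lit 0x101) (nat_lit 0) (p (nat_lit 0x119) (nat_lit 0) (p (nat_lit 0xc9) (nat_lit 0) (p (nat_lit 0x89) (nat_lit 1) (p (nat_lit 0x41) (nat_lit 0) (p (nat_lit 0x10a098b090a9a)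 (nat_lit 0) (p (nat_lit 0x9890a888a1a) (nat_lit 0) (p (nat_lit 0x109088a08079a) (nat_lit 0) (p (nat_lit 0x8880987871a) (nat_lit 0) (p (nat_lit 0x8000000000800080907088a) (nat_lit 0) (p (nat_lit 0x8000000000800078886860a) (nat_lit 0) (p (nat_lit 0x10688060782) (nat_lit 0) (p (nat_lit 0x607858702) (nat_lit 0) (p (nat_lit 0x10587050482) (nat_lit 0) (p (nat_lit 0x506848402) (nat_lit 0) (p (nat_lit 0x16000c) (nat_lit 0) (p (nat_lit 0x50612) (nat_lit 0) (p (nat_lit 0x40592) (nat_lit 0) (p (nat_lit 0x40492) (nat_lit 0) (p (nat_lit 0x30412) (nat_lit 0) (p (nat_lit 0x30212) (nat_lit 0) (p (nat_lit 0x20192) (nat_lit 0) (p (nat_lit 0x20092) (nat_lit 0) (p (nat_lit 0x10012) (nat_lit 0) pn))))))))))))))))))))))))))))))))))))))) :=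
  Cl.node (nat_lit 0xc1) (nat_lit 2) (by decide +kernel) (ClAll.succ (ClAll.succ ClAll.zero n8) s387)

def n16 : Cl (O (nat_lit 5)) (R (nat_lit 104465))
    (p (nat_lit 0x2e84880000228010d0e0c0d8a) (nat_lit 0) (p (nat_lit 0x2e84880000228010c8d8b8b0a) (nat_lit 0) (p (nat_lit 0x80004) (nat_lit 0) (p (nat_lit 0x13400c) (nat_lit 0) (p (nat_lit 0x80014) (nat_lit 1) (p (nat_lit 0x100014) (nat_lit 0) (p (nat_lit 0x100004) (nat_lit 0) (p (nat_lit 0x1fc014) (nat_lit 0) (p (nat_lit 0x1fc004) (nat_lit 0) (p (nat_lit 0xb000c) (nat_lit 1) (p (nat_lit 0x380c2) (nat_lit 1) (p (nat_lit 0x444aa) (nat_lit 7) (p (nat_lit 0xd1) (nat_lit 1) (p (nat_lit 0x111) (nat_lit 1) (p (nat_lit 0x109) (nat_lit 0) (p (nat_lit 0x101) (nat_lit 0) (p (nat_lit 0x119) (nat_lit 0) (p (nat_lit 0xc9) (nat_lit 0) (p (nat_lit 0x89) (nat_lit 1) (p (nat_lit 0x41) (nat_lit 0) (p (nat_lit 0x10a098b090a9a) (nat_lit 0) (p (nat_lit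 0x9890a888a1a) (nat_lit 0) (p (nat_lit 0x109088a08079a) (nat_lit 0) (p (nat_lit 0x8880987871a) (nat_lit 0) (p (nat_lit 0x8000000000800080907088a) (nat_lit 0) (p (nat_lit 0x8000000000800078886860a) (nat_lit 0) (p (nat_lit 0x10688060782) (nat_lit 0) (p (nat_lit 0x607858702) (nat_lit 0) (p (nat_lit 0x10587050482) (nat_lit 0) (p (nat_lit 0x506848402) (nat_lit 0) (p (nat_lit 0x16000c) (nat_lit 0) (p (nat_lit 0x50612) (nat_lit 0) (p (nat_lit 0x40592) (nat_lit 0) (p (nat_lit 0x40492) (nat_lit 0) (p (nat_lit 0x30412) (nat_lit 0) (p (nat_lit 0x30212) (nat_lit 0) (p (nat_lit 0x20192) (nat_lit 0) (p (nat_lit 0x20092) (nat_lit 0) (p (nat_lit 0x10012) (nat_lit 0) pn))))))))))))))))))))))))))))))))))))))) :=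
  Cl.node (nat_lit 0xc1) (nat_lit 2) (by decide +kernel) (ClAll.succ (ClAll.succ ClAll.zero s397) s398)

def n17 : Cl (O (nat_lit 5)) (R (nat_lit 104465))
    (p (nat_lit 0x10e0d8f0d0c9a) (nat_lit 0) (p (nat_lit 0xd8d0e8c8c1a) (nat_lit 0) (p (nat_lit 0x2680d000002680d0d0e0c0d8a) (nat_lit 0) (p (nat_lit 0x2680d000002680d0c8d8b8b0a) (nat_lit 0) (p (nat_lit 0x100004) (nat_lit 0) (p (nat_lit 0x100014) (nat_lit 0) (p (nat_lit 0x1fc014) (nat_lit 0) (p (nat_lit 0x1fc004) (nat_lit 0) (p (nat_lit 0xb000c) (nat_lit 1) (p (nat_lit 0x380c2) (nat_lit 1) (p (nat_lit 0x4c42a) (nat_lit 10) (p (nat_lit 0x119) (nat_lit 1) (p (nat_lit 0xc9) (nat_lit 0) (p (nat_lit 0x89) (nat_lit 1) (p (nat_lit 0x109) (nat_lit 1) (p (nat_lit 0x101) (nat_lit 0) (p (nat_lit 0x111) (nat_lit 0) (p (nat_lit 0xd1) (nat_lit 1) (p (nat_lit 0x81) (nat_lit 0) (p (nat_lit 0x41) (nat_lit 1) (p (nat_lit 0x10a098b090a9a) (nat_lit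 0) (p (nat_lit 0x9890a888a1a) (nat_lit 0) (p (nat_lit 0x109088a08079a) (nat_lit 0) (p (nat_lit 0x8880987871a) (nat_lit 0) (p (nat_lit 0x8000000000800080907088a) (nat_lit 0) (p (nat_lit 0x8000000000800078886860a) (nat_lit 0) (p (nat_lit 0x10688060782) (nat_lit 0) (p (nat_lit 0x607858702) (nat_lit 0) (p (nat_lit 0x10587050482) (nat_lit 0) (p (nat_lit 0x506848402) (nat_lit 0) (p (nat_lit 0x16000c) (nat_lit 0) (p (nat_lit 0x50612) (nat_lit 0) (p (nat_lit 0x40592) (nat_lit 0) (p (nat_lit 0x40492) (nat_lit 0) (p (nat_lit 0x30412) (nat_lit 0) (p (nat_lit 0x30212) (nat_lit 0) (p (nat_lit 0x20192) (nat_lit 0) (p (nat_lit 0x20092) (nat_lit 0) (p (nat_lit 0x10012) (nat_lit 0) pn))))))))))))))))))))))))))))))))))))))) :=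
  Cl.node (nat_lit 0xe8e0f8d8f1a) (nat_lit 1) (by decide +kernel) (ClAll.succ ClAll.zero n9)

def n18 : Cl (O (nat_lit 5)) (R (nat_lit 104465))
    (p (nat_lit 0xe8e0f8d8f1a) (nat_lit 0) (p (nat_lit 0x10e0d8f0d0c9a) (nat_lit 0) (p (nat_lit 0xd8d0e8c8c1a) (nat_lit 0) (p (nat_lit 0x2a825800002680d0d0e0c0d8a) (nat_lit 0) (p (nat_lit 0x2a825800002680d0c8d8b8b0a) (nat_lit 0) (p (nat_lit 0x100004) (nat_lit 0) (p (nat_lit 0x1fc014) (nat_lit 0) (p (nat_lit 0x1fc004) (nat_lit 0) (p (nat_lit 0xb000c) (nat_lit 1) (p (nat_lit 0x380c2) (nat_lit 0) (p (nat_lit 0x444aa) (nat_lit 7) (p (nat_lit 0x111) (nat_lit 0) (p (nat_lit 0xc9) (nat_lit 1) (p (nat_lit 0x81) (nat_lit 0) (p (nat_lit 0x101) (nat_lit 1) (p (nat_lit 0x119) (nat_lit 0) (p (nat_lit 0xd1) (nat_lit 0) (p (nat_lit 0x89) (nat_lit 0) (p (nat_lit 0x41) (nat_lit 0) (p (nat_lit 0x10a098b090a9a) (nat_lit 0) (p (nat_lit 0x9890a888a1a) (nat_lit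 0) (p (nat_lit 0x109088a08079a) (nat_lit 0) (p (nat_lit 0x8880987871a) (nat_lit 0) (p (nat_lit 0x8000000000800080907088a) (nat_lit 0) (p (nat_lit 0x8000000000800078886860a) (nat_lit 0) (p (nat_lit 0x10688060782) (nat_lit 0) (p (nat_lit 0x607858702) (nat_lit 0) (p (nat_lit 0x10587050482) (nat_lit 0) (p (nat_lit 0x506848402) (nat_lit 0) (p (nat_lit 0x16000c) (nat_lit 0) (p (nat_lit 0x50612) (nat_lit 0) (p (nat_lit 0x40592) (nat_lit 0) (p (nat_lit 0x40492) (nat_lit 0) (p (nat_lit 0x30412) (nat_lit 0) (p (nat_lit 0x30212) (nat_lit 0) (p (nat_lit 0x20192) (nat_lit 0) (p (nat_lit 0x20092) (nat_lit 0) (p (nat_lit 0x10012) (nat_lit 0) pn)))))))))))))))))))))))))))))))))))))) :=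
  Cl.node (nat_lit 0x10f0e900e0f9a) (nat_lit 1) (by decide +kernel) (ClAll.succ ClAll.zero n10)

def n19 : Cl (O (nat_lit 5)) (R (nat_lit 104465))
    (p (nat_lit 0xe8e0f8d8f1a) (nat_lit 0) (p (nat_lit 0x10e0d8f0d0c9a) (nat_lit 0) (p (nat_lit 0xd8d0e8c8c1a) (nat_lit 0) (p (nat_lit 0x2680d000002a8258d0e0c0d8a) (nat_lit 0) (p (nat_lit 0x2680d000002a8258c8d8b8b0a) (nat_lit 0) (p (nat_lit 0x100014) (nat_lit 0) (p (nat_lit 0x1fc014) (nat_lit 0) (p (nat_lit 0x1fc004) (nat_lit 0) (p (nat_lit 0xb000c) (nat_lit 1) (p (nat_lit 0x380c2) (nat_lit 1) (p (nat_lit 0x444aa) (nat_lit 7) (p (nat_lit 0x111) (nat_lit 0) (p (nat_lit 0xc9) (nat_lit 1) (p (nat_lit 0x81) (nat_lit 0) (p (nat_lit 0x101) (nat_lit 1) (p (nat_lit 0x119) (nat_lit 0) (p (nat_lit 0xd1) (nat_lit 0) (p (nat_lit 0x89) (nat_lit 0) (p (nat_lit 0x41) (nat_lit 0) (p (nat_lit 0x10a098b090a9a) (nat_lit 0) (p (nat_lit 0x9890a888a1a) (nat_lit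 0) (p (nat_lit 0x109088a08079a) (nat_lit 0) (p (nat_lit 0x8880987871a) (nat_lit 0) (p (nat_lit 0x8000000000800080907088a) (nat_lit 0) (p (nat_lit 0x8000000000800078886860a) (nat_lit 0) (p (nat_lit 0x10688060782) (nat_lit 0) (p (nat_lit 0x607858702) (nat_lit 0) (p (nat_lit 0x10587050482) (nat_lit 0) (p (nat_lit 0x506848402) (nat_lit 0) (p (nat_lit 0x16000c) (nat_lit 0) (p (nat_lit 0x50612) (nat_lit 0) (p (nat_lit 0x40592) (nat_lit 0) (p (nat_lit 0x40492) (nat_lit 0) (p (nat_lit 0x30412) (nat_lit 0) (p (nat_lit 0x30212) (nat_lit 0) (p (nat_lit 0x20192) (nat_lit 0) (p (nat_lit 0x20092) (nat_lit 0) (p (nat_lit 0x10012) (nat_lit 0) pn)))))))))))))))))))))))))))))))))))))) :=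
  Cl.node (nat_lit 0x10f0e900e0f9a) (nat_lit 1) (by decide +kernel) (ClAll.succ ClAll.zero n11)

def n20 : Cl (O (nat_lit 5)) (R (nat_lit 104465))
    (p (nat_lit 0xd8d0e8c8c1a) (nat_lit 0) (p (nat_lit 0x2680d000002680d0d0e0c0d8a) (nat_lit 0) (p (nat_lit 0x2680d000002680d0c8d8b8b0a) (nat_lit 0) (p (nat_lit 0x100004) (nat_lit 0) (p (nat_lit 0x100014) (nat_lit 0) (p (nat_lit 0x10800c) (nat_lit 0) (p (nat_lit 0x1fc004) (nat_lit 0) (p (nat_lit 0xb000c) (nat_lit 1) (p (nat_lit 0x200014) (nat_lit 0) (p (nat_lit 0x101) (nat_lit 0) (p (nat_lit 0x380c2) (nat_lit 0) (p (nat_lit 0x3cc2a) (nat_lit 2) (p (nat_lit 0x109) (nat_lit 1) (p (nat_lit 0xc9) (nat_lit 1) (p (nat_lit 0xc1) (nat_lit 0) (p (nat_lit 0x119) (nat_lit 1) (p (nat_lit 0xd1) (nat_lit 0) (p (nat_lit 0x89) (nat_lit 0) (p (nat_lit 0x41) (nat_lit 0) (p (nat_lit 0x10a098b090a9a) (nat_lit 0) (p (nat_lit 0x9890a888a1a) (nat_lit 0) (p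 (nat_lit 0x109088a08079a) (nat_lit 0) (p (nat_lit 0x8880987871a) (nat_lit 0) (p (nat_lit 0x8000000000800080907088a) (nat_lit 0) (p (nat_lit 0x8000000000800078886860a) (nat_lit 0) (p (nat_lit 0x10688060782) (nat_lit 0) (p (nat_lit 0x607858702) (nat_lit 0) (p (nat_lit 0x10587050482) (nat_lit 0) (p (nat_lit 0x506848402) (nat_lit 0) (p (nat_lit 0x16000c) (nat_lit 0) (p (nat_lit 0x50612) (nat_lit 0) (p (nat_lit 0x40592) (nat_lit 0) (p (nat_lit 0x40492) (nat_lit 0) (p (nat_lit 0x30412) (nat_lit 0) (p (nat_lit 0x30212) (nat_lit 0) (p (nat_lit 0x20192) (nat_lit 0) (p (nat_lit 0x20092) (nat_lit 0) (p (nat_lit 0x10012) (nat_lit 0) pn)))))))))))))))))))))))))))))))))))))) :=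
  Cl.node (nat_lit 0x10e0d8f0d0c9a) (nat_lit 1) (by decide +kernel) (ClAll.succ ClAll.zero n12)

def n21 : Cl (O (nat_lit 5)) (R (nat_lit 104465))
    (p (nat_lit 0x10e0d8f0d0c9a) (nat_lit 0) (p (nat_lit 0xd8d0e8c8c1a) (nat_lit 0) (p (nat_lit 0x2680d000002680d0d0e0c0d8a) (nat_lit 0) (p (nat_lit 0x2680d000002680d0c8d8b8b0a) (nat_lit 0) (p (nat_lit 0xb000c) (nat_lit 1) (p (nat_lit 0x100004) (nat_lit 0) (p (nat_lit 0x200004) (nat_lit 0) (p (nat_lit 0x100014) (nat_lit 0) (p (nat_lit 0x200014) (nat_lit 0) (p (nat_lit 0xc9) (nat_lit 1) (p (nat_lit 0x380c2) (nat_lit 0) (p (nat_lit 0x3cc2a) (nat_lit 2) (p (nat_lit 0x109) (nat_lit 1) (p (nat_lit 0x81) (nat_lit 0) (p (nat_lit 0xc1) (nat_lit 1) (p (nat_lit 0x119) (nat_lit 1) (p (nat_lit 0xd1) (nat_lit 0) (p (nat_lit 0x89) (nat_lit 0) (p (nat_lit 0x41) (nat_lit 0) (p (nat_lit 0x10a098b090a9a) (nat_lit 0) (p (nat_lit 0x9890a888a1a) (nat_lit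 0) (p (nat_lit 0x109088a08079a) (nat_lit 0) (p (nat_lit 0x8880987871a) (nat_lit 0) (p (nat_lit 0x8000000000800080907088a) (nat_lit 0) (p (nat_lit 0x8000000000800078886860a) (nat_lit 0) (p (nat_lit 0x10688060782) (nat_lit 0) (p (nat_lit 0x607858702) (nat_lit 0) (p (nat_lit 0x10587050482) (nat_lit 0) (p (nat_lit 0x506848402) (nat_lit 0) (p (nat_lit 0x16000c) (nat_lit 0) (p (nat_lit 0x50612) (nat_lit 0) (p (nat_lit 0x40592) (nat_lit 0) (p (nat_lit 0x40492) (nat_lit 0) (p (nat_lit 0x30412) (nat_lit 0) (p (nat_lit 0x30212) (nat_lit 0) (p (nat_lit 0x20192) (nat_lit 0) (p (nat_lit 0x20092) (nat_lit 0) (p (nat_lit 0x10012) (nat_lit 0) pn)))))))))))))))))))))))))))))))))))))) :=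
  Cl.node (nat_lit 0xe8e0f8d8f1a) (nat_lit 1) (by decide +kernel) (ClAll.succ ClAll.zero n13)

def n22 : Cl (O (nat_lit 5)) (R (nat_lit 104465))
    (p (nat_lit 0x10e0d8f0d0c9a) (nat_lit 0) (p (nat_lit 0xd8d0e8c8c1a) (nat_lit 0) (p (nat_lit 0x2680d000002a8258d0e0c0d8a) (nat_lit 0) (p (nat_lit 0x2680d000002a8258c8d8b8b0a) (nat_lit 0) (p (nat_lit 0x100014) (nat_lit 0) (p (nat_lit 0x119) (nat_lit 1) (p (nat_lit 0x1fc014) (nat_lit 0) (p (nat_lit 0x1fc004) (nat_lit 0) (p (nat_lit 0xb000c) (nat_lit 1) (p (nat_lit 0x380c2) (nat_lit 1) (p (nat_lit 0x444aa) (nat_lit 7) (p (nat_lit 0x119) (nat_lit 0) (p (nat_lit 0xc1) (nat_lit 0) (p (nat_lit 0x81) (nat_lit 1) (p (nat_lit 0x101) (nat_lit 1) (p (nat_lit 0x111) (nat_lit 0) (p (nat_lit 0xd1) (nat_lit 1) (p (nat_lit 0x89) (nat_lit 0) (p (nat_lit 0x41) (nat_lit 0) (p (nat_lit 0x10a098b090a9a) (nat_lit 0) (p (nat_lit 0x9890a888a1a) (nat_lit 0)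 (p (nat_lit 0x109088a08079a) (nat_lit 0) (p (nat_lit 0x8880987871a) (nat_lit 0) (p (nat_lit 0x8000000000800080907088a) (nat_lit 0) (p (nat_lit 0x8000000000800078886860a) (nat_lit 0) (p (nat_lit 0x10688060782) (nat_lit 0) (p (nat_lit 0x607858702) (nat_lit 0) (p (nat_lit 0x10587050482) (nat_lit 0) (p (nat_lit 0x506848402) (nat_lit 0) (p (nat_lit 0x16000c) (nat_lit 0) (p (nat_lit 0x50612) (nat_lit 0) (p (nat_lit 0x40592) (nat_lit 0) (p (nat_lit 0x40492) (nat_lit 0) (p (nat_lit 0x30412) (nat_lit 0) (p (nat_lit 0x30212) (nat_lit 0) (p (nat_lit 0x20192) (nat_lit 0) (p (nat_lit 0x20092) (nat_lit 0) (p (nat_lit 0x10012) (nat_lit 0) pn)))))))))))))))))))))))))))))))))))))) :=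
  Cl.node (nat_lit 0xe8e0f8d8f1a) (nat_lit 1) (by decide +kernel) (ClAll.succ ClAll.zero n14)

def n23 : Cl (O (nat_lit 5)) (R (nat_lit 104465))
    (p (nat_lit 0xe8e0f8d8f1a) (nat_lit 0) (p (nat_lit 0x10e0d8f0d0c9a) (nat_lit 0) (p (nat_lit 0xd8d0e8c8c1a) (nat_lit 0) (p (nat_lit 0x2a825800002680d0d0e0c0d8a) (nat_lit 0) (p (nat_lit 0x2a825800002680d0c8d8b8b0a) (nat_lit 0) (p (nat_lit 0x100004) (nat_lit 0) (p (nat_lit 0x1fc014) (nat_lit 0) (p (nat_lit 0x1fc004) (nat_lit 0) (p (nat_lit 0xb000c) (nat_lit 1) (p (nat_lit 0x380c2) (nat_lit 0) (p (nat_lit 0x444aa) (nat_lit 7) (p (nat_lit 0xd1) (nat_lit 1) (p (nat_lit 0x111) (nat_lit 1) (p (nat_lit 0x109) (nat_lit 0) (p (nat_lit 0x101) (nat_lit 0) (p (nat_lit 0x119) (nat_lit 0) (p (nat_lit 0xc9) (nat_lit 0) (p (nat_lit 0x89) (nat_lit 1) (p (nat_lit 0x41) (nat_lit 0) (p (nat_lit 0x10a098b090a9a) (nat_lit 0) (p (nat_lit 0x9890a888a1a) (nat_lit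 0) (p (nat_lit 0x109088a08079a) (nat_lit 0) (p (nat_lit 0x8880987871a) (nat_lit 0) (p (nat_lit 0x8000000000800080907088a) (nat_lit 0) (p (nat_lit 0x8000000000800078886860a) (nat_lit 0) (p (nat_lit 0x10688060782) (nat_lit 0) (p (nat_lit 0x607858702) (nat_lit 0) (p (nat_lit 0x10587050482) (nat_lit 0) (p (nat_lit 0x506848402) (nat_lit 0) (p (nat_lit 0x16000c) (nat_lit 0) (p (nat_lit 0x50612) (nat_lit 0) (p (nat_lit 0x40592) (nat_lit 0) (p (nat_lit 0x40492) (nat_lit 0) (p (nat_lit 0x30412) (nat_lit 0) (p (nat_lit 0x30212) (nat_lit 0) (p (nat_lit 0x20192) (nat_lit 0) (p (nat_lit 0x20092) (nat_lit 0) (p (nat_lit 0x10012) (nat_lit 0) pn)))))))))))))))))))))))))))))))))))))) :=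
  Cl.node (nat_lit 0x10f0e900e0f9a) (nat_lit 1) (by decide +kernel) (ClAll.succ ClAll.zero n15)

def n24 : Cl (O (nat_lit 5)) (R (nat_lit 104465))
    (p (nat_lit 0x2e84880000228010c8d8b8b0a) (nat_lit 0) (p (nat_lit 0x80004) (nat_lit 0) (p (nat_lit 0x13400c) (nat_lit 0) (p (nat_lit 0x80014) (nat_lit 1) (p (nat_lit 0x100014) (nat_lit 0) (p (nat_lit 0x100004) (nat_lit 0) (p (nat_lit 0x1fc014) (nat_lit 0) (p (nat_lit 0x1fc004) (nat_lit 0) (p (nat_lit 0xb000c) (nat_lit 1) (p (nat_lit 0x380c2) (nat_lit 1) (p (nat_lit 0x444aa) (nat_lit 7) (p (nat_lit 0xd1) (nat_lit 1) (p (nat_lit 0x111) (nat_lit 1) (p (nat_lit 0x109) (nat_lit 0) (p (nat_lit 0x101) (nat_lit 0) (p (nat_lit 0x119) (nat_lit 0) (p (nat_lit 0xc9) (nat_lit 0) (p (nat_lit 0x89) (nat_lit 1) (p (nat_lit 0x41) (nat_lit 0) (p (nat_lit 0x10a098b090a9a) (nat_lit 0) (p (nat_lit 0x9890a888a1a) (nat_lit 0) (p (nat_lit 0x109088a08079a)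 (nat_lit 0) (p (nat_lit 0x8880987871a) (nat_lit 0) (p (nat_lit 0x8000000000800080907088a) (nat_lit 0) (p (nat_lit 0x8000000000800078886860a) (nat_lit 0) (p (nat_lit 0x10688060782) (nat_lit 0) (p (nat_lit 0x607858702) (nat_lit 0) (p (nat_lit 0x10587050482) (nat_lit 0) (p (nat_lit 0x506848402) (nat_lit 0) (p (nat_lit 0x16000c) (nat_lit 0) (p (nat_lit 0x50612) (nat_lit 0) (p (nat_lit 0x40592) (nat_lit 0) (p (nat_lit 0x40492) (nat_lit 0) (p (nat_lit 0x30412) (nat_lit 0) (p (nat_lit 0x30212) (nat_lit 0) (p (nat_lit 0x20192) (nat_lit 0) (p (nat_lit 0x20092) (nat_lit 0) (p (nat_lit 0x10012) (nat_lit 0) pn)))))))))))))))))))))))))))))))))))))) :=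
  Cl.node (nat_lit 0x2e84880000228010d0e0c0d8a) (nat_lit 1) (by decide +kernel) (ClAll.succ ClAll.zero n16)

def n25 : Cl (O (nat_lit 5)) (R (nat_lit 104465))
    (p (nat_lit 0x109) (nat_lit 1) (p (nat_lit 0xc9) (nat_lit 1) (p (nat_lit 0x80004) (nat_lit 0) (p (nat_lit 0x41) (nat_lit 0) (p (nat_lit 0x100014) (nat_lit 0) (p (nat_lit 0x100004) (nat_lit 0) (p (nat_lit 0x200004) (nat_lit 0) (p (nat_lit 0x200014) (nat_lit 0) (p (nat_lit 0x380c2) (nat_lit 0) (p (nat_lit 0x4c42a) (nat_lit 10) (p (nat_lit 0x119) (nat_lit 1) (p (nat_lit 0xc9) (nat_lit 0) (p (nat_lit 0x89) (nat_lit 1) (p (nat_lit 0x109) (nat_lit 1) (p (nat_lit 0x101) (nat_lit 0) (p (nat_lit 0x111) (nat_lit 0) (p (nat_lit 0xd1) (nat_lit 1) (p (nat_lit 0x81) (nat_lit 0) (p (nat_lit 0x41) (nat_lit 1) (p (nat_lit 0x10a098b090a9a) (nat_lit 0) (p (nat_lit 0x9890a888a1a) (nat_lit 0) (p (nat_lit 0x109088a08079a) (nat_lit 0) (p (nat_lit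 0x8880987871a) (nat_lit 0) (p (nat_lit 0x8000000000800080907088a) (nat_lit 0) (p (nat_lit 0x8000000000800078886860a) (nat_lit 0) (p (nat_lit 0x10688060782) (nat_lit 0) (p (nat_lit 0x607858702) (nat_lit 0) (p (nat_lit 0x10587050482) (nat_lit 0) (p (nat_lit 0x506848402) (nat_lit 0) (p (nat_lit 0x16000c) (nat_lit 0) (p (nat_lit 0x50612) (nat_lit 0) (p (nat_lit 0x40592) (nat_lit 0) (p (nat_lit 0x40492) (nat_lit 0) (p (nat_lit 0x30412) (nat_lit 0) (p (nat_lit 0x30212) (nat_lit 0) (p (nat_lit 0x20192) (nat_lit 0) (p (nat_lit 0x20092) (nat_lit 0) (p (nat_lit 0x10012) (nat_lit 0) pn)))))))))))))))))))))))))))))))))))))) :=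
  Cl.node (nat_lit 0x80014) (nat_lit 2) (by decide +kernel) (ClAll.succ (ClAll.succ ClAll.zero s805) s806)

def n26 : Cl (O (nat_lit 5)) (R (nat_lit 104465))
    (p (nat_lit 0x9c00c) (nat_lit 1) (p (nat_lit 0x13400c) (nat_lit 0) (p (nat_lit 0x80004) (nat_lit 1) (p (nat_lit 0x41) (nat_lit 0) (p (nat_lit 0x100014) (nat_lit 0) (p (nat_lit 0x100004) (nat_lit 0) (p (nat_lit 0x200004) (nat_lit 0) (p (nat_lit 0x200014) (nat_lit 0) (p (nat_lit 0x380c2) (nat_lit 0) (p (nat_lit 0x4c42a) (nat_lit 10) (p (nat_lit 0x119) (nat_lit 1) (p (nat_lit 0xc9) (nat_lit 0) (p (nat_lit 0x89) (nat_lit 1) (p (nat_lit 0x109) (nat_lit 1) (p (nat_lit 0x101) (nat_lit 0) (p (nat_lit 0x111) (nat_lit 0) (p (nat_lit 0xd1) (nat_lit 1) (p (nat_lit 0x81) (nat_lit 0) (p (nat_lit 0x41) (nat_lit 1) (p (nat_lit 0x10a098b090a9a) (nat_lit 0) (p (nat_lit 0x9890a888a1a) (nat_lit 0) (p (nat_lit 0x109088a08079a) (nat_lit 0)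 (p (nat_lit 0x8880987871a) (nat_lit 0) (p (nat_lit 0x8000000000800080907088a) (nat_lit 0) (p (nat_lit 0x8000000000800078886860a) (nat_lit 0) (p (nat_lit 0x10688060782) (nat_lit 0) (p (nat_lit 0x607858702) (nat_lit 0) (p (nat_lit 0x10587050482) (nat_lit 0) (p (nat_lit 0x506848402) (nat_lit 0) (p (nat_lit 0x16000c) (nat_lit 0) (p (nat_lit 0x50612) (nat_lit 0) (p (nat_lit 0x40592) (nat_lit 0) (p (nat_lit 0x40492) (nat_lit 0) (p (nat_lit 0x30412) (nat_lit 0) (p (nat_lit 0x30212) (nat_lit 0) (p (nat_lit 0x20192) (nat_lit 0) (p (nat_lit 0x20092) (nat_lit 0) (p (nat_lit 0x10012) (nat_lit 0) pn)))))))))))))))))))))))))))))))))))))) :=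
  Cl.node (nat_lit 0x80014) (nat_lit 2) (by decide +kernel) (ClAll.succ (ClAll.succ ClAll.zero s808) s809)

def n27 : Cl (O (nat_lit 5)) (R (nat_lit 104465))
    (p (nat_lit 0xd8d0e8c8c1a) (nat_lit 0) (p (nat_lit 0x2680d000002680d0d0e0c0d8a) (nat_lit 0) (p (nat_lit 0x2680d000002680d0c8d8b8b0a) (nat_lit 0) (p (nat_lit 0x100004) (nat_lit 0) (p (nat_lit 0x100014) (nat_lit 0) (p (nat_lit 0x1fc014) (nat_lit 0) (p (nat_lit 0x1fc004) (nat_lit 0) (p (nat_lit 0xb000c) (nat_lit 1) (p (nat_lit 0x380c2) (nat_lit 1) (p (nat_lit 0x4c42a) (nat_lit 10) (p (nat_lit 0x119) (nat_lit 1) (p (nat_lit 0xc9) (nat_lit 0) (p (nat_lit 0x89) (nat_lit 1) (p (nat_lit 0x109) (nat_lit 1) (p (nat_lit 0x101) (nat_lit 0) (p (nat_lit 0x111) (nat_lit 0) (p (nat_lit 0xd1) (nat_lit 1) (p (nat_lit 0x81) (nat_lit 0) (p (nat_lit 0x41) (nat_lit 1) (p (nat_lit 0x10a098b090a9a) (nat_lit 0) (p (nat_lit 0x9890a888a1a) (nat_lit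 0) (p (nat_lit 0x109088a08079a) (nat_lit 0) (p (nat_lit 0x8880987871a) (nat_lit 0) (p (nat_lit 0x8000000000800080907088a) (nat_lit 0) (p (nat_lit 0x8000000000800078886860a) (nat_lit 0) (p (nat_lit 0x10688060782) (nat_lit 0) (p (nat_lit 0x607858702) (nat_lit 0) (p (nat_lit 0x10587050482) (nat_lit 0) (p (nat_lit 0x506848402) (nat_lit 0) (p (nat_lit 0x16000c) (nat_lit 0) (p (nat_lit 0x50612) (nat_lit 0) (p (nat_lit 0x40592) (nat_lit 0) (p (nat_lit 0x40492) (nat_lit 0) (p (nat_lit 0x30412) (nat_lit 0) (p (nat_lit 0x30212) (nat_lit 0) (p (nat_lit 0x20192) (nat_lit 0) (p (nat_lit 0x20092) (nat_lit 0) (p (nat_lit 0x10012) (nat_lit 0) pn)))))))))))))))))))))))))))))))))))))) :=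
  Cl.node (nat_lit 0x10e0d8f0d0c9a) (nat_lit 1) (by decide +kernel) (ClAll.succ ClAll.zero n17)

def n28 : Cl (O (nat_lit 5)) (R (nat_lit 104465))
    (p (nat_lit 0x10e0d8f0d0c9a) (nat_lit 0) (p (nat_lit 0xd8d0e8c8c1a) (nat_lit 0) (p (nat_lit 0x2a825800002680d0d0e0c0d8a) (nat_lit 0) (p (nat_lit 0x2a825800002680d0c8d8b8b0a) (nat_lit 0) (p (nat_lit 0x100004) (nat_lit 0) (p (nat_lit 0x1fc014) (nat_lit 0) (p (nat_lit 0x1fc004) (nat_lit 0) (p (nat_lit 0xb000c) (nat_lit 1) (p (nat_lit 0x380c2) (nat_lit 0) (p (nat_lit 0x444aa) (nat_lit 7) (p (nat_lit 0x111) (nat_lit 0) (p (nat_lit 0xc9) (nat_lit 1) (p (nat_lit 0x81) (nat_lit 0) (p (nat_lit 0x101) (nat_lit 1) (p (nat_lit 0x119) (nat_lit 0) (p (nat_lit 0xd1) (nat_lit 0) (p (nat_lit 0x89) (nat_lit 0) (p (nat_lit 0x41) (nat_lit 0) (p (nat_lit 0x10a098b090a9a) (nat_lit 0) (p (nat_lit 0x9890a888a1a) (nat_lit 0) (p (nat_lit 0x109088a08079a)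 (nat_lit 0) (p (nat_lit 0x8880987871a) (nat_lit 0) (p (nat_lit 0x8000000000800080907088a) (nat_lit 0) (p (nat_lit 0x8000000000800078886860a) (nat_lit 0) (p (nat_lit 0x10688060782) (nat_lit 0) (p (nat_lit 0x607858702) (nat_lit 0) (p (nat_lit 0x10587050482) (nat_lit 0) (p (nat_lit 0x506848402) (nat_lit 0) (p (nat_lit 0x16000c) (nat_lit 0) (p (nat_lit 0x50612) (nat_lit 0) (p (nat_lit 0x40592) (nat_lit 0) (p (nat_lit 0x40492) (nat_lit 0) (p (nat_lit 0x30412) (nat_lit 0) (p (nat_lit 0x30212) (nat_lit 0) (p (nat_lit 0x20192) (nat_lit 0) (p (nat_lit 0x20092) (nat_lit 0) (p (nat_lit 0x10012) (nat_lit 0) pn))))))))))))))))))))))))))))))))))))) :=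
  Cl.node (nat_lit 0xe8e0f8d8f1a) (nat_lit 1) (by decide +kernel) (ClAll.succ ClAll.zero n18)

def n29 : Cl (O (nat_lit 5)) (R (nat_lit 104465))
    (p (nat_lit 0x10e0d8f0d0c9a) (nat_lit 0) (p (nat_lit 0xd8d0e8c8c1a) (nat_lit 0) (p (nat_lit 0x2680d000002a8258d0e0c0d8a) (nat_lit 0) (p (nat_lit 0x2680d000002a8258c8d8b8b0a) (nat_lit 0) (p (nat_lit 0x100014) (nat_lit 0) (p (nat_lit 0x1fc014) (nat_lit 0) (p (nat_lit 0x1fc004) (nat_lit 0) (p (nat_lit 0xb000c) (nat_lit 1) (p (nat_lit 0x380c2) (nat_lit 1) (p (nat_lit 0x444aa) (nat_lit 7) (p (nat_lit 0x111) (nat_lit 0) (p (nat_lit 0xc9) (nat_lit 1) (p (nat_lit 0x81) (nat_lit 0) (p (nat_lit 0x101) (nat_lit 1) (p (nat_lit 0x119) (nat_lit 0) (p (nat_lit 0xd1) (nat_lit 0) (p (nat_lit 0x89) (nat_lit 0) (p (nat_lit 0x41) (nat_lit 0) (p (nat_lit 0x10a098b090a9a) (nat_lit 0) (p (nat_lit 0x9890a888a1a) (nat_lit 0) (p (nat_lit 0x109088a08079a) (nat_lit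 0) (p (nat_lit 0x8880987871a) (nat_lit 0) (p (nat_lit 0x8000000000800080907088a) (nat_lit 0) (p (nat_lit 0x8000000000800078886860a) (nat_lit 0) (p (nat_lit 0x10688060782) (nat_lit 0) (p (nat_lit 0x607858702) (nat_lit 0) (p (nat_lit 0x10587050482) (nat_lit 0) (p (nat_lit 0x506848402) (nat_lit 0) (p (nat_lit 0x16000c) (nat_lit 0) (p (nat_lit 0x50612) (nat_lit 0) (p (nat_lit 0x40592) (nat_lit 0) (p (nat_lit 0x40492) (nat_lit 0) (p (nat_lit 0x30412) (nat_lit 0) (p (nat_lit 0x30212) (nat_lit 0) (p (nat_lit 0x20192) (nat_lit 0) (p (nat_lit 0x20092) (nat_lit 0) (p (nat_lit 0x10012) (nat_lit 0) pn))))))))))))))))))))))))))))))))))))) :=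
  Cl.node (nat_lit 0xe8e0f8d8f1a) (nat_lit 1) (by decide +kernel) (ClAll.succ ClAll.zero n19)

def n30 : Cl (O (nat_lit 5)) (R (nat_lit 104465))
    (p (nat_lit 0x2680d000002680d0d0e0c0d8a) (nat_lit 0) (p (nat_lit 0x2680d000002680d0c8d8b8b0a) (nat_lit 0) (p (nat_lit 0x100004) (nat_lit 0) (p (nat_lit 0x100014) (nat_lit 0) (p (nat_lit 0x10800c) (nat_lit 0) (p (nat_lit 0x1fc004) (nat_lit 0) (p (nat_lit 0xb000c) (nat_lit 1) (p (nat_lit 0x200014) (nat_lit 0) (p (nat_lit 0x101) (nat_lit 0) (p (nat_lit 0x380c2) (nat_lit 0) (p (nat_lit 0x3cc2a) (nat_lit 2) (p (nat_lit 0x109) (nat_lit 1) (p (nat_lit 0xc9) (nat_lit 1) (p (nat_lit 0xc1) (nat_lit 0) (p (nat_lit 0x119) (nat_lit 1) (p (nat_lit 0xd1) (nat_lit 0) (p (nat_lit 0x89) (nat_lit 0) (p (nat_lit 0x41) (nat_lit 0) (p (nat_lit 0x10a098b090a9a) (nat_lit 0) (p (nat_lit 0x9890a888a1a) (nat_lit 0) (p (nat_lit 0x109088a08079a) (nat_lit 0) (p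 (nat_lit 0x8880987871a) (nat_lit 0) (p (nat_lit 0x8000000000800080907088a) (nat_lit 0) (p (nat_lit 0x8000000000800078886860a) (nat_lit 0) (p (nat_lit 0x10688060782) (nat_lit 0) (p (nat_lit 0x607858702) (nat_lit 0) (p (nat_lit 0x10587050482) (nat_lit 0) (p (nat_lit 0x506848402) (nat_lit 0) (p (nat_lit 0x16000c) (nat_lit 0) (p (nat_lit 0x50612) (nat_lit 0) (p (nat_lit 0x40592) (nat_lit 0) (p (nat_lit 0x40492) (nat_lit 0) (p (nat_lit 0x30412) (nat_lit 0) (p (nat_lit 0x30212) (nat_lit 0) (p (nat_lit 0x20192) (nat_lit 0) (p (nat_lit 0x20092) (nat_lit 0) (p (nat_lit 0x10012) (nat_lit 0) pn))))))))))))))))))))))))))))))))))))) :=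
  Cl.node (nat_lit 0xd8d0e8c8c1a) (nat_lit 1) (by decide +kernel) (ClAll.succ ClAll.zero n20)

def n31 : Cl (O (nat_lit 5)) (R (nat_lit 104465))
    (p (nat_lit 0xd8d0e8c8c1a) (nat_lit 0) (p (nat_lit 0x2680d000002680d0d0e0c0d8a) (nat_lit 0) (p (nat_lit 0x2680d000002680d0c8d8b8b0a) (nat_lit 0) (p (nat_lit 0xb000c) (nat_lit 1) (p (nat_lit 0x100004) (nat_lit 0) (p (nat_lit 0x200004) (nat_lit 0) (p (nat_lit 0x100014) (nat_lit 0) (p (nat_lit 0x200014) (nat_lit 0) (p (nat_lit 0xc9) (nat_lit 1) (p (nat_lit 0x380c2) (nat_lit 0) (p (nat_lit 0x3cc2a) (nat_lit 2) (p (nat_lit 0x109) (nat_lit 1) (p (nat_lit 0x81) (nat_lit 0) (p (nat_lit 0xc1) (nat_lit 1) (p (nat_lit 0x119) (nat_lit 1) (p (nat_lit 0xd1) (nat_lit 0) (p (nat_lit 0x89) (nat_lit 0) (p (nat_lit 0x41) (nat_lit 0) (p (nat_lit 0x10a098b090a9a) (nat_lit 0) (p (nat_lit 0x9890a888a1a) (nat_lit 0) (p (nat_lit 0x109088a08079a) (nat_lit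 0) (p (nat_lit 0x8880987871a) (nat_lit 0) (p (nat_lit 0x8000000000800080907088a) (nat_lit 0) (p (nat_lit 0x8000000000800078886860a) (nat_lit 0) (p (nat_lit 0x10688060782) (nat_lit 0) (p (nat_lit 0x607858702) (nat_lit 0) (p (nat_lit 0x10587050482) (nat_lit 0) (p (nat_lit 0x506848402) (nat_lit 0) (p (nat_lit 0x16000c) (nat_lit 0) (p (nat_lit 0x50612) (nat_lit 0) (p (nat_lit 0x40592) (nat_lit 0) (p (nat_lit 0x40492) (nat_lit 0) (p (nat_lit 0x30412) (nat_lit 0) (p (nat_lit 0x30212) (nat_lit 0) (p (nat_lit 0x20192) (nat_lit 0) (p (nat_lit 0x20092) (nat_lit 0) (p (nat_lit 0x10012) (nat_lit 0) pn))))))))))))))))))))))))))))))))))))) :=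
  Cl.node (nat_lit 0x10e0d8f0d0c9a) (nat_lit 1) (by decide +kernel) (ClAll.succ ClAll.zero n21)

def n32 : Cl (O (nat_lit 5)) (R (nat_lit 104465))
    (p (nat_lit 0xd8d0e8c8c1a) (nat_lit 0) (p (nat_lit 0x2680d000002a8258d0e0c0d8a) (nat_lit 0) (p (nat_lit 0x2680d000002a8258c8d8b8b0a) (nat_lit 0) (p (nat_lit 0x100014) (nat_lit 0) (p (nat_lit 0x119) (nat_lit 1) (p (nat_lit 0x1fc014) (nat_lit 0) (p (nat_lit 0x1fc004) (nat_lit 0) (p (nat_lit 0xb000c) (nat_lit 1) (p (nat_lit 0x380c2) (nat_lit 1) (p (nat_lit 0x444aa) (nat_lit 7) (p (nat_lit 0x119) (nat_lit 0) (p (nat_lit 0xc1) (nat_lit 0) (p (nat_lit 0x81) (nat_lit 1) (p (nat_lit 0x101) (nat_lit 1) (p (nat_lit 0x111) (nat_lit 0) (p (nat_lit 0xd1) (nat_lit 1) (p (nat_lit 0x89) (nat_lit 0) (p (nat_lit 0x41) (nat_lit 0) (p (nat_lit 0x10a098b090a9a) (nat_lit 0) (p (nat_lit 0x9890a888a1a) (nat_lit 0) (p (nat_lit 0x109088a08079a) (nat_lit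 0) (p (nat_lit 0x8880987871a) (nat_lit 0) (p (nat_lit 0x8000000000800080907088a) (nat_lit 0) (p (nat_lit 0x8000000000800078886860a) (nat_lit 0) (p (nat_lit 0x10688060782) (nat_lit 0) (p (nat_lit 0x607858702) (nat_lit 0) (p (nat_lit 0x10587050482) (nat_lit 0) (p (nat_lit 0x506848402) (nat_lit 0) (p (nat_lit 0x16000c) (nat_lit 0) (p (nat_lit 0x50612) (nat_lit 0) (p (nat_lit 0x40592) (nat_lit 0) (p (nat_lit 0x40492) (nat_lit 0) (p (nat_lit 0x30412) (nat_lit 0) (p (nat_lit 0x30212) (nat_lit 0) (p (nat_lit 0x20192) (nat_lit 0) (p (nat_lit 0x20092) (nat_lit 0) (p (nat_lit 0x10012) (nat_lit 0) pn))))))))))))))))))))))))))))))))))))) :=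
  Cl.node (nat_lit 0x10e0d8f0d0c9a) (nat_lit 1) (by decide +kernel) (ClAll.succ ClAll.zero n22)

def n33 : Cl (O (nat_lit 5)) (R (nat_lit 104465))
    (p (nat_lit 0x10e0d8f0d0c9a) (nat_lit 0) (p (nat_lit 0xd8d0e8c8c1a) (nat_lit 0) (p (nat_lit 0x2a825800002680d0d0e0c0d8a) (nat_lit 0) (p (nat_lit 0x2a825800002680d0c8d8b8b0a) (nat_lit 0) (p (nat_lit 0x100004) (nat_lit 0) (p (nat_lit 0x1fc014) (nat_lit 0) (p (nat_lit 0x1fc004) (nat_lit 0) (p (nat_lit 0xb000c) (nat_lit 1) (p (nat_lit 0x380c2) (nat_lit 0) (p (nat_lit 0x444aa) (nat_lit 7) (p (nat_lit 0xd1) (nat_lit 1) (p (nat_lit 0x111) (nat_lit 1) (p (nat_lit 0x109) (nat_lit 0) (p (nat_lit 0x101) (nat_lit 0) (p (nat_lit 0x119) (nat_lit 0) (p (nat_lit 0xc9) (nat_lit 0) (p (nat_lit 0x89) (nat_lit 1) (p (nat_lit 0x41) (nat_lit 0) (p (nat_lit 0x10a098b090a9a) (nat_lit 0) (p (nat_lit 0x9890a888a1a) (nat_lit 0) (p (nat_lit 0x109088a08079a)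 (nat_lit 0) (p (nat_lit 0x8880987871a) (nat_lit 0) (p (nat_lit 0x8000000000800080907088a) (nat_lit 0) (p (nat_lit 0x8000000000800078886860a) (nat_lit 0) (p (nat_lit 0x10688060782) (nat_lit 0) (p (nat_lit 0x607858702) (nat_lit 0) (p (nat_lit 0x10587050482) (nat_lit 0) (p (nat_lit 0x506848402) (nat_lit 0) (p (nat_lit 0x16000c) (nat_lit 0) (p (nat_lit 0x50612) (nat_lit 0) (p (nat_lit 0x40592) (nat_lit 0) (p (nat_lit 0x40492) (nat_lit 0) (p (nat_lit 0x30412) (nat_lit 0) (p (nat_lit 0x30212) (nat_lit 0) (p (nat_lit 0x20192) (nat_lit 0) (p (nat_lit 0x20092) (nat_lit 0) (p (nat_lit 0x10012) (nat_lit 0) pn))))))))))))))))))))))))))))))))))))) :=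
  Cl.node (nat_lit 0xe8e0f8d8f1a) (nat_lit 1) (by decide +kernel) (ClAll.succ ClAll.zero n23)

def n34 : Cl (O (nat_lit 5)) (R (nat_lit 104465))
    (p (nat_lit 0x80004) (nat_lit 0) (p (nat_lit 0x13400c) (nat_lit 0) (p (nat_lit 0x80014) (nat_lit 1) (p (nat_lit 0x100014) (nat_lit 0) (p (nat_lit 0x100004) (nat_lit 0) (p (nat_lit 0x1fc014) (nat_lit 0) (p (nat_lit 0x1fc004) (nat_lit 0) (p (nat_lit 0xb000c) (nat_lit 1) (p (nat_lit 0x380c2) (nat_lit 1) (p (nat_lit 0x444aa) (nat_lit 7) (p (nat_lit 0xd1) (nat_lit 1) (p (nat_lit 0x111) (nat_lit 1) (p (nat_lit 0x109) (nat_lit 0) (p (nat_lit 0x101) (nat_lit 0) (p (nat_lit 0x119) (nat_lit 0) (p (nat_lit 0xc9) (nat_lit 0) (p (nat_lit 0x89) (nat_lit 1) (p (nat_lit 0x41) (nat_lit 0) (p (nat_lit 0x10a098b090a9a) (nat_lit 0) (p (nat_lit 0x9890a888a1a) (nat_lit 0) (p (nat_lit 0x109088a08079a) (nat_lit 0) (p (nat_lit 0x8880987871a) (nat_lit 0) (p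 (nat_lit 0x8000000000800080907088a) (nat_lit 0) (p (nat_lit 0x8000000000800078886860a) (nat_lit 0) (p (nat_lit 0x10688060782) (nat_lit 0) (p (nat_lit 0x607858702) (nat_lit 0) (p (nat_lit 0x10587050482) (nat_lit 0) (p (nat_lit 0x506848402) (nat_lit 0) (p (nat_lit 0x16000c) (nat_lit 0) (p (nat_lit 0x50612) (nat_lit 0) (p (nat_lit 0x40592) (nat_lit 0) (p (nat_lit 0x40492) (nat_lit 0) (p (nat_lit 0x30412) (nat_lit 0) (p (nat_lit 0x30212) (nat_lit 0) (p (nat_lit 0x20192) (nat_lit 0) (p (nat_lit 0x20092) (nat_lit 0) (p (nat_lit 0x10012) (nat_lit 0) pn))))))))))))))))))))))))))))))))))))) :=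
  Cl.node (nat_lit 0x2e84880000228010c8d8b8b0a) (nat_lit 1) (by decide +kernel) (ClAll.succ ClAll.zero n24)

def n35 : Cl (O (nat_lit 5)) (R (nat_lit 104465))
    (p (nat_lit 0xc9) (nat_lit 1) (p (nat_lit 0x80004) (nat_lit 0) (p (nat_lit 0x41) (nat_lit 0) (p (nat_lit 0x100014) (nat_lit 0) (p (nat_lit 0x100004) (nat_lit 0) (p (nat_lit 0x200004) (nat_lit 0) (p (nat_lit 0x200014) (nat_lit 0) (p (nat_lit 0x380c2) (nat_lit 0) (p (nat_lit 0x4c42a) (nat_lit 10) (p (nat_lit 0x119) (nat_lit 1) (p (nat_lit 0xc9) (nat_lit 0) (p (nat_lit 0x89) (nat_lit 1) (p (nat_lit 0x109) (nat_lit 1) (p (nat_lit 0x101) (nat_lit 0) (p (nat_lit 0x111) (nat_lit 0) (p (nat_lit 0xd1) (nat_lit 1) (p (nat_lit 0x81) (nat_lit 0) (p (nat_lit 0x41) (nat_lit 1) (p (nat_lit 0x10a098b090a9a) (nat_lit 0) (p (nat_lit 0x9890a888a1a) (nat_lit 0) (p (nat_lit 0x109088a08079a) (nat_lit 0) (p (nat_lit 0x8880987871a) (nat_lit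 0) (p (nat_lit 0x8000000000800080907088a) (nat_lit 0) (p (nat_lit 0x8000000000800078886860a) (nat_lit 0) (p (nat_lit 0x10688060782) (nat_lit 0) (p (nat_lit 0x607858702) (nat_lit 0) (p (nat_lit 0x10587050482) (nat_lit 0) (p (nat_lit 0x506848402) (nat_lit 0) (p (nat_lit 0x16000c) (nat_lit 0) (p (nat_lit 0x50612) (nat_lit 0) (p (nat_lit 0x40592) (nat_lit 0) (p (nat_lit 0x40492) (nat_lit 0) (p (nat_lit 0x30412) (nat_lit 0) (p (nat_lit 0x30212) (nat_lit 0) (p (nat_lit 0x20192) (nat_lit 0) (p (nat_lit 0x20092) (nat_lit 0) (p (nat_lit 0x10012) (nat_lit 0) pn))))))))))))))))))))))))))))))))))))) :=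
  Cl.node (nat_lit 0x109) (nat_lit 2) (by decide +kernel) (ClAll.succ (ClAll.succ ClAll.zero s804) n25)

def n36 : Cl (O (nat_lit 5)) (R (nat_lit 104465))
    (p (nat_lit 0x13400c) (nat_lit 0) (p (nat_lit 0x80004) (nat_lit 1) (p (nat_lit 0x41) (nat_lit 0) (p (nat_lit 0x100014) (nat_lit 0) (p (nat_lit 0x100004) (nat_lit 0) (p (nat_lit 0x200004) (nat_lit 0) (p (nat_lit 0x200014) (nat_lit 0) (p (nat_lit 0x380c2) (nat_lit 0) (p (nat_lit 0x4c42a) (nat_lit 10) (p (nat_lit 0x119) (nat_lit 1) (p (nat_lit 0xc9) (nat_lit 0) (p (nat_lit 0x89) (nat_lit 1) (p (nat_lit 0x109) (nat_lit 1) (p (nat_lit 0x101) (nat_lit 0) (p (nat_lit 0x111) (nat_lit 0) (p (nat_lit 0xd1) (nat_lit 1) (p (nat_lit 0x81) (nat_lit 0) (p (nat_lit 0x41) (nat_lit 1) (p (nat_lit 0x10a098b090a9a) (nat_lit 0) (p (nat_lit 0x9890a888a1a) (nat_lit 0) (p (nat_lit 0x109088a08079a) (nat_lit 0) (p (nat_lit 0x8880987871a) (nat_lit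 0) (p (nat_lit 0x8000000000800080907088a) (nat_lit 0) (p (nat_lit 0x8000000000800078886860a) (nat_lit 0) (p (nat_lit 0x10688060782) (nat_lit 0) (p (nat_lit 0x607858702) (nat_lit 0) (p (nat_lit 0x10587050482) (nat_lit 0) (p (nat_lit 0x506848402) (nat_lit 0) (p (nat_lit 0x16000c) (nat_lit 0) (p (nat_lit 0x50612) (nat_lit 0) (p (nat_lit 0x40592) (nat_lit 0) (p (nat_lit 0x40492) (nat_lit 0) (p (nat_lit 0x30412) (nat_lit 0) (p (nat_lit 0x30212) (nat_lit 0) (p (nat_lit 0x20192) (nat_lit 0) (p (nat_lit 0x20092) (nat_lit 0) (p (nat_lit 0x10012) (nat_lit 0) pn))))))))))))))))))))))))))))))))))))) :=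
  Cl.node (nat_lit 0x9c00c) (nat_lit 2) (by decide +kernel) (ClAll.succ (ClAll.succ ClAll.zero s807) n26)

def n37 : Cl (O (nat_lit 5)) (R (nat_lit 104465))
    (p (nat_lit 0x2680d000002680d0d0e0c0d8a) (nat_lit 0) (p (nat_lit 0x2680d000002680d0c8d8b8b0a) (nat_lit 0) (p (nat_lit 0x100004) (nat_lit 0) (p (nat_lit 0x100014) (nat_lit 0) (p (nat_lit 0x1fc014) (nat_lit 0) (p (nat_lit 0x1fc004) (nat_lit 0) (p (nat_lit 0xb000c) (nat_lit 1) (p (nat_lit 0x380c2) (nat_lit 1) (p (nat_lit 0x4c42a) (nat_lit 10) (p (nat_lit 0x119) (nat_lit 1) (p (nat_lit 0xc9) (nat_lit 0) (p (nat_lit 0x89) (nat_lit 1) (p (nat_lit 0x109) (nat_lit 1) (p (nat_lit 0x101) (nat_lit 0) (p (nat_lit 0x111) (nat_lit 0) (p (nat_lit 0xd1) (nat_lit 1) (p (nat_lit 0x81) (nat_lit 0) (p (nat_lit 0x41) (nat_lit 1) (p (nat_lit 0x10a098b090a9a) (nat_lit 0) (p (nat_lit 0x9890a888a1a) (nat_lit 0) (p (nat_lit 0x109088a08079a) (nat_lit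 0) (p (nat_lit 0x8880987871a) (nat_lit 0) (p (nat_lit 0x8000000000800080907088a) (nat_lit 0) (p (nat_lit 0x8000000000800078886860a) (nat_lit 0) (p (nat_lit 0x10688060782) (nat_lit 0) (p (nat_lit 0x607858702) (nat_lit 0) (p (nat_lit 0x10587050482) (nat_lit 0) (p (nat_lit 0x506848402) (nat_lit 0) (p (nat_lit 0x16000c) (nat_lit 0) (p (nat_lit 0x50612) (nat_lit 0) (p (nat_lit 0x40592) (nat_lit 0) (p (nat_lit 0x40492) (nat_lit 0) (p (nat_lit 0x30412) (nat_lit 0) (p (nat_lit 0x30212) (nat_lit 0) (p (nat_lit 0x20192) (nat_lit 0) (p (nat_lit 0x20092) (nat_lit 0) (p (nat_lit 0x10012) (nat_lit 0) pn))))))))))))))))))))))))))))))))))))) :=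
  Cl.node (nat_lit 0xd8d0e8c8c1a) (nat_lit 1) (by decide +kernel) (ClAll.succ ClAll.zero n27)

def n38 : Cl (O (nat_lit 5)) (R (nat_lit 104465))
    (p (nat_lit 0xd8d0e8c8c1a) (nat_lit 0) (p (nat_lit 0x2a825800002680d0d0e0c0d8a) (nat_lit 0) (p (nat_lit 0x2a825800002680d0c8d8b8b0a) (nat_lit 0) (p (nat_lit 0x100004) (nat_lit 0) (p (nat_lit 0x1fc014) (nat_lit 0) (p (nat_lit 0x1fc004) (nat_lit 0) (p (nat_lit 0xb000c) (nat_lit 1) (p (nat_lit 0x380c2) (nat_lit 0) (p (nat_lit 0x444aa) (nat_lit 7) (p (nat_lit 0x111) (nat_lit 0) (p (nat_lit 0xc9) (nat_lit 1) (p (nat_lit 0x81) (nat_lit 0) (p (nat_lit 0x101) (nat_lit 1) (p (nat_lit 0x119) (nat_lit 0) (p (nat_lit 0xd1) (nat_lit 0) (p (nat_lit 0x89) (nat_lit 0) (p (nat_lit 0x41) (nat_lit 0) (p (nat_lit 0x10a098b090a9a) (nat_lit 0) (p (nat_lit 0x9890a888a1a) (nat_lit 0) (p (nat_lit 0x109088a08079a) (nat_lit 0) (p (nat_lit 0x8880987871a) (nat_lit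 0) (p (nat_lit 0x8000000000800080907088a) (nat_lit 0) (p (nat_lit 0x8000000000800078886860a) (nat_lit 0) (p (nat_lit 0x10688060782) (nat_lit 0) (p (nat_lit 0x607858702) (nat_lit 0) (p (nat_lit 0x10587050482) (nat_lit 0) (p (nat_lit 0x506848402) (nat_lit 0) (p (nat_lit 0x16000c) (nat_lit 0) (p (nat_lit 0x50612) (nat_lit 0) (p (nat_lit 0x40592) (nat_lit 0) (p (nat_lit 0x40492) (nat_lit 0) (p (nat_lit 0x30412) (nat_lit 0) (p (nat_lit 0x30212) (nat_lit 0) (p (nat_lit 0x20192) (nat_lit 0) (p (nat_lit 0x20092) (nat_lit 0) (p (nat_lit 0x10012) (nat_lit 0) pn)))))))))))))))))))))))))))))))))))) :=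
  Cl.node (nat_lit 0x10e0d8f0d0c9a) (nat_lit 1) (by decide +kernel) (ClAll.succ ClAll.zero n28)

def n39 : Cl (O (nat_lit 5)) (R (nat_lit 104465))
    (p (nat_lit 0xd8d0e8c8c1a) (nat_lit 0) (p (nat_lit 0x2680d000002a8258d0e0c0d8a) (nat_lit 0) (p (nat_lit 0x2680d000002a8258c8d8b8b0a) (nat_lit 0) (p (nat_lit 0x100014) (nat_lit 0) (p (nat_lit 0x1fc014) (nat_lit 0) (p (nat_lit 0x1fc004) (nat_lit 0) (p (nat_lit 0xb000c) (nat_lit 1) (p (nat_lit 0x380c2) (nat_lit 1) (p (nat_lit 0x444aa) (nat_lit 7) (p (nat_lit 0x111) (nat_lit 0) (p (nat_lit 0xc9) (nat_lit 1) (p (nat_lit 0x81) (nat_lit 0) (p (nat_lit 0x101) (nat_lit 1) (p (nat_lit 0x119) (nat_lit 0) (p (nat_lit 0xd1) (nat_lit 0) (p (nat_lit 0x89) (nat_lit 0) (p (nat_lit 0x41) (nat_lit 0) (p (nat_lit 0x10a098b090a9a) (nat_lit 0) (p (nat_lit 0x9890a888a1a) (nat_lit 0) (p (nat_lit 0x109088a08079a) (nat_lit 0) (p (nat_lit 0x8880987871a) (nat_lit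 0) (p (nat_lit 0x8000000000800080907088a) (nat_lit 0) (p (nat_lit 0x8000000000800078886860a) (nat_lit 0) (p (nat_lit 0x10688060782) (nat_lit 0) (p (nat_lit 0x607858702) (nat_lit 0) (p (nat_lit 0x10587050482) (nat_lit 0) (p (nat_lit 0x506848402) (nat_lit 0) (p (nat_lit 0x16000c) (nat_lit 0) (p (nat_lit 0x50612) (nat_lit 0) (p (nat_lit 0x40592) (nat_lit 0) (p (nat_lit 0x40492) (nat_lit 0) (p (nat_lit 0x30412) (nat_lit 0) (p (nat_lit 0x30212) (nat_lit 0) (p (nat_lit 0x20192) (nat_lit 0) (p (nat_lit 0x20092) (nat_lit 0) (p (nat_lit 0x10012) (nat_lit 0) pn)))))))))))))))))))))))))))))))))))) :=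
  Cl.node (nat_lit 0x10e0d8f0d0c9a) (nat_lit 1) (by decide +kernel) (ClAll.succ ClAll.zero n29)

def n40 : Cl (O (nat_lit 5)) (R (nat_lit 104465))
    (p (nat_lit 0x2680d000002680d0c8d8b8b0a) (nat_lit 0) (p (nat_lit 0x100004) (nat_lit 0) (p (nat_lit 0x100014) (nat_lit 0) (p (nat_lit 0x10800c) (nat_lit 0) (p (nat_lit 0x1fc004) (nat_lit 0) (p (nat_lit 0xb000c) (nat_lit 1) (p (nat_lit 0x200014) (nat_lit 0) (p (nat_lit 0x101) (nat_lit 0) (p (nat_lit 0x380c2) (nat_lit 0) (p (nat_lit 0x3cc2a) (nat_lit 2) (p (nat_lit 0x109) (nat_lit 1) (p (nat_lit 0xc9) (nat_lit 1) (p (nat_lit 0xc1) (nat_lit 0) (p (nat_lit 0x119) (nat_lit 1) (p (nat_lit 0xd1) (nat_lit 0) (p (nat_lit 0x89) (nat_lit 0) (p (nat_lit 0x41) (nat_lit 0) (p (nat_lit 0x10a098b090a9a) (nat_lit 0) (p (nat_lit 0x9890a888a1a) (nat_lit 0) (p (nat_lit 0x109088a08079a) (nat_lit 0) (p (nat_lit 0x8880987871a) (nat_lit 0) (p (nat_lit 0x8000000000800080907088a)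 (nat_lit 0) (p (nat_lit 0x8000000000800078886860a) (nat_lit 0) (p (nat_lit 0x10688060782) (nat_lit 0) (p (nat_lit 0x607858702) (nat_lit 0) (p (nat_lit 0x10587050482) (nat_lit 0) (p (nat_lit 0x506848402) (nat_lit 0) (p (nat_lit 0x16000c) (nat_lit 0) (p (nat_lit 0x50612) (nat_lit 0) (p (nat_lit 0x40592) (nat_lit 0) (p (nat_lit 0x40492) (nat_lit 0) (p (nat_lit 0x30412) (nat_lit 0) (p (nat_lit 0x30212) (nat_lit 0) (p (nat_lit 0x20192) (nat_lit 0) (p (nat_lit 0x20092) (nat_lit 0) (p (nat_lit 0x10012) (nat_lit 0) pn)))))))))))))))))))))))))))))))))))) :=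
  Cl.node (nat_lit 0x2680d000002680d0d0e0c0d8a) (nat_lit 1) (by decide +kernel) (ClAll.succ ClAll.zero n30)

def n41 : Cl (O (nat_lit 5)) (R (nat_lit 104465))
    (p (nat_lit 0x2680d000002680d0d0e0c0d8a) (nat_lit 0) (p (nat_lit 0x2680d000002680d0c8d8b8b0a) (nat_lit 0) (p (nat_lit 0xb000c) (nat_lit 1) (p (nat_lit 0x100004) (nat_lit 0) (p (nat_lit 0x200004) (nat_lit 0) (p (nat_lit 0x100014) (nat_lit 0) (p (nat_lit 0x200014) (nat_lit 0) (p (nat_lit 0xc9) (nat_lit 1) (p (nat_lit 0x380c2) (nat_lit 0) (p (nat_lit 0x3cc2a) (nat_lit 2) (p (nat_lit 0x109) (nat_lit 1) (p (nat_lit 0x81) (nat_lit 0) (p (nat_lit 0xc1) (nat_lit 1) (p (nat_lit 0x119) (nat_lit 1) (p (nat_lit 0xd1) (nat_lit 0) (p (nat_lit 0x89) (nat_lit 0) (p (nat_lit 0x41) (nat_lit 0) (p (nat_lit 0x10a098b090a9a) (nat_lit 0) (p (nat_lit 0x9890a888a1a) (nat_lit 0) (p (nat_lit 0x109088a08079a) (nat_lit 0) (p (nat_lit 0x8880987871a)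 (nat_lit 0) (p (nat_lit 0x8000000000800080907088a) (nat_lit 0) (p (nat_lit 0x8000000000800078886860a) (nat_lit 0) (p (nat_lit 0x10688060782) (nat_lit 0) (p (nat_lit 0x607858702) (nat_lit 0) (p (nat_lit 0x10587050482) (nat_lit 0) (p (nat_lit 0x506848402) (nat_lit 0) (p (nat_lit 0x16000c) (nat_lit 0) (p (nat_lit 0x50612) (nat_lit 0) (p (nat_lit 0x40592) (nat_lit 0) (p (nat_lit 0x40492) (nat_lit 0) (p (nat_lit 0x30412) (nat_lit 0) (p (nat_lit 0x30212) (nat_lit 0) (p (nat_lit 0x20192) (nat_lit 0) (p (nat_lit 0x20092) (nat_lit 0) (p (nat_lit 0x10012) (nat_lit 0) pn)))))))))))))))))))))))))))))))))))) :=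
  Cl.node (nat_lit 0xd8d0e8c8c1a) (nat_lit 1) (by decide +kernel) (ClAll.succ ClAll.zero n31)

def n42 : Cl (O (nat_lit 5)) (R (nat_lit 104465))
    (p (nat_lit 0x2680d000002a8258d0e0c0d8a) (nat_lit 0) (p (nat_lit 0x2680d000002a8258c8d8b8b0a) (nat_lit 0) (p (nat_lit 0x100014) (nat_lit 0) (p (nat_lit 0x119) (nat_lit 1) (p (nat_lit 0x1fc014) (nat_lit 0) (p (nat_lit 0x1fc004) (nat_lit 0) (p (nat_lit 0xb000c) (nat_lit 1) (p (nat_lit 0x380c2) (nat_lit 1) (p (nat_lit 0x444aa) (nat_lit 7) (p (nat_lit 0x119) (nat_lit 0) (p (nat_lit 0xc1) (nat_lit 0) (p (nat_lit 0x81) (nat_lit 1) (p (nat_lit 0x101) (nat_lit 1) (p (nat_lit 0x111) (nat_lit 0) (p (nat_lit 0xd1) (nat_lit 1) (p (nat_lit 0x89) (nat_lit 0) (p (nat_lit 0x41) (nat_lit 0) (p (nat_lit 0x10a098b090a9a) (nat_lit 0) (p (nat_lit 0x9890a888a1a) (nat_lit 0) (p (nat_lit 0x109088a08079a) (nat_lit 0) (p (nat_lit 0x8880987871a) (nat_lit 0)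 (p (nat_lit 0x8000000000800080907088a) (nat_lit 0) (p (nat_lit 0x8000000000800078886860a) (nat_lit 0) (p (nat_lit 0x10688060782) (nat_lit 0) (p (nat_lit 0x607858702) (nat_lit 0) (p (nat_lit 0x10587050482) (nat_lit 0) (p (nat_lit 0x506848402) (nat_lit 0) (p (nat_lit 0x16000c) (nat_lit 0) (p (nat_lit 0x50612) (nat_lit 0) (p (nat_lit 0x40592) (nat_lit 0) (p (nat_lit 0x40492) (nat_lit 0) (p (nat_lit 0x30412) (nat_lit 0) (p (nat_lit 0x30212) (nat_lit 0) (p (nat_lit 0x20192) (nat_lit 0) (p (nat_lit 0x20092) (nat_lit 0) (p (nat_lit 0x10012) (nat_lit 0) pn)))))))))))))))))))))))))))))))))))) :=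
  Cl.node (nat_lit 0xd8d0e8c8c1a) (nat_lit 1) (by decide +kernel) (ClAll.succ ClAll.zero n32)

def n43 : Cl (O (nat_lit 5)) (R (nat_lit 104465))
    (p (nat_lit 0xd8d0e8c8c1a) (nat_lit 0) (p (nat_lit 0x2a825800002680d0d0e0c0d8a) (nat_lit 0) (p (nat_lit 0x2a825800002680d0c8d8b8b0a) (nat_lit 0) (p (nat_lit 0x100004) (nat_lit 0) (p (nat_lit 0x1fc014) (nat_lit 0) (p (nat_lit 0x1fc004) (nat_lit 0) (p (nat_lit 0xb000c) (nat_lit 1) (p (nat_lit 0x380c2) (nat_lit 0) (p (nat_lit 0x444aa) (nat_lit 7) (p (nat_lit 0xd1) (nat_lit 1) (p (nat_lit 0x111) (nat_lit 1) (p (nat_lit 0x109) (nat_lit 0) (p (nat_lit 0x101) (nat_lit 0) (p (nat_lit 0x119) (nat_lit 0) (p (nat_lit 0xc9) (nat_lit 0) (p (nat_lit 0x89) (nat_lit 1) (p (nat_lit 0x41) (nat_lit 0) (p (nat_lit 0x10a098b090a9a) (nat_lit 0) (p (nat_lit 0x9890a888a1a) (nat_lit 0) (p (nat_lit 0x109088a08079a) (nat_lit 0) (p (nat_lit 0x8880987871a) (nat_lit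 0) (p (nat_lit 0x8000000000800080907088a) (nat_lit 0) (p (nat_lit 0x8000000000800078886860a) (nat_lit 0) (p (nat_lit 0x10688060782) (nat_lit 0) (p (nat_lit 0x607858702) (nat_lit 0) (p (nat_lit 0x10587050482) (nat_lit 0) (p (nat_lit 0x506848402) (nat_lit 0) (p (nat_lit 0x16000c) (nat_lit 0) (p (nat_lit 0x50612) (nat_lit 0) (p (nat_lit 0x40592) (nat_lit 0) (p (nat_lit 0x40492) (nat_lit 0) (p (nat_lit 0x30412) (nat_lit 0) (p (nat_lit 0x30212) (nat_lit 0) (p (nat_lit 0x20192) (nat_lit 0) (p (nat_lit 0x20092) (nat_lit 0) (p (nat_lit 0x10012) (nat_lit 0) pn)))))))))))))))))))))))))))))))))))) :=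
  Cl.node (nat_lit 0x10e0d8f0d0c9a) (nat_lit 1) (by decide +kernel) (ClAll.succ ClAll.zero n33)

def n44 : Cl (O (nat_lit 5)) (R (nat_lit 104465))
    (p (nat_lit 0x13400c) (nat_lit 0) (p (nat_lit 0x80014) (nat_lit 1) (p (nat_lit 0x100014) (nat_lit 0) (p (nat_lit 0x100004) (nat_lit 0) (p (nat_lit 0x1fc014) (nat_lit 0) (p (nat_lit 0x1fc004) (nat_lit 0) (p (nat_lit 0xb000c) (nat_lit 1) (p (nat_lit 0x380c2) (nat_lit 1) (p (nat_lit 0x444aa) (nat_lit 7) (p (nat_lit 0xd1) (nat_lit 1) (p (nat_lit 0x111) (nat_lit 1) (p (nat_lit 0x109) (nat_lit 0) (p (nat_lit 0x101) (nat_lit 0) (p (nat_lit 0x119) (nat_lit 0) (p (nat_lit 0xc9) (nat_lit 0) (p (nat_lit 0x89) (nat_lit 1) (p (nat_lit 0x41) (nat_lit 0) (p (nat_lit 0x10a098b090a9a) (nat_lit 0) (p (nat_lit 0x9890a888a1a) (nat_lit 0) (p (nat_lit 0x109088a08079a) (nat_lit 0) (p (nat_lit 0x8880987871a) (nat_lit 0) (p (nat_lit 0x8000000000800080907088a)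 (nat_lit 0) (p (nat_lit 0x8000000000800078886860a) (nat_lit 0) (p (nat_lit 0x10688060782) (nat_lit 0) (p (nat_lit 0x607858702) (nat_lit 0) (p (nat_lit 0x10587050482) (nat_lit 0) (p (nat_lit 0x506848402) (nat_lit 0) (p (nat_lit 0x16000c) (nat_lit 0) (p (nat_lit 0x50612) (nat_lit 0) (p (nat_lit 0x40592) (nat_lit 0) (p (nat_lit 0x40492) (nat_lit 0) (p (nat_lit 0x30412) (nat_lit 0) (p (nat_lit 0x30212) (nat_lit 0) (p (nat_lit 0x20192) (nat_lit 0) (p (nat_lit 0x20092) (nat_lit 0) (p (nat_lit 0x10012) (nat_lit 0) pn)))))))))))))))))))))))))))))))))))) :=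
  Cl.node (nat_lit 0x80004) (nat_lit 2) (by decide +kernel) (ClAll.succ (ClAll.succ ClAll.zero n34) s399)

def n45 : Cl (O (nat_lit 5)) (R (nat_lit 104465))
    (p (nat_lit 0x89) (nat_lit 0) (p (nat_lit 0x111) (nat_lit 1) (p (nat_lit 0x81) (nat_lit 0) (p (nat_lit 0x100014) (nat_lit 0) (p (nat_lit 0x1fc014) (nat_lit 0) (p (nat_lit 0x1fc004) (nat_lit 0) (p (nat_lit 0xb000c) (nat_lit 1) (p (nat_lit 0x380c2) (nat_lit 1) (p (nat_lit 0x4c42a) (nat_lit 10) (p (nat_lit 0xc9) (nat_lit 0) (p (nat_lit 0x89) (nat_lit 1) (p (nat_lit 0x109) (nat_lit 1) (p (nat_lit 0x101) (nat_lit 0) (p (nat_lit 0x119) (nat_lit 0) (p (nat_lit 0xd1) (nat_lit 0) (p (nat_lit 0x81) (nat_lit 0) (p (nat_lit 0x41) (nat_lit 1) (p (nat_lit 0x10a098b090a9a) (nat_lit 0) (p (nat_lit 0x9890a888a1a) (nat_lit 0) (p (nat_lit 0x109088a08079a) (nat_lit 0) (p (nat_lit 0x8880987871a) (nat_lit 0) (p (nat_lit 0x8000000000800080907088a)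 (nat_lit 0) (p (nat_lit 0x8000000000800078886860a) (nat_lit 0) (p (nat_lit 0x10688060782) (nat_lit 0) (p (nat_lit 0x607858702) (nat_lit 0) (p (nat_lit 0x10587050482) (nat_lit 0) (p (nat_lit 0x506848402) (nat_lit 0) (p (nat_lit 0x16000c) (nat_lit 0) (p (nat_lit 0x50612) (nat_lit 0) (p (nat_lit 0x40592) (nat_lit 0) (p (nat_lit 0x40492) (nat_lit 0) (p (nat_lit 0x30412) (nat_lit 0) (p (nat_lit 0x30212) (nat_lit 0) (p (nat_lit 0x20192) (nat_lit 0) (p (nat_lit 0x20092) (nat_lit 0) (p (nat_lit 0x10012) (nat_lit 0) pn)))))))))))))))))))))))))))))))))))) :=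
  Cl.node (nat_lit 0x81) (nat_lit 2) (by decide +kernel) (ClAll.succ (ClAll.succ ClAll.zero s618) s619)

def n46 : Cl (O (nat_lit 5)) (R (nat_lit 104465))
    (p (nat_lit 0x80004) (nat_lit 0) (p (nat_lit 0x41) (nat_lit 0) (p (nat_lit 0x100014) (nat_lit 0) (p (nat_lit 0x100004) (nat_lit 0) (p (nat_lit 0x200004) (nat_lit 0) (p (nat_lit 0x200014) (nat_lit 0) (p (nat_lit 0x380c2) (nat_lit 0) (p (nat_lit 0x4c42a) (nat_lit 10) (p (nat_lit 0x119) (nat_lit 1) (p (nat_lit 0xc9) (nat_lit 0) (p (nat_lit 0x89) (nat_lit 1) (p (nat_lit 0x109) (nat_lit 1) (p (nat_lit 0x101) (nat_lit 0) (p (nat_lit 0x111) (nat_lit 0) (p (nat_lit 0xd1) (nat_lit 1) (p (nat_lit 0x81) (nat_lit 0) (p (nat_lit 0x41) (nat_lit 1) (p (nat_lit 0x10a098b090a9a) (nat_lit 0) (p (nat_lit 0x9890a888a1a) (nat_lit 0) (p (nat_lit 0x109088a08079a) (nat_lit 0) (p (nat_lit 0x8880987871a) (nat_lit 0) (p (nat_lit 0x8000000000800080907088a)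 (nat_lit 0) (p (nat_lit 0x8000000000800078886860a) (nat_lit 0) (p (nat_lit 0x10688060782) (nat_lit 0) (p (nat_lit 0x607858702) (nat_lit 0) (p (nat_lit 0x10587050482) (nat_lit 0) (p (nat_lit 0x506848402) (nat_lit 0) (p (nat_lit 0x16000c) (nat_lit 0) (p (nat_lit 0x50612) (nat_lit 0) (p (nat_lit 0x40592) (nat_lit 0) (p (nat_lit 0x40492) (nat_lit 0) (p (nat_lit 0x30412) (nat_lit 0) (p (nat_lit 0x30212) (nat_lit 0) (p (nat_lit 0x20192) (nat_lit 0) (p (nat_lit 0x20092) (nat_lit 0) (p (nat_lit 0x10012) (nat_lit 0) pn)))))))))))))))))))))))))))))))))))) :=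
  Cl.node (nat_lit 0xc9) (nat_lit 2) (by decide +kernel) (ClAll.succ (ClAll.succ ClAll.zero s803) n35)

def n47 : Cl (O (nat_lit 5)) (R (nat_lit 104465))
    (p (nat_lit 0x80004) (nat_lit 1) (p (nat_lit 0x41) (nat_lit 0) (p (nat_lit 0x100014) (nat_lit 0) (p (nat_lit 0x100004) (nat_lit 0) (p (nat_lit 0x200004) (nat_lit 0) (p (nat_lit 0x200014) (nat_lit 0) (p (nat_lit 0x380c2) (nat_lit 0) (p (nat_lit 0x4c42a) (nat_lit 10) (p (nat_lit 0x119) (nat_lit 1) (p (nat_lit 0xc9) (nat_lit 0) (p (nat_lit 0x89) (nat_lit 1) (p (nat_lit 0x109) (nat_lit 1) (p (nat_lit 0x101) (nat_lit 0) (p (nat_lit 0x111) (nat_lit 0) (p (nat_lit 0xd1) (nat_lit 1) (p (nat_lit 0x81) (nat_lit 0) (p (nat_lit 0x41) (nat_lit 1) (p (nat_lit 0x10a098b090a9a) (nat_lit 0) (p (nat_lit 0x9890a888a1a) (nat_lit 0) (p (nat_lit 0x109088a08079a) (nat_lit 0) (p (nat_lit 0x8880987871a) (nat_lit 0) (p (nat_lit 0x8000000000800080907088a)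 (nat_lit 0) (p (nat_lit 0x8000000000800078886860a) (nat_lit 0) (p (nat_lit 0x10688060782) (nat_lit 0) (p (nat_lit 0x607858702) (nat_lit 0) (p (nat_lit 0x10587050482) (nat_lit 0) (p (nat_lit 0x506848402) (nat_lit 0) (p (nat_lit 0x16000c) (nat_lit 0) (p (nat_lit 0x50612) (nat_lit 0) (p (nat_lit 0x40592) (nat_lit 0) (p (nat_lit 0x40492) (nat_lit 0) (p (nat_lit 0x30412) (nat_lit 0) (p (nat_lit 0x30212) (nat_lit 0) (p (nat_lit 0x20192) (nat_lit 0) (p (nat_lit 0x20092) (nat_lit 0) (p (nat_lit 0x10012) (nat_lit 0) pn)))))))))))))))))))))))))))))))))))) :=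
  Cl.node (nat_lit 0x13400c) (nat_lit 2) (by decide +kernel) (ClAll.succ (ClAll.succ ClAll.zero n36) s810)

def n48 : Cl (O (nat_lit 5)) (R (nat_lit 104465))
    (p (nat_lit 0x2680d000002680d0c8d8b8b0a) (nat_lit 0) (p (nat_lit 0x100004) (nat_lit 0) (p (nat_lit 0x100014) (nat_lit 0) (p (nat_lit 0x1fc014) (nat_lit 0) (p (nat_lit 0x1fc004) (nat_lit 0) (p (nat_lit 0xb000c) (nat_lit 1) (p (nat_lit 0x380c2) (nat_lit 1) (p (nat_lit 0x4c42a) (nat_lit 10) (p (nat_lit 0x119) (nat_lit 1) (p (nat_lit 0xc9) (nat_lit 0) (p (nat_lit 0x89) (nat_lit 1) (p (nat_lit 0x109) (nat_lit 1) (p (nat_lit 0x101) (nat_lit 0) (p (nat_lit 0x111) (nat_lit 0) (p (nat_lit 0xd1) (nat_lit 1) (p (nat_lit 0x81) (nat_lit 0) (p (nat_lit 0x41) (nat_lit 1) (p (nat_lit 0x10a098b090a9a) (nat_lit 0) (p (nat_lit 0x9890a888a1a) (nat_lit 0) (p (nat_lit 0x109088a08079a) (nat_lit 0) (p (nat_lit 0x8880987871a) (nat_lit 0) (p (nat_lit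 0x8000000000800080907088a) (nat_lit 0) (p (nat_lit 0x8000000000800078886860a) (nat_lit 0) (p (nat_lit 0x10688060782) (nat_lit 0) (p (nat_lit 0x607858702) (nat_lit 0) (p (nat_lit 0x10587050482) (nat_lit 0) (p (nat_lit 0x506848402) (nat_lit 0) (p (nat_lit 0x16000c) (nat_lit 0) (p (nat_lit 0x50612) (nat_lit 0) (p (nat_lit 0x40592) (nat_lit 0) (p (nat_lit 0x40492) (nat_lit 0) (p (nat_lit 0x30412) (nat_lit 0) (p (nat_lit 0x30212) (nat_lit 0) (p (nat_lit 0x20192) (nat_lit 0) (p (nat_lit 0x20092) (nat_lit 0) (p (nat_lit 0x10012) (nat_lit 0) pn)))))))))))))))))))))))))))))))))))) :=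
  Cl.node (nat_lit 0x2680d000002680d0d0e0c0d8a) (nat_lit 1) (by decide +kernel) (ClAll.succ ClAll.zero n37)

def n49 : Cl (O (nat_lit 5)) (R (nat_lit 104465))
    (p (nat_lit 0x2a825800002680d0d0e0c0d8a) (nat_lit 0) (p (nat_lit 0x2a825800002680d0c8d8b8b0a) (nat_lit 0) (p (nat_lit 0x100004) (nat_lit 0) (p (nat_lit 0x1fc014) (nat_lit 0) (p (nat_lit 0x1fc004) (nat_lit 0) (p (nat_lit 0xb000c) (nat_lit 1) (p (nat_lit 0x380c2) (nat_lit 0) (p (nat_lit 0x444aa) (nat_lit 7) (p (nat_lit 0x111) (nat_lit 0) (p (nat_lit 0xc9) (nat_lit 1) (p (nat_lit 0x81) (nat_lit 0) (p (nat_lit 0x101) (nat_lit 1) (p (nat_lit 0x119) (nat_lit 0) (p (nat_lit 0xd1) (nat_lit 0) (p (nat_lit 0x89) (nat_lit 0) (p (nat_lit 0x41) (nat_lit 0) (p (nat_lit 0x10a098b090a9a) (nat_lit 0) (p (nat_lit 0x9890a888a1a) (nat_lit 0) (p (nat_lit 0x109088a08079a) (nat_lit 0) (p (nat_lit 0x8880987871a) (nat_lit 0) (p (nat_lit 0x8000000000800080907088a)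 (nat_lit 0) (p (nat_lit 0x8000000000800078886860a) (nat_lit 0) (p (nat_lit 0x10688060782) (nat_lit 0) (p (nat_lit 0x607858702) (nat_lit 0) (p (nat_lit 0x10587050482) (nat_lit 0) (p (nat_lit 0x506848402) (nat_lit 0) (p (nat_lit 0x16000c) (nat_lit 0) (p (nat_lit 0x50612) (nat_lit 0) (p (nat_lit 0x40592) (nat_lit 0) (p (nat_lit 0x40492) (nat_lit 0) (p (nat_lit 0x30412) (nat_lit 0) (p (nat_lit 0x30212) (nat_lit 0) (p (nat_lit 0x20192) (nat_lit 0) (p (nat_lit 0x20092) (nat_lit 0) (p (nat_lit 0x10012) (nat_lit 0) pn))))))))))))))))))))))))))))))))))) :=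
  Cl.node (nat_lit 0xd8d0e8c8c1a) (nat_lit 1) (by decide +kernel) (ClAll.succ ClAll.zero n38)

def n50 : Cl (O (nat_lit 5)) (R (nat_lit 104465))
    (p (nat_lit 0x2680d000002a8258d0e0c0d8a) (nat_lit 0) (p (nat_lit 0x2680d000002a8258c8d8b8b0a) (nat_lit 0) (p (nat_lit 0x100014) (nat_lit 0) (p (nat_lit 0x1fc014) (nat_lit 0) (p (nat_lit 0x1fc004) (nat_lit 0) (p (nat_lit 0xb000c) (nat_lit 1) (p (nat_lit 0x380c2) (nat_lit 1) (p (nat_lit 0x444aa) (nat_lit 7) (p (nat_lit 0x111) (nat_lit 0) (p (nat_lit 0xc9) (nat_lit 1) (p (nat_lit 0x81) (nat_lit 0) (p (nat_lit 0x101) (nat_lit 1) (p (nat_lit 0x119) (nat_lit 0) (p (nat_lit 0xd1) (nat_lit 0) (p (nat_lit 0x89) (nat_lit 0) (p (nat_lit 0x41) (nat_lit 0) (p (nat_lit 0x10a098b090a9a) (nat_lit 0) (p (nat_lit 0x9890a888a1a) (nat_lit 0) (p (nat_lit 0x109088a08079a) (nat_lit 0) (p (nat_lit 0x8880987871a) (nat_lit 0) (p (nat_lit 0x8000000000800080907088a)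 (nat_lit 0) (p (nat_lit 0x8000000000800078886860a) (nat_lit 0) (p (nat_lit 0x10688060782) (nat_lit 0) (p (nat_lit 0x607858702) (nat_lit 0) (p (nat_lit 0x10587050482) (nat_lit 0) (p (nat_lit 0x506848402) (nat_lit 0) (p (nat_lit 0x16000c) (nat_lit 0) (p (nat_lit 0x50612) (nat_lit 0) (p (nat_lit 0x40592) (nat_lit 0) (p (nat_lit 0x40492) (nat_lit 0) (p (nat_lit 0x30412) (nat_lit 0) (p (nat_lit 0x30212) (nat_lit 0) (p (nat_lit 0x20192) (nat_lit 0) (p (nat_lit 0x20092) (nat_lit 0) (p (nat_lit 0x10012) (nat_lit 0) pn))))))))))))))))))))))))))))))))))) :=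
  Cl.node (nat_lit 0xd8d0e8c8c1a) (nat_lit 1) (by decide +kernel) (ClAll.succ ClAll.zero n39)

def n51 : Cl (O (nat_lit 5)) (R (nat_lit 104465))
    (p (nat_lit 0x13400c) (nat_lit 0) (p (nat_lit 0x80004) (nat_lit 1) (p (nat_lit 0x100004) (nat_lit 0) (p (nat_lit 0x200004) (nat_lit 0) (p (nat_lit 0x100014) (nat_lit 0) (p (nat_lit 0x200014) (nat_lit 0) (p (nat_lit 0x380c2) (nat_lit 0) (p (nat_lit 0x3cc2a) (nat_lit 2) (p (nat_lit 0x111) (nat_lit 1) (p (nat_lit 0xc9) (nat_lit 1) (p (nat_lit 0x81) (nat_lit 0) (p (nat_lit 0x101) (nat_lit 1) (p (nat_lit 0x119) (nat_lit 0) (p (nat_lit 0xd1) (nat_lit 0) (p (nat_lit 0x89) (nat_lit 0) (p (nat_lit 0x41) (nat_lit 0) (p (nat_lit 0x10a098b090a9a) (nat_lit 0) (p (nat_lit 0x9890a888a1a) (nat_lit 0) (p (nat_lit 0x109088a08079a) (nat_lit 0) (p (nat_lit 0x8880987871a) (nat_lit 0) (p (nat_lit 0x8000000000800080907088a) (nat_lit 0) (p (nat_lit 0x8000000000800078886860a)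 (nat_lit 0) (p (nat_lit 0x10688060782) (nat_lit 0) (p (nat_lit 0x607858702) (nat_lit 0) (p (nat_lit 0x10587050482) (nat_lit 0) (p (nat_lit 0x506848402) (nat_lit 0) (p (nat_lit 0x16000c) (nat_lit 0) (p (nat_lit 0x50612) (nat_lit 0) (p (nat_lit 0x40592) (nat_lit 0) (p (nat_lit 0x40492) (nat_lit 0) (p (nat_lit 0x30412) (nat_lit 0) (p (nat_lit 0x30212) (nat_lit 0) (p (nat_lit 0x20192) (nat_lit 0) (p (nat_lit 0x20092) (nat_lit 0) (p (nat_lit 0x10012) (nat_lit 0) pn))))))))))))))))))))))))))))))))))) :=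
  Cl.node (nat_lit 0x9c00c) (nat_lit 2) (by decide +kernel) (ClAll.succ (ClAll.succ ClAll.zero s86) s87)

def n52 : Cl (O (nat_lit 5)) (R (nat_lit 104465))
    (p (nat_lit 0x100004) (nat_lit 0) (p (nat_lit 0x100014) (nat_lit 0) (p (nat_lit 0x10800c) (nat_lit 0) (p (nat_lit 0x1fc004) (nat_lit 0) (p (nat_lit 0xb000c) (nat_lit 1) (p (nat_lit 0x200014) (nat_lit 0) (p (nat_lit 0x101) (nat_lit 0) (p (nat_lit 0x380c2) (nat_lit 0) (p (nat_lit 0x3cc2a) (nat_lit 2) (p (nat_lit 0x109) (nat_lit 1) (p (nat_lit 0xc9) (nat_lit 1) (p (nat_lit 0xc1) (nat_lit 0) (p (nat_lit 0x119) (nat_lit 1) (p (nat_lit 0xd1) (nat_lit 0) (p (nat_lit 0x89) (nat_lit 0) (p (nat_lit 0x41) (nat_lit 0) (p (nat_lit 0x10a098b090a9a) (nat_lit 0) (p (nat_lit 0x9890a888a1a) (nat_lit 0) (p (nat_lit 0x109088a08079a) (nat_lit 0) (p (nat_lit 0x8880987871a) (nat_lit 0) (p (nat_lit 0x8000000000800080907088a) (nat_lit 0) (p (nat_lit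 0x8000000000800078886860a) (nat_lit 0) (p (nat_lit 0x10688060782) (nat_lit 0) (p (nat_lit 0x607858702) (nat_lit 0) (p (nat_lit 0x10587050482) (nat_lit 0) (p (nat_lit 0x506848402) (nat_lit 0) (p (nat_lit 0x16000c) (nat_lit 0) (p (nat_lit 0x50612) (nat_lit 0) (p (nat_lit 0x40592) (nat_lit 0) (p (nat_lit 0x40492) (nat_lit 0) (p (nat_lit 0x30412) (nat_lit 0) (p (nat_lit 0x30212) (nat_lit 0) (p (nat_lit 0x20192) (nat_lit 0) (p (nat_lit 0x20092) (nat_lit 0) (p (nat_lit 0x10012) (nat_lit 0) pn))))))))))))))))))))))))))))))))))) :=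
  Cl.node (nat_lit 0x2680d000002680d0c8d8b8b0a) (nat_lit 1) (by decide +kernel) (ClAll.succ ClAll.zero n40)

def n53 : Cl (O (nat_lit 5)) (R (nat_lit 104465))
    (p (nat_lit 0x2680d000002680d0c8d8b8b0a) (nat_lit 0) (p (nat_lit 0xb000c) (nat_lit 1) (p (nat_lit 0x100004) (nat_lit 0) (p (nat_lit 0x200004) (nat_lit 0) (p (nat_lit 0x100014) (nat_lit 0) (p (nat_lit 0x200014) (nat_lit 0) (p (nat_lit 0xc9) (nat_lit 1) (p (nat_lit 0x380c2) (nat_lit 0) (p (nat_lit 0x3cc2a) (nat_lit 2) (p (nat_lit 0x109) (nat_lit 1) (p (nat_lit 0x81) (nat_lit 0) (p (nat_lit 0xc1) (nat_lit 1) (p (nat_lit 0x119) (nat_lit 1) (p (nat_lit 0xd1) (nat_lit 0) (p (nat_lit 0x89) (nat_lit 0) (p (nat_lit 0x41) (nat_lit 0) (p (nat_lit 0x10a098b090a9a) (nat_lit 0) (p (nat_lit 0x9890a888a1a) (nat_lit 0) (p (nat_lit 0x109088a08079a) (nat_lit 0) (p (nat_lit 0x8880987871a) (nat_lit 0) (p (nat_lit 0x8000000000800080907088a)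 (nat_lit 0) (p (nat_lit 0x8000000000800078886860a) (nat_lit 0) (p (nat_lit 0x10688060782) (nat_lit 0) (p (nat_lit 0x607858702) (nat_lit 0) (p (nat_lit 0x10587050482) (nat_lit 0) (p (nat_lit 0x506848402) (nat_lit 0) (p (nat_lit 0x16000c) (nat_lit 0) (p (nat_lit 0x50612) (nat_lit 0) (p (nat_lit 0x40592) (nat_lit 0) (p (nat_lit 0x40492) (nat_lit 0) (p (nat_lit 0x30412) (nat_lit 0) (p (nat_lit 0x30212) (nat_lit 0) (p (nat_lit 0x20192) (nat_lit 0) (p (nat_lit 0x20092) (nat_lit 0) (p (nat_lit 0x10012) (nat_lit 0) pn))))))))))))))))))))))))))))))))))) :=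
  Cl.node (nat_lit 0x2680d000002680d0d0e0c0d8a) (nat_lit 1) (by decide +kernel) (ClAll.succ ClAll.zero n41)

def n54 : Cl (O (nat_lit 5)) (R (nat_lit 104465))
    (p (nat_lit 0x2680d000002a8258c8d8b8b0a) (nat_lit 0) (p (nat_lit 0x100014) (nat_lit 0) (p (nat_lit 0x119) (nat_lit 1) (p (nat_lit 0x1fc014) (nat_lit 0) (p (nat_lit 0x1fc004) (nat_lit 0) (p (nat_lit 0xb000c) (nat_lit 1) (p (nat_lit 0x380c2) (nat_lit 1) (p (nat_lit 0x444aa) (nat_lit 7) (p (nat_lit 0x119) (nat_lit 0) (p (nat_lit 0xc1) (nat_lit 0) (p (nat_lit 0x81) (nat_lit 1) (p (nat_lit 0x101) (nat_lit 1) (p (nat_lit 0x111) (nat_lit 0) (p (nat_lit 0xd1) (nat_lit 1) (p (nat_lit 0x89) (nat_lit 0) (p (nat_lit 0x41) (nat_lit 0) (p (nat_lit 0x10a098b090a9a) (nat_lit 0) (p (nat_lit 0x9890a888a1a) (nat_lit 0) (p (nat_lit 0x109088a08079a) (nat_lit 0) (p (nat_lit 0x8880987871a) (nat_lit 0) (p (nat_lit 0x8000000000800080907088a)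 (nat_lit 0) (p (nat_lit 0x8000000000800078886860a) (nat_lit 0) (p (nat_lit 0x10688060782) (nat_lit 0) (p (nat_lit 0x607858702) (nat_lit 0) (p (nat_lit 0x10587050482) (nat_lit 0) (p (nat_lit 0x506848402) (nat_lit 0) (p (nat_lit 0x16000c) (nat_lit 0) (p (nat_lit 0x50612) (nat_lit 0) (p (nat_lit 0x40592) (nat_lit 0) (p (nat_lit 0x40492) (nat_lit 0) (p (nat_lit 0x30412) (nat_lit 0) (p (nat_lit 0x30212) (nat_lit 0) (p (nat_lit 0x20192) (nat_lit 0) (p (nat_lit 0x20092) (nat_lit 0) (p (nat_lit 0x10012) (nat_lit 0) pn))))))))))))))))))))))))))))))))))) :=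
  Cl.node (nat_lit 0x2680d000002a8258d0e0c0d8a) (nat_lit 1) (by decide +kernel) (ClAll.succ ClAll.zero n42)

def n55 : Cl (O (nat_lit 5)) (R (nat_lit 104465))
    (p (nat_lit 0x2a825800002680d0d0e0c0d8a) (nat_lit 0) (p (nat_lit 0x2a825800002680d0c8d8b8b0a) (nat_lit 0) (p (nat_lit 0x100004) (nat_lit 0) (p (nat_lit 0x1fc014) (nat_lit 0) (p (nat_lit 0x1fc004) (nat_lit 0) (p (nat_lit 0xb000c) (nat_lit 1) (p (nat_lit 0x380c2) (nat_lit 0) (p (nat_lit 0x444aa) (nat_lit 7) (p (nat_lit 0xd1) (nat_lit 1) (p (nat_lit 0x111) (nat_lit 1) (p (nat_lit 0x109) (nat_lit 0) (p (nat_lit 0x101) (nat_lit 0) (p (nat_lit 0x119) (nat_lit 0) (p (nat_lit 0xc9) (nat_lit 0) (p (nat_lit 0x89) (nat_lit 1) (p (nat_lit 0x41) (nat_lit 0) (p (nat_lit 0x10a098b090a9a) (nat_lit 0) (p (nat_lit 0x9890a888a1a) (nat_lit 0) (p (nat_lit 0x109088a08079a) (nat_lit 0) (p (nat_lit 0x8880987871a) (nat_lit 0) (p (nat_lit 0x8000000000800080907088a)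 (nat_lit 0) (p (nat_lit 0x8000000000800078886860a) (nat_lit 0) (p (nat_lit 0x10688060782) (nat_lit 0) (p (nat_lit 0x607858702) (nat_lit 0) (p (nat_lit 0x10587050482) (nat_lit 0) (p (nat_lit 0x506848402) (nat_lit 0) (p (nat_lit 0x16000c) (nat_lit 0) (p (nat_lit 0x50612) (nat_lit 0) (p (nat_lit 0x40592) (nat_lit 0) (p (nat_lit 0x40492) (nat_lit 0) (p (nat_lit 0x30412) (nat_lit 0) (p (nat_lit 0x30212) (nat_lit 0) (p (nat_lit 0x20192) (nat_lit 0) (p (nat_lit 0x20092) (nat_lit 0) (p (nat_lit 0x10012) (nat_lit 0) pn))))))))))))))))))))))))))))))))))) :=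
  Cl.node (nat_lit 0xd8d0e8c8c1a) (nat_lit 1) (by decide +kernel) (ClAll.succ ClAll.zero n43)

def n56 : Cl (O (nat_lit 5)) (R (nat_lit 104465))
    (p (nat_lit 0x80014) (nat_lit 1) (p (nat_lit 0x100014) (nat_lit 0) (p (nat_lit 0x100004) (nat_lit 0) (p (nat_lit 0x1fc014) (nat_lit 0) (p (nat_lit 0x1fc004) (nat_lit 0) (p (nat_lit 0xb000c) (nat_lit 1) (p (nat_lit 0x380c2) (nat_lit 1) (p (nat_lit 0x444aa) (nat_lit 7) (p (nat_lit 0xd1) (nat_lit 1) (p (nat_lit 0x111) (nat_lit 1) (p (nat_lit 0x109) (nat_lit 0) (p (nat_lit 0x101) (nat_lit 0) (p (nat_lit 0x119) (nat_lit 0) (p (nat_lit 0xc9) (nat_lit 0) (p (nat_lit 0x89) (nat_lit 1) (p (nat_lit 0x41) (nat_lit 0) (p (nat_lit 0x10a098b090a9a) (nat_lit 0) (p (nat_lit 0x9890a888a1a) (nat_lit 0) (p (nat_lit 0x109088a08079a) (nat_lit 0) (p (nat_lit 0x8880987871a) (nat_lit 0) (p (nat_lit 0x8000000000800080907088a) (nat_lit 0) (p (nat_lit 0x8000000000800078886860a)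 (nat_lit 0) (p (nat_lit 0x10688060782) (nat_lit 0) (p (nat_lit 0x607858702) (nat_lit 0) (p (nat_lit 0x10587050482) (nat_lit 0) (p (nat_lit 0x506848402) (nat_lit 0) (p (nat_lit 0x16000c) (nat_lit 0) (p (nat_lit 0x50612) (nat_lit 0) (p (nat_lit 0x40592) (nat_lit 0) (p (nat_lit 0x40492) (nat_lit 0) (p (nat_lit 0x30412) (nat_lit 0) (p (nat_lit 0x30212) (nat_lit 0) (p (nat_lit 0x20192) (nat_lit 0) (p (nat_lit 0x20092) (nat_lit 0) (p (nat_lit 0x10012) (nat_lit 0) pn))))))))))))))))))))))))))))))))))) :=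
  Cl.node (nat_lit 0x13400c) (nat_lit 2) (by decide +kernel) (ClAll.succ (ClAll.succ ClAll.zero n44) s400)

def n57 : Cl (O (nat_lit 5)) (R (nat_lit 104465))
    (p (nat_lit 0x111) (nat_lit 1) (p (nat_lit 0x81) (nat_lit 0) (p (nat_lit 0x100014) (nat_lit 0) (p (nat_lit 0x1fc014) (nat_lit 0) (p (nat_lit 0x1fc004) (nat_lit 0) (p (nat_lit 0xb000c) (nat_lit 1) (p (nat_lit 0x380c2) (nat_lit 1) (p (nat_lit 0x4c42a) (nat_lit 10) (p (nat_lit 0xc9) (nat_lit 0) (p (nat_lit 0x89) (nat_lit 1) (p (nat_lit 0x109) (nat_lit 1) (p (nat_lit 0x101) (nat_lit 0) (p (nat_lit 0x119) (nat_lit 0) (p (nat_lit 0xd1) (nat_lit 0) (p (nat_lit 0x81) (nat_lit 0) (p (nat_lit 0x41) (nat_lit 1) (p (nat_lit 0x10a098b090a9a) (nat_lit 0) (p (nat_lit 0x9890a888a1a) (nat_lit 0) (p (nat_lit 0x109088a08079a) (nat_lit 0) (p (nat_lit 0x8880987871a) (nat_lit 0) (p (nat_lit 0x8000000000800080907088a) (nat_lit 0) (p (nat_lit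 0x8000000000800078886860a) (nat_lit 0) (p (nat_lit 0x10688060782) (nat_lit 0) (p (nat_lit 0x607858702) (nat_lit 0) (p (nat_lit 0x10587050482) (nat_lit 0) (p (nat_lit 0x506848402) (nat_lit 0) (p (nat_lit 0x16000c) (nat_lit 0) (p (nat_lit 0x50612) (nat_lit 0) (p (nat_lit 0x40592) (nat_lit 0) (p (nat_lit 0x40492) (nat_lit 0) (p (nat_lit 0x30412) (nat_lit 0) (p (nat_lit 0x30212) (nat_lit 0) (p (nat_lit 0x20192) (nat_lit 0) (p (nat_lit 0x20092) (nat_lit 0) (p (nat_lit 0x10012) (nat_lit 0) pn))))))))))))))))))))))))))))))))))) :=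
  Cl.node (nat_lit 0x89) (nat_lit 2) (by decide +kernel) (ClAll.succ (ClAll.succ ClAll.zero n45) s620)

def n58 : Cl (O (nat_lit 5)) (R (nat_lit 104465))
    (p (nat_lit 0x41) (nat_lit 0) (p (nat_lit 0x100014) (nat_lit 0) (p (nat_lit 0x100004) (nat_lit 0) (p (nat_lit 0x200004) (nat_lit 0) (p (nat_lit 0x200014) (nat_lit 0) (p (nat_lit 0x380c2) (nat_lit 0) (p (nat_lit 0x4c42a) (nat_lit 10) (p (nat_lit 0x119) (nat_lit 1) (p (nat_lit 0xc9) (nat_lit 0) (p (nat_lit 0x89) (nat_lit 1) (p (nat_lit 0x109) (nat_lit 1) (p (nat_lit 0x101) (nat_lit 0) (p (nat_lit 0x111) (nat_lit 0) (p (nat_lit 0xd1) (nat_lit 1) (p (nat_lit 0x81) (nat_lit 0) (p (nat_lit 0x41) (nat_lit 1) (p (nat_lit 0x10a098b090a9a) (nat_lit 0) (p (nat_lit 0x9890a888a1a) (nat_lit 0) (p (nat_lit 0x109088a08079a) (nat_lit 0) (p (nat_lit 0x8880987871a) (nat_lit 0) (p (nat_lit 0x8000000000800080907088a) (nat_lit 0) (p (nat_lit 0x8000000000800078886860a)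 (nat_lit 0) (p (nat_lit 0x10688060782) (nat_lit 0) (p (nat_lit 0x607858702) (nat_lit 0) (p (nat_lit 0x10587050482) (nat_lit 0) (p (nat_lit 0x506848402) (nat_lit 0) (p (nat_lit 0x16000c) (nat_lit 0) (p (nat_lit 0x50612) (nat_lit 0) (p (nat_lit 0x40592) (nat_lit 0) (p (nat_lit 0x40492) (nat_lit 0) (p (nat_lit 0x30412) (nat_lit 0) (p (nat_lit 0x30212) (nat_lit 0) (p (nat_lit 0x20192) (nat_lit 0) (p (nat_lit 0x20092) (nat_lit 0) (p (nat_lit 0x10012) (nat_lit 0) pn))))))))))))))))))))))))))))))))))) :=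
  Cl.node (nat_lit 0x80004) (nat_lit 2) (by decide +kernel) (ClAll.succ (ClAll.succ ClAll.zero n46) n47)

def n59 : Cl (O (nat_lit 5)) (R (nat_lit 104465))
    (p (nat_lit 0x200004) (nat_lit 0) (p (nat_lit 0x200014) (nat_lit 0) (p (nat_lit 0x380c2) (nat_lit 0) (p (nat_lit 0x3cc2a) (nat_lit 2) (p (nat_lit 0xb000c) (nat_lit 0) (p (nat_lit 0x380c2) (nat_lit 1) (p (nat_lit 0x4c42a) (nat_lit 10) (p (nat_lit 0x119) (nat_lit 1) (p (nat_lit 0xc9) (nat_lit 0) (p (nat_lit 0x89) (nat_lit 1) (p (nat_lit 0x109) (nat_lit 1) (p (nat_lit 0x101) (nat_lit 0) (p (nat_lit 0x111) (nat_lit 0) (p (nat_lit 0xd1) (nat_lit 1) (p (nat_lit 0x81) (nat_lit 0) (p (nat_lit 0x41) (nat_lit 1) (p (nat_lit 0x10a098b090a9a) (nat_lit 0) (p (nat_lit 0x9890a888a1a) (nat_lit 0) (p (nat_lit 0x109088a08079a) (nat_lit 0) (p (nat_lit 0x8880987871a) (nat_lit 0) (p (nat_lit 0x8000000000800080907088a) (nat_lit 0) (p (nat_lit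 0x8000000000800078886860a) (nat_lit 0) (p (nat_lit 0x10688060782) (nat_lit 0) (p (nat_lit 0x607858702) (nat_lit 0) (p (nat_lit 0x10587050482) (nat_lit 0) (p (nat_lit 0x506848402) (nat_lit 0) (p (nat_lit 0x16000c) (nat_lit 0) (p (nat_lit 0x50612) (nat_lit 0) (p (nat_lit 0x40592) (nat_lit 0) (p (nat_lit 0x40492) (nat_lit 0) (p (nat_lit 0x30412) (nat_lit 0) (p (nat_lit 0x30212) (nat_lit 0) (p (nat_lit 0x20192) (nat_lit 0) (p (nat_lit 0x20092) (nat_lit 0) (p (nat_lit 0x10012) (nat_lit 0) pn))))))))))))))))))))))))))))))))))) :=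
  Cl.node (nat_lit 0x100004) (nat_lit 2) (by decide +kernel) (ClAll.succ (ClAll.succ ClAll.zero s818) s819)

def n60 : Cl (O (nat_lit 5)) (R (nat_lit 104465))
    (p (nat_lit 0x100004) (nat_lit 0) (p (nat_lit 0x100014) (nat_lit 0) (p (nat_lit 0x1fc014) (nat_lit 0) (p (nat_lit 0x1fc004) (nat_lit 0) (p (nat_lit 0xb000c) (nat_lit 1) (p (nat_lit 0x380c2) (nat_lit 1) (p (nat_lit 0x4c42a) (nat_lit 10) (p (nat_lit 0x119) (nat_lit 1) (p (nat_lit 0xc9) (nat_lit 0) (p (nat_lit 0x89) (nat_lit 1) (p (nat_lit 0x109) (nat_lit 1) (p (nat_lit 0x101) (nat_lit 0) (p (nat_lit 0x111) (nat_lit 0) (p (nat_lit 0xd1) (nat_lit 1) (p (nat_lit 0x81) (nat_lit 0) (p (nat_lit 0x41) (nat_lit 1) (p (nat_lit 0x10a098b090a9a) (nat_lit 0) (p (nat_lit 0x9890a888a1a) (nat_lit 0) (p (nat_lit 0x109088a08079a) (nat_lit 0) (p (nat_lit 0x8880987871a) (nat_lit 0) (p (nat_lit 0x8000000000800080907088a) (nat_lit 0) (p (nat_lit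 0x8000000000800078886860a) (nat_lit 0) (p (nat_lit 0x10688060782) (nat_lit 0) (p (nat_lit 0x607858702) (nat_lit 0) (p (nat_lit 0x10587050482) (nat_lit 0) (p (nat_lit 0x506848402) (nat_lit 0) (p (nat_lit 0x16000c) (nat_lit 0) (p (nat_lit 0x50612) (nat_lit 0) (p (nat_lit 0x40592) (nat_lit 0) (p (nat_lit 0x40492) (nat_lit 0) (p (nat_lit 0x30412) (nat_lit 0) (p (nat_lit 0x30212) (nat_lit 0) (p (nat_lit 0x20192) (nat_lit 0) (p (nat_lit 0x20092) (nat_lit 0) (p (nat_lit 0x10012) (nat_lit 0) pn))))))))))))))))))))))))))))))))))) :=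
  Cl.node (nat_lit 0x2680d000002680d0c8d8b8b0a) (nat_lit 1) (by decide +kernel) (ClAll.succ ClAll.zero n48)

def n61 : Cl (O (nat_lit 5)) (R (nat_lit 104465))
    (p (nat_lit 0x2a825800002680d0c8d8b8b0a) (nat_lit 0) (p (nat_lit 0x100004) (nat_lit 0) (p (nat_lit 0x1fc014) (nat_lit 0) (p (nat_lit 0x1fc004) (nat_lit 0) (p (nat_lit 0xb000c) (nat_lit 1) (p (nat_lit 0x380c2) (nat_lit 0) (p (nat_lit 0x444aa) (nat_lit 7) (p (nat_lit 0x111) (nat_lit 0) (p (nat_lit 0xc9) (nat_lit 1) (p (nat_lit 0x81) (nat_lit 0) (p (nat_lit 0x101) (nat_lit 1) (p (nat_lit 0x119) (nat_lit 0) (p (nat_lit 0xd1) (nat_lit 0) (p (nat_lit 0x89) (nat_lit 0) (p (nat_lit 0x41) (nat_lit 0) (p (nat_lit 0x10a098b090a9a) (nat_lit 0) (p (nat_lit 0x9890a888a1a) (nat_lit 0) (p (nat_lit 0x109088a08079a) (nat_lit 0) (p (nat_lit 0x8880987871a) (nat_lit 0) (p (nat_lit 0x8000000000800080907088a) (nat_lit 0) (p (nat_lit 0x8000000000800078886860a)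 (nat_lit 0) (p (nat_lit 0x10688060782) (nat_lit 0) (p (nat_lit 0x607858702) (nat_lit 0) (p (nat_lit 0x10587050482) (nat_lit 0) (p (nat_lit 0x506848402) (nat_lit 0) (p (nat_lit 0x16000c) (nat_lit 0) (p (nat_lit 0x50612) (nat_lit 0) (p (nat_lit 0x40592) (nat_lit 0) (p (nat_lit 0x40492) (nat_lit 0) (p (nat_lit 0x30412) (nat_lit 0) (p (nat_lit 0x30212) (nat_lit 0) (p (nat_lit 0x20192) (nat_lit 0) (p (nat_lit 0x20092) (nat_lit 0) (p (nat_lit 0x10012) (nat_lit 0) pn)))))))))))))))))))))))))))))))))) :=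
  Cl.node (nat_lit 0x2a825800002680d0d0e0c0d8a) (nat_lit 1) (by decide +kernel) (ClAll.succ ClAll.zero n49)

def n62 : Cl (O (nat_lit 5)) (R (nat_lit 104465))
    (p (nat_lit 0x2680d000002a8258c8d8b8b0a) (nat_lit 0) (p (nat_lit 0x100014) (nat_lit 0) (p (nat_lit 0x1fc014) (nat_lit 0) (p (nat_lit 0x1fc004) (nat_lit 0) (p (nat_lit 0xb000c) (nat_lit 1) (p (nat_lit 0x380c2) (nat_lit 1) (p (nat_lit 0x444aa) (nat_lit 7) (p (nat_lit 0x111) (nat_lit 0) (p (nat_lit 0xc9) (nat_lit 1) (p (nat_lit 0x81) (nat_lit 0) (p (nat_lit 0x101) (nat_lit 1) (p (nat_lit 0x119) (nat_lit 0) (p (nat_lit 0xd1) (nat_lit 0) (p (nat_lit 0x89) (nat_lit 0) (p (nat_lit 0x41) (nat_lit 0) (p (nat_lit 0x10a098b090a9a) (nat_lit 0) (p (nat_lit 0x9890a888a1a) (nat_lit 0) (p (nat_lit 0x109088a08079a) (nat_lit 0) (p (nat_lit 0x8880987871a) (nat_lit 0) (p (nat_lit 0x8000000000800080907088a) (nat_lit 0) (p (nat_lit 0x8000000000800078886860a)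 (nat_lit 0) (p (nat_lit 0x10688060782) (nat_lit 0) (p (nat_lit 0x607858702) (nat_lit 0) (p (nat_lit 0x10587050482) (nat_lit 0) (p (nat_lit 0x506848402) (nat_lit 0) (p (nat_lit 0x16000c) (nat_lit 0) (p (nat_lit 0x50612) (nat_lit 0) (p (nat_lit 0x40592) (nat_lit 0) (p (nat_lit 0x40492) (nat_lit 0) (p (nat_lit 0x30412) (nat_lit 0) (p (nat_lit 0x30212) (nat_lit 0) (p (nat_lit 0x20192) (nat_lit 0) (p (nat_lit 0x20092) (nat_lit 0) (p (nat_lit 0x10012) (nat_lit 0) pn)))))))))))))))))))))))))))))))))) :=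
  Cl.node (nat_lit 0x2680d000002a8258d0e0c0d8a) (nat_lit 1) (by decide +kernel) (ClAll.succ ClAll.zero n50)

def n63 : Cl (O (nat_lit 5)) (R (nat_lit 104465))
    (p (nat_lit 0x80004) (nat_lit 1) (p (nat_lit 0x100004) (nat_lit 0) (p (nat_lit 0x200004) (nat_lit 0) (p (nat_lit 0x100014) (nat_lit 0) (p (nat_lit 0x200014) (nat_lit 0) (p (nat_lit 0x380c2) (nat_lit 0) (p (nat_lit 0x3cc2a) (nat_lit 2) (p (nat_lit 0x111) (nat_lit 1) (p (nat_lit 0xc9) (nat_lit 1) (p (nat_lit 0x81) (nat_lit 0) (p (nat_lit 0x101) (nat_lit 1) (p (nat_lit 0x119) (nat_lit 0) (p (nat_lit 0xd1) (nat_lit 0) (p (nat_lit 0x89) (nat_lit 0) (p (nat_lit 0x41) (nat_lit 0) (p (nat_lit 0x10a098b090a9a) (nat_lit 0) (p (nat_lit 0x9890a888a1a) (nat_lit 0) (p (nat_lit 0x109088a08079a) (nat_lit 0) (p (nat_lit 0x8880987871a) (nat_lit 0) (p (nat_lit 0x8000000000800080907088a) (nat_lit 0) (p (nat_lit 0x8000000000800078886860a)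 (nat_lit 0) (p (nat_lit 0x10688060782) (nat_lit 0) (p (nat_lit 0x607858702) (nat_lit 0) (p (nat_lit 0x10587050482) (nat_lit 0) (p (nat_lit 0x506848402) (nat_lit 0) (p (nat_lit 0x16000c) (nat_lit 0) (p (nat_lit 0x50612) (nat_lit 0) (p (nat_lit 0x40592) (nat_lit 0) (p (nat_lit 0x40492) (nat_lit 0) (p (nat_lit 0x30412) (nat_lit 0) (p (nat_lit 0x30212) (nat_lit 0) (p (nat_lit 0x20192) (nat_lit 0) (p (nat_lit 0x20092) (nat_lit 0) (p (nat_lit 0x10012) (nat_lit 0) pn)))))))))))))))))))))))))))))))))) :=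
  Cl.node (nat_lit 0x13400c) (nat_lit 2) (by decide +kernel) (ClAll.succ (ClAll.succ ClAll.zero n51) s88)

def n64 : Cl (O (nat_lit 5)) (R (nat_lit 104465))
    (p (nat_lit 0x100014) (nat_lit 0) (p (nat_lit 0x10800c) (nat_lit 0) (p (nat_lit 0x1fc004) (nat_lit 0) (p (nat_lit 0xb000c) (nat_lit 1) (p (nat_lit 0x200014) (nat_lit 0) (p (nat_lit 0x101) (nat_lit 0) (p (nat_lit 0x380c2) (nat_lit 0) (p (nat_lit 0x3cc2a) (nat_lit 2) (p (nat_lit 0x109) (nat_lit 1) (p (nat_lit 0xc9) (nat_lit 1) (p (nat_lit 0xc1) (nat_lit 0) (p (nat_lit 0x119) (nat_lit 1) (p (nat_lit 0xd1) (nat_lit 0) (p (nat_lit 0x89) (nat_lit 0) (p (nat_lit 0x41) (nat_lit 0) (p (nat_lit 0x10a098b090a9a) (nat_lit 0) (p (nat_lit 0x9890a888a1a) (nat_lit 0) (p (nat_lit 0x109088a08079a) (nat_lit 0) (p (nat_lit 0x8880987871a) (nat_lit 0) (p (nat_lit 0x8000000000800080907088a) (nat_lit 0) (p (nat_lit 0x8000000000800078886860a)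 (nat_lit 0) (p (nat_lit 0x10688060782) (nat_lit 0) (p (nat_lit 0x607858702) (nat_lit 0) (p (nat_lit 0x10587050482) (nat_lit 0) (p (nat_lit 0x506848402) (nat_lit 0) (p (nat_lit 0x16000c) (nat_lit 0) (p (nat_lit 0x50612) (nat_lit 0) (p (nat_lit 0x40592) (nat_lit 0) (p (nat_lit 0x40492) (nat_lit 0) (p (nat_lit 0x30412) (nat_lit 0) (p (nat_lit 0x30212) (nat_lit 0) (p (nat_lit 0x20192) (nat_lit 0) (p (nat_lit 0x20092) (nat_lit 0) (p (nat_lit 0x10012) (nat_lit 0) pn)))))))))))))))))))))))))))))))))) :=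
  Cl.node (nat_lit 0x100004) (nat_lit 2) (by decide +kernel) (ClAll.succ (ClAll.succ ClAll.zero n52) s138)

def n65 : Cl (O (nat_lit 5)) (R (nat_lit 104465))
    (p (nat_lit 0xb000c) (nat_lit 0) (p (nat_lit 0x100004) (nat_lit 0) (p (nat_lit 0x200004) (nat_lit 0) (p (nat_lit 0x100014) (nat_lit 0) (p (nat_lit 0x200014) (nat_lit 0) (p (nat_lit 0xc9) (nat_lit 1) (p (nat_lit 0x380c2) (nat_lit 0) (p (nat_lit 0x3cc2a) (nat_lit 2) (p (nat_lit 0x109) (nat_lit 1) (p (nat_lit 0x81) (nat_lit 0) (p (nat_lit 0xc1) (nat_lit 1) (p (nat_lit 0x119) (nat_lit 1) (p (nat_lit 0xd1) (nat_lit 0) (p (nat_lit 0x89) (nat_lit 0) (p (nat_lit 0x41) (nat_lit 0) (p (nat_lit 0x10a098b090a9a) (nat_lit 0) (p (nat_lit 0x9890a888a1a) (nat_lit 0) (p (nat_lit 0x109088a08079a) (nat_lit 0) (p (nat_lit 0x8880987871a) (nat_lit 0) (p (nat_lit 0x8000000000800080907088a) (nat_lit 0) (p (nat_lit 0x8000000000800078886860a)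 (nat_lit 0) (p (nat_lit 0x10688060782) (nat_lit 0) (p (nat_lit 0x607858702) (nat_lit 0) (p (nat_lit 0x10587050482) (nat_lit 0) (p (nat_lit 0x506848402) (nat_lit 0) (p (nat_lit 0x16000c) (nat_lit 0) (p (nat_lit 0x50612) (nat_lit 0) (p (nat_lit 0x40592) (nat_lit 0) (p (nat_lit 0x40492) (nat_lit 0) (p (nat_lit 0x30412) (nat_lit 0) (p (nat_lit 0x30212) (nat_lit 0) (p (nat_lit 0x20192) (nat_lit 0) (p (nat_lit 0x20092) (nat_lit 0) (p (nat_lit 0x10012) (nat_lit 0) pn)))))))))))))))))))))))))))))))))) :=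
  Cl.node (nat_lit 0x5800c) (nat_lit 2) (by decide +kernel) (ClAll.succ (ClAll.succ ClAll.zero s162) s163)

def n66 : Cl (O (nat_lit 5)) (R (nat_lit 104465))
    (p (nat_lit 0xb000c) (nat_lit 1) (p (nat_lit 0x100004) (nat_lit 0) (p (nat_lit 0x200004) (nat_lit 0) (p (nat_lit 0x100014) (nat_lit 0) (p (nat_lit 0x200014) (nat_lit 0) (p (nat_lit 0xc9) (nat_lit 1) (p (nat_lit 0x380c2) (nat_lit 0) (p (nat_lit 0x3cc2a) (nat_lit 2) (p (nat_lit 0x109) (nat_lit 1) (p (nat_lit 0x81) (nat_lit 0) (p (nat_lit 0xc1) (nat_lit 1) (p (nat_lit 0x119) (nat_lit 1) (p (nat_lit 0xd1) (nat_lit 0) (p (nat_lit 0x89) (nat_lit 0) (p (nat_lit 0x41) (nat_lit 0) (p (nat_lit 0x10a098b090a9a) (nat_lit 0) (p (nat_lit 0x9890a888a1a) (nat_lit 0) (p (nat_lit 0x109088a08079a) (nat_lit 0) (p (nat_lit 0x8880987871a) (nat_lit 0) (p (nat_lit 0x8000000000800080907088a) (nat_lit 0) (p (nat_lit 0x8000000000800078886860a)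 (nat_lit 0) (p (nat_lit 0x10688060782) (nat_lit 0) (p (nat_lit 0x607858702) (nat_lit 0) (p (nat_lit 0x10587050482) (nat_lit 0) (p (nat_lit 0x506848402) (nat_lit 0) (p (nat_lit 0x16000c) (nat_lit 0) (p (nat_lit 0x50612) (nat_lit 0) (p (nat_lit 0x40592) (nat_lit 0) (p (nat_lit 0x40492) (nat_lit 0) (p (nat_lit 0x30412) (nat_lit 0) (p (nat_lit 0x30212) (nat_lit 0) (p (nat_lit 0x20192) (nat_lit 0) (p (nat_lit 0x20092) (nat_lit 0) (p (nat_lit 0x10012) (nat_lit 0) pn)))))))))))))))))))))))))))))))))) :=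
  Cl.node (nat_lit 0x2680d000002680d0c8d8b8b0a) (nat_lit 1) (by decide +kernel) (ClAll.succ ClAll.zero n53)

def n67 : Cl (O (nat_lit 5)) (R (nat_lit 104465))
    (p (nat_lit 0x100014) (nat_lit 0) (p (nat_lit 0x119) (nat_lit 1) (p (nat_lit 0x1fc014) (nat_lit 0) (p (nat_lit 0x1fc004) (nat_lit 0) (p (nat_lit 0xb000c) (nat_lit 1) (p (nat_lit 0x380c2) (nat_lit 1) (p (nat_lit 0x444aa) (nat_lit 7) (p (nat_lit 0x119) (nat_lit 0) (p (nat_lit 0xc1) (nat_lit 0) (p (nat_lit 0x81) (nat_lit 1) (p (nat_lit 0x101) (nat_lit 1) (p (nat_lit 0x111) (nat_lit 0) (p (nat_lit 0xd1) (nat_lit 1) (p (nat_lit 0x89) (nat_lit 0) (p (nat_lit 0x41) (nat_lit 0) (p (nat_lit 0x10a098b090a9a) (nat_lit 0) (p (nat_lit 0x9890a888a1a) (nat_lit 0) (p (nat_lit 0x109088a08079a) (nat_lit 0) (p (nat_lit 0x8880987871a) (nat_lit 0) (p (nat_lit 0x8000000000800080907088a) (nat_lit 0) (p (nat_lit 0x8000000000800078886860a) (nat_lit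 0) (p (nat_lit 0x10688060782) (nat_lit 0) (p (nat_lit 0x607858702) (nat_lit 0) (p (nat_lit 0x10587050482) (nat_lit 0) (p (nat_lit 0x506848402) (nat_lit 0) (p (nat_lit 0x16000c) (nat_lit 0) (p (nat_lit 0x50612) (nat_lit 0) (p (nat_lit 0x40592) (nat_lit 0) (p (nat_lit 0x40492) (nat_lit 0) (p (nat_lit 0x30412) (nat_lit 0) (p (nat_lit 0x30212) (nat_lit 0) (p (nat_lit 0x20192) (nat_lit 0) (p (nat_lit 0x20092) (nat_lit 0) (p (nat_lit 0x10012) (nat_lit 0) pn)))))))))))))))))))))))))))))))))) :=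
  Cl.node (nat_lit 0x2680d000002a8258c8d8b8b0a) (nat_lit 1) (by decide +kernel) (ClAll.succ ClAll.zero n54)

def n68 : Cl (O (nat_lit 5)) (R (nat_lit 104465))
    (p (nat_lit 0x109) (nat_lit 1) (p (nat_lit 0xc1) (nat_lit 0) (p (nat_lit 0x100004) (nat_lit 0) (p (nat_lit 0x200004) (nat_lit 0) (p (nat_lit 0xb000c) (nat_lit 0) (p (nat_lit 0x380c2) (nat_lit 0) (p (nat_lit 0x444aa) (nat_lit 7) (p (nat_lit 0xd1) (nat_lit 1) (p (nat_lit 0x111) (nat_lit 1) (p (nat_lit 0x109) (nat_lit 0) (p (nat_lit 0x101) (nat_lit 0) (p (nat_lit 0x119) (nat_lit 0) (p (nat_lit 0xc9) (nat_lit 0) (p (nat_lit 0x89) (nat_lit 1) (p (nat_lit 0x41) (nat_lit 0) (p (nat_lit 0x10a098b090a9a) (nat_lit 0) (p (nat_lit 0x9890a888a1a) (nat_lit 0) (p (nat_lit 0x109088a08079a) (nat_lit 0) (p (nat_lit 0x8880987871a) (nat_lit 0) (p (nat_lit 0x8000000000800080907088a) (nat_lit 0) (p (nat_lit 0x8000000000800078886860a) (nat_lit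 0) (p (nat_lit 0x10688060782) (nat_lit 0) (p (nat_lit 0x607858702) (nat_lit 0) (p (nat_lit 0x10587050482) (nat_lit 0) (p (nat_lit 0x506848402) (nat_lit 0) (p (nat_lit 0x16000c) (nat_lit 0) (p (nat_lit 0x50612) (nat_lit 0) (p (nat_lit 0x40592) (nat_lit 0) (p (nat_lit 0x40492) (nat_lit 0) (p (nat_lit 0x30412) (nat_lit 0) (p (nat_lit 0x30212) (nat_lit 0) (p (nat_lit 0x20192) (nat_lit 0) (p (nat_lit 0x20092) (nat_lit 0) (p (nat_lit 0x10012) (nat_lit 0) pn)))))))))))))))))))))))))))))))))) :=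
  Cl.node (nat_lit 0x119) (nat_lit 2) (by decide +kernel) (ClAll.succ (ClAll.succ ClAll.zero s378) s379)

def n69 : Cl (O (nat_lit 5)) (R (nat_lit 104465))
    (p (nat_lit 0x2a825800002680d0c8d8b8b0a) (nat_lit 0) (p (nat_lit 0x100004) (nat_lit 0) (p (nat_lit 0x1fc014) (nat_lit 0) (p (nat_lit 0x1fc004) (nat_lit 0) (p (nat_lit 0xb000c) (nat_lit 1) (p (nat_lit 0x380c2) (nat_lit 0) (p (nat_lit 0x444aa) (nat_lit 7) (p (nat_lit 0xd1) (nat_lit 1) (p (nat_lit 0x111) (nat_lit 1) (p (nat_lit 0x109) (nat_lit 0) (p (nat_lit 0x101) (nat_lit 0) (p (nat_lit 0x119) (nat_lit 0) (p (nat_lit 0xc9) (nat_lit 0) (p (nat_lit 0x89) (nat_lit 1) (p (nat_lit 0x41) (nat_lit 0) (p (nat_lit 0x10a098b090a9a) (nat_lit 0) (p (nat_lit 0x9890a888a1a) (nat_lit 0) (p (nat_lit 0x109088a08079a) (nat_lit 0) (p (nat_lit 0x8880987871a) (nat_lit 0) (p (nat_lit 0x8000000000800080907088a) (nat_lit 0) (p (nat_lit 0x8000000000800078886860a)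 (nat_lit 0) (p (nat_lit 0x10688060782) (nat_lit 0) (p (nat_lit 0x607858702) (nat_lit 0) (p (nat_lit 0x10587050482) (nat_lit 0) (p (nat_lit 0x506848402) (nat_lit 0) (p (nat_lit 0x16000c) (nat_lit 0) (p (nat_lit 0x50612) (nat_lit 0) (p (nat_lit 0x40592) (nat_lit 0) (p (nat_lit 0x40492) (nat_lit 0) (p (nat_lit 0x30412) (nat_lit 0) (p (nat_lit 0x30212) (nat_lit 0) (p (nat_lit 0x20192) (nat_lit 0) (p (nat_lit 0x20092) (nat_lit 0) (p (nat_lit 0x10012) (nat_lit 0) pn)))))))))))))))))))))))))))))))))) :=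
  Cl.node (nat_lit 0x2a825800002680d0d0e0c0d8a) (nat_lit 1) (by decide +kernel) (ClAll.succ ClAll.zero n55)

def n70 : Cl (O (nat_lit 5)) (R (nat_lit 104465))
    (p (nat_lit 0x100014) (nat_lit 0) (p (nat_lit 0x100004) (nat_lit 0) (p (nat_lit 0x1fc014) (nat_lit 0) (p (nat_lit 0x1fc004) (nat_lit 0) (p (nat_lit 0xb000c) (nat_lit 1) (p (nat_lit 0x380c2) (nat_lit 1) (p (nat_lit 0x444aa) (nat_lit 7) (p (nat_lit 0xd1) (nat_lit 1) (p (nat_lit 0x111) (nat_lit 1) (p (nat_lit 0x109) (nat_lit 0) (p (nat_lit 0x101) (nat_lit 0) (p (nat_lit 0x119) (nat_lit 0) (p (nat_lit 0xc9) (nat_lit 0) (p (nat_lit 0x89) (nat_lit 1) (p (nat_lit 0x41) (nat_lit 0) (p (nat_lit 0x10a098b090a9a) (nat_lit 0) (p (nat_lit 0x9890a888a1a) (nat_lit 0) (p (nat_lit 0x109088a08079a) (nat_lit 0) (p (nat_lit 0x8880987871a) (nat_lit 0) (p (nat_lit 0x8000000000800080907088a) (nat_lit 0) (p (nat_lit 0x8000000000800078886860a)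 (nat_lit 0) (p (nat_lit 0x10688060782) (nat_lit 0) (p (nat_lit 0x607858702) (nat_lit 0) (p (nat_lit 0x10587050482) (nat_lit 0) (p (nat_lit 0x506848402) (nat_lit 0) (p (nat_lit 0x16000c) (nat_lit 0) (p (nat_lit 0x50612) (nat_lit 0) (p (nat_lit 0x40592) (nat_lit 0) (p (nat_lit 0x40492) (nat_lit 0) (p (nat_lit 0x30412) (nat_lit 0) (p (nat_lit 0x30212) (nat_lit 0) (p (nat_lit 0x20192) (nat_lit 0) (p (nat_lit 0x20092) (nat_lit 0) (p (nat_lit 0x10012) (nat_lit 0) pn)))))))))))))))))))))))))))))))))) :=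
  Cl.node (nat_lit 0x80014) (nat_lit 2) (by decide +kernel) (ClAll.succ (ClAll.succ ClAll.zero s396) n56)

def n71 : Cl (O (nat_lit 5)) (R (nat_lit 104465))
    (p (nat_lit 0x81) (nat_lit 0) (p (nat_lit 0x100014) (nat_lit 0) (p (nat_lit 0x1fc014) (nat_lit 0) (p (nat_lit 0x1fc004) (nat_lit 0) (p (nat_lit 0xb000c) (nat_lit 1) (p (nat_lit 0x380c2) (nat_lit 1) (p (nat_lit 0x4c42a) (nat_lit 10) (p (nat_lit 0xc9) (nat_lit 0) (p (nat_lit 0x89) (nat_lit 1) (p (nat_lit 0x109) (nat_lit 1) (p (nat_lit 0x101) (nat_lit 0) (p (nat_lit 0x119) (nat_lit 0) (p (nat_lit 0xd1) (nat_lit 0) (p (nat_lit 0x81) (nat_lit 0) (p (nat_lit 0x41) (nat_lit 1) (p (nat_lit 0x10a098b090a9a) (nat_lit 0) (p (nat_lit 0x9890a888a1a) (nat_lit 0) (p (nat_lit 0x109088a08079a) (nat_lit 0) (p (nat_lit 0x8880987871a) (nat_lit 0) (p (nat_lit 0x8000000000800080907088a) (nat_lit 0) (p (nat_lit 0x8000000000800078886860a) (nat_lit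 0) (p (nat_lit 0x10688060782) (nat_lit 0) (p (nat_lit 0x607858702) (nat_lit 0) (p (nat_lit 0x10587050482) (nat_lit 0) (p (nat_lit 0x506848402) (nat_lit 0) (p (nat_lit 0x16000c) (nat_lit 0) (p (nat_lit 0x50612) (nat_lit 0) (p (nat_lit 0x40592) (nat_lit 0) (p (nat_lit 0x40492) (nat_lit 0) (p (nat_lit 0x30412) (nat_lit 0) (p (nat_lit 0x30212) (nat_lit 0) (p (nat_lit 0x20192) (nat_lit 0) (p (nat_lit 0x20092) (nat_lit 0) (p (nat_lit 0x10012) (nat_lit 0) pn)))))))))))))))))))))))))))))))))) :=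
  Cl.node (nat_lit 0x111) (nat_lit 2) (by decide +kernel) (ClAll.succ (ClAll.succ ClAll.zero s617) n57)

def n72 : Cl (O (nat_lit 5)) (R (nat_lit 104465))
    (p (nat_lit 0x100014) (nat_lit 0) (p (nat_lit 0x100004) (nat_lit 0) (p (nat_lit 0x200004) (nat_lit 0) (p (nat_lit 0x200014) (nat_lit 0) (p (nat_lit 0x380c2) (nat_lit 0) (p (nat_lit 0x4c42a) (nat_lit 10) (p (nat_lit 0x119) (nat_lit 1) (p (nat_lit 0xc9) (nat_lit 0) (p (nat_lit 0x89) (nat_lit 1) (p (nat_lit 0x109) (nat_lit 1) (p (nat_lit 0x101) (nat_lit 0) (p (nat_lit 0x111) (nat_lit 0) (p (nat_lit 0xd1) (nat_lit 1) (p (nat_lit 0x81) (nat_lit 0) (p (nat_lit 0x41) (nat_lit 1) (p (nat_lit 0x10a098b090a9a) (nat_lit 0) (p (nat_lit 0x9890a888a1a) (nat_lit 0) (p (nat_lit 0x109088a08079a) (nat_lit 0) (p (nat_lit 0x8880987871a) (nat_lit 0) (p (nat_lit 0x8000000000800080907088a) (nat_lit 0) (p (nat_lit 0x8000000000800078886860a) (nat_lit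 0) (p (nat_lit 0x10688060782) (nat_lit 0) (p (nat_lit 0x607858702) (nat_lit 0) (p (nat_lit 0x10587050482) (nat_lit 0) (p (nat_lit 0x506848402) (nat_lit 0) (p (nat_lit 0x16000c) (nat_lit 0) (p (nat_lit 0x50612) (nat_lit 0) (p (nat_lit 0x40592) (nat_lit 0) (p (nat_lit 0x40492) (nat_lit 0) (p (nat_lit 0x30412) (nat_lit 0) (p (nat_lit 0x30212) (nat_lit 0) (p (nat_lit 0x20192) (nat_lit 0) (p (nat_lit 0x20092) (nat_lit 0) (p (nat_lit 0x10012) (nat_lit 0) pn)))))))))))))))))))))))))))))))))) :=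
  Cl.node (nat_lit 0x41) (nat_lit 2) (by decide +kernel) (ClAll.succ (ClAll.succ ClAll.zero n58) s811)

def n73 : Cl (O (nat_lit 5)) (R (nat_lit 104465))
    (p (nat_lit 0x200014) (nat_lit 0) (p (nat_lit 0x380c2) (nat_lit 0) (p (nat_lit 0x3cc2a) (nat_lit 2) (p (nat_lit 0xb000c) (nat_lit 0) (p (nat_lit 0x380c2) (nat_lit 1) (p (nat_lit 0x4c42a) (nat_lit 10) (p (nat_lit 0x119) (nat_lit 1) (p (nat_lit 0xc9) (nat_lit 0) (p (nat_lit 0x89) (nat_lit 1) (p (nat_lit 0x109) (nat_lit 1) (p (nat_lit 0x101) (nat_lit 0) (p (nat_lit 0x111) (nat_lit 0) (p (nat_lit 0xd1) (nat_lit 1) (p (nat_lit 0x81) (nat_lit 0) (p (nat_lit 0x41) (nat_lit 1) (p (nat_lit 0x10a098b090a9a) (nat_lit 0) (p (nat_lit 0x9890a888a1a) (nat_lit 0) (p (nat_lit 0x109088a08079a) (nat_lit 0) (p (nat_lit 0x8880987871a) (nat_lit 0) (p (nat_lit 0x8000000000800080907088a) (nat_lit 0) (p (nat_lit 0x8000000000800078886860a) (nat_lit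 0) (p (nat_lit 0x10688060782) (nat_lit 0) (p (nat_lit 0x607858702) (nat_lit 0) (p (nat_lit 0x10587050482) (nat_lit 0) (p (nat_lit 0x506848402) (nat_lit 0) (p (nat_lit 0x16000c) (nat_lit 0) (p (nat_lit 0x50612) (nat_lit 0) (p (nat_lit 0x40592) (nat_lit 0) (p (nat_lit 0x40492) (nat_lit 0) (p (nat_lit 0x30412) (nat_lit 0) (p (nat_lit 0x30212) (nat_lit 0) (p (nat_lit 0x20192) (nat_lit 0) (p (nat_lit 0x20092) (nat_lit 0) (p (nat_lit 0x10012) (nat_lit 0) pn)))))))))))))))))))))))))))))))))) :=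
  Cl.node (nat_lit 0x200004) (nat_lit 2) (by decide +kernel) (ClAll.succ (ClAll.succ ClAll.zero n59) s820)

def n74 : Cl (O (nat_lit 5)) (R (nat_lit 104465))
    (p (nat_lit 0x100014) (nat_lit 0) (p (nat_lit 0x1fc014) (nat_lit 0) (p (nat_lit 0x1fc004) (nat_lit 0) (p (nat_lit 0xb000c) (nat_lit 1) (p (nat_lit 0x380c2) (nat_lit 1) (p (nat_lit 0x4c42a) (nat_lit 10) (p (nat_lit 0x119) (nat_lit 1) (p (nat_lit 0xc9) (nat_lit 0) (p (nat_lit 0x89) (nat_lit 1) (p (nat_lit 0x109) (nat_lit 1) (p (nat_lit 0x101) (nat_lit 0) (p (nat_lit 0x111) (nat_lit 0) (p (nat_lit 0xd1) (nat_lit 1) (p (nat_lit 0x81) (nat_lit 0) (p (nat_lit 0x41) (nat_lit 1) (p (nat_lit 0x10a098b090a9a) (nat_lit 0) (p (nat_lit 0x9890a888a1a) (nat_lit 0) (p (nat_lit 0x109088a08079a) (nat_lit 0) (p (nat_lit 0x8880987871a) (nat_lit 0) (p (nat_lit 0x8000000000800080907088a) (nat_lit 0) (p (nat_lit 0x8000000000800078886860a) (nat_lit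 0) (p (nat_lit 0x10688060782) (nat_lit 0) (p (nat_lit 0x607858702) (nat_lit 0) (p (nat_lit 0x10587050482) (nat_lit 0) (p (nat_lit 0x506848402) (nat_lit 0) (p (nat_lit 0x16000c) (nat_lit 0) (p (nat_lit 0x50612) (nat_lit 0) (p (nat_lit 0x40592) (nat_lit 0) (p (nat_lit 0x40492) (nat_lit 0) (p (nat_lit 0x30412) (nat_lit 0) (p (nat_lit 0x30212) (nat_lit 0) (p (nat_lit 0x20192) (nat_lit 0) (p (nat_lit 0x20092) (nat_lit 0) (p (nat_lit 0x10012) (nat_lit 0) pn)))))))))))))))))))))))))))))))))) :=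
  Cl.node (nat_lit 0x100004) (nat_lit 2) (by decide +kernel) (ClAll.succ (ClAll.succ ClAll.zero n60) s834)

def n75 : Cl (O (nat_lit 5)) (R (nat_lit 104465))
    (p (nat_lit 0x100004) (nat_lit 0) (p (nat_lit 0x1fc014) (nat_lit 0) (p (nat_lit 0x1fc004) (nat_lit 0) (p (nat_lit 0xb000c) (nat_lit 1) (p (nat_lit 0x380c2) (nat_lit 0) (p (nat_lit 0x444aa) (nat_lit 7) (p (nat_lit 0x81) (nat_lit 1) (p (nat_lit 0xc9) (nat_lit 1) (p (nat_lit 0x109) (nat_lit 1) (p (nat_lit 0x101) (nat_lit 0) (p (nat_lit 0x119) (nat_lit 0) (p (nat_lit 0xd1) (nat_lit 0) (p (nat_lit 0x89) (nat_lit 0) (p (nat_lit 0x41) (nat_lit 0) (p (nat_lit 0x10a098b090a9a) (nat_lit 0) (p (nat_lit 0x9890a888a1a) (nat_lit 0) (p (nat_lit 0x109088a08079a) (nat_lit 0) (p (nat_lit 0x8880987871a) (nat_lit 0) (p (nat_lit 0x8000000000800080907088a) (nat_lit 0) (p (nat_lit 0x8000000000800078886860a) (nat_lit 0) (p (nat_lit 0x10688060782)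 (nat_lit 0) (p (nat_lit 0x607858702) (nat_lit 0) (p (nat_lit 0x10587050482) (nat_lit 0) (p (nat_lit 0x506848402) (nat_lit 0) (p (nat_lit 0x16000c) (nat_lit 0) (p (nat_lit 0x50612) (nat_lit 0) (p (nat_lit 0x40592) (nat_lit 0) (p (nat_lit 0x40492) (nat_lit 0) (p (nat_lit 0x30412) (nat_lit 0) (p (nat_lit 0x30212) (nat_lit 0) (p (nat_lit 0x20192) (nat_lit 0) (p (nat_lit 0x20092) (nat_lit 0) (p (nat_lit 0x10012) (nat_lit 0) pn))))))))))))))))))))))))))))))))) :=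
  Cl.node (nat_lit 0x81) (nat_lit 2) (by decide +kernel) (ClAll.succ (ClAll.succ ClAll.zero s22) s23)

def n76 : Cl (O (nat_lit 5)) (R (nat_lit 104465))
    (p (nat_lit 0x100004) (nat_lit 0) (p (nat_lit 0x1fc014) (nat_lit 0) (p (nat_lit 0x1fc004) (nat_lit 0) (p (nat_lit 0xb000c) (nat_lit 1) (p (nat_lit 0x380c2) (nat_lit 0) (p (nat_lit 0x444aa) (nat_lit 7) (p (nat_lit 0x111) (nat_lit 0) (p (nat_lit 0xc9) (nat_lit 1) (p (nat_lit 0x81) (nat_lit 0) (p (nat_lit 0x101) (nat_lit 1) (p (nat_lit 0x119) (nat_lit 0) (p (nat_lit 0xd1) (nat_lit 0) (p (nat_lit 0x89) (nat_lit 0) (p (nat_lit 0x41) (nat_lit 0) (p (nat_lit 0x10a098b090a9a) (nat_lit 0) (p (nat_lit 0x9890a888a1a) (nat_lit 0) (p (nat_lit 0x109088a08079a) (nat_lit 0) (p (nat_lit 0x8880987871a) (nat_lit 0) (p (nat_lit 0x8000000000800080907088a) (nat_lit 0) (p (nat_lit 0x8000000000800078886860a) (nat_lit 0) (p (nat_lit 0x10688060782)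 (nat_lit 0) (p (nat_lit 0x607858702) (nat_lit 0) (p (nat_lit 0x10587050482) (nat_lit 0) (p (nat_lit 0x506848402) (nat_lit 0) (p (nat_lit 0x16000c) (nat_lit 0) (p (nat_lit 0x50612) (nat_lit 0) (p (nat_lit 0x40592) (nat_lit 0) (p (nat_lit 0x40492) (nat_lit 0) (p (nat_lit 0x30412) (nat_lit 0) (p (nat_lit 0x30212) (nat_lit 0) (p (nat_lit 0x20192) (nat_lit 0) (p (nat_lit 0x20092) (nat_lit 0) (p (nat_lit 0x10012) (nat_lit 0) pn))))))))))))))))))))))))))))))))) :=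
  Cl.node (nat_lit 0x2a825800002680d0c8d8b8b0a) (nat_lit 1) (by decide +kernel) (ClAll.succ ClAll.zero n61)

def n77 : Cl (O (nat_lit 5)) (R (nat_lit 104465))
    (p (nat_lit 0x100014) (nat_lit 0) (p (nat_lit 0x1fc014) (nat_lit 0) (p (nat_lit 0x1fc004) (nat_lit 0) (p (nat_lit 0xb000c) (nat_lit 1) (p (nat_lit 0x380c2) (nat_lit 1) (p (nat_lit 0x444aa) (nat_lit 7) (p (nat_lit 0x111) (nat_lit 0) (p (nat_lit 0xc9) (nat_lit 1) (p (nat_lit 0x81) (nat_lit 0) (p (nat_lit 0x101) (nat_lit 1) (p (nat_lit 0x119) (nat_lit 0) (p (nat_lit 0xd1) (nat_lit 0) (p (nat_lit 0x89) (nat_lit 0) (p (nat_lit 0x41) (nat_lit 0) (p (nat_lit 0x10a098b090a9a) (nat_lit 0) (p (nat_lit 0x9890a888a1a) (nat_lit 0) (p (nat_lit 0x109088a08079a) (nat_lit 0) (p (nat_lit 0x8880987871a) (nat_lit 0) (p (nat_lit 0x8000000000800080907088a) (nat_lit 0) (p (nat_lit 0x8000000000800078886860a) (nat_lit 0) (p (nat_lit 0x10688060782)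 (nat_lit 0) (p (nat_lit 0x607858702) (nat_lit 0) (p (nat_lit 0x10587050482) (nat_lit 0) (p (nat_lit 0x506848402) (nat_lit 0) (p (nat_lit 0x16000c) (nat_lit 0) (p (nat_lit 0x50612) (nat_lit 0) (p (nat_lit 0x40592) (nat_lit 0) (p (nat_lit 0x40492) (nat_lit 0) (p (nat_lit 0x30412) (nat_lit 0) (p (nat_lit 0x30212) (nat_lit 0) (p (nat_lit 0x20192) (nat_lit 0) (p (nat_lit 0x20092) (nat_lit 0) (p (nat_lit 0x10012) (nat_lit 0) pn))))))))))))))))))))))))))))))))) :=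
  Cl.node (nat_lit 0x2680d000002a8258c8d8b8b0a) (nat_lit 1) (by decide +kernel) (ClAll.succ ClAll.zero n62)

def n78 : Cl (O (nat_lit 5)) (R (nat_lit 104465))
    (p (nat_lit 0x100004) (nat_lit 0) (p (nat_lit 0x200004) (nat_lit 0) (p (nat_lit 0x100014) (nat_lit 0) (p (nat_lit 0x200014) (nat_lit 0) (p (nat_lit 0x380c2) (nat_lit 0) (p (nat_lit 0x3cc2a) (nat_lit 2) (p (nat_lit 0x111) (nat_lit 1) (p (nat_lit 0xc9) (nat_lit 1) (p (nat_lit 0x81) (nat_lit 0) (p (nat_lit 0x101) (nat_lit 1) (p (nat_lit 0x119) (nat_lit 0) (p (nat_lit 0xd1) (nat_lit 0) (p (nat_lit 0x89) (nat_lit 0) (p (nat_lit 0x41) (nat_lit 0) (p (nat_lit 0x10a098b090a9a) (nat_lit 0) (p (nat_lit 0x9890a888a1a) (nat_lit 0) (p (nat_lit 0x109088a08079a) (nat_lit 0) (p (nat_lit 0x8880987871a) (nat_lit 0) (p (nat_lit 0x8000000000800080907088a) (nat_lit 0) (p (nat_lit 0x8000000000800078886860a) (nat_lit 0) (p (nat_lit 0x10688060782)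 (nat_lit 0) (p (nat_lit 0x607858702) (nat_lit 0) (p (nat_lit 0x10587050482) (nat_lit 0) (p (nat_lit 0x506848402) (nat_lit 0) (p (nat_lit 0x16000c) (nat_lit 0) (p (nat_lit 0x50612) (nat_lit 0) (p (nat_lit 0x40592) (nat_lit 0) (p (nat_lit 0x40492) (nat_lit 0) (p (nat_lit 0x30412) (nat_lit 0) (p (nat_lit 0x30212) (nat_lit 0) (p (nat_lit 0x20192) (nat_lit 0) (p (nat_lit 0x20092) (nat_lit 0) (p (nat_lit 0x10012) (nat_lit 0) pn))))))))))))))))))))))))))))))))) :=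
  Cl.node (nat_lit 0x80004) (nat_lit 2) (by decide +kernel) (ClAll.succ (ClAll.succ ClAll.zero s85) n63)

def n79 : Cl (O (nat_lit 5)) (R (nat_lit 104465))
    (p (nat_lit 0x10800c) (nat_lit 0) (p (nat_lit 0x1fc004) (nat_lit 0) (p (nat_lit 0xb000c) (nat_lit 1) (p (nat_lit 0x200014) (nat_lit 0) (p (nat_lit 0x101) (nat_lit 0) (p (nat_lit 0x380c2) (nat_lit 0) (p (nat_lit 0x3cc2a) (nat_lit 2) (p (nat_lit 0x109) (nat_lit 1) (p (nat_lit 0xc9) (nat_lit 1) (p (nat_lit 0xc1) (nat_lit 0) (p (nat_lit 0x119) (nat_lit 1) (p (nat_lit 0xd1) (nat_lit 0) (p (nat_lit 0x89) (nat_lit 0) (p (nat_lit 0x41) (nat_lit 0) (p (nat_lit 0x10a098b090a9a) (nat_lit 0) (p (nat_lit 0x9890a888a1a) (nat_lit 0) (p (nat_lit 0x109088a08079a) (nat_lit 0) (p (nat_lit 0x8880987871a) (nat_lit 0) (p (nat_lit 0x8000000000800080907088a) (nat_lit 0) (p (nat_lit 0x8000000000800078886860a) (nat_lit 0) (p (nat_lit 0x10688060782)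 (nat_lit 0) (p (nat_lit 0x607858702) (nat_lit 0) (p (nat_lit 0x10587050482) (nat_lit 0) (p (nat_lit 0x506848402) (nat_lit 0) (p (nat_lit 0x16000c) (nat_lit 0) (p (nat_lit 0x50612) (nat_lit 0) (p (nat_lit 0x40592) (nat_lit 0) (p (nat_lit 0x40492) (nat_lit 0) (p (nat_lit 0x30412) (nat_lit 0) (p (nat_lit 0x30212) (nat_lit 0) (p (nat_lit 0x20192) (nat_lit 0) (p (nat_lit 0x20092) (nat_lit 0) (p (nat_lit 0x10012) (nat_lit 0) pn))))))))))))))))))))))))))))))))) :=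
  Cl.node (nat_lit 0x100014) (nat_lit 2) (by decide +kernel) (ClAll.succ (ClAll.succ ClAll.zero n64) s139)

def n80 : Cl (O (nat_lit 5)) (R (nat_lit 104465))
    (p (nat_lit 0x1fc004) (nat_lit 0) (p (nat_lit 0xb000c) (nat_lit 1) (p (nat_lit 0x200014) (nat_lit 0) (p (nat_lit 0x41) (nat_lit 0) (p (nat_lit 0x101) (nat_lit 1) (p (nat_lit 0x380c2) (nat_lit 0) (p (nat_lit 0x3cc2a) (nat_lit 2) (p (nat_lit 0x109) (nat_lit 1) (p (nat_lit 0xc9) (nat_lit 1) (p (nat_lit 0xc1) (nat_lit 0) (p (nat_lit 0x119) (nat_lit 1) (p (nat_lit 0xd1) (nat_lit 0) (p (nat_lit 0x89) (nat_lit 0) (p (nat_lit 0x41) (nat_lit 0) (p (nat_lit 0x10a098b090a9a) (nat_lit 0) (p (nat_lit 0x9890a888a1a) (nat_lit 0) (p (nat_lit 0x109088a08079a) (nat_lit 0) (p (nat_lit 0x8880987871a) (nat_lit 0) (p (nat_lit 0x8000000000800080907088a) (nat_lit 0) (p (nat_lit 0x8000000000800078886860a) (nat_lit 0) (p (nat_lit 0x10688060782)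 (nat_lit 0) (p (nat_lit 0x607858702) (nat_lit 0) (p (nat_lit 0x10587050482) (nat_lit 0) (p (nat_lit 0x506848402) (nat_lit 0) (p (nat_lit 0x16000c) (nat_lit 0) (p (nat_lit 0x50612) (nat_lit 0) (p (nat_lit 0x40592) (nat_lit 0) (p (nat_lit 0x40492) (nat_lit 0) (p (nat_lit 0x30412) (nat_lit 0) (p (nat_lit 0x30212) (nat_lit 0) (p (nat_lit 0x20192) (nat_lit 0) (p (nat_lit 0x20092) (nat_lit 0) (p (nat_lit 0x10012) (nat_lit 0) pn))))))))))))))))))))))))))))))))) :=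
  Cl.node (nat_lit 0x10800c) (nat_lit 2) (by decide +kernel) (ClAll.succ (ClAll.succ ClAll.zero s144) s145)

def n81 : Cl (O (nat_lit 5)) (R (nat_lit 104465))
    (p (nat_lit 0x100004) (nat_lit 0) (p (nat_lit 0x200004) (nat_lit 0) (p (nat_lit 0x100014) (nat_lit 0) (p (nat_lit 0x200014) (nat_lit 0) (p (nat_lit 0xc9) (nat_lit 1) (p (nat_lit 0x380c2) (nat_lit 0) (p (nat_lit 0x3cc2a) (nat_lit 2) (p (nat_lit 0x109) (nat_lit 1) (p (nat_lit 0x81) (nat_lit 0) (p (nat_lit 0xc1) (nat_lit 1) (p (nat_lit 0x119) (nat_lit 1) (p (nat_lit 0xd1) (nat_lit 0) (p (nat_lit 0x89) (nat_lit 0) (p (nat_lit 0x41) (nat_lit 0) (p (nat_lit 0x10a098b090a9a) (nat_lit 0) (p (nat_lit 0x9890a888a1a) (nat_lit 0) (p (nat_lit 0x109088a08079a) (nat_lit 0) (p (nat_lit 0x8880987871a) (nat_lit 0) (p (nat_lit 0x8000000000800080907088a) (nat_lit 0) (p (nat_lit 0x8000000000800078886860a) (nat_lit 0) (p (nat_lit 0x10688060782)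 (nat_lit 0) (p (nat_lit 0x607858702) (nat_lit 0) (p (nat_lit 0x10587050482) (nat_lit 0) (p (nat_lit 0x506848402) (nat_lit 0) (p (nat_lit 0x16000c) (nat_lit 0) (p (nat_lit 0x50612) (nat_lit 0) (p (nat_lit 0x40592) (nat_lit 0) (p (nat_lit 0x40492) (nat_lit 0) (p (nat_lit 0x30412) (nat_lit 0) (p (nat_lit 0x30212) (nat_lit 0) (p (nat_lit 0x20192) (nat_lit 0) (p (nat_lit 0x20092) (nat_lit 0) (p (nat_lit 0x10012) (nat_lit 0) pn))))))))))))))))))))))))))))))))) :=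
  Cl.node (nat_lit 0xb000c) (nat_lit 2) (by decide +kernel) (ClAll.succ (ClAll.succ ClAll.zero n65) n66)

def n82 : Cl (O (nat_lit 5)) (R (nat_lit 104465))
    (p (nat_lit 0x119) (nat_lit 0) (p (nat_lit 0x100004) (nat_lit 0) (p (nat_lit 0x200004) (nat_lit 0) (p (nat_lit 0xb000c) (nat_lit 0) (p (nat_lit 0x380c2) (nat_lit 1) (p (nat_lit 0x444aa) (nat_lit 7) (p (nat_lit 0x109) (nat_lit 1) (p (nat_lit 0x101) (nat_lit 0) (p (nat_lit 0x81) (nat_lit 1) (p (nat_lit 0xc1) (nat_lit 1) (p (nat_lit 0x119) (nat_lit 1) (p (nat_lit 0xd1) (nat_lit 0) (p (nat_lit 0x89) (nat_lit 0) (p (nat_lit 0x41) (nat_lit 0) (p (nat_lit 0x10a098b090a9a) (nat_lit 0) (p (nat_lit 0x9890a888a1a) (nat_lit 0) (p (nat_lit 0x109088a08079a) (nat_lit 0) (p (nat_lit 0x8880987871a) (nat_lit 0) (p (nat_lit 0x8000000000800080907088a) (nat_lit 0) (p (nat_lit 0x8000000000800078886860a) (nat_lit 0) (p (nat_lit 0x10688060782)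 (nat_lit 0) (p (nat_lit 0x607858702) (nat_lit 0) (p (nat_lit 0x10587050482) (nat_lit 0) (p (nat_lit 0x506848402) (nat_lit 0) (p (nat_lit 0x16000c) (nat_lit 0) (p (nat_lit 0x50612) (nat_lit 0) (p (nat_lit 0x40592) (nat_lit 0) (p (nat_lit 0x40492) (nat_lit 0) (p (nat_lit 0x30412) (nat_lit 0) (p (nat_lit 0x30212) (nat_lit 0) (p (nat_lit 0x20192) (nat_lit 0) (p (nat_lit 0x20092) (nat_lit 0) (p (nat_lit 0x10012) (nat_lit 0) pn))))))))))))))))))))))))))))))))) :=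
  Cl.node (nat_lit 0x101) (nat_lit 2) (by decide +kernel) (ClAll.succ (ClAll.succ ClAll.zero s217) s218)

def n83 : Cl (O (nat_lit 5)) (R (nat_lit 104465))
    (p (nat_lit 0xb000c) (nat_lit 1) (p (nat_lit 0x81) (nat_lit 1) (p (nat_lit 0x380c2) (nat_lit 0) (p (nat_lit 0x3cc2a) (nat_lit 1) (p (nat_lit 0x109) (nat_lit 1) (p (nat_lit 0x200014) (nat_lit 0) (p (nat_lit 0x200004) (nat_lit 0) (p (nat_lit 0x119) (nat_lit 0) (p (nat_lit 0x81) (nat_lit 0) (p (nat_lit 0x101) (nat_lit 1) (p (nat_lit 0x111) (nat_lit 0) (p (nat_lit 0xd1) (nat_lit 1) (p (nat_lit 0x89) (nat_lit 0) (p (nat_lit 0x41) (nat_lit 0) (p (nat_lit 0x10a098b090a9a) (nat_lit 0) (p (nat_lit 0x9890a888a1a) (nat_lit 0) (p (nat_lit 0x109088a08079a) (nat_lit 0) (p (nat_lit 0x8880987871a) (nat_lit 0) (p (nat_lit 0x8000000000800080907088a) (nat_lit 0) (p (nat_lit 0x8000000000800078886860a) (nat_lit 0) (p (nat_lit 0x10688060782)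 (nat_lit 0) (p (nat_lit 0x607858702) (nat_lit 0) (p (nat_lit 0x10587050482) (nat_lit 0) (p (nat_lit 0x506848402) (nat_lit 0) (p (nat_lit 0x16000c) (nat_lit 0) (p (nat_lit 0x50612) (nat_lit 0) (p (nat_lit 0x40592) (nat_lit 0) (p (nat_lit 0x40492) (nat_lit 0) (p (nat_lit 0x30412) (nat_lit 0) (p (nat_lit 0x30212) (nat_lit 0) (p (nat_lit 0x20192) (nat_lit 0) (p (nat_lit 0x20092) (nat_lit 0) (p (nat_lit 0x10012) (nat_lit 0) pn))))))))))))))))))))))))))))))))) :=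
  Cl.node (nat_lit 0x10800c) (nat_lit 2) (by decide +kernel) (ClAll.succ (ClAll.succ ClAll.zero s260) s261)

def n84 : Cl (O (nat_lit 5)) (R (nat_lit 104465))
    (p (nat_lit 0x119) (nat_lit 1) (p (nat_lit 0x1fc014) (nat_lit 0) (p (nat_lit 0x1fc004) (nat_lit 0) (p (nat_lit 0xb000c) (nat_lit 1) (p (nat_lit 0x380c2) (nat_lit 1) (p (nat_lit 0x444aa) (nat_lit 7) (p (nat_lit 0x119) (nat_lit 0) (p (nat_lit 0xc1) (nat_lit 0) (p (nat_lit 0x81) (nat_lit 1) (p (nat_lit 0x101) (nat_lit 1) (p (nat_lit 0x111) (nat_lit 0) (p (nat_lit 0xd1) (nat_lit 1) (p (nat_lit 0x89) (nat_lit 0) (p (nat_lit 0x41) (nat_lit 0) (p (nat_lit 0x10a098b090a9a) (nat_lit 0) (p (nat_lit 0x9890a888a1a) (nat_lit 0) (p (nat_lit 0x109088a08079a) (nat_lit 0) (p (nat_lit 0x8880987871a) (nat_lit 0) (p (nat_lit 0x8000000000800080907088a) (nat_lit 0) (p (nat_lit 0x8000000000800078886860a) (nat_lit 0) (p (nat_lit 0x10688060782)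 (nat_lit 0) (p (nat_lit 0x607858702) (nat_lit 0) (p (nat_lit 0x10587050482) (nat_lit 0) (p (nat_lit 0x506848402) (nat_lit 0) (p (nat_lit 0x16000c) (nat_lit 0) (p (nat_lit 0x50612) (nat_lit 0) (p (nat_lit 0x40592) (nat_lit 0) (p (nat_lit 0x40492) (nat_lit 0) (p (nat_lit 0x30412) (nat_lit 0) (p (nat_lit 0x30212) (nat_lit 0) (p (nat_lit 0x20192) (nat_lit 0) (p (nat_lit 0x20092) (nat_lit 0) (p (nat_lit 0x10012) (nat_lit 0) pn))))))))))))))))))))))))))))))))) :=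
  Cl.node (nat_lit 0x100014) (nat_lit 2) (by decide +kernel) (ClAll.succ (ClAll.succ ClAll.zero n67) s315)

def n85 : Cl (O (nat_lit 5)) (R (nat_lit 104465))
    (p (nat_lit 0x380c2) (nat_lit 1) (p (nat_lit 0x444aa) (nat_lit 7) (p (nat_lit 0xd1) (nat_lit 1) (p (nat_lit 0x200014) (nat_lit 0) (p (nat_lit 0x380c2) (nat_lit 0) (p (nat_lit 0x3cc2a) (nat_lit 2) (p (nat_lit 0x119) (nat_lit 1) (p (nat_lit 0xc1) (nat_lit 0) (p (nat_lit 0x81) (nat_lit 1) (p (nat_lit 0x101) (nat_lit 1) (p (nat_lit 0x111) (nat_lit 0) (p (nat_lit 0xd1) (nat_lit 1) (p (nat_lit 0x89) (nat_lit 0) (p (nat_lit 0x41) (nat_lit 0) (p (nat_lit 0x10a098b090a9a) (nat_lit 0) (p (nat_lit 0x9890a888a1a) (nat_lit 0) (p (nat_lit 0x109088a08079a) (nat_lit 0) (p (nat_lit 0x8880987871a) (nat_lit 0) (p (nat_lit 0x8000000000800080907088a) (nat_lit 0) (p (nat_lit 0x8000000000800078886860a) (nat_lit 0) (p (nat_lit 0x10688060782)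 (nat_lit 0) (p (nat_lit 0x607858702) (nat_lit 0) (p (nat_lit 0x10587050482) (nat_lit 0) (p (nat_lit 0x506848402) (nat_lit 0) (p (nat_lit 0x16000c) (nat_lit 0) (p (nat_lit 0x50612) (nat_lit 0) (p (nat_lit 0x40592) (nat_lit 0) (p (nat_lit 0x40492) (nat_lit 0) (p (nat_lit 0x30412) (nat_lit 0) (p (nat_lit 0x30212) (nat_lit 0) (p (nat_lit 0x20192) (nat_lit 0) (p (nat_lit 0x20092) (nat_lit 0) (p (nat_lit 0x10012) (nat_lit 0) pn))))))))))))))))))))))))))))))))) :=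
  Cl.node (nat_lit 0xb000c) (nat_lit 2) (by decide +kernel) (ClAll.succ (ClAll.succ ClAll.zero s333) s334)

def n86 : Cl (O (nat_lit 5)) (R (nat_lit 104465))
    (p (nat_lit 0xc1) (nat_lit 0) (p (nat_lit 0x100004) (nat_lit 0) (p (nat_lit 0x200004) (nat_lit 0) (p (nat_lit 0xb000c) (nat_lit 0) (p (nat_lit 0x380c2) (nat_lit 0) (p (nat_lit 0x444aa) (nat_lit 7) (p (nat_lit 0xd1) (nat_lit 1) (p (nat_lit 0x111) (nat_lit 1) (p (nat_lit 0x109) (nat_lit 0) (p (nat_lit 0x101) (nat_lit 0) (p (nat_lit 0x119) (nat_lit 0) (p (nat_lit 0xc9) (nat_lit 0) (p (nat_lit 0x89) (nat_lit 1) (p (nat_lit 0x41) (nat_lit 0) (p (nat_lit 0x10a098b090a9a) (nat_lit 0) (p (nat_lit 0x9890a888a1a) (nat_lit 0) (p (nat_lit 0x109088a08079a) (nat_lit 0) (p (nat_lit 0x8880987871a) (nat_lit 0) (p (nat_lit 0x8000000000800080907088a) (nat_lit 0) (p (nat_lit 0x8000000000800078886860a) (nat_lit 0) (p (nat_lit 0x10688060782)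 (nat_lit 0) (p (nat_lit 0x607858702) (nat_lit 0) (p (nat_lit 0x10587050482) (nat_lit 0) (p (nat_lit 0x506848402) (nat_lit 0) (p (nat_lit 0x16000c) (nat_lit 0) (p (nat_lit 0x50612) (nat_lit 0) (p (nat_lit 0x40592) (nat_lit 0) (p (nat_lit 0x40492) (nat_lit 0) (p (nat_lit 0x30412) (nat_lit 0) (p (nat_lit 0x30212) (nat_lit 0) (p (nat_lit 0x20192) (nat_lit 0) (p (nat_lit 0x20092) (nat_lit 0) (p (nat_lit 0x10012) (nat_lit 0) pn))))))))))))))))))))))))))))))))) :=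
  Cl.node (nat_lit 0x109) (nat_lit 2) (by decide +kernel) (ClAll.succ (ClAll.succ ClAll.zero s377) n68)

def n87 : Cl (O (nat_lit 5)) (R (nat_lit 104465))
    (p (nat_lit 0x100004) (nat_lit 0) (p (nat_lit 0x1fc014) (nat_lit 0) (p (nat_lit 0x1fc004) (nat_lit 0) (p (nat_lit 0xb000c) (nat_lit 1) (p (nat_lit 0x380c2) (nat_lit 0) (p (nat_lit 0x444aa) (nat_lit 7) (p (nat_lit 0xd1) (nat_lit 1) (p (nat_lit 0x111) (nat_lit 1) (p (nat_lit 0x109) (nat_lit 0) (p (nat_lit 0x101) (nat_lit 0) (p (nat_lit 0x119) (nat_lit 0) (p (nat_lit 0xc9) (nat_lit 0) (p (nat_lit 0x89) (nat_lit 1) (p (nat_lit 0x41) (nat_lit 0) (p (nat_lit 0x10a098b090a9a) (nat_lit 0) (p (nat_lit 0x9890a888a1a) (nat_lit 0) (p (nat_lit 0x109088a08079a) (nat_lit 0) (p (nat_lit 0x8880987871a) (nat_lit 0) (p (nat_lit 0x8000000000800080907088a) (nat_lit 0) (p (nat_lit 0x8000000000800078886860a) (nat_lit 0) (p (nat_lit 0x10688060782)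 (nat_lit 0) (p (nat_lit 0x607858702) (nat_lit 0) (p (nat_lit 0x10587050482) (nat_lit 0) (p (nat_lit 0x506848402) (nat_lit 0) (p (nat_lit 0x16000c) (nat_lit 0) (p (nat_lit 0x50612) (nat_lit 0) (p (nat_lit 0x40592) (nat_lit 0) (p (nat_lit 0x40492) (nat_lit 0) (p (nat_lit 0x30412) (nat_lit 0) (p (nat_lit 0x30212) (nat_lit 0) (p (nat_lit 0x20192) (nat_lit 0) (p (nat_lit 0x20092) (nat_lit 0) (p (nat_lit 0x10012) (nat_lit 0) pn))))))))))))))))))))))))))))))))) :=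
  Cl.node (nat_lit 0x2a825800002680d0c8d8b8b0a) (nat_lit 1) (by decide +kernel) (ClAll.succ ClAll.zero n69)

def n88 : Cl (O (nat_lit 5)) (R (nat_lit 104465))
    (p (nat_lit 0xc1) (nat_lit 0) (p (nat_lit 0x100004) (nat_lit 0) (p (nat_lit 0x200004) (nat_lit 0) (p (nat_lit 0xb000c) (nat_lit 0) (p (nat_lit 0x380c2) (nat_lit 1) (p (nat_lit 0x444aa) (nat_lit 7) (p (nat_lit 0xd1) (nat_lit 1) (p (nat_lit 0x111) (nat_lit 1) (p (nat_lit 0x109) (nat_lit 0) (p (nat_lit 0x101) (nat_lit 0) (p (nat_lit 0x119) (nat_lit 0) (p (nat_lit 0xc9) (nat_lit 0) (p (nat_lit 0x89) (nat_lit 1) (p (nat_lit 0x41) (nat_lit 0) (p (nat_lit 0x10a098b090a9a) (nat_lit 0) (p (nat_lit 0x9890a888a1a) (nat_lit 0) (p (nat_lit 0x109088a08079a) (nat_lit 0) (p (nat_lit 0x8880987871a) (nat_lit 0) (p (nat_lit 0x8000000000800080907088a) (nat_lit 0) (p (nat_lit 0x8000000000800078886860a) (nat_lit 0) (p (nat_lit 0x10688060782)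 (nat_lit 0) (p (nat_lit 0x607858702) (nat_lit 0) (p (nat_lit 0x10587050482) (nat_lit 0) (p (nat_lit 0x506848402) (nat_lit 0) (p (nat_lit 0x16000c) (nat_lit 0) (p (nat_lit 0x50612) (nat_lit 0) (p (nat_lit 0x40592) (nat_lit 0) (p (nat_lit 0x40492) (nat_lit 0) (p (nat_lit 0x30412) (nat_lit 0) (p (nat_lit 0x30212) (nat_lit 0) (p (nat_lit 0x20192) (nat_lit 0) (p (nat_lit 0x20092) (nat_lit 0) (p (nat_lit 0x10012) (nat_lit 0) pn))))))))))))))))))))))))))))))))) :=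
  Cl.node (nat_lit 0x109) (nat_lit 2) (by decide +kernel) (ClAll.succ (ClAll.succ ClAll.zero s391) s392)

def n89 : Cl (O (nat_lit 5)) (R (nat_lit 104465))
    (p (nat_lit 0x100004) (nat_lit 0) (p (nat_lit 0x1fc014) (nat_lit 0) (p (nat_lit 0x1fc004) (nat_lit 0) (p (nat_lit 0xb000c) (nat_lit 1) (p (nat_lit 0x380c2) (nat_lit 1) (p (nat_lit 0x444aa) (nat_lit 7) (p (nat_lit 0xd1) (nat_lit 1) (p (nat_lit 0x111) (nat_lit 1) (p (nat_lit 0x109) (nat_lit 0) (p (nat_lit 0x101) (nat_lit 0) (p (nat_lit 0x119) (nat_lit 0) (p (nat_lit 0xc9) (nat_lit 0) (p (nat_lit 0x89) (nat_lit 1) (p (nat_lit 0x41) (nat_lit 0) (p (nat_lit 0x10a098b090a9a) (nat_lit 0) (p (nat_lit 0x9890a888a1a) (nat_lit 0) (p (nat_lit 0x109088a08079a) (nat_lit 0) (p (nat_lit 0x8880987871a) (nat_lit 0) (p (nat_lit 0x8000000000800080907088a) (nat_lit 0) (p (nat_lit 0x8000000000800078886860a) (nat_lit 0) (p (nat_lit 0x10688060782)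 (nat_lit 0) (p (nat_lit 0x607858702) (nat_lit 0) (p (nat_lit 0x10587050482) (nat_lit 0) (p (nat_lit 0x506848402) (nat_lit 0) (p (nat_lit 0x16000c) (nat_lit 0) (p (nat_lit 0x50612) (nat_lit 0) (p (nat_lit 0x40592) (nat_lit 0) (p (nat_lit 0x40492) (nat_lit 0) (p (nat_lit 0x30412) (nat_lit 0) (p (nat_lit 0x30212) (nat_lit 0) (p (nat_lit 0x20192) (nat_lit 0) (p (nat_lit 0x20092) (nat_lit 0) (p (nat_lit 0x10012) (nat_lit 0) pn))))))))))))))))))))))))))))))))) :=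
  Cl.node (nat_lit 0x100014) (nat_lit 2) (by decide +kernel) (ClAll.succ (ClAll.succ ClAll.zero n70) s401)

def n90 : Cl (O (nat_lit 5)) (R (nat_lit 104465))
    (p (nat_lit 0x111) (nat_lit 0) (p (nat_lit 0x100004) (nat_lit 0) (p (nat_lit 0xc1) (nat_lit 0) (p (nat_lit 0x200004) (nat_lit 0) (p (nat_lit 0xb000c) (nat_lit 0) (p (nat_lit 0x380c2) (nat_lit 0) (p (nat_lit 0x444aa) (nat_lit 7) (p (nat_lit 0xd1) (nat_lit 1) (p (nat_lit 0x109) (nat_lit 1) (p (nat_lit 0x101) (nat_lit 0) (p (nat_lit 0x119) (nat_lit 0) (p (nat_lit 0xc9) (nat_lit 0) (p (nat_lit 0x89) (nat_lit 1) (p (nat_lit 0x41) (nat_lit 0) (p (nat_lit 0x10a098b090a9a) (nat_lit 0) (p (nat_lit 0x9890a888a1a) (nat_lit 0) (p (nat_lit 0x109088a08079a) (nat_lit 0) (p (nat_lit 0x8880987871a) (nat_lit 0) (p (nat_lit 0x8000000000800080907088a) (nat_lit 0) (p (nat_lit 0x8000000000800078886860a) (nat_lit 0) (p (nat_lit 0x10688060782)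 (nat_lit 0) (p (nat_lit 0x607858702) (nat_lit 0) (p (nat_lit 0x10587050482) (nat_lit 0) (p (nat_lit 0x506848402) (nat_lit 0) (p (nat_lit 0x16000c) (nat_lit 0) (p (nat_lit 0x50612) (nat_lit 0) (p (nat_lit 0x40592) (nat_lit 0) (p (nat_lit 0x40492) (nat_lit 0) (p (nat_lit 0x30412) (nat_lit 0) (p (nat_lit 0x30212) (nat_lit 0) (p (nat_lit 0x20192) (nat_lit 0) (p (nat_lit 0x20092) (nat_lit 0) (p (nat_lit 0x10012) (nat_lit 0) pn))))))))))))))))))))))))))))))))) :=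
  Cl.node (nat_lit 0x119) (nat_lit 2) (by decide +kernel) (ClAll.succ (ClAll.succ ClAll.zero s436) s437)

def n91 : Cl (O (nat_lit 5)) (R (nat_lit 104465))
    (p (nat_lit 0xc9) (nat_lit 0) (p (nat_lit 0x100004) (nat_lit 0) (p (nat_lit 0xc1) (nat_lit 0) (p (nat_lit 0x200004) (nat_lit 0) (p (nat_lit 0xb000c) (nat_lit 0) (p (nat_lit 0x380c2) (nat_lit 1) (p (nat_lit 0x444aa) (nat_lit 7) (p (nat_lit 0xd1) (nat_lit 1) (p (nat_lit 0x109) (nat_lit 1) (p (nat_lit 0x101) (nat_lit 0) (p (nat_lit 0x119) (nat_lit 0) (p (nat_lit 0xc9) (nat_lit 0) (p (nat_lit 0x89) (nat_lit 1) (p (nat_lit 0x41) (nat_lit 0) (p (nat_lit 0x10a098b090a9a) (nat_lit 0) (p (nat_lit 0x9890a888a1a) (nat_lit 0) (p (nat_lit 0x109088a08079a) (nat_lit 0) (p (nat_lit 0x8880987871a) (nat_lit 0) (p (nat_lit 0x8000000000800080907088a) (nat_lit 0) (p (nat_lit 0x8000000000800078886860a) (nat_lit 0) (p (nat_lit 0x10688060782)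 (nat_lit 0) (p (nat_lit 0x607858702) (nat_lit 0) (p (nat_lit 0x10587050482) (nat_lit 0) (p (nat_lit 0x506848402) (nat_lit 0) (p (nat_lit 0x16000c) (nat_lit 0) (p (nat_lit 0x50612) (nat_lit 0) (p (nat_lit 0x40592) (nat_lit 0) (p (nat_lit 0x40492) (nat_lit 0) (p (nat_lit 0x30412) (nat_lit 0) (p (nat_lit 0x30212) (nat_lit 0) (p (nat_lit 0x20192) (nat_lit 0) (p (nat_lit 0x20092) (nat_lit 0) (p (nat_lit 0x10012) (nat_lit 0) pn))))))))))))))))))))))))))))))))) :=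
  Cl.node (nat_lit 0x3cc2a) (nat_lit 12) (by decide +kernel) (ClAll.succ (ClAll.succ (ClAll.succ (ClAll.succ (ClAll.succ (ClAll.succ (ClAll.succ (ClAll.succ (ClAll.succ (ClAll.succ (ClAll.succ (ClAll.succ ClAll.zero s443) s444) s445) s446) s447) s448) s449) s450) s451) s452) s453) s454)

def n92 : Cl (O (nat_lit 5)) (R (nat_lit 104465))
    (p (nat_lit 0x119) (nat_lit 0) (p (nat_lit 0x100004) (nat_lit 0) (p (nat_lit 0x200004) (nat_lit 0) (p (nat_lit 0x109) (nat_lit 0) (p (nat_lit 0xb000c) (nat_lit 0) (p (nat_lit 0x380c2) (nat_lit 1) (p (nat_lit 0x444aa) (nat_lit 7) (p (nat_lit 0x111) (nat_lit 1) (p (nat_lit 0x101) (nat_lit 0) (p (nat_lit 0xc1) (nat_lit 1) (p (nat_lit 0x119) (nat_lit 1) (p (nat_lit 0xc9) (nat_lit 0) (p (nat_lit 0x89) (nat_lit 1) (p (nat_lit 0x41) (nat_lit 0) (p (nat_lit 0x10a098b090a9a) (nat_lit 0) (p (nat_lit 0x9890a888a1a) (nat_lit 0) (p (nat_lit 0x109088a08079a)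 (nat_lit 0) (p (nat_lit 0x8880987871a) (nat_lit 0) (p (nat_lit 0x8000000000800080907088a) (nat_lit 0) (p (nat_lit 0x8000000000800078886860a) (nat_lit 0) (p (nat_lit 0x10688060782) (nat_lit 0) (p (nat_lit 0x607858702) (nat_lit 0) (p (nat_lit 0x10587050482) (nat_lit 0) (p (nat_lit 0x506848402) (nat_lit 0) (p (nat_lit 0x16000c) (nat_lit 0) (p (nat_lit 0x50612) (nat_lit 0) (p (nat_lit 0x40592) (nat_lit 0) (p (nat_lit 0x40492) (nat_lit 0) (p (nat_lit 0x30412) (nat_lit 0) (p (nat_lit 0x30212) (nat_lit 0) (p (nat_lit 0x20192) (nat_lit 0) (p (nat_lit 0x20092) (nat_lit 0) (p (nat_lit 0x10012) (nat_lit 0) pn))))))))))))))))))))))))))))))))) :=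
  Cl.node (nat_lit 0x101) (nat_lit 2) (by decide +kernel) (ClAll.succ (ClAll.succ ClAll.zero s543) s544)

def n93 : Cl (O (nat_lit 5)) (R (nat_lit 104465))
    (p (nat_lit 0xb000c) (nat_lit 1) (p (nat_lit 0x100014) (nat_lit 0) (p (nat_lit 0x200014) (nat_lit 0) (p (nat_lit 0x200004) (nat_lit 0) (p (nat_lit 0x380c2) (nat_lit 0) (p (nat_lit 0x3cc2a) (nat_lit 2) (p (nat_lit 0x111) (nat_lit 1) (p (nat_lit 0x89) (nat_lit 0) (p (nat_lit 0x109) (nat_lit 1) (p (nat_lit 0x101) (nat_lit 0) (p (nat_lit 0x119) (nat_lit 0) (p (nat_lit 0xd1) (nat_lit 0) (p (nat_lit 0x81) (nat_lit 0) (p (nat_lit 0x41) (nat_lit 1) (p (nat_lit 0x10a098b090a9a) (nat_lit 0) (p (nat_lit 0x9890a888a1a) (nat_lit 0) (p (nat_lit 0x109088a08079a) (nat_lit 0) (p (nat_lit 0x8880987871a) (nat_lit 0) (p (nat_lit 0x8000000000800080907088a) (nat_lit 0) (p (nat_lit 0x8000000000800078886860a) (nat_lit 0) (p (nat_lit 0x10688060782)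 (nat_lit 0) (p (nat_lit 0x607858702) (nat_lit 0) (p (nat_lit 0x10587050482) (nat_lit 0) (p (nat_lit 0x506848402) (nat_lit 0) (p (nat_lit 0x16000c) (nat_lit 0) (p (nat_lit 0x50612) (nat_lit 0) (p (nat_lit 0x40592) (nat_lit 0) (p (nat_lit 0x40492) (nat_lit 0) (p (nat_lit 0x30412) (nat_lit 0) (p (nat_lit 0x30212) (nat_lit 0) (p (nat_lit 0x20192) (nat_lit 0) (p (nat_lit 0x20092) (nat_lit 0) (p (nat_lit 0x10012) (nat_lit 0) pn))))))))))))))))))))))))))))))))) :=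
  Cl.node (nat_lit 0x100004) (nat_lit 2) (by decide +kernel) (ClAll.succ (ClAll.succ ClAll.zero s591) s592)

def n94 : Cl (O (nat_lit 5)) (R (nat_lit 104465))
    (p (nat_lit 0x100014) (nat_lit 0) (p (nat_lit 0x1fc014) (nat_lit 0) (p (nat_lit 0x1fc004) (nat_lit 0) (p (nat_lit 0xb000c) (nat_lit 1) (p (nat_lit 0x380c2) (nat_lit 1) (p (nat_lit 0x4c42a) (nat_lit 10) (p (nat_lit 0xc9) (nat_lit 0) (p (nat_lit 0x89) (nat_lit 1) (p (nat_lit 0x109) (nat_lit 1) (p (nat_lit 0x101) (nat_lit 0) (p (nat_lit 0x119) (nat_lit 0) (p (nat_lit 0xd1) (nat_lit 0) (p (nat_lit 0x81) (nat_lit 0) (p (nat_lit 0x41) (nat_lit 1) (p (nat_lit 0x10a098b090a9a) (nat_lit 0) (p (nat_lit 0x9890a888a1a) (nat_lit 0) (p (nat_lit 0x109088a08079a) (nat_lit 0) (p (nat_lit 0x8880987871a) (nat_lit 0) (p (nat_lit 0x8000000000800080907088a) (nat_lit 0) (p (nat_lit 0x8000000000800078886860a) (nat_lit 0) (p (nat_lit 0x10688060782)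 (nat_lit 0) (p (nat_lit 0x607858702) (nat_lit 0) (p (nat_lit 0x10587050482) (nat_lit 0) (p (nat_lit 0x506848402) (nat_lit 0) (p (nat_lit 0x16000c) (nat_lit 0) (p (nat_lit 0x50612) (nat_lit 0) (p (nat_lit 0x40592) (nat_lit 0) (p (nat_lit 0x40492) (nat_lit 0) (p (nat_lit 0x30412) (nat_lit 0) (p (nat_lit 0x30212) (nat_lit 0) (p (nat_lit 0x20192) (nat_lit 0) (p (nat_lit 0x20092) (nat_lit 0) (p (nat_lit 0x10012) (nat_lit 0) pn))))))))))))))))))))))))))))))))) :=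
  Cl.node (nat_lit 0x81) (nat_lit 2) (by decide +kernel) (ClAll.succ (ClAll.succ ClAll.zero n71) s621)

def n95 : Cl (O (nat_lit 5)) (R (nat_lit 104465))
    (p (nat_lit 0x80014) (nat_lit 0) (p (nat_lit 0xb000c) (nat_lit 1) (p (nat_lit 0x100014) (nat_lit 0) (p (nat_lit 0x200014) (nat_lit 0) (p (nat_lit 0x200004) (nat_lit 0) (p (nat_lit 0x380c2) (nat_lit 0) (p (nat_lit 0x3cc2a) (nat_lit 2) (p (nat_lit 0x89) (nat_lit 0) (p (nat_lit 0xc1) (nat_lit 0) (p (nat_lit 0x101) (nat_lit 1) (p (nat_lit 0x119) (nat_lit 0) (p (nat_lit 0xd1) (nat_lit 0) (p (nat_lit 0x81) (nat_lit 0) (p (nat_lit 0x41) (nat_lit 1) (p (nat_lit 0x10a098b090a9a) (nat_lit 0) (p (nat_lit 0x9890a888a1a) (nat_lit 0) (p (nat_lit 0x109088a08079a) (nat_lit 0) (p (nat_lit 0x8880987871a) (nat_lit 0) (p (nat_lit 0x8000000000800080907088a) (nat_lit 0) (p (nat_lit 0x8000000000800078886860a) (nat_lit 0) (p (nat_lit 0x10688060782)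 (nat_lit 0) (p (nat_lit 0x607858702) (nat_lit 0) (p (nat_lit 0x10587050482) (nat_lit 0) (p (nat_lit 0x506848402) (nat_lit 0) (p (nat_lit 0x16000c) (nat_lit 0) (p (nat_lit 0x50612) (nat_lit 0) (p (nat_lit 0x40592) (nat_lit 0) (p (nat_lit 0x40492) (nat_lit 0) (p (nat_lit 0x30412) (nat_lit 0) (p (nat_lit 0x30212) (nat_lit 0) (p (nat_lit 0x20192) (nat_lit 0) (p (nat_lit 0x20092) (nat_lit 0) (p (nat_lit 0x10012) (nat_lit 0) pn))))))))))))))))))))))))))))))))) :=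
  Cl.node (nat_lit 0x100004) (nat_lit 2) (by decide +kernel) (ClAll.succ (ClAll.succ ClAll.zero s630) s631)

def n96 : Cl (O (nat_lit 5)) (R (nat_lit 104465))
    (p (nat_lit 0x100004) (nat_lit 0) (p (nat_lit 0x200004) (nat_lit 0) (p (nat_lit 0x200014) (nat_lit 0) (p (nat_lit 0x380c2) (nat_lit 0) (p (nat_lit 0x4c42a) (nat_lit 10) (p (nat_lit 0x119) (nat_lit 1) (p (nat_lit 0xc9) (nat_lit 0) (p (nat_lit 0x89) (nat_lit 1) (p (nat_lit 0x109) (nat_lit 1) (p (nat_lit 0x101) (nat_lit 0) (p (nat_lit 0x111) (nat_lit 0) (p (nat_lit 0xd1) (nat_lit 1) (p (nat_lit 0x81) (nat_lit 0) (p (nat_lit 0x41) (nat_lit 1) (p (nat_lit 0x10a098b090a9a) (nat_lit 0) (p (nat_lit 0x9890a888a1a) (nat_lit 0) (p (nat_lit 0x109088a08079a) (nat_lit 0) (p (nat_lit 0x8880987871a) (nat_lit 0) (p (nat_lit 0x8000000000800080907088a) (nat_lit 0) (p (nat_lit 0x8000000000800078886860a) (nat_lit 0) (p (nat_lit 0x10688060782)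 (nat_lit 0) (p (nat_lit 0x607858702) (nat_lit 0) (p (nat_lit 0x10587050482) (nat_lit 0) (p (nat_lit 0x506848402) (nat_lit 0) (p (nat_lit 0x16000c) (nat_lit 0) (p (nat_lit 0x50612) (nat_lit 0) (p (nat_lit 0x40592) (nat_lit 0) (p (nat_lit 0x40492) (nat_lit 0) (p (nat_lit 0x30412) (nat_lit 0) (p (nat_lit 0x30212) (nat_lit 0) (p (nat_lit 0x20192) (nat_lit 0) (p (nat_lit 0x20092) (nat_lit 0) (p (nat_lit 0x10012) (nat_lit 0) pn))))))))))))))))))))))))))))))))) :=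
  Cl.node (nat_lit 0x100014) (nat_lit 2) (by decide +kernel) (ClAll.succ (ClAll.succ ClAll.zero n72) s812)

def n97 : Cl (O (nat_lit 5)) (R (nat_lit 104465))
    (p (nat_lit 0x380c2) (nat_lit 0) (p (nat_lit 0x3cc2a) (nat_lit 2) (p (nat_lit 0xb000c) (nat_lit 0) (p (nat_lit 0x380c2) (nat_lit 1) (p (nat_lit 0x4c42a) (nat_lit 10) (p (nat_lit 0x119) (nat_lit 1) (p (nat_lit 0xc9) (nat_lit 0) (p (nat_lit 0x89) (nat_lit 1) (p (nat_lit 0x109) (nat_lit 1) (p (nat_lit 0x101) (nat_lit 0) (p (nat_lit 0x111) (nat_lit 0) (p (nat_lit 0xd1) (nat_lit 1) (p (nat_lit 0x81) (nat_lit 0) (p (nat_lit 0x41) (nat_lit 1) (p (nat_lit 0x10a098b090a9a) (nat_lit 0) (p (nat_lit 0x9890a888a1a) (nat_lit 0) (p (nat_lit 0x109088a08079a) (nat_lit 0) (p (nat_lit 0x8880987871a) (nat_lit 0) (p (nat_lit 0x8000000000800080907088a) (nat_lit 0) (p (nat_lit 0x8000000000800078886860a) (nat_lit 0) (p (nat_lit 0x10688060782)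 (nat_lit 0) (p (nat_lit 0x607858702) (nat_lit 0) (p (nat_lit 0x10587050482) (nat_lit 0) (p (nat_lit 0x506848402) (nat_lit 0) (p (nat_lit 0x16000c) (nat_lit 0) (p (nat_lit 0x50612) (nat_lit 0) (p (nat_lit 0x40592) (nat_lit 0) (p (nat_lit 0x40492) (nat_lit 0) (p (nat_lit 0x30412) (nat_lit 0) (p (nat_lit 0x30212) (nat_lit 0) (p (nat_lit 0x20192) (nat_lit 0) (p (nat_lit 0x20092) (nat_lit 0) (p (nat_lit 0x10012) (nat_lit 0) pn))))))))))))))))))))))))))))))))) :=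
  Cl.node (nat_lit 0x200014) (nat_lit 2) (by decide +kernel) (ClAll.succ (ClAll.succ ClAll.zero n73) s821)

def n98 : Cl (O (nat_lit 5)) (R (nat_lit 104465))
    (p (nat_lit 0x1fc014) (nat_lit 0) (p (nat_lit 0x1fc004) (nat_lit 0) (p (nat_lit 0xb000c) (nat_lit 1) (p (nat_lit 0x380c2) (nat_lit 1) (p (nat_lit 0x4c42a) (nat_lit 10) (p (nat_lit 0x119) (nat_lit 1) (p (nat_lit 0xc9) (nat_lit 0) (p (nat_lit 0x89) (nat_lit 1) (p (nat_lit 0x109) (nat_lit 1) (p (nat_lit 0x101) (nat_lit 0) (p (nat_lit 0x111) (nat_lit 0) (p (nat_lit 0xd1) (nat_lit 1) (p (nat_lit 0x81) (nat_lit 0) (p (nat_lit 0x41) (nat_lit 1) (p (nat_lit 0x10a098b090a9a) (nat_lit 0) (p (nat_lit 0x9890a888a1a) (nat_lit 0) (p (nat_lit 0x109088a08079a) (nat_lit 0) (p (nat_lit 0x8880987871a) (nat_lit 0) (p (nat_lit 0x8000000000800080907088a) (nat_lit 0) (p (nat_lit 0x8000000000800078886860a) (nat_lit 0) (p (nat_lit 0x10688060782)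 (nat_lit 0) (p (nat_lit 0x607858702) (nat_lit 0) (p (nat_lit 0x10587050482) (nat_lit 0) (p (nat_lit 0x506848402) (nat_lit 0) (p (nat_lit 0x16000c) (nat_lit 0) (p (nat_lit 0x50612) (nat_lit 0) (p (nat_lit 0x40592) (nat_lit 0) (p (nat_lit 0x40492) (nat_lit 0) (p (nat_lit 0x30412) (nat_lit 0) (p (nat_lit 0x30212) (nat_lit 0) (p (nat_lit 0x20192) (nat_lit 0) (p (nat_lit 0x20092) (nat_lit 0) (p (nat_lit 0x10012) (nat_lit 0) pn))))))))))))))))))))))))))))))))) :=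
  Cl.node (nat_lit 0x100014) (nat_lit 2) (by decide +kernel) (ClAll.succ (ClAll.succ ClAll.zero n74) s835)

def n99 : Cl (O (nat_lit 5)) (R (nat_lit 104465))
    (p (nat_lit 0x1fc014) (nat_lit 0) (p (nat_lit 0x1fc004) (nat_lit 0) (p (nat_lit 0xb000c) (nat_lit 1) (p (nat_lit 0x380c2) (nat_lit 0) (p (nat_lit 0x444aa) (nat_lit 7) (p (nat_lit 0x81) (nat_lit 1) (p (nat_lit 0xc9) (nat_lit 1) (p (nat_lit 0x109) (nat_lit 1) (p (nat_lit 0x101) (nat_lit 0) (p (nat_lit 0x119) (nat_lit 0) (p (nat_lit 0xd1) (nat_lit 0) (p (nat_lit 0x89) (nat_lit 0) (p (nat_lit 0x41) (nat_lit 0) (p (nat_lit 0x10a098b090a9a) (nat_lit 0) (p (nat_lit 0x9890a888a1a) (nat_lit 0) (p (nat_lit 0x109088a08079a) (nat_lit 0) (p (nat_lit 0x8880987871a) (nat_lit 0) (p (nat_lit 0x8000000000800080907088a) (nat_lit 0) (p (nat_lit 0x8000000000800078886860a) (nat_lit 0) (p (nat_lit 0x10688060782) (nat_lit 0) (p (nat_lit 0x607858702)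 (nat_lit 0) (p (nat_lit 0x10587050482) (nat_lit 0) (p (nat_lit 0x506848402) (nat_lit 0) (p (nat_lit 0x16000c) (nat_lit 0) (p (nat_lit 0x50612) (nat_lit 0) (p (nat_lit 0x40592) (nat_lit 0) (p (nat_lit 0x40492) (nat_lit 0) (p (nat_lit 0x30412) (nat_lit 0) (p (nat_lit 0x30212) (nat_lit 0) (p (nat_lit 0x20192) (nat_lit 0) (p (nat_lit 0x20092) (nat_lit 0) (p (nat_lit 0x10012) (nat_lit 0) pn)))))))))))))))))))))))))))))))) :=
  Cl.node (nat_lit 0x100004) (nat_lit 2) (by decide +kernel) (ClAll.succ (ClAll.succ ClAll.zero n75) s24)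

def n100 : Cl (O (nat_lit 5)) (R (nat_lit 104465))
    (p (nat_lit 0x1fc014) (nat_lit 0) (p (nat_lit 0x1fc004) (nat_lit 0) (p (nat_lit 0xb000c) (nat_lit 1) (p (nat_lit 0x380c2) (nat_lit 0) (p (nat_lit 0x444aa) (nat_lit 7) (p (nat_lit 0x111) (nat_lit 0) (p (nat_lit 0xc9) (nat_lit 1) (p (nat_lit 0x81) (nat_lit 0) (p (nat_lit 0x101) (nat_lit 1) (p (nat_lit 0x119) (nat_lit 0) (p (nat_lit 0xd1) (nat_lit 0) (p (nat_lit 0x89) (nat_lit 0) (p (nat_lit 0x41) (nat_lit 0) (p (nat_lit 0x10a098b090a9a) (nat_lit 0) (p (nat_lit 0x9890a888a1a) (nat_lit 0) (p (nat_lit 0x109088a08079a) (nat_lit 0) (p (nat_lit 0x8880987871a) (nat_lit 0) (p (nat_lit 0x8000000000800080907088a) (nat_lit 0) (p (nat_lit 0x8000000000800078886860a) (nat_lit 0) (p (nat_lit 0x10688060782) (nat_lit 0) (p (nat_lit 0x607858702) (nat_lit 0) (p (nat_lit 0x10587050482) (nat_lit 0) (p (nat_lit 0x506848402) (nat_lit 0) (p (nat_lit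 0x16000c) (nat_lit 0) (p (nat_lit 0x50612) (nat_lit 0) (p (nat_lit 0x40592) (nat_lit 0) (p (nat_lit 0x40492) (nat_lit 0) (p (nat_lit 0x30412) (nat_lit 0) (p (nat_lit 0x30212) (nat_lit 0) (p (nat_lit 0x20192) (nat_lit 0) (p (nat_lit 0x20092) (nat_lit 0) (p (nat_lit 0x10012) (nat_lit 0) pn)))))))))))))))))))))))))))))))) :=
  Cl.node (nat_lit 0x100004) (nat_lit 2) (by decide +kernel) (ClAll.succ (ClAll.succ ClAll.zero n76) s58)

def n101 : Cl (O (nat_lit 5)) (R (nat_lit 104465))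
    (p (nat_lit 0x1fc014) (nat_lit 0) (p (nat_lit 0x1fc004) (nat_lit 0) (p (nat_lit 0xb000c) (nat_lit 1) (p (nat_lit 0x380c2) (nat_lit 1) (p (nat_lit 0x444aa) (nat_lit 7) (p (nat_lit 0x111) (nat_lit 0) (p (nat_lit 0xc9) (nat_lit 1) (p (nat_lit 0x81) (nat_lit 0) (p (nat_lit 0x101) (nat_lit 1) (p (nat_lit 0x119) (nat_lit 0) (p (nat_lit 0xd1) (nat_lit 0) (p (nat_lit 0x89) (nat_lit 0) (p (nat_lit 0x41) (nat_lit 0) (p (nat_lit 0x10a098b090a9a) (nat_lit 0) (p (nat_lit 0x9890a888a1a) (nat_lit 0) (p (nat_lit 0x109088a08079a) (nat_lit 0) (p (nat_lit 0x8880987871a) (nat_lit 0) (p (nat_lit 0x8000000000800080907088a) (nat_lit 0) (p (nat_lit 0x8000000000800078886860a) (nat_lit 0) (p (nat_lit 0x10688060782) (nat_lit 0) (p (nat_lit 0x607858702) (nat_lit 0) (p (nat_lit 0x10587050482) (nat_lit 0) (p (nat_lit 0x506848402) (nat_lit 0) (p (nat_lit 0x16000c) (nat_lit 0) (p (nat_lit 0x50612) (nat_lit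 0) (p (nat_lit 0x40592) (nat_lit 0) (p (nat_lit 0x40492) (nat_lit 0) (p (nat_lit 0x30412) (nat_lit 0) (p (nat_lit 0x30212) (nat_lit 0) (p (nat_lit 0x20192) (nat_lit 0) (p (nat_lit 0x20092) (nat_lit 0) (p (nat_lit 0x10012) (nat_lit 0) pn)))))))))))))))))))))))))))))))) :=
  Cl.node (nat_lit 0x100014) (nat_lit 2) (by decide +kernel) (ClAll.succ (ClAll.succ ClAll.zero n77) s76)

def n102 : Cl (O (nat_lit 5)) (R (nat_lit 104465))
    (p (nat_lit 0x200004) (nat_lit 0) (p (nat_lit 0x100014) (nat_lit 0) (p (nat_lit 0x200014) (nat_lit 0) (p (nat_lit 0x380c2) (nat_lit 0) (p (nat_lit 0x3cc2a) (nat_lit 2) (p (nat_lit 0x111) (nat_lit 1) (p (nat_lit 0xc9) (nat_lit 1) (p (nat_lit 0x81) (nat_lit 0) (p (nat_lit 0x101) (nat_lit 1) (p (nat_lit 0x119) (nat_lit 0) (p (nat_lit 0xd1) (nat_lit 0) (p (nat_lit 0x89) (nat_lit 0) (p (nat_lit 0x41) (nat_lit 0) (p (nat_lit 0x10a098b090a9a) (nat_lit 0) (p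 (nat_lit 0x9890a888a1a) (nat_lit 0) (p (nat_lit 0x109088a08079a) (nat_lit 0) (p (nat_lit 0x8880987871a) (nat_lit 0) (p (nat_lit 0x8000000000800080907088a) (nat_lit 0) (p (nat_lit 0x8000000000800078886860a) (nat_lit 0) (p (nat_lit 0x10688060782) (nat_lit 0) (p (nat_lit 0x607858702) (nat_lit 0) (p (nat_lit 0x10587050482) (nat_lit 0) (p (nat_lit 0x506848402) (nat_lit 0) (p (nat_lit 0x16000c) (nat_lit 0) (p (nat_lit 0x50612) (nat_lit 0) (p (nat_lit 0x40592) (nat_lit 0) (p (nat_lit 0x40492) (nat_lit 0) (p (nat_lit 0x30412) (nat_lit 0) (p (nat_lit 0x30212) (nat_lit 0) (p (nat_lit 0x20192) (nat_lit 0) (p (nat_lit 0x20092) (nat_lit 0) (p (nat_lit 0x10012) (nat_lit 0) pn)))))))))))))))))))))))))))))))) :=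
  Cl.node (nat_lit 0x100004) (nat_lit 2) (by decide +kernel) (ClAll.succ (ClAll.succ ClAll.zero n78) s89)

def n103 : Cl (O (nat_lit 5)) (R (nat_lit 104465))
    (p (nat_lit 0x1fc004) (nat_lit 0) (p (nat_lit 0xb000c) (nat_lit 1) (p (nat_lit 0x200014) (nat_lit 0) (p (nat_lit 0x101) (nat_lit 0) (p (nat_lit 0x380c2) (nat_lit 0) (p (nat_lit 0x3cc2a) (nat_lit 2) (p (nat_lit 0x109) (nat_lit 1) (p (nat_lit 0xc9) (nat_lit 1) (p (nat_lit 0xc1) (nat_lit 0) (p (nat_lit 0x119) (nat_lit 1) (p (nat_lit 0xd1) (nat_lit 0) (p (nat_lit 0x89) (nat_lit 0) (p (nat_lit 0x41) (nat_lit 0) (p (nat_lit 0x10a098b090a9a) (nat_lit 0) (p (nat_lit 0x9890a888a1a) (nat_lit 0) (p (nat_lit 0x109088a08079a) (nat_lit 0) (p (nat_lit 0x8880987871a) (nat_lit 0) (p (nat_lit 0x8000000000800080907088a) (nat_lit 0) (p (nat_lit 0x8000000000800078886860a) (nat_lit 0) (p (nat_lit 0x10688060782) (nat_lit 0) (p (nat_lit 0x607858702)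 (nat_lit 0) (p (nat_lit 0x10587050482) (nat_lit 0) (p (nat_lit 0x506848402) (nat_lit 0) (p (nat_lit 0x16000c) (nat_lit 0) (p (nat_lit 0x50612) (nat_lit 0) (p (nat_lit 0x40592) (nat_lit 0) (p (nat_lit 0x40492) (nat_lit 0) (p (nat_lit 0x30412) (nat_lit 0) (p (nat_lit 0x30212) (nat_lit 0) (p (nat_lit 0x20192) (nat_lit 0) (p (nat_lit 0x20092) (nat_lit 0) (p (nat_lit 0x10012) (nat_lit 0) pn)))))))))))))))))))))))))))))))) :=
  Cl.node (nat_lit 0x10800c) (nat_lit 2) (by decide +kernel) (ClAll.succ (ClAll.succ ClAll.zero n79) s140)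

def n104 : Cl (O (nat_lit 5)) (R (nat_lit 104465))
    (p (nat_lit 0xb000c) (nat_lit 1) (p (nat_lit 0x200014) (nat_lit 0) (p (nat_lit 0x41) (nat_lit 0) (p (nat_lit 0x101) (nat_lit 1) (p (nat_lit 0x380c2) (nat_lit 0) (p (nat_lit 0x3cc2a) (nat_lit 2) (p (nat_lit 0x109) (nat_lit 1) (p (nat_lit 0xc9) (nat_lit 1) (p (nat_lit 0xc1) (nat_lit 0) (p (nat_lit 0x119) (nat_lit 1) (p (nat_lit 0xd1) (nat_lit 0) (p (nat_lit 0x89) (nat_lit 0) (p (nat_lit 0x41) (nat_lit 0) (p (nat_lit 0x10a098b090a9a) (nat_lit 0) (p (nat_lit 0x9890a888a1a) (nat_lit 0) (p (nat_lit 0x109088a08079a) (nat_lit 0) (p (nat_lit 0x8880987871a) (nat_lit 0) (p (nat_lit 0x8000000000800080907088a) (nat_lit 0) (p (nat_lit 0x8000000000800078886860a) (nat_lit 0) (p (nat_lit 0x10688060782) (nat_lit 0) (p (nat_lit 0x607858702) (nat_lit 0) (p (nat_lit 0x10587050482) (nat_lit 0) (p (nat_lit 0x506848402) (nat_lit 0) (p (nat_lit 0x16000c)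 (nat_lit 0) (p (nat_lit 0x50612) (nat_lit 0) (p (nat_lit 0x40592) (nat_lit 0) (p (nat_lit 0x40492) (nat_lit 0) (p (nat_lit 0x30412) (nat_lit 0) (p (nat_lit 0x30212) (nat_lit 0) (p (nat_lit 0x20192) (nat_lit 0) (p (nat_lit 0x20092) (nat_lit 0) (p (nat_lit 0x10012) (nat_lit 0) pn)))))))))))))))))))))))))))))))) :=
  Cl.node (nat_lit 0x1fc004) (nat_lit 2) (by decide +kernel) (ClAll.succ (ClAll.succ ClAll.zero n80) s146)

def n105 : Cl (O (nat_lit 5)) (R (nat_lit 104465))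
    (p (nat_lit 0x200004) (nat_lit 0) (p (nat_lit 0x100014) (nat_lit 0) (p (nat_lit 0x200014) (nat_lit 0) (p (nat_lit 0xc9) (nat_lit 1) (p (nat_lit 0x380c2) (nat_lit 0) (p (nat_lit 0x3cc2a) (nat_lit 2) (p (nat_lit 0x109) (nat_lit 1) (p (nat_lit 0x81) (nat_lit 0) (p (nat_lit 0xc1) (nat_lit 1) (p (nat_lit 0x119) (nat_lit 1) (p (nat_lit 0xd1) (nat_lit 0) (p (nat_lit 0x89) (nat_lit 0) (p (nat_lit 0x41) (nat_lit 0) (p (nat_lit 0x10a098b090a9a) (nat_lit 0) (p (nat_lit 0x9890a888a1a) (nat_lit 0) (p (nat_lit 0x109088a08079a) (nat_lit 0) (p (nat_lit 0x8880987871a) (nat_lit 0) (p (nat_lit 0x8000000000800080907088a) (nat_lit 0) (p (nat_lit 0x8000000000800078886860a) (nat_lit 0) (p (nat_lit 0x10688060782) (nat_lit 0) (p (nat_lit 0x607858702) (nat_lit 0) (p (nat_lit 0x10587050482) (nat_lit 0) (p (nat_lit 0x506848402) (nat_lit 0) (p (nat_lit 0x16000c) (nat_lit 0) (p (nat_lit 0x50612) (nat_lit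 0) (p (nat_lit 0x40592) (nat_lit 0) (p (nat_lit 0x40492) (nat_lit 0) (p (nat_lit 0x30412) (nat_lit 0) (p (nat_lit 0x30212) (nat_lit 0) (p (nat_lit 0x20192) (nat_lit 0) (p (nat_lit 0x20092) (nat_lit 0) (p (nat_lit 0x10012) (nat_lit 0) pn)))))))))))))))))))))))))))))))) :=
  Cl.node (nat_lit 0x100004) (nat_lit 2) (by decide +kernel) (ClAll.succ (ClAll.succ ClAll.zero n81) s166)

def n106 : Cl (O (nat_lit 5)) (R (nat_lit 104465))
    (p (nat_lit 0x380c2) (nat_lit 1) (p (nat_lit 0x444aa) (nat_lit 7) (p (nat_lit 0x101) (nat_lit 1) (p (nat_lit 0x380c2) (nat_lit 0) (p (nat_lit 0x44c2a) (nat_lit 0) (p (nat_lit 0x109) (nat_lit 0) (p (nat_lit 0x101) (nat_lit 0) (p (nat_lit 0x81) (nat_lit 1) (p (nat_lit 0xc1) (nat_lit 1) (p (nat_lit 0x119) (nat_lit 1) (p (nat_lit 0xd1) (nat_lit 0) (p (nat_lit 0x89) (nat_lit 0) (p (nat_lit 0x41) (nat_lit 0) (p (nat_lit 0x10a098b090a9a) (nat_lit 0) (p (nat_lit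 0x9890a888a1a) (nat_lit 0) (p (nat_lit 0x109088a08079a) (nat_lit 0) (p (nat_lit 0x8880987871a) (nat_lit 0) (p (nat_lit 0x8000000000800080907088a) (nat_lit 0) (p (nat_lit 0x8000000000800078886860a) (nat_lit 0) (p (nat_lit 0x10688060782) (nat_lit 0) (p (nat_lit 0x607858702) (nat_lit 0) (p (nat_lit 0x10587050482) (nat_lit 0) (p (nat_lit 0x506848402) (nat_lit 0) (p (nat_lit 0x16000c) (nat_lit 0) (p (nat_lit 0x50612) (nat_lit 0) (p (nat_lit 0x40592) (nat_lit 0) (p (nat_lit 0x40492) (nat_lit 0) (p (nat_lit 0x30412) (nat_lit 0) (p (nat_lit 0x30212) (nat_lit 0) (p (nat_lit 0x20192) (nat_lit 0) (p (nat_lit 0x20092) (nat_lit 0) (p (nat_lit 0x10012) (nat_lit 0) pn)))))))))))))))))))))))))))))))) :=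
  Cl.node (nat_lit 0xb000c) (nat_lit 2) (by decide +kernel) (ClAll.succ (ClAll.succ ClAll.zero s188) s189)

def n107 : Cl (O (nat_lit 5)) (R (nat_lit 104465))
    (p (nat_lit 0x100004) (nat_lit 0) (p (nat_lit 0x200004) (nat_lit 0) (p (nat_lit 0xb000c) (nat_lit 0) (p (nat_lit 0x380c2) (nat_lit 0) (p (nat_lit 0x444aa) (nat_lit 7) (p (nat_lit 0x109) (nat_lit 1) (p (nat_lit 0x101) (nat_lit 0) (p (nat_lit 0x81) (nat_lit 1) (p (nat_lit 0xc1) (nat_lit 1) (p (nat_lit 0x119) (nat_lit 1) (p (nat_lit 0xd1) (nat_lit 0) (p (nat_lit 0x89) (nat_lit 0) (p (nat_lit 0x41) (nat_lit 0) (p (nat_lit 0x10a098b090a9a) (nat_lit 0) (p (nat_lit 0x9890a888a1a) (nat_lit 0) (p (nat_lit 0x109088a08079a) (nat_lit 0) (p (nat_lit 0x8880987871a) (nat_lit 0) (p (nat_lit 0x8000000000800080907088a) (nat_lit 0) (p (nat_lit 0x8000000000800078886860a) (nat_lit 0) (p (nat_lit 0x10688060782) (nat_lit 0) (p (nat_lit 0x607858702)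 (nat_lit 0) (p (nat_lit 0x10587050482) (nat_lit 0) (p (nat_lit 0x506848402) (nat_lit 0) (p (nat_lit 0x16000c) (nat_lit 0) (p (nat_lit 0x50612) (nat_lit 0) (p (nat_lit 0x40592) (nat_lit 0) (p (nat_lit 0x40492) (nat_lit 0) (p (nat_lit 0x30412) (nat_lit 0) (p (nat_lit 0x30212) (nat_lit 0) (p (nat_lit 0x20192) (nat_lit 0) (p (nat_lit 0x20092) (nat_lit 0) (p (nat_lit 0x10012) (nat_lit 0) pn)))))))))))))))))))))))))))))))) :=
  Cl.node (nat_lit 0x119) (nat_lit 2) (by decide +kernel) (ClAll.succ (ClAll.succ ClAll.zero s212) s213)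

def n108 : Cl (O (nat_lit 5)) (R (nat_lit 104465))
    (p (nat_lit 0x100004) (nat_lit 0) (p (nat_lit 0x200004) (nat_lit 0) (p (nat_lit 0xb000c) (nat_lit 0) (p (nat_lit 0x380c2) (nat_lit 1) (p (nat_lit 0x444aa) (nat_lit 7) (p (nat_lit 0x109) (nat_lit 1) (p (nat_lit 0x101) (nat_lit 0) (p (nat_lit 0x81) (nat_lit 1) (p (nat_lit 0xc1) (nat_lit 1) (p (nat_lit 0x119) (nat_lit 1) (p (nat_lit 0xd1) (nat_lit 0) (p (nat_lit 0x89) (nat_lit 0) (p (nat_lit 0x41) (nat_lit 0) (p (nat_lit 0x10a098b090a9a) (nat_lit 0) (p (nat_lit 0x9890a888a1a) (nat_lit 0) (p (nat_lit 0x109088a08079a) (nat_lit 0) (p (nat_lit 0x8880987871a) (nat_lit 0) (p (nat_lit 0x8000000000800080907088a) (nat_lit 0) (p (nat_lit 0x8000000000800078886860a) (nat_lit 0) (p (nat_lit 0x10688060782) (nat_lit 0) (p (nat_lit 0x607858702) (nat_lit 0) (p (nat_lit 0x10587050482) (nat_lit 0) (p (nat_lit 0x506848402) (nat_lit 0) (p (nat_lit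 0x16000c) (nat_lit 0) (p (nat_lit 0x50612) (nat_lit 0) (p (nat_lit 0x40592) (nat_lit 0) (p (nat_lit 0x40492) (nat_lit 0) (p (nat_lit 0x30412) (nat_lit 0) (p (nat_lit 0x30212) (nat_lit 0) (p (nat_lit 0x20192) (nat_lit 0) (p (nat_lit 0x20092) (nat_lit 0) (p (nat_lit 0x10012) (nat_lit 0) pn)))))))))))))))))))))))))))))))) :=
  Cl.node (nat_lit 0x119) (nat_lit 2) (by decide +kernel) (ClAll.succ (ClAll.succ ClAll.zero n82) s219)

def n109 : Cl (O (nat_lit 5)) (R (nat_lit 104465))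
    (p (nat_lit 0x81) (nat_lit 1) (p (nat_lit 0x380c2) (nat_lit 0) (p (nat_lit 0x3cc2a) (nat_lit 1) (p (nat_lit 0x109) (nat_lit 1) (p (nat_lit 0x200014) (nat_lit 0) (p (nat_lit 0x200004) (nat_lit 0) (p (nat_lit 0x119) (nat_lit 0) (p (nat_lit 0x81) (nat_lit 0) (p (nat_lit 0x101) (nat_lit 1) (p (nat_lit 0x111) (nat_lit 0) (p (nat_lit 0xd1) (nat_lit 1) (p (nat_lit 0x89) (nat_lit 0) (p (nat_lit 0x41) (nat_lit 0) (p (nat_lit 0x10a098b090a9a) (nat_lit 0) (p (nat_lit 0x9890a888a1a) (nat_lit 0) (p (nat_lit 0x109088a08079a) (nat_lit 0) (p (nat_lit 0x8880987871a) (nat_lit 0) (p (nat_lit 0x8000000000800080907088a) (nat_lit 0) (p (nat_lit 0x8000000000800078886860a) (nat_lit 0) (p (nat_lit 0x10688060782) (nat_lit 0) (p (nat_lit 0x607858702) (nat_lit 0) (p (nat_lit 0x10587050482) (nat_lit 0) (p (nat_lit 0x506848402) (nat_lit 0) (p (nat_lit 0x16000c) (nat_lit 0) (p (nat_lit 0x50612) (nat_lit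 0) (p (nat_lit 0x40592) (nat_lit 0) (p (nat_lit 0x40492) (nat_lit 0) (p (nat_lit 0x30412) (nat_lit 0) (p (nat_lit 0x30212) (nat_lit 0) (p (nat_lit 0x20192) (nat_lit 0) (p (nat_lit 0x20092) (nat_lit 0) (p (nat_lit 0x10012) (nat_lit 0) pn)))))))))))))))))))))))))))))))) :=
  Cl.node (nat_lit 0xb000c) (nat_lit 2) (by decide +kernel) (ClAll.succ (ClAll.succ ClAll.zero s259) n83)

def n110 : Cl (O (nat_lit 5)) (R (nat_lit 104465))
    (p (nat_lit 0x4c42a) (nat_lit 10) (p (nat_lit 0xc9) (nat_lit 0) (p (nat_lit 0xb000c) (nat_lit 0) (p (nat_lit 0x380c2) (nat_lit 1) (p (nat_lit 0x444aa) (nat_lit 7) (p (nat_lit 0x119) (nat_lit 0) (p (nat_lit 0xc1) (nat_lit 0) (p (nat_lit 0x81) (nat_lit 1) (p (nat_lit 0x101) (nat_lit 1) (p (nat_lit 0x111) (nat_lit 0) (p (nat_lit 0xd1) (nat_lit 1) (p (nat_lit 0x89) (nat_lit 0) (p (nat_lit 0x41) (nat_lit 0) (p (nat_lit 0x10a098b090a9a) (nat_lit 0) (p (nat_lit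 0x9890a888a1a) (nat_lit 0) (p (nat_lit 0x109088a08079a) (nat_lit 0) (p (nat_lit 0x8880987871a) (nat_lit 0) (p (nat_lit 0x8000000000800080907088a) (nat_lit 0) (p (nat_lit 0x8000000000800078886860a) (nat_lit 0) (p (nat_lit 0x10688060782) (nat_lit 0) (p (nat_lit 0x607858702) (nat_lit 0) (p (nat_lit 0x10587050482) (nat_lit 0) (p (nat_lit 0x506848402) (nat_lit 0) (p (nat_lit 0x16000c) (nat_lit 0) (p (nat_lit 0x50612) (nat_lit 0) (p (nat_lit 0x40592) (nat_lit 0) (p (nat_lit 0x40492) (nat_lit 0) (p (nat_lit 0x30412) (nat_lit 0) (p (nat_lit 0x30212) (nat_lit 0) (p (nat_lit 0x20192) (nat_lit 0) (p (nat_lit 0x20092) (nat_lit 0) (p (nat_lit 0x10012) (nat_lit 0) pn)))))))))))))))))))))))))))))))) :=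
  Cl.node (nat_lit 0x380c2) (nat_lit 2) (by decide +kernel) (ClAll.succ (ClAll.succ ClAll.zero s308) s309)

def n111 : Cl (O (nat_lit 5)) (R (nat_lit 104465))
    (p (nat_lit 0x1fc014) (nat_lit 0) (p (nat_lit 0x1fc004) (nat_lit 0) (p (nat_lit 0xb000c) (nat_lit 1) (p (nat_lit 0x380c2) (nat_lit 1) (p (nat_lit 0x444aa) (nat_lit 7) (p (nat_lit 0x119) (nat_lit 0) (p (nat_lit 0xc1) (nat_lit 0) (p (nat_lit 0x81) (nat_lit 1) (p (nat_lit 0x101) (nat_lit 1) (p (nat_lit 0x111) (nat_lit 0) (p (nat_lit 0xd1) (nat_lit 1) (p (nat_lit 0x89) (nat_lit 0) (p (nat_lit 0x41) (nat_lit 0) (p (nat_lit 0x10a098b090a9a) (nat_lit 0) (p (nat_lit 0x9890a888a1a) (nat_lit 0) (p (nat_lit 0x109088a08079a) (nat_lit 0) (p (nat_lit 0x8880987871a) (nat_lit 0) (p (nat_lit 0x8000000000800080907088a) (nat_lit 0) (p (nat_lit 0x8000000000800078886860a) (nat_lit 0) (p (nat_lit 0x10688060782) (nat_lit 0) (p (nat_lit 0x607858702)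 (nat_lit 0) (p (nat_lit 0x10587050482) (nat_lit 0) (p (nat_lit 0x506848402) (nat_lit 0) (p (nat_lit 0x16000c) (nat_lit 0) (p (nat_lit 0x50612) (nat_lit 0) (p (nat_lit 0x40592) (nat_lit 0) (p (nat_lit 0x40492) (nat_lit 0) (p (nat_lit 0x30412) (nat_lit 0) (p (nat_lit 0x30212) (nat_lit 0) (p (nat_lit 0x20192) (nat_lit 0) (p (nat_lit 0x20092) (nat_lit 0) (p (nat_lit 0x10012) (nat_lit 0) pn)))))))))))))))))))))))))))))))) :=
  Cl.node (nat_lit 0x119) (nat_lit 2) (by decide +kernel) (ClAll.succ (ClAll.succ ClAll.zero s312) n84)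

def n112 : Cl (O (nat_lit 5)) (R (nat_lit 104465))
    (p (nat_lit 0x444aa) (nat_lit 7) (p (nat_lit 0xd1) (nat_lit 1) (p (nat_lit 0x200014) (nat_lit 0) (p (nat_lit 0x380c2) (nat_lit 0) (p (nat_lit 0x3cc2a) (nat_lit 2) (p (nat_lit 0x119) (nat_lit 1) (p (nat_lit 0xc1) (nat_lit 0) (p (nat_lit 0x81) (nat_lit 1) (p (nat_lit 0x101) (nat_lit 1) (p (nat_lit 0x111) (nat_lit 0) (p (nat_lit 0xd1) (nat_lit 1) (p (nat_lit 0x89) (nat_lit 0) (p (nat_lit 0x41) (nat_lit 0) (p (nat_lit 0x10a098b090a9a) (nat_lit 0) (p (nat_lit 0x9890a888a1a) (nat_lit 0) (p (nat_lit 0x109088a08079a) (nat_lit 0) (p (nat_lit 0x8880987871a) (nat_lit 0) (p (nat_lit 0x8000000000800080907088a) (nat_lit 0) (p (nat_lit 0x8000000000800078886860a) (nat_lit 0) (p (nat_lit 0x10688060782) (nat_lit 0) (p (nat_lit 0x607858702) (nat_lit 0) (p (nat_lit 0x10587050482) (nat_lit 0) (p (nat_lit 0x506848402) (nat_lit 0) (p (nat_lit 0x16000c)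 (nat_lit 0) (p (nat_lit 0x50612) (nat_lit 0) (p (nat_lit 0x40592) (nat_lit 0) (p (nat_lit 0x40492) (nat_lit 0) (p (nat_lit 0x30412) (nat_lit 0) (p (nat_lit 0x30212) (nat_lit 0) (p (nat_lit 0x20192) (nat_lit 0) (p (nat_lit 0x20092) (nat_lit 0) (p (nat_lit 0x10012) (nat_lit 0) pn)))))))))))))))))))))))))))))))) :=
  Cl.node (nat_lit 0x380c2) (nat_lit 2) (by decide +kernel) (ClAll.succ (ClAll.succ ClAll.zero s332) n85)

def n113 : Cl (O (nat_lit 5)) (R (nat_lit 104465))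
    (p (nat_lit 0x100004) (nat_lit 0) (p (nat_lit 0x200004) (nat_lit 0) (p (nat_lit 0xb000c) (nat_lit 0) (p (nat_lit 0x380c2) (nat_lit 0) (p (nat_lit 0x444aa) (nat_lit 7) (p (nat_lit 0xd1) (nat_lit 1) (p (nat_lit 0x111) (nat_lit 1) (p (nat_lit 0x109) (nat_lit 0) (p (nat_lit 0x101) (nat_lit 0) (p (nat_lit 0x119) (nat_lit 0) (p (nat_lit 0xc9) (nat_lit 0) (p (nat_lit 0x89) (nat_lit 1) (p (nat_lit 0x41) (nat_lit 0) (p (nat_lit 0x10a098b090a9a) (nat_lit 0) (p (nat_lit 0x9890a888a1a) (nat_lit 0) (p (nat_lit 0x109088a08079a) (nat_lit 0) (p (nat_lit 0x8880987871a) (nat_lit 0) (p (nat_lit 0x8000000000800080907088a) (nat_lit 0) (p (nat_lit 0x8000000000800078886860a) (nat_lit 0) (p (nat_lit 0x10688060782) (nat_lit 0) (p (nat_lit 0x607858702) (nat_lit 0) (p (nat_lit 0x10587050482) (nat_lit 0) (p (nat_lit 0x506848402) (nat_lit 0) (p (nat_lit 0x16000c) (nat_lit 0) (p (nat_lit 0x50612) (nat_lit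 0) (p (nat_lit 0x40592) (nat_lit 0) (p (nat_lit 0x40492) (nat_lit 0) (p (nat_lit 0x30412) (nat_lit 0) (p (nat_lit 0x30212) (nat_lit 0) (p (nat_lit 0x20192) (nat_lit 0) (p (nat_lit 0x20092) (nat_lit 0) (p (nat_lit 0x10012) (nat_lit 0) pn)))))))))))))))))))))))))))))))) :=
  Cl.node (nat_lit 0xc1) (nat_lit 2) (by decide +kernel) (ClAll.succ (ClAll.succ ClAll.zero n86) s380)

def n114 : Cl (O (nat_lit 5)) (R (nat_lit 104465))
    (p (nat_lit 0x1fc014) (nat_lit 0) (p (nat_lit 0x1fc004) (nat_lit 0) (p (nat_lit 0xb000c) (nat_lit 1) (p (nat_lit 0x380c2) (nat_lit 0) (p (nat_lit 0x444aa) (nat_lit 7) (p (nat_lit 0xd1) (nat_lit 1) (p (nat_lit 0x111) (nat_lit 1) (p (nat_lit 0x109) (nat_lit 0) (p (nat_lit 0x101) (nat_lit 0) (p (nat_lit 0x119) (nat_lit 0) (p (nat_lit 0xc9) (nat_lit 0) (p (nat_lit 0x89) (nat_lit 1) (p (nat_lit 0x41) (nat_lit 0) (p (nat_lit 0x10a098b090a9a) (nat_lit 0) (p (nat_lit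 0x9890a888a1a) (nat_lit 0) (p (nat_lit 0x109088a08079a) (nat_lit 0) (p (nat_lit 0x8880987871a) (nat_lit 0) (p (nat_lit 0x8000000000800080907088a) (nat_lit 0) (p (nat_lit 0x8000000000800078886860a) (nat_lit 0) (p (nat_lit 0x10688060782) (nat_lit 0) (p (nat_lit 0x607858702) (nat_lit 0) (p (nat_lit 0x10587050482) (nat_lit 0) (p (nat_lit 0x506848402) (nat_lit 0) (p (nat_lit 0x16000c) (nat_lit 0) (p (nat_lit 0x50612) (nat_lit 0) (p (nat_lit 0x40592) (nat_lit 0) (p (nat_lit 0x40492) (nat_lit 0) (p (nat_lit 0x30412) (nat_lit 0) (p (nat_lit 0x30212) (nat_lit 0) (p (nat_lit 0x20192) (nat_lit 0) (p (nat_lit 0x20092) (nat_lit 0) (p (nat_lit 0x10012) (nat_lit 0) pn)))))))))))))))))))))))))))))))) :=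
  Cl.node (nat_lit 0x100004) (nat_lit 2) (by decide +kernel) (ClAll.succ (ClAll.succ ClAll.zero n87) s388)

def n115 : Cl (O (nat_lit 5)) (R (nat_lit 104465))
    (p (nat_lit 0x100004) (nat_lit 0) (p (nat_lit 0x200004) (nat_lit 0) (p (nat_lit 0xb000c) (nat_lit 0) (p (nat_lit 0x380c2) (nat_lit 1) (p (nat_lit 0x444aa) (nat_lit 7) (p (nat_lit 0xd1) (nat_lit 1) (p (nat_lit 0x111) (nat_lit 1) (p (nat_lit 0x109) (nat_lit 0) (p (nat_lit 0x101) (nat_lit 0) (p (nat_lit 0x119) (nat_lit 0) (p (nat_lit 0xc9) (nat_lit 0) (p (nat_lit 0x89) (nat_lit 1) (p (nat_lit 0x41) (nat_lit 0) (p (nat_lit 0x10a098b090a9a) (nat_lit 0) (p (nat_lit 0x9890a888a1a) (nat_lit 0) (p (nat_lit 0x109088a08079a) (nat_lit 0) (p (nat_lit 0x8880987871a) (nat_lit 0) (p (nat_lit 0x8000000000800080907088a) (nat_lit 0) (p (nat_lit 0x8000000000800078886860a) (nat_lit 0) (p (nat_lit 0x10688060782) (nat_lit 0) (p (nat_lit 0x607858702)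 (nat_lit 0) (p (nat_lit 0x10587050482) (nat_lit 0) (p (nat_lit 0x506848402) (nat_lit 0) (p (nat_lit 0x16000c) (nat_lit 0) (p (nat_lit 0x50612) (nat_lit 0) (p (nat_lit 0x40592) (nat_lit 0) (p (nat_lit 0x40492) (nat_lit 0) (p (nat_lit 0x30412) (nat_lit 0) (p (nat_lit 0x30212) (nat_lit 0) (p (nat_lit 0x20192) (nat_lit 0) (p (nat_lit 0x20092) (nat_lit 0) (p (nat_lit 0x10012) (nat_lit 0) pn)))))))))))))))))))))))))))))))) :=
  Cl.node (nat_lit 0xc1) (nat_lit 2) (by decide +kernel) (ClAll.succ (ClAll.succ ClAll.zero n88) s393)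

def n116 : Cl (O (nat_lit 5)) (R (nat_lit 104465))
    (p (nat_lit 0x1fc014) (nat_lit 0) (p (nat_lit 0x1fc004) (nat_lit 0) (p (nat_lit 0xb000c) (nat_lit 1) (p (nat_lit 0x380c2) (nat_lit 1) (p (nat_lit 0x444aa) (nat_lit 7) (p (nat_lit 0xd1) (nat_lit 1) (p (nat_lit 0x111) (nat_lit 1) (p (nat_lit 0x109) (nat_lit 0) (p (nat_lit 0x101) (nat_lit 0) (p (nat_lit 0x119) (nat_lit 0) (p (nat_lit 0xc9) (nat_lit 0) (p (nat_lit 0x89) (nat_lit 1) (p (nat_lit 0x41) (nat_lit 0) (p (nat_lit 0x10a098b090a9a) (nat_lit 0) (p (nat_lit 0x9890a888a1a) (nat_lit 0) (p (nat_lit 0x109088a08079a) (nat_lit 0) (p (nat_lit 0x8880987871a) (nat_lit 0) (p (nat_lit 0x8000000000800080907088a) (nat_lit 0) (p (nat_lit 0x8000000000800078886860a) (nat_lit 0) (p (nat_lit 0x10688060782) (nat_lit 0) (p (nat_lit 0x607858702) (nat_lit 0) (p (nat_lit 0x10587050482) (nat_lit 0) (p (nat_lit 0x506848402) (nat_lit 0) (p (nat_lit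 0x16000c) (nat_lit 0) (p (nat_lit 0x50612) (nat_lit 0) (p (nat_lit 0x40592) (nat_lit 0) (p (nat_lit 0x40492) (nat_lit 0) (p (nat_lit 0x30412) (nat_lit 0) (p (nat_lit 0x30212) (nat_lit 0) (p (nat_lit 0x20192) (nat_lit 0) (p (nat_lit 0x20092) (nat_lit 0) (p (nat_lit 0x10012) (nat_lit 0) pn)))))))))))))))))))))))))))))))) :=
  Cl.node (nat_lit 0x100004) (nat_lit 2) (by decide +kernel) (ClAll.succ (ClAll.succ ClAll.zero n89) s402)

def n117 : Cl (O (nat_lit 5)) (R (nat_lit 104465))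
    (p (nat_lit 0xb000c) (nat_lit 0) (p (nat_lit 0x380c2) (nat_lit 0) (p (nat_lit 0x44c2a) (nat_lit 0) (p (nat_lit 0x41) (nat_lit 0) (p (nat_lit 0x200014) (nat_lit 0) (p (nat_lit 0x200004) (nat_lit 0) (p (nat_lit 0xd1) (nat_lit 0) (p (nat_lit 0x109) (nat_lit 1) (p (nat_lit 0x101) (nat_lit 0) (p (nat_lit 0x119) (nat_lit 0) (p (nat_lit 0xc9) (nat_lit 0) (p (nat_lit 0x89) (nat_lit 1) (p (nat_lit 0x41) (nat_lit 0) (p (nat_lit 0x10a098b090a9a) (nat_lit 0) (p (nat_lit 0x9890a888a1a) (nat_lit 0) (p (nat_lit 0x109088a08079a) (nat_lit 0) (p (nat_lit 0x8880987871a) (nat_lit 0) (p (nat_lit 0x8000000000800080907088a) (nat_lit 0) (p (nat_lit 0x8000000000800078886860a) (nat_lit 0) (p (nat_lit 0x10688060782) (nat_lit 0) (p (nat_lit 0x607858702) (nat_lit 0) (p (nat_lit 0x10587050482) (nat_lit 0) (p (nat_lit 0x506848402) (nat_lit 0) (p (nat_lit 0x16000c) (nat_lit 0) (p (nat_lit 0x50612) (nat_lit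 0) (p (nat_lit 0x40592) (nat_lit 0) (p (nat_lit 0x40492) (nat_lit 0) (p (nat_lit 0x30412) (nat_lit 0) (p (nat_lit 0x30212) (nat_lit 0) (p (nat_lit 0x20192) (nat_lit 0) (p (nat_lit 0x20092) (nat_lit 0) (p (nat_lit 0x10012) (nat_lit 0) pn)))))))))))))))))))))))))))))))) :=
  Cl.node (nat_lit 0xc1) (nat_lit 2) (by decide +kernel) (ClAll.succ (ClAll.succ ClAll.zero s409) s410)

def n118 : Cl (O (nat_lit 5)) (R (nat_lit 104465))
    (p (nat_lit 0x100004) (nat_lit 0) (p (nat_lit 0xc1) (nat_lit 0) (p (nat_lit 0x200004) (nat_lit 0) (p (nat_lit 0xb000c) (nat_lit 0) (p (nat_lit 0x380c2) (nat_lit 0) (p (nat_lit 0x444aa) (nat_lit 7) (p (nat_lit 0xd1) (nat_lit 1) (p (nat_lit 0x109) (nat_lit 1) (p (nat_lit 0x101) (nat_lit 0) (p (nat_lit 0x119) (nat_lit 0) (p (nat_lit 0xc9) (nat_lit 0) (p (nat_lit 0x89) (nat_lit 1) (p (nat_lit 0x41) (nat_lit 0) (p (nat_lit 0x10a098b090a9a) (nat_lit 0) (p (nat_lit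 0x9890a888a1a) (nat_lit 0) (p (nat_lit 0x109088a08079a) (nat_lit 0) (p (nat_lit 0x8880987871a) (nat_lit 0) (p (nat_lit 0x8000000000800080907088a) (nat_lit 0) (p (nat_lit 0x8000000000800078886860a) (nat_lit 0) (p (nat_lit 0x10688060782) (nat_lit 0) (p (nat_lit 0x607858702) (nat_lit 0) (p (nat_lit 0x10587050482) (nat_lit 0) (p (nat_lit 0x506848402) (nat_lit 0) (p (nat_lit 0x16000c) (nat_lit 0) (p (nat_lit 0x50612) (nat_lit 0) (p (nat_lit 0x40592) (nat_lit 0) (p (nat_lit 0x40492) (nat_lit 0) (p (nat_lit 0x30412) (nat_lit 0) (p (nat_lit 0x30212) (nat_lit 0) (p (nat_lit 0x20192) (nat_lit 0) (p (nat_lit 0x20092) (nat_lit 0) (p (nat_lit 0x10012) (nat_lit 0) pn)))))))))))))))))))))))))))))))) :=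
  Cl.node (nat_lit 0x111) (nat_lit 2) (by decide +kernel) (ClAll.succ (ClAll.succ ClAll.zero n90) s438)

def n119 : Cl (O (nat_lit 5)) (R (nat_lit 104465))
    (p (nat_lit 0x100004) (nat_lit 0) (p (nat_lit 0xc1) (nat_lit 0) (p (nat_lit 0x200004) (nat_lit 0) (p (nat_lit 0xb000c) (nat_lit 0) (p (nat_lit 0x380c2) (nat_lit 1) (p (nat_lit 0x444aa) (nat_lit 7) (p (nat_lit 0xd1) (nat_lit 1) (p (nat_lit 0x109) (nat_lit 1) (p (nat_lit 0x101) (nat_lit 0) (p (nat_lit 0x119) (nat_lit 0) (p (nat_lit 0xc9) (nat_lit 0) (p (nat_lit 0x89) (nat_lit 1) (p (nat_lit 0x41) (nat_lit 0) (p (nat_lit 0x10a098b090a9a) (nat_lit 0) (p (nat_lit 0x9890a888a1a) (nat_lit 0) (p (nat_lit 0x109088a08079a) (nat_lit 0) (p (nat_lit 0x8880987871a) (nat_lit 0) (p (nat_lit 0x8000000000800080907088a) (nat_lit 0) (p (nat_lit 0x8000000000800078886860a) (nat_lit 0) (p (nat_lit 0x10688060782) (nat_lit 0) (p (nat_lit 0x607858702)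 (nat_lit 0) (p (nat_lit 0x10587050482) (nat_lit 0) (p (nat_lit 0x506848402) (nat_lit 0) (p (nat_lit 0x16000c) (nat_lit 0) (p (nat_lit 0x50612) (nat_lit 0) (p (nat_lit 0x40592) (nat_lit 0) (p (nat_lit 0x40492) (nat_lit 0) (p (nat_lit 0x30412) (nat_lit 0) (p (nat_lit 0x30212) (nat_lit 0) (p (nat_lit 0x20192) (nat_lit 0) (p (nat_lit 0x20092) (nat_lit 0) (p (nat_lit 0x10012) (nat_lit 0) pn)))))))))))))))))))))))))))))))) :=
  Cl.node (nat_lit 0xc9) (nat_lit 2) (by decide +kernel) (ClAll.succ (ClAll.succ ClAll.zero n91) s455)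

def n120 : Cl (O (nat_lit 5)) (R (nat_lit 104465))
    (p (nat_lit 0xb000c) (nat_lit 0) (p (nat_lit 0x380c2) (nat_lit 0) (p (nat_lit 0x44c2a) (nat_lit 0) (p (nat_lit 0x109) (nat_lit 1) (p (nat_lit 0x200014) (nat_lit 0) (p (nat_lit 0x200004) (nat_lit 0) (p (nat_lit 0xd1) (nat_lit 0) (p (nat_lit 0xc1) (nat_lit 0) (p (nat_lit 0x101) (nat_lit 1) (p (nat_lit 0x119) (nat_lit 0) (p (nat_lit 0xc9) (nat_lit 0) (p (nat_lit 0x89) (nat_lit 1) (p (nat_lit 0x41) (nat_lit 0) (p (nat_lit 0x10a098b090a9a) (nat_lit 0) (p (nat_lit 0x9890a888a1a) (nat_lit 0) (p (nat_lit 0x109088a08079a) (nat_lit 0) (p (nat_lit 0x8880987871a) (nat_lit 0) (p (nat_lit 0x8000000000800080907088a) (nat_lit 0) (p (nat_lit 0x8000000000800078886860a) (nat_lit 0) (p (nat_lit 0x10688060782) (nat_lit 0) (p (nat_lit 0x607858702) (nat_lit 0) (p (nat_lit 0x10587050482) (nat_lit 0) (p (nat_lit 0x506848402) (nat_lit 0) (p (nat_lit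 0x16000c) (nat_lit 0) (p (nat_lit 0x50612) (nat_lit 0) (p (nat_lit 0x40592) (nat_lit 0) (p (nat_lit 0x40492) (nat_lit 0) (p (nat_lit 0x30412) (nat_lit 0) (p (nat_lit 0x30212) (nat_lit 0) (p (nat_lit 0x20192) (nat_lit 0) (p (nat_lit 0x20092) (nat_lit 0) (p (nat_lit 0x10012) (nat_lit 0) pn)))))))))))))))))))))))))))))))) :=
  Cl.node (nat_lit 0x5800c) (nat_lit 2) (by decide +kernel) (ClAll.succ (ClAll.succ ClAll.zero s465) s466)

def n121 : Cl (O (nat_lit 5)) (R (nat_lit 104465))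
    (p (nat_lit 0x100004) (nat_lit 0) (p (nat_lit 0x200004) (nat_lit 0) (p (nat_lit 0x109) (nat_lit 0) (p (nat_lit 0xb000c) (nat_lit 0) (p (nat_lit 0x380c2) (nat_lit 1) (p (nat_lit 0x444aa) (nat_lit 7) (p (nat_lit 0x111) (nat_lit 1) (p (nat_lit 0x101) (nat_lit 0) (p (nat_lit 0xc1) (nat_lit 1) (p (nat_lit 0x119) (nat_lit 1) (p (nat_lit 0xc9) (nat_lit 0) (p (nat_lit 0x89) (nat_lit 1) (p (nat_lit 0x41) (nat_lit 0) (p (nat_lit 0x10a098b090a9a) (nat_lit 0) (p (nat_lit 0x9890a888a1a) (nat_lit 0) (p (nat_lit 0x109088a08079a) (nat_lit 0) (p (nat_lit 0x8880987871a) (nat_lit 0) (p (nat_lit 0x8000000000800080907088a) (nat_lit 0) (p (nat_lit 0x8000000000800078886860a) (nat_lit 0) (p (nat_lit 0x10688060782) (nat_lit 0) (p (nat_lit 0x607858702) (nat_lit 0) (p (nat_lit 0x10587050482) (nat_lit 0) (p (nat_lit 0x506848402) (nat_lit 0) (p (nat_lit 0x16000c) (nat_lit 0) (p (nat_lit 0x50612) (nat_lit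 0) (p (nat_lit 0x40592) (nat_lit 0) (p (nat_lit 0x40492) (nat_lit 0) (p (nat_lit 0x30412) (nat_lit 0) (p (nat_lit 0x30212) (nat_lit 0) (p (nat_lit 0x20192) (nat_lit 0) (p (nat_lit 0x20092) (nat_lit 0) (p (nat_lit 0x10012) (nat_lit 0) pn)))))))))))))))))))))))))))))))) :=
  Cl.node (nat_lit 0x119) (nat_lit 2) (by decide +kernel) (ClAll.succ (ClAll.succ ClAll.zero n92) s545)

def n122 : Cl (O (nat_lit 5)) (R (nat_lit 104465))
    (p (nat_lit 0x100014) (nat_lit 0) (p (nat_lit 0x200014) (nat_lit 0) (p (nat_lit 0x200004) (nat_lit 0) (p (nat_lit 0x380c2) (nat_lit 0) (p (nat_lit 0x3cc2a) (nat_lit 2) (p (nat_lit 0x111) (nat_lit 1) (p (nat_lit 0x89) (nat_lit 0) (p (nat_lit 0x109) (nat_lit 1) (p (nat_lit 0x101) (nat_lit 0) (p (nat_lit 0x119) (nat_lit 0) (p (nat_lit 0xd1) (nat_lit 0) (p (nat_lit 0x81) (nat_lit 0) (p (nat_lit 0x41) (nat_lit 1) (p (nat_lit 0x10a098b090a9a) (nat_lit 0) (p (nat_lit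 0x9890a888a1a) (nat_lit 0) (p (nat_lit 0x109088a08079a) (nat_lit 0) (p (nat_lit 0x8880987871a) (nat_lit 0) (p (nat_lit 0x8000000000800080907088a) (nat_lit 0) (p (nat_lit 0x8000000000800078886860a) (nat_lit 0) (p (nat_lit 0x10688060782) (nat_lit 0) (p (nat_lit 0x607858702) (nat_lit 0) (p (nat_lit 0x10587050482) (nat_lit 0) (p (nat_lit 0x506848402) (nat_lit 0) (p (nat_lit 0x16000c) (nat_lit 0) (p (nat_lit 0x50612) (nat_lit 0) (p (nat_lit 0x40592) (nat_lit 0) (p (nat_lit 0x40492) (nat_lit 0) (p (nat_lit 0x30412) (nat_lit 0) (p (nat_lit 0x30212) (nat_lit 0) (p (nat_lit 0x20192) (nat_lit 0) (p (nat_lit 0x20092) (nat_lit 0) (p (nat_lit 0x10012) (nat_lit 0) pn)))))))))))))))))))))))))))))))) :=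
  Cl.node (nat_lit 0xb000c) (nat_lit 2) (by decide +kernel) (ClAll.succ (ClAll.succ ClAll.zero s590) n93)

def n123 : Cl (O (nat_lit 5)) (R (nat_lit 104465))
    (p (nat_lit 0x1fc014) (nat_lit 0) (p (nat_lit 0x1fc004) (nat_lit 0) (p (nat_lit 0xb000c) (nat_lit 1) (p (nat_lit 0x380c2) (nat_lit 1) (p (nat_lit 0x4c42a) (nat_lit 10) (p (nat_lit 0xc9) (nat_lit 0) (p (nat_lit 0x89) (nat_lit 1) (p (nat_lit 0x109) (nat_lit 1) (p (nat_lit 0x101) (nat_lit 0) (p (nat_lit 0x119) (nat_lit 0) (p (nat_lit 0xd1) (nat_lit 0) (p (nat_lit 0x81) (nat_lit 0) (p (nat_lit 0x41) (nat_lit 1) (p (nat_lit 0x10a098b090a9a) (nat_lit 0) (p (nat_lit 0x9890a888a1a) (nat_lit 0) (p (nat_lit 0x109088a08079a) (nat_lit 0) (p (nat_lit 0x8880987871a) (nat_lit 0) (p (nat_lit 0x8000000000800080907088a) (nat_lit 0) (p (nat_lit 0x8000000000800078886860a) (nat_lit 0) (p (nat_lit 0x10688060782) (nat_lit 0) (p (nat_lit 0x607858702)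 (nat_lit 0) (p (nat_lit 0x10587050482) (nat_lit 0) (p (nat_lit 0x506848402) (nat_lit 0) (p (nat_lit 0x16000c) (nat_lit 0) (p (nat_lit 0x50612) (nat_lit 0) (p (nat_lit 0x40592) (nat_lit 0) (p (nat_lit 0x40492) (nat_lit 0) (p (nat_lit 0x30412) (nat_lit 0) (p (nat_lit 0x30212) (nat_lit 0) (p (nat_lit 0x20192) (nat_lit 0) (p (nat_lit 0x20092) (nat_lit 0) (p (nat_lit 0x10012) (nat_lit 0) pn)))))))))))))))))))))))))))))))) :=
  Cl.node (nat_lit 0x100014) (nat_lit 2) (by decide +kernel) (ClAll.succ (ClAll.succ ClAll.zero n94) s622)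

def n124 : Cl (O (nat_lit 5)) (R (nat_lit 104465))
    (p (nat_lit 0xb000c) (nat_lit 1) (p (nat_lit 0x100014) (nat_lit 0) (p (nat_lit 0x200014) (nat_lit 0) (p (nat_lit 0x200004) (nat_lit 0) (p (nat_lit 0x380c2) (nat_lit 0) (p (nat_lit 0x3cc2a) (nat_lit 2) (p (nat_lit 0x89) (nat_lit 0) (p (nat_lit 0xc1) (nat_lit 0) (p (nat_lit 0x101) (nat_lit 1) (p (nat_lit 0x119) (nat_lit 0) (p (nat_lit 0xd1) (nat_lit 0) (p (nat_lit 0x81) (nat_lit 0) (p (nat_lit 0x41) (nat_lit 1) (p (nat_lit 0x10a098b090a9a) (nat_lit 0) (p (nat_lit 0x9890a888a1a) (nat_lit 0) (p (nat_lit 0x109088a08079a) (nat_lit 0) (p (nat_lit 0x8880987871a) (nat_lit 0) (p (nat_lit 0x8000000000800080907088a) (nat_lit 0) (p (nat_lit 0x8000000000800078886860a) (nat_lit 0) (p (nat_lit 0x10688060782) (nat_lit 0) (p (nat_lit 0x607858702) (nat_lit 0) (p (nat_lit 0x10587050482) (nat_lit 0) (p (nat_lit 0x506848402) (nat_lit 0) (p (nat_lit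 0x16000c) (nat_lit 0) (p (nat_lit 0x50612) (nat_lit 0) (p (nat_lit 0x40592) (nat_lit 0) (p (nat_lit 0x40492) (nat_lit 0) (p (nat_lit 0x30412) (nat_lit 0) (p (nat_lit 0x30212) (nat_lit 0) (p (nat_lit 0x20192) (nat_lit 0) (p (nat_lit 0x20092) (nat_lit 0) (p (nat_lit 0x10012) (nat_lit 0) pn)))))))))))))))))))))))))))))))) :=
  Cl.node (nat_lit 0x80014) (nat_lit 2) (by decide +kernel) (ClAll.succ (ClAll.succ ClAll.zero n95) s632)

def n125 : Cl (O (nat_lit 5)) (R (nat_lit 104465))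
    (p (nat_lit 0x200004) (nat_lit 0) (p (nat_lit 0x200014) (nat_lit 0) (p (nat_lit 0x380c2) (nat_lit 0) (p (nat_lit 0x4c42a) (nat_lit 10) (p (nat_lit 0x119) (nat_lit 1) (p (nat_lit 0xc9) (nat_lit 0) (p (nat_lit 0x89) (nat_lit 1) (p (nat_lit 0x109) (nat_lit 1) (p (nat_lit 0x101) (nat_lit 0) (p (nat_lit 0x111) (nat_lit 0) (p (nat_lit 0xd1) (nat_lit 1) (p (nat_lit 0x81) (nat_lit 0) (p (nat_lit 0x41) (nat_lit 1) (p (nat_lit 0x10a098b090a9a) (nat_lit 0) (p (nat_lit 0x9890a888a1a) (nat_lit 0) (p (nat_lit 0x109088a08079a) (nat_lit 0) (p (nat_lit 0x8880987871a) (nat_lit 0) (p (nat_lit 0x8000000000800080907088a) (nat_lit 0) (p (nat_lit 0x8000000000800078886860a) (nat_lit 0) (p (nat_lit 0x10688060782) (nat_lit 0) (p (nat_lit 0x607858702) (nat_lit 0) (p (nat_lit 0x10587050482) (nat_lit 0) (p (nat_lit 0x506848402) (nat_lit 0) (p (nat_lit 0x16000c) (nat_lit 0) (p (nat_lit 0x50612) (nat_lit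 0) (p (nat_lit 0x40592) (nat_lit 0) (p (nat_lit 0x40492) (nat_lit 0) (p (nat_lit 0x30412) (nat_lit 0) (p (nat_lit 0x30212) (nat_lit 0) (p (nat_lit 0x20192) (nat_lit 0) (p (nat_lit 0x20092) (nat_lit 0) (p (nat_lit 0x10012) (nat_lit 0) pn)))))))))))))))))))))))))))))))) :=
  Cl.node (nat_lit 0x100004) (nat_lit 2) (by decide +kernel) (ClAll.succ (ClAll.succ ClAll.zero n96) s813)

def n126 : Cl (O (nat_lit 5)) (R (nat_lit 104465))
    (p (nat_lit 0x3cc2a) (nat_lit 2) (p (nat_lit 0xb000c) (nat_lit 0) (p (nat_lit 0x380c2) (nat_lit 1) (p (nat_lit 0x4c42a) (nat_lit 10) (p (nat_lit 0x119) (nat_lit 1) (p (nat_lit 0xc9) (nat_lit 0) (p (nat_lit 0x89) (nat_lit 1) (p (nat_lit 0x109) (nat_lit 1) (p (nat_lit 0x101) (nat_lit 0) (p (nat_lit 0x111) (nat_lit 0) (p (nat_lit 0xd1) (nat_lit 1) (p (nat_lit 0x81) (nat_lit 0) (p (nat_lit 0x41) (nat_lit 1) (p (nat_lit 0x10a098b090a9a) (nat_lit 0) (p (nat_lit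 0x9890a888a1a) (nat_lit 0) (p (nat_lit 0x109088a08079a) (nat_lit 0) (p (nat_lit 0x8880987871a) (nat_lit 0) (p (nat_lit 0x8000000000800080907088a) (nat_lit 0) (p (nat_lit 0x8000000000800078886860a) (nat_lit 0) (p (nat_lit 0x10688060782) (nat_lit 0) (p (nat_lit 0x607858702) (nat_lit 0) (p (nat_lit 0x10587050482) (nat_lit 0) (p (nat_lit 0x506848402) (nat_lit 0) (p (nat_lit 0x16000c) (nat_lit 0) (p (nat_lit 0x50612) (nat_lit 0) (p (nat_lit 0x40592) (nat_lit 0) (p (nat_lit 0x40492) (nat_lit 0) (p (nat_lit 0x30412) (nat_lit 0) (p (nat_lit 0x30212) (nat_lit 0) (p (nat_lit 0x20192) (nat_lit 0) (p (nat_lit 0x20092) (nat_lit 0) (p (nat_lit 0x10012) (nat_lit 0) pn)))))))))))))))))))))))))))))))) :=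
  Cl.node (nat_lit 0x380c2) (nat_lit 1) (by decide +kernel) (ClAll.succ ClAll.zero n97)

def n127 : Cl (O (nat_lit 5)) (R (nat_lit 104465))
    (p (nat_lit 0x1fc004) (nat_lit 0) (p (nat_lit 0xb000c) (nat_lit 1) (p (nat_lit 0x380c2) (nat_lit 1) (p (nat_lit 0x4c42a) (nat_lit 10) (p (nat_lit 0x119) (nat_lit 1) (p (nat_lit 0xc9) (nat_lit 0) (p (nat_lit 0x89) (nat_lit 1) (p (nat_lit 0x109) (nat_lit 1) (p (nat_lit 0x101) (nat_lit 0) (p (nat_lit 0x111) (nat_lit 0) (p (nat_lit 0xd1) (nat_lit 1) (p (nat_lit 0x81) (nat_lit 0) (p (nat_lit 0x41) (nat_lit 1) (p (nat_lit 0x10a098b090a9a) (nat_lit 0) (p (nat_lit 0x9890a888a1a) (nat_lit 0) (p (nat_lit 0x109088a08079a) (nat_lit 0) (p (nat_lit 0x8880987871a) (nat_lit 0) (p (nat_lit 0x8000000000800080907088a) (nat_lit 0) (p (nat_lit 0x8000000000800078886860a) (nat_lit 0) (p (nat_lit 0x10688060782) (nat_lit 0) (p (nat_lit 0x607858702) (nat_lit 0)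 (p (nat_lit 0x10587050482) (nat_lit 0) (p (nat_lit 0x506848402) (nat_lit 0) (p (nat_lit 0x16000c) (nat_lit 0) (p (nat_lit 0x50612) (nat_lit 0) (p (nat_lit 0x40592) (nat_lit 0) (p (nat_lit 0x40492) (nat_lit 0) (p (nat_lit 0x30412) (nat_lit 0) (p (nat_lit 0x30212) (nat_lit 0) (p (nat_lit 0x20192) (nat_lit 0) (p (nat_lit 0x20092) (nat_lit 0) (p (nat_lit 0x10012) (nat_lit 0) pn)))))))))))))))))))))))))))))))) :=
  Cl.node (nat_lit 0x1fc014) (nat_lit 2) (by decide +kernel) (ClAll.succ (ClAll.succ ClAll.zero n98) s836)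

def n128 : Cl (O (nat_lit 5)) (R (nat_lit 104465))
    (p (nat_lit 0x1fc004) (nat_lit 0) (p (nat_lit 0xb000c) (nat_lit 1) (p (nat_lit 0x380c2) (nat_lit 0) (p (nat_lit 0x444aa) (nat_lit 7) (p (nat_lit 0x81) (nat_lit 1) (p (nat_lit 0xc9) (nat_lit 1) (p (nat_lit 0x109) (nat_lit 1) (p (nat_lit 0x101) (nat_lit 0) (p (nat_lit 0x119) (nat_lit 0) (p (nat_lit 0xd1) (nat_lit 0) (p (nat_lit 0x89) (nat_lit 0) (p (nat_lit 0x41) (nat_lit 0) (p (nat_lit 0x10a098b090a9a) (nat_lit 0) (p (nat_lit 0x9890a888a1a) (nat_lit 0) (p (nat_lit 0x109088a08079a) (nat_lit 0) (p (nat_lit 0x8880987871a) (nat_lit 0) (p (nat_lit 0x8000000000800080907088a) (nat_lit 0) (p (nat_lit 0x8000000000800078886860a) (nat_lit 0) (p (nat_lit 0x10688060782) (nat_lit 0) (p (nat_lit 0x607858702) (nat_lit 0) (p (nat_lit 0x10587050482) (nat_lit 0) (p (nat_lit 0x506848402) (nat_lit 0) (p (nat_lit 0x16000c) (nat_lit 0) (p (nat_lit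 0x50612) (nat_lit 0) (p (nat_lit 0x40592) (nat_lit 0) (p (nat_lit 0x40492) (nat_lit 0) (p (nat_lit 0x30412) (nat_lit 0) (p (nat_lit 0x30212) (nat_lit 0) (p (nat_lit 0x20192) (nat_lit 0) (p (nat_lit 0x20092) (nat_lit 0) (p (nat_lit 0x10012) (nat_lit 0) pn))))))))))))))))))))))))))))))) :=
  Cl.node (nat_lit 0x1fc014) (nat_lit 2) (by decide +kernel) (ClAll.succ (ClAll.succ ClAll.zero n99) s25)

def n129 : Cl (O (nat_lit 5)) (R (nat_lit 104465))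
    (p (nat_lit 0x1fc004) (nat_lit 0) (p (nat_lit 0xb000c) (nat_lit 1) (p (nat_lit 0x380c2) (nat_lit 0) (p (nat_lit 0x444aa) (nat_lit 7) (p (nat_lit 0x111) (nat_lit 0) (p (nat_lit 0xc9) (nat_lit 1) (p (nat_lit 0x81) (nat_lit 0) (p (nat_lit 0x101) (nat_lit 1) (p (nat_lit 0x119) (nat_lit 0) (p (nat_lit 0xd1) (nat_lit 0) (p (nat_lit 0x89) (nat_lit 0) (p (nat_lit 0x41) (nat_lit 0) (p (nat_lit 0x10a098b090a9a) (nat_lit 0) (p (nat_lit 0x9890a888a1a) (nat_lit 0) (p (nat_lit 0x109088a08079a) (nat_lit 0) (p (nat_lit 0x8880987871a) (nat_lit 0) (p (nat_lit 0x8000000000800080907088a) (nat_lit 0) (p (nat_lit 0x8000000000800078886860a) (nat_lit 0) (p (nat_lit 0x10688060782) (nat_lit 0) (p (nat_lit 0x607858702) (nat_lit 0) (p (nat_lit 0x10587050482) (nat_lit 0) (p (nat_lit 0x506848402) (nat_lit 0) (p (nat_lit 0x16000c) (nat_lit 0) (p (nat_lit 0x50612) (nat_lit 0) (p (nat_lit 0x40592) (nat_lit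 0) (p (nat_lit 0x40492) (nat_lit 0) (p (nat_lit 0x30412) (nat_lit 0) (p (nat_lit 0x30212) (nat_lit 0) (p (nat_lit 0x20192) (nat_lit 0) (p (nat_lit 0x20092) (nat_lit 0) (p (nat_lit 0x10012) (nat_lit 0) pn))))))))))))))))))))))))))))))) :=
  Cl.node (nat_lit 0x1fc014) (nat_lit 2) (by decide +kernel) (ClAll.succ (ClAll.succ ClAll.zero n100) s59)

def n130 : Cl (O (nat_lit 5)) (R (nat_lit 104465))
    (p (nat_lit 0x89) (nat_lit 0) (p (nat_lit 0xb000c) (nat_lit 0) (p (nat_lit 0x380c2) (nat_lit 1) (p (nat_lit 0x444aa) (nat_lit 7) (p (nat_lit 0x111) (nat_lit 0) (p (nat_lit 0xc9) (nat_lit 1) (p (nat_lit 0x81) (nat_lit 0) (p (nat_lit 0x101) (nat_lit 1) (p (nat_lit 0x119) (nat_lit 0) (p (nat_lit 0xd1) (nat_lit 0) (p (nat_lit 0x89) (nat_lit 0) (p (nat_lit 0x41) (nat_lit 0) (p (nat_lit 0x10a098b090a9a) (nat_lit 0) (p (nat_lit 0x9890a888a1a) (nat_lit 0) (p (nat_lit 0x109088a08079a) (nat_lit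 0) (p (nat_lit 0x8880987871a) (nat_lit 0) (p (nat_lit 0x8000000000800080907088a) (nat_lit 0) (p (nat_lit 0x8000000000800078886860a) (nat_lit 0) (p (nat_lit 0x10688060782) (nat_lit 0) (p (nat_lit 0x607858702) (nat_lit 0) (p (nat_lit 0x10587050482) (nat_lit 0) (p (nat_lit 0x506848402) (nat_lit 0) (p (nat_lit 0x16000c) (nat_lit 0) (p (nat_lit 0x50612) (nat_lit 0) (p (nat_lit 0x40592) (nat_lit 0) (p (nat_lit 0x40492) (nat_lit 0) (p (nat_lit 0x30412) (nat_lit 0) (p (nat_lit 0x30212) (nat_lit 0) (p (nat_lit 0x20192) (nat_lit 0) (p (nat_lit 0x20092) (nat_lit 0) (p (nat_lit 0x10012) (nat_lit 0) pn))))))))))))))))))))))))))))))) :=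
  Cl.node (nat_lit 0x4c42a) (nat_lit 12) (by decide +kernel) (ClAll.succ (ClAll.succ (ClAll.succ (ClAll.succ (ClAll.succ (ClAll.succ (ClAll.succ (ClAll.succ (ClAll.succ (ClAll.succ (ClAll.succ (ClAll.succ ClAll.zero s61) s62) s63) s64) s65) s66) s67) s68) s69) s70) s71) s72)

def n131 : Cl (O (nat_lit 5)) (R (nat_lit 104465))
    (p (nat_lit 0x1fc004) (nat_lit 0) (p (nat_lit 0xb000c) (nat_lit 1) (p (nat_lit 0x380c2) (nat_lit 1) (p (nat_lit 0x444aa) (nat_lit 7) (p (nat_lit 0x111) (nat_lit 0) (p (nat_lit 0xc9) (nat_lit 1) (p (nat_lit 0x81) (nat_lit 0) (p (nat_lit 0x101) (nat_lit 1) (p (nat_lit 0x119) (nat_lit 0) (p (nat_lit 0xd1) (nat_lit 0) (p (nat_lit 0x89) (nat_lit 0) (p (nat_lit 0x41) (nat_lit 0) (p (nat_lit 0x10a098b090a9a) (nat_lit 0) (p (nat_lit 0x9890a888a1a) (nat_lit 0) (p (nat_lit 0x109088a08079a) (nat_lit 0) (p (nat_lit 0x8880987871a) (nat_lit 0) (p (nat_lit 0x8000000000800080907088a)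 (nat_lit 0) (p (nat_lit 0x8000000000800078886860a) (nat_lit 0) (p (nat_lit 0x10688060782) (nat_lit 0) (p (nat_lit 0x607858702) (nat_lit 0) (p (nat_lit 0x10587050482) (nat_lit 0) (p (nat_lit 0x506848402) (nat_lit 0) (p (nat_lit 0x16000c) (nat_lit 0) (p (nat_lit 0x50612) (nat_lit 0) (p (nat_lit 0x40592) (nat_lit 0) (p (nat_lit 0x40492) (nat_lit 0) (p (nat_lit 0x30412) (nat_lit 0) (p (nat_lit 0x30212) (nat_lit 0) (p (nat_lit 0x20192) (nat_lit 0) (p (nat_lit 0x20092) (nat_lit 0) (p (nat_lit 0x10012) (nat_lit 0) pn))))))))))))))))))))))))))))))) :=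
  Cl.node (nat_lit 0x1fc014) (nat_lit 2) (by decide +kernel) (ClAll.succ (ClAll.succ ClAll.zero n101) s77)

def n132 : Cl (O (nat_lit 5)) (R (nat_lit 104465))
    (p (nat_lit 0x100014) (nat_lit 0) (p (nat_lit 0x200014) (nat_lit 0) (p (nat_lit 0x380c2) (nat_lit 0) (p (nat_lit 0x3cc2a) (nat_lit 2) (p (nat_lit 0x111) (nat_lit 1) (p (nat_lit 0xc9) (nat_lit 1) (p (nat_lit 0x81) (nat_lit 0) (p (nat_lit 0x101) (nat_lit 1) (p (nat_lit 0x119) (nat_lit 0) (p (nat_lit 0xd1) (nat_lit 0) (p (nat_lit 0x89) (nat_lit 0) (p (nat_lit 0x41) (nat_lit 0) (p (nat_lit 0x10a098b090a9a) (nat_lit 0) (p (nat_lit 0x9890a888a1a) (nat_lit 0) (p (nat_lit 0x109088a08079a) (nat_lit 0) (p (nat_lit 0x8880987871a) (nat_lit 0) (p (nat_lit 0x8000000000800080907088a) (nat_lit 0) (p (nat_lit 0x8000000000800078886860a) (nat_lit 0) (p (nat_lit 0x10688060782) (nat_lit 0) (p (nat_lit 0x607858702) (nat_lit 0) (p (nat_lit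 0x10587050482) (nat_lit 0) (p (nat_lit 0x506848402) (nat_lit 0) (p (nat_lit 0x16000c) (nat_lit 0) (p (nat_lit 0x50612) (nat_lit 0) (p (nat_lit 0x40592) (nat_lit 0) (p (nat_lit 0x40492) (nat_lit 0) (p (nat_lit 0x30412) (nat_lit 0) (p (nat_lit 0x30212) (nat_lit 0) (p (nat_lit 0x20192) (nat_lit 0) (p (nat_lit 0x20092) (nat_lit 0) (p (nat_lit 0x10012) (nat_lit 0) pn))))))))))))))))))))))))))))))) :=
  Cl.node (nat_lit 0x200004) (nat_lit 2) (by decide +kernel) (ClAll.succ (ClAll.succ ClAll.zero n102) s90)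

def n133 : Cl (O (nat_lit 5)) (R (nat_lit 104465))
    (p (nat_lit 0xb000c) (nat_lit 1) (p (nat_lit 0x200014) (nat_lit 0) (p (nat_lit 0x101) (nat_lit 0) (p (nat_lit 0x380c2) (nat_lit 0) (p (nat_lit 0x3cc2a) (nat_lit 2) (p (nat_lit 0x109) (nat_lit 1) (p (nat_lit 0xc9) (nat_lit 1) (p (nat_lit 0xc1) (nat_lit 0) (p (nat_lit 0x119) (nat_lit 1) (p (nat_lit 0xd1) (nat_lit 0) (p (nat_lit 0x89) (nat_lit 0) (p (nat_lit 0x41) (nat_lit 0) (p (nat_lit 0x10a098b090a9a) (nat_lit 0) (p (nat_lit 0x9890a888a1a) (nat_lit 0) (p (nat_lit 0x109088a08079a) (nat_lit 0) (p (nat_lit 0x8880987871a) (nat_lit 0) (p (nat_lit 0x8000000000800080907088a) (nat_lit 0) (p (nat_lit 0x8000000000800078886860a) (nat_lit 0) (p (nat_lit 0x10688060782) (nat_lit 0) (p (nat_lit 0x607858702) (nat_lit 0) (p (nat_lit 0x10587050482) (nat_lit 0) (p (nat_lit 0x506848402) (nat_lit 0) (p (nat_lit 0x16000c) (nat_lit 0) (p (nat_lit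 0x50612) (nat_lit 0) (p (nat_lit 0x40592) (nat_lit 0) (p (nat_lit 0x40492) (nat_lit 0) (p (nat_lit 0x30412) (nat_lit 0) (p (nat_lit 0x30212) (nat_lit 0) (p (nat_lit 0x20192) (nat_lit 0) (p (nat_lit 0x20092) (nat_lit 0) (p (nat_lit 0x10012) (nat_lit 0) pn))))))))))))))))))))))))))))))) :=
  Cl.node (nat_lit 0x1fc004) (nat_lit 2) (by decide +kernel) (ClAll.succ (ClAll.succ ClAll.zero n103) s141)

def n134 : Cl (O (nat_lit 5)) (R (nat_lit 104465))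
    (p (nat_lit 0x200014) (nat_lit 0) (p (nat_lit 0x41) (nat_lit 0) (p (nat_lit 0x101) (nat_lit 1) (p (nat_lit 0x380c2) (nat_lit 0) (p (nat_lit 0x3cc2a) (nat_lit 2) (p (nat_lit 0x109) (nat_lit 1) (p (nat_lit 0xc9) (nat_lit 1) (p (nat_lit 0xc1) (nat_lit 0) (p (nat_lit 0x119) (nat_lit 1) (p (nat_lit 0xd1) (nat_lit 0) (p (nat_lit 0x89) (nat_lit 0) (p (nat_lit 0x41) (nat_lit 0) (p (nat_lit 0x10a098b090a9a) (nat_lit 0) (p (nat_lit 0x9890a888a1a) (nat_lit 0) (p (nat_lit 0x109088a08079a) (nat_lit 0) (p (nat_lit 0x8880987871a) (nat_lit 0) (p (nat_lit 0x8000000000800080907088a) (nat_lit 0) (p (nat_lit 0x8000000000800078886860a) (nat_lit 0) (p (nat_lit 0x10688060782) (nat_lit 0) (p (nat_lit 0x607858702) (nat_lit 0) (p (nat_lit 0x10587050482) (nat_lit 0) (p (nat_lit 0x506848402) (nat_lit 0) (p (nat_lit 0x16000c) (nat_lit 0) (p (nat_lit 0x50612) (nat_lit 0) (p (nat_lit 0x40592) (nat_lit 0)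 (p (nat_lit 0x40492) (nat_lit 0) (p (nat_lit 0x30412) (nat_lit 0) (p (nat_lit 0x30212) (nat_lit 0) (p (nat_lit 0x20192) (nat_lit 0) (p (nat_lit 0x20092) (nat_lit 0) (p (nat_lit 0x10012) (nat_lit 0) pn))))))))))))))))))))))))))))))) :=
  Cl.node (nat_lit 0xb000c) (nat_lit 2) (by decide +kernel) (ClAll.succ (ClAll.succ ClAll.zero s143) n104)

def n135 : Cl (O (nat_lit 5)) (R (nat_lit 104465))
    (p (nat_lit 0x100014) (nat_lit 0) (p (nat_lit 0x200014) (nat_lit 0) (p (nat_lit 0xc9) (nat_lit 1) (p (nat_lit 0x380c2) (nat_lit 0) (p (nat_lit 0x3cc2a) (nat_lit 2) (p (nat_lit 0x109) (nat_lit 1) (p (nat_lit 0x81) (nat_lit 0) (p (nat_lit 0xc1) (nat_lit 1) (p (nat_lit 0x119) (nat_lit 1) (p (nat_lit 0xd1) (nat_lit 0) (p (nat_lit 0x89) (nat_lit 0) (p (nat_lit 0x41) (nat_lit 0) (p (nat_lit 0x10a098b090a9a) (nat_lit 0) (p (nat_lit 0x9890a888a1a) (nat_lit 0) (p (nat_lit 0x109088a08079a) (nat_lit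 0) (p (nat_lit 0x8880987871a) (nat_lit 0) (p (nat_lit 0x8000000000800080907088a) (nat_lit 0) (p (nat_lit 0x8000000000800078886860a) (nat_lit 0) (p (nat_lit 0x10688060782) (nat_lit 0) (p (nat_lit 0x607858702) (nat_lit 0) (p (nat_lit 0x10587050482) (nat_lit 0) (p (nat_lit 0x506848402) (nat_lit 0) (p (nat_lit 0x16000c) (nat_lit 0) (p (nat_lit 0x50612) (nat_lit 0) (p (nat_lit 0x40592) (nat_lit 0) (p (nat_lit 0x40492) (nat_lit 0) (p (nat_lit 0x30412) (nat_lit 0) (p (nat_lit 0x30212) (nat_lit 0) (p (nat_lit 0x20192) (nat_lit 0) (p (nat_lit 0x20092) (nat_lit 0) (p (nat_lit 0x10012) (nat_lit 0) pn))))))))))))))))))))))))))))))) :=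
  Cl.node (nat_lit 0x200004) (nat_lit 2) (by decide +kernel) (ClAll.succ (ClAll.succ ClAll.zero n105) s167)

def n136 : Cl (O (nat_lit 5)) (R (nat_lit 104465))
    (p (nat_lit 0x444aa) (nat_lit 7) (p (nat_lit 0x101) (nat_lit 1) (p (nat_lit 0x380c2) (nat_lit 0) (p (nat_lit 0x44c2a) (nat_lit 0) (p (nat_lit 0x109) (nat_lit 0) (p (nat_lit 0x101) (nat_lit 0) (p (nat_lit 0x81) (nat_lit 1) (p (nat_lit 0xc1) (nat_lit 1) (p (nat_lit 0x119) (nat_lit 1) (p (nat_lit 0xd1) (nat_lit 0) (p (nat_lit 0x89) (nat_lit 0) (p (nat_lit 0x41) (nat_lit 0) (p (nat_lit 0x10a098b090a9a) (nat_lit 0) (p (nat_lit 0x9890a888a1a) (nat_lit 0) (p (nat_lit 0x109088a08079a) (nat_lit 0) (p (nat_lit 0x8880987871a) (nat_lit 0) (p (nat_lit 0x8000000000800080907088a) (nat_lit 0) (p (nat_lit 0x8000000000800078886860a) (nat_lit 0) (p (nat_lit 0x10688060782) (nat_lit 0) (p (nat_lit 0x607858702) (nat_lit 0) (p (nat_lit 0x10587050482)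 (nat_lit 0) (p (nat_lit 0x506848402) (nat_lit 0) (p (nat_lit 0x16000c) (nat_lit 0) (p (nat_lit 0x50612) (nat_lit 0) (p (nat_lit 0x40592) (nat_lit 0) (p (nat_lit 0x40492) (nat_lit 0) (p (nat_lit 0x30412) (nat_lit 0) (p (nat_lit 0x30212) (nat_lit 0) (p (nat_lit 0x20192) (nat_lit 0) (p (nat_lit 0x20092) (nat_lit 0) (p (nat_lit 0x10012) (nat_lit 0) pn))))))))))))))))))))))))))))))) :=
  Cl.node (nat_lit 0x380c2) (nat_lit 2) (by decide +kernel) (ClAll.succ (ClAll.succ ClAll.zero s187) n106)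

def n137 : Cl (O (nat_lit 5)) (R (nat_lit 104465))
    (p (nat_lit 0x200004) (nat_lit 0) (p (nat_lit 0xb000c) (nat_lit 0) (p (nat_lit 0x380c2) (nat_lit 0) (p (nat_lit 0x444aa) (nat_lit 7) (p (nat_lit 0x109) (nat_lit 1) (p (nat_lit 0x101) (nat_lit 0) (p (nat_lit 0x81) (nat_lit 1) (p (nat_lit 0xc1) (nat_lit 1) (p (nat_lit 0x119) (nat_lit 1) (p (nat_lit 0xd1) (nat_lit 0) (p (nat_lit 0x89) (nat_lit 0) (p (nat_lit 0x41) (nat_lit 0) (p (nat_lit 0x10a098b090a9a) (nat_lit 0) (p (nat_lit 0x9890a888a1a) (nat_lit 0) (p (nat_lit 0x109088a08079a) (nat_lit 0) (p (nat_lit 0x8880987871a) (nat_lit 0) (p (nat_lit 0x8000000000800080907088a) (nat_lit 0) (p (nat_lit 0x8000000000800078886860a) (nat_lit 0) (p (nat_lit 0x10688060782) (nat_lit 0) (p (nat_lit 0x607858702) (nat_lit 0) (p (nat_lit 0x10587050482) (nat_lit 0) (p (nat_lit 0x506848402) (nat_lit 0) (p (nat_lit 0x16000c) (nat_lit 0) (p (nat_lit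 0x50612) (nat_lit 0) (p (nat_lit 0x40592) (nat_lit 0) (p (nat_lit 0x40492) (nat_lit 0) (p (nat_lit 0x30412) (nat_lit 0) (p (nat_lit 0x30212) (nat_lit 0) (p (nat_lit 0x20192) (nat_lit 0) (p (nat_lit 0x20092) (nat_lit 0) (p (nat_lit 0x10012) (nat_lit 0) pn))))))))))))))))))))))))))))))) :=
  Cl.node (nat_lit 0x100004) (nat_lit 2) (by decide +kernel) (ClAll.succ (ClAll.succ ClAll.zero n107) s214)

def n138 : Cl (O (nat_lit 5)) (R (nat_lit 104465))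
    (p (nat_lit 0x200004) (nat_lit 0) (p (nat_lit 0xb000c) (nat_lit 0) (p (nat_lit 0x380c2) (nat_lit 1) (p (nat_lit 0x444aa) (nat_lit 7) (p (nat_lit 0x109) (nat_lit 1) (p (nat_lit 0x101) (nat_lit 0) (p (nat_lit 0x81) (nat_lit 1) (p (nat_lit 0xc1) (nat_lit 1) (p (nat_lit 0x119) (nat_lit 1) (p (nat_lit 0xd1) (nat_lit 0) (p (nat_lit 0x89) (nat_lit 0) (p (nat_lit 0x41) (nat_lit 0) (p (nat_lit 0x10a098b090a9a) (nat_lit 0) (p (nat_lit 0x9890a888a1a) (nat_lit 0) (p (nat_lit 0x109088a08079a) (nat_lit 0) (p (nat_lit 0x8880987871a) (nat_lit 0) (p (nat_lit 0x8000000000800080907088a) (nat_lit 0) (p (nat_lit 0x8000000000800078886860a) (nat_lit 0) (p (nat_lit 0x10688060782) (nat_lit 0) (p (nat_lit 0x607858702) (nat_lit 0) (p (nat_lit 0x10587050482) (nat_lit 0) (p (nat_lit 0x506848402) (nat_lit 0) (p (nat_lit 0x16000c) (nat_lit 0) (p (nat_lit 0x50612) (nat_lit 0) (p (nat_lit 0x40592) (nat_lit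 0) (p (nat_lit 0x40492) (nat_lit 0) (p (nat_lit 0x30412) (nat_lit 0) (p (nat_lit 0x30212) (nat_lit 0) (p (nat_lit 0x20192) (nat_lit 0) (p (nat_lit 0x20092) (nat_lit 0) (p (nat_lit 0x10012) (nat_lit 0) pn))))))))))))))))))))))))))))))) :=
  Cl.node (nat_lit 0x100004) (nat_lit 2) (by decide +kernel) (ClAll.succ (ClAll.succ ClAll.zero n108) s220)

def n139 : Cl (O (nat_lit 5)) (R (nat_lit 104465))
    (p (nat_lit 0x380c2) (nat_lit 0) (p (nat_lit 0x3cc2a) (nat_lit 1) (p (nat_lit 0x109) (nat_lit 1) (p (nat_lit 0x200014) (nat_lit 0) (p (nat_lit 0x200004) (nat_lit 0) (p (nat_lit 0x119) (nat_lit 0) (p (nat_lit 0x81) (nat_lit 0) (p (nat_lit 0x101) (nat_lit 1) (p (nat_lit 0x111) (nat_lit 0) (p (nat_lit 0xd1) (nat_lit 1) (p (nat_lit 0x89) (nat_lit 0) (p (nat_lit 0x41) (nat_lit 0) (p (nat_lit 0x10a098b090a9a) (nat_lit 0) (p (nat_lit 0x9890a888a1a) (nat_lit 0) (p (nat_lit 0x109088a08079a)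 (nat_lit 0) (p (nat_lit 0x8880987871a) (nat_lit 0) (p (nat_lit 0x8000000000800080907088a) (nat_lit 0) (p (nat_lit 0x8000000000800078886860a) (nat_lit 0) (p (nat_lit 0x10688060782) (nat_lit 0) (p (nat_lit 0x607858702) (nat_lit 0) (p (nat_lit 0x10587050482) (nat_lit 0) (p (nat_lit 0x506848402) (nat_lit 0) (p (nat_lit 0x16000c) (nat_lit 0) (p (nat_lit 0x50612) (nat_lit 0) (p (nat_lit 0x40592) (nat_lit 0) (p (nat_lit 0x40492) (nat_lit 0) (p (nat_lit 0x30412) (nat_lit 0) (p (nat_lit 0x30212) (nat_lit 0) (p (nat_lit 0x20192) (nat_lit 0) (p (nat_lit 0x20092) (nat_lit 0) (p (nat_lit 0x10012) (nat_lit 0) pn))))))))))))))))))))))))))))))) :=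
  Cl.node (nat_lit 0x81) (nat_lit 2) (by decide +kernel) (ClAll.succ (ClAll.succ ClAll.zero s258) n109)

def n140 : Cl (O (nat_lit 5)) (R (nat_lit 104465))
    (p (nat_lit 0x380c2) (nat_lit 0) (p (nat_lit 0x3cc2a) (nat_lit 2) (p (nat_lit 0x109) (nat_lit 1) (p (nat_lit 0x200014) (nat_lit 0) (p (nat_lit 0x200004) (nat_lit 0) (p (nat_lit 0x119) (nat_lit 0) (p (nat_lit 0x81) (nat_lit 0) (p (nat_lit 0x101) (nat_lit 1) (p (nat_lit 0x111) (nat_lit 0) (p (nat_lit 0xd1) (nat_lit 1) (p (nat_lit 0x89) (nat_lit 0) (p (nat_lit 0x41) (nat_lit 0) (p (nat_lit 0x10a098b090a9a) (nat_lit 0) (p (nat_lit 0x9890a888a1a) (nat_lit 0) (p (nat_lit 0x109088a08079a) (nat_lit 0) (p (nat_lit 0x8880987871a) (nat_lit 0) (p (nat_lit 0x8000000000800080907088a) (nat_lit 0) (p (nat_lit 0x8000000000800078886860a) (nat_lit 0) (p (nat_lit 0x10688060782) (nat_lit 0) (p (nat_lit 0x607858702) (nat_lit 0) (p (nat_lit 0x10587050482)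 (nat_lit 0) (p (nat_lit 0x506848402) (nat_lit 0) (p (nat_lit 0x16000c) (nat_lit 0) (p (nat_lit 0x50612) (nat_lit 0) (p (nat_lit 0x40592) (nat_lit 0) (p (nat_lit 0x40492) (nat_lit 0) (p (nat_lit 0x30412) (nat_lit 0) (p (nat_lit 0x30212) (nat_lit 0) (p (nat_lit 0x20192) (nat_lit 0) (p (nat_lit 0x20092) (nat_lit 0) (p (nat_lit 0x10012) (nat_lit 0) pn))))))))))))))))))))))))))))))) :=
  Cl.node (nat_lit 0x100004) (nat_lit 2) (by decide +kernel) (ClAll.succ (ClAll.succ ClAll.zero s263) s264)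

def n141 : Cl (O (nat_lit 5)) (R (nat_lit 104465))
    (p (nat_lit 0xc9) (nat_lit 0) (p (nat_lit 0xb000c) (nat_lit 0) (p (nat_lit 0x380c2) (nat_lit 1) (p (nat_lit 0x444aa) (nat_lit 7) (p (nat_lit 0x119) (nat_lit 0) (p (nat_lit 0xc1) (nat_lit 0) (p (nat_lit 0x81) (nat_lit 1) (p (nat_lit 0x101) (nat_lit 1) (p (nat_lit 0x111) (nat_lit 0) (p (nat_lit 0xd1) (nat_lit 1) (p (nat_lit 0x89) (nat_lit 0) (p (nat_lit 0x41) (nat_lit 0) (p (nat_lit 0x10a098b090a9a) (nat_lit 0) (p (nat_lit 0x9890a888a1a) (nat_lit 0) (p (nat_lit 0x109088a08079a) (nat_lit 0) (p (nat_lit 0x8880987871a) (nat_lit 0) (p (nat_lit 0x8000000000800080907088a) (nat_lit 0) (p (nat_lit 0x8000000000800078886860a) (nat_lit 0) (p (nat_lit 0x10688060782) (nat_lit 0) (p (nat_lit 0x607858702) (nat_lit 0) (p (nat_lit 0x10587050482) (nat_lit 0) (p (nat_lit 0x506848402) (nat_lit 0) (p (nat_lit 0x16000c) (nat_lit 0) (p (nat_lit 0x50612)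 (nat_lit 0) (p (nat_lit 0x40592) (nat_lit 0) (p (nat_lit 0x40492) (nat_lit 0) (p (nat_lit 0x30412) (nat_lit 0) (p (nat_lit 0x30212) (nat_lit 0) (p (nat_lit 0x20192) (nat_lit 0) (p (nat_lit 0x20092) (nat_lit 0) (p (nat_lit 0x10012) (nat_lit 0) pn))))))))))))))))))))))))))))))) :=
  Cl.node (nat_lit 0x4c42a) (nat_lit 12) (by decide +kernel) (ClAll.succ (ClAll.succ (ClAll.succ (ClAll.succ (ClAll.succ (ClAll.succ (ClAll.succ (ClAll.succ (ClAll.succ (ClAll.succ (ClAll.succ (ClAll.succ ClAll.zero s298) s299) s300) s301) s302) s303) s304) s305) s306) s307) n110) s310)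

def n142 : Cl (O (nat_lit 5)) (R (nat_lit 104465))
    (p (nat_lit 0x1fc004) (nat_lit 0) (p (nat_lit 0xb000c) (nat_lit 1) (p (nat_lit 0x380c2) (nat_lit 1) (p (nat_lit 0x444aa) (nat_lit 7) (p (nat_lit 0x119) (nat_lit 0) (p (nat_lit 0xc1) (nat_lit 0) (p (nat_lit 0x81) (nat_lit 1) (p (nat_lit 0x101) (nat_lit 1) (p (nat_lit 0x111) (nat_lit 0) (p (nat_lit 0xd1) (nat_lit 1) (p (nat_lit 0x89) (nat_lit 0) (p (nat_lit 0x41) (nat_lit 0) (p (nat_lit 0x10a098b090a9a) (nat_lit 0) (p (nat_lit 0x9890a888a1a) (nat_lit 0) (p (nat_lit 0x109088a08079a) (nat_lit 0) (p (nat_lit 0x8880987871a) (nat_lit 0) (p (nat_lit 0x8000000000800080907088a) (nat_lit 0) (p (nat_lit 0x8000000000800078886860a) (nat_lit 0) (p (nat_lit 0x10688060782) (nat_lit 0) (p (nat_lit 0x607858702) (nat_lit 0) (p (nat_lit 0x10587050482) (nat_lit 0) (p (nat_lit 0x506848402) (nat_lit 0) (p (nat_lit 0x16000c) (nat_lit 0) (p (nat_lit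 0x50612) (nat_lit 0) (p (nat_lit 0x40592) (nat_lit 0) (p (nat_lit 0x40492) (nat_lit 0) (p (nat_lit 0x30412) (nat_lit 0) (p (nat_lit 0x30212) (nat_lit 0) (p (nat_lit 0x20192) (nat_lit 0) (p (nat_lit 0x20092) (nat_lit 0) (p (nat_lit 0x10012) (nat_lit 0) pn))))))))))))))))))))))))))))))) :=
  Cl.node (nat_lit 0x1fc014) (nat_lit 2) (by decide +kernel) (ClAll.succ (ClAll.succ ClAll.zero n111) s316)

def n143 : Cl (O (nat_lit 5)) (R (nat_lit 104465))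
    (p (nat_lit 0xd1) (nat_lit 1) (p (nat_lit 0x200014) (nat_lit 0) (p (nat_lit 0x380c2) (nat_lit 0) (p (nat_lit 0x3cc2a) (nat_lit 2) (p (nat_lit 0x119) (nat_lit 1) (p (nat_lit 0xc1) (nat_lit 0) (p (nat_lit 0x81) (nat_lit 1) (p (nat_lit 0x101) (nat_lit 1) (p (nat_lit 0x111) (nat_lit 0) (p (nat_lit 0xd1) (nat_lit 1) (p (nat_lit 0x89) (nat_lit 0) (p (nat_lit 0x41) (nat_lit 0) (p (nat_lit 0x10a098b090a9a) (nat_lit 0) (p (nat_lit 0x9890a888a1a) (nat_lit 0) (p (nat_lit 0x109088a08079a) (nat_lit 0) (p (nat_lit 0x8880987871a) (nat_lit 0) (p (nat_lit 0x8000000000800080907088a) (nat_lit 0) (p (nat_lit 0x8000000000800078886860a) (nat_lit 0) (p (nat_lit 0x10688060782) (nat_lit 0) (p (nat_lit 0x607858702) (nat_lit 0) (p (nat_lit 0x10587050482) (nat_lit 0) (p (nat_lit 0x506848402) (nat_lit 0) (p (nat_lit 0x16000c) (nat_lit 0) (p (nat_lit 0x50612) (nat_lit 0) (p (nat_lit 0x40592) (nat_lit 0)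 (p (nat_lit 0x40492) (nat_lit 0) (p (nat_lit 0x30412) (nat_lit 0) (p (nat_lit 0x30212) (nat_lit 0) (p (nat_lit 0x20192) (nat_lit 0) (p (nat_lit 0x20092) (nat_lit 0) (p (nat_lit 0x10012) (nat_lit 0) pn))))))))))))))))))))))))))))))) :=
  Cl.node (nat_lit 0x444aa) (nat_lit 12) (by decide +kernel) (ClAll.succ (ClAll.succ (ClAll.succ (ClAll.succ (ClAll.succ (ClAll.succ (ClAll.succ (ClAll.succ (ClAll.succ (ClAll.succ (ClAll.succ (ClAll.succ ClAll.zero s325) s326) s327) s328) s329) s330) s331) n112) s335) s336) s337) s338)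

def n144 : Cl (O (nat_lit 5)) (R (nat_lit 104465))
    (p (nat_lit 0x200004) (nat_lit 0) (p (nat_lit 0xb000c) (nat_lit 0) (p (nat_lit 0x380c2) (nat_lit 0) (p (nat_lit 0x444aa) (nat_lit 7) (p (nat_lit 0xd1) (nat_lit 1) (p (nat_lit 0x111) (nat_lit 1) (p (nat_lit 0x109) (nat_lit 0) (p (nat_lit 0x101) (nat_lit 0) (p (nat_lit 0x119) (nat_lit 0) (p (nat_lit 0xc9) (nat_lit 0) (p (nat_lit 0x89) (nat_lit 1) (p (nat_lit 0x41) (nat_lit 0) (p (nat_lit 0x10a098b090a9a) (nat_lit 0) (p (nat_lit 0x9890a888a1a) (nat_lit 0) (p (nat_lit 0x109088a08079a) (nat_lit 0) (p (nat_lit 0x8880987871a) (nat_lit 0) (p (nat_lit 0x8000000000800080907088a) (nat_lit 0) (p (nat_lit 0x8000000000800078886860a) (nat_lit 0) (p (nat_lit 0x10688060782) (nat_lit 0) (p (nat_lit 0x607858702) (nat_lit 0) (p (nat_lit 0x10587050482) (nat_lit 0) (p (nat_lit 0x506848402) (nat_lit 0) (p (nat_lit 0x16000c) (nat_lit 0) (p (nat_lit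 0x50612) (nat_lit 0) (p (nat_lit 0x40592) (nat_lit 0) (p (nat_lit 0x40492) (nat_lit 0) (p (nat_lit 0x30412) (nat_lit 0) (p (nat_lit 0x30212) (nat_lit 0) (p (nat_lit 0x20192) (nat_lit 0) (p (nat_lit 0x20092) (nat_lit 0) (p (nat_lit 0x10012) (nat_lit 0) pn))))))))))))))))))))))))))))))) :=
  Cl.node (nat_lit 0x100004) (nat_lit 2) (by decide +kernel) (ClAll.succ (ClAll.succ ClAll.zero n113) s381)

def n145 : Cl (O (nat_lit 5)) (R (nat_lit 104465))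
    (p (nat_lit 0x1fc004) (nat_lit 0) (p (nat_lit 0xb000c) (nat_lit 1) (p (nat_lit 0x380c2) (nat_lit 0) (p (nat_lit 0x444aa) (nat_lit 7) (p (nat_lit 0xd1) (nat_lit 1) (p (nat_lit 0x111) (nat_lit 1) (p (nat_lit 0x109) (nat_lit 0) (p (nat_lit 0x101) (nat_lit 0) (p (nat_lit 0x119) (nat_lit 0) (p (nat_lit 0xc9) (nat_lit 0) (p (nat_lit 0x89) (nat_lit 1) (p (nat_lit 0x41) (nat_lit 0) (p (nat_lit 0x10a098b090a9a) (nat_lit 0) (p (nat_lit 0x9890a888a1a) (nat_lit 0) (p (nat_lit 0x109088a08079a) (nat_lit 0) (p (nat_lit 0x8880987871a) (nat_lit 0) (p (nat_lit 0x8000000000800080907088a) (nat_lit 0) (p (nat_lit 0x8000000000800078886860a) (nat_lit 0) (p (nat_lit 0x10688060782) (nat_lit 0) (p (nat_lit 0x607858702) (nat_lit 0) (p (nat_lit 0x10587050482) (nat_lit 0) (p (nat_lit 0x506848402) (nat_lit 0) (p (nat_lit 0x16000c) (nat_lit 0) (p (nat_lit 0x50612) (nat_lit 0) (p (nat_lit 0x40592) (nat_lit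 0) (p (nat_lit 0x40492) (nat_lit 0) (p (nat_lit 0x30412) (nat_lit 0) (p (nat_lit 0x30212) (nat_lit 0) (p (nat_lit 0x20192) (nat_lit 0) (p (nat_lit 0x20092) (nat_lit 0) (p (nat_lit 0x10012) (nat_lit 0) pn))))))))))))))))))))))))))))))) :=
  Cl.node (nat_lit 0x1fc014) (nat_lit 2) (by decide +kernel) (ClAll.succ (ClAll.succ ClAll.zero n114) s389)

def n146 : Cl (O (nat_lit 5)) (R (nat_lit 104465))
    (p (nat_lit 0x200004) (nat_lit 0) (p (nat_lit 0xb000c) (nat_lit 0) (p (nat_lit 0x380c2) (nat_lit 1) (p (nat_lit 0x444aa) (nat_lit 7) (p (nat_lit 0xd1) (nat_lit 1) (p (nat_lit 0x111) (nat_lit 1) (p (nat_lit 0x109) (nat_lit 0) (p (nat_lit 0x101) (nat_lit 0) (p (nat_lit 0x119) (nat_lit 0) (p (nat_lit 0xc9) (nat_lit 0) (p (nat_lit 0x89) (nat_lit 1) (p (nat_lit 0x41) (nat_lit 0) (p (nat_lit 0x10a098b090a9a) (nat_lit 0) (p (nat_lit 0x9890a888a1a) (nat_lit 0) (p (nat_lit 0x109088a08079a) (nat_lit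 0) (p (nat_lit 0x8880987871a) (nat_lit 0) (p (nat_lit 0x8000000000800080907088a) (nat_lit 0) (p (nat_lit 0x8000000000800078886860a) (nat_lit 0) (p (nat_lit 0x10688060782) (nat_lit 0) (p (nat_lit 0x607858702) (nat_lit 0) (p (nat_lit 0x10587050482) (nat_lit 0) (p (nat_lit 0x506848402) (nat_lit 0) (p (nat_lit 0x16000c) (nat_lit 0) (p (nat_lit 0x50612) (nat_lit 0) (p (nat_lit 0x40592) (nat_lit 0) (p (nat_lit 0x40492) (nat_lit 0) (p (nat_lit 0x30412) (nat_lit 0) (p (nat_lit 0x30212) (nat_lit 0) (p (nat_lit 0x20192) (nat_lit 0) (p (nat_lit 0x20092) (nat_lit 0) (p (nat_lit 0x10012) (nat_lit 0) pn))))))))))))))))))))))))))))))) :=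
  Cl.node (nat_lit 0x100004) (nat_lit 2) (by decide +kernel) (ClAll.succ (ClAll.succ ClAll.zero n115) s394)

def n147 : Cl (O (nat_lit 5)) (R (nat_lit 104465))
    (p (nat_lit 0x1fc004) (nat_lit 0) (p (nat_lit 0xb000c) (nat_lit 1) (p (nat_lit 0x380c2) (nat_lit 1) (p (nat_lit 0x444aa) (nat_lit 7) (p (nat_lit 0xd1) (nat_lit 1) (p (nat_lit 0x111) (nat_lit 1) (p (nat_lit 0x109) (nat_lit 0) (p (nat_lit 0x101) (nat_lit 0) (p (nat_lit 0x119) (nat_lit 0) (p (nat_lit 0xc9) (nat_lit 0) (p (nat_lit 0x89) (nat_lit 1) (p (nat_lit 0x41) (nat_lit 0) (p (nat_lit 0x10a098b090a9a) (nat_lit 0) (p (nat_lit 0x9890a888a1a) (nat_lit 0) (p (nat_lit 0x109088a08079a) (nat_lit 0) (p (nat_lit 0x8880987871a) (nat_lit 0) (p (nat_lit 0x8000000000800080907088a) (nat_lit 0) (p (nat_lit 0x8000000000800078886860a) (nat_lit 0) (p (nat_lit 0x10688060782) (nat_lit 0) (p (nat_lit 0x607858702) (nat_lit 0) (p (nat_lit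 0x10587050482) (nat_lit 0) (p (nat_lit 0x506848402) (nat_lit 0) (p (nat_lit 0x16000c) (nat_lit 0) (p (nat_lit 0x50612) (nat_lit 0) (p (nat_lit 0x40592) (nat_lit 0) (p (nat_lit 0x40492) (nat_lit 0) (p (nat_lit 0x30412) (nat_lit 0) (p (nat_lit 0x30212) (nat_lit 0) (p (nat_lit 0x20192) (nat_lit 0) (p (nat_lit 0x20092) (nat_lit 0) (p (nat_lit 0x10012) (nat_lit 0) pn))))))))))))))))))))))))))))))) :=
  Cl.node (nat_lit 0x1fc014) (nat_lit 2) (by decide +kernel) (ClAll.succ (ClAll.succ ClAll.zero n116) s403)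

def n148 : Cl (O (nat_lit 5)) (R (nat_lit 104465))
    (p (nat_lit 0x380c2) (nat_lit 0) (p (nat_lit 0x44c2a) (nat_lit 0) (p (nat_lit 0x41) (nat_lit 0) (p (nat_lit 0x200014) (nat_lit 0) (p (nat_lit 0x200004) (nat_lit 0) (p (nat_lit 0xd1) (nat_lit 0) (p (nat_lit 0x109) (nat_lit 1) (p (nat_lit 0x101) (nat_lit 0) (p (nat_lit 0x119) (nat_lit 0) (p (nat_lit 0xc9) (nat_lit 0) (p (nat_lit 0x89) (nat_lit 1) (p (nat_lit 0x41) (nat_lit 0) (p (nat_lit 0x10a098b090a9a) (nat_lit 0) (p (nat_lit 0x9890a888a1a) (nat_lit 0) (p (nat_lit 0x109088a08079a) (nat_lit 0) (p (nat_lit 0x8880987871a) (nat_lit 0) (p (nat_lit 0x8000000000800080907088a) (nat_lit 0) (p (nat_lit 0x8000000000800078886860a) (nat_lit 0) (p (nat_lit 0x10688060782) (nat_lit 0) (p (nat_lit 0x607858702) (nat_lit 0) (p (nat_lit 0x10587050482) (nat_lit 0) (p (nat_lit 0x506848402) (nat_lit 0) (p (nat_lit 0x16000c) (nat_lit 0) (p (nat_lit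 0x50612) (nat_lit 0) (p (nat_lit 0x40592) (nat_lit 0) (p (nat_lit 0x40492) (nat_lit 0) (p (nat_lit 0x30412) (nat_lit 0) (p (nat_lit 0x30212) (nat_lit 0) (p (nat_lit 0x20192) (nat_lit 0) (p (nat_lit 0x20092) (nat_lit 0) (p (nat_lit 0x10012) (nat_lit 0) pn))))))))))))))))))))))))))))))) :=
  Cl.node (nat_lit 0xb000c) (nat_lit 2) (by decide +kernel) (ClAll.succ (ClAll.succ ClAll.zero n117) s411)

def n149 : Cl (O (nat_lit 5)) (R (nat_lit 104465))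
    (p (nat_lit 0x380c2) (nat_lit 0) (p (nat_lit 0x44c2a) (nat_lit 1) (p (nat_lit 0x41) (nat_lit 0) (p (nat_lit 0x200014) (nat_lit 0) (p (nat_lit 0x200004) (nat_lit 0) (p (nat_lit 0xd1) (nat_lit 0) (p (nat_lit 0x109) (nat_lit 1) (p (nat_lit 0x101) (nat_lit 0) (p (nat_lit 0x119) (nat_lit 0) (p (nat_lit 0xc9) (nat_lit 0) (p (nat_lit 0x89) (nat_lit 1) (p (nat_lit 0x41) (nat_lit 0) (p (nat_lit 0x10a098b090a9a) (nat_lit 0) (p (nat_lit 0x9890a888a1a) (nat_lit 0) (p (nat_lit 0x109088a08079a) (nat_lit 0) (p (nat_lit 0x8880987871a) (nat_lit 0) (p (nat_lit 0x8000000000800080907088a) (nat_lit 0) (p (nat_lit 0x8000000000800078886860a) (nat_lit 0) (p (nat_lit 0x10688060782) (nat_lit 0) (p (nat_lit 0x607858702) (nat_lit 0) (p (nat_lit 0x10587050482) (nat_lit 0) (p (nat_lit 0x506848402) (nat_lit 0) (p (nat_lit 0x16000c) (nat_lit 0) (p (nat_lit 0x50612) (nat_lit 0) (p (nat_lit 0x40592) (nat_lit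 0) (p (nat_lit 0x40492) (nat_lit 0) (p (nat_lit 0x30412) (nat_lit 0) (p (nat_lit 0x30212) (nat_lit 0) (p (nat_lit 0x20192) (nat_lit 0) (p (nat_lit 0x20092) (nat_lit 0) (p (nat_lit 0x10012) (nat_lit 0) pn))))))))))))))))))))))))))))))) :=
  Cl.node (nat_lit 0xc1) (nat_lit 2) (by decide +kernel) (ClAll.succ (ClAll.succ ClAll.zero s412) s413)

def n150 : Cl (O (nat_lit 5)) (R (nat_lit 104465))
    (p (nat_lit 0x380c2) (nat_lit 1) (p (nat_lit 0x44c2a) (nat_lit 1) (p (nat_lit 0x41) (nat_lit 0) (p (nat_lit 0x200014) (nat_lit 0) (p (nat_lit 0x200004) (nat_lit 0) (p (nat_lit 0xd1) (nat_lit 0) (p (nat_lit 0x109) (nat_lit 1) (p (nat_lit 0x101) (nat_lit 0) (p (nat_lit 0x119) (nat_lit 0) (p (nat_lit 0xc9) (nat_lit 0) (p (nat_lit 0x89) (nat_lit 1) (p (nat_lit 0x41) (nat_lit 0) (p (nat_lit 0x10a098b090a9a) (nat_lit 0) (p (nat_lit 0x9890a888a1a) (nat_lit 0) (p (nat_lit 0x109088a08079a) (nat_lit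 0) (p (nat_lit 0x8880987871a) (nat_lit 0) (p (nat_lit 0x8000000000800080907088a) (nat_lit 0) (p (nat_lit 0x8000000000800078886860a) (nat_lit 0) (p (nat_lit 0x10688060782) (nat_lit 0) (p (nat_lit 0x607858702) (nat_lit 0) (p (nat_lit 0x10587050482) (nat_lit 0) (p (nat_lit 0x506848402) (nat_lit 0) (p (nat_lit 0x16000c) (nat_lit 0) (p (nat_lit 0x50612) (nat_lit 0) (p (nat_lit 0x40592) (nat_lit 0) (p (nat_lit 0x40492) (nat_lit 0) (p (nat_lit 0x30412) (nat_lit 0) (p (nat_lit 0x30212) (nat_lit 0) (p (nat_lit 0x20192) (nat_lit 0) (p (nat_lit 0x20092) (nat_lit 0) (p (nat_lit 0x10012) (nat_lit 0) pn))))))))))))))))))))))))))))))) :=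
  Cl.node (nat_lit 0xc1) (nat_lit 2) (by decide +kernel) (ClAll.succ (ClAll.succ ClAll.zero s414) s415)

def n151 : Cl (O (nat_lit 5)) (R (nat_lit 104465))
    (p (nat_lit 0xc1) (nat_lit 0) (p (nat_lit 0x200004) (nat_lit 0) (p (nat_lit 0xb000c) (nat_lit 0) (p (nat_lit 0x380c2) (nat_lit 0) (p (nat_lit 0x444aa) (nat_lit 7) (p (nat_lit 0xd1) (nat_lit 1) (p (nat_lit 0x109) (nat_lit 1) (p (nat_lit 0x101) (nat_lit 0) (p (nat_lit 0x119) (nat_lit 0) (p (nat_lit 0xc9) (nat_lit 0) (p (nat_lit 0x89) (nat_lit 1) (p (nat_lit 0x41) (nat_lit 0) (p (nat_lit 0x10a098b090a9a) (nat_lit 0) (p (nat_lit 0x9890a888a1a) (nat_lit 0) (p (nat_lit 0x109088a08079a) (nat_lit 0) (p (nat_lit 0x8880987871a) (nat_lit 0) (p (nat_lit 0x8000000000800080907088a) (nat_lit 0) (p (nat_lit 0x8000000000800078886860a) (nat_lit 0) (p (nat_lit 0x10688060782) (nat_lit 0) (p (nat_lit 0x607858702) (nat_lit 0) (p (nat_lit 0x10587050482)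 (nat_lit 0) (p (nat_lit 0x506848402) (nat_lit 0) (p (nat_lit 0x16000c) (nat_lit 0) (p (nat_lit 0x50612) (nat_lit 0) (p (nat_lit 0x40592) (nat_lit 0) (p (nat_lit 0x40492) (nat_lit 0) (p (nat_lit 0x30412) (nat_lit 0) (p (nat_lit 0x30212) (nat_lit 0) (p (nat_lit 0x20192) (nat_lit 0) (p (nat_lit 0x20092) (nat_lit 0) (p (nat_lit 0x10012) (nat_lit 0) pn))))))))))))))))))))))))))))))) :=
  Cl.node (nat_lit 0x100004) (nat_lit 2) (by decide +kernel) (ClAll.succ (ClAll.succ ClAll.zero n118) s439)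

def n152 : Cl (O (nat_lit 5)) (R (nat_lit 104465))
    (p (nat_lit 0xc1) (nat_lit 0) (p (nat_lit 0x200004) (nat_lit 0) (p (nat_lit 0xb000c) (nat_lit 0) (p (nat_lit 0x380c2) (nat_lit 1) (p (nat_lit 0x444aa) (nat_lit 7) (p (nat_lit 0xd1) (nat_lit 1) (p (nat_lit 0x109) (nat_lit 1) (p (nat_lit 0x101) (nat_lit 0) (p (nat_lit 0x119) (nat_lit 0) (p (nat_lit 0xc9) (nat_lit 0) (p (nat_lit 0x89) (nat_lit 1) (p (nat_lit 0x41) (nat_lit 0) (p (nat_lit 0x10a098b090a9a) (nat_lit 0) (p (nat_lit 0x9890a888a1a) (nat_lit 0) (p (nat_lit 0x109088a08079a) (nat_lit 0) (p (nat_lit 0x8880987871a) (nat_lit 0) (p (nat_lit 0x8000000000800080907088a) (nat_lit 0) (p (nat_lit 0x8000000000800078886860a) (nat_lit 0) (p (nat_lit 0x10688060782) (nat_lit 0) (p (nat_lit 0x607858702) (nat_lit 0) (p (nat_lit 0x10587050482) (nat_lit 0) (p (nat_lit 0x506848402) (nat_lit 0) (p (nat_lit 0x16000c) (nat_lit 0) (p (nat_lit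 0x50612) (nat_lit 0) (p (nat_lit 0x40592) (nat_lit 0) (p (nat_lit 0x40492) (nat_lit 0) (p (nat_lit 0x30412) (nat_lit 0) (p (nat_lit 0x30212) (nat_lit 0) (p (nat_lit 0x20192) (nat_lit 0) (p (nat_lit 0x20092) (nat_lit 0) (p (nat_lit 0x10012) (nat_lit 0) pn))))))))))))))))))))))))))))))) :=
  Cl.node (nat_lit 0x100004) (nat_lit 2) (by decide +kernel) (ClAll.succ (ClAll.succ ClAll.zero n119) s456)

def n153 : Cl (O (nat_lit 5)) (R (nat_lit 104465))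
    (p (nat_lit 0x380c2) (nat_lit 0) (p (nat_lit 0x44c2a) (nat_lit 0) (p (nat_lit 0x109) (nat_lit 1) (p (nat_lit 0x200014) (nat_lit 0) (p (nat_lit 0x200004) (nat_lit 0) (p (nat_lit 0xd1) (nat_lit 0) (p (nat_lit 0xc1) (nat_lit 0) (p (nat_lit 0x101) (nat_lit 1) (p (nat_lit 0x119) (nat_lit 0) (p (nat_lit 0xc9) (nat_lit 0) (p (nat_lit 0x89) (nat_lit 1) (p (nat_lit 0x41) (nat_lit 0) (p (nat_lit 0x10a098b090a9a) (nat_lit 0) (p (nat_lit 0x9890a888a1a) (nat_lit 0) (p (nat_lit 0x109088a08079a) (nat_lit 0) (p (nat_lit 0x8880987871a) (nat_lit 0) (p (nat_lit 0x8000000000800080907088a) (nat_lit 0) (p (nat_lit 0x8000000000800078886860a) (nat_lit 0) (p (nat_lit 0x10688060782) (nat_lit 0) (p (nat_lit 0x607858702) (nat_lit 0) (p (nat_lit 0x10587050482) (nat_lit 0) (p (nat_lit 0x506848402) (nat_lit 0) (p (nat_lit 0x16000c) (nat_lit 0) (p (nat_lit 0x50612) (nat_lit 0) (p (nat_lit 0x40592) (nat_lit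 0) (p (nat_lit 0x40492) (nat_lit 0) (p (nat_lit 0x30412) (nat_lit 0) (p (nat_lit 0x30212) (nat_lit 0) (p (nat_lit 0x20192) (nat_lit 0) (p (nat_lit 0x20092) (nat_lit 0) (p (nat_lit 0x10012) (nat_lit 0) pn))))))))))))))))))))))))))))))) :=
  Cl.node (nat_lit 0xb000c) (nat_lit 2) (by decide +kernel) (ClAll.succ (ClAll.succ ClAll.zero n120) s467)

def n154 : Cl (O (nat_lit 5)) (R (nat_lit 104465))
    (p (nat_lit 0x380c2) (nat_lit 0) (p (nat_lit 0x44c2a) (nat_lit 1) (p (nat_lit 0x109) (nat_lit 1) (p (nat_lit 0x200014) (nat_lit 0) (p (nat_lit 0x200004) (nat_lit 0) (p (nat_lit 0xd1) (nat_lit 0) (p (nat_lit 0xc1) (nat_lit 0) (p (nat_lit 0x101) (nat_lit 1) (p (nat_lit 0x119) (nat_lit 0) (p (nat_lit 0xc9) (nat_lit 0) (p (nat_lit 0x89) (nat_lit 1) (p (nat_lit 0x41) (nat_lit 0) (p (nat_lit 0x10a098b090a9a) (nat_lit 0) (p (nat_lit 0x9890a888a1a) (nat_lit 0) (p (nat_lit 0x109088a08079a) (nat_lit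 0) (p (nat_lit 0x8880987871a) (nat_lit 0) (p (nat_lit 0x8000000000800080907088a) (nat_lit 0) (p (nat_lit 0x8000000000800078886860a) (nat_lit 0) (p (nat_lit 0x10688060782) (nat_lit 0) (p (nat_lit 0x607858702) (nat_lit 0) (p (nat_lit 0x10587050482) (nat_lit 0) (p (nat_lit 0x506848402) (nat_lit 0) (p (nat_lit 0x16000c) (nat_lit 0) (p (nat_lit 0x50612) (nat_lit 0) (p (nat_lit 0x40592) (nat_lit 0) (p (nat_lit 0x40492) (nat_lit 0) (p (nat_lit 0x30412) (nat_lit 0) (p (nat_lit 0x30212) (nat_lit 0) (p (nat_lit 0x20192) (nat_lit 0) (p (nat_lit 0x20092) (nat_lit 0) (p (nat_lit 0x10012) (nat_lit 0) pn))))))))))))))))))))))))))))))) :=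
  Cl.node (nat_lit 0x89) (nat_lit 2) (by decide +kernel) (ClAll.succ (ClAll.succ ClAll.zero s468) s469)

def n155 : Cl (O (nat_lit 5)) (R (nat_lit 104465))
    (p (nat_lit 0x200004) (nat_lit 0) (p (nat_lit 0x109) (nat_lit 0) (p (nat_lit 0xb000c) (nat_lit 0) (p (nat_lit 0x380c2) (nat_lit 1) (p (nat_lit 0x444aa) (nat_lit 7) (p (nat_lit 0x111) (nat_lit 1) (p (nat_lit 0xd1) (nat_lit 1) (p (nat_lit 0xc1) (nat_lit 0) (p (nat_lit 0x119) (nat_lit 1) (p (nat_lit 0xc9) (nat_lit 0) (p (nat_lit 0x89) (nat_lit 1) (p (nat_lit 0x41) (nat_lit 0) (p (nat_lit 0x10a098b090a9a) (nat_lit 0) (p (nat_lit 0x9890a888a1a) (nat_lit 0) (p (nat_lit 0x109088a08079a) (nat_lit 0) (p (nat_lit 0x8880987871a) (nat_lit 0) (p (nat_lit 0x8000000000800080907088a) (nat_lit 0) (p (nat_lit 0x8000000000800078886860a) (nat_lit 0) (p (nat_lit 0x10688060782) (nat_lit 0) (p (nat_lit 0x607858702) (nat_lit 0) (p (nat_lit 0x10587050482)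 (nat_lit 0) (p (nat_lit 0x506848402) (nat_lit 0) (p (nat_lit 0x16000c) (nat_lit 0) (p (nat_lit 0x50612) (nat_lit 0) (p (nat_lit 0x40592) (nat_lit 0) (p (nat_lit 0x40492) (nat_lit 0) (p (nat_lit 0x30412) (nat_lit 0) (p (nat_lit 0x30212) (nat_lit 0) (p (nat_lit 0x20192) (nat_lit 0) (p (nat_lit 0x20092) (nat_lit 0) (p (nat_lit 0x10012) (nat_lit 0) pn))))))))))))))))))))))))))))))) :=
  Cl.node (nat_lit 0x100004) (nat_lit 2) (by decide +kernel) (ClAll.succ (ClAll.succ ClAll.zero s510) s511)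

def n156 : Cl (O (nat_lit 5)) (R (nat_lit 104465))
    (p (nat_lit 0x200004) (nat_lit 0) (p (nat_lit 0x109) (nat_lit 0) (p (nat_lit 0xb000c) (nat_lit 0) (p (nat_lit 0x380c2) (nat_lit 1) (p (nat_lit 0x444aa) (nat_lit 7) (p (nat_lit 0x111) (nat_lit 1) (p (nat_lit 0x101) (nat_lit 0) (p (nat_lit 0xc1) (nat_lit 1) (p (nat_lit 0x119) (nat_lit 1) (p (nat_lit 0xc9) (nat_lit 0) (p (nat_lit 0x89) (nat_lit 1) (p (nat_lit 0x41) (nat_lit 0) (p (nat_lit 0x10a098b090a9a) (nat_lit 0) (p (nat_lit 0x9890a888a1a) (nat_lit 0) (p (nat_lit 0x109088a08079a) (nat_lit 0) (p (nat_lit 0x8880987871a) (nat_lit 0) (p (nat_lit 0x8000000000800080907088a) (nat_lit 0) (p (nat_lit 0x8000000000800078886860a) (nat_lit 0) (p (nat_lit 0x10688060782) (nat_lit 0) (p (nat_lit 0x607858702) (nat_lit 0) (p (nat_lit 0x10587050482) (nat_lit 0) (p (nat_lit 0x506848402) (nat_lit 0) (p (nat_lit 0x16000c) (nat_lit 0) (p (nat_lit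 0x50612) (nat_lit 0) (p (nat_lit 0x40592) (nat_lit 0) (p (nat_lit 0x40492) (nat_lit 0) (p (nat_lit 0x30412) (nat_lit 0) (p (nat_lit 0x30212) (nat_lit 0) (p (nat_lit 0x20192) (nat_lit 0) (p (nat_lit 0x20092) (nat_lit 0) (p (nat_lit 0x10012) (nat_lit 0) pn))))))))))))))))))))))))))))))) :=
  Cl.node (nat_lit 0x100004) (nat_lit 2) (by decide +kernel) (ClAll.succ (ClAll.succ ClAll.zero n121) s546)

def n157 : Cl (O (nat_lit 5)) (R (nat_lit 104465))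
    (p (nat_lit 0x200014) (nat_lit 0) (p (nat_lit 0x200004) (nat_lit 0) (p (nat_lit 0x380c2) (nat_lit 0) (p (nat_lit 0x3cc2a) (nat_lit 2) (p (nat_lit 0x111) (nat_lit 1) (p (nat_lit 0x89) (nat_lit 0) (p (nat_lit 0x109) (nat_lit 1) (p (nat_lit 0x101) (nat_lit 0) (p (nat_lit 0x119) (nat_lit 0) (p (nat_lit 0xd1) (nat_lit 0) (p (nat_lit 0x81) (nat_lit 0) (p (nat_lit 0x41) (nat_lit 1) (p (nat_lit 0x10a098b090a9a) (nat_lit 0) (p (nat_lit 0x9890a888a1a) (nat_lit 0) (p (nat_lit 0x109088a08079a) (nat_lit 0) (p (nat_lit 0x8880987871a) (nat_lit 0) (p (nat_lit 0x8000000000800080907088a) (nat_lit 0) (p (nat_lit 0x8000000000800078886860a) (nat_lit 0) (p (nat_lit 0x10688060782) (nat_lit 0) (p (nat_lit 0x607858702) (nat_lit 0) (p (nat_lit 0x10587050482) (nat_lit 0) (p (nat_lit 0x506848402) (nat_lit 0) (p (nat_lit 0x16000c) (nat_lit 0) (p (nat_lit 0x50612) (nat_lit 0) (p (nat_lit 0x40592) (nat_lit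 0) (p (nat_lit 0x40492) (nat_lit 0) (p (nat_lit 0x30412) (nat_lit 0) (p (nat_lit 0x30212) (nat_lit 0) (p (nat_lit 0x20192) (nat_lit 0) (p (nat_lit 0x20092) (nat_lit 0) (p (nat_lit 0x10012) (nat_lit 0) pn))))))))))))))))))))))))))))))) :=
  Cl.node (nat_lit 0x100014) (nat_lit 2) (by decide +kernel) (ClAll.succ (ClAll.succ ClAll.zero n122) s593)

def n158 : Cl (O (nat_lit 5)) (R (nat_lit 104465))
    (p (nat_lit 0x1fc004) (nat_lit 0) (p (nat_lit 0xb000c) (nat_lit 1) (p (nat_lit 0x380c2) (nat_lit 1) (p (nat_lit 0x4c42a) (nat_lit 10) (p (nat_lit 0xc9) (nat_lit 0) (p (nat_lit 0x89) (nat_lit 1) (p (nat_lit 0x109) (nat_lit 1) (p (nat_lit 0x101) (nat_lit 0) (p (nat_lit 0x119) (nat_lit 0) (p (nat_lit 0xd1) (nat_lit 0) (p (nat_lit 0x81) (nat_lit 0) (p (nat_lit 0x41) (nat_lit 1) (p (nat_lit 0x10a098b090a9a) (nat_lit 0) (p (nat_lit 0x9890a888a1a) (nat_lit 0) (p (nat_lit 0x109088a08079a) (nat_lit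 0) (p (nat_lit 0x8880987871a) (nat_lit 0) (p (nat_lit 0x8000000000800080907088a) (nat_lit 0) (p (nat_lit 0x8000000000800078886860a) (nat_lit 0) (p (nat_lit 0x10688060782) (nat_lit 0) (p (nat_lit 0x607858702) (nat_lit 0) (p (nat_lit 0x10587050482) (nat_lit 0) (p (nat_lit 0x506848402) (nat_lit 0) (p (nat_lit 0x16000c) (nat_lit 0) (p (nat_lit 0x50612) (nat_lit 0) (p (nat_lit 0x40592) (nat_lit 0) (p (nat_lit 0x40492) (nat_lit 0) (p (nat_lit 0x30412) (nat_lit 0) (p (nat_lit 0x30212) (nat_lit 0) (p (nat_lit 0x20192) (nat_lit 0) (p (nat_lit 0x20092) (nat_lit 0) (p (nat_lit 0x10012) (nat_lit 0) pn))))))))))))))))))))))))))))))) :=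
  Cl.node (nat_lit 0x1fc014) (nat_lit 2) (by decide +kernel) (ClAll.succ (ClAll.succ ClAll.zero n123) s623)

def n159 : Cl (O (nat_lit 5)) (R (nat_lit 104465))
    (p (nat_lit 0x100014) (nat_lit 0) (p (nat_lit 0x200014) (nat_lit 0) (p (nat_lit 0x200004) (nat_lit 0) (p (nat_lit 0x380c2) (nat_lit 0) (p (nat_lit 0x3cc2a) (nat_lit 2) (p (nat_lit 0x89) (nat_lit 0) (p (nat_lit 0xc1) (nat_lit 0) (p (nat_lit 0x101) (nat_lit 1) (p (nat_lit 0x119) (nat_lit 0) (p (nat_lit 0xd1) (nat_lit 0) (p (nat_lit 0x81) (nat_lit 0) (p (nat_lit 0x41) (nat_lit 1) (p (nat_lit 0x10a098b090a9a) (nat_lit 0) (p (nat_lit 0x9890a888a1a) (nat_lit 0) (p (nat_lit 0x109088a08079a) (nat_lit 0) (p (nat_lit 0x8880987871a) (nat_lit 0) (p (nat_lit 0x8000000000800080907088a) (nat_lit 0) (p (nat_lit 0x8000000000800078886860a) (nat_lit 0) (p (nat_lit 0x10688060782) (nat_lit 0) (p (nat_lit 0x607858702) (nat_lit 0) (p (nat_lit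 0x10587050482) (nat_lit 0) (p (nat_lit 0x506848402) (nat_lit 0) (p (nat_lit 0x16000c) (nat_lit 0) (p (nat_lit 0x50612) (nat_lit 0) (p (nat_lit 0x40592) (nat_lit 0) (p (nat_lit 0x40492) (nat_lit 0) (p (nat_lit 0x30412) (nat_lit 0) (p (nat_lit 0x30212) (nat_lit 0) (p (nat_lit 0x20192) (nat_lit 0) (p (nat_lit 0x20092) (nat_lit 0) (p (nat_lit 0x10012) (nat_lit 0) pn))))))))))))))))))))))))))))))) :=
  Cl.node (nat_lit 0xb000c) (nat_lit 2) (by decide +kernel) (ClAll.succ (ClAll.succ ClAll.zero s629) n124)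

def n160 : Cl (O (nat_lit 5)) (R (nat_lit 104465))
    (p (nat_lit 0x1fc014) (nat_lit 0) (p (nat_lit 0x1fc004) (nat_lit 0) (p (nat_lit 0xb000c) (nat_lit 1) (p (nat_lit 0x380c2) (nat_lit 0) (p (nat_lit 0x3cc2a) (nat_lit 2) (p (nat_lit 0x89) (nat_lit 0) (p (nat_lit 0xc1) (nat_lit 1) (p (nat_lit 0x101) (nat_lit 1) (p (nat_lit 0x119) (nat_lit 0) (p (nat_lit 0xd1) (nat_lit 0) (p (nat_lit 0x81) (nat_lit 0) (p (nat_lit 0x41) (nat_lit 1) (p (nat_lit 0x10a098b090a9a) (nat_lit 0) (p (nat_lit 0x9890a888a1a) (nat_lit 0) (p (nat_lit 0x109088a08079a) (nat_lit 0) (p (nat_lit 0x8880987871a) (nat_lit 0) (p (nat_lit 0x8000000000800080907088a) (nat_lit 0) (p (nat_lit 0x8000000000800078886860a) (nat_lit 0) (p (nat_lit 0x10688060782) (nat_lit 0) (p (nat_lit 0x607858702) (nat_lit 0) (p (nat_lit 0x10587050482) (nat_lit 0) (p (nat_lit 0x506848402) (nat_lit 0) (p (nat_lit 0x16000c) (nat_lit 0) (p (nat_lit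 0x50612) (nat_lit 0) (p (nat_lit 0x40592) (nat_lit 0) (p (nat_lit 0x40492) (nat_lit 0) (p (nat_lit 0x30412) (nat_lit 0) (p (nat_lit 0x30212) (nat_lit 0) (p (nat_lit 0x20192) (nat_lit 0) (p (nat_lit 0x20092) (nat_lit 0) (p (nat_lit 0x10012) (nat_lit 0) pn))))))))))))))))))))))))))))))) :=
  Cl.node (nat_lit 0x10800c) (nat_lit 2) (by decide +kernel) (ClAll.succ (ClAll.succ ClAll.zero s675) s676)

def n161 : Cl (O (nat_lit 5)) (R (nat_lit 104465))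
    (p (nat_lit 0x200014) (nat_lit 0) (p (nat_lit 0x380c2) (nat_lit 0) (p (nat_lit 0x4c42a) (nat_lit 10) (p (nat_lit 0x119) (nat_lit 1) (p (nat_lit 0xc9) (nat_lit 0) (p (nat_lit 0x89) (nat_lit 1) (p (nat_lit 0x109) (nat_lit 1) (p (nat_lit 0x101) (nat_lit 0) (p (nat_lit 0x111) (nat_lit 0) (p (nat_lit 0xd1) (nat_lit 1) (p (nat_lit 0x81) (nat_lit 0) (p (nat_lit 0x41) (nat_lit 1) (p (nat_lit 0x10a098b090a9a) (nat_lit 0) (p (nat_lit 0x9890a888a1a) (nat_lit 0) (p (nat_lit 0x109088a08079a) (nat_lit 0) (p (nat_lit 0x8880987871a) (nat_lit 0) (p (nat_lit 0x8000000000800080907088a) (nat_lit 0) (p (nat_lit 0x8000000000800078886860a) (nat_lit 0) (p (nat_lit 0x10688060782) (nat_lit 0) (p (nat_lit 0x607858702) (nat_lit 0) (p (nat_lit 0x10587050482) (nat_lit 0) (p (nat_lit 0x506848402) (nat_lit 0) (p (nat_lit 0x16000c) (nat_lit 0) (p (nat_lit 0x50612) (nat_lit 0) (p (nat_lit 0x40592) (nat_lit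 0) (p (nat_lit 0x40492) (nat_lit 0) (p (nat_lit 0x30412) (nat_lit 0) (p (nat_lit 0x30212) (nat_lit 0) (p (nat_lit 0x20192) (nat_lit 0) (p (nat_lit 0x20092) (nat_lit 0) (p (nat_lit 0x10012) (nat_lit 0) pn))))))))))))))))))))))))))))))) :=
  Cl.node (nat_lit 0x200004) (nat_lit 2) (by decide +kernel) (ClAll.succ (ClAll.succ ClAll.zero n125) s814)

def n162 : Cl (O (nat_lit 5)) (R (nat_lit 104465))
    (p (nat_lit 0xb000c) (nat_lit 0) (p (nat_lit 0x380c2) (nat_lit 1) (p (nat_lit 0x4c42a) (nat_lit 10) (p (nat_lit 0x119) (nat_lit 1) (p (nat_lit 0xc9) (nat_lit 0) (p (nat_lit 0x89) (nat_lit 1) (p (nat_lit 0x109) (nat_lit 1) (p (nat_lit 0x101) (nat_lit 0) (p (nat_lit 0x111) (nat_lit 0) (p (nat_lit 0xd1) (nat_lit 1) (p (nat_lit 0x81) (nat_lit 0) (p (nat_lit 0x41) (nat_lit 1) (p (nat_lit 0x10a098b090a9a) (nat_lit 0) (p (nat_lit 0x9890a888a1a) (nat_lit 0) (p (nat_lit 0x109088a08079a) (nat_lit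 0) (p (nat_lit 0x8880987871a) (nat_lit 0) (p (nat_lit 0x8000000000800080907088a) (nat_lit 0) (p (nat_lit 0x8000000000800078886860a) (nat_lit 0) (p (nat_lit 0x10688060782) (nat_lit 0) (p (nat_lit 0x607858702) (nat_lit 0) (p (nat_lit 0x10587050482) (nat_lit 0) (p (nat_lit 0x506848402) (nat_lit 0) (p (nat_lit 0x16000c) (nat_lit 0) (p (nat_lit 0x50612) (nat_lit 0) (p (nat_lit 0x40592) (nat_lit 0) (p (nat_lit 0x40492) (nat_lit 0) (p (nat_lit 0x30412) (nat_lit 0) (p (nat_lit 0x30212) (nat_lit 0) (p (nat_lit 0x20192) (nat_lit 0) (p (nat_lit 0x20092) (nat_lit 0) (p (nat_lit 0x10012) (nat_lit 0) pn))))))))))))))))))))))))))))))) :=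
  Cl.node (nat_lit 0x3cc2a) (nat_lit 12) (by decide +kernel) (ClAll.succ (ClAll.succ (ClAll.succ (ClAll.succ (ClAll.succ (ClAll.succ (ClAll.succ (ClAll.succ (ClAll.succ (ClAll.succ (ClAll.succ (ClAll.succ ClAll.zero s816) s817) n126) s822) s823) s824) s825) s826) s827) s828) s829) s830)

def n163 : Cl (O (nat_lit 5)) (R (nat_lit 104465))
    (p (nat_lit 0xb000c) (nat_lit 1) (p (nat_lit 0x380c2) (nat_lit 1) (p (nat_lit 0x4c42a) (nat_lit 10) (p (nat_lit 0x119) (nat_lit 1) (p (nat_lit 0xc9) (nat_lit 0) (p (nat_lit 0x89) (nat_lit 1) (p (nat_lit 0x109) (nat_lit 1) (p (nat_lit 0x101) (nat_lit 0) (p (nat_lit 0x111) (nat_lit 0) (p (nat_lit 0xd1) (nat_lit 1) (p (nat_lit 0x81) (nat_lit 0) (p (nat_lit 0x41) (nat_lit 1) (p (nat_lit 0x10a098b090a9a) (nat_lit 0) (p (nat_lit 0x9890a888a1a) (nat_lit 0) (p (nat_lit 0x109088a08079a) (nat_lit 0) (p (nat_lit 0x8880987871a) (nat_lit 0) (p (nat_lit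 0x8000000000800080907088a) (nat_lit 0) (p (nat_lit 0x8000000000800078886860a) (nat_lit 0) (p (nat_lit 0x10688060782) (nat_lit 0) (p (nat_lit 0x607858702) (nat_lit 0) (p (nat_lit 0x10587050482) (nat_lit 0) (p (nat_lit 0x506848402) (nat_lit 0) (p (nat_lit 0x16000c) (nat_lit 0) (p (nat_lit 0x50612) (nat_lit 0) (p (nat_lit 0x40592) (nat_lit 0) (p (nat_lit 0x40492) (nat_lit 0) (p (nat_lit 0x30412) (nat_lit 0) (p (nat_lit 0x30212) (nat_lit 0) (p (nat_lit 0x20192) (nat_lit 0) (p (nat_lit 0x20092) (nat_lit 0) (p (nat_lit 0x10012) (nat_lit 0) pn))))))))))))))))))))))))))))))) :=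
  Cl.node (nat_lit 0x1fc004) (nat_lit 2) (by decide +kernel) (ClAll.succ (ClAll.succ ClAll.zero n127) s837)

def n164 : Cl (O (nat_lit 5)) (R (nat_lit 104465))
    (p (nat_lit 0x1fc014) (nat_lit 0) (p (nat_lit 0x1fc004) (nat_lit 0) (p (nat_lit 0xb000c) (nat_lit 1) (p (nat_lit 0x380c2) (nat_lit 0) (p (nat_lit 0x3cc2a) (nat_lit 2) (p (nat_lit 0xc9) (nat_lit 0) (p (nat_lit 0x89) (nat_lit 1) (p (nat_lit 0x101) (nat_lit 1) (p (nat_lit 0x111) (nat_lit 0) (p (nat_lit 0xd1) (nat_lit 1) (p (nat_lit 0x81) (nat_lit 0) (p (nat_lit 0x41) (nat_lit 1) (p (nat_lit 0x10a098b090a9a) (nat_lit 0) (p (nat_lit 0x9890a888a1a) (nat_lit 0) (p (nat_lit 0x109088a08079a) (nat_lit 0) (p (nat_lit 0x8880987871a) (nat_lit 0) (p (nat_lit 0x8000000000800080907088a) (nat_lit 0) (p (nat_lit 0x8000000000800078886860a) (nat_lit 0) (p (nat_lit 0x10688060782) (nat_lit 0) (p (nat_lit 0x607858702) (nat_lit 0) (p (nat_lit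 0x10587050482) (nat_lit 0) (p (nat_lit 0x506848402) (nat_lit 0) (p (nat_lit 0x16000c) (nat_lit 0) (p (nat_lit 0x50612) (nat_lit 0) (p (nat_lit 0x40592) (nat_lit 0) (p (nat_lit 0x40492) (nat_lit 0) (p (nat_lit 0x30412) (nat_lit 0) (p (nat_lit 0x30212) (nat_lit 0) (p (nat_lit 0x20192) (nat_lit 0) (p (nat_lit 0x20092) (nat_lit 0) (p (nat_lit 0x10012) (nat_lit 0) pn))))))))))))))))))))))))))))))) :=
  Cl.node (nat_lit 0x100004) (nat_lit 2) (by decide +kernel) (ClAll.succ (ClAll.succ ClAll.zero s857) s858)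

def n165 : Cl (O (nat_lit 5)) (R (nat_lit 104465))
    (p (nat_lit 0xb000c) (nat_lit 1) (p (nat_lit 0x380c2) (nat_lit 0) (p (nat_lit 0x444aa) (nat_lit 7) (p (nat_lit 0x81) (nat_lit 1) (p (nat_lit 0xc9) (nat_lit 1) (p (nat_lit 0x109) (nat_lit 1) (p (nat_lit 0x101) (nat_lit 0) (p (nat_lit 0x119) (nat_lit 0) (p (nat_lit 0xd1) (nat_lit 0) (p (nat_lit 0x89) (nat_lit 0) (p (nat_lit 0x41) (nat_lit 0) (p (nat_lit 0x10a098b090a9a) (nat_lit 0) (p (nat_lit 0x9890a888a1a) (nat_lit 0) (p (nat_lit 0x109088a08079a) (nat_lit 0) (p (nat_lit 0x8880987871a) (nat_lit 0) (p (nat_lit 0x8000000000800080907088a) (nat_lit 0) (p (nat_lit 0x8000000000800078886860a) (nat_lit 0) (p (nat_lit 0x10688060782) (nat_lit 0) (p (nat_lit 0x607858702) (nat_lit 0) (p (nat_lit 0x10587050482) (nat_lit 0) (p (nat_lit 0x506848402) (nat_lit 0) (p (nat_lit 0x16000c) (nat_lit 0) (p (nat_lit 0x50612) (nat_lit 0) (p (nat_lit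 0x40592) (nat_lit 0) (p (nat_lit 0x40492) (nat_lit 0) (p (nat_lit 0x30412) (nat_lit 0) (p (nat_lit 0x30212) (nat_lit 0) (p (nat_lit 0x20192) (nat_lit 0) (p (nat_lit 0x20092) (nat_lit 0) (p (nat_lit 0x10012) (nat_lit 0) pn)))))))))))))))))))))))))))))) :=
  Cl.node (nat_lit 0x1fc004) (nat_lit 2) (by decide +kernel) (ClAll.succ (ClAll.succ ClAll.zero n128) s26)

def n166 : Cl (O (nat_lit 5)) (R (nat_lit 104465))
    (p (nat_lit 0xb000c) (nat_lit 0) (p (nat_lit 0x380c2) (nat_lit 0) (p (nat_lit 0x444aa) (nat_lit 7) (p (nat_lit 0x111) (nat_lit 0) (p (nat_lit 0xc9) (nat_lit 1) (p (nat_lit 0x81) (nat_lit 0) (p (nat_lit 0x101) (nat_lit 1) (p (nat_lit 0x119) (nat_lit 0) (p (nat_lit 0xd1) (nat_lit 0) (p (nat_lit 0x89) (nat_lit 0) (p (nat_lit 0x41) (nat_lit 0) (p (nat_lit 0x10a098b090a9a) (nat_lit 0) (p (nat_lit 0x9890a888a1a) (nat_lit 0) (p (nat_lit 0x109088a08079a) (nat_lit 0) (p (nat_lit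 0x8880987871a) (nat_lit 0) (p (nat_lit 0x8000000000800080907088a) (nat_lit 0) (p (nat_lit 0x8000000000800078886860a) (nat_lit 0) (p (nat_lit 0x10688060782) (nat_lit 0) (p (nat_lit 0x607858702) (nat_lit 0) (p (nat_lit 0x10587050482) (nat_lit 0) (p (nat_lit 0x506848402) (nat_lit 0) (p (nat_lit 0x16000c) (nat_lit 0) (p (nat_lit 0x50612) (nat_lit 0) (p (nat_lit 0x40592) (nat_lit 0) (p (nat_lit 0x40492) (nat_lit 0) (p (nat_lit 0x30412) (nat_lit 0) (p (nat_lit 0x30212) (nat_lit 0) (p (nat_lit 0x20192) (nat_lit 0) (p (nat_lit 0x20092) (nat_lit 0) (p (nat_lit 0x10012) (nat_lit 0) pn)))))))))))))))))))))))))))))) :=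
  Cl.node (nat_lit 0x89) (nat_lit 2) (by decide +kernel) (ClAll.succ (ClAll.succ ClAll.zero s54) s55)

def n167 : Cl (O (nat_lit 5)) (R (nat_lit 104465))
    (p (nat_lit 0xb000c) (nat_lit 1) (p (nat_lit 0x380c2) (nat_lit 0) (p (nat_lit 0x444aa) (nat_lit 7) (p (nat_lit 0x111) (nat_lit 0) (p (nat_lit 0xc9) (nat_lit 1) (p (nat_lit 0x81) (nat_lit 0) (p (nat_lit 0x101) (nat_lit 1) (p (nat_lit 0x119) (nat_lit 0) (p (nat_lit 0xd1) (nat_lit 0) (p (nat_lit 0x89) (nat_lit 0) (p (nat_lit 0x41) (nat_lit 0) (p (nat_lit 0x10a098b090a9a) (nat_lit 0) (p (nat_lit 0x9890a888a1a) (nat_lit 0) (p (nat_lit 0x109088a08079a) (nat_lit 0) (p (nat_lit 0x8880987871a) (nat_lit 0) (p (nat_lit 0x8000000000800080907088a) (nat_lit 0) (p (nat_lit 0x8000000000800078886860a) (nat_lit 0) (p (nat_lit 0x10688060782) (nat_lit 0) (p (nat_lit 0x607858702) (nat_lit 0) (p (nat_lit 0x10587050482) (nat_lit 0) (p (nat_lit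 0x506848402) (nat_lit 0) (p (nat_lit 0x16000c) (nat_lit 0) (p (nat_lit 0x50612) (nat_lit 0) (p (nat_lit 0x40592) (nat_lit 0) (p (nat_lit 0x40492) (nat_lit 0) (p (nat_lit 0x30412) (nat_lit 0) (p (nat_lit 0x30212) (nat_lit 0) (p (nat_lit 0x20192) (nat_lit 0) (p (nat_lit 0x20092) (nat_lit 0) (p (nat_lit 0x10012) (nat_lit 0) pn)))))))))))))))))))))))))))))) :=
  Cl.node (nat_lit 0x1fc004) (nat_lit 2) (by decide +kernel) (ClAll.succ (ClAll.succ ClAll.zero n129) s60)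

def n168 : Cl (O (nat_lit 5)) (R (nat_lit 104465))
    (p (nat_lit 0xb000c) (nat_lit 0) (p (nat_lit 0x380c2) (nat_lit 1) (p (nat_lit 0x444aa) (nat_lit 7) (p (nat_lit 0x111) (nat_lit 0) (p (nat_lit 0xc9) (nat_lit 1) (p (nat_lit 0x81) (nat_lit 0) (p (nat_lit 0x101) (nat_lit 1) (p (nat_lit 0x119) (nat_lit 0) (p (nat_lit 0xd1) (nat_lit 0) (p (nat_lit 0x89) (nat_lit 0) (p (nat_lit 0x41) (nat_lit 0) (p (nat_lit 0x10a098b090a9a) (nat_lit 0) (p (nat_lit 0x9890a888a1a) (nat_lit 0) (p (nat_lit 0x109088a08079a) (nat_lit 0) (p (nat_lit 0x8880987871a) (nat_lit 0) (p (nat_lit 0x8000000000800080907088a) (nat_lit 0) (p (nat_lit 0x8000000000800078886860a) (nat_lit 0) (p (nat_lit 0x10688060782) (nat_lit 0) (p (nat_lit 0x607858702) (nat_lit 0) (p (nat_lit 0x10587050482) (nat_lit 0) (p (nat_lit 0x506848402) (nat_lit 0) (p (nat_lit 0x16000c) (nat_lit 0) (p (nat_lit 0x50612) (nat_lit 0) (p (nat_lit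 0x40592) (nat_lit 0) (p (nat_lit 0x40492) (nat_lit 0) (p (nat_lit 0x30412) (nat_lit 0) (p (nat_lit 0x30212) (nat_lit 0) (p (nat_lit 0x20192) (nat_lit 0) (p (nat_lit 0x20092) (nat_lit 0) (p (nat_lit 0x10012) (nat_lit 0) pn)))))))))))))))))))))))))))))) :=
  Cl.node (nat_lit 0x89) (nat_lit 2) (by decide +kernel) (ClAll.succ (ClAll.succ ClAll.zero n130) s73)

def n169 : Cl (O (nat_lit 5)) (R (nat_lit 104465))
    (p (nat_lit 0xb000c) (nat_lit 1) (p (nat_lit 0x380c2) (nat_lit 1) (p (nat_lit 0x444aa) (nat_lit 7) (p (nat_lit 0x111) (nat_lit 0) (p (nat_lit 0xc9) (nat_lit 1) (p (nat_lit 0x81) (nat_lit 0) (p (nat_lit 0x101) (nat_lit 1) (p (nat_lit 0x119) (nat_lit 0) (p (nat_lit 0xd1) (nat_lit 0) (p (nat_lit 0x89) (nat_lit 0) (p (nat_lit 0x41) (nat_lit 0) (p (nat_lit 0x10a098b090a9a) (nat_lit 0) (p (nat_lit 0x9890a888a1a) (nat_lit 0) (p (nat_lit 0x109088a08079a) (nat_lit 0) (p (nat_lit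 0x8880987871a) (nat_lit 0) (p (nat_lit 0x8000000000800080907088a) (nat_lit 0) (p (nat_lit 0x8000000000800078886860a) (nat_lit 0) (p (nat_lit 0x10688060782) (nat_lit 0) (p (nat_lit 0x607858702) (nat_lit 0) (p (nat_lit 0x10587050482) (nat_lit 0) (p (nat_lit 0x506848402) (nat_lit 0) (p (nat_lit 0x16000c) (nat_lit 0) (p (nat_lit 0x50612) (nat_lit 0) (p (nat_lit 0x40592) (nat_lit 0) (p (nat_lit 0x40492) (nat_lit 0) (p (nat_lit 0x30412) (nat_lit 0) (p (nat_lit 0x30212) (nat_lit 0) (p (nat_lit 0x20192) (nat_lit 0) (p (nat_lit 0x20092) (nat_lit 0) (p (nat_lit 0x10012) (nat_lit 0) pn)))))))))))))))))))))))))))))) :=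
  Cl.node (nat_lit 0x1fc004) (nat_lit 2) (by decide +kernel) (ClAll.succ (ClAll.succ ClAll.zero n131) s78)

def n170 : Cl (O (nat_lit 5)) (R (nat_lit 104465))
    (p (nat_lit 0x200014) (nat_lit 0) (p (nat_lit 0x380c2) (nat_lit 0) (p (nat_lit 0x3cc2a) (nat_lit 2) (p (nat_lit 0x111) (nat_lit 1) (p (nat_lit 0xc9) (nat_lit 1) (p (nat_lit 0x81) (nat_lit 0) (p (nat_lit 0x101) (nat_lit 1) (p (nat_lit 0x119) (nat_lit 0) (p (nat_lit 0xd1) (nat_lit 0) (p (nat_lit 0x89) (nat_lit 0) (p (nat_lit 0x41) (nat_lit 0) (p (nat_lit 0x10a098b090a9a) (nat_lit 0) (p (nat_lit 0x9890a888a1a) (nat_lit 0) (p (nat_lit 0x109088a08079a) (nat_lit 0) (p (nat_lit 0x8880987871a) (nat_lit 0) (p (nat_lit 0x8000000000800080907088a) (nat_lit 0) (p (nat_lit 0x8000000000800078886860a) (nat_lit 0) (p (nat_lit 0x10688060782) (nat_lit 0) (p (nat_lit 0x607858702) (nat_lit 0) (p (nat_lit 0x10587050482) (nat_lit 0) (p (nat_lit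 0x506848402) (nat_lit 0) (p (nat_lit 0x16000c) (nat_lit 0) (p (nat_lit 0x50612) (nat_lit 0) (p (nat_lit 0x40592) (nat_lit 0) (p (nat_lit 0x40492) (nat_lit 0) (p (nat_lit 0x30412) (nat_lit 0) (p (nat_lit 0x30212) (nat_lit 0) (p (nat_lit 0x20192) (nat_lit 0) (p (nat_lit 0x20092) (nat_lit 0) (p (nat_lit 0x10012) (nat_lit 0) pn)))))))))))))))))))))))))))))) :=
  Cl.node (nat_lit 0x100014) (nat_lit 2) (by decide +kernel) (ClAll.succ (ClAll.succ ClAll.zero n132) s91)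

def n171 : Cl (O (nat_lit 5)) (R (nat_lit 104465))
    (p (nat_lit 0xb000c) (nat_lit 0) (p (nat_lit 0x380c2) (nat_lit 1) (p (nat_lit 0x444aa) (nat_lit 7) (p (nat_lit 0xc9) (nat_lit 1) (p (nat_lit 0xc1) (nat_lit 0) (p (nat_lit 0x81) (nat_lit 1) (p (nat_lit 0x101) (nat_lit 1) (p (nat_lit 0x119) (nat_lit 0) (p (nat_lit 0xd1) (nat_lit 0) (p (nat_lit 0x89) (nat_lit 0) (p (nat_lit 0x41) (nat_lit 0) (p (nat_lit 0x10a098b090a9a) (nat_lit 0) (p (nat_lit 0x9890a888a1a) (nat_lit 0) (p (nat_lit 0x109088a08079a) (nat_lit 0) (p (nat_lit 0x8880987871a) (nat_lit 0) (p (nat_lit 0x8000000000800080907088a) (nat_lit 0) (p (nat_lit 0x8000000000800078886860a) (nat_lit 0) (p (nat_lit 0x10688060782) (nat_lit 0) (p (nat_lit 0x607858702) (nat_lit 0) (p (nat_lit 0x10587050482) (nat_lit 0) (p (nat_lit 0x506848402) (nat_lit 0) (p (nat_lit 0x16000c) (nat_lit 0) (p (nat_lit 0x50612) (nat_lit 0) (p (nat_lit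 0x40592) (nat_lit 0) (p (nat_lit 0x40492) (nat_lit 0) (p (nat_lit 0x30412) (nat_lit 0) (p (nat_lit 0x30212) (nat_lit 0) (p (nat_lit 0x20192) (nat_lit 0) (p (nat_lit 0x20092) (nat_lit 0) (p (nat_lit 0x10012) (nat_lit 0) pn)))))))))))))))))))))))))))))) :=
  Cl.node (nat_lit 0x119) (nat_lit 2) (by decide +kernel) (ClAll.succ (ClAll.succ ClAll.zero s123) s124)

def n172 : Cl (O (nat_lit 5)) (R (nat_lit 104465))
    (p (nat_lit 0x200014) (nat_lit 0) (p (nat_lit 0x101) (nat_lit 0) (p (nat_lit 0x380c2) (nat_lit 0) (p (nat_lit 0x3cc2a) (nat_lit 2) (p (nat_lit 0x109) (nat_lit 1) (p (nat_lit 0xc9) (nat_lit 1) (p (nat_lit 0xc1) (nat_lit 0) (p (nat_lit 0x119) (nat_lit 1) (p (nat_lit 0xd1) (nat_lit 0) (p (nat_lit 0x89) (nat_lit 0) (p (nat_lit 0x41) (nat_lit 0) (p (nat_lit 0x10a098b090a9a) (nat_lit 0) (p (nat_lit 0x9890a888a1a) (nat_lit 0) (p (nat_lit 0x109088a08079a) (nat_lit 0) (p (nat_lit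 0x8880987871a) (nat_lit 0) (p (nat_lit 0x8000000000800080907088a) (nat_lit 0) (p (nat_lit 0x8000000000800078886860a) (nat_lit 0) (p (nat_lit 0x10688060782) (nat_lit 0) (p (nat_lit 0x607858702) (nat_lit 0) (p (nat_lit 0x10587050482) (nat_lit 0) (p (nat_lit 0x506848402) (nat_lit 0) (p (nat_lit 0x16000c) (nat_lit 0) (p (nat_lit 0x50612) (nat_lit 0) (p (nat_lit 0x40592) (nat_lit 0) (p (nat_lit 0x40492) (nat_lit 0) (p (nat_lit 0x30412) (nat_lit 0) (p (nat_lit 0x30212) (nat_lit 0) (p (nat_lit 0x20192) (nat_lit 0) (p (nat_lit 0x20092) (nat_lit 0) (p (nat_lit 0x10012) (nat_lit 0) pn)))))))))))))))))))))))))))))) :=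
  Cl.node (nat_lit 0xb000c) (nat_lit 2) (by decide +kernel) (ClAll.succ (ClAll.succ ClAll.zero s135) n133)

def n173 : Cl (O (nat_lit 5)) (R (nat_lit 104465))
    (p (nat_lit 0x41) (nat_lit 0) (p (nat_lit 0x101) (nat_lit 1) (p (nat_lit 0x380c2) (nat_lit 0) (p (nat_lit 0x3cc2a) (nat_lit 2) (p (nat_lit 0x109) (nat_lit 1) (p (nat_lit 0xc9) (nat_lit 1) (p (nat_lit 0xc1) (nat_lit 0) (p (nat_lit 0x119) (nat_lit 1) (p (nat_lit 0xd1) (nat_lit 0) (p (nat_lit 0x89) (nat_lit 0) (p (nat_lit 0x41) (nat_lit 0) (p (nat_lit 0x10a098b090a9a) (nat_lit 0) (p (nat_lit 0x9890a888a1a) (nat_lit 0) (p (nat_lit 0x109088a08079a) (nat_lit 0) (p (nat_lit 0x8880987871a) (nat_lit 0) (p (nat_lit 0x8000000000800080907088a) (nat_lit 0) (p (nat_lit 0x8000000000800078886860a) (nat_lit 0) (p (nat_lit 0x10688060782) (nat_lit 0) (p (nat_lit 0x607858702) (nat_lit 0) (p (nat_lit 0x10587050482) (nat_lit 0) (p (nat_lit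 0x506848402) (nat_lit 0) (p (nat_lit 0x16000c) (nat_lit 0) (p (nat_lit 0x50612) (nat_lit 0) (p (nat_lit 0x40592) (nat_lit 0) (p (nat_lit 0x40492) (nat_lit 0) (p (nat_lit 0x30412) (nat_lit 0) (p (nat_lit 0x30212) (nat_lit 0) (p (nat_lit 0x20192) (nat_lit 0) (p (nat_lit 0x20092) (nat_lit 0) (p (nat_lit 0x10012) (nat_lit 0) pn)))))))))))))))))))))))))))))) :=
  Cl.node (nat_lit 0x200014) (nat_lit 2) (by decide +kernel) (ClAll.succ (ClAll.succ ClAll.zero n134) s147)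

def n174 : Cl (O (nat_lit 5)) (R (nat_lit 104465))
    (p (nat_lit 0x200014) (nat_lit 0) (p (nat_lit 0xc9) (nat_lit 1) (p (nat_lit 0x380c2) (nat_lit 0) (p (nat_lit 0x3cc2a) (nat_lit 2) (p (nat_lit 0x109) (nat_lit 1) (p (nat_lit 0x81) (nat_lit 0) (p (nat_lit 0xc1) (nat_lit 1) (p (nat_lit 0x119) (nat_lit 1) (p (nat_lit 0xd1) (nat_lit 0) (p (nat_lit 0x89) (nat_lit 0) (p (nat_lit 0x41) (nat_lit 0) (p (nat_lit 0x10a098b090a9a) (nat_lit 0) (p (nat_lit 0x9890a888a1a) (nat_lit 0) (p (nat_lit 0x109088a08079a) (nat_lit 0) (p (nat_lit 0x8880987871a) (nat_lit 0) (p (nat_lit 0x8000000000800080907088a) (nat_lit 0) (p (nat_lit 0x8000000000800078886860a) (nat_lit 0) (p (nat_lit 0x10688060782) (nat_lit 0) (p (nat_lit 0x607858702) (nat_lit 0) (p (nat_lit 0x10587050482) (nat_lit 0) (p (nat_lit 0x506848402) (nat_lit 0) (p (nat_lit 0x16000c) (nat_lit 0) (p (nat_lit 0x50612) (nat_lit 0) (p (nat_lit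 0x40592) (nat_lit 0) (p (nat_lit 0x40492) (nat_lit 0) (p (nat_lit 0x30412) (nat_lit 0) (p (nat_lit 0x30212) (nat_lit 0) (p (nat_lit 0x20192) (nat_lit 0) (p (nat_lit 0x20092) (nat_lit 0) (p (nat_lit 0x10012) (nat_lit 0) pn)))))))))))))))))))))))))))))) :=
  Cl.node (nat_lit 0x100014) (nat_lit 2) (by decide +kernel) (ClAll.succ (ClAll.succ ClAll.zero n135) s168)

def n175 : Cl (O (nat_lit 5)) (R (nat_lit 104465))
    (p (nat_lit 0x101) (nat_lit 1) (p (nat_lit 0x380c2) (nat_lit 0) (p (nat_lit 0x44c2a) (nat_lit 0) (p (nat_lit 0x109) (nat_lit 0) (p (nat_lit 0x101) (nat_lit 0) (p (nat_lit 0x81) (nat_lit 1) (p (nat_lit 0xc1) (nat_lit 1) (p (nat_lit 0x119) (nat_lit 1) (p (nat_lit 0xd1) (nat_lit 0) (p (nat_lit 0x89) (nat_lit 0) (p (nat_lit 0x41) (nat_lit 0) (p (nat_lit 0x10a098b090a9a) (nat_lit 0) (p (nat_lit 0x9890a888a1a) (nat_lit 0) (p (nat_lit 0x109088a08079a) (nat_lit 0) (p (nat_lit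 0x8880987871a) (nat_lit 0) (p (nat_lit 0x8000000000800080907088a) (nat_lit 0) (p (nat_lit 0x8000000000800078886860a) (nat_lit 0) (p (nat_lit 0x10688060782) (nat_lit 0) (p (nat_lit 0x607858702) (nat_lit 0) (p (nat_lit 0x10587050482) (nat_lit 0) (p (nat_lit 0x506848402) (nat_lit 0) (p (nat_lit 0x16000c) (nat_lit 0) (p (nat_lit 0x50612) (nat_lit 0) (p (nat_lit 0x40592) (nat_lit 0) (p (nat_lit 0x40492) (nat_lit 0) (p (nat_lit 0x30412) (nat_lit 0) (p (nat_lit 0x30212) (nat_lit 0) (p (nat_lit 0x20192) (nat_lit 0) (p (nat_lit 0x20092) (nat_lit 0) (p (nat_lit 0x10012) (nat_lit 0) pn)))))))))))))))))))))))))))))) :=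
  Cl.node (nat_lit 0x444aa) (nat_lit 12) (by decide +kernel) (ClAll.succ (ClAll.succ (ClAll.succ (ClAll.succ (ClAll.succ (ClAll.succ (ClAll.succ (ClAll.succ (ClAll.succ (ClAll.succ (ClAll.succ (ClAll.succ ClAll.zero s180) s181) s182) s183) s184) s185) s186) n136) s190) s191) s192) s193)

def n176 : Cl (O (nat_lit 5)) (R (nat_lit 104465))
    (p (nat_lit 0xb000c) (nat_lit 0) (p (nat_lit 0x380c2) (nat_lit 0) (p (nat_lit 0x444aa) (nat_lit 7) (p (nat_lit 0x109) (nat_lit 1) (p (nat_lit 0x101) (nat_lit 0) (p (nat_lit 0x81) (nat_lit 1) (p (nat_lit 0xc1) (nat_lit 1) (p (nat_lit 0x119) (nat_lit 1) (p (nat_lit 0xd1) (nat_lit 0) (p (nat_lit 0x89) (nat_lit 0) (p (nat_lit 0x41) (nat_lit 0) (p (nat_lit 0x10a098b090a9a) (nat_lit 0) (p (nat_lit 0x9890a888a1a) (nat_lit 0) (p (nat_lit 0x109088a08079a) (nat_lit 0) (p (nat_lit 0x8880987871a) (nat_lit 0) (p (nat_lit 0x8000000000800080907088a) (nat_lit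 0) (p (nat_lit 0x8000000000800078886860a) (nat_lit 0) (p (nat_lit 0x10688060782) (nat_lit 0) (p (nat_lit 0x607858702) (nat_lit 0) (p (nat_lit 0x10587050482) (nat_lit 0) (p (nat_lit 0x506848402) (nat_lit 0) (p (nat_lit 0x16000c) (nat_lit 0) (p (nat_lit 0x50612) (nat_lit 0) (p (nat_lit 0x40592) (nat_lit 0) (p (nat_lit 0x40492) (nat_lit 0) (p (nat_lit 0x30412) (nat_lit 0) (p (nat_lit 0x30212) (nat_lit 0) (p (nat_lit 0x20192) (nat_lit 0) (p (nat_lit 0x20092) (nat_lit 0) (p (nat_lit 0x10012) (nat_lit 0) pn)))))))))))))))))))))))))))))) :=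
  Cl.node (nat_lit 0x200004) (nat_lit 2) (by decide +kernel) (ClAll.succ (ClAll.succ ClAll.zero n137) s215)

def n177 : Cl (O (nat_lit 5)) (R (nat_lit 104465))
    (p (nat_lit 0xb000c) (nat_lit 0) (p (nat_lit 0x380c2) (nat_lit 1) (p (nat_lit 0x444aa) (nat_lit 7) (p (nat_lit 0x109) (nat_lit 1) (p (nat_lit 0x101) (nat_lit 0) (p (nat_lit 0x81) (nat_lit 1) (p (nat_lit 0xc1) (nat_lit 1) (p (nat_lit 0x119) (nat_lit 1) (p (nat_lit 0xd1) (nat_lit 0) (p (nat_lit 0x89) (nat_lit 0) (p (nat_lit 0x41) (nat_lit 0) (p (nat_lit 0x10a098b090a9a) (nat_lit 0) (p (nat_lit 0x9890a888a1a) (nat_lit 0) (p (nat_lit 0x109088a08079a) (nat_lit 0) (p (nat_lit 0x8880987871a) (nat_lit 0) (p (nat_lit 0x8000000000800080907088a) (nat_lit 0) (p (nat_lit 0x8000000000800078886860a) (nat_lit 0) (p (nat_lit 0x10688060782) (nat_lit 0) (p (nat_lit 0x607858702) (nat_lit 0) (p (nat_lit 0x10587050482) (nat_lit 0) (p (nat_lit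 0x506848402) (nat_lit 0) (p (nat_lit 0x16000c) (nat_lit 0) (p (nat_lit 0x50612) (nat_lit 0) (p (nat_lit 0x40592) (nat_lit 0) (p (nat_lit 0x40492) (nat_lit 0) (p (nat_lit 0x30412) (nat_lit 0) (p (nat_lit 0x30212) (nat_lit 0) (p (nat_lit 0x20192) (nat_lit 0) (p (nat_lit 0x20092) (nat_lit 0) (p (nat_lit 0x10012) (nat_lit 0) pn)))))))))))))))))))))))))))))) :=
  Cl.node (nat_lit 0x200004) (nat_lit 2) (by decide +kernel) (ClAll.succ (ClAll.succ ClAll.zero n138) s221)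

def n178 : Cl (O (nat_lit 5)) (R (nat_lit 104465))
    (p (nat_lit 0x3cc2a) (nat_lit 1) (p (nat_lit 0x109) (nat_lit 1) (p (nat_lit 0x200014) (nat_lit 0) (p (nat_lit 0x200004) (nat_lit 0) (p (nat_lit 0x119) (nat_lit 0) (p (nat_lit 0x81) (nat_lit 0) (p (nat_lit 0x101) (nat_lit 1) (p (nat_lit 0x111) (nat_lit 0) (p (nat_lit 0xd1) (nat_lit 1) (p (nat_lit 0x89) (nat_lit 0) (p (nat_lit 0x41) (nat_lit 0) (p (nat_lit 0x10a098b090a9a) (nat_lit 0) (p (nat_lit 0x9890a888a1a) (nat_lit 0) (p (nat_lit 0x109088a08079a) (nat_lit 0) (p (nat_lit 0x8880987871a) (nat_lit 0) (p (nat_lit 0x8000000000800080907088a) (nat_lit 0) (p (nat_lit 0x8000000000800078886860a) (nat_lit 0) (p (nat_lit 0x10688060782) (nat_lit 0) (p (nat_lit 0x607858702) (nat_lit 0) (p (nat_lit 0x10587050482) (nat_lit 0) (p (nat_lit 0x506848402) (nat_lit 0) (p (nat_lit 0x16000c) (nat_lit 0) (p (nat_lit 0x50612) (nat_lit 0) (p (nat_lit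 0x40592) (nat_lit 0) (p (nat_lit 0x40492) (nat_lit 0) (p (nat_lit 0x30412) (nat_lit 0) (p (nat_lit 0x30212) (nat_lit 0) (p (nat_lit 0x20192) (nat_lit 0) (p (nat_lit 0x20092) (nat_lit 0) (p (nat_lit 0x10012) (nat_lit 0) pn)))))))))))))))))))))))))))))) :=
  Cl.node (nat_lit 0x380c2) (nat_lit 2) (by decide +kernel) (ClAll.succ (ClAll.succ ClAll.zero n139) s262)

def n179 : Cl (O (nat_lit 5)) (R (nat_lit 104465))
    (p (nat_lit 0x3cc2a) (nat_lit 2) (p (nat_lit 0x109) (nat_lit 1) (p (nat_lit 0x200014) (nat_lit 0) (p (nat_lit 0x200004) (nat_lit 0) (p (nat_lit 0x119) (nat_lit 0) (p (nat_lit 0x81) (nat_lit 0) (p (nat_lit 0x101) (nat_lit 1) (p (nat_lit 0x111) (nat_lit 0) (p (nat_lit 0xd1) (nat_lit 1) (p (nat_lit 0x89) (nat_lit 0) (p (nat_lit 0x41) (nat_lit 0) (p (nat_lit 0x10a098b090a9a) (nat_lit 0) (p (nat_lit 0x9890a888a1a) (nat_lit 0) (p (nat_lit 0x109088a08079a) (nat_lit 0) (p (nat_lit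 0x8880987871a) (nat_lit 0) (p (nat_lit 0x8000000000800080907088a) (nat_lit 0) (p (nat_lit 0x8000000000800078886860a) (nat_lit 0) (p (nat_lit 0x10688060782) (nat_lit 0) (p (nat_lit 0x607858702) (nat_lit 0) (p (nat_lit 0x10587050482) (nat_lit 0) (p (nat_lit 0x506848402) (nat_lit 0) (p (nat_lit 0x16000c) (nat_lit 0) (p (nat_lit 0x50612) (nat_lit 0) (p (nat_lit 0x40592) (nat_lit 0) (p (nat_lit 0x40492) (nat_lit 0) (p (nat_lit 0x30412) (nat_lit 0) (p (nat_lit 0x30212) (nat_lit 0) (p (nat_lit 0x20192) (nat_lit 0) (p (nat_lit 0x20092) (nat_lit 0) (p (nat_lit 0x10012) (nat_lit 0) pn)))))))))))))))))))))))))))))) :=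
  Cl.node (nat_lit 0x380c2) (nat_lit 1) (by decide +kernel) (ClAll.succ ClAll.zero n140)

def n180 : Cl (O (nat_lit 5)) (R (nat_lit 104465))
    (p (nat_lit 0xc9) (nat_lit 0) (p (nat_lit 0x380c2) (nat_lit 0) (p (nat_lit 0x444aa) (nat_lit 7) (p (nat_lit 0x119) (nat_lit 0) (p (nat_lit 0xc1) (nat_lit 0) (p (nat_lit 0x81) (nat_lit 1) (p (nat_lit 0x101) (nat_lit 1) (p (nat_lit 0x111) (nat_lit 0) (p (nat_lit 0xd1) (nat_lit 1) (p (nat_lit 0x89) (nat_lit 0) (p (nat_lit 0x41) (nat_lit 0) (p (nat_lit 0x10a098b090a9a) (nat_lit 0) (p (nat_lit 0x9890a888a1a) (nat_lit 0) (p (nat_lit 0x109088a08079a) (nat_lit 0) (p (nat_lit 0x8880987871a) (nat_lit 0) (p (nat_lit 0x8000000000800080907088a) (nat_lit 0) (p (nat_lit 0x8000000000800078886860a) (nat_lit 0) (p (nat_lit 0x10688060782) (nat_lit 0) (p (nat_lit 0x607858702) (nat_lit 0) (p (nat_lit 0x10587050482) (nat_lit 0) (p (nat_lit 0x506848402) (nat_lit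 0) (p (nat_lit 0x16000c) (nat_lit 0) (p (nat_lit 0x50612) (nat_lit 0) (p (nat_lit 0x40592) (nat_lit 0) (p (nat_lit 0x40492) (nat_lit 0) (p (nat_lit 0x30412) (nat_lit 0) (p (nat_lit 0x30212) (nat_lit 0) (p (nat_lit 0x20192) (nat_lit 0) (p (nat_lit 0x20092) (nat_lit 0) (p (nat_lit 0x10012) (nat_lit 0) pn)))))))))))))))))))))))))))))) :=
  Cl.node (nat_lit 0xb000c) (nat_lit 2) (by decide +kernel) (ClAll.succ (ClAll.succ ClAll.zero s295) s296)

def n181 : Cl (O (nat_lit 5)) (R (nat_lit 104465))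
    (p (nat_lit 0xb000c) (nat_lit 0) (p (nat_lit 0x380c2) (nat_lit 1) (p (nat_lit 0x444aa) (nat_lit 7) (p (nat_lit 0x119) (nat_lit 0) (p (nat_lit 0xc1) (nat_lit 0) (p (nat_lit 0x81) (nat_lit 1) (p (nat_lit 0x101) (nat_lit 1) (p (nat_lit 0x111) (nat_lit 0) (p (nat_lit 0xd1) (nat_lit 1) (p (nat_lit 0x89) (nat_lit 0) (p (nat_lit 0x41) (nat_lit 0) (p (nat_lit 0x10a098b090a9a) (nat_lit 0) (p (nat_lit 0x9890a888a1a) (nat_lit 0) (p (nat_lit 0x109088a08079a) (nat_lit 0) (p (nat_lit 0x8880987871a) (nat_lit 0) (p (nat_lit 0x8000000000800080907088a) (nat_lit 0) (p (nat_lit 0x8000000000800078886860a) (nat_lit 0) (p (nat_lit 0x10688060782) (nat_lit 0) (p (nat_lit 0x607858702) (nat_lit 0) (p (nat_lit 0x10587050482) (nat_lit 0) (p (nat_lit 0x506848402) (nat_lit 0) (p (nat_lit 0x16000c) (nat_lit 0) (p (nat_lit 0x50612) (nat_lit 0) (p (nat_lit 0x40592) (nat_lit 0) (p (nat_lit 0x40492) (nat_lit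 0) (p (nat_lit 0x30412) (nat_lit 0) (p (nat_lit 0x30212) (nat_lit 0) (p (nat_lit 0x20192) (nat_lit 0) (p (nat_lit 0x20092) (nat_lit 0) (p (nat_lit 0x10012) (nat_lit 0) pn)))))))))))))))))))))))))))))) :=
  Cl.node (nat_lit 0xc9) (nat_lit 2) (by decide +kernel) (ClAll.succ (ClAll.succ ClAll.zero n141) s311)

def n182 : Cl (O (nat_lit 5)) (R (nat_lit 104465))
    (p (nat_lit 0xb000c) (nat_lit 1) (p (nat_lit 0x380c2) (nat_lit 1) (p (nat_lit 0x444aa) (nat_lit 7) (p (nat_lit 0x119) (nat_lit 0) (p (nat_lit 0xc1) (nat_lit 0) (p (nat_lit 0x81) (nat_lit 1) (p (nat_lit 0x101) (nat_lit 1) (p (nat_lit 0x111) (nat_lit 0) (p (nat_lit 0xd1) (nat_lit 1) (p (nat_lit 0x89) (nat_lit 0) (p (nat_lit 0x41) (nat_lit 0) (p (nat_lit 0x10a098b090a9a) (nat_lit 0) (p (nat_lit 0x9890a888a1a) (nat_lit 0) (p (nat_lit 0x109088a08079a) (nat_lit 0) (p (nat_lit 0x8880987871a) (nat_lit 0) (p (nat_lit 0x8000000000800080907088a)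 (nat_lit 0) (p (nat_lit 0x8000000000800078886860a) (nat_lit 0) (p (nat_lit 0x10688060782) (nat_lit 0) (p (nat_lit 0x607858702) (nat_lit 0) (p (nat_lit 0x10587050482) (nat_lit 0) (p (nat_lit 0x506848402) (nat_lit 0) (p (nat_lit 0x16000c) (nat_lit 0) (p (nat_lit 0x50612) (nat_lit 0) (p (nat_lit 0x40592) (nat_lit 0) (p (nat_lit 0x40492) (nat_lit 0) (p (nat_lit 0x30412) (nat_lit 0) (p (nat_lit 0x30212) (nat_lit 0) (p (nat_lit 0x20192) (nat_lit 0) (p (nat_lit 0x20092) (nat_lit 0) (p (nat_lit 0x10012) (nat_lit 0) pn)))))))))))))))))))))))))))))) :=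
  Cl.node (nat_lit 0x1fc004) (nat_lit 2) (by decide +kernel) (ClAll.succ (ClAll.succ ClAll.zero n142) s317)

def n183 : Cl (O (nat_lit 5)) (R (nat_lit 104465))
    (p (nat_lit 0x200014) (nat_lit 0) (p (nat_lit 0x380c2) (nat_lit 0) (p (nat_lit 0x3cc2a) (nat_lit 2) (p (nat_lit 0x119) (nat_lit 1) (p (nat_lit 0xc1) (nat_lit 0) (p (nat_lit 0x81) (nat_lit 1) (p (nat_lit 0x101) (nat_lit 1) (p (nat_lit 0x111) (nat_lit 0) (p (nat_lit 0xd1) (nat_lit 1) (p (nat_lit 0x89) (nat_lit 0) (p (nat_lit 0x41) (nat_lit 0) (p (nat_lit 0x10a098b090a9a) (nat_lit 0) (p (nat_lit 0x9890a888a1a) (nat_lit 0) (p (nat_lit 0x109088a08079a) (nat_lit 0) (p (nat_lit 0x8880987871a) (nat_lit 0) (p (nat_lit 0x8000000000800080907088a) (nat_lit 0) (p (nat_lit 0x8000000000800078886860a) (nat_lit 0) (p (nat_lit 0x10688060782) (nat_lit 0) (p (nat_lit 0x607858702) (nat_lit 0) (p (nat_lit 0x10587050482) (nat_lit 0) (p (nat_lit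 0x506848402) (nat_lit 0) (p (nat_lit 0x16000c) (nat_lit 0) (p (nat_lit 0x50612) (nat_lit 0) (p (nat_lit 0x40592) (nat_lit 0) (p (nat_lit 0x40492) (nat_lit 0) (p (nat_lit 0x30412) (nat_lit 0) (p (nat_lit 0x30212) (nat_lit 0) (p (nat_lit 0x20192) (nat_lit 0) (p (nat_lit 0x20092) (nat_lit 0) (p (nat_lit 0x10012) (nat_lit 0) pn)))))))))))))))))))))))))))))) :=
  Cl.node (nat_lit 0xd1) (nat_lit 2) (by decide +kernel) (ClAll.succ (ClAll.succ ClAll.zero s324) n143)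

def n184 : Cl (O (nat_lit 5)) (R (nat_lit 104465))
    (p (nat_lit 0x200014) (nat_lit 0) (p (nat_lit 0x41) (nat_lit 1) (p (nat_lit 0x380c2) (nat_lit 0) (p (nat_lit 0x3cc2a) (nat_lit 2) (p (nat_lit 0x101) (nat_lit 0) (p (nat_lit 0xc1) (nat_lit 1) (p (nat_lit 0x81) (nat_lit 1) (p (nat_lit 0x111) (nat_lit 1) (p (nat_lit 0xd1) (nat_lit 1) (p (nat_lit 0x89) (nat_lit 0) (p (nat_lit 0x41) (nat_lit 0) (p (nat_lit 0x10a098b090a9a) (nat_lit 0) (p (nat_lit 0x9890a888a1a) (nat_lit 0) (p (nat_lit 0x109088a08079a) (nat_lit 0) (p (nat_lit 0x8880987871a) (nat_lit 0) (p (nat_lit 0x8000000000800080907088a) (nat_lit 0) (p (nat_lit 0x8000000000800078886860a) (nat_lit 0) (p (nat_lit 0x10688060782) (nat_lit 0) (p (nat_lit 0x607858702) (nat_lit 0) (p (nat_lit 0x10587050482) (nat_lit 0) (p (nat_lit 0x506848402) (nat_lit 0) (p (nat_lit 0x16000c) (nat_lit 0) (p (nat_lit 0x50612) (nat_lit 0) (p (nat_lit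 0x40592) (nat_lit 0) (p (nat_lit 0x40492) (nat_lit 0) (p (nat_lit 0x30412) (nat_lit 0) (p (nat_lit 0x30212) (nat_lit 0) (p (nat_lit 0x20192) (nat_lit 0) (p (nat_lit 0x20092) (nat_lit 0) (p (nat_lit 0x10012) (nat_lit 0) pn)))))))))))))))))))))))))))))) :=
  Cl.node (nat_lit 0xc1) (nat_lit 2) (by decide +kernel) (ClAll.succ (ClAll.succ ClAll.zero s355) s356)

def n185 : Cl (O (nat_lit 5)) (R (nat_lit 104465))
    (p (nat_lit 0xb000c) (nat_lit 0) (p (nat_lit 0x380c2) (nat_lit 0) (p (nat_lit 0x444aa) (nat_lit 7) (p (nat_lit 0xd1) (nat_lit 1) (p (nat_lit 0x111) (nat_lit 1) (p (nat_lit 0x109) (nat_lit 0) (p (nat_lit 0x101) (nat_lit 0) (p (nat_lit 0x119) (nat_lit 0) (p (nat_lit 0xc9) (nat_lit 0) (p (nat_lit 0x89) (nat_lit 1) (p (nat_lit 0x41) (nat_lit 0) (p (nat_lit 0x10a098b090a9a) (nat_lit 0) (p (nat_lit 0x9890a888a1a) (nat_lit 0) (p (nat_lit 0x109088a08079a) (nat_lit 0) (p (nat_lit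 0x8880987871a) (nat_lit 0) (p (nat_lit 0x8000000000800080907088a) (nat_lit 0) (p (nat_lit 0x8000000000800078886860a) (nat_lit 0) (p (nat_lit 0x10688060782) (nat_lit 0) (p (nat_lit 0x607858702) (nat_lit 0) (p (nat_lit 0x10587050482) (nat_lit 0) (p (nat_lit 0x506848402) (nat_lit 0) (p (nat_lit 0x16000c) (nat_lit 0) (p (nat_lit 0x50612) (nat_lit 0) (p (nat_lit 0x40592) (nat_lit 0) (p (nat_lit 0x40492) (nat_lit 0) (p (nat_lit 0x30412) (nat_lit 0) (p (nat_lit 0x30212) (nat_lit 0) (p (nat_lit 0x20192) (nat_lit 0) (p (nat_lit 0x20092) (nat_lit 0) (p (nat_lit 0x10012) (nat_lit 0) pn)))))))))))))))))))))))))))))) :=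
  Cl.node (nat_lit 0x200004) (nat_lit 2) (by decide +kernel) (ClAll.succ (ClAll.succ ClAll.zero n144) s382)

def n186 : Cl (O (nat_lit 5)) (R (nat_lit 104465))
    (p (nat_lit 0xb000c) (nat_lit 1) (p (nat_lit 0x380c2) (nat_lit 0) (p (nat_lit 0x444aa) (nat_lit 7) (p (nat_lit 0xd1) (nat_lit 1) (p (nat_lit 0x111) (nat_lit 1) (p (nat_lit 0x109) (nat_lit 0) (p (nat_lit 0x101) (nat_lit 0) (p (nat_lit 0x119) (nat_lit 0) (p (nat_lit 0xc9) (nat_lit 0) (p (nat_lit 0x89) (nat_lit 1) (p (nat_lit 0x41) (nat_lit 0) (p (nat_lit 0x10a098b090a9a) (nat_lit 0) (p (nat_lit 0x9890a888a1a) (nat_lit 0) (p (nat_lit 0x109088a08079a) (nat_lit 0) (p (nat_lit 0x8880987871a) (nat_lit 0) (p (nat_lit 0x8000000000800080907088a) (nat_lit 0) (p (nat_lit 0x8000000000800078886860a) (nat_lit 0) (p (nat_lit 0x10688060782) (nat_lit 0) (p (nat_lit 0x607858702) (nat_lit 0) (p (nat_lit 0x10587050482) (nat_lit 0) (p (nat_lit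 0x506848402) (nat_lit 0) (p (nat_lit 0x16000c) (nat_lit 0) (p (nat_lit 0x50612) (nat_lit 0) (p (nat_lit 0x40592) (nat_lit 0) (p (nat_lit 0x40492) (nat_lit 0) (p (nat_lit 0x30412) (nat_lit 0) (p (nat_lit 0x30212) (nat_lit 0) (p (nat_lit 0x20192) (nat_lit 0) (p (nat_lit 0x20092) (nat_lit 0) (p (nat_lit 0x10012) (nat_lit 0) pn)))))))))))))))))))))))))))))) :=
  Cl.node (nat_lit 0x1fc004) (nat_lit 2) (by decide +kernel) (ClAll.succ (ClAll.succ ClAll.zero n145) s390)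

def n187 : Cl (O (nat_lit 5)) (R (nat_lit 104465))
    (p (nat_lit 0xb000c) (nat_lit 0) (p (nat_lit 0x380c2) (nat_lit 1) (p (nat_lit 0x444aa) (nat_lit 7) (p (nat_lit 0xd1) (nat_lit 1) (p (nat_lit 0x111) (nat_lit 1) (p (nat_lit 0x109) (nat_lit 0) (p (nat_lit 0x101) (nat_lit 0) (p (nat_lit 0x119) (nat_lit 0) (p (nat_lit 0xc9) (nat_lit 0) (p (nat_lit 0x89) (nat_lit 1) (p (nat_lit 0x41) (nat_lit 0) (p (nat_lit 0x10a098b090a9a) (nat_lit 0) (p (nat_lit 0x9890a888a1a) (nat_lit 0) (p (nat_lit 0x109088a08079a) (nat_lit 0) (p (nat_lit 0x8880987871a) (nat_lit 0) (p (nat_lit 0x8000000000800080907088a) (nat_lit 0) (p (nat_lit 0x8000000000800078886860a) (nat_lit 0) (p (nat_lit 0x10688060782) (nat_lit 0) (p (nat_lit 0x607858702) (nat_lit 0) (p (nat_lit 0x10587050482) (nat_lit 0) (p (nat_lit 0x506848402) (nat_lit 0) (p (nat_lit 0x16000c) (nat_lit 0) (p (nat_lit 0x50612) (nat_lit 0) (p (nat_lit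 0x40592) (nat_lit 0) (p (nat_lit 0x40492) (nat_lit 0) (p (nat_lit 0x30412) (nat_lit 0) (p (nat_lit 0x30212) (nat_lit 0) (p (nat_lit 0x20192) (nat_lit 0) (p (nat_lit 0x20092) (nat_lit 0) (p (nat_lit 0x10012) (nat_lit 0) pn)))))))))))))))))))))))))))))) :=
  Cl.node (nat_lit 0x200004) (nat_lit 2) (by decide +kernel) (ClAll.succ (ClAll.succ ClAll.zero n146) s395)

def n188 : Cl (O (nat_lit 5)) (R (nat_lit 104465))
    (p (nat_lit 0xb000c) (nat_lit 1) (p (nat_lit 0x380c2) (nat_lit 1) (p (nat_lit 0x444aa) (nat_lit 7) (p (nat_lit 0xd1) (nat_lit 1) (p (nat_lit 0x111) (nat_lit 1) (p (nat_lit 0x109) (nat_lit 0) (p (nat_lit 0x101) (nat_lit 0) (p (nat_lit 0x119) (nat_lit 0) (p (nat_lit 0xc9) (nat_lit 0) (p (nat_lit 0x89) (nat_lit 1) (p (nat_lit 0x41) (nat_lit 0) (p (nat_lit 0x10a098b090a9a) (nat_lit 0) (p (nat_lit 0x9890a888a1a) (nat_lit 0) (p (nat_lit 0x109088a08079a) (nat_lit 0) (p (nat_lit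 0x8880987871a) (nat_lit 0) (p (nat_lit 0x8000000000800080907088a) (nat_lit 0) (p (nat_lit 0x8000000000800078886860a) (nat_lit 0) (p (nat_lit 0x10688060782) (nat_lit 0) (p (nat_lit 0x607858702) (nat_lit 0) (p (nat_lit 0x10587050482) (nat_lit 0) (p (nat_lit 0x506848402) (nat_lit 0) (p (nat_lit 0x16000c) (nat_lit 0) (p (nat_lit 0x50612) (nat_lit 0) (p (nat_lit 0x40592) (nat_lit 0) (p (nat_lit 0x40492) (nat_lit 0) (p (nat_lit 0x30412) (nat_lit 0) (p (nat_lit 0x30212) (nat_lit 0) (p (nat_lit 0x20192) (nat_lit 0) (p (nat_lit 0x20092) (nat_lit 0) (p (nat_lit 0x10012) (nat_lit 0) pn)))))))))))))))))))))))))))))) :=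
  Cl.node (nat_lit 0x1fc004) (nat_lit 2) (by decide +kernel) (ClAll.succ (ClAll.succ ClAll.zero n147) s404)

def n189 : Cl (O (nat_lit 5)) (R (nat_lit 104465))
    (p (nat_lit 0x44c2a) (nat_lit 0) (p (nat_lit 0x41) (nat_lit 0) (p (nat_lit 0x200014) (nat_lit 0) (p (nat_lit 0x200004) (nat_lit 0) (p (nat_lit 0xd1) (nat_lit 0) (p (nat_lit 0x109) (nat_lit 1) (p (nat_lit 0x101) (nat_lit 0) (p (nat_lit 0x119) (nat_lit 0) (p (nat_lit 0xc9) (nat_lit 0) (p (nat_lit 0x89) (nat_lit 1) (p (nat_lit 0x41) (nat_lit 0) (p (nat_lit 0x10a098b090a9a) (nat_lit 0) (p (nat_lit 0x9890a888a1a) (nat_lit 0) (p (nat_lit 0x109088a08079a) (nat_lit 0) (p (nat_lit 0x8880987871a) (nat_lit 0) (p (nat_lit 0x8000000000800080907088a) (nat_lit 0) (p (nat_lit 0x8000000000800078886860a) (nat_lit 0) (p (nat_lit 0x10688060782) (nat_lit 0) (p (nat_lit 0x607858702) (nat_lit 0) (p (nat_lit 0x10587050482) (nat_lit 0) (p (nat_lit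 0x506848402) (nat_lit 0) (p (nat_lit 0x16000c) (nat_lit 0) (p (nat_lit 0x50612) (nat_lit 0) (p (nat_lit 0x40592) (nat_lit 0) (p (nat_lit 0x40492) (nat_lit 0) (p (nat_lit 0x30412) (nat_lit 0) (p (nat_lit 0x30212) (nat_lit 0) (p (nat_lit 0x20192) (nat_lit 0) (p (nat_lit 0x20092) (nat_lit 0) (p (nat_lit 0x10012) (nat_lit 0) pn)))))))))))))))))))))))))))))) :=
  Cl.node (nat_lit 0x380c2) (nat_lit 1) (by decide +kernel) (ClAll.succ ClAll.zero n148)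

def n190 : Cl (O (nat_lit 5)) (R (nat_lit 104465))
    (p (nat_lit 0x44c2a) (nat_lit 1) (p (nat_lit 0x41) (nat_lit 0) (p (nat_lit 0x200014) (nat_lit 0) (p (nat_lit 0x200004) (nat_lit 0) (p (nat_lit 0xd1) (nat_lit 0) (p (nat_lit 0x109) (nat_lit 1) (p (nat_lit 0x101) (nat_lit 0) (p (nat_lit 0x119) (nat_lit 0) (p (nat_lit 0xc9) (nat_lit 0) (p (nat_lit 0x89) (nat_lit 1) (p (nat_lit 0x41) (nat_lit 0) (p (nat_lit 0x10a098b090a9a) (nat_lit 0) (p (nat_lit 0x9890a888a1a) (nat_lit 0) (p (nat_lit 0x109088a08079a) (nat_lit 0) (p (nat_lit 0x8880987871a) (nat_lit 0) (p (nat_lit 0x8000000000800080907088a) (nat_lit 0) (p (nat_lit 0x8000000000800078886860a) (nat_lit 0) (p (nat_lit 0x10688060782) (nat_lit 0) (p (nat_lit 0x607858702) (nat_lit 0) (p (nat_lit 0x10587050482) (nat_lit 0) (p (nat_lit 0x506848402) (nat_lit 0) (p (nat_lit 0x16000c) (nat_lit 0) (p (nat_lit 0x50612) (nat_lit 0) (p (nat_lit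 0x40592) (nat_lit 0) (p (nat_lit 0x40492) (nat_lit 0) (p (nat_lit 0x30412) (nat_lit 0) (p (nat_lit 0x30212) (nat_lit 0) (p (nat_lit 0x20192) (nat_lit 0) (p (nat_lit 0x20092) (nat_lit 0) (p (nat_lit 0x10012) (nat_lit 0) pn)))))))))))))))))))))))))))))) :=
  Cl.node (nat_lit 0x380c2) (nat_lit 2) (by decide +kernel) (ClAll.succ (ClAll.succ ClAll.zero n149) n150)

def n191 : Cl (O (nat_lit 5)) (R (nat_lit 104465))
    (p (nat_lit 0x200004) (nat_lit 0) (p (nat_lit 0xb000c) (nat_lit 0) (p (nat_lit 0x380c2) (nat_lit 0) (p (nat_lit 0x444aa) (nat_lit 7) (p (nat_lit 0xd1) (nat_lit 1) (p (nat_lit 0x109) (nat_lit 1) (p (nat_lit 0x101) (nat_lit 0) (p (nat_lit 0x119) (nat_lit 0) (p (nat_lit 0xc9) (nat_lit 0) (p (nat_lit 0x89) (nat_lit 1) (p (nat_lit 0x41) (nat_lit 0) (p (nat_lit 0x10a098b090a9a) (nat_lit 0) (p (nat_lit 0x9890a888a1a) (nat_lit 0) (p (nat_lit 0x109088a08079a) (nat_lit 0) (p (nat_lit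 0x8880987871a) (nat_lit 0) (p (nat_lit 0x8000000000800080907088a) (nat_lit 0) (p (nat_lit 0x8000000000800078886860a) (nat_lit 0) (p (nat_lit 0x10688060782) (nat_lit 0) (p (nat_lit 0x607858702) (nat_lit 0) (p (nat_lit 0x10587050482) (nat_lit 0) (p (nat_lit 0x506848402) (nat_lit 0) (p (nat_lit 0x16000c) (nat_lit 0) (p (nat_lit 0x50612) (nat_lit 0) (p (nat_lit 0x40592) (nat_lit 0) (p (nat_lit 0x40492) (nat_lit 0) (p (nat_lit 0x30412) (nat_lit 0) (p (nat_lit 0x30212) (nat_lit 0) (p (nat_lit 0x20192) (nat_lit 0) (p (nat_lit 0x20092) (nat_lit 0) (p (nat_lit 0x10012) (nat_lit 0) pn)))))))))))))))))))))))))))))) :=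
  Cl.node (nat_lit 0xc1) (nat_lit 2) (by decide +kernel) (ClAll.succ (ClAll.succ ClAll.zero n151) s440)

def n192 : Cl (O (nat_lit 5)) (R (nat_lit 104465))
    (p (nat_lit 0x200004) (nat_lit 0) (p (nat_lit 0xb000c) (nat_lit 0) (p (nat_lit 0x380c2) (nat_lit 1) (p (nat_lit 0x444aa) (nat_lit 7) (p (nat_lit 0xd1) (nat_lit 1) (p (nat_lit 0x109) (nat_lit 1) (p (nat_lit 0x101) (nat_lit 0) (p (nat_lit 0x119) (nat_lit 0) (p (nat_lit 0xc9) (nat_lit 0) (p (nat_lit 0x89) (nat_lit 1) (p (nat_lit 0x41) (nat_lit 0) (p (nat_lit 0x10a098b090a9a) (nat_lit 0) (p (nat_lit 0x9890a888a1a) (nat_lit 0) (p (nat_lit 0x109088a08079a) (nat_lit 0) (p (nat_lit 0x8880987871a) (nat_lit 0) (p (nat_lit 0x8000000000800080907088a) (nat_lit 0) (p (nat_lit 0x8000000000800078886860a) (nat_lit 0) (p (nat_lit 0x10688060782) (nat_lit 0) (p (nat_lit 0x607858702) (nat_lit 0) (p (nat_lit 0x10587050482) (nat_lit 0) (p (nat_lit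 0x506848402) (nat_lit 0) (p (nat_lit 0x16000c) (nat_lit 0) (p (nat_lit 0x50612) (nat_lit 0) (p (nat_lit 0x40592) (nat_lit 0) (p (nat_lit 0x40492) (nat_lit 0) (p (nat_lit 0x30412) (nat_lit 0) (p (nat_lit 0x30212) (nat_lit 0) (p (nat_lit 0x20192) (nat_lit 0) (p (nat_lit 0x20092) (nat_lit 0) (p (nat_lit 0x10012) (nat_lit 0) pn)))))))))))))))))))))))))))))) :=
  Cl.node (nat_lit 0xc1) (nat_lit 2) (by decide +kernel) (ClAll.succ (ClAll.succ ClAll.zero n152) s457)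

def n193 : Cl (O (nat_lit 5)) (R (nat_lit 104465))
    (p (nat_lit 0x44c2a) (nat_lit 0) (p (nat_lit 0x109) (nat_lit 1) (p (nat_lit 0x200014) (nat_lit 0) (p (nat_lit 0x200004) (nat_lit 0) (p (nat_lit 0xd1) (nat_lit 0) (p (nat_lit 0xc1) (nat_lit 0) (p (nat_lit 0x101) (nat_lit 1) (p (nat_lit 0x119) (nat_lit 0) (p (nat_lit 0xc9) (nat_lit 0) (p (nat_lit 0x89) (nat_lit 1) (p (nat_lit 0x41) (nat_lit 0) (p (nat_lit 0x10a098b090a9a) (nat_lit 0) (p (nat_lit 0x9890a888a1a) (nat_lit 0) (p (nat_lit 0x109088a08079a) (nat_lit 0) (p (nat_lit 0x8880987871a) (nat_lit 0) (p (nat_lit 0x8000000000800080907088a) (nat_lit 0) (p (nat_lit 0x8000000000800078886860a) (nat_lit 0) (p (nat_lit 0x10688060782) (nat_lit 0) (p (nat_lit 0x607858702) (nat_lit 0) (p (nat_lit 0x10587050482) (nat_lit 0) (p (nat_lit 0x506848402) (nat_lit 0) (p (nat_lit 0x16000c) (nat_lit 0) (p (nat_lit 0x50612) (nat_lit 0) (p (nat_lit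 0x40592) (nat_lit 0) (p (nat_lit 0x40492) (nat_lit 0) (p (nat_lit 0x30412) (nat_lit 0) (p (nat_lit 0x30212) (nat_lit 0) (p (nat_lit 0x20192) (nat_lit 0) (p (nat_lit 0x20092) (nat_lit 0) (p (nat_lit 0x10012) (nat_lit 0) pn)))))))))))))))))))))))))))))) :=
  Cl.node (nat_lit 0x380c2) (nat_lit 1) (by decide +kernel) (ClAll.succ ClAll.zero n153)

def n194 : Cl (O (nat_lit 5)) (R (nat_lit 104465))
    (p (nat_lit 0x44c2a) (nat_lit 1) (p (nat_lit 0x109) (nat_lit 1) (p (nat_lit 0x200014) (nat_lit 0) (p (nat_lit 0x200004) (nat_lit 0) (p (nat_lit 0xd1) (nat_lit 0) (p (nat_lit 0xc1) (nat_lit 0) (p (nat_lit 0x101) (nat_lit 1) (p (nat_lit 0x119) (nat_lit 0) (p (nat_lit 0xc9) (nat_lit 0) (p (nat_lit 0x89) (nat_lit 1) (p (nat_lit 0x41) (nat_lit 0) (p (nat_lit 0x10a098b090a9a) (nat_lit 0) (p (nat_lit 0x9890a888a1a) (nat_lit 0) (p (nat_lit 0x109088a08079a) (nat_lit 0) (p (nat_lit 0x8880987871a)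 (nat_lit 0) (p (nat_lit 0x8000000000800080907088a) (nat_lit 0) (p (nat_lit 0x8000000000800078886860a) (nat_lit 0) (p (nat_lit 0x10688060782) (nat_lit 0) (p (nat_lit 0x607858702) (nat_lit 0) (p (nat_lit 0x10587050482) (nat_lit 0) (p (nat_lit 0x506848402) (nat_lit 0) (p (nat_lit 0x16000c) (nat_lit 0) (p (nat_lit 0x50612) (nat_lit 0) (p (nat_lit 0x40592) (nat_lit 0) (p (nat_lit 0x40492) (nat_lit 0) (p (nat_lit 0x30412) (nat_lit 0) (p (nat_lit 0x30212) (nat_lit 0) (p (nat_lit 0x20192) (nat_lit 0) (p (nat_lit 0x20092) (nat_lit 0) (p (nat_lit 0x10012) (nat_lit 0) pn)))))))))))))))))))))))))))))) :=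
  Cl.node (nat_lit 0x380c2) (nat_lit 2) (by decide +kernel) (ClAll.succ (ClAll.succ ClAll.zero n154) s470)

def n195 : Cl (O (nat_lit 5)) (R (nat_lit 104465))
    (p (nat_lit 0x109) (nat_lit 0) (p (nat_lit 0xb000c) (nat_lit 0) (p (nat_lit 0x380c2) (nat_lit 1) (p (nat_lit 0x444aa) (nat_lit 7) (p (nat_lit 0x111) (nat_lit 1) (p (nat_lit 0xd1) (nat_lit 1) (p (nat_lit 0xc1) (nat_lit 0) (p (nat_lit 0x119) (nat_lit 1) (p (nat_lit 0xc9) (nat_lit 0) (p (nat_lit 0x89) (nat_lit 1) (p (nat_lit 0x41) (nat_lit 0) (p (nat_lit 0x10a098b090a9a) (nat_lit 0) (p (nat_lit 0x9890a888a1a) (nat_lit 0) (p (nat_lit 0x109088a08079a) (nat_lit 0) (p (nat_lit 0x8880987871a) (nat_lit 0) (p (nat_lit 0x8000000000800080907088a) (nat_lit 0) (p (nat_lit 0x8000000000800078886860a) (nat_lit 0) (p (nat_lit 0x10688060782) (nat_lit 0) (p (nat_lit 0x607858702) (nat_lit 0) (p (nat_lit 0x10587050482) (nat_lit 0) (p (nat_lit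 0x506848402) (nat_lit 0) (p (nat_lit 0x16000c) (nat_lit 0) (p (nat_lit 0x50612) (nat_lit 0) (p (nat_lit 0x40592) (nat_lit 0) (p (nat_lit 0x40492) (nat_lit 0) (p (nat_lit 0x30412) (nat_lit 0) (p (nat_lit 0x30212) (nat_lit 0) (p (nat_lit 0x20192) (nat_lit 0) (p (nat_lit 0x20092) (nat_lit 0) (p (nat_lit 0x10012) (nat_lit 0) pn)))))))))))))))))))))))))))))) :=
  Cl.node (nat_lit 0x200004) (nat_lit 2) (by decide +kernel) (ClAll.succ (ClAll.succ ClAll.zero n155) s512)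

def n196 : Cl (O (nat_lit 5)) (R (nat_lit 104465))
    (p (nat_lit 0x101) (nat_lit 1) (p (nat_lit 0x200004) (nat_lit 0) (p (nat_lit 0x380c2) (nat_lit 0) (p (nat_lit 0x44c2a) (nat_lit 0) (p (nat_lit 0x111) (nat_lit 0) (p (nat_lit 0x101) (nat_lit 0) (p (nat_lit 0xc1) (nat_lit 1) (p (nat_lit 0x119) (nat_lit 1) (p (nat_lit 0xc9) (nat_lit 0) (p (nat_lit 0x89) (nat_lit 1) (p (nat_lit 0x41) (nat_lit 0) (p (nat_lit 0x10a098b090a9a) (nat_lit 0) (p (nat_lit 0x9890a888a1a) (nat_lit 0) (p (nat_lit 0x109088a08079a) (nat_lit 0) (p (nat_lit 0x8880987871a) (nat_lit 0) (p (nat_lit 0x8000000000800080907088a) (nat_lit 0) (p (nat_lit 0x8000000000800078886860a) (nat_lit 0) (p (nat_lit 0x10688060782) (nat_lit 0) (p (nat_lit 0x607858702) (nat_lit 0) (p (nat_lit 0x10587050482) (nat_lit 0) (p (nat_lit 0x506848402) (nat_lit 0) (p (nat_lit 0x16000c) (nat_lit 0) (p (nat_lit 0x50612) (nat_lit 0) (p (nat_lit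 0x40592) (nat_lit 0) (p (nat_lit 0x40492) (nat_lit 0) (p (nat_lit 0x30412) (nat_lit 0) (p (nat_lit 0x30212) (nat_lit 0) (p (nat_lit 0x20192) (nat_lit 0) (p (nat_lit 0x20092) (nat_lit 0) (p (nat_lit 0x10012) (nat_lit 0) pn)))))))))))))))))))))))))))))) :=
  Cl.node (nat_lit 0x41) (nat_lit 2) (by decide +kernel) (ClAll.succ (ClAll.succ ClAll.zero s520) s521)

def n197 : Cl (O (nat_lit 5)) (R (nat_lit 104465))
    (p (nat_lit 0x109) (nat_lit 0) (p (nat_lit 0xb000c) (nat_lit 0) (p (nat_lit 0x380c2) (nat_lit 1) (p (nat_lit 0x444aa) (nat_lit 7) (p (nat_lit 0x111) (nat_lit 1) (p (nat_lit 0x101) (nat_lit 0) (p (nat_lit 0xc1) (nat_lit 1) (p (nat_lit 0x119) (nat_lit 1) (p (nat_lit 0xc9) (nat_lit 0) (p (nat_lit 0x89) (nat_lit 1) (p (nat_lit 0x41) (nat_lit 0) (p (nat_lit 0x10a098b090a9a) (nat_lit 0) (p (nat_lit 0x9890a888a1a) (nat_lit 0) (p (nat_lit 0x109088a08079a) (nat_lit 0) (p (nat_lit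 0x8880987871a) (nat_lit 0) (p (nat_lit 0x8000000000800080907088a) (nat_lit 0) (p (nat_lit 0x8000000000800078886860a) (nat_lit 0) (p (nat_lit 0x10688060782) (nat_lit 0) (p (nat_lit 0x607858702) (nat_lit 0) (p (nat_lit 0x10587050482) (nat_lit 0) (p (nat_lit 0x506848402) (nat_lit 0) (p (nat_lit 0x16000c) (nat_lit 0) (p (nat_lit 0x50612) (nat_lit 0) (p (nat_lit 0x40592) (nat_lit 0) (p (nat_lit 0x40492) (nat_lit 0) (p (nat_lit 0x30412) (nat_lit 0) (p (nat_lit 0x30212) (nat_lit 0) (p (nat_lit 0x20192) (nat_lit 0) (p (nat_lit 0x20092) (nat_lit 0) (p (nat_lit 0x10012) (nat_lit 0) pn)))))))))))))))))))))))))))))) :=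
  Cl.node (nat_lit 0x200004) (nat_lit 2) (by decide +kernel) (ClAll.succ (ClAll.succ ClAll.zero n156) s547)

def n198 : Cl (O (nat_lit 5)) (R (nat_lit 104465))
    (p (nat_lit 0x200004) (nat_lit 0) (p (nat_lit 0x380c2) (nat_lit 0) (p (nat_lit 0x3cc2a) (nat_lit 2) (p (nat_lit 0x111) (nat_lit 1) (p (nat_lit 0x89) (nat_lit 0) (p (nat_lit 0x109) (nat_lit 1) (p (nat_lit 0x101) (nat_lit 0) (p (nat_lit 0x119) (nat_lit 0) (p (nat_lit 0xd1) (nat_lit 0) (p (nat_lit 0x81) (nat_lit 0) (p (nat_lit 0x41) (nat_lit 1) (p (nat_lit 0x10a098b090a9a) (nat_lit 0) (p (nat_lit 0x9890a888a1a) (nat_lit 0) (p (nat_lit 0x109088a08079a) (nat_lit 0) (p (nat_lit 0x8880987871a) (nat_lit 0) (p (nat_lit 0x8000000000800080907088a) (nat_lit 0) (p (nat_lit 0x8000000000800078886860a) (nat_lit 0) (p (nat_lit 0x10688060782) (nat_lit 0) (p (nat_lit 0x607858702) (nat_lit 0) (p (nat_lit 0x10587050482) (nat_lit 0) (p (nat_lit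 0x506848402) (nat_lit 0) (p (nat_lit 0x16000c) (nat_lit 0) (p (nat_lit 0x50612) (nat_lit 0) (p (nat_lit 0x40592) (nat_lit 0) (p (nat_lit 0x40492) (nat_lit 0) (p (nat_lit 0x30412) (nat_lit 0) (p (nat_lit 0x30212) (nat_lit 0) (p (nat_lit 0x20192) (nat_lit 0) (p (nat_lit 0x20092) (nat_lit 0) (p (nat_lit 0x10012) (nat_lit 0) pn)))))))))))))))))))))))))))))) :=
  Cl.node (nat_lit 0x200014) (nat_lit 2) (by decide +kernel) (ClAll.succ (ClAll.succ ClAll.zero n157) s594)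

def n199 : Cl (O (nat_lit 5)) (R (nat_lit 104465))
    (p (nat_lit 0xb000c) (nat_lit 1) (p (nat_lit 0x380c2) (nat_lit 1) (p (nat_lit 0x4c42a) (nat_lit 10) (p (nat_lit 0xc9) (nat_lit 0) (p (nat_lit 0x89) (nat_lit 1) (p (nat_lit 0x109) (nat_lit 1) (p (nat_lit 0x101) (nat_lit 0) (p (nat_lit 0x119) (nat_lit 0) (p (nat_lit 0xd1) (nat_lit 0) (p (nat_lit 0x81) (nat_lit 0) (p (nat_lit 0x41) (nat_lit 1) (p (nat_lit 0x10a098b090a9a) (nat_lit 0) (p (nat_lit 0x9890a888a1a) (nat_lit 0) (p (nat_lit 0x109088a08079a) (nat_lit 0) (p (nat_lit 0x8880987871a) (nat_lit 0) (p (nat_lit 0x8000000000800080907088a) (nat_lit 0) (p (nat_lit 0x8000000000800078886860a) (nat_lit 0) (p (nat_lit 0x10688060782) (nat_lit 0) (p (nat_lit 0x607858702) (nat_lit 0) (p (nat_lit 0x10587050482) (nat_lit 0) (p (nat_lit 0x506848402) (nat_lit 0) (p (nat_lit 0x16000c) (nat_lit 0) (p (nat_lit 0x50612) (nat_lit 0) (p (nat_lit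 0x40592) (nat_lit 0) (p (nat_lit 0x40492) (nat_lit 0) (p (nat_lit 0x30412) (nat_lit 0) (p (nat_lit 0x30212) (nat_lit 0) (p (nat_lit 0x20192) (nat_lit 0) (p (nat_lit 0x20092) (nat_lit 0) (p (nat_lit 0x10012) (nat_lit 0) pn)))))))))))))))))))))))))))))) :=
  Cl.node (nat_lit 0x1fc004) (nat_lit 2) (by decide +kernel) (ClAll.succ (ClAll.succ ClAll.zero n158) s624)

def n200 : Cl (O (nat_lit 5)) (R (nat_lit 104465))
    (p (nat_lit 0x200014) (nat_lit 0) (p (nat_lit 0x200004) (nat_lit 0) (p (nat_lit 0x380c2) (nat_lit 0) (p (nat_lit 0x3cc2a) (nat_lit 2) (p (nat_lit 0x89) (nat_lit 0) (p (nat_lit 0xc1) (nat_lit 0) (p (nat_lit 0x101) (nat_lit 1) (p (nat_lit 0x119) (nat_lit 0) (p (nat_lit 0xd1) (nat_lit 0) (p (nat_lit 0x81) (nat_lit 0) (p (nat_lit 0x41) (nat_lit 1) (p (nat_lit 0x10a098b090a9a) (nat_lit 0) (p (nat_lit 0x9890a888a1a) (nat_lit 0) (p (nat_lit 0x109088a08079a) (nat_lit 0) (p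 (nat_lit 0x8880987871a) (nat_lit 0) (p (nat_lit 0x8000000000800080907088a) (nat_lit 0) (p (nat_lit 0x8000000000800078886860a) (nat_lit 0) (p (nat_lit 0x10688060782) (nat_lit 0) (p (nat_lit 0x607858702) (nat_lit 0) (p (nat_lit 0x10587050482) (nat_lit 0) (p (nat_lit 0x506848402) (nat_lit 0) (p (nat_lit 0x16000c) (nat_lit 0) (p (nat_lit 0x50612) (nat_lit 0) (p (nat_lit 0x40592) (nat_lit 0) (p (nat_lit 0x40492) (nat_lit 0) (p (nat_lit 0x30412) (nat_lit 0) (p (nat_lit 0x30212) (nat_lit 0) (p (nat_lit 0x20192) (nat_lit 0) (p (nat_lit 0x20092) (nat_lit 0) (p (nat_lit 0x10012) (nat_lit 0) pn)))))))))))))))))))))))))))))) :=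
  Cl.node (nat_lit 0x100014) (nat_lit 2) (by decide +kernel) (ClAll.succ (ClAll.succ ClAll.zero n159) s633)

def n201 : Cl (O (nat_lit 5)) (R (nat_lit 104465))
    (p (nat_lit 0x1fc004) (nat_lit 0) (p (nat_lit 0xb000c) (nat_lit 1) (p (nat_lit 0x380c2) (nat_lit 0) (p (nat_lit 0x3cc2a) (nat_lit 2) (p (nat_lit 0x89) (nat_lit 0) (p (nat_lit 0xc1) (nat_lit 1) (p (nat_lit 0x101) (nat_lit 1) (p (nat_lit 0x119) (nat_lit 0) (p (nat_lit 0xd1) (nat_lit 0) (p (nat_lit 0x81) (nat_lit 0) (p (nat_lit 0x41) (nat_lit 1) (p (nat_lit 0x10a098b090a9a) (nat_lit 0) (p (nat_lit 0x9890a888a1a) (nat_lit 0) (p (nat_lit 0x109088a08079a) (nat_lit 0) (p (nat_lit 0x8880987871a) (nat_lit 0) (p (nat_lit 0x8000000000800080907088a) (nat_lit 0) (p (nat_lit 0x8000000000800078886860a) (nat_lit 0) (p (nat_lit 0x10688060782) (nat_lit 0) (p (nat_lit 0x607858702) (nat_lit 0) (p (nat_lit 0x10587050482) (nat_lit 0) (p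 (nat_lit 0x506848402) (nat_lit 0) (p (nat_lit 0x16000c) (nat_lit 0) (p (nat_lit 0x50612) (nat_lit 0) (p (nat_lit 0x40592) (nat_lit 0) (p (nat_lit 0x40492) (nat_lit 0) (p (nat_lit 0x30412) (nat_lit 0) (p (nat_lit 0x30212) (nat_lit 0) (p (nat_lit 0x20192) (nat_lit 0) (p (nat_lit 0x20092) (nat_lit 0) (p (nat_lit 0x10012) (nat_lit 0) pn)))))))))))))))))))))))))))))) :=
  Cl.node (nat_lit 0x1fc014) (nat_lit 2) (by decide +kernel) (ClAll.succ (ClAll.succ ClAll.zero n160) s677)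

def n202 : Cl (O (nat_lit 5)) (R (nat_lit 104465))
    (p (nat_lit 0x380c2) (nat_lit 1) (p (nat_lit 0x4c42a) (nat_lit 10) (p (nat_lit 0x119) (nat_lit 0) (p (nat_lit 0xc9) (nat_lit 0) (p (nat_lit 0x89) (nat_lit 1) (p (nat_lit 0x109) (nat_lit 1) (p (nat_lit 0x101) (nat_lit 0) (p (nat_lit 0x111) (nat_lit 0) (p (nat_lit 0xd1) (nat_lit 1) (p (nat_lit 0x81) (nat_lit 0) (p (nat_lit 0x41) (nat_lit 1) (p (nat_lit 0x10a098b090a9a) (nat_lit 0) (p (nat_lit 0x9890a888a1a) (nat_lit 0) (p (nat_lit 0x109088a08079a) (nat_lit 0) (p (nat_lit 0x8880987871a) (nat_lit 0) (p (nat_lit 0x8000000000800080907088a) (nat_lit 0) (p (nat_lit 0x8000000000800078886860a) (nat_lit 0) (p (nat_lit 0x10688060782) (nat_lit 0) (p (nat_lit 0x607858702) (nat_lit 0) (p (nat_lit 0x10587050482) (nat_lit 0) (p (nat_lit 0x506848402) (nat_lit 0) (p (nat_lit 0x16000c) (nat_lit 0) (p (nat_lit 0x50612) (nat_lit 0) (p (nat_lit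 0x40592) (nat_lit 0) (p (nat_lit 0x40492) (nat_lit 0) (p (nat_lit 0x30412) (nat_lit 0) (p (nat_lit 0x30212) (nat_lit 0) (p (nat_lit 0x20192) (nat_lit 0) (p (nat_lit 0x20092) (nat_lit 0) (p (nat_lit 0x10012) (nat_lit 0) pn)))))))))))))))))))))))))))))) :=
  Cl.node (nat_lit 0xb000c) (nat_lit 2) (by decide +kernel) (ClAll.succ (ClAll.succ ClAll.zero s790) s791)

def n203 : Cl (O (nat_lit 5)) (R (nat_lit 104465))
    (p (nat_lit 0x380c2) (nat_lit 0) (p (nat_lit 0x4c42a) (nat_lit 10) (p (nat_lit 0x119) (nat_lit 1) (p (nat_lit 0xc9) (nat_lit 0) (p (nat_lit 0x89) (nat_lit 1) (p (nat_lit 0x109) (nat_lit 1) (p (nat_lit 0x101) (nat_lit 0) (p (nat_lit 0x111) (nat_lit 0) (p (nat_lit 0xd1) (nat_lit 1) (p (nat_lit 0x81) (nat_lit 0) (p (nat_lit 0x41) (nat_lit 1) (p (nat_lit 0x10a098b090a9a) (nat_lit 0) (p (nat_lit 0x9890a888a1a) (nat_lit 0) (p (nat_lit 0x109088a08079a) (nat_lit 0) (p (nat_lit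 0x8880987871a) (nat_lit 0) (p (nat_lit 0x8000000000800080907088a) (nat_lit 0) (p (nat_lit 0x8000000000800078886860a) (nat_lit 0) (p (nat_lit 0x10688060782) (nat_lit 0) (p (nat_lit 0x607858702) (nat_lit 0) (p (nat_lit 0x10587050482) (nat_lit 0) (p (nat_lit 0x506848402) (nat_lit 0) (p (nat_lit 0x16000c) (nat_lit 0) (p (nat_lit 0x50612) (nat_lit 0) (p (nat_lit 0x40592) (nat_lit 0) (p (nat_lit 0x40492) (nat_lit 0) (p (nat_lit 0x30412) (nat_lit 0) (p (nat_lit 0x30212) (nat_lit 0) (p (nat_lit 0x20192) (nat_lit 0) (p (nat_lit 0x20092) (nat_lit 0) (p (nat_lit 0x10012) (nat_lit 0) pn)))))))))))))))))))))))))))))) :=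
  Cl.node (nat_lit 0x200014) (nat_lit 2) (by decide +kernel) (ClAll.succ (ClAll.succ ClAll.zero n161) s815)

def n204 : Cl (O (nat_lit 5)) (R (nat_lit 104465))
    (p (nat_lit 0x380c2) (nat_lit 1) (p (nat_lit 0x4c42a) (nat_lit 10) (p (nat_lit 0x119) (nat_lit 1) (p (nat_lit 0xc9) (nat_lit 0) (p (nat_lit 0x89) (nat_lit 1) (p (nat_lit 0x109) (nat_lit 1) (p (nat_lit 0x101) (nat_lit 0) (p (nat_lit 0x111) (nat_lit 0) (p (nat_lit 0xd1) (nat_lit 1) (p (nat_lit 0x81) (nat_lit 0) (p (nat_lit 0x41) (nat_lit 1) (p (nat_lit 0x10a098b090a9a) (nat_lit 0) (p (nat_lit 0x9890a888a1a) (nat_lit 0) (p (nat_lit 0x109088a08079a) (nat_lit 0) (p (nat_lit 0x8880987871a) (nat_lit 0) (p (nat_lit 0x8000000000800080907088a) (nat_lit 0) (p (nat_lit 0x8000000000800078886860a) (nat_lit 0) (p (nat_lit 0x10688060782) (nat_lit 0) (p (nat_lit 0x607858702) (nat_lit 0) (p (nat_lit 0x10587050482) (nat_lit 0) (p (nat_lit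 0x506848402) (nat_lit 0) (p (nat_lit 0x16000c) (nat_lit 0) (p (nat_lit 0x50612) (nat_lit 0) (p (nat_lit 0x40592) (nat_lit 0) (p (nat_lit 0x40492) (nat_lit 0) (p (nat_lit 0x30412) (nat_lit 0) (p (nat_lit 0x30212) (nat_lit 0) (p (nat_lit 0x20192) (nat_lit 0) (p (nat_lit 0x20092) (nat_lit 0) (p (nat_lit 0x10012) (nat_lit 0) pn)))))))))))))))))))))))))))))) :=
  Cl.node (nat_lit 0xb000c) (nat_lit 2) (by decide +kernel) (ClAll.succ (ClAll.succ ClAll.zero n162) n163)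

def n205 : Cl (O (nat_lit 5)) (R (nat_lit 104465))
    (p (nat_lit 0x1fc004) (nat_lit 0) (p (nat_lit 0xb000c) (nat_lit 1) (p (nat_lit 0x380c2) (nat_lit 0) (p (nat_lit 0x3cc2a) (nat_lit 2) (p (nat_lit 0xc9) (nat_lit 0) (p (nat_lit 0x89) (nat_lit 1) (p (nat_lit 0x101) (nat_lit 1) (p (nat_lit 0x111) (nat_lit 0) (p (nat_lit 0xd1) (nat_lit 1) (p (nat_lit 0x81) (nat_lit 0) (p (nat_lit 0x41) (nat_lit 1) (p (nat_lit 0x10a098b090a9a) (nat_lit 0) (p (nat_lit 0x9890a888a1a) (nat_lit 0) (p (nat_lit 0x109088a08079a) (nat_lit 0) (p (nat_lit 0x8880987871a) (nat_lit 0) (p (nat_lit 0x8000000000800080907088a) (nat_lit 0) (p (nat_lit 0x8000000000800078886860a) (nat_lit 0) (p (nat_lit 0x10688060782) (nat_lit 0) (p (nat_lit 0x607858702) (nat_lit 0) (p (nat_lit 0x10587050482) (nat_lit 0) (p (nat_lit 0x506848402) (nat_lit 0) (p (nat_lit 0x16000c) (nat_lit 0) (p (nat_lit 0x50612) (nat_lit 0) (p (nat_lit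 0x40592) (nat_lit 0) (p (nat_lit 0x40492) (nat_lit 0) (p (nat_lit 0x30412) (nat_lit 0) (p (nat_lit 0x30212) (nat_lit 0) (p (nat_lit 0x20192) (nat_lit 0) (p (nat_lit 0x20092) (nat_lit 0) (p (nat_lit 0x10012) (nat_lit 0) pn)))))))))))))))))))))))))))))) :=
  Cl.node (nat_lit 0x1fc014) (nat_lit 2) (by decide +kernel) (ClAll.succ (ClAll.succ ClAll.zero n164) s859)

def n206 : Cl (O (nat_lit 5)) (R (nat_lit 104465))
    (p (nat_lit 0x380c2) (nat_lit 0) (p (nat_lit 0x444aa) (nat_lit 7) (p (nat_lit 0x81) (nat_lit 1) (p (nat_lit 0xc9) (nat_lit 1) (p (nat_lit 0x109) (nat_lit 1) (p (nat_lit 0x101) (nat_lit 0) (p (nat_lit 0x119) (nat_lit 0) (p (nat_lit 0xd1) (nat_lit 0) (p (nat_lit 0x89) (nat_lit 0) (p (nat_lit 0x41) (nat_lit 0) (p (nat_lit 0x10a098b090a9a) (nat_lit 0) (p (nat_lit 0x9890a888a1a) (nat_lit 0) (p (nat_lit 0x109088a08079a) (nat_lit 0) (p (nat_lit 0x8880987871a) (nat_lit 0) (p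 (nat_lit 0x8000000000800080907088a) (nat_lit 0) (p (nat_lit 0x8000000000800078886860a) (nat_lit 0) (p (nat_lit 0x10688060782) (nat_lit 0) (p (nat_lit 0x607858702) (nat_lit 0) (p (nat_lit 0x10587050482) (nat_lit 0) (p (nat_lit 0x506848402) (nat_lit 0) (p (nat_lit 0x16000c) (nat_lit 0) (p (nat_lit 0x50612) (nat_lit 0) (p (nat_lit 0x40592) (nat_lit 0) (p (nat_lit 0x40492) (nat_lit 0) (p (nat_lit 0x30412) (nat_lit 0) (p (nat_lit 0x30212) (nat_lit 0) (p (nat_lit 0x20192) (nat_lit 0) (p (nat_lit 0x20092) (nat_lit 0) (p (nat_lit 0x10012) (nat_lit 0) pn))))))))))))))))))))))))))))) :=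
  Cl.node (nat_lit 0xb000c) (nat_lit 2) (by decide +kernel) (ClAll.succ (ClAll.succ ClAll.zero s21) n165)

def n207 : Cl (O (nat_lit 5)) (R (nat_lit 104465))
    (p (nat_lit 0x380c2) (nat_lit 1) (p (nat_lit 0x444aa) (nat_lit 7) (p (nat_lit 0x81) (nat_lit 1) (p (nat_lit 0xc9) (nat_lit 1) (p (nat_lit 0x109) (nat_lit 1) (p (nat_lit 0x101) (nat_lit 0) (p (nat_lit 0x119) (nat_lit 0) (p (nat_lit 0xd1) (nat_lit 0) (p (nat_lit 0x89) (nat_lit 0) (p (nat_lit 0x41) (nat_lit 0) (p (nat_lit 0x10a098b090a9a) (nat_lit 0) (p (nat_lit 0x9890a888a1a) (nat_lit 0) (p (nat_lit 0x109088a08079a) (nat_lit 0) (p (nat_lit 0x8880987871a) (nat_lit 0) (p (nat_lit 0x8000000000800080907088a) (nat_lit 0) (p (nat_lit 0x8000000000800078886860a) (nat_lit 0) (p (nat_lit 0x10688060782) (nat_lit 0) (p (nat_lit 0x607858702) (nat_lit 0) (p (nat_lit 0x10587050482) (nat_lit 0) (p (nat_lit 0x506848402) (nat_lit 0) (p (nat_lit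 0x16000c) (nat_lit 0) (p (nat_lit 0x50612) (nat_lit 0) (p (nat_lit 0x40592) (nat_lit 0) (p (nat_lit 0x40492) (nat_lit 0) (p (nat_lit 0x30412) (nat_lit 0) (p (nat_lit 0x30212) (nat_lit 0) (p (nat_lit 0x20192) (nat_lit 0) (p (nat_lit 0x20092) (nat_lit 0) (p (nat_lit 0x10012) (nat_lit 0) pn))))))))))))))))))))))))))))) :=
  Cl.node (nat_lit 0xb000c) (nat_lit 2) (by decide +kernel) (ClAll.succ (ClAll.succ ClAll.zero s27) s28)

def n208 : Cl (O (nat_lit 5)) (R (nat_lit 104465))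
    (p (nat_lit 0x380c2) (nat_lit 0) (p (nat_lit 0x444aa) (nat_lit 7) (p (nat_lit 0x111) (nat_lit 0) (p (nat_lit 0xc9) (nat_lit 1) (p (nat_lit 0x81) (nat_lit 0) (p (nat_lit 0x101) (nat_lit 1) (p (nat_lit 0x119) (nat_lit 0) (p (nat_lit 0xd1) (nat_lit 0) (p (nat_lit 0x89) (nat_lit 0) (p (nat_lit 0x41) (nat_lit 0) (p (nat_lit 0x10a098b090a9a) (nat_lit 0) (p (nat_lit 0x9890a888a1a) (nat_lit 0) (p (nat_lit 0x109088a08079a) (nat_lit 0) (p (nat_lit 0x8880987871a) (nat_lit 0) (p (nat_lit 0x8000000000800080907088a) (nat_lit 0) (p (nat_lit 0x8000000000800078886860a) (nat_lit 0) (p (nat_lit 0x10688060782) (nat_lit 0) (p (nat_lit 0x607858702) (nat_lit 0) (p (nat_lit 0x10587050482) (nat_lit 0) (p (nat_lit 0x506848402) (nat_lit 0) (p (nat_lit 0x16000c) (nat_lit 0) (p (nat_lit 0x50612) (nat_lit 0) (p (nat_lit 0x40592) (nat_lit 0) (p (nat_lit 0x40492) (nat_lit 0) (p (nat_lit 0x30412) (nat_lit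 0) (p (nat_lit 0x30212) (nat_lit 0) (p (nat_lit 0x20192) (nat_lit 0) (p (nat_lit 0x20092) (nat_lit 0) (p (nat_lit 0x10012) (nat_lit 0) pn))))))))))))))))))))))))))))) :=
  Cl.node (nat_lit 0xb000c) (nat_lit 2) (by decide +kernel) (ClAll.succ (ClAll.succ ClAll.zero n166) n167)

def n209 : Cl (O (nat_lit 5)) (R (nat_lit 104465))
    (p (nat_lit 0x380c2) (nat_lit 1) (p (nat_lit 0x444aa) (nat_lit 7) (p (nat_lit 0x111) (nat_lit 0) (p (nat_lit 0xc9) (nat_lit 1) (p (nat_lit 0x81) (nat_lit 0) (p (nat_lit 0x101) (nat_lit 1) (p (nat_lit 0x119) (nat_lit 0) (p (nat_lit 0xd1) (nat_lit 0) (p (nat_lit 0x89) (nat_lit 0) (p (nat_lit 0x41) (nat_lit 0) (p (nat_lit 0x10a098b090a9a) (nat_lit 0) (p (nat_lit 0x9890a888a1a) (nat_lit 0) (p (nat_lit 0x109088a08079a) (nat_lit 0) (p (nat_lit 0x8880987871a) (nat_lit 0) (p (nat_lit 0x8000000000800080907088a) (nat_lit 0) (p (nat_lit 0x8000000000800078886860a)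 (nat_lit 0) (p (nat_lit 0x10688060782) (nat_lit 0) (p (nat_lit 0x607858702) (nat_lit 0) (p (nat_lit 0x10587050482) (nat_lit 0) (p (nat_lit 0x506848402) (nat_lit 0) (p (nat_lit 0x16000c) (nat_lit 0) (p (nat_lit 0x50612) (nat_lit 0) (p (nat_lit 0x40592) (nat_lit 0) (p (nat_lit 0x40492) (nat_lit 0) (p (nat_lit 0x30412) (nat_lit 0) (p (nat_lit 0x30212) (nat_lit 0) (p (nat_lit 0x20192) (nat_lit 0) (p (nat_lit 0x20092) (nat_lit 0) (p (nat_lit 0x10012) (nat_lit 0) pn))))))))))))))))))))))))))))) :=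
  Cl.node (nat_lit 0xb000c) (nat_lit 2) (by decide +kernel) (ClAll.succ (ClAll.succ ClAll.zero n168) n169)

def n210 : Cl (O (nat_lit 5)) (R (nat_lit 104465))
    (p (nat_lit 0x380c2) (nat_lit 0) (p (nat_lit 0x3cc2a) (nat_lit 2) (p (nat_lit 0x111) (nat_lit 1) (p (nat_lit 0xc9) (nat_lit 1) (p (nat_lit 0x81) (nat_lit 0) (p (nat_lit 0x101) (nat_lit 1) (p (nat_lit 0x119) (nat_lit 0) (p (nat_lit 0xd1) (nat_lit 0) (p (nat_lit 0x89) (nat_lit 0) (p (nat_lit 0x41) (nat_lit 0) (p (nat_lit 0x10a098b090a9a) (nat_lit 0) (p (nat_lit 0x9890a888a1a) (nat_lit 0) (p (nat_lit 0x109088a08079a) (nat_lit 0) (p (nat_lit 0x8880987871a) (nat_lit 0) (p (nat_lit 0x8000000000800080907088a) (nat_lit 0) (p (nat_lit 0x8000000000800078886860a) (nat_lit 0) (p (nat_lit 0x10688060782) (nat_lit 0) (p (nat_lit 0x607858702) (nat_lit 0) (p (nat_lit 0x10587050482) (nat_lit 0) (p (nat_lit 0x506848402) (nat_lit 0) (p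 (nat_lit 0x16000c) (nat_lit 0) (p (nat_lit 0x50612) (nat_lit 0) (p (nat_lit 0x40592) (nat_lit 0) (p (nat_lit 0x40492) (nat_lit 0) (p (nat_lit 0x30412) (nat_lit 0) (p (nat_lit 0x30212) (nat_lit 0) (p (nat_lit 0x20192) (nat_lit 0) (p (nat_lit 0x20092) (nat_lit 0) (p (nat_lit 0x10012) (nat_lit 0) pn))))))))))))))))))))))))))))) :=
  Cl.node (nat_lit 0x200014) (nat_lit 2) (by decide +kernel) (ClAll.succ (ClAll.succ ClAll.zero n170) s92)

def n211 : Cl (O (nat_lit 5)) (R (nat_lit 104465))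
    (p (nat_lit 0x380c2) (nat_lit 1) (p (nat_lit 0x444aa) (nat_lit 7) (p (nat_lit 0xc9) (nat_lit 1) (p (nat_lit 0xc1) (nat_lit 0) (p (nat_lit 0x81) (nat_lit 1) (p (nat_lit 0x101) (nat_lit 1) (p (nat_lit 0x119) (nat_lit 0) (p (nat_lit 0xd1) (nat_lit 0) (p (nat_lit 0x89) (nat_lit 0) (p (nat_lit 0x41) (nat_lit 0) (p (nat_lit 0x10a098b090a9a) (nat_lit 0) (p (nat_lit 0x9890a888a1a) (nat_lit 0) (p (nat_lit 0x109088a08079a) (nat_lit 0) (p (nat_lit 0x8880987871a) (nat_lit 0) (p (nat_lit 0x8000000000800080907088a) (nat_lit 0) (p (nat_lit 0x8000000000800078886860a) (nat_lit 0) (p (nat_lit 0x10688060782) (nat_lit 0) (p (nat_lit 0x607858702) (nat_lit 0) (p (nat_lit 0x10587050482) (nat_lit 0) (p (nat_lit 0x506848402) (nat_lit 0) (p (nat_lit 0x16000c) (nat_lit 0) (p (nat_lit 0x50612) (nat_lit 0) (p (nat_lit 0x40592) (nat_lit 0) (p (nat_lit 0x40492) (nat_lit 0) (p (nat_lit 0x30412) (nat_lit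 0) (p (nat_lit 0x30212) (nat_lit 0) (p (nat_lit 0x20192) (nat_lit 0) (p (nat_lit 0x20092) (nat_lit 0) (p (nat_lit 0x10012) (nat_lit 0) pn))))))))))))))))))))))))))))) :=
  Cl.node (nat_lit 0xb000c) (nat_lit 2) (by decide +kernel) (ClAll.succ (ClAll.succ ClAll.zero n171) s125)

def n212 : Cl (O (nat_lit 5)) (R (nat_lit 104465))
    (p (nat_lit 0x101) (nat_lit 0) (p (nat_lit 0x380c2) (nat_lit 0) (p (nat_lit 0x3cc2a) (nat_lit 2) (p (nat_lit 0x109) (nat_lit 1) (p (nat_lit 0xc9) (nat_lit 1) (p (nat_lit 0xc1) (nat_lit 0) (p (nat_lit 0x119) (nat_lit 1) (p (nat_lit 0xd1) (nat_lit 0) (p (nat_lit 0x89) (nat_lit 0) (p (nat_lit 0x41) (nat_lit 0) (p (nat_lit 0x10a098b090a9a) (nat_lit 0) (p (nat_lit 0x9890a888a1a) (nat_lit 0) (p (nat_lit 0x109088a08079a) (nat_lit 0) (p (nat_lit 0x8880987871a) (nat_lit 0) (p (nat_lit 0x8000000000800080907088a) (nat_lit 0) (p (nat_lit 0x8000000000800078886860a)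 (nat_lit 0) (p (nat_lit 0x10688060782) (nat_lit 0) (p (nat_lit 0x607858702) (nat_lit 0) (p (nat_lit 0x10587050482) (nat_lit 0) (p (nat_lit 0x506848402) (nat_lit 0) (p (nat_lit 0x16000c) (nat_lit 0) (p (nat_lit 0x50612) (nat_lit 0) (p (nat_lit 0x40592) (nat_lit 0) (p (nat_lit 0x40492) (nat_lit 0) (p (nat_lit 0x30412) (nat_lit 0) (p (nat_lit 0x30212) (nat_lit 0) (p (nat_lit 0x20192) (nat_lit 0) (p (nat_lit 0x20092) (nat_lit 0) (p (nat_lit 0x10012) (nat_lit 0) pn))))))))))))))))))))))))))))) :=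
  Cl.node (nat_lit 0x200014) (nat_lit 2) (by decide +kernel) (ClAll.succ (ClAll.succ ClAll.zero n172) s142)

def n213 : Cl (O (nat_lit 5)) (R (nat_lit 104465))
    (p (nat_lit 0x101) (nat_lit 1) (p (nat_lit 0x380c2) (nat_lit 0) (p (nat_lit 0x3cc2a) (nat_lit 2) (p (nat_lit 0x109) (nat_lit 1) (p (nat_lit 0xc9) (nat_lit 1) (p (nat_lit 0xc1) (nat_lit 0) (p (nat_lit 0x119) (nat_lit 1) (p (nat_lit 0xd1) (nat_lit 0) (p (nat_lit 0x89) (nat_lit 0) (p (nat_lit 0x41) (nat_lit 0) (p (nat_lit 0x10a098b090a9a) (nat_lit 0) (p (nat_lit 0x9890a888a1a) (nat_lit 0) (p (nat_lit 0x109088a08079a) (nat_lit 0) (p (nat_lit 0x8880987871a) (nat_lit 0) (p (nat_lit 0x8000000000800080907088a) (nat_lit 0) (p (nat_lit 0x8000000000800078886860a) (nat_lit 0) (p (nat_lit 0x10688060782) (nat_lit 0) (p (nat_lit 0x607858702) (nat_lit 0) (p (nat_lit 0x10587050482) (nat_lit 0) (p (nat_lit 0x506848402) (nat_lit 0) (p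 (nat_lit 0x16000c) (nat_lit 0) (p (nat_lit 0x50612) (nat_lit 0) (p (nat_lit 0x40592) (nat_lit 0) (p (nat_lit 0x40492) (nat_lit 0) (p (nat_lit 0x30412) (nat_lit 0) (p (nat_lit 0x30212) (nat_lit 0) (p (nat_lit 0x20192) (nat_lit 0) (p (nat_lit 0x20092) (nat_lit 0) (p (nat_lit 0x10012) (nat_lit 0) pn))))))))))))))))))))))))))))) :=
  Cl.node (nat_lit 0x41) (nat_lit 2) (by decide +kernel) (ClAll.succ (ClAll.succ ClAll.zero n173) s148)

def n214 : Cl (O (nat_lit 5)) (R (nat_lit 104465))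
    (p (nat_lit 0xc9) (nat_lit 1) (p (nat_lit 0x380c2) (nat_lit 0) (p (nat_lit 0x3cc2a) (nat_lit 2) (p (nat_lit 0x109) (nat_lit 1) (p (nat_lit 0x81) (nat_lit 0) (p (nat_lit 0xc1) (nat_lit 1) (p (nat_lit 0x119) (nat_lit 1) (p (nat_lit 0xd1) (nat_lit 0) (p (nat_lit 0x89) (nat_lit 0) (p (nat_lit 0x41) (nat_lit 0) (p (nat_lit 0x10a098b090a9a) (nat_lit 0) (p (nat_lit 0x9890a888a1a) (nat_lit 0) (p (nat_lit 0x109088a08079a) (nat_lit 0) (p (nat_lit 0x8880987871a) (nat_lit 0) (p (nat_lit 0x8000000000800080907088a) (nat_lit 0) (p (nat_lit 0x8000000000800078886860a) (nat_lit 0) (p (nat_lit 0x10688060782) (nat_lit 0) (p (nat_lit 0x607858702) (nat_lit 0) (p (nat_lit 0x10587050482) (nat_lit 0) (p (nat_lit 0x506848402) (nat_lit 0) (p (nat_lit 0x16000c) (nat_lit 0) (p (nat_lit 0x50612) (nat_lit 0) (p (nat_lit 0x40592) (nat_lit 0) (p (nat_lit 0x40492) (nat_lit 0) (p (nat_lit 0x30412) (nat_lit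 0) (p (nat_lit 0x30212) (nat_lit 0) (p (nat_lit 0x20192) (nat_lit 0) (p (nat_lit 0x20092) (nat_lit 0) (p (nat_lit 0x10012) (nat_lit 0) pn))))))))))))))))))))))))))))) :=
  Cl.node (nat_lit 0x200014) (nat_lit 2) (by decide +kernel) (ClAll.succ (ClAll.succ ClAll.zero n174) s169)

def n215 : Cl (O (nat_lit 5)) (R (nat_lit 104465))
    (p (nat_lit 0x380c2) (nat_lit 0) (p (nat_lit 0x44c2a) (nat_lit 0) (p (nat_lit 0x109) (nat_lit 0) (p (nat_lit 0x101) (nat_lit 0) (p (nat_lit 0x81) (nat_lit 1) (p (nat_lit 0xc1) (nat_lit 1) (p (nat_lit 0x119) (nat_lit 1) (p (nat_lit 0xd1) (nat_lit 0) (p (nat_lit 0x89) (nat_lit 0) (p (nat_lit 0x41) (nat_lit 0) (p (nat_lit 0x10a098b090a9a) (nat_lit 0) (p (nat_lit 0x9890a888a1a) (nat_lit 0) (p (nat_lit 0x109088a08079a) (nat_lit 0) (p (nat_lit 0x8880987871a) (nat_lit 0) (p (nat_lit 0x8000000000800080907088a) (nat_lit 0) (p (nat_lit 0x8000000000800078886860a)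 (nat_lit 0) (p (nat_lit 0x10688060782) (nat_lit 0) (p (nat_lit 0x607858702) (nat_lit 0) (p (nat_lit 0x10587050482) (nat_lit 0) (p (nat_lit 0x506848402) (nat_lit 0) (p (nat_lit 0x16000c) (nat_lit 0) (p (nat_lit 0x50612) (nat_lit 0) (p (nat_lit 0x40592) (nat_lit 0) (p (nat_lit 0x40492) (nat_lit 0) (p (nat_lit 0x30412) (nat_lit 0) (p (nat_lit 0x30212) (nat_lit 0) (p (nat_lit 0x20192) (nat_lit 0) (p (nat_lit 0x20092) (nat_lit 0) (p (nat_lit 0x10012) (nat_lit 0) pn))))))))))))))))))))))))))))) :=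
  Cl.node (nat_lit 0x101) (nat_lit 2) (by decide +kernel) (ClAll.succ (ClAll.succ ClAll.zero s179) n175)

def n216 : Cl (O (nat_lit 5)) (R (nat_lit 104465))
    (p (nat_lit 0x380c2) (nat_lit 0) (p (nat_lit 0x444aa) (nat_lit 7) (p (nat_lit 0x109) (nat_lit 1) (p (nat_lit 0x101) (nat_lit 0) (p (nat_lit 0x81) (nat_lit 1) (p (nat_lit 0xc1) (nat_lit 1) (p (nat_lit 0x119) (nat_lit 1) (p (nat_lit 0xd1) (nat_lit 0) (p (nat_lit 0x89) (nat_lit 0) (p (nat_lit 0x41) (nat_lit 0) (p (nat_lit 0x10a098b090a9a) (nat_lit 0) (p (nat_lit 0x9890a888a1a) (nat_lit 0) (p (nat_lit 0x109088a08079a) (nat_lit 0) (p (nat_lit 0x8880987871a) (nat_lit 0) (p (nat_lit 0x8000000000800080907088a) (nat_lit 0) (p (nat_lit 0x8000000000800078886860a) (nat_lit 0) (p (nat_lit 0x10688060782) (nat_lit 0) (p (nat_lit 0x607858702) (nat_lit 0) (p (nat_lit 0x10587050482) (nat_lit 0) (p (nat_lit 0x506848402) (nat_lit 0) (p (nat_lit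 0x16000c) (nat_lit 0) (p (nat_lit 0x50612) (nat_lit 0) (p (nat_lit 0x40592) (nat_lit 0) (p (nat_lit 0x40492) (nat_lit 0) (p (nat_lit 0x30412) (nat_lit 0) (p (nat_lit 0x30212) (nat_lit 0) (p (nat_lit 0x20192) (nat_lit 0) (p (nat_lit 0x20092) (nat_lit 0) (p (nat_lit 0x10012) (nat_lit 0) pn))))))))))))))))))))))))))))) :=
  Cl.node (nat_lit 0xb000c) (nat_lit 2) (by decide +kernel) (ClAll.succ (ClAll.succ ClAll.zero n176) s216)

def n217 : Cl (O (nat_lit 5)) (R (nat_lit 104465))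
    (p (nat_lit 0x380c2) (nat_lit 1) (p (nat_lit 0x444aa) (nat_lit 7) (p (nat_lit 0x109) (nat_lit 1) (p (nat_lit 0x101) (nat_lit 0) (p (nat_lit 0x81) (nat_lit 1) (p (nat_lit 0xc1) (nat_lit 1) (p (nat_lit 0x119) (nat_lit 1) (p (nat_lit 0xd1) (nat_lit 0) (p (nat_lit 0x89) (nat_lit 0) (p (nat_lit 0x41) (nat_lit 0) (p (nat_lit 0x10a098b090a9a) (nat_lit 0) (p (nat_lit 0x9890a888a1a) (nat_lit 0) (p (nat_lit 0x109088a08079a) (nat_lit 0) (p (nat_lit 0x8880987871a) (nat_lit 0) (p (nat_lit 0x8000000000800080907088a) (nat_lit 0) (p (nat_lit 0x8000000000800078886860a) (nat_lit 0) (p (nat_lit 0x10688060782) (nat_lit 0) (p (nat_lit 0x607858702) (nat_lit 0) (p (nat_lit 0x10587050482) (nat_lit 0) (p (nat_lit 0x506848402) (nat_lit 0) (p (nat_lit 0x16000c) (nat_lit 0) (p (nat_lit 0x50612) (nat_lit 0) (p (nat_lit 0x40592) (nat_lit 0) (p (nat_lit 0x40492) (nat_lit 0) (p (nat_lit 0x30412) (nat_lit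 0) (p (nat_lit 0x30212) (nat_lit 0) (p (nat_lit 0x20192) (nat_lit 0) (p (nat_lit 0x20092) (nat_lit 0) (p (nat_lit 0x10012) (nat_lit 0) pn))))))))))))))))))))))))))))) :=
  Cl.node (nat_lit 0xb000c) (nat_lit 2) (by decide +kernel) (ClAll.succ (ClAll.succ ClAll.zero n177) s222)

def n218 : Cl (O (nat_lit 5)) (R (nat_lit 104465))
    (p (nat_lit 0x41) (nat_lit 0) (p (nat_lit 0x200014) (nat_lit 0) (p (nat_lit 0x200004) (nat_lit 0) (p (nat_lit 0xc1) (nat_lit 1) (p (nat_lit 0x109) (nat_lit 1) (p (nat_lit 0x101) (nat_lit 0) (p (nat_lit 0x111) (nat_lit 0) (p (nat_lit 0xd1) (nat_lit 1) (p (nat_lit 0x89) (nat_lit 0) (p (nat_lit 0x41) (nat_lit 0) (p (nat_lit 0x10a098b090a9a) (nat_lit 0) (p (nat_lit 0x9890a888a1a) (nat_lit 0) (p (nat_lit 0x109088a08079a) (nat_lit 0) (p (nat_lit 0x8880987871a) (nat_lit 0) (p (nat_lit 0x8000000000800080907088a) (nat_lit 0) (p (nat_lit 0x8000000000800078886860a)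 (nat_lit 0) (p (nat_lit 0x10688060782) (nat_lit 0) (p (nat_lit 0x607858702) (nat_lit 0) (p (nat_lit 0x10587050482) (nat_lit 0) (p (nat_lit 0x506848402) (nat_lit 0) (p (nat_lit 0x16000c) (nat_lit 0) (p (nat_lit 0x50612) (nat_lit 0) (p (nat_lit 0x40592) (nat_lit 0) (p (nat_lit 0x40492) (nat_lit 0) (p (nat_lit 0x30412) (nat_lit 0) (p (nat_lit 0x30212) (nat_lit 0) (p (nat_lit 0x20192) (nat_lit 0) (p (nat_lit 0x20092) (nat_lit 0) (p (nat_lit 0x10012) (nat_lit 0) pn))))))))))))))))))))))))))))) :=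
  Cl.node (nat_lit 0x3cc2a) (nat_lit 12) (by decide +kernel) (ClAll.succ (ClAll.succ (ClAll.succ (ClAll.succ (ClAll.succ (ClAll.succ (ClAll.succ (ClAll.succ (ClAll.succ (ClAll.succ (ClAll.succ (ClAll.succ ClAll.zero s241) s242) s243) s244) s245) s246) s247) s248) s249) s250) s251) s252)

def n219 : Cl (O (nat_lit 5)) (R (nat_lit 104465))
    (p (nat_lit 0x109) (nat_lit 1) (p (nat_lit 0x200014) (nat_lit 0) (p (nat_lit 0x200004) (nat_lit 0) (p (nat_lit 0x119) (nat_lit 0) (p (nat_lit 0x81) (nat_lit 0) (p (nat_lit 0x101) (nat_lit 1) (p (nat_lit 0x111) (nat_lit 0) (p (nat_lit 0xd1) (nat_lit 1) (p (nat_lit 0x89) (nat_lit 0) (p (nat_lit 0x41) (nat_lit 0) (p (nat_lit 0x10a098b090a9a) (nat_lit 0) (p (nat_lit 0x9890a888a1a) (nat_lit 0) (p (nat_lit 0x109088a08079a) (nat_lit 0) (p (nat_lit 0x8880987871a) (nat_lit 0) (p (nat_lit 0x8000000000800080907088a) (nat_lit 0) (p (nat_lit 0x8000000000800078886860a)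 (nat_lit 0) (p (nat_lit 0x10688060782) (nat_lit 0) (p (nat_lit 0x607858702) (nat_lit 0) (p (nat_lit 0x10587050482) (nat_lit 0) (p (nat_lit 0x506848402) (nat_lit 0) (p (nat_lit 0x16000c) (nat_lit 0) (p (nat_lit 0x50612) (nat_lit 0) (p (nat_lit 0x40592) (nat_lit 0) (p (nat_lit 0x40492) (nat_lit 0) (p (nat_lit 0x30412) (nat_lit 0) (p (nat_lit 0x30212) (nat_lit 0) (p (nat_lit 0x20192) (nat_lit 0) (p (nat_lit 0x20092) (nat_lit 0) (p (nat_lit 0x10012) (nat_lit 0) pn))))))))))))))))))))))))))))) :=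
  Cl.node (nat_lit 0x3cc2a) (nat_lit 12) (by decide +kernel) (ClAll.succ (ClAll.succ (ClAll.succ (ClAll.succ (ClAll.succ (ClAll.succ (ClAll.succ (ClAll.succ (ClAll.succ (ClAll.succ (ClAll.succ (ClAll.succ ClAll.zero s257) n178) n179) s265) s266) s267) s268) s269) s270) s271) s272) s273)

def n220 : Cl (O (nat_lit 5)) (R (nat_lit 104465))
    (p (nat_lit 0x380c2) (nat_lit 0) (p (nat_lit 0x444aa) (nat_lit 7) (p (nat_lit 0x119) (nat_lit 0) (p (nat_lit 0xc1) (nat_lit 0) (p (nat_lit 0x81) (nat_lit 1) (p (nat_lit 0x101) (nat_lit 1) (p (nat_lit 0x111) (nat_lit 0) (p (nat_lit 0xd1) (nat_lit 1) (p (nat_lit 0x89) (nat_lit 0) (p (nat_lit 0x41) (nat_lit 0) (p (nat_lit 0x10a098b090a9a) (nat_lit 0) (p (nat_lit 0x9890a888a1a) (nat_lit 0) (p (nat_lit 0x109088a08079a) (nat_lit 0) (p (nat_lit 0x8880987871a) (nat_lit 0) (p (nat_lit 0x8000000000800080907088a) (nat_lit 0) (p (nat_lit 0x8000000000800078886860a)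 (nat_lit 0) (p (nat_lit 0x10688060782) (nat_lit 0) (p (nat_lit 0x607858702) (nat_lit 0) (p (nat_lit 0x10587050482) (nat_lit 0) (p (nat_lit 0x506848402) (nat_lit 0) (p (nat_lit 0x16000c) (nat_lit 0) (p (nat_lit 0x50612) (nat_lit 0) (p (nat_lit 0x40592) (nat_lit 0) (p (nat_lit 0x40492) (nat_lit 0) (p (nat_lit 0x30412) (nat_lit 0) (p (nat_lit 0x30212) (nat_lit 0) (p (nat_lit 0x20192) (nat_lit 0) (p (nat_lit 0x20092) (nat_lit 0) (p (nat_lit 0x10012) (nat_lit 0) pn))))))))))))))))))))))))))))) :=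
  Cl.node (nat_lit 0xc9) (nat_lit 2) (by decide +kernel) (ClAll.succ (ClAll.succ ClAll.zero n180) s297)

def n221 : Cl (O (nat_lit 5)) (R (nat_lit 104465))
    (p (nat_lit 0x380c2) (nat_lit 1) (p (nat_lit 0x444aa) (nat_lit 7) (p (nat_lit 0x119) (nat_lit 0) (p (nat_lit 0xc1) (nat_lit 0) (p (nat_lit 0x81) (nat_lit 1) (p (nat_lit 0x101) (nat_lit 1) (p (nat_lit 0x111) (nat_lit 0) (p (nat_lit 0xd1) (nat_lit 1) (p (nat_lit 0x89) (nat_lit 0) (p (nat_lit 0x41) (nat_lit 0) (p (nat_lit 0x10a098b090a9a) (nat_lit 0) (p (nat_lit 0x9890a888a1a) (nat_lit 0) (p (nat_lit 0x109088a08079a) (nat_lit 0) (p (nat_lit 0x8880987871a) (nat_lit 0) (p (nat_lit 0x8000000000800080907088a) (nat_lit 0) (p (nat_lit 0x8000000000800078886860a) (nat_lit 0) (p (nat_lit 0x10688060782) (nat_lit 0) (p (nat_lit 0x607858702) (nat_lit 0) (p (nat_lit 0x10587050482) (nat_lit 0) (p (nat_lit 0x506848402) (nat_lit 0) (p (nat_lit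 0x16000c) (nat_lit 0) (p (nat_lit 0x50612) (nat_lit 0) (p (nat_lit 0x40592) (nat_lit 0) (p (nat_lit 0x40492) (nat_lit 0) (p (nat_lit 0x30412) (nat_lit 0) (p (nat_lit 0x30212) (nat_lit 0) (p (nat_lit 0x20192) (nat_lit 0) (p (nat_lit 0x20092) (nat_lit 0) (p (nat_lit 0x10012) (nat_lit 0) pn))))))))))))))))))))))))))))) :=
  Cl.node (nat_lit 0xb000c) (nat_lit 2) (by decide +kernel) (ClAll.succ (ClAll.succ ClAll.zero n181) n182)

def n222 : Cl (O (nat_lit 5)) (R (nat_lit 104465))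
    (p (nat_lit 0x380c2) (nat_lit 0) (p (nat_lit 0x3cc2a) (nat_lit 2) (p (nat_lit 0x119) (nat_lit 1) (p (nat_lit 0xc1) (nat_lit 0) (p (nat_lit 0x81) (nat_lit 1) (p (nat_lit 0x101) (nat_lit 1) (p (nat_lit 0x111) (nat_lit 0) (p (nat_lit 0xd1) (nat_lit 1) (p (nat_lit 0x89) (nat_lit 0) (p (nat_lit 0x41) (nat_lit 0) (p (nat_lit 0x10a098b090a9a) (nat_lit 0) (p (nat_lit 0x9890a888a1a) (nat_lit 0) (p (nat_lit 0x109088a08079a) (nat_lit 0) (p (nat_lit 0x8880987871a) (nat_lit 0) (p (nat_lit 0x8000000000800080907088a) (nat_lit 0) (p (nat_lit 0x8000000000800078886860a) (nat_lit 0) (p (nat_lit 0x10688060782) (nat_lit 0) (p (nat_lit 0x607858702) (nat_lit 0) (p (nat_lit 0x10587050482) (nat_lit 0) (p (nat_lit 0x506848402) (nat_lit 0) (p (nat_lit 0x16000c) (nat_lit 0) (p (nat_lit 0x50612) (nat_lit 0) (p (nat_lit 0x40592) (nat_lit 0) (p (nat_lit 0x40492) (nat_lit 0) (p (nat_lit 0x30412) (nat_lit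 0) (p (nat_lit 0x30212) (nat_lit 0) (p (nat_lit 0x20192) (nat_lit 0) (p (nat_lit 0x20092) (nat_lit 0) (p (nat_lit 0x10012) (nat_lit 0) pn))))))))))))))))))))))))))))) :=
  Cl.node (nat_lit 0x200014) (nat_lit 2) (by decide +kernel) (ClAll.succ (ClAll.succ ClAll.zero n183) s339)

def n223 : Cl (O (nat_lit 5)) (R (nat_lit 104465))
    (p (nat_lit 0x41) (nat_lit 1) (p (nat_lit 0x380c2) (nat_lit 0) (p (nat_lit 0x3cc2a) (nat_lit 2) (p (nat_lit 0x101) (nat_lit 0) (p (nat_lit 0xc1) (nat_lit 1) (p (nat_lit 0x81) (nat_lit 1) (p (nat_lit 0x111) (nat_lit 1) (p (nat_lit 0xd1) (nat_lit 1) (p (nat_lit 0x89) (nat_lit 0) (p (nat_lit 0x41) (nat_lit 0) (p (nat_lit 0x10a098b090a9a) (nat_lit 0) (p (nat_lit 0x9890a888a1a) (nat_lit 0) (p (nat_lit 0x109088a08079a) (nat_lit 0) (p (nat_lit 0x8880987871a) (nat_lit 0) (p (nat_lit 0x8000000000800080907088a) (nat_lit 0) (p (nat_lit 0x8000000000800078886860a)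 (nat_lit 0) (p (nat_lit 0x10688060782) (nat_lit 0) (p (nat_lit 0x607858702) (nat_lit 0) (p (nat_lit 0x10587050482) (nat_lit 0) (p (nat_lit 0x506848402) (nat_lit 0) (p (nat_lit 0x16000c) (nat_lit 0) (p (nat_lit 0x50612) (nat_lit 0) (p (nat_lit 0x40592) (nat_lit 0) (p (nat_lit 0x40492) (nat_lit 0) (p (nat_lit 0x30412) (nat_lit 0) (p (nat_lit 0x30212) (nat_lit 0) (p (nat_lit 0x20192) (nat_lit 0) (p (nat_lit 0x20092) (nat_lit 0) (p (nat_lit 0x10012) (nat_lit 0) pn))))))))))))))))))))))))))))) :=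
  Cl.node (nat_lit 0x200014) (nat_lit 2) (by decide +kernel) (ClAll.succ (ClAll.succ ClAll.zero n184) s357)

def n224 : Cl (O (nat_lit 5)) (R (nat_lit 104465))
    (p (nat_lit 0x380c2) (nat_lit 0) (p (nat_lit 0x444aa) (nat_lit 7) (p (nat_lit 0xd1) (nat_lit 1) (p (nat_lit 0x111) (nat_lit 1) (p (nat_lit 0x109) (nat_lit 0) (p (nat_lit 0x101) (nat_lit 0) (p (nat_lit 0x119) (nat_lit 0) (p (nat_lit 0xc9) (nat_lit 0) (p (nat_lit 0x89) (nat_lit 1) (p (nat_lit 0x41) (nat_lit 0) (p (nat_lit 0x10a098b090a9a) (nat_lit 0) (p (nat_lit 0x9890a888a1a) (nat_lit 0) (p (nat_lit 0x109088a08079a) (nat_lit 0) (p (nat_lit 0x8880987871a) (nat_lit 0) (p (nat_lit 0x8000000000800080907088a) (nat_lit 0) (p (nat_lit 0x8000000000800078886860a) (nat_lit 0) (p (nat_lit 0x10688060782) (nat_lit 0) (p (nat_lit 0x607858702) (nat_lit 0) (p (nat_lit 0x10587050482) (nat_lit 0) (p (nat_lit 0x506848402) (nat_lit 0) (p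 (nat_lit 0x16000c) (nat_lit 0) (p (nat_lit 0x50612) (nat_lit 0) (p (nat_lit 0x40592) (nat_lit 0) (p (nat_lit 0x40492) (nat_lit 0) (p (nat_lit 0x30412) (nat_lit 0) (p (nat_lit 0x30212) (nat_lit 0) (p (nat_lit 0x20192) (nat_lit 0) (p (nat_lit 0x20092) (nat_lit 0) (p (nat_lit 0x10012) (nat_lit 0) pn))))))))))))))))))))))))))))) :=
  Cl.node (nat_lit 0xb000c) (nat_lit 2) (by decide +kernel) (ClAll.succ (ClAll.succ ClAll.zero n185) n186)

def n225 : Cl (O (nat_lit 5)) (R (nat_lit 104465))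
    (p (nat_lit 0x380c2) (nat_lit 1) (p (nat_lit 0x444aa) (nat_lit 7) (p (nat_lit 0xd1) (nat_lit 1) (p (nat_lit 0x111) (nat_lit 1) (p (nat_lit 0x109) (nat_lit 0) (p (nat_lit 0x101) (nat_lit 0) (p (nat_lit 0x119) (nat_lit 0) (p (nat_lit 0xc9) (nat_lit 0) (p (nat_lit 0x89) (nat_lit 1) (p (nat_lit 0x41) (nat_lit 0) (p (nat_lit 0x10a098b090a9a) (nat_lit 0) (p (nat_lit 0x9890a888a1a) (nat_lit 0) (p (nat_lit 0x109088a08079a) (nat_lit 0) (p (nat_lit 0x8880987871a) (nat_lit 0) (p (nat_lit 0x8000000000800080907088a) (nat_lit 0) (p (nat_lit 0x8000000000800078886860a) (nat_lit 0) (p (nat_lit 0x10688060782) (nat_lit 0) (p (nat_lit 0x607858702) (nat_lit 0) (p (nat_lit 0x10587050482) (nat_lit 0) (p (nat_lit 0x506848402) (nat_lit 0) (p (nat_lit 0x16000c) (nat_lit 0) (p (nat_lit 0x50612) (nat_lit 0) (p (nat_lit 0x40592) (nat_lit 0) (p (nat_lit 0x40492) (nat_lit 0) (p (nat_lit 0x30412) (nat_lit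 0) (p (nat_lit 0x30212) (nat_lit 0) (p (nat_lit 0x20192) (nat_lit 0) (p (nat_lit 0x20092) (nat_lit 0) (p (nat_lit 0x10012) (nat_lit 0) pn))))))))))))))))))))))))))))) :=
  Cl.node (nat_lit 0xb000c) (nat_lit 2) (by decide +kernel) (ClAll.succ (ClAll.succ ClAll.zero n187) n188)

def n226 : Cl (O (nat_lit 5)) (R (nat_lit 104465))
    (p (nat_lit 0x41) (nat_lit 0) (p (nat_lit 0x200014) (nat_lit 0) (p (nat_lit 0x200004) (nat_lit 0) (p (nat_lit 0xd1) (nat_lit 0) (p (nat_lit 0x109) (nat_lit 1) (p (nat_lit 0x101) (nat_lit 0) (p (nat_lit 0x119) (nat_lit 0) (p (nat_lit 0xc9) (nat_lit 0) (p (nat_lit 0x89) (nat_lit 1) (p (nat_lit 0x41) (nat_lit 0) (p (nat_lit 0x10a098b090a9a) (nat_lit 0) (p (nat_lit 0x9890a888a1a) (nat_lit 0) (p (nat_lit 0x109088a08079a) (nat_lit 0) (p (nat_lit 0x8880987871a) (nat_lit 0) (p (nat_lit 0x8000000000800080907088a) (nat_lit 0) (p (nat_lit 0x8000000000800078886860a)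 (nat_lit 0) (p (nat_lit 0x10688060782) (nat_lit 0) (p (nat_lit 0x607858702) (nat_lit 0) (p (nat_lit 0x10587050482) (nat_lit 0) (p (nat_lit 0x506848402) (nat_lit 0) (p (nat_lit 0x16000c) (nat_lit 0) (p (nat_lit 0x50612) (nat_lit 0) (p (nat_lit 0x40592) (nat_lit 0) (p (nat_lit 0x40492) (nat_lit 0) (p (nat_lit 0x30412) (nat_lit 0) (p (nat_lit 0x30212) (nat_lit 0) (p (nat_lit 0x20192) (nat_lit 0) (p (nat_lit 0x20092) (nat_lit 0) (p (nat_lit 0x10012) (nat_lit 0) pn))))))))))))))))))))))))))))) :=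
  Cl.node (nat_lit 0x44c2a) (nat_lit 12) (by decide +kernel) (ClAll.succ (ClAll.succ (ClAll.succ (ClAll.succ (ClAll.succ (ClAll.succ (ClAll.succ (ClAll.succ (ClAll.succ (ClAll.succ (ClAll.succ (ClAll.succ ClAll.zero n189) n190) s416) s417) s418) s419) s420) s421) s422) s423) s424) s425)

def n227 : Cl (O (nat_lit 5)) (R (nat_lit 104465))
    (p (nat_lit 0xb000c) (nat_lit 0) (p (nat_lit 0x380c2) (nat_lit 0) (p (nat_lit 0x444aa) (nat_lit 7) (p (nat_lit 0xd1) (nat_lit 1) (p (nat_lit 0x109) (nat_lit 1) (p (nat_lit 0x101) (nat_lit 0) (p (nat_lit 0x119) (nat_lit 0) (p (nat_lit 0xc9) (nat_lit 0) (p (nat_lit 0x89) (nat_lit 1) (p (nat_lit 0x41) (nat_lit 0) (p (nat_lit 0x10a098b090a9a) (nat_lit 0) (p (nat_lit 0x9890a888a1a) (nat_lit 0) (p (nat_lit 0x109088a08079a) (nat_lit 0) (p (nat_lit 0x8880987871a) (nat_lit 0) (p (nat_lit 0x8000000000800080907088a) (nat_lit 0) (p (nat_lit 0x8000000000800078886860a)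 (nat_lit 0) (p (nat_lit 0x10688060782) (nat_lit 0) (p (nat_lit 0x607858702) (nat_lit 0) (p (nat_lit 0x10587050482) (nat_lit 0) (p (nat_lit 0x506848402) (nat_lit 0) (p (nat_lit 0x16000c) (nat_lit 0) (p (nat_lit 0x50612) (nat_lit 0) (p (nat_lit 0x40592) (nat_lit 0) (p (nat_lit 0x40492) (nat_lit 0) (p (nat_lit 0x30412) (nat_lit 0) (p (nat_lit 0x30212) (nat_lit 0) (p (nat_lit 0x20192) (nat_lit 0) (p (nat_lit 0x20092) (nat_lit 0) (p (nat_lit 0x10012) (nat_lit 0) pn))))))))))))))))))))))))))))) :=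
  Cl.node (nat_lit 0x200004) (nat_lit 2) (by decide +kernel) (ClAll.succ (ClAll.succ ClAll.zero n191) s441)

def n228 : Cl (O (nat_lit 5)) (R (nat_lit 104465))
    (p (nat_lit 0xb000c) (nat_lit 0) (p (nat_lit 0x380c2) (nat_lit 1) (p (nat_lit 0x444aa) (nat_lit 7) (p (nat_lit 0xd1) (nat_lit 1) (p (nat_lit 0x109) (nat_lit 1) (p (nat_lit 0x101) (nat_lit 0) (p (nat_lit 0x119) (nat_lit 0) (p (nat_lit 0xc9) (nat_lit 0) (p (nat_lit 0x89) (nat_lit 1) (p (nat_lit 0x41) (nat_lit 0) (p (nat_lit 0x10a098b090a9a) (nat_lit 0) (p (nat_lit 0x9890a888a1a) (nat_lit 0) (p (nat_lit 0x109088a08079a) (nat_lit 0) (p (nat_lit 0x8880987871a) (nat_lit 0) (p (nat_lit 0x8000000000800080907088a) (nat_lit 0) (p (nat_lit 0x8000000000800078886860a) (nat_lit 0) (p (nat_lit 0x10688060782) (nat_lit 0) (p (nat_lit 0x607858702) (nat_lit 0) (p (nat_lit 0x10587050482) (nat_lit 0) (p (nat_lit 0x506848402) (nat_lit 0)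 (p (nat_lit 0x16000c) (nat_lit 0) (p (nat_lit 0x50612) (nat_lit 0) (p (nat_lit 0x40592) (nat_lit 0) (p (nat_lit 0x40492) (nat_lit 0) (p (nat_lit 0x30412) (nat_lit 0) (p (nat_lit 0x30212) (nat_lit 0) (p (nat_lit 0x20192) (nat_lit 0) (p (nat_lit 0x20092) (nat_lit 0) (p (nat_lit 0x10012) (nat_lit 0) pn))))))))))))))))))))))))))))) :=
  Cl.node (nat_lit 0x200004) (nat_lit 2) (by decide +kernel) (ClAll.succ (ClAll.succ ClAll.zero n192) s458)

def n229 : Cl (O (nat_lit 5)) (R (nat_lit 104465))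
    (p (nat_lit 0x109) (nat_lit 1) (p (nat_lit 0x200014) (nat_lit 0) (p (nat_lit 0x200004) (nat_lit 0) (p (nat_lit 0xd1) (nat_lit 0) (p (nat_lit 0xc1) (nat_lit 0) (p (nat_lit 0x101) (nat_lit 1) (p (nat_lit 0x119) (nat_lit 0) (p (nat_lit 0xc9) (nat_lit 0) (p (nat_lit 0x89) (nat_lit 1) (p (nat_lit 0x41) (nat_lit 0) (p (nat_lit 0x10a098b090a9a) (nat_lit 0) (p (nat_lit 0x9890a888a1a) (nat_lit 0) (p (nat_lit 0x109088a08079a) (nat_lit 0) (p (nat_lit 0x8880987871a) (nat_lit 0) (p (nat_lit 0x8000000000800080907088a) (nat_lit 0) (p (nat_lit 0x8000000000800078886860a) (nat_lit 0) (p (nat_lit 0x10688060782) (nat_lit 0) (p (nat_lit 0x607858702) (nat_lit 0) (p (nat_lit 0x10587050482) (nat_lit 0) (p (nat_lit 0x506848402) (nat_lit 0) (p (nat_lit 0x16000c) (nat_lit 0) (p (nat_lit 0x50612) (nat_lit 0) (p (nat_lit 0x40592) (nat_lit 0) (p (nat_lit 0x40492) (nat_lit 0) (p (nat_lit 0x30412) (nat_lit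 0) (p (nat_lit 0x30212) (nat_lit 0) (p (nat_lit 0x20192) (nat_lit 0) (p (nat_lit 0x20092) (nat_lit 0) (p (nat_lit 0x10012) (nat_lit 0) pn))))))))))))))))))))))))))))) :=
  Cl.node (nat_lit 0x44c2a) (nat_lit 12) (by decide +kernel) (ClAll.succ (ClAll.succ (ClAll.succ (ClAll.succ (ClAll.succ (ClAll.succ (ClAll.succ (ClAll.succ (ClAll.succ (ClAll.succ (ClAll.succ (ClAll.succ ClAll.zero n193) n194) s471) s472) s473) s474) s475) s476) s477) s478) s479) s480)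

def n230 : Cl (O (nat_lit 5)) (R (nat_lit 104465))
    (p (nat_lit 0x200004) (nat_lit 0) (p (nat_lit 0x380c2) (nat_lit 1) (p (nat_lit 0x444aa) (nat_lit 7) (p (nat_lit 0xd1) (nat_lit 1) (p (nat_lit 0xc1) (nat_lit 0) (p (nat_lit 0x101) (nat_lit 1) (p (nat_lit 0x119) (nat_lit 0) (p (nat_lit 0xc9) (nat_lit 0) (p (nat_lit 0x89) (nat_lit 1) (p (nat_lit 0x41) (nat_lit 0) (p (nat_lit 0x10a098b090a9a) (nat_lit 0) (p (nat_lit 0x9890a888a1a) (nat_lit 0) (p (nat_lit 0x109088a08079a) (nat_lit 0) (p (nat_lit 0x8880987871a) (nat_lit 0) (p (nat_lit 0x8000000000800080907088a) (nat_lit 0) (p (nat_lit 0x8000000000800078886860a) (nat_lit 0) (p (nat_lit 0x10688060782) (nat_lit 0) (p (nat_lit 0x607858702) (nat_lit 0) (p (nat_lit 0x10587050482) (nat_lit 0) (p (nat_lit 0x506848402) (nat_lit 0) (p (nat_lit 0x16000c) (nat_lit 0) (p (nat_lit 0x50612) (nat_lit 0) (p (nat_lit 0x40592) (nat_lit 0) (p (nat_lit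 0x40492) (nat_lit 0) (p (nat_lit 0x30412) (nat_lit 0) (p (nat_lit 0x30212) (nat_lit 0) (p (nat_lit 0x20192) (nat_lit 0) (p (nat_lit 0x20092) (nat_lit 0) (p (nat_lit 0x10012) (nat_lit 0) pn))))))))))))))))))))))))))))) :=
  Cl.node (nat_lit 0xb000c) (nat_lit 2) (by decide +kernel) (ClAll.succ (ClAll.succ ClAll.zero s492) s493)

def n231 : Cl (O (nat_lit 5)) (R (nat_lit 104465))
    (p (nat_lit 0xb000c) (nat_lit 0) (p (nat_lit 0x380c2) (nat_lit 1) (p (nat_lit 0x444aa) (nat_lit 7) (p (nat_lit 0x111) (nat_lit 1) (p (nat_lit 0xd1) (nat_lit 1) (p (nat_lit 0xc1) (nat_lit 0) (p (nat_lit 0x119) (nat_lit 1) (p (nat_lit 0xc9) (nat_lit 0) (p (nat_lit 0x89) (nat_lit 1) (p (nat_lit 0x41) (nat_lit 0) (p (nat_lit 0x10a098b090a9a) (nat_lit 0) (p (nat_lit 0x9890a888a1a) (nat_lit 0) (p (nat_lit 0x109088a08079a) (nat_lit 0) (p (nat_lit 0x8880987871a) (nat_lit 0) (p (nat_lit 0x8000000000800080907088a)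 (nat_lit 0) (p (nat_lit 0x8000000000800078886860a) (nat_lit 0) (p (nat_lit 0x10688060782) (nat_lit 0) (p (nat_lit 0x607858702) (nat_lit 0) (p (nat_lit 0x10587050482) (nat_lit 0) (p (nat_lit 0x506848402) (nat_lit 0) (p (nat_lit 0x16000c) (nat_lit 0) (p (nat_lit 0x50612) (nat_lit 0) (p (nat_lit 0x40592) (nat_lit 0) (p (nat_lit 0x40492) (nat_lit 0) (p (nat_lit 0x30412) (nat_lit 0) (p (nat_lit 0x30212) (nat_lit 0) (p (nat_lit 0x20192) (nat_lit 0) (p (nat_lit 0x20092) (nat_lit 0) (p (nat_lit 0x10012) (nat_lit 0) pn))))))))))))))))))))))))))))) :=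
  Cl.node (nat_lit 0x109) (nat_lit 2) (by decide +kernel) (ClAll.succ (ClAll.succ ClAll.zero n195) s513)

def n232 : Cl (O (nat_lit 5)) (R (nat_lit 104465))
    (p (nat_lit 0x200004) (nat_lit 0) (p (nat_lit 0x380c2) (nat_lit 0) (p (nat_lit 0x44c2a) (nat_lit 0) (p (nat_lit 0x111) (nat_lit 0) (p (nat_lit 0x101) (nat_lit 0) (p (nat_lit 0xc1) (nat_lit 1) (p (nat_lit 0x119) (nat_lit 1) (p (nat_lit 0xc9) (nat_lit 0) (p (nat_lit 0x89) (nat_lit 1) (p (nat_lit 0x41) (nat_lit 0) (p (nat_lit 0x10a098b090a9a) (nat_lit 0) (p (nat_lit 0x9890a888a1a) (nat_lit 0) (p (nat_lit 0x109088a08079a) (nat_lit 0) (p (nat_lit 0x8880987871a) (nat_lit 0) (p (nat_lit 0x8000000000800080907088a) (nat_lit 0) (p (nat_lit 0x8000000000800078886860a) (nat_lit 0) (p (nat_lit 0x10688060782) (nat_lit 0) (p (nat_lit 0x607858702) (nat_lit 0) (p (nat_lit 0x10587050482) (nat_lit 0) (p (nat_lit 0x506848402) (nat_lit 0) (p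 (nat_lit 0x16000c) (nat_lit 0) (p (nat_lit 0x50612) (nat_lit 0) (p (nat_lit 0x40592) (nat_lit 0) (p (nat_lit 0x40492) (nat_lit 0) (p (nat_lit 0x30412) (nat_lit 0) (p (nat_lit 0x30212) (nat_lit 0) (p (nat_lit 0x20192) (nat_lit 0) (p (nat_lit 0x20092) (nat_lit 0) (p (nat_lit 0x10012) (nat_lit 0) pn))))))))))))))))))))))))))))) :=
  Cl.node (nat_lit 0x101) (nat_lit 2) (by decide +kernel) (ClAll.succ (ClAll.succ ClAll.zero s519) n196)

def n233 : Cl (O (nat_lit 5)) (R (nat_lit 104465))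
    (p (nat_lit 0xb000c) (nat_lit 0) (p (nat_lit 0x380c2) (nat_lit 1) (p (nat_lit 0x444aa) (nat_lit 7) (p (nat_lit 0x111) (nat_lit 1) (p (nat_lit 0x101) (nat_lit 0) (p (nat_lit 0xc1) (nat_lit 1) (p (nat_lit 0x119) (nat_lit 1) (p (nat_lit 0xc9) (nat_lit 0) (p (nat_lit 0x89) (nat_lit 1) (p (nat_lit 0x41) (nat_lit 0) (p (nat_lit 0x10a098b090a9a) (nat_lit 0) (p (nat_lit 0x9890a888a1a) (nat_lit 0) (p (nat_lit 0x109088a08079a) (nat_lit 0) (p (nat_lit 0x8880987871a) (nat_lit 0) (p (nat_lit 0x8000000000800080907088a) (nat_lit 0) (p (nat_lit 0x8000000000800078886860a) (nat_lit 0) (p (nat_lit 0x10688060782) (nat_lit 0) (p (nat_lit 0x607858702) (nat_lit 0) (p (nat_lit 0x10587050482) (nat_lit 0) (p (nat_lit 0x506848402) (nat_lit 0) (p (nat_lit 0x16000c) (nat_lit 0) (p (nat_lit 0x50612) (nat_lit 0) (p (nat_lit 0x40592) (nat_lit 0) (p (nat_lit 0x40492) (nat_lit 0) (p (nat_lit 0x30412) (nat_lit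 0) (p (nat_lit 0x30212) (nat_lit 0) (p (nat_lit 0x20192) (nat_lit 0) (p (nat_lit 0x20092) (nat_lit 0) (p (nat_lit 0x10012) (nat_lit 0) pn))))))))))))))))))))))))))))) :=
  Cl.node (nat_lit 0x109) (nat_lit 2) (by decide +kernel) (ClAll.succ (ClAll.succ ClAll.zero n197) s548)

def n234 : Cl (O (nat_lit 5)) (R (nat_lit 104465))
    (p (nat_lit 0x380c2) (nat_lit 1) (p (nat_lit 0x4c42a) (nat_lit 10) (p (nat_lit 0x111) (nat_lit 0) (p (nat_lit 0x89) (nat_lit 0) (p (nat_lit 0x109) (nat_lit 1) (p (nat_lit 0x101) (nat_lit 0) (p (nat_lit 0x119) (nat_lit 0) (p (nat_lit 0xd1) (nat_lit 0) (p (nat_lit 0x81) (nat_lit 0) (p (nat_lit 0x41) (nat_lit 1) (p (nat_lit 0x10a098b090a9a) (nat_lit 0) (p (nat_lit 0x9890a888a1a) (nat_lit 0) (p (nat_lit 0x109088a08079a) (nat_lit 0) (p (nat_lit 0x8880987871a) (nat_lit 0) (p (nat_lit 0x8000000000800080907088a) (nat_lit 0) (p (nat_lit 0x8000000000800078886860a)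 (nat_lit 0) (p (nat_lit 0x10688060782) (nat_lit 0) (p (nat_lit 0x607858702) (nat_lit 0) (p (nat_lit 0x10587050482) (nat_lit 0) (p (nat_lit 0x506848402) (nat_lit 0) (p (nat_lit 0x16000c) (nat_lit 0) (p (nat_lit 0x50612) (nat_lit 0) (p (nat_lit 0x40592) (nat_lit 0) (p (nat_lit 0x40492) (nat_lit 0) (p (nat_lit 0x30412) (nat_lit 0) (p (nat_lit 0x30212) (nat_lit 0) (p (nat_lit 0x20192) (nat_lit 0) (p (nat_lit 0x20092) (nat_lit 0) (p (nat_lit 0x10012) (nat_lit 0) pn))))))))))))))))))))))))))))) :=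
  Cl.node (nat_lit 0xb000c) (nat_lit 2) (by decide +kernel) (ClAll.succ (ClAll.succ ClAll.zero s585) s586)

def n235 : Cl (O (nat_lit 5)) (R (nat_lit 104465))
    (p (nat_lit 0x380c2) (nat_lit 0) (p (nat_lit 0x3cc2a) (nat_lit 2) (p (nat_lit 0x111) (nat_lit 1) (p (nat_lit 0x89) (nat_lit 0) (p (nat_lit 0x109) (nat_lit 1) (p (nat_lit 0x101) (nat_lit 0) (p (nat_lit 0x119) (nat_lit 0) (p (nat_lit 0xd1) (nat_lit 0) (p (nat_lit 0x81) (nat_lit 0) (p (nat_lit 0x41) (nat_lit 1) (p (nat_lit 0x10a098b090a9a) (nat_lit 0) (p (nat_lit 0x9890a888a1a) (nat_lit 0) (p (nat_lit 0x109088a08079a) (nat_lit 0) (p (nat_lit 0x8880987871a) (nat_lit 0) (p (nat_lit 0x8000000000800080907088a) (nat_lit 0) (p (nat_lit 0x8000000000800078886860a) (nat_lit 0) (p (nat_lit 0x10688060782) (nat_lit 0) (p (nat_lit 0x607858702) (nat_lit 0) (p (nat_lit 0x10587050482) (nat_lit 0) (p (nat_lit 0x506848402) (nat_lit 0) (p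 (nat_lit 0x16000c) (nat_lit 0) (p (nat_lit 0x50612) (nat_lit 0) (p (nat_lit 0x40592) (nat_lit 0) (p (nat_lit 0x40492) (nat_lit 0) (p (nat_lit 0x30412) (nat_lit 0) (p (nat_lit 0x30212) (nat_lit 0) (p (nat_lit 0x20192) (nat_lit 0) (p (nat_lit 0x20092) (nat_lit 0) (p (nat_lit 0x10012) (nat_lit 0) pn))))))))))))))))))))))))))))) :=
  Cl.node (nat_lit 0x200004) (nat_lit 2) (by decide +kernel) (ClAll.succ (ClAll.succ ClAll.zero n198) s595)

def n236 : Cl (O (nat_lit 5)) (R (nat_lit 104465))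
    (p (nat_lit 0x380c2) (nat_lit 1) (p (nat_lit 0x4c42a) (nat_lit 10) (p (nat_lit 0xc9) (nat_lit 0) (p (nat_lit 0x89) (nat_lit 1) (p (nat_lit 0x109) (nat_lit 1) (p (nat_lit 0x101) (nat_lit 0) (p (nat_lit 0x119) (nat_lit 0) (p (nat_lit 0xd1) (nat_lit 0) (p (nat_lit 0x81) (nat_lit 0) (p (nat_lit 0x41) (nat_lit 1) (p (nat_lit 0x10a098b090a9a) (nat_lit 0) (p (nat_lit 0x9890a888a1a) (nat_lit 0) (p (nat_lit 0x109088a08079a) (nat_lit 0) (p (nat_lit 0x8880987871a) (nat_lit 0) (p (nat_lit 0x8000000000800080907088a) (nat_lit 0) (p (nat_lit 0x8000000000800078886860a) (nat_lit 0) (p (nat_lit 0x10688060782) (nat_lit 0) (p (nat_lit 0x607858702) (nat_lit 0) (p (nat_lit 0x10587050482) (nat_lit 0) (p (nat_lit 0x506848402) (nat_lit 0) (p (nat_lit 0x16000c) (nat_lit 0) (p (nat_lit 0x50612) (nat_lit 0) (p (nat_lit 0x40592) (nat_lit 0) (p (nat_lit 0x40492) (nat_lit 0) (p (nat_lit 0x30412) (nat_lit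 0) (p (nat_lit 0x30212) (nat_lit 0) (p (nat_lit 0x20192) (nat_lit 0) (p (nat_lit 0x20092) (nat_lit 0) (p (nat_lit 0x10012) (nat_lit 0) pn))))))))))))))))))))))))))))) :=
  Cl.node (nat_lit 0xb000c) (nat_lit 2) (by decide +kernel) (ClAll.succ (ClAll.succ ClAll.zero s616) n199)

def n237 : Cl (O (nat_lit 5)) (R (nat_lit 104465))
    (p (nat_lit 0x200004) (nat_lit 0) (p (nat_lit 0x380c2) (nat_lit 0) (p (nat_lit 0x3cc2a) (nat_lit 2) (p (nat_lit 0x89) (nat_lit 0) (p (nat_lit 0xc1) (nat_lit 0) (p (nat_lit 0x101) (nat_lit 1) (p (nat_lit 0x119) (nat_lit 0) (p (nat_lit 0xd1) (nat_lit 0) (p (nat_lit 0x81) (nat_lit 0) (p (nat_lit 0x41) (nat_lit 1) (p (nat_lit 0x10a098b090a9a) (nat_lit 0) (p (nat_lit 0x9890a888a1a) (nat_lit 0) (p (nat_lit 0x109088a08079a) (nat_lit 0) (p (nat_lit 0x8880987871a) (nat_lit 0) (p (nat_lit 0x8000000000800080907088a) (nat_lit 0) (p (nat_lit 0x8000000000800078886860a)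 (nat_lit 0) (p (nat_lit 0x10688060782) (nat_lit 0) (p (nat_lit 0x607858702) (nat_lit 0) (p (nat_lit 0x10587050482) (nat_lit 0) (p (nat_lit 0x506848402) (nat_lit 0) (p (nat_lit 0x16000c) (nat_lit 0) (p (nat_lit 0x50612) (nat_lit 0) (p (nat_lit 0x40592) (nat_lit 0) (p (nat_lit 0x40492) (nat_lit 0) (p (nat_lit 0x30412) (nat_lit 0) (p (nat_lit 0x30212) (nat_lit 0) (p (nat_lit 0x20192) (nat_lit 0) (p (nat_lit 0x20092) (nat_lit 0) (p (nat_lit 0x10012) (nat_lit 0) pn))))))))))))))))))))))))))))) :=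
  Cl.node (nat_lit 0x200014) (nat_lit 2) (by decide +kernel) (ClAll.succ (ClAll.succ ClAll.zero n200) s634)

def n238 : Cl (O (nat_lit 5)) (R (nat_lit 104465))
    (p (nat_lit 0x380c2) (nat_lit 1) (p (nat_lit 0x4c42a) (nat_lit 10) (p (nat_lit 0xc9) (nat_lit 0) (p (nat_lit 0x89) (nat_lit 1) (p (nat_lit 0xc1) (nat_lit 0) (p (nat_lit 0x101) (nat_lit 1) (p (nat_lit 0x119) (nat_lit 0) (p (nat_lit 0xd1) (nat_lit 0) (p (nat_lit 0x81) (nat_lit 0) (p (nat_lit 0x41) (nat_lit 1) (p (nat_lit 0x10a098b090a9a) (nat_lit 0) (p (nat_lit 0x9890a888a1a) (nat_lit 0) (p (nat_lit 0x109088a08079a) (nat_lit 0) (p (nat_lit 0x8880987871a) (nat_lit 0) (p (nat_lit 0x8000000000800080907088a) (nat_lit 0) (p (nat_lit 0x8000000000800078886860a) (nat_lit 0) (p (nat_lit 0x10688060782) (nat_lit 0) (p (nat_lit 0x607858702) (nat_lit 0) (p (nat_lit 0x10587050482) (nat_lit 0) (p (nat_lit 0x506848402) (nat_lit 0) (p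 (nat_lit 0x16000c) (nat_lit 0) (p (nat_lit 0x50612) (nat_lit 0) (p (nat_lit 0x40592) (nat_lit 0) (p (nat_lit 0x40492) (nat_lit 0) (p (nat_lit 0x30412) (nat_lit 0) (p (nat_lit 0x30212) (nat_lit 0) (p (nat_lit 0x20192) (nat_lit 0) (p (nat_lit 0x20092) (nat_lit 0) (p (nat_lit 0x10012) (nat_lit 0) pn))))))))))))))))))))))))))))) :=
  Cl.node (nat_lit 0xb000c) (nat_lit 2) (by decide +kernel) (ClAll.succ (ClAll.succ ClAll.zero s656) s657)

def n239 : Cl (O (nat_lit 5)) (R (nat_lit 104465))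
    (p (nat_lit 0xb000c) (nat_lit 1) (p (nat_lit 0x380c2) (nat_lit 0) (p (nat_lit 0x3cc2a) (nat_lit 2) (p (nat_lit 0x89) (nat_lit 0) (p (nat_lit 0xc1) (nat_lit 1) (p (nat_lit 0x101) (nat_lit 1) (p (nat_lit 0x119) (nat_lit 0) (p (nat_lit 0xd1) (nat_lit 0) (p (nat_lit 0x81) (nat_lit 0) (p (nat_lit 0x41) (nat_lit 1) (p (nat_lit 0x10a098b090a9a) (nat_lit 0) (p (nat_lit 0x9890a888a1a) (nat_lit 0) (p (nat_lit 0x109088a08079a) (nat_lit 0) (p (nat_lit 0x8880987871a) (nat_lit 0) (p (nat_lit 0x8000000000800080907088a) (nat_lit 0) (p (nat_lit 0x8000000000800078886860a) (nat_lit 0) (p (nat_lit 0x10688060782) (nat_lit 0) (p (nat_lit 0x607858702) (nat_lit 0) (p (nat_lit 0x10587050482) (nat_lit 0) (p (nat_lit 0x506848402) (nat_lit 0) (p (nat_lit 0x16000c) (nat_lit 0) (p (nat_lit 0x50612) (nat_lit 0) (p (nat_lit 0x40592) (nat_lit 0) (p (nat_lit 0x40492) (nat_lit 0) (p (nat_lit 0x30412) (nat_lit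 0) (p (nat_lit 0x30212) (nat_lit 0) (p (nat_lit 0x20192) (nat_lit 0) (p (nat_lit 0x20092) (nat_lit 0) (p (nat_lit 0x10012) (nat_lit 0) pn))))))))))))))))))))))))))))) :=
  Cl.node (nat_lit 0x1fc004) (nat_lit 2) (by decide +kernel) (ClAll.succ (ClAll.succ ClAll.zero n201) s678)

def n240 : Cl (O (nat_lit 5)) (R (nat_lit 104465))
    (p (nat_lit 0x380c2) (nat_lit 0) (p (nat_lit 0x44c2a) (nat_lit 0) (p (nat_lit 0x109) (nat_lit 0) (p (nat_lit 0x89) (nat_lit 1) (p (nat_lit 0xc9) (nat_lit 1) (p (nat_lit 0xc1) (nat_lit 0) (p (nat_lit 0x119) (nat_lit 1) (p (nat_lit 0xd1) (nat_lit 0) (p (nat_lit 0x81) (nat_lit 0) (p (nat_lit 0x41) (nat_lit 1) (p (nat_lit 0x10a098b090a9a) (nat_lit 0) (p (nat_lit 0x9890a888a1a) (nat_lit 0) (p (nat_lit 0x109088a08079a) (nat_lit 0) (p (nat_lit 0x8880987871a) (nat_lit 0) (p (nat_lit 0x8000000000800080907088a) (nat_lit 0) (p (nat_lit 0x8000000000800078886860a)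 (nat_lit 0) (p (nat_lit 0x10688060782) (nat_lit 0) (p (nat_lit 0x607858702) (nat_lit 0) (p (nat_lit 0x10587050482) (nat_lit 0) (p (nat_lit 0x506848402) (nat_lit 0) (p (nat_lit 0x16000c) (nat_lit 0) (p (nat_lit 0x50612) (nat_lit 0) (p (nat_lit 0x40592) (nat_lit 0) (p (nat_lit 0x40492) (nat_lit 0) (p (nat_lit 0x30412) (nat_lit 0) (p (nat_lit 0x30212) (nat_lit 0) (p (nat_lit 0x20192) (nat_lit 0) (p (nat_lit 0x20092) (nat_lit 0) (p (nat_lit 0x10012) (nat_lit 0) pn))))))))))))))))))))))))))))) :=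
  Cl.node (nat_lit 0x109) (nat_lit 2) (by decide +kernel) (ClAll.succ (ClAll.succ ClAll.zero s702) s703)

def n241 : Cl (O (nat_lit 5)) (R (nat_lit 104465))
    (p (nat_lit 0x4c42a) (nat_lit 10) (p (nat_lit 0x119) (nat_lit 0) (p (nat_lit 0xc9) (nat_lit 0) (p (nat_lit 0x89) (nat_lit 1) (p (nat_lit 0x109) (nat_lit 1) (p (nat_lit 0x101) (nat_lit 0) (p (nat_lit 0x111) (nat_lit 0) (p (nat_lit 0xd1) (nat_lit 1) (p (nat_lit 0x81) (nat_lit 0) (p (nat_lit 0x41) (nat_lit 1) (p (nat_lit 0x10a098b090a9a) (nat_lit 0) (p (nat_lit 0x9890a888a1a) (nat_lit 0) (p (nat_lit 0x109088a08079a) (nat_lit 0) (p (nat_lit 0x8880987871a) (nat_lit 0) (p (nat_lit 0x8000000000800080907088a) (nat_lit 0) (p (nat_lit 0x8000000000800078886860a) (nat_lit 0) (p (nat_lit 0x10688060782) (nat_lit 0) (p (nat_lit 0x607858702) (nat_lit 0) (p (nat_lit 0x10587050482) (nat_lit 0) (p (nat_lit 0x506848402) (nat_lit 0) (p (nat_lit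 0x16000c) (nat_lit 0) (p (nat_lit 0x50612) (nat_lit 0) (p (nat_lit 0x40592) (nat_lit 0) (p (nat_lit 0x40492) (nat_lit 0) (p (nat_lit 0x30412) (nat_lit 0) (p (nat_lit 0x30212) (nat_lit 0) (p (nat_lit 0x20192) (nat_lit 0) (p (nat_lit 0x20092) (nat_lit 0) (p (nat_lit 0x10012) (nat_lit 0) pn))))))))))))))))))))))))))))) :=
  Cl.node (nat_lit 0x380c2) (nat_lit 2) (by decide +kernel) (ClAll.succ (ClAll.succ ClAll.zero s789) n202)

def n242 : Cl (O (nat_lit 5)) (R (nat_lit 104465))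
    (p (nat_lit 0x4c42a) (nat_lit 10) (p (nat_lit 0x119) (nat_lit 1) (p (nat_lit 0xc9) (nat_lit 0) (p (nat_lit 0x89) (nat_lit 1) (p (nat_lit 0x109) (nat_lit 1) (p (nat_lit 0x101) (nat_lit 0) (p (nat_lit 0x111) (nat_lit 0) (p (nat_lit 0xd1) (nat_lit 1) (p (nat_lit 0x81) (nat_lit 0) (p (nat_lit 0x41) (nat_lit 1) (p (nat_lit 0x10a098b090a9a) (nat_lit 0) (p (nat_lit 0x9890a888a1a) (nat_lit 0) (p (nat_lit 0x109088a08079a) (nat_lit 0) (p (nat_lit 0x8880987871a) (nat_lit 0) (p (nat_lit 0x8000000000800080907088a) (nat_lit 0) (p (nat_lit 0x8000000000800078886860a) (nat_lit 0) (p (nat_lit 0x10688060782) (nat_lit 0) (p (nat_lit 0x607858702) (nat_lit 0) (p (nat_lit 0x10587050482) (nat_lit 0) (p (nat_lit 0x506848402) (nat_lit 0) (p (nat_lit 0x16000c) (nat_lit 0) (p (nat_lit 0x50612) (nat_lit 0) (p (nat_lit 0x40592) (nat_lit 0) (p (nat_lit 0x40492) (nat_lit 0) (p (nat_lit 0x30412) (nat_lit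 0) (p (nat_lit 0x30212) (nat_lit 0) (p (nat_lit 0x20192) (nat_lit 0) (p (nat_lit 0x20092) (nat_lit 0) (p (nat_lit 0x10012) (nat_lit 0) pn))))))))))))))))))))))))))))) :=
  Cl.node (nat_lit 0x380c2) (nat_lit 2) (by decide +kernel) (ClAll.succ (ClAll.succ ClAll.zero n203) n204)

def n243 : Cl (O (nat_lit 5)) (R (nat_lit 104465))
    (p (nat_lit 0xb000c) (nat_lit 0) (p (nat_lit 0x380c2) (nat_lit 0) (p (nat_lit 0x3cc2a) (nat_lit 2) (p (nat_lit 0xc9) (nat_lit 0) (p (nat_lit 0x89) (nat_lit 1) (p (nat_lit 0x101) (nat_lit 1) (p (nat_lit 0x111) (nat_lit 0) (p (nat_lit 0xd1) (nat_lit 1) (p (nat_lit 0x81) (nat_lit 0) (p (nat_lit 0x41) (nat_lit 1) (p (nat_lit 0x10a098b090a9a) (nat_lit 0) (p (nat_lit 0x9890a888a1a) (nat_lit 0) (p (nat_lit 0x109088a08079a) (nat_lit 0) (p (nat_lit 0x8880987871a) (nat_lit 0) (p (nat_lit 0x8000000000800080907088a) (nat_lit 0) (p (nat_lit 0x8000000000800078886860a)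 (nat_lit 0) (p (nat_lit 0x10688060782) (nat_lit 0) (p (nat_lit 0x607858702) (nat_lit 0) (p (nat_lit 0x10587050482) (nat_lit 0) (p (nat_lit 0x506848402) (nat_lit 0) (p (nat_lit 0x16000c) (nat_lit 0) (p (nat_lit 0x50612) (nat_lit 0) (p (nat_lit 0x40592) (nat_lit 0) (p (nat_lit 0x40492) (nat_lit 0) (p (nat_lit 0x30412) (nat_lit 0) (p (nat_lit 0x30212) (nat_lit 0) (p (nat_lit 0x20192) (nat_lit 0) (p (nat_lit 0x20092) (nat_lit 0) (p (nat_lit 0x10012) (nat_lit 0) pn))))))))))))))))))))))))))))) :=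
  Cl.node (nat_lit 0xd1) (nat_lit 2) (by decide +kernel) (ClAll.succ (ClAll.succ ClAll.zero s855) s856)

def n244 : Cl (O (nat_lit 5)) (R (nat_lit 104465))
    (p (nat_lit 0xb000c) (nat_lit 1) (p (nat_lit 0x380c2) (nat_lit 0) (p (nat_lit 0x3cc2a) (nat_lit 2) (p (nat_lit 0xc9) (nat_lit 0) (p (nat_lit 0x89) (nat_lit 1) (p (nat_lit 0x101) (nat_lit 1) (p (nat_lit 0x111) (nat_lit 0) (p (nat_lit 0xd1) (nat_lit 1) (p (nat_lit 0x81) (nat_lit 0) (p (nat_lit 0x41) (nat_lit 1) (p (nat_lit 0x10a098b090a9a) (nat_lit 0) (p (nat_lit 0x9890a888a1a) (nat_lit 0) (p (nat_lit 0x109088a08079a) (nat_lit 0) (p (nat_lit 0x8880987871a) (nat_lit 0) (p (nat_lit 0x8000000000800080907088a) (nat_lit 0) (p (nat_lit 0x8000000000800078886860a) (nat_lit 0) (p (nat_lit 0x10688060782) (nat_lit 0) (p (nat_lit 0x607858702) (nat_lit 0) (p (nat_lit 0x10587050482) (nat_lit 0) (p (nat_lit 0x506848402) (nat_lit 0) (p (nat_lit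 0x16000c) (nat_lit 0) (p (nat_lit 0x50612) (nat_lit 0) (p (nat_lit 0x40592) (nat_lit 0) (p (nat_lit 0x40492) (nat_lit 0) (p (nat_lit 0x30412) (nat_lit 0) (p (nat_lit 0x30212) (nat_lit 0) (p (nat_lit 0x20192) (nat_lit 0) (p (nat_lit 0x20092) (nat_lit 0) (p (nat_lit 0x10012) (nat_lit 0) pn))))))))))))))))))))))))))))) :=
  Cl.node (nat_lit 0x1fc004) (nat_lit 2) (by decide +kernel) (ClAll.succ (ClAll.succ ClAll.zero n205) s860)

def n245 : Cl (O (nat_lit 5)) (R (nat_lit 104465))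
    (p (nat_lit 0x41) (nat_lit 0) (p (nat_lit 0x380c2) (nat_lit 0) (p (nat_lit 0x44c2a) (nat_lit 0) (p (nat_lit 0x111) (nat_lit 0) (p (nat_lit 0x109) (nat_lit 0) (p (nat_lit 0xc9) (nat_lit 1) (p (nat_lit 0x119) (nat_lit 1) (p (nat_lit 0xc1) (nat_lit 0) (p (nat_lit 0x81) (nat_lit 1) (p (nat_lit 0x41) (nat_lit 1) (p (nat_lit 0x10a098b090a9a) (nat_lit 0) (p (nat_lit 0x9890a888a1a) (nat_lit 0) (p (nat_lit 0x109088a08079a) (nat_lit 0) (p (nat_lit 0x8880987871a) (nat_lit 0) (p (nat_lit 0x8000000000800080907088a) (nat_lit 0) (p (nat_lit 0x8000000000800078886860a) (nat_lit 0) (p (nat_lit 0x10688060782) (nat_lit 0) (p (nat_lit 0x607858702) (nat_lit 0) (p (nat_lit 0x10587050482) (nat_lit 0) (p (nat_lit 0x506848402) (nat_lit 0) (p (nat_lit 0x16000c) (nat_lit 0) (p (nat_lit 0x50612) (nat_lit 0) (p (nat_lit 0x40592) (nat_lit 0) (p (nat_lit 0x40492) (nat_lit 0) (p (nat_lit 0x30412) (nat_lit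 0) (p (nat_lit 0x30212) (nat_lit 0) (p (nat_lit 0x20192) (nat_lit 0) (p (nat_lit 0x20092) (nat_lit 0) (p (nat_lit 0x10012) (nat_lit 0) pn))))))))))))))))))))))))))))) :=
  Cl.node (nat_lit 0x109) (nat_lit 2) (by decide +kernel) (ClAll.succ (ClAll.succ ClAll.zero s944) s945)

def n246 : Cl (O (nat_lit 5)) (R (nat_lit 104465))
    (p (nat_lit 0x444aa) (nat_lit 7) (p (nat_lit 0x81) (nat_lit 1) (p (nat_lit 0xc9) (nat_lit 1) (p (nat_lit 0x109) (nat_lit 1) (p (nat_lit 0x101) (nat_lit 0) (p (nat_lit 0x119) (nat_lit 0) (p (nat_lit 0xd1) (nat_lit 0) (p (nat_lit 0x89) (nat_lit 0) (p (nat_lit 0x41) (nat_lit 0) (p (nat_lit 0x10a098b090a9a) (nat_lit 0) (p (nat_lit 0x9890a888a1a) (nat_lit 0) (p (nat_lit 0x109088a08079a) (nat_lit 0) (p (nat_lit 0x8880987871a) (nat_lit 0) (p (nat_lit 0x8000000000800080907088a) (nat_lit 0) (p (nat_lit 0x8000000000800078886860a) (nat_lit 0) (p (nat_lit 0x10688060782)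 (nat_lit 0) (p (nat_lit 0x607858702) (nat_lit 0) (p (nat_lit 0x10587050482) (nat_lit 0) (p (nat_lit 0x506848402) (nat_lit 0) (p (nat_lit 0x16000c) (nat_lit 0) (p (nat_lit 0x50612) (nat_lit 0) (p (nat_lit 0x40592) (nat_lit 0) (p (nat_lit 0x40492) (nat_lit 0) (p (nat_lit 0x30412) (nat_lit 0) (p (nat_lit 0x30212) (nat_lit 0) (p (nat_lit 0x20192) (nat_lit 0) (p (nat_lit 0x20092) (nat_lit 0) (p (nat_lit 0x10012) (nat_lit 0) pn)))))))))))))))))))))))))))) :=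
  Cl.node (nat_lit 0x380c2) (nat_lit 2) (by decide +kernel) (ClAll.succ (ClAll.succ ClAll.zero n206) n207)

def n247 : Cl (O (nat_lit 5)) (R (nat_lit 104465))
    (p (nat_lit 0x4c42a) (nat_lit 10) (p (nat_lit 0x111) (nat_lit 0) (p (nat_lit 0xc9) (nat_lit 0) (p (nat_lit 0x81) (nat_lit 0) (p (nat_lit 0x101) (nat_lit 1) (p (nat_lit 0x119) (nat_lit 0) (p (nat_lit 0xd1) (nat_lit 0) (p (nat_lit 0x89) (nat_lit 0) (p (nat_lit 0x41) (nat_lit 0) (p (nat_lit 0x10a098b090a9a) (nat_lit 0) (p (nat_lit 0x9890a888a1a) (nat_lit 0) (p (nat_lit 0x109088a08079a) (nat_lit 0) (p (nat_lit 0x8880987871a) (nat_lit 0) (p (nat_lit 0x8000000000800080907088a) (nat_lit 0) (p (nat_lit 0x8000000000800078886860a) (nat_lit 0) (p (nat_lit 0x10688060782) (nat_lit 0) (p (nat_lit 0x607858702) (nat_lit 0) (p (nat_lit 0x10587050482) (nat_lit 0) (p (nat_lit 0x506848402) (nat_lit 0) (p (nat_lit 0x16000c) (nat_lit 0) (p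 (nat_lit 0x50612) (nat_lit 0) (p (nat_lit 0x40592) (nat_lit 0) (p (nat_lit 0x40492) (nat_lit 0) (p (nat_lit 0x30412) (nat_lit 0) (p (nat_lit 0x30212) (nat_lit 0) (p (nat_lit 0x20192) (nat_lit 0) (p (nat_lit 0x20092) (nat_lit 0) (p (nat_lit 0x10012) (nat_lit 0) pn)))))))))))))))))))))))))))) :=
  Cl.node (nat_lit 0x380c2) (nat_lit 2) (by decide +kernel) (ClAll.succ (ClAll.succ ClAll.zero s43) s44)

def n248 : Cl (O (nat_lit 5)) (R (nat_lit 104465))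
    (p (nat_lit 0x444aa) (nat_lit 7) (p (nat_lit 0x111) (nat_lit 0) (p (nat_lit 0xc9) (nat_lit 1) (p (nat_lit 0x81) (nat_lit 0) (p (nat_lit 0x101) (nat_lit 1) (p (nat_lit 0x119) (nat_lit 0) (p (nat_lit 0xd1) (nat_lit 0) (p (nat_lit 0x89) (nat_lit 0) (p (nat_lit 0x41) (nat_lit 0) (p (nat_lit 0x10a098b090a9a) (nat_lit 0) (p (nat_lit 0x9890a888a1a) (nat_lit 0) (p (nat_lit 0x109088a08079a) (nat_lit 0) (p (nat_lit 0x8880987871a) (nat_lit 0) (p (nat_lit 0x8000000000800080907088a) (nat_lit 0) (p (nat_lit 0x8000000000800078886860a) (nat_lit 0) (p (nat_lit 0x10688060782) (nat_lit 0) (p (nat_lit 0x607858702) (nat_lit 0) (p (nat_lit 0x10587050482) (nat_lit 0) (p (nat_lit 0x506848402) (nat_lit 0) (p (nat_lit 0x16000c) (nat_lit 0) (p (nat_lit 0x50612) (nat_lit 0) (p (nat_lit 0x40592) (nat_lit 0) (p (nat_lit 0x40492) (nat_lit 0) (p (nat_lit 0x30412) (nat_lit 0) (p (nat_lit 0x30212) (nat_lit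 0) (p (nat_lit 0x20192) (nat_lit 0) (p (nat_lit 0x20092) (nat_lit 0) (p (nat_lit 0x10012) (nat_lit 0) pn)))))))))))))))))))))))))))) :=
  Cl.node (nat_lit 0x380c2) (nat_lit 2) (by decide +kernel) (ClAll.succ (ClAll.succ ClAll.zero n208) n209)

def n249 : Cl (O (nat_lit 5)) (R (nat_lit 104465))
    (p (nat_lit 0x3cc2a) (nat_lit 2) (p (nat_lit 0x111) (nat_lit 1) (p (nat_lit 0xc9) (nat_lit 1) (p (nat_lit 0x81) (nat_lit 0) (p (nat_lit 0x101) (nat_lit 1) (p (nat_lit 0x119) (nat_lit 0) (p (nat_lit 0xd1) (nat_lit 0) (p (nat_lit 0x89) (nat_lit 0) (p (nat_lit 0x41) (nat_lit 0) (p (nat_lit 0x10a098b090a9a) (nat_lit 0) (p (nat_lit 0x9890a888a1a) (nat_lit 0) (p (nat_lit 0x109088a08079a) (nat_lit 0) (p (nat_lit 0x8880987871a) (nat_lit 0) (p (nat_lit 0x8000000000800080907088a) (nat_lit 0) (p (nat_lit 0x8000000000800078886860a) (nat_lit 0) (p (nat_lit 0x10688060782) (nat_lit 0) (p (nat_lit 0x607858702)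 (nat_lit 0) (p (nat_lit 0x10587050482) (nat_lit 0) (p (nat_lit 0x506848402) (nat_lit 0) (p (nat_lit 0x16000c) (nat_lit 0) (p (nat_lit 0x50612) (nat_lit 0) (p (nat_lit 0x40592) (nat_lit 0) (p (nat_lit 0x40492) (nat_lit 0) (p (nat_lit 0x30412) (nat_lit 0) (p (nat_lit 0x30212) (nat_lit 0) (p (nat_lit 0x20192) (nat_lit 0) (p (nat_lit 0x20092) (nat_lit 0) (p (nat_lit 0x10012) (nat_lit 0) pn)))))))))))))))))))))))))))) :=
  Cl.node (nat_lit 0x380c2) (nat_lit 1) (by decide +kernel) (ClAll.succ ClAll.zero n210)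

def n250 : Cl (O (nat_lit 5)) (R (nat_lit 104465))
    (p (nat_lit 0x4c42a) (nat_lit 10) (p (nat_lit 0xc9) (nat_lit 0) (p (nat_lit 0xc1) (nat_lit 0) (p (nat_lit 0x81) (nat_lit 1) (p (nat_lit 0x101) (nat_lit 1) (p (nat_lit 0x119) (nat_lit 0) (p (nat_lit 0xd1) (nat_lit 0) (p (nat_lit 0x89) (nat_lit 0) (p (nat_lit 0x41) (nat_lit 0) (p (nat_lit 0x10a098b090a9a) (nat_lit 0) (p (nat_lit 0x9890a888a1a) (nat_lit 0) (p (nat_lit 0x109088a08079a) (nat_lit 0) (p (nat_lit 0x8880987871a) (nat_lit 0) (p (nat_lit 0x8000000000800080907088a) (nat_lit 0) (p (nat_lit 0x8000000000800078886860a) (nat_lit 0) (p (nat_lit 0x10688060782) (nat_lit 0) (p (nat_lit 0x607858702) (nat_lit 0) (p (nat_lit 0x10587050482) (nat_lit 0) (p (nat_lit 0x506848402) (nat_lit 0) (p (nat_lit 0x16000c) (nat_lit 0) (p (nat_lit 0x50612) (nat_lit 0) (p (nat_lit 0x40592) (nat_lit 0) (p (nat_lit 0x40492) (nat_lit 0) (p (nat_lit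 0x30412) (nat_lit 0) (p (nat_lit 0x30212) (nat_lit 0) (p (nat_lit 0x20192) (nat_lit 0) (p (nat_lit 0x20092) (nat_lit 0) (p (nat_lit 0x10012) (nat_lit 0) pn)))))))))))))))))))))))))))) :=
  Cl.node (nat_lit 0x380c2) (nat_lit 2) (by decide +kernel) (ClAll.succ (ClAll.succ ClAll.zero s112) s113)

def n251 : Cl (O (nat_lit 5)) (R (nat_lit 104465))
    (p (nat_lit 0x444aa) (nat_lit 7) (p (nat_lit 0xc9) (nat_lit 1) (p (nat_lit 0xc1) (nat_lit 0) (p (nat_lit 0x81) (nat_lit 1) (p (nat_lit 0x101) (nat_lit 1) (p (nat_lit 0x119) (nat_lit 0) (p (nat_lit 0xd1) (nat_lit 0) (p (nat_lit 0x89) (nat_lit 0) (p (nat_lit 0x41) (nat_lit 0) (p (nat_lit 0x10a098b090a9a) (nat_lit 0) (p (nat_lit 0x9890a888a1a) (nat_lit 0) (p (nat_lit 0x109088a08079a) (nat_lit 0) (p (nat_lit 0x8880987871a) (nat_lit 0) (p (nat_lit 0x8000000000800080907088a) (nat_lit 0) (p (nat_lit 0x8000000000800078886860a) (nat_lit 0) (p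 (nat_lit 0x10688060782) (nat_lit 0) (p (nat_lit 0x607858702) (nat_lit 0) (p (nat_lit 0x10587050482) (nat_lit 0) (p (nat_lit 0x506848402) (nat_lit 0) (p (nat_lit 0x16000c) (nat_lit 0) (p (nat_lit 0x50612) (nat_lit 0) (p (nat_lit 0x40592) (nat_lit 0) (p (nat_lit 0x40492) (nat_lit 0) (p (nat_lit 0x30412) (nat_lit 0) (p (nat_lit 0x30212) (nat_lit 0) (p (nat_lit 0x20192) (nat_lit 0) (p (nat_lit 0x20092) (nat_lit 0) (p (nat_lit 0x10012) (nat_lit 0) pn)))))))))))))))))))))))))))) :=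
  Cl.node (nat_lit 0x380c2) (nat_lit 2) (by decide +kernel) (ClAll.succ (ClAll.succ ClAll.zero s122) n211)

def n252 : Cl (O (nat_lit 5)) (R (nat_lit 104465))
    (p (nat_lit 0x380c2) (nat_lit 0) (p (nat_lit 0x3cc2a) (nat_lit 2) (p (nat_lit 0x109) (nat_lit 1) (p (nat_lit 0xc9) (nat_lit 1) (p (nat_lit 0xc1) (nat_lit 0) (p (nat_lit 0x119) (nat_lit 1) (p (nat_lit 0xd1) (nat_lit 0) (p (nat_lit 0x89) (nat_lit 0) (p (nat_lit 0x41) (nat_lit 0) (p (nat_lit 0x10a098b090a9a) (nat_lit 0) (p (nat_lit 0x9890a888a1a) (nat_lit 0) (p (nat_lit 0x109088a08079a) (nat_lit 0) (p (nat_lit 0x8880987871a) (nat_lit 0) (p (nat_lit 0x8000000000800080907088a) (nat_lit 0) (p (nat_lit 0x8000000000800078886860a) (nat_lit 0) (p (nat_lit 0x10688060782) (nat_lit 0) (p (nat_lit 0x607858702) (nat_lit 0) (p (nat_lit 0x10587050482) (nat_lit 0) (p (nat_lit 0x506848402) (nat_lit 0) (p (nat_lit 0x16000c) (nat_lit 0)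 (p (nat_lit 0x50612) (nat_lit 0) (p (nat_lit 0x40592) (nat_lit 0) (p (nat_lit 0x40492) (nat_lit 0) (p (nat_lit 0x30412) (nat_lit 0) (p (nat_lit 0x30212) (nat_lit 0) (p (nat_lit 0x20192) (nat_lit 0) (p (nat_lit 0x20092) (nat_lit 0) (p (nat_lit 0x10012) (nat_lit 0) pn)))))))))))))))))))))))))))) :=
  Cl.node (nat_lit 0x101) (nat_lit 2) (by decide +kernel) (ClAll.succ (ClAll.succ ClAll.zero n212) n213)

def n253 : Cl (O (nat_lit 5)) (R (nat_lit 104465))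
    (p (nat_lit 0x380c2) (nat_lit 0) (p (nat_lit 0x3cc2a) (nat_lit 2) (p (nat_lit 0x109) (nat_lit 1) (p (nat_lit 0x81) (nat_lit 0) (p (nat_lit 0xc1) (nat_lit 1) (p (nat_lit 0x119) (nat_lit 1) (p (nat_lit 0xd1) (nat_lit 0) (p (nat_lit 0x89) (nat_lit 0) (p (nat_lit 0x41) (nat_lit 0) (p (nat_lit 0x10a098b090a9a) (nat_lit 0) (p (nat_lit 0x9890a888a1a) (nat_lit 0) (p (nat_lit 0x109088a08079a) (nat_lit 0) (p (nat_lit 0x8880987871a) (nat_lit 0) (p (nat_lit 0x8000000000800080907088a) (nat_lit 0) (p (nat_lit 0x8000000000800078886860a) (nat_lit 0) (p (nat_lit 0x10688060782) (nat_lit 0) (p (nat_lit 0x607858702) (nat_lit 0) (p (nat_lit 0x10587050482) (nat_lit 0) (p (nat_lit 0x506848402) (nat_lit 0) (p (nat_lit 0x16000c) (nat_lit 0) (p (nat_lit 0x50612) (nat_lit 0) (p (nat_lit 0x40592) (nat_lit 0) (p (nat_lit 0x40492) (nat_lit 0) (p (nat_lit 0x30412) (nat_lit 0) (p (nat_lit 0x30212) (nat_lit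 0) (p (nat_lit 0x20192) (nat_lit 0) (p (nat_lit 0x20092) (nat_lit 0) (p (nat_lit 0x10012) (nat_lit 0) pn)))))))))))))))))))))))))))) :=
  Cl.node (nat_lit 0xc9) (nat_lit 2) (by decide +kernel) (ClAll.succ (ClAll.succ ClAll.zero s161) n214)

def n254 : Cl (O (nat_lit 5)) (R (nat_lit 104465))
    (p (nat_lit 0x44c2a) (nat_lit 0) (p (nat_lit 0x109) (nat_lit 0) (p (nat_lit 0x101) (nat_lit 0) (p (nat_lit 0x81) (nat_lit 1) (p (nat_lit 0xc1) (nat_lit 1) (p (nat_lit 0x119) (nat_lit 1) (p (nat_lit 0xd1) (nat_lit 0) (p (nat_lit 0x89) (nat_lit 0) (p (nat_lit 0x41) (nat_lit 0) (p (nat_lit 0x10a098b090a9a) (nat_lit 0) (p (nat_lit 0x9890a888a1a) (nat_lit 0) (p (nat_lit 0x109088a08079a) (nat_lit 0) (p (nat_lit 0x8880987871a) (nat_lit 0) (p (nat_lit 0x8000000000800080907088a) (nat_lit 0) (p (nat_lit 0x8000000000800078886860a) (nat_lit 0) (p (nat_lit 0x10688060782) (nat_lit 0) (p (nat_lit 0x607858702)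 (nat_lit 0) (p (nat_lit 0x10587050482) (nat_lit 0) (p (nat_lit 0x506848402) (nat_lit 0) (p (nat_lit 0x16000c) (nat_lit 0) (p (nat_lit 0x50612) (nat_lit 0) (p (nat_lit 0x40592) (nat_lit 0) (p (nat_lit 0x40492) (nat_lit 0) (p (nat_lit 0x30412) (nat_lit 0) (p (nat_lit 0x30212) (nat_lit 0) (p (nat_lit 0x20192) (nat_lit 0) (p (nat_lit 0x20092) (nat_lit 0) (p (nat_lit 0x10012) (nat_lit 0) pn)))))))))))))))))))))))))))) :=
  Cl.node (nat_lit 0x380c2) (nat_lit 1) (by decide +kernel) (ClAll.succ ClAll.zero n215)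

def n255 : Cl (O (nat_lit 5)) (R (nat_lit 104465))
    (p (nat_lit 0x444aa) (nat_lit 7) (p (nat_lit 0x109) (nat_lit 1) (p (nat_lit 0x101) (nat_lit 0) (p (nat_lit 0x81) (nat_lit 1) (p (nat_lit 0xc1) (nat_lit 1) (p (nat_lit 0x119) (nat_lit 1) (p (nat_lit 0xd1) (nat_lit 0) (p (nat_lit 0x89) (nat_lit 0) (p (nat_lit 0x41) (nat_lit 0) (p (nat_lit 0x10a098b090a9a) (nat_lit 0) (p (nat_lit 0x9890a888a1a) (nat_lit 0) (p (nat_lit 0x109088a08079a) (nat_lit 0) (p (nat_lit 0x8880987871a) (nat_lit 0) (p (nat_lit 0x8000000000800080907088a) (nat_lit 0) (p (nat_lit 0x8000000000800078886860a) (nat_lit 0) (p (nat_lit 0x10688060782) (nat_lit 0) (p (nat_lit 0x607858702) (nat_lit 0) (p (nat_lit 0x10587050482) (nat_lit 0) (p (nat_lit 0x506848402) (nat_lit 0) (p (nat_lit 0x16000c) (nat_lit 0) (p (nat_lit 0x50612) (nat_lit 0) (p (nat_lit 0x40592) (nat_lit 0) (p (nat_lit 0x40492) (nat_lit 0) (p (nat_lit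 0x30412) (nat_lit 0) (p (nat_lit 0x30212) (nat_lit 0) (p (nat_lit 0x20192) (nat_lit 0) (p (nat_lit 0x20092) (nat_lit 0) (p (nat_lit 0x10012) (nat_lit 0) pn)))))))))))))))))))))))))))) :=
  Cl.node (nat_lit 0x380c2) (nat_lit 2) (by decide +kernel) (ClAll.succ (ClAll.succ ClAll.zero n216) n217)

def n256 : Cl (O (nat_lit 5)) (R (nat_lit 104465))
    (p (nat_lit 0x200014) (nat_lit 0) (p (nat_lit 0x200004) (nat_lit 0) (p (nat_lit 0xc1) (nat_lit 1) (p (nat_lit 0x109) (nat_lit 1) (p (nat_lit 0x101) (nat_lit 0) (p (nat_lit 0x111) (nat_lit 0) (p (nat_lit 0xd1) (nat_lit 1) (p (nat_lit 0x89) (nat_lit 0) (p (nat_lit 0x41) (nat_lit 0) (p (nat_lit 0x10a098b090a9a) (nat_lit 0) (p (nat_lit 0x9890a888a1a) (nat_lit 0) (p (nat_lit 0x109088a08079a) (nat_lit 0) (p (nat_lit 0x8880987871a) (nat_lit 0) (p (nat_lit 0x8000000000800080907088a) (nat_lit 0) (p (nat_lit 0x8000000000800078886860a) (nat_lit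 0) (p (nat_lit 0x10688060782) (nat_lit 0) (p (nat_lit 0x607858702) (nat_lit 0) (p (nat_lit 0x10587050482) (nat_lit 0) (p (nat_lit 0x506848402) (nat_lit 0) (p (nat_lit 0x16000c) (nat_lit 0) (p (nat_lit 0x50612) (nat_lit 0) (p (nat_lit 0x40592) (nat_lit 0) (p (nat_lit 0x40492) (nat_lit 0) (p (nat_lit 0x30412) (nat_lit 0) (p (nat_lit 0x30212) (nat_lit 0) (p (nat_lit 0x20192) (nat_lit 0) (p (nat_lit 0x20092) (nat_lit 0) (p (nat_lit 0x10012) (nat_lit 0) pn)))))))))))))))))))))))))))) :=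
  Cl.node (nat_lit 0x41) (nat_lit 2) (by decide +kernel) (ClAll.succ (ClAll.succ ClAll.zero n218) s253)

def n257 : Cl (O (nat_lit 5)) (R (nat_lit 104465))
    (p (nat_lit 0x200014) (nat_lit 0) (p (nat_lit 0x200004) (nat_lit 0) (p (nat_lit 0x119) (nat_lit 0) (p (nat_lit 0x81) (nat_lit 0) (p (nat_lit 0x101) (nat_lit 1) (p (nat_lit 0x111) (nat_lit 0) (p (nat_lit 0xd1) (nat_lit 1) (p (nat_lit 0x89) (nat_lit 0) (p (nat_lit 0x41) (nat_lit 0) (p (nat_lit 0x10a098b090a9a) (nat_lit 0) (p (nat_lit 0x9890a888a1a) (nat_lit 0) (p (nat_lit 0x109088a08079a) (nat_lit 0) (p (nat_lit 0x8880987871a) (nat_lit 0) (p (nat_lit 0x8000000000800080907088a) (nat_lit 0) (p (nat_lit 0x8000000000800078886860a) (nat_lit 0) (p (nat_lit 0x10688060782) (nat_lit 0) (p (nat_lit 0x607858702) (nat_lit 0) (p (nat_lit 0x10587050482) (nat_lit 0) (p (nat_lit 0x506848402) (nat_lit 0) (p (nat_lit 0x16000c) (nat_lit 0)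 (p (nat_lit 0x50612) (nat_lit 0) (p (nat_lit 0x40592) (nat_lit 0) (p (nat_lit 0x40492) (nat_lit 0) (p (nat_lit 0x30412) (nat_lit 0) (p (nat_lit 0x30212) (nat_lit 0) (p (nat_lit 0x20192) (nat_lit 0) (p (nat_lit 0x20092) (nat_lit 0) (p (nat_lit 0x10012) (nat_lit 0) pn)))))))))))))))))))))))))))) :=
  Cl.node (nat_lit 0x109) (nat_lit 2) (by decide +kernel) (ClAll.succ (ClAll.succ ClAll.zero s256) n219)

def n258 : Cl (O (nat_lit 5)) (R (nat_lit 104465))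
    (p (nat_lit 0x444aa) (nat_lit 7) (p (nat_lit 0x119) (nat_lit 0) (p (nat_lit 0xc1) (nat_lit 0) (p (nat_lit 0x81) (nat_lit 1) (p (nat_lit 0x101) (nat_lit 1) (p (nat_lit 0x111) (nat_lit 0) (p (nat_lit 0xd1) (nat_lit 1) (p (nat_lit 0x89) (nat_lit 0) (p (nat_lit 0x41) (nat_lit 0) (p (nat_lit 0x10a098b090a9a) (nat_lit 0) (p (nat_lit 0x9890a888a1a) (nat_lit 0) (p (nat_lit 0x109088a08079a) (nat_lit 0) (p (nat_lit 0x8880987871a) (nat_lit 0) (p (nat_lit 0x8000000000800080907088a) (nat_lit 0) (p (nat_lit 0x8000000000800078886860a) (nat_lit 0) (p (nat_lit 0x10688060782) (nat_lit 0) (p (nat_lit 0x607858702) (nat_lit 0) (p (nat_lit 0x10587050482) (nat_lit 0) (p (nat_lit 0x506848402) (nat_lit 0) (p (nat_lit 0x16000c) (nat_lit 0) (p (nat_lit 0x50612) (nat_lit 0) (p (nat_lit 0x40592) (nat_lit 0) (p (nat_lit 0x40492) (nat_lit 0) (p (nat_lit 0x30412) (nat_lit 0) (p (nat_lit 0x30212) (nat_lit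 0) (p (nat_lit 0x20192) (nat_lit 0) (p (nat_lit 0x20092) (nat_lit 0) (p (nat_lit 0x10012) (nat_lit 0) pn)))))))))))))))))))))))))))) :=
  Cl.node (nat_lit 0x380c2) (nat_lit 2) (by decide +kernel) (ClAll.succ (ClAll.succ ClAll.zero n220) n221)

def n259 : Cl (O (nat_lit 5)) (R (nat_lit 104465))
    (p (nat_lit 0x3cc2a) (nat_lit 2) (p (nat_lit 0x119) (nat_lit 1) (p (nat_lit 0xc1) (nat_lit 0) (p (nat_lit 0x81) (nat_lit 1) (p (nat_lit 0x101) (nat_lit 1) (p (nat_lit 0x111) (nat_lit 0) (p (nat_lit 0xd1) (nat_lit 1) (p (nat_lit 0x89) (nat_lit 0) (p (nat_lit 0x41) (nat_lit 0) (p (nat_lit 0x10a098b090a9a) (nat_lit 0) (p (nat_lit 0x9890a888a1a) (nat_lit 0) (p (nat_lit 0x109088a08079a) (nat_lit 0) (p (nat_lit 0x8880987871a) (nat_lit 0) (p (nat_lit 0x8000000000800080907088a) (nat_lit 0) (p (nat_lit 0x8000000000800078886860a) (nat_lit 0) (p (nat_lit 0x10688060782) (nat_lit 0) (p (nat_lit 0x607858702)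 (nat_lit 0) (p (nat_lit 0x10587050482) (nat_lit 0) (p (nat_lit 0x506848402) (nat_lit 0) (p (nat_lit 0x16000c) (nat_lit 0) (p (nat_lit 0x50612) (nat_lit 0) (p (nat_lit 0x40592) (nat_lit 0) (p (nat_lit 0x40492) (nat_lit 0) (p (nat_lit 0x30412) (nat_lit 0) (p (nat_lit 0x30212) (nat_lit 0) (p (nat_lit 0x20192) (nat_lit 0) (p (nat_lit 0x20092) (nat_lit 0) (p (nat_lit 0x10012) (nat_lit 0) pn)))))))))))))))))))))))))))) :=
  Cl.node (nat_lit 0x380c2) (nat_lit 1) (by decide +kernel) (ClAll.succ ClAll.zero n222)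

def n260 : Cl (O (nat_lit 5)) (R (nat_lit 104465))
    (p (nat_lit 0x380c2) (nat_lit 0) (p (nat_lit 0x3cc2a) (nat_lit 2) (p (nat_lit 0x101) (nat_lit 0) (p (nat_lit 0xc1) (nat_lit 1) (p (nat_lit 0x81) (nat_lit 1) (p (nat_lit 0x111) (nat_lit 1) (p (nat_lit 0xd1) (nat_lit 1) (p (nat_lit 0x89) (nat_lit 0) (p (nat_lit 0x41) (nat_lit 0) (p (nat_lit 0x10a098b090a9a) (nat_lit 0) (p (nat_lit 0x9890a888a1a) (nat_lit 0) (p (nat_lit 0x109088a08079a) (nat_lit 0) (p (nat_lit 0x8880987871a) (nat_lit 0) (p (nat_lit 0x8000000000800080907088a) (nat_lit 0) (p (nat_lit 0x8000000000800078886860a) (nat_lit 0) (p (nat_lit 0x10688060782) (nat_lit 0) (p (nat_lit 0x607858702) (nat_lit 0) (p (nat_lit 0x10587050482) (nat_lit 0) (p (nat_lit 0x506848402) (nat_lit 0) (p (nat_lit 0x16000c) (nat_lit 0) (p (nat_lit 0x50612) (nat_lit 0) (p (nat_lit 0x40592) (nat_lit 0) (p (nat_lit 0x40492) (nat_lit 0) (p (nat_lit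 0x30412) (nat_lit 0) (p (nat_lit 0x30212) (nat_lit 0) (p (nat_lit 0x20192) (nat_lit 0) (p (nat_lit 0x20092) (nat_lit 0) (p (nat_lit 0x10012) (nat_lit 0) pn)))))))))))))))))))))))))))) :=
  Cl.node (nat_lit 0x41) (nat_lit 2) (by decide +kernel) (ClAll.succ (ClAll.succ ClAll.zero s354) n223)

def n261 : Cl (O (nat_lit 5)) (R (nat_lit 104465))
    (p (nat_lit 0x444aa) (nat_lit 7) (p (nat_lit 0xd1) (nat_lit 1) (p (nat_lit 0x111) (nat_lit 1) (p (nat_lit 0x109) (nat_lit 0) (p (nat_lit 0x101) (nat_lit 0) (p (nat_lit 0x119) (nat_lit 0) (p (nat_lit 0xc9) (nat_lit 0) (p (nat_lit 0x89) (nat_lit 1) (p (nat_lit 0x41) (nat_lit 0) (p (nat_lit 0x10a098b090a9a) (nat_lit 0) (p (nat_lit 0x9890a888a1a) (nat_lit 0) (p (nat_lit 0x109088a08079a) (nat_lit 0) (p (nat_lit 0x8880987871a) (nat_lit 0) (p (nat_lit 0x8000000000800080907088a) (nat_lit 0) (p (nat_lit 0x8000000000800078886860a) (nat_lit 0) (p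 (nat_lit 0x10688060782) (nat_lit 0) (p (nat_lit 0x607858702) (nat_lit 0) (p (nat_lit 0x10587050482) (nat_lit 0) (p (nat_lit 0x506848402) (nat_lit 0) (p (nat_lit 0x16000c) (nat_lit 0) (p (nat_lit 0x50612) (nat_lit 0) (p (nat_lit 0x40592) (nat_lit 0) (p (nat_lit 0x40492) (nat_lit 0) (p (nat_lit 0x30412) (nat_lit 0) (p (nat_lit 0x30212) (nat_lit 0) (p (nat_lit 0x20192) (nat_lit 0) (p (nat_lit 0x20092) (nat_lit 0) (p (nat_lit 0x10012) (nat_lit 0) pn)))))))))))))))))))))))))))) :=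
  Cl.node (nat_lit 0x380c2) (nat_lit 2) (by decide +kernel) (ClAll.succ (ClAll.succ ClAll.zero n224) n225)

def n262 : Cl (O (nat_lit 5)) (R (nat_lit 104465))
    (p (nat_lit 0x200014) (nat_lit 0) (p (nat_lit 0x200004) (nat_lit 0) (p (nat_lit 0xd1) (nat_lit 0) (p (nat_lit 0x109) (nat_lit 1) (p (nat_lit 0x101) (nat_lit 0) (p (nat_lit 0x119) (nat_lit 0) (p (nat_lit 0xc9) (nat_lit 0) (p (nat_lit 0x89) (nat_lit 1) (p (nat_lit 0x41) (nat_lit 0) (p (nat_lit 0x10a098b090a9a) (nat_lit 0) (p (nat_lit 0x9890a888a1a) (nat_lit 0) (p (nat_lit 0x109088a08079a) (nat_lit 0) (p (nat_lit 0x8880987871a) (nat_lit 0) (p (nat_lit 0x8000000000800080907088a) (nat_lit 0) (p (nat_lit 0x8000000000800078886860a) (nat_lit 0) (p (nat_lit 0x10688060782) (nat_lit 0) (p (nat_lit 0x607858702) (nat_lit 0) (p (nat_lit 0x10587050482) (nat_lit 0) (p (nat_lit 0x506848402) (nat_lit 0) (p (nat_lit 0x16000c) (nat_lit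 0) (p (nat_lit 0x50612) (nat_lit 0) (p (nat_lit 0x40592) (nat_lit 0) (p (nat_lit 0x40492) (nat_lit 0) (p (nat_lit 0x30412) (nat_lit 0) (p (nat_lit 0x30212) (nat_lit 0) (p (nat_lit 0x20192) (nat_lit 0) (p (nat_lit 0x20092) (nat_lit 0) (p (nat_lit 0x10012) (nat_lit 0) pn)))))))))))))))))))))))))))) :=
  Cl.node (nat_lit 0x41) (nat_lit 2) (by decide +kernel) (ClAll.succ (ClAll.succ ClAll.zero n226) s426)

def n263 : Cl (O (nat_lit 5)) (R (nat_lit 104465))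
    (p (nat_lit 0x380c2) (nat_lit 0) (p (nat_lit 0x444aa) (nat_lit 7) (p (nat_lit 0xd1) (nat_lit 1) (p (nat_lit 0x109) (nat_lit 1) (p (nat_lit 0x101) (nat_lit 0) (p (nat_lit 0x119) (nat_lit 0) (p (nat_lit 0xc9) (nat_lit 0) (p (nat_lit 0x89) (nat_lit 1) (p (nat_lit 0x41) (nat_lit 0) (p (nat_lit 0x10a098b090a9a) (nat_lit 0) (p (nat_lit 0x9890a888a1a) (nat_lit 0) (p (nat_lit 0x109088a08079a) (nat_lit 0) (p (nat_lit 0x8880987871a) (nat_lit 0) (p (nat_lit 0x8000000000800080907088a) (nat_lit 0) (p (nat_lit 0x8000000000800078886860a) (nat_lit 0) (p (nat_lit 0x10688060782) (nat_lit 0) (p (nat_lit 0x607858702) (nat_lit 0) (p (nat_lit 0x10587050482) (nat_lit 0) (p (nat_lit 0x506848402) (nat_lit 0) (p (nat_lit 0x16000c) (nat_lit 0) (p (nat_lit 0x50612) (nat_lit 0) (p (nat_lit 0x40592) (nat_lit 0) (p (nat_lit 0x40492) (nat_lit 0) (p (nat_lit 0x30412) (nat_lit 0) (p (nat_lit 0x30212) (nat_lit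 0) (p (nat_lit 0x20192) (nat_lit 0) (p (nat_lit 0x20092) (nat_lit 0) (p (nat_lit 0x10012) (nat_lit 0) pn)))))))))))))))))))))))))))) :=
  Cl.node (nat_lit 0xb000c) (nat_lit 2) (by decide +kernel) (ClAll.succ (ClAll.succ ClAll.zero n227) s442)

def n264 : Cl (O (nat_lit 5)) (R (nat_lit 104465))
    (p (nat_lit 0x380c2) (nat_lit 1) (p (nat_lit 0x444aa) (nat_lit 7) (p (nat_lit 0xd1) (nat_lit 1) (p (nat_lit 0x109) (nat_lit 1) (p (nat_lit 0x101) (nat_lit 0) (p (nat_lit 0x119) (nat_lit 0) (p (nat_lit 0xc9) (nat_lit 0) (p (nat_lit 0x89) (nat_lit 1) (p (nat_lit 0x41) (nat_lit 0) (p (nat_lit 0x10a098b090a9a) (nat_lit 0) (p (nat_lit 0x9890a888a1a) (nat_lit 0) (p (nat_lit 0x109088a08079a) (nat_lit 0) (p (nat_lit 0x8880987871a) (nat_lit 0) (p (nat_lit 0x8000000000800080907088a) (nat_lit 0) (p (nat_lit 0x8000000000800078886860a) (nat_lit 0) (p (nat_lit 0x10688060782) (nat_lit 0) (p (nat_lit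 0x607858702) (nat_lit 0) (p (nat_lit 0x10587050482) (nat_lit 0) (p (nat_lit 0x506848402) (nat_lit 0) (p (nat_lit 0x16000c) (nat_lit 0) (p (nat_lit 0x50612) (nat_lit 0) (p (nat_lit 0x40592) (nat_lit 0) (p (nat_lit 0x40492) (nat_lit 0) (p (nat_lit 0x30412) (nat_lit 0) (p (nat_lit 0x30212) (nat_lit 0) (p (nat_lit 0x20192) (nat_lit 0) (p (nat_lit 0x20092) (nat_lit 0) (p (nat_lit 0x10012) (nat_lit 0) pn)))))))))))))))))))))))))))) :=
  Cl.node (nat_lit 0xb000c) (nat_lit 2) (by decide +kernel) (ClAll.succ (ClAll.succ ClAll.zero n228) s459)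

def n265 : Cl (O (nat_lit 5)) (R (nat_lit 104465))
    (p (nat_lit 0x200014) (nat_lit 0) (p (nat_lit 0x200004) (nat_lit 0) (p (nat_lit 0xd1) (nat_lit 0) (p (nat_lit 0xc1) (nat_lit 0) (p (nat_lit 0x101) (nat_lit 1) (p (nat_lit 0x119) (nat_lit 0) (p (nat_lit 0xc9) (nat_lit 0) (p (nat_lit 0x89) (nat_lit 1) (p (nat_lit 0x41) (nat_lit 0) (p (nat_lit 0x10a098b090a9a) (nat_lit 0) (p (nat_lit 0x9890a888a1a) (nat_lit 0) (p (nat_lit 0x109088a08079a) (nat_lit 0) (p (nat_lit 0x8880987871a) (nat_lit 0) (p (nat_lit 0x8000000000800080907088a) (nat_lit 0) (p (nat_lit 0x8000000000800078886860a) (nat_lit 0) (p (nat_lit 0x10688060782) (nat_lit 0) (p (nat_lit 0x607858702) (nat_lit 0) (p (nat_lit 0x10587050482) (nat_lit 0) (p (nat_lit 0x506848402) (nat_lit 0) (p (nat_lit 0x16000c) (nat_lit 0) (p (nat_lit 0x50612) (nat_lit 0) (p (nat_lit 0x40592) (nat_lit 0) (p (nat_lit 0x40492) (nat_lit 0) (p (nat_lit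 0x30412) (nat_lit 0) (p (nat_lit 0x30212) (nat_lit 0) (p (nat_lit 0x20192) (nat_lit 0) (p (nat_lit 0x20092) (nat_lit 0) (p (nat_lit 0x10012) (nat_lit 0) pn)))))))))))))))))))))))))))) :=
  Cl.node (nat_lit 0x109) (nat_lit 2) (by decide +kernel) (ClAll.succ (ClAll.succ ClAll.zero s464) n229)

def n266 : Cl (O (nat_lit 5)) (R (nat_lit 104465))
    (p (nat_lit 0x380c2) (nat_lit 0) (p (nat_lit 0x444aa) (nat_lit 7) (p (nat_lit 0xd1) (nat_lit 1) (p (nat_lit 0xc1) (nat_lit 0) (p (nat_lit 0x101) (nat_lit 1) (p (nat_lit 0x119) (nat_lit 0) (p (nat_lit 0xc9) (nat_lit 0) (p (nat_lit 0x89) (nat_lit 1) (p (nat_lit 0x41) (nat_lit 0) (p (nat_lit 0x10a098b090a9a) (nat_lit 0) (p (nat_lit 0x9890a888a1a) (nat_lit 0) (p (nat_lit 0x109088a08079a) (nat_lit 0) (p (nat_lit 0x8880987871a) (nat_lit 0) (p (nat_lit 0x8000000000800080907088a) (nat_lit 0) (p (nat_lit 0x8000000000800078886860a) (nat_lit 0) (p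 (nat_lit 0x10688060782) (nat_lit 0) (p (nat_lit 0x607858702) (nat_lit 0) (p (nat_lit 0x10587050482) (nat_lit 0) (p (nat_lit 0x506848402) (nat_lit 0) (p (nat_lit 0x16000c) (nat_lit 0) (p (nat_lit 0x50612) (nat_lit 0) (p (nat_lit 0x40592) (nat_lit 0) (p (nat_lit 0x40492) (nat_lit 0) (p (nat_lit 0x30412) (nat_lit 0) (p (nat_lit 0x30212) (nat_lit 0) (p (nat_lit 0x20192) (nat_lit 0) (p (nat_lit 0x20092) (nat_lit 0) (p (nat_lit 0x10012) (nat_lit 0) pn)))))))))))))))))))))))))))) :=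
  Cl.node (nat_lit 0xb000c) (nat_lit 2) (by decide +kernel) (ClAll.succ (ClAll.succ ClAll.zero s490) s491)

def n267 : Cl (O (nat_lit 5)) (R (nat_lit 104465))
    (p (nat_lit 0x380c2) (nat_lit 1) (p (nat_lit 0x444aa) (nat_lit 7) (p (nat_lit 0xd1) (nat_lit 1) (p (nat_lit 0xc1) (nat_lit 0) (p (nat_lit 0x101) (nat_lit 1) (p (nat_lit 0x119) (nat_lit 0) (p (nat_lit 0xc9) (nat_lit 0) (p (nat_lit 0x89) (nat_lit 1) (p (nat_lit 0x41) (nat_lit 0) (p (nat_lit 0x10a098b090a9a) (nat_lit 0) (p (nat_lit 0x9890a888a1a) (nat_lit 0) (p (nat_lit 0x109088a08079a) (nat_lit 0) (p (nat_lit 0x8880987871a) (nat_lit 0) (p (nat_lit 0x8000000000800080907088a) (nat_lit 0) (p (nat_lit 0x8000000000800078886860a) (nat_lit 0) (p (nat_lit 0x10688060782) (nat_lit 0) (p (nat_lit 0x607858702) (nat_lit 0) (p (nat_lit 0x10587050482) (nat_lit 0) (p (nat_lit 0x506848402) (nat_lit 0) (p (nat_lit 0x16000c) (nat_lit 0)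 (p (nat_lit 0x50612) (nat_lit 0) (p (nat_lit 0x40592) (nat_lit 0) (p (nat_lit 0x40492) (nat_lit 0) (p (nat_lit 0x30412) (nat_lit 0) (p (nat_lit 0x30212) (nat_lit 0) (p (nat_lit 0x20192) (nat_lit 0) (p (nat_lit 0x20092) (nat_lit 0) (p (nat_lit 0x10012) (nat_lit 0) pn)))))))))))))))))))))))))))) :=
  Cl.node (nat_lit 0x200004) (nat_lit 2) (by decide +kernel) (ClAll.succ (ClAll.succ ClAll.zero n230) s494)

def n268 : Cl (O (nat_lit 5)) (R (nat_lit 104465))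
    (p (nat_lit 0x380c2) (nat_lit 1) (p (nat_lit 0x444aa) (nat_lit 7) (p (nat_lit 0x111) (nat_lit 1) (p (nat_lit 0xd1) (nat_lit 1) (p (nat_lit 0xc1) (nat_lit 0) (p (nat_lit 0x119) (nat_lit 1) (p (nat_lit 0xc9) (nat_lit 0) (p (nat_lit 0x89) (nat_lit 1) (p (nat_lit 0x41) (nat_lit 0) (p (nat_lit 0x10a098b090a9a) (nat_lit 0) (p (nat_lit 0x9890a888a1a) (nat_lit 0) (p (nat_lit 0x109088a08079a) (nat_lit 0) (p (nat_lit 0x8880987871a) (nat_lit 0) (p (nat_lit 0x8000000000800080907088a) (nat_lit 0) (p (nat_lit 0x8000000000800078886860a) (nat_lit 0) (p (nat_lit 0x10688060782) (nat_lit 0) (p (nat_lit 0x607858702) (nat_lit 0) (p (nat_lit 0x10587050482) (nat_lit 0) (p (nat_lit 0x506848402) (nat_lit 0) (p (nat_lit 0x16000c) (nat_lit 0) (p (nat_lit 0x50612) (nat_lit 0) (p (nat_lit 0x40592) (nat_lit 0) (p (nat_lit 0x40492) (nat_lit 0) (p (nat_lit 0x30412) (nat_lit 0) (p (nat_lit 0x30212) (nat_lit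 0) (p (nat_lit 0x20192) (nat_lit 0) (p (nat_lit 0x20092) (nat_lit 0) (p (nat_lit 0x10012) (nat_lit 0) pn)))))))))))))))))))))))))))) :=
  Cl.node (nat_lit 0xb000c) (nat_lit 2) (by decide +kernel) (ClAll.succ (ClAll.succ ClAll.zero n231) s514)

def n269 : Cl (O (nat_lit 5)) (R (nat_lit 104465))
    (p (nat_lit 0x380c2) (nat_lit 0) (p (nat_lit 0x44c2a) (nat_lit 0) (p (nat_lit 0x111) (nat_lit 0) (p (nat_lit 0x101) (nat_lit 0) (p (nat_lit 0xc1) (nat_lit 1) (p (nat_lit 0x119) (nat_lit 1) (p (nat_lit 0xc9) (nat_lit 0) (p (nat_lit 0x89) (nat_lit 1) (p (nat_lit 0x41) (nat_lit 0) (p (nat_lit 0x10a098b090a9a) (nat_lit 0) (p (nat_lit 0x9890a888a1a) (nat_lit 0) (p (nat_lit 0x109088a08079a) (nat_lit 0) (p (nat_lit 0x8880987871a) (nat_lit 0) (p (nat_lit 0x8000000000800080907088a) (nat_lit 0) (p (nat_lit 0x8000000000800078886860a) (nat_lit 0) (p (nat_lit 0x10688060782) (nat_lit 0) (p (nat_lit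 0x607858702) (nat_lit 0) (p (nat_lit 0x10587050482) (nat_lit 0) (p (nat_lit 0x506848402) (nat_lit 0) (p (nat_lit 0x16000c) (nat_lit 0) (p (nat_lit 0x50612) (nat_lit 0) (p (nat_lit 0x40592) (nat_lit 0) (p (nat_lit 0x40492) (nat_lit 0) (p (nat_lit 0x30412) (nat_lit 0) (p (nat_lit 0x30212) (nat_lit 0) (p (nat_lit 0x20192) (nat_lit 0) (p (nat_lit 0x20092) (nat_lit 0) (p (nat_lit 0x10012) (nat_lit 0) pn)))))))))))))))))))))))))))) :=
  Cl.node (nat_lit 0x200004) (nat_lit 2) (by decide +kernel) (ClAll.succ (ClAll.succ ClAll.zero n232) s522)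

def n270 : Cl (O (nat_lit 5)) (R (nat_lit 104465))
    (p (nat_lit 0x380c2) (nat_lit 0) (p (nat_lit 0x444aa) (nat_lit 7) (p (nat_lit 0x111) (nat_lit 1) (p (nat_lit 0x101) (nat_lit 0) (p (nat_lit 0xc1) (nat_lit 1) (p (nat_lit 0x119) (nat_lit 1) (p (nat_lit 0xc9) (nat_lit 0) (p (nat_lit 0x89) (nat_lit 1) (p (nat_lit 0x41) (nat_lit 0) (p (nat_lit 0x10a098b090a9a) (nat_lit 0) (p (nat_lit 0x9890a888a1a) (nat_lit 0) (p (nat_lit 0x109088a08079a) (nat_lit 0) (p (nat_lit 0x8880987871a) (nat_lit 0) (p (nat_lit 0x8000000000800080907088a) (nat_lit 0) (p (nat_lit 0x8000000000800078886860a) (nat_lit 0) (p (nat_lit 0x10688060782) (nat_lit 0) (p (nat_lit 0x607858702) (nat_lit 0) (p (nat_lit 0x10587050482) (nat_lit 0) (p (nat_lit 0x506848402) (nat_lit 0) (p (nat_lit 0x16000c) (nat_lit 0) (p (nat_lit 0x50612) (nat_lit 0) (p (nat_lit 0x40592) (nat_lit 0) (p (nat_lit 0x40492) (nat_lit 0) (p (nat_lit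 0x30412) (nat_lit 0) (p (nat_lit 0x30212) (nat_lit 0) (p (nat_lit 0x20192) (nat_lit 0) (p (nat_lit 0x20092) (nat_lit 0) (p (nat_lit 0x10012) (nat_lit 0) pn)))))))))))))))))))))))))))) :=
  Cl.node (nat_lit 0xb000c) (nat_lit 2) (by decide +kernel) (ClAll.succ (ClAll.succ ClAll.zero s541) s542)

def n271 : Cl (O (nat_lit 5)) (R (nat_lit 104465))
    (p (nat_lit 0x380c2) (nat_lit 1) (p (nat_lit 0x444aa) (nat_lit 7) (p (nat_lit 0x111) (nat_lit 1) (p (nat_lit 0x101) (nat_lit 0) (p (nat_lit 0xc1) (nat_lit 1) (p (nat_lit 0x119) (nat_lit 1) (p (nat_lit 0xc9) (nat_lit 0) (p (nat_lit 0x89) (nat_lit 1) (p (nat_lit 0x41) (nat_lit 0) (p (nat_lit 0x10a098b090a9a) (nat_lit 0) (p (nat_lit 0x9890a888a1a) (nat_lit 0) (p (nat_lit 0x109088a08079a) (nat_lit 0) (p (nat_lit 0x8880987871a) (nat_lit 0) (p (nat_lit 0x8000000000800080907088a) (nat_lit 0) (p (nat_lit 0x8000000000800078886860a) (nat_lit 0)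 (p (nat_lit 0x10688060782) (nat_lit 0) (p (nat_lit 0x607858702) (nat_lit 0) (p (nat_lit 0x10587050482) (nat_lit 0) (p (nat_lit 0x506848402) (nat_lit 0) (p (nat_lit 0x16000c) (nat_lit 0) (p (nat_lit 0x50612) (nat_lit 0) (p (nat_lit 0x40592) (nat_lit 0) (p (nat_lit 0x40492) (nat_lit 0) (p (nat_lit 0x30412) (nat_lit 0) (p (nat_lit 0x30212) (nat_lit 0) (p (nat_lit 0x20192) (nat_lit 0) (p (nat_lit 0x20092) (nat_lit 0) (p (nat_lit 0x10012) (nat_lit 0) pn)))))))))))))))))))))))))))) :=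
  Cl.node (nat_lit 0xb000c) (nat_lit 2) (by decide +kernel) (ClAll.succ (ClAll.succ ClAll.zero n233) s549)

def n272 : Cl (O (nat_lit 5)) (R (nat_lit 104465))
    (p (nat_lit 0x380c2) (nat_lit 1) (p (nat_lit 0x444aa) (nat_lit 7) (p (nat_lit 0x119) (nat_lit 1) (p (nat_lit 0x111) (nat_lit 0) (p (nat_lit 0x101) (nat_lit 0) (p (nat_lit 0x109) (nat_lit 0) (p (nat_lit 0xc9) (nat_lit 1) (p (nat_lit 0x89) (nat_lit 1) (p (nat_lit 0x41) (nat_lit 0) (p (nat_lit 0x10a098b090a9a) (nat_lit 0) (p (nat_lit 0x9890a888a1a) (nat_lit 0) (p (nat_lit 0x109088a08079a) (nat_lit 0) (p (nat_lit 0x8880987871a) (nat_lit 0) (p (nat_lit 0x8000000000800080907088a) (nat_lit 0) (p (nat_lit 0x8000000000800078886860a) (nat_lit 0) (p (nat_lit 0x10688060782) (nat_lit 0) (p (nat_lit 0x607858702) (nat_lit 0) (p (nat_lit 0x10587050482) (nat_lit 0) (p (nat_lit 0x506848402) (nat_lit 0) (p (nat_lit 0x16000c) (nat_lit 0)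 (p (nat_lit 0x50612) (nat_lit 0) (p (nat_lit 0x40592) (nat_lit 0) (p (nat_lit 0x40492) (nat_lit 0) (p (nat_lit 0x30412) (nat_lit 0) (p (nat_lit 0x30212) (nat_lit 0) (p (nat_lit 0x20192) (nat_lit 0) (p (nat_lit 0x20092) (nat_lit 0) (p (nat_lit 0x10012) (nat_lit 0) pn)))))))))))))))))))))))))))) :=
  Cl.node (nat_lit 0xb000c) (nat_lit 2) (by decide +kernel) (ClAll.succ (ClAll.succ ClAll.zero s564) s565)

def n273 : Cl (O (nat_lit 5)) (R (nat_lit 104465))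
    (p (nat_lit 0x4c42a) (nat_lit 10) (p (nat_lit 0x111) (nat_lit 0) (p (nat_lit 0x89) (nat_lit 0) (p (nat_lit 0x109) (nat_lit 1) (p (nat_lit 0x101) (nat_lit 0) (p (nat_lit 0x119) (nat_lit 0) (p (nat_lit 0xd1) (nat_lit 0) (p (nat_lit 0x81) (nat_lit 0) (p (nat_lit 0x41) (nat_lit 1) (p (nat_lit 0x10a098b090a9a) (nat_lit 0) (p (nat_lit 0x9890a888a1a) (nat_lit 0) (p (nat_lit 0x109088a08079a) (nat_lit 0) (p (nat_lit 0x8880987871a) (nat_lit 0) (p (nat_lit 0x8000000000800080907088a) (nat_lit 0) (p (nat_lit 0x8000000000800078886860a) (nat_lit 0) (p (nat_lit 0x10688060782) (nat_lit 0) (p (nat_lit 0x607858702) (nat_lit 0) (p (nat_lit 0x10587050482) (nat_lit 0) (p (nat_lit 0x506848402) (nat_lit 0) (p (nat_lit 0x16000c) (nat_lit 0) (p (nat_lit 0x50612) (nat_lit 0) (p (nat_lit 0x40592) (nat_lit 0) (p (nat_lit 0x40492) (nat_lit 0) (p (nat_lit 0x30412) (nat_lit 0) (p (nat_lit 0x30212) (nat_lit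 0) (p (nat_lit 0x20192) (nat_lit 0) (p (nat_lit 0x20092) (nat_lit 0) (p (nat_lit 0x10012) (nat_lit 0) pn)))))))))))))))))))))))))))) :=
  Cl.node (nat_lit 0x380c2) (nat_lit 2) (by decide +kernel) (ClAll.succ (ClAll.succ ClAll.zero s584) n234)

def n274 : Cl (O (nat_lit 5)) (R (nat_lit 104465))
    (p (nat_lit 0x3cc2a) (nat_lit 2) (p (nat_lit 0x111) (nat_lit 1) (p (nat_lit 0x89) (nat_lit 0) (p (nat_lit 0x109) (nat_lit 1) (p (nat_lit 0x101) (nat_lit 0) (p (nat_lit 0x119) (nat_lit 0) (p (nat_lit 0xd1) (nat_lit 0) (p (nat_lit 0x81) (nat_lit 0) (p (nat_lit 0x41) (nat_lit 1) (p (nat_lit 0x10a098b090a9a) (nat_lit 0) (p (nat_lit 0x9890a888a1a) (nat_lit 0) (p (nat_lit 0x109088a08079a) (nat_lit 0) (p (nat_lit 0x8880987871a) (nat_lit 0) (p (nat_lit 0x8000000000800080907088a) (nat_lit 0) (p (nat_lit 0x8000000000800078886860a) (nat_lit 0) (p (nat_lit 0x10688060782) (nat_lit 0) (p (nat_lit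 0x607858702) (nat_lit 0) (p (nat_lit 0x10587050482) (nat_lit 0) (p (nat_lit 0x506848402) (nat_lit 0) (p (nat_lit 0x16000c) (nat_lit 0) (p (nat_lit 0x50612) (nat_lit 0) (p (nat_lit 0x40592) (nat_lit 0) (p (nat_lit 0x40492) (nat_lit 0) (p (nat_lit 0x30412) (nat_lit 0) (p (nat_lit 0x30212) (nat_lit 0) (p (nat_lit 0x20192) (nat_lit 0) (p (nat_lit 0x20092) (nat_lit 0) (p (nat_lit 0x10012) (nat_lit 0) pn)))))))))))))))))))))))))))) :=
  Cl.node (nat_lit 0x380c2) (nat_lit 1) (by decide +kernel) (ClAll.succ ClAll.zero n235)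

def n275 : Cl (O (nat_lit 5)) (R (nat_lit 104465))
    (p (nat_lit 0x4c42a) (nat_lit 10) (p (nat_lit 0xc9) (nat_lit 0) (p (nat_lit 0x89) (nat_lit 1) (p (nat_lit 0x109) (nat_lit 1) (p (nat_lit 0x101) (nat_lit 0) (p (nat_lit 0x119) (nat_lit 0) (p (nat_lit 0xd1) (nat_lit 0) (p (nat_lit 0x81) (nat_lit 0) (p (nat_lit 0x41) (nat_lit 1) (p (nat_lit 0x10a098b090a9a) (nat_lit 0) (p (nat_lit 0x9890a888a1a) (nat_lit 0) (p (nat_lit 0x109088a08079a) (nat_lit 0) (p (nat_lit 0x8880987871a) (nat_lit 0) (p (nat_lit 0x8000000000800080907088a) (nat_lit 0) (p (nat_lit 0x8000000000800078886860a) (nat_lit 0) (p (nat_lit 0x10688060782) (nat_lit 0) (p (nat_lit 0x607858702) (nat_lit 0) (p (nat_lit 0x10587050482) (nat_lit 0) (p (nat_lit 0x506848402) (nat_lit 0) (p (nat_lit 0x16000c) (nat_lit 0) (p (nat_lit 0x50612) (nat_lit 0) (p (nat_lit 0x40592) (nat_lit 0) (p (nat_lit 0x40492) (nat_lit 0) (p (nat_lit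 0x30412) (nat_lit 0) (p (nat_lit 0x30212) (nat_lit 0) (p (nat_lit 0x20192) (nat_lit 0) (p (nat_lit 0x20092) (nat_lit 0) (p (nat_lit 0x10012) (nat_lit 0) pn)))))))))))))))))))))))))))) :=
  Cl.node (nat_lit 0x380c2) (nat_lit 2) (by decide +kernel) (ClAll.succ (ClAll.succ ClAll.zero s615) n236)

def n276 : Cl (O (nat_lit 5)) (R (nat_lit 104465))
    (p (nat_lit 0x380c2) (nat_lit 0) (p (nat_lit 0x3cc2a) (nat_lit 2) (p (nat_lit 0x89) (nat_lit 0) (p (nat_lit 0xc1) (nat_lit 0) (p (nat_lit 0x101) (nat_lit 1) (p (nat_lit 0x119) (nat_lit 0) (p (nat_lit 0xd1) (nat_lit 0) (p (nat_lit 0x81) (nat_lit 0) (p (nat_lit 0x41) (nat_lit 1) (p (nat_lit 0x10a098b090a9a) (nat_lit 0) (p (nat_lit 0x9890a888a1a) (nat_lit 0) (p (nat_lit 0x109088a08079a) (nat_lit 0) (p (nat_lit 0x8880987871a) (nat_lit 0) (p (nat_lit 0x8000000000800080907088a) (nat_lit 0) (p (nat_lit 0x8000000000800078886860a) (nat_lit 0)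 (p (nat_lit 0x10688060782) (nat_lit 0) (p (nat_lit 0x607858702) (nat_lit 0) (p (nat_lit 0x10587050482) (nat_lit 0) (p (nat_lit 0x506848402) (nat_lit 0) (p (nat_lit 0x16000c) (nat_lit 0) (p (nat_lit 0x50612) (nat_lit 0) (p (nat_lit 0x40592) (nat_lit 0) (p (nat_lit 0x40492) (nat_lit 0) (p (nat_lit 0x30412) (nat_lit 0) (p (nat_lit 0x30212) (nat_lit 0) (p (nat_lit 0x20192) (nat_lit 0) (p (nat_lit 0x20092) (nat_lit 0) (p (nat_lit 0x10012) (nat_lit 0) pn)))))))))))))))))))))))))))) :=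
  Cl.node (nat_lit 0x200004) (nat_lit 2) (by decide +kernel) (ClAll.succ (ClAll.succ ClAll.zero n237) s635)

def n277 : Cl (O (nat_lit 5)) (R (nat_lit 104465))
    (p (nat_lit 0x4c42a) (nat_lit 10) (p (nat_lit 0xc9) (nat_lit 0) (p (nat_lit 0x89) (nat_lit 1) (p (nat_lit 0xc1) (nat_lit 0) (p (nat_lit 0x101) (nat_lit 1) (p (nat_lit 0x119) (nat_lit 0) (p (nat_lit 0xd1) (nat_lit 0) (p (nat_lit 0x81) (nat_lit 0) (p (nat_lit 0x41) (nat_lit 1) (p (nat_lit 0x10a098b090a9a) (nat_lit 0) (p (nat_lit 0x9890a888a1a) (nat_lit 0) (p (nat_lit 0x109088a08079a) (nat_lit 0) (p (nat_lit 0x8880987871a) (nat_lit 0) (p (nat_lit 0x8000000000800080907088a) (nat_lit 0) (p (nat_lit 0x8000000000800078886860a) (nat_lit 0) (p (nat_lit 0x10688060782) (nat_lit 0) (p (nat_lit 0x607858702) (nat_lit 0) (p (nat_lit 0x10587050482) (nat_lit 0) (p (nat_lit 0x506848402) (nat_lit 0) (p (nat_lit 0x16000c) (nat_lit 0) (p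 (nat_lit 0x50612) (nat_lit 0) (p (nat_lit 0x40592) (nat_lit 0) (p (nat_lit 0x40492) (nat_lit 0) (p (nat_lit 0x30412) (nat_lit 0) (p (nat_lit 0x30212) (nat_lit 0) (p (nat_lit 0x20192) (nat_lit 0) (p (nat_lit 0x20092) (nat_lit 0) (p (nat_lit 0x10012) (nat_lit 0) pn)))))))))))))))))))))))))))) :=
  Cl.node (nat_lit 0x380c2) (nat_lit 2) (by decide +kernel) (ClAll.succ (ClAll.succ ClAll.zero s655) n238)

def n278 : Cl (O (nat_lit 5)) (R (nat_lit 104465))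
    (p (nat_lit 0x4c42a) (nat_lit 10) (p (nat_lit 0xc9) (nat_lit 1) (p (nat_lit 0x89) (nat_lit 1) (p (nat_lit 0xc1) (nat_lit 0) (p (nat_lit 0x101) (nat_lit 1) (p (nat_lit 0x119) (nat_lit 0) (p (nat_lit 0xd1) (nat_lit 0) (p (nat_lit 0x81) (nat_lit 0) (p (nat_lit 0x41) (nat_lit 1) (p (nat_lit 0x10a098b090a9a) (nat_lit 0) (p (nat_lit 0x9890a888a1a) (nat_lit 0) (p (nat_lit 0x109088a08079a) (nat_lit 0) (p (nat_lit 0x8880987871a) (nat_lit 0) (p (nat_lit 0x8000000000800080907088a) (nat_lit 0) (p (nat_lit 0x8000000000800078886860a) (nat_lit 0) (p (nat_lit 0x10688060782) (nat_lit 0) (p (nat_lit 0x607858702) (nat_lit 0) (p (nat_lit 0x10587050482) (nat_lit 0) (p (nat_lit 0x506848402) (nat_lit 0) (p (nat_lit 0x16000c) (nat_lit 0) (p (nat_lit 0x50612) (nat_lit 0) (p (nat_lit 0x40592) (nat_lit 0) (p (nat_lit 0x40492) (nat_lit 0) (p (nat_lit 0x30412) (nat_lit 0) (p (nat_lit 0x30212) (nat_lit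 0) (p (nat_lit 0x20192) (nat_lit 0) (p (nat_lit 0x20092) (nat_lit 0) (p (nat_lit 0x10012) (nat_lit 0) pn)))))))))))))))))))))))))))) :=
  Cl.node (nat_lit 0x380c2) (nat_lit 2) (by decide +kernel) (ClAll.succ (ClAll.succ ClAll.zero s669) s670)

def n279 : Cl (O (nat_lit 5)) (R (nat_lit 104465))
    (p (nat_lit 0x380c2) (nat_lit 0) (p (nat_lit 0x3cc2a) (nat_lit 2) (p (nat_lit 0x89) (nat_lit 0) (p (nat_lit 0xc1) (nat_lit 1) (p (nat_lit 0x101) (nat_lit 1) (p (nat_lit 0x119) (nat_lit 0) (p (nat_lit 0xd1) (nat_lit 0) (p (nat_lit 0x81) (nat_lit 0) (p (nat_lit 0x41) (nat_lit 1) (p (nat_lit 0x10a098b090a9a) (nat_lit 0) (p (nat_lit 0x9890a888a1a) (nat_lit 0) (p (nat_lit 0x109088a08079a) (nat_lit 0) (p (nat_lit 0x8880987871a) (nat_lit 0) (p (nat_lit 0x8000000000800080907088a) (nat_lit 0) (p (nat_lit 0x8000000000800078886860a) (nat_lit 0) (p (nat_lit 0x10688060782) (nat_lit 0) (p (nat_lit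 0x607858702) (nat_lit 0) (p (nat_lit 0x10587050482) (nat_lit 0) (p (nat_lit 0x506848402) (nat_lit 0) (p (nat_lit 0x16000c) (nat_lit 0) (p (nat_lit 0x50612) (nat_lit 0) (p (nat_lit 0x40592) (nat_lit 0) (p (nat_lit 0x40492) (nat_lit 0) (p (nat_lit 0x30412) (nat_lit 0) (p (nat_lit 0x30212) (nat_lit 0) (p (nat_lit 0x20192) (nat_lit 0) (p (nat_lit 0x20092) (nat_lit 0) (p (nat_lit 0x10012) (nat_lit 0) pn)))))))))))))))))))))))))))) :=
  Cl.node (nat_lit 0xb000c) (nat_lit 2) (by decide +kernel) (ClAll.succ (ClAll.succ ClAll.zero s674) n239)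

def n280 : Cl (O (nat_lit 5)) (R (nat_lit 104465))
    (p (nat_lit 0x44c2a) (nat_lit 0) (p (nat_lit 0x109) (nat_lit 0) (p (nat_lit 0x89) (nat_lit 1) (p (nat_lit 0xc9) (nat_lit 1) (p (nat_lit 0xc1) (nat_lit 0) (p (nat_lit 0x119) (nat_lit 1) (p (nat_lit 0xd1) (nat_lit 0) (p (nat_lit 0x81) (nat_lit 0) (p (nat_lit 0x41) (nat_lit 1) (p (nat_lit 0x10a098b090a9a) (nat_lit 0) (p (nat_lit 0x9890a888a1a) (nat_lit 0) (p (nat_lit 0x109088a08079a) (nat_lit 0) (p (nat_lit 0x8880987871a) (nat_lit 0) (p (nat_lit 0x8000000000800080907088a) (nat_lit 0) (p (nat_lit 0x8000000000800078886860a) (nat_lit 0) (p (nat_lit 0x10688060782) (nat_lit 0) (p (nat_lit 0x607858702) (nat_lit 0) (p (nat_lit 0x10587050482) (nat_lit 0) (p (nat_lit 0x506848402) (nat_lit 0) (p (nat_lit 0x16000c) (nat_lit 0) (p (nat_lit 0x50612) (nat_lit 0) (p (nat_lit 0x40592) (nat_lit 0) (p (nat_lit 0x40492) (nat_lit 0) (p (nat_lit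 0x30412) (nat_lit 0) (p (nat_lit 0x30212) (nat_lit 0) (p (nat_lit 0x20192) (nat_lit 0) (p (nat_lit 0x20092) (nat_lit 0) (p (nat_lit 0x10012) (nat_lit 0) pn)))))))))))))))))))))))))))) :=
  Cl.node (nat_lit 0x380c2) (nat_lit 1) (by decide +kernel) (ClAll.succ ClAll.zero n240)

def n281 : Cl (O (nat_lit 5)) (R (nat_lit 104465))
    (p (nat_lit 0x119) (nat_lit 0) (p (nat_lit 0xc9) (nat_lit 0) (p (nat_lit 0x89) (nat_lit 1) (p (nat_lit 0x109) (nat_lit 1) (p (nat_lit 0x101) (nat_lit 0) (p (nat_lit 0x111) (nat_lit 0) (p (nat_lit 0xd1) (nat_lit 1) (p (nat_lit 0x81) (nat_lit 0) (p (nat_lit 0x41) (nat_lit 1) (p (nat_lit 0x10a098b090a9a) (nat_lit 0) (p (nat_lit 0x9890a888a1a) (nat_lit 0) (p (nat_lit 0x109088a08079a) (nat_lit 0) (p (nat_lit 0x8880987871a) (nat_lit 0) (p (nat_lit 0x8000000000800080907088a) (nat_lit 0) (p (nat_lit 0x8000000000800078886860a) (nat_lit 0) (p (nat_lit 0x10688060782)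 (nat_lit 0) (p (nat_lit 0x607858702) (nat_lit 0) (p (nat_lit 0x10587050482) (nat_lit 0) (p (nat_lit 0x506848402) (nat_lit 0) (p (nat_lit 0x16000c) (nat_lit 0) (p (nat_lit 0x50612) (nat_lit 0) (p (nat_lit 0x40592) (nat_lit 0) (p (nat_lit 0x40492) (nat_lit 0) (p (nat_lit 0x30412) (nat_lit 0) (p (nat_lit 0x30212) (nat_lit 0) (p (nat_lit 0x20192) (nat_lit 0) (p (nat_lit 0x20092) (nat_lit 0) (p (nat_lit 0x10012) (nat_lit 0) pn)))))))))))))))))))))))))))) :=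
  Cl.node (nat_lit 0x4c42a) (nat_lit 12) (by decide +kernel) (ClAll.succ (ClAll.succ (ClAll.succ (ClAll.succ (ClAll.succ (ClAll.succ (ClAll.succ (ClAll.succ (ClAll.succ (ClAll.succ (ClAll.succ (ClAll.succ ClAll.zero s779) s780) s781) s782) s783) s784) s785) s786) s787) s788) n241) s792)

def n282 : Cl (O (nat_lit 5)) (R (nat_lit 104465))
    (p (nat_lit 0x119) (nat_lit 1) (p (nat_lit 0xc9) (nat_lit 0) (p (nat_lit 0x89) (nat_lit 1) (p (nat_lit 0x109) (nat_lit 1) (p (nat_lit 0x101) (nat_lit 0) (p (nat_lit 0x111) (nat_lit 0) (p (nat_lit 0xd1) (nat_lit 1) (p (nat_lit 0x81) (nat_lit 0) (p (nat_lit 0x41) (nat_lit 1) (p (nat_lit 0x10a098b090a9a) (nat_lit 0) (p (nat_lit 0x9890a888a1a) (nat_lit 0) (p (nat_lit 0x109088a08079a) (nat_lit 0) (p (nat_lit 0x8880987871a) (nat_lit 0) (p (nat_lit 0x8000000000800080907088a) (nat_lit 0) (p (nat_lit 0x8000000000800078886860a) (nat_lit 0) (p (nat_lit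 0x10688060782) (nat_lit 0) (p (nat_lit 0x607858702) (nat_lit 0) (p (nat_lit 0x10587050482) (nat_lit 0) (p (nat_lit 0x506848402) (nat_lit 0) (p (nat_lit 0x16000c) (nat_lit 0) (p (nat_lit 0x50612) (nat_lit 0) (p (nat_lit 0x40592) (nat_lit 0) (p (nat_lit 0x40492) (nat_lit 0) (p (nat_lit 0x30412) (nat_lit 0) (p (nat_lit 0x30212) (nat_lit 0) (p (nat_lit 0x20192) (nat_lit 0) (p (nat_lit 0x20092) (nat_lit 0) (p (nat_lit 0x10012) (nat_lit 0) pn)))))))))))))))))))))))))))) :=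
  Cl.node (nat_lit 0x4c42a) (nat_lit 12) (by decide +kernel) (ClAll.succ (ClAll.succ (ClAll.succ (ClAll.succ (ClAll.succ (ClAll.succ (ClAll.succ (ClAll.succ (ClAll.succ (ClAll.succ (ClAll.succ (ClAll.succ ClAll.zero s793) s794) s795) s796) s797) s798) s799) s800) s801) s802) n242) s838)

def n283 : Cl (O (nat_lit 5)) (R (nat_lit 104465))
    (p (nat_lit 0x380c2) (nat_lit 0) (p (nat_lit 0x3cc2a) (nat_lit 2) (p (nat_lit 0xc9) (nat_lit 0) (p (nat_lit 0x89) (nat_lit 1) (p (nat_lit 0x101) (nat_lit 1) (p (nat_lit 0x111) (nat_lit 0) (p (nat_lit 0xd1) (nat_lit 1) (p (nat_lit 0x81) (nat_lit 0) (p (nat_lit 0x41) (nat_lit 1) (p (nat_lit 0x10a098b090a9a) (nat_lit 0) (p (nat_lit 0x9890a888a1a) (nat_lit 0) (p (nat_lit 0x109088a08079a) (nat_lit 0) (p (nat_lit 0x8880987871a) (nat_lit 0) (p (nat_lit 0x8000000000800080907088a) (nat_lit 0) (p (nat_lit 0x8000000000800078886860a) (nat_lit 0) (p (nat_lit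 0x10688060782) (nat_lit 0) (p (nat_lit 0x607858702) (nat_lit 0) (p (nat_lit 0x10587050482) (nat_lit 0) (p (nat_lit 0x506848402) (nat_lit 0) (p (nat_lit 0x16000c) (nat_lit 0) (p (nat_lit 0x50612) (nat_lit 0) (p (nat_lit 0x40592) (nat_lit 0) (p (nat_lit 0x40492) (nat_lit 0) (p (nat_lit 0x30412) (nat_lit 0) (p (nat_lit 0x30212) (nat_lit 0) (p (nat_lit 0x20192) (nat_lit 0) (p (nat_lit 0x20092) (nat_lit 0) (p (nat_lit 0x10012) (nat_lit 0) pn)))))))))))))))))))))))))))) :=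
  Cl.node (nat_lit 0xb000c) (nat_lit 2) (by decide +kernel) (ClAll.succ (ClAll.succ ClAll.zero n243) n244)

def n284 : Cl (O (nat_lit 5)) (R (nat_lit 104465))
    (p (nat_lit 0x380c2) (nat_lit 0) (p (nat_lit 0x3cc2a) (nat_lit 2) (p (nat_lit 0x109) (nat_lit 0) (p (nat_lit 0xc9) (nat_lit 1) (p (nat_lit 0x89) (nat_lit 1) (p (nat_lit 0x111) (nat_lit 1) (p (nat_lit 0xd1) (nat_lit 1) (p (nat_lit 0x81) (nat_lit 0) (p (nat_lit 0x41) (nat_lit 1) (p (nat_lit 0x10a098b090a9a) (nat_lit 0) (p (nat_lit 0x9890a888a1a) (nat_lit 0) (p (nat_lit 0x109088a08079a) (nat_lit 0) (p (nat_lit 0x8880987871a) (nat_lit 0) (p (nat_lit 0x8000000000800080907088a) (nat_lit 0) (p (nat_lit 0x8000000000800078886860a) (nat_lit 0) (p (nat_lit 0x10688060782) (nat_lit 0) (p (nat_lit 0x607858702) (nat_lit 0) (p (nat_lit 0x10587050482) (nat_lit 0) (p (nat_lit 0x506848402) (nat_lit 0) (p (nat_lit 0x16000c) (nat_lit 0)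 (p (nat_lit 0x50612) (nat_lit 0) (p (nat_lit 0x40592) (nat_lit 0) (p (nat_lit 0x40492) (nat_lit 0) (p (nat_lit 0x30412) (nat_lit 0) (p (nat_lit 0x30212) (nat_lit 0) (p (nat_lit 0x20192) (nat_lit 0) (p (nat_lit 0x20092) (nat_lit 0) (p (nat_lit 0x10012) (nat_lit 0) pn)))))))))))))))))))))))))))) :=
  Cl.node (nat_lit 0xb000c) (nat_lit 2) (by decide +kernel) (ClAll.succ (ClAll.succ ClAll.zero s875) s876)

def n285 : Cl (O (nat_lit 5)) (R (nat_lit 104465))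
    (p (nat_lit 0x3c4aa) (nat_lit 7) (p (nat_lit 0xd1) (nat_lit 1) (p (nat_lit 0x111) (nat_lit 1) (p (nat_lit 0x109) (nat_lit 0) (p (nat_lit 0x101) (nat_lit 0) (p (nat_lit 0x119) (nat_lit 0) (p (nat_lit 0xc1) (nat_lit 0) (p (nat_lit 0x81) (nat_lit 1) (p (nat_lit 0x41) (nat_lit 1) (p (nat_lit 0x10a098b090a9a) (nat_lit 0) (p (nat_lit 0x9890a888a1a) (nat_lit 0) (p (nat_lit 0x109088a08079a) (nat_lit 0) (p (nat_lit 0x8880987871a) (nat_lit 0) (p (nat_lit 0x8000000000800080907088a) (nat_lit 0) (p (nat_lit 0x8000000000800078886860a) (nat_lit 0) (p (nat_lit 0x10688060782) (nat_lit 0) (p (nat_lit 0x607858702) (nat_lit 0) (p (nat_lit 0x10587050482) (nat_lit 0) (p (nat_lit 0x506848402) (nat_lit 0) (p (nat_lit 0x16000c) (nat_lit 0) (p (nat_lit 0x50612) (nat_lit 0) (p (nat_lit 0x40592) (nat_lit 0) (p (nat_lit 0x40492) (nat_lit 0) (p (nat_lit 0x30412) (nat_lit 0) (p (nat_lit 0x30212) (nat_lit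 0) (p (nat_lit 0x20192) (nat_lit 0) (p (nat_lit 0x20092) (nat_lit 0) (p (nat_lit 0x10012) (nat_lit 0) pn)))))))))))))))))))))))))))) :=
  Cl.node (nat_lit 0x380c2) (nat_lit 2) (by decide +kernel) (ClAll.succ (ClAll.succ ClAll.zero s896) s897)

def n286 : Cl (O (nat_lit 5)) (R (nat_lit 104465))
    (p (nat_lit 0x380c2) (nat_lit 0) (p (nat_lit 0x44c2a) (nat_lit 0) (p (nat_lit 0xd1) (nat_lit 0) (p (nat_lit 0xc9) (nat_lit 0) (p (nat_lit 0x101) (nat_lit 1) (p (nat_lit 0x119) (nat_lit 0) (p (nat_lit 0xc1) (nat_lit 0) (p (nat_lit 0x81) (nat_lit 1) (p (nat_lit 0x41) (nat_lit 1) (p (nat_lit 0x10a098b090a9a) (nat_lit 0) (p (nat_lit 0x9890a888a1a) (nat_lit 0) (p (nat_lit 0x109088a08079a) (nat_lit 0) (p (nat_lit 0x8880987871a) (nat_lit 0) (p (nat_lit 0x8000000000800080907088a) (nat_lit 0) (p (nat_lit 0x8000000000800078886860a) (nat_lit 0) (p (nat_lit 0x10688060782) (nat_lit 0) (p (nat_lit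 0x607858702) (nat_lit 0) (p (nat_lit 0x10587050482) (nat_lit 0) (p (nat_lit 0x506848402) (nat_lit 0) (p (nat_lit 0x16000c) (nat_lit 0) (p (nat_lit 0x50612) (nat_lit 0) (p (nat_lit 0x40592) (nat_lit 0) (p (nat_lit 0x40492) (nat_lit 0) (p (nat_lit 0x30412) (nat_lit 0) (p (nat_lit 0x30212) (nat_lit 0) (p (nat_lit 0x20192) (nat_lit 0) (p (nat_lit 0x20092) (nat_lit 0) (p (nat_lit 0x10012) (nat_lit 0) pn)))))))))))))))))))))))))))) :=
  Cl.node (nat_lit 0xb000c) (nat_lit 2) (by decide +kernel) (ClAll.succ (ClAll.succ ClAll.zero s916) s917)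

def n287 : Cl (O (nat_lit 5)) (R (nat_lit 104465))
    (p (nat_lit 0x380c2) (nat_lit 0) (p (nat_lit 0x44c2a) (nat_lit 0) (p (nat_lit 0x111) (nat_lit 0) (p (nat_lit 0x109) (nat_lit 0) (p (nat_lit 0xc9) (nat_lit 1) (p (nat_lit 0x119) (nat_lit 1) (p (nat_lit 0xc1) (nat_lit 0) (p (nat_lit 0x81) (nat_lit 1) (p (nat_lit 0x41) (nat_lit 1) (p (nat_lit 0x10a098b090a9a) (nat_lit 0) (p (nat_lit 0x9890a888a1a) (nat_lit 0) (p (nat_lit 0x109088a08079a) (nat_lit 0) (p (nat_lit 0x8880987871a) (nat_lit 0) (p (nat_lit 0x8000000000800080907088a) (nat_lit 0) (p (nat_lit 0x8000000000800078886860a) (nat_lit 0) (p (nat_lit 0x10688060782) (nat_lit 0) (p (nat_lit 0x607858702) (nat_lit 0) (p (nat_lit 0x10587050482) (nat_lit 0) (p (nat_lit 0x506848402) (nat_lit 0) (p (nat_lit 0x16000c) (nat_lit 0) (p (nat_lit 0x50612) (nat_lit 0) (p (nat_lit 0x40592) (nat_lit 0) (p (nat_lit 0x40492) (nat_lit 0) (p (nat_lit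 0x30412) (nat_lit 0) (p (nat_lit 0x30212) (nat_lit 0) (p (nat_lit 0x20192) (nat_lit 0) (p (nat_lit 0x20092) (nat_lit 0) (p (nat_lit 0x10012) (nat_lit 0) pn)))))))))))))))))))))))))))) :=
  Cl.node (nat_lit 0x41) (nat_lit 2) (by decide +kernel) (ClAll.succ (ClAll.succ ClAll.zero n245) s946)

def n288 : Cl (O (nat_lit 5)) (R (nat_lit 104465))
    (p (nat_lit 0x81) (nat_lit 0) (p (nat_lit 0xc9) (nat_lit 1) (p (nat_lit 0x109) (nat_lit 1) (p (nat_lit 0x101) (nat_lit 0) (p (nat_lit 0x119) (nat_lit 0) (p (nat_lit 0xd1) (nat_lit 0) (p (nat_lit 0x89) (nat_lit 0) (p (nat_lit 0x41) (nat_lit 0) (p (nat_lit 0x10a098b090a9a) (nat_lit 0) (p (nat_lit 0x9890a888a1a) (nat_lit 0) (p (nat_lit 0x109088a08079a) (nat_lit 0) (p (nat_lit 0x8880987871a) (nat_lit 0) (p (nat_lit 0x8000000000800080907088a) (nat_lit 0) (p (nat_lit 0x8000000000800078886860a) (nat_lit 0) (p (nat_lit 0x10688060782) (nat_lit 0)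 (p (nat_lit 0x607858702) (nat_lit 0) (p (nat_lit 0x10587050482) (nat_lit 0) (p (nat_lit 0x506848402) (nat_lit 0) (p (nat_lit 0x16000c) (nat_lit 0) (p (nat_lit 0x50612) (nat_lit 0) (p (nat_lit 0x40592) (nat_lit 0) (p (nat_lit 0x40492) (nat_lit 0) (p (nat_lit 0x30412) (nat_lit 0) (p (nat_lit 0x30212) (nat_lit 0) (p (nat_lit 0x20192) (nat_lit 0) (p (nat_lit 0x20092) (nat_lit 0) (p (nat_lit 0x10012) (nat_lit 0) pn))))))))))))))))))))))))))) :=
  Cl.node (nat_lit 0x3cc2a) (nat_lit 12) (by decide +kernel) (ClAll.succ (ClAll.succ (ClAll.succ (ClAll.succ (ClAll.succ (ClAll.succ (ClAll.succ (ClAll.succ (ClAll.succ (ClAll.succ (ClAll.succ (ClAll.succ ClAll.zero s2) s3) s4) s5) s6) s7) s8) s9) s10) s11) s12) s13)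

def n289 : Cl (O (nat_lit 5)) (R (nat_lit 104465))
    (p (nat_lit 0x81) (nat_lit 1) (p (nat_lit 0xc9) (nat_lit 1) (p (nat_lit 0x109) (nat_lit 1) (p (nat_lit 0x101) (nat_lit 0) (p (nat_lit 0x119) (nat_lit 0) (p (nat_lit 0xd1) (nat_lit 0) (p (nat_lit 0x89) (nat_lit 0) (p (nat_lit 0x41) (nat_lit 0) (p (nat_lit 0x10a098b090a9a) (nat_lit 0) (p (nat_lit 0x9890a888a1a) (nat_lit 0) (p (nat_lit 0x109088a08079a) (nat_lit 0) (p (nat_lit 0x8880987871a) (nat_lit 0) (p (nat_lit 0x8000000000800080907088a) (nat_lit 0) (p (nat_lit 0x8000000000800078886860a) (nat_lit 0) (p (nat_lit 0x10688060782) (nat_lit 0) (p (nat_lit 0x607858702) (nat_lit 0) (p (nat_lit 0x10587050482) (nat_lit 0) (p (nat_lit 0x506848402) (nat_lit 0) (p (nat_lit 0x16000c) (nat_lit 0) (p (nat_lit 0x50612) (nat_lit 0) (p (nat_lit 0x40592) (nat_lit 0) (p (nat_lit 0x40492) (nat_lit 0) (p (nat_lit 0x30412) (nat_lit 0) (p (nat_lit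 0x30212) (nat_lit 0) (p (nat_lit 0x20192) (nat_lit 0) (p (nat_lit 0x20092) (nat_lit 0) (p (nat_lit 0x10012) (nat_lit 0) pn))))))))))))))))))))))))))) :=
  Cl.node (nat_lit 0x444aa) (nat_lit 12) (by decide +kernel) (ClAll.succ (ClAll.succ (ClAll.succ (ClAll.succ (ClAll.succ (ClAll.succ (ClAll.succ (ClAll.succ (ClAll.succ (ClAll.succ (ClAll.succ (ClAll.succ ClAll.zero s14) s15) s16) s17) s18) s19) s20) n246) s29) s30) s31) s32)

def n290 : Cl (O (nat_lit 5)) (R (nat_lit 104465))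
    (p (nat_lit 0x111) (nat_lit 0) (p (nat_lit 0xc9) (nat_lit 0) (p (nat_lit 0x81) (nat_lit 0) (p (nat_lit 0x101) (nat_lit 1) (p (nat_lit 0x119) (nat_lit 0) (p (nat_lit 0xd1) (nat_lit 0) (p (nat_lit 0x89) (nat_lit 0) (p (nat_lit 0x41) (nat_lit 0) (p (nat_lit 0x10a098b090a9a) (nat_lit 0) (p (nat_lit 0x9890a888a1a) (nat_lit 0) (p (nat_lit 0x109088a08079a) (nat_lit 0) (p (nat_lit 0x8880987871a) (nat_lit 0) (p (nat_lit 0x8000000000800080907088a) (nat_lit 0) (p (nat_lit 0x8000000000800078886860a) (nat_lit 0) (p (nat_lit 0x10688060782) (nat_lit 0) (p (nat_lit 0x607858702) (nat_lit 0) (p (nat_lit 0x10587050482) (nat_lit 0) (p (nat_lit 0x506848402) (nat_lit 0) (p (nat_lit 0x16000c) (nat_lit 0) (p (nat_lit 0x50612) (nat_lit 0) (p (nat_lit 0x40592) (nat_lit 0) (p (nat_lit 0x40492) (nat_lit 0) (p (nat_lit 0x30412) (nat_lit 0) (p (nat_lit 0x30212) (nat_lit 0) (p (nat_lit 0x20192) (nat_lit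 0) (p (nat_lit 0x20092) (nat_lit 0) (p (nat_lit 0x10012) (nat_lit 0) pn))))))))))))))))))))))))))) :=
  Cl.node (nat_lit 0x4c42a) (nat_lit 12) (by decide +kernel) (ClAll.succ (ClAll.succ (ClAll.succ (ClAll.succ (ClAll.succ (ClAll.succ (ClAll.succ (ClAll.succ (ClAll.succ (ClAll.succ (ClAll.succ (ClAll.succ ClAll.zero s33) s34) s35) s36) s37) s38) s39) s40) s41) s42) n247) s45)

def n291 : Cl (O (nat_lit 5)) (R (nat_lit 104465))
    (p (nat_lit 0x111) (nat_lit 0) (p (nat_lit 0xc9) (nat_lit 1) (p (nat_lit 0x81) (nat_lit 0) (p (nat_lit 0x101) (nat_lit 1) (p (nat_lit 0x119) (nat_lit 0) (p (nat_lit 0xd1) (nat_lit 0) (p (nat_lit 0x89) (nat_lit 0) (p (nat_lit 0x41) (nat_lit 0) (p (nat_lit 0x10a098b090a9a) (nat_lit 0) (p (nat_lit 0x9890a888a1a) (nat_lit 0) (p (nat_lit 0x109088a08079a) (nat_lit 0) (p (nat_lit 0x8880987871a) (nat_lit 0) (p (nat_lit 0x8000000000800080907088a) (nat_lit 0)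 (p (nat_lit 0x8000000000800078886860a) (nat_lit 0) (p (nat_lit 0x10688060782) (nat_lit 0) (p (nat_lit 0x607858702) (nat_lit 0) (p (nat_lit 0x10587050482) (nat_lit 0) (p (nat_lit 0x506848402) (nat_lit 0) (p (nat_lit 0x16000c) (nat_lit 0) (p (nat_lit 0x50612) (nat_lit 0) (p (nat_lit 0x40592) (nat_lit 0) (p (nat_lit 0x40492) (nat_lit 0) (p (nat_lit 0x30412) (nat_lit 0) (p (nat_lit 0x30212) (nat_lit 0) (p (nat_lit 0x20192) (nat_lit 0) (p (nat_lit 0x20092) (nat_lit 0) (p (nat_lit 0x10012) (nat_lit 0) pn))))))))))))))))))))))))))) :=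
  Cl.node (nat_lit 0x444aa) (nat_lit 12) (by decide +kernel) (ClAll.succ (ClAll.succ (ClAll.succ (ClAll.succ (ClAll.succ (ClAll.succ (ClAll.succ (ClAll.succ (ClAll.succ (ClAll.succ (ClAll.succ (ClAll.succ ClAll.zero s47) s48) s49) s50) s51) s52) s53) n248) s79) s80) s81) s82)

def n292 : Cl (O (nat_lit 5)) (R (nat_lit 104465))
    (p (nat_lit 0x111) (nat_lit 1) (p (nat_lit 0xc9) (nat_lit 1) (p (nat_lit 0x81) (nat_lit 0) (p (nat_lit 0x101) (nat_lit 1) (p (nat_lit 0x119) (nat_lit 0) (p (nat_lit 0xd1) (nat_lit 0) (p (nat_lit 0x89) (nat_lit 0) (p (nat_lit 0x41) (nat_lit 0) (p (nat_lit 0x10a098b090a9a) (nat_lit 0) (p (nat_lit 0x9890a888a1a) (nat_lit 0) (p (nat_lit 0x109088a08079a) (nat_lit 0) (p (nat_lit 0x8880987871a) (nat_lit 0) (p (nat_lit 0x8000000000800080907088a) (nat_lit 0) (p (nat_lit 0x8000000000800078886860a) (nat_lit 0) (p (nat_lit 0x10688060782) (nat_lit 0) (p (nat_lit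 0x607858702) (nat_lit 0) (p (nat_lit 0x10587050482) (nat_lit 0) (p (nat_lit 0x506848402) (nat_lit 0) (p (nat_lit 0x16000c) (nat_lit 0) (p (nat_lit 0x50612) (nat_lit 0) (p (nat_lit 0x40592) (nat_lit 0) (p (nat_lit 0x40492) (nat_lit 0) (p (nat_lit 0x30412) (nat_lit 0) (p (nat_lit 0x30212) (nat_lit 0) (p (nat_lit 0x20192) (nat_lit 0) (p (nat_lit 0x20092) (nat_lit 0) (p (nat_lit 0x10012) (nat_lit 0) pn))))))))))))))))))))))))))) :=
  Cl.node (nat_lit 0x3cc2a) (nat_lit 12) (by decide +kernel) (ClAll.succ (ClAll.succ (ClAll.succ (ClAll.succ (ClAll.succ (ClAll.succ (ClAll.succ (ClAll.succ (ClAll.succ (ClAll.succ (ClAll.succ (ClAll.succ ClAll.zero s83) s84) n249) s93) s94) s95) s96) s97) s98) s99) s100) s101)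

def n293 : Cl (O (nat_lit 5)) (R (nat_lit 104465))
    (p (nat_lit 0xc9) (nat_lit 0) (p (nat_lit 0xc1) (nat_lit 0) (p (nat_lit 0x81) (nat_lit 1) (p (nat_lit 0x101) (nat_lit 1) (p (nat_lit 0x119) (nat_lit 0) (p (nat_lit 0xd1) (nat_lit 0) (p (nat_lit 0x89) (nat_lit 0) (p (nat_lit 0x41) (nat_lit 0) (p (nat_lit 0x10a098b090a9a) (nat_lit 0) (p (nat_lit 0x9890a888a1a) (nat_lit 0) (p (nat_lit 0x109088a08079a) (nat_lit 0) (p (nat_lit 0x8880987871a) (nat_lit 0) (p (nat_lit 0x8000000000800080907088a) (nat_lit 0) (p (nat_lit 0x8000000000800078886860a) (nat_lit 0) (p (nat_lit 0x10688060782) (nat_lit 0) (p (nat_lit 0x607858702) (nat_lit 0) (p (nat_lit 0x10587050482) (nat_lit 0) (p (nat_lit 0x506848402) (nat_lit 0) (p (nat_lit 0x16000c) (nat_lit 0) (p (nat_lit 0x50612) (nat_lit 0) (p (nat_lit 0x40592) (nat_lit 0) (p (nat_lit 0x40492) (nat_lit 0) (p (nat_lit 0x30412) (nat_lit 0) (p (nat_lit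 0x30212) (nat_lit 0) (p (nat_lit 0x20192) (nat_lit 0) (p (nat_lit 0x20092) (nat_lit 0) (p (nat_lit 0x10012) (nat_lit 0) pn))))))))))))))))))))))))))) :=
  Cl.node (nat_lit 0x4c42a) (nat_lit 12) (by decide +kernel) (ClAll.succ (ClAll.succ (ClAll.succ (ClAll.succ (ClAll.succ (ClAll.succ (ClAll.succ (ClAll.succ (ClAll.succ (ClAll.succ (ClAll.succ (ClAll.succ ClAll.zero s102) s103) s104) s105) s106) s107) s108) s109) s110) s111) n250) s114)

def n294 : Cl (O (nat_lit 5)) (R (nat_lit 104465))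
    (p (nat_lit 0xc9) (nat_lit 1) (p (nat_lit 0xc1) (nat_lit 0) (p (nat_lit 0x81) (nat_lit 1) (p (nat_lit 0x101) (nat_lit 1) (p (nat_lit 0x119) (nat_lit 0) (p (nat_lit 0xd1) (nat_lit 0) (p (nat_lit 0x89) (nat_lit 0) (p (nat_lit 0x41) (nat_lit 0) (p (nat_lit 0x10a098b090a9a) (nat_lit 0) (p (nat_lit 0x9890a888a1a) (nat_lit 0) (p (nat_lit 0x109088a08079a) (nat_lit 0) (p (nat_lit 0x8880987871a) (nat_lit 0) (p (nat_lit 0x8000000000800080907088a) (nat_lit 0) (p (nat_lit 0x8000000000800078886860a) (nat_lit 0) (p (nat_lit 0x10688060782) (nat_lit 0) (p (nat_lit 0x607858702) (nat_lit 0) (p (nat_lit 0x10587050482) (nat_lit 0) (p (nat_lit 0x506848402) (nat_lit 0) (p (nat_lit 0x16000c) (nat_lit 0) (p (nat_lit 0x50612) (nat_lit 0) (p (nat_lit 0x40592) (nat_lit 0) (p (nat_lit 0x40492) (nat_lit 0) (p (nat_lit 0x30412) (nat_lit 0) (p (nat_lit 0x30212) (nat_lit 0) (p (nat_lit 0x20192) (nat_lit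 0) (p (nat_lit 0x20092) (nat_lit 0) (p (nat_lit 0x10012) (nat_lit 0) pn))))))))))))))))))))))))))) :=
  Cl.node (nat_lit 0x444aa) (nat_lit 12) (by decide +kernel) (ClAll.succ (ClAll.succ (ClAll.succ (ClAll.succ (ClAll.succ (ClAll.succ (ClAll.succ (ClAll.succ (ClAll.succ (ClAll.succ (ClAll.succ (ClAll.succ ClAll.zero s115) s116) s117) s118) s119) s120) s121) n251) s126) s127) s128) s129)

def n295 : Cl (O (nat_lit 5)) (R (nat_lit 104465))
    (p (nat_lit 0x3cc2a) (nat_lit 2) (p (nat_lit 0x109) (nat_lit 1) (p (nat_lit 0xc9) (nat_lit 1) (p (nat_lit 0xc1) (nat_lit 0) (p (nat_lit 0x119) (nat_lit 1) (p (nat_lit 0xd1) (nat_lit 0) (p (nat_lit 0x89) (nat_lit 0) (p (nat_lit 0x41) (nat_lit 0) (p (nat_lit 0x10a098b090a9a) (nat_lit 0) (p (nat_lit 0x9890a888a1a) (nat_lit 0) (p (nat_lit 0x109088a08079a) (nat_lit 0) (p (nat_lit 0x8880987871a) (nat_lit 0) (p (nat_lit 0x8000000000800080907088a)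 (nat_lit 0) (p (nat_lit 0x8000000000800078886860a) (nat_lit 0) (p (nat_lit 0x10688060782) (nat_lit 0) (p (nat_lit 0x607858702) (nat_lit 0) (p (nat_lit 0x10587050482) (nat_lit 0) (p (nat_lit 0x506848402) (nat_lit 0) (p (nat_lit 0x16000c) (nat_lit 0) (p (nat_lit 0x50612) (nat_lit 0) (p (nat_lit 0x40592) (nat_lit 0) (p (nat_lit 0x40492) (nat_lit 0) (p (nat_lit 0x30412) (nat_lit 0) (p (nat_lit 0x30212) (nat_lit 0) (p (nat_lit 0x20192) (nat_lit 0) (p (nat_lit 0x20092) (nat_lit 0) (p (nat_lit 0x10012) (nat_lit 0) pn))))))))))))))))))))))))))) :=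
  Cl.node (nat_lit 0x380c2) (nat_lit 1) (by decide +kernel) (ClAll.succ ClAll.zero n252)

def n296 : Cl (O (nat_lit 5)) (R (nat_lit 104465))
    (p (nat_lit 0x3cc2a) (nat_lit 2) (p (nat_lit 0x109) (nat_lit 1) (p (nat_lit 0x81) (nat_lit 0) (p (nat_lit 0xc1) (nat_lit 1) (p (nat_lit 0x119) (nat_lit 1) (p (nat_lit 0xd1) (nat_lit 0) (p (nat_lit 0x89) (nat_lit 0) (p (nat_lit 0x41) (nat_lit 0) (p (nat_lit 0x10a098b090a9a) (nat_lit 0) (p (nat_lit 0x9890a888a1a) (nat_lit 0) (p (nat_lit 0x109088a08079a) (nat_lit 0) (p (nat_lit 0x8880987871a) (nat_lit 0) (p (nat_lit 0x8000000000800080907088a) (nat_lit 0) (p (nat_lit 0x8000000000800078886860a) (nat_lit 0) (p (nat_lit 0x10688060782) (nat_lit 0) (p (nat_lit 0x607858702) (nat_lit 0) (p (nat_lit 0x10587050482) (nat_lit 0) (p (nat_lit 0x506848402) (nat_lit 0) (p (nat_lit 0x16000c) (nat_lit 0) (p (nat_lit 0x50612) (nat_lit 0) (p (nat_lit 0x40592)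 (nat_lit 0) (p (nat_lit 0x40492) (nat_lit 0) (p (nat_lit 0x30412) (nat_lit 0) (p (nat_lit 0x30212) (nat_lit 0) (p (nat_lit 0x20192) (nat_lit 0) (p (nat_lit 0x20092) (nat_lit 0) (p (nat_lit 0x10012) (nat_lit 0) pn))))))))))))))))))))))))))) :=
  Cl.node (nat_lit 0x380c2) (nat_lit 1) (by decide +kernel) (ClAll.succ ClAll.zero n253)

def n297 : Cl (O (nat_lit 5)) (R (nat_lit 104465))
    (p (nat_lit 0x109) (nat_lit 0) (p (nat_lit 0x101) (nat_lit 0) (p (nat_lit 0x81) (nat_lit 1) (p (nat_lit 0xc1) (nat_lit 1) (p (nat_lit 0x119) (nat_lit 1) (p (nat_lit 0xd1) (nat_lit 0) (p (nat_lit 0x89) (nat_lit 0) (p (nat_lit 0x41) (nat_lit 0) (p (nat_lit 0x10a098b090a9a) (nat_lit 0) (p (nat_lit 0x9890a888a1a) (nat_lit 0) (p (nat_lit 0x109088a08079a) (nat_lit 0) (p (nat_lit 0x8880987871a) (nat_lit 0) (p (nat_lit 0x8000000000800080907088a) (nat_lit 0) (p (nat_lit 0x8000000000800078886860a) (nat_lit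 0) (p (nat_lit 0x10688060782) (nat_lit 0) (p (nat_lit 0x607858702) (nat_lit 0) (p (nat_lit 0x10587050482) (nat_lit 0) (p (nat_lit 0x506848402) (nat_lit 0) (p (nat_lit 0x16000c) (nat_lit 0) (p (nat_lit 0x50612) (nat_lit 0) (p (nat_lit 0x40592) (nat_lit 0) (p (nat_lit 0x40492) (nat_lit 0) (p (nat_lit 0x30412) (nat_lit 0) (p (nat_lit 0x30212) (nat_lit 0) (p (nat_lit 0x20192) (nat_lit 0) (p (nat_lit 0x20092) (nat_lit 0) (p (nat_lit 0x10012) (nat_lit 0) pn))))))))))))))))))))))))))) :=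
  Cl.node (nat_lit 0x44c2a) (nat_lit 12) (by decide +kernel) (ClAll.succ (ClAll.succ (ClAll.succ (ClAll.succ (ClAll.succ (ClAll.succ (ClAll.succ (ClAll.succ (ClAll.succ (ClAll.succ (ClAll.succ (ClAll.succ ClAll.zero n254) s194) s195) s196) s197) s198) s199) s200) s201) s202) s203) s204)

def n298 : Cl (O (nat_lit 5)) (R (nat_lit 104465))
    (p (nat_lit 0x109) (nat_lit 1) (p (nat_lit 0x101) (nat_lit 0) (p (nat_lit 0x81) (nat_lit 1) (p (nat_lit 0xc1) (nat_lit 1) (p (nat_lit 0x119) (nat_lit 1) (p (nat_lit 0xd1) (nat_lit 0) (p (nat_lit 0x89) (nat_lit 0) (p (nat_lit 0x41) (nat_lit 0) (p (nat_lit 0x10a098b090a9a) (nat_lit 0) (p (nat_lit 0x9890a888a1a) (nat_lit 0) (p (nat_lit 0x109088a08079a) (nat_lit 0) (p (nat_lit 0x8880987871a) (nat_lit 0) (p (nat_lit 0x8000000000800080907088a) (nat_lit 0) (p (nat_lit 0x8000000000800078886860a) (nat_lit 0) (p (nat_lit 0x10688060782) (nat_lit 0) (p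 (nat_lit 0x607858702) (nat_lit 0) (p (nat_lit 0x10587050482) (nat_lit 0) (p (nat_lit 0x506848402) (nat_lit 0) (p (nat_lit 0x16000c) (nat_lit 0) (p (nat_lit 0x50612) (nat_lit 0) (p (nat_lit 0x40592) (nat_lit 0) (p (nat_lit 0x40492) (nat_lit 0) (p (nat_lit 0x30412) (nat_lit 0) (p (nat_lit 0x30212) (nat_lit 0) (p (nat_lit 0x20192) (nat_lit 0) (p (nat_lit 0x20092) (nat_lit 0) (p (nat_lit 0x10012) (nat_lit 0) pn))))))))))))))))))))))))))) :=
  Cl.node (nat_lit 0x444aa) (nat_lit 12) (by decide +kernel) (ClAll.succ (ClAll.succ (ClAll.succ (ClAll.succ (ClAll.succ (ClAll.succ (ClAll.succ (ClAll.succ (ClAll.succ (ClAll.succ (ClAll.succ (ClAll.succ ClAll.zero s205) s206) s207) s208) s209) s210) s211) n255) s223) s224) s225) s226)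

def n299 : Cl (O (nat_lit 5)) (R (nat_lit 104465))
    (p (nat_lit 0x200004) (nat_lit 0) (p (nat_lit 0xc1) (nat_lit 1) (p (nat_lit 0x109) (nat_lit 1) (p (nat_lit 0x101) (nat_lit 0) (p (nat_lit 0x111) (nat_lit 0) (p (nat_lit 0xd1) (nat_lit 1) (p (nat_lit 0x89) (nat_lit 0) (p (nat_lit 0x41) (nat_lit 0) (p (nat_lit 0x10a098b090a9a) (nat_lit 0) (p (nat_lit 0x9890a888a1a) (nat_lit 0) (p (nat_lit 0x109088a08079a) (nat_lit 0) (p (nat_lit 0x8880987871a) (nat_lit 0) (p (nat_lit 0x8000000000800080907088a) (nat_lit 0) (p (nat_lit 0x8000000000800078886860a) (nat_lit 0) (p (nat_lit 0x10688060782) (nat_lit 0) (p (nat_lit 0x607858702) (nat_lit 0) (p (nat_lit 0x10587050482) (nat_lit 0) (p (nat_lit 0x506848402) (nat_lit 0) (p (nat_lit 0x16000c) (nat_lit 0) (p (nat_lit 0x50612) (nat_lit 0) (p (nat_lit 0x40592) (nat_lit 0) (p (nat_lit 0x40492) (nat_lit 0) (p (nat_lit 0x30412) (nat_lit 0) (p (nat_lit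 0x30212) (nat_lit 0) (p (nat_lit 0x20192) (nat_lit 0) (p (nat_lit 0x20092) (nat_lit 0) (p (nat_lit 0x10012) (nat_lit 0) pn))))))))))))))))))))))))))) :=
  Cl.node (nat_lit 0x200014) (nat_lit 2) (by decide +kernel) (ClAll.succ (ClAll.succ ClAll.zero n256) s254)

def n300 : Cl (O (nat_lit 5)) (R (nat_lit 104465))
    (p (nat_lit 0x200004) (nat_lit 0) (p (nat_lit 0x119) (nat_lit 0) (p (nat_lit 0x81) (nat_lit 0) (p (nat_lit 0x101) (nat_lit 1) (p (nat_lit 0x111) (nat_lit 0) (p (nat_lit 0xd1) (nat_lit 1) (p (nat_lit 0x89) (nat_lit 0) (p (nat_lit 0x41) (nat_lit 0) (p (nat_lit 0x10a098b090a9a) (nat_lit 0) (p (nat_lit 0x9890a888a1a) (nat_lit 0) (p (nat_lit 0x109088a08079a) (nat_lit 0) (p (nat_lit 0x8880987871a) (nat_lit 0) (p (nat_lit 0x8000000000800080907088a) (nat_lit 0) (p (nat_lit 0x8000000000800078886860a) (nat_lit 0) (p (nat_lit 0x10688060782) (nat_lit 0) (p (nat_lit 0x607858702)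 (nat_lit 0) (p (nat_lit 0x10587050482) (nat_lit 0) (p (nat_lit 0x506848402) (nat_lit 0) (p (nat_lit 0x16000c) (nat_lit 0) (p (nat_lit 0x50612) (nat_lit 0) (p (nat_lit 0x40592) (nat_lit 0) (p (nat_lit 0x40492) (nat_lit 0) (p (nat_lit 0x30412) (nat_lit 0) (p (nat_lit 0x30212) (nat_lit 0) (p (nat_lit 0x20192) (nat_lit 0) (p (nat_lit 0x20092) (nat_lit 0) (p (nat_lit 0x10012) (nat_lit 0) pn))))))))))))))))))))))))))) :=
  Cl.node (nat_lit 0x200014) (nat_lit 2) (by decide +kernel) (ClAll.succ (ClAll.succ ClAll.zero n257) s274)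

def n301 : Cl (O (nat_lit 5)) (R (nat_lit 104465))
    (p (nat_lit 0x119) (nat_lit 0) (p (nat_lit 0xc1) (nat_lit 0) (p (nat_lit 0x81) (nat_lit 1) (p (nat_lit 0x101) (nat_lit 1) (p (nat_lit 0x111) (nat_lit 0) (p (nat_lit 0xd1) (nat_lit 1) (p (nat_lit 0x89) (nat_lit 0) (p (nat_lit 0x41) (nat_lit 0) (p (nat_lit 0x10a098b090a9a) (nat_lit 0) (p (nat_lit 0x9890a888a1a) (nat_lit 0) (p (nat_lit 0x109088a08079a) (nat_lit 0) (p (nat_lit 0x8880987871a) (nat_lit 0) (p (nat_lit 0x8000000000800080907088a) (nat_lit 0) (p (nat_lit 0x8000000000800078886860a) (nat_lit 0) (p (nat_lit 0x10688060782) (nat_lit 0) (p (nat_lit 0x607858702) (nat_lit 0) (p (nat_lit 0x10587050482) (nat_lit 0) (p (nat_lit 0x506848402) (nat_lit 0) (p (nat_lit 0x16000c) (nat_lit 0) (p (nat_lit 0x50612) (nat_lit 0) (p (nat_lit 0x40592) (nat_lit 0) (p (nat_lit 0x40492) (nat_lit 0) (p (nat_lit 0x30412) (nat_lit 0) (p (nat_lit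 0x30212) (nat_lit 0) (p (nat_lit 0x20192) (nat_lit 0) (p (nat_lit 0x20092) (nat_lit 0) (p (nat_lit 0x10012) (nat_lit 0) pn))))))))))))))))))))))))))) :=
  Cl.node (nat_lit 0x444aa) (nat_lit 12) (by decide +kernel) (ClAll.succ (ClAll.succ (ClAll.succ (ClAll.succ (ClAll.succ (ClAll.succ (ClAll.succ (ClAll.succ (ClAll.succ (ClAll.succ (ClAll.succ (ClAll.succ ClAll.zero s288) s289) s290) s291) s292) s293) s294) n258) s318) s319) s320) s321)

def n302 : Cl (O (nat_lit 5)) (R (nat_lit 104465))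
    (p (nat_lit 0x119) (nat_lit 1) (p (nat_lit 0xc1) (nat_lit 0) (p (nat_lit 0x81) (nat_lit 1) (p (nat_lit 0x101) (nat_lit 1) (p (nat_lit 0x111) (nat_lit 0) (p (nat_lit 0xd1) (nat_lit 1) (p (nat_lit 0x89) (nat_lit 0) (p (nat_lit 0x41) (nat_lit 0) (p (nat_lit 0x10a098b090a9a) (nat_lit 0) (p (nat_lit 0x9890a888a1a) (nat_lit 0) (p (nat_lit 0x109088a08079a) (nat_lit 0) (p (nat_lit 0x8880987871a) (nat_lit 0) (p (nat_lit 0x8000000000800080907088a) (nat_lit 0) (p (nat_lit 0x8000000000800078886860a) (nat_lit 0) (p (nat_lit 0x10688060782) (nat_lit 0) (p (nat_lit 0x607858702) (nat_lit 0) (p (nat_lit 0x10587050482) (nat_lit 0) (p (nat_lit 0x506848402) (nat_lit 0) (p (nat_lit 0x16000c) (nat_lit 0) (p (nat_lit 0x50612) (nat_lit 0) (p (nat_lit 0x40592) (nat_lit 0) (p (nat_lit 0x40492) (nat_lit 0) (p (nat_lit 0x30412) (nat_lit 0) (p (nat_lit 0x30212) (nat_lit 0) (p (nat_lit 0x20192) (nat_lit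 0) (p (nat_lit 0x20092) (nat_lit 0) (p (nat_lit 0x10012) (nat_lit 0) pn))))))))))))))))))))))))))) :=
  Cl.node (nat_lit 0x3cc2a) (nat_lit 12) (by decide +kernel) (ClAll.succ (ClAll.succ (ClAll.succ (ClAll.succ (ClAll.succ (ClAll.succ (ClAll.succ (ClAll.succ (ClAll.succ (ClAll.succ (ClAll.succ (ClAll.succ ClAll.zero s322) s323) n259) s340) s341) s342) s343) s344) s345) s346) s347) s348)

def n303 : Cl (O (nat_lit 5)) (R (nat_lit 104465))
    (p (nat_lit 0x3cc2a) (nat_lit 2) (p (nat_lit 0x101) (nat_lit 0) (p (nat_lit 0xc1) (nat_lit 1) (p (nat_lit 0x81) (nat_lit 1) (p (nat_lit 0x111) (nat_lit 1) (p (nat_lit 0xd1) (nat_lit 1) (p (nat_lit 0x89) (nat_lit 0) (p (nat_lit 0x41) (nat_lit 0) (p (nat_lit 0x10a098b090a9a) (nat_lit 0) (p (nat_lit 0x9890a888a1a) (nat_lit 0) (p (nat_lit 0x109088a08079a) (nat_lit 0) (p (nat_lit 0x8880987871a) (nat_lit 0) (p (nat_lit 0x8000000000800080907088a)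 (nat_lit 0) (p (nat_lit 0x8000000000800078886860a) (nat_lit 0) (p (nat_lit 0x10688060782) (nat_lit 0) (p (nat_lit 0x607858702) (nat_lit 0) (p (nat_lit 0x10587050482) (nat_lit 0) (p (nat_lit 0x506848402) (nat_lit 0) (p (nat_lit 0x16000c) (nat_lit 0) (p (nat_lit 0x50612) (nat_lit 0) (p (nat_lit 0x40592) (nat_lit 0) (p (nat_lit 0x40492) (nat_lit 0) (p (nat_lit 0x30412) (nat_lit 0) (p (nat_lit 0x30212) (nat_lit 0) (p (nat_lit 0x20192) (nat_lit 0) (p (nat_lit 0x20092) (nat_lit 0) (p (nat_lit 0x10012) (nat_lit 0) pn))))))))))))))))))))))))))) :=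
  Cl.node (nat_lit 0x380c2) (nat_lit 1) (by decide +kernel) (ClAll.succ ClAll.zero n260)

def n304 : Cl (O (nat_lit 5)) (R (nat_lit 104465))
    (p (nat_lit 0xd1) (nat_lit 1) (p (nat_lit 0x111) (nat_lit 1) (p (nat_lit 0x109) (nat_lit 0) (p (nat_lit 0x101) (nat_lit 0) (p (nat_lit 0x119) (nat_lit 0) (p (nat_lit 0xc9) (nat_lit 0) (p (nat_lit 0x89) (nat_lit 1) (p (nat_lit 0x41) (nat_lit 0) (p (nat_lit 0x10a098b090a9a) (nat_lit 0) (p (nat_lit 0x9890a888a1a) (nat_lit 0) (p (nat_lit 0x109088a08079a) (nat_lit 0) (p (nat_lit 0x8880987871a) (nat_lit 0) (p (nat_lit 0x8000000000800080907088a) (nat_lit 0) (p (nat_lit 0x8000000000800078886860a) (nat_lit 0) (p (nat_lit 0x10688060782) (nat_lit 0) (p (nat_lit 0x607858702) (nat_lit 0) (p (nat_lit 0x10587050482) (nat_lit 0) (p (nat_lit 0x506848402) (nat_lit 0) (p (nat_lit 0x16000c) (nat_lit 0) (p (nat_lit 0x50612) (nat_lit 0) (p (nat_lit 0x40592)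 (nat_lit 0) (p (nat_lit 0x40492) (nat_lit 0) (p (nat_lit 0x30412) (nat_lit 0) (p (nat_lit 0x30212) (nat_lit 0) (p (nat_lit 0x20192) (nat_lit 0) (p (nat_lit 0x20092) (nat_lit 0) (p (nat_lit 0x10012) (nat_lit 0) pn))))))))))))))))))))))))))) :=
  Cl.node (nat_lit 0x444aa) (nat_lit 12) (by decide +kernel) (ClAll.succ (ClAll.succ (ClAll.succ (ClAll.succ (ClAll.succ (ClAll.succ (ClAll.succ (ClAll.succ (ClAll.succ (ClAll.succ (ClAll.succ (ClAll.succ ClAll.zero s370) s371) s372) s373) s374) s375) s376) n261) s405) s406) s407) s408)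

def n305 : Cl (O (nat_lit 5)) (R (nat_lit 104465))
    (p (nat_lit 0x200004) (nat_lit 0) (p (nat_lit 0xd1) (nat_lit 0) (p (nat_lit 0x109) (nat_lit 1) (p (nat_lit 0x101) (nat_lit 0) (p (nat_lit 0x119) (nat_lit 0) (p (nat_lit 0xc9) (nat_lit 0) (p (nat_lit 0x89) (nat_lit 1) (p (nat_lit 0x41) (nat_lit 0) (p (nat_lit 0x10a098b090a9a) (nat_lit 0) (p (nat_lit 0x9890a888a1a) (nat_lit 0) (p (nat_lit 0x109088a08079a) (nat_lit 0) (p (nat_lit 0x8880987871a) (nat_lit 0) (p (nat_lit 0x8000000000800080907088a) (nat_lit 0) (p (nat_lit 0x8000000000800078886860a) (nat_lit 0) (p (nat_lit 0x10688060782) (nat_lit 0) (p (nat_lit 0x607858702) (nat_lit 0) (p (nat_lit 0x10587050482) (nat_lit 0) (p (nat_lit 0x506848402) (nat_lit 0) (p (nat_lit 0x16000c) (nat_lit 0) (p (nat_lit 0x50612) (nat_lit 0) (p (nat_lit 0x40592) (nat_lit 0) (p (nat_lit 0x40492) (nat_lit 0) (p (nat_lit 0x30412) (nat_lit 0) (p (nat_lit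 0x30212) (nat_lit 0) (p (nat_lit 0x20192) (nat_lit 0) (p (nat_lit 0x20092) (nat_lit 0) (p (nat_lit 0x10012) (nat_lit 0) pn))))))))))))))))))))))))))) :=
  Cl.node (nat_lit 0x200014) (nat_lit 2) (by decide +kernel) (ClAll.succ (ClAll.succ ClAll.zero n262) s427)

def n306 : Cl (O (nat_lit 5)) (R (nat_lit 104465))
    (p (nat_lit 0x444aa) (nat_lit 7) (p (nat_lit 0xd1) (nat_lit 1) (p (nat_lit 0x109) (nat_lit 1) (p (nat_lit 0x101) (nat_lit 0) (p (nat_lit 0x119) (nat_lit 0) (p (nat_lit 0xc9) (nat_lit 0) (p (nat_lit 0x89) (nat_lit 1) (p (nat_lit 0x41) (nat_lit 0) (p (nat_lit 0x10a098b090a9a) (nat_lit 0) (p (nat_lit 0x9890a888a1a) (nat_lit 0) (p (nat_lit 0x109088a08079a) (nat_lit 0) (p (nat_lit 0x8880987871a) (nat_lit 0) (p (nat_lit 0x8000000000800080907088a) (nat_lit 0) (p (nat_lit 0x8000000000800078886860a) (nat_lit 0) (p (nat_lit 0x10688060782) (nat_lit 0) (p (nat_lit 0x607858702)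 (nat_lit 0) (p (nat_lit 0x10587050482) (nat_lit 0) (p (nat_lit 0x506848402) (nat_lit 0) (p (nat_lit 0x16000c) (nat_lit 0) (p (nat_lit 0x50612) (nat_lit 0) (p (nat_lit 0x40592) (nat_lit 0) (p (nat_lit 0x40492) (nat_lit 0) (p (nat_lit 0x30412) (nat_lit 0) (p (nat_lit 0x30212) (nat_lit 0) (p (nat_lit 0x20192) (nat_lit 0) (p (nat_lit 0x20092) (nat_lit 0) (p (nat_lit 0x10012) (nat_lit 0) pn))))))))))))))))))))))))))) :=
  Cl.node (nat_lit 0x380c2) (nat_lit 2) (by decide +kernel) (ClAll.succ (ClAll.succ ClAll.zero n263) n264)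

def n307 : Cl (O (nat_lit 5)) (R (nat_lit 104465))
    (p (nat_lit 0x200004) (nat_lit 0) (p (nat_lit 0xd1) (nat_lit 0) (p (nat_lit 0xc1) (nat_lit 0) (p (nat_lit 0x101) (nat_lit 1) (p (nat_lit 0x119) (nat_lit 0) (p (nat_lit 0xc9) (nat_lit 0) (p (nat_lit 0x89) (nat_lit 1) (p (nat_lit 0x41) (nat_lit 0) (p (nat_lit 0x10a098b090a9a) (nat_lit 0) (p (nat_lit 0x9890a888a1a) (nat_lit 0) (p (nat_lit 0x109088a08079a) (nat_lit 0) (p (nat_lit 0x8880987871a) (nat_lit 0) (p (nat_lit 0x8000000000800080907088a) (nat_lit 0) (p (nat_lit 0x8000000000800078886860a) (nat_lit 0) (p (nat_lit 0x10688060782) (nat_lit 0) (p (nat_lit 0x607858702) (nat_lit 0) (p (nat_lit 0x10587050482) (nat_lit 0) (p (nat_lit 0x506848402) (nat_lit 0) (p (nat_lit 0x16000c) (nat_lit 0) (p (nat_lit 0x50612) (nat_lit 0) (p (nat_lit 0x40592) (nat_lit 0) (p (nat_lit 0x40492) (nat_lit 0) (p (nat_lit 0x30412) (nat_lit 0) (p (nat_lit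 0x30212) (nat_lit 0) (p (nat_lit 0x20192) (nat_lit 0) (p (nat_lit 0x20092) (nat_lit 0) (p (nat_lit 0x10012) (nat_lit 0) pn))))))))))))))))))))))))))) :=
  Cl.node (nat_lit 0x200014) (nat_lit 2) (by decide +kernel) (ClAll.succ (ClAll.succ ClAll.zero n265) s481)

def n308 : Cl (O (nat_lit 5)) (R (nat_lit 104465))
    (p (nat_lit 0x444aa) (nat_lit 7) (p (nat_lit 0xd1) (nat_lit 1) (p (nat_lit 0xc1) (nat_lit 0) (p (nat_lit 0x101) (nat_lit 1) (p (nat_lit 0x119) (nat_lit 0) (p (nat_lit 0xc9) (nat_lit 0) (p (nat_lit 0x89) (nat_lit 1) (p (nat_lit 0x41) (nat_lit 0) (p (nat_lit 0x10a098b090a9a) (nat_lit 0) (p (nat_lit 0x9890a888a1a) (nat_lit 0) (p (nat_lit 0x109088a08079a) (nat_lit 0) (p (nat_lit 0x8880987871a) (nat_lit 0) (p (nat_lit 0x8000000000800080907088a) (nat_lit 0) (p (nat_lit 0x8000000000800078886860a) (nat_lit 0) (p (nat_lit 0x10688060782) (nat_lit 0) (p (nat_lit 0x607858702) (nat_lit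 0) (p (nat_lit 0x10587050482) (nat_lit 0) (p (nat_lit 0x506848402) (nat_lit 0) (p (nat_lit 0x16000c) (nat_lit 0) (p (nat_lit 0x50612) (nat_lit 0) (p (nat_lit 0x40592) (nat_lit 0) (p (nat_lit 0x40492) (nat_lit 0) (p (nat_lit 0x30412) (nat_lit 0) (p (nat_lit 0x30212) (nat_lit 0) (p (nat_lit 0x20192) (nat_lit 0) (p (nat_lit 0x20092) (nat_lit 0) (p (nat_lit 0x10012) (nat_lit 0) pn))))))))))))))))))))))))))) :=
  Cl.node (nat_lit 0x380c2) (nat_lit 2) (by decide +kernel) (ClAll.succ (ClAll.succ ClAll.zero n266) n267)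

def n309 : Cl (O (nat_lit 5)) (R (nat_lit 104465))
    (p (nat_lit 0x444aa) (nat_lit 7) (p (nat_lit 0x111) (nat_lit 1) (p (nat_lit 0xd1) (nat_lit 1) (p (nat_lit 0xc1) (nat_lit 0) (p (nat_lit 0x119) (nat_lit 1) (p (nat_lit 0xc9) (nat_lit 0) (p (nat_lit 0x89) (nat_lit 1) (p (nat_lit 0x41) (nat_lit 0) (p (nat_lit 0x10a098b090a9a) (nat_lit 0) (p (nat_lit 0x9890a888a1a) (nat_lit 0) (p (nat_lit 0x109088a08079a) (nat_lit 0) (p (nat_lit 0x8880987871a) (nat_lit 0) (p (nat_lit 0x8000000000800080907088a) (nat_lit 0) (p (nat_lit 0x8000000000800078886860a) (nat_lit 0) (p (nat_lit 0x10688060782) (nat_lit 0) (p (nat_lit 0x607858702) (nat_lit 0) (p (nat_lit 0x10587050482) (nat_lit 0) (p (nat_lit 0x506848402) (nat_lit 0) (p (nat_lit 0x16000c) (nat_lit 0) (p (nat_lit 0x50612) (nat_lit 0) (p (nat_lit 0x40592) (nat_lit 0) (p (nat_lit 0x40492) (nat_lit 0) (p (nat_lit 0x30412) (nat_lit 0) (p (nat_lit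 0x30212) (nat_lit 0) (p (nat_lit 0x20192) (nat_lit 0) (p (nat_lit 0x20092) (nat_lit 0) (p (nat_lit 0x10012) (nat_lit 0) pn))))))))))))))))))))))))))) :=
  Cl.node (nat_lit 0x380c2) (nat_lit 2) (by decide +kernel) (ClAll.succ (ClAll.succ ClAll.zero s509) n268)

def n310 : Cl (O (nat_lit 5)) (R (nat_lit 104465))
    (p (nat_lit 0x44c2a) (nat_lit 0) (p (nat_lit 0x111) (nat_lit 0) (p (nat_lit 0x101) (nat_lit 0) (p (nat_lit 0xc1) (nat_lit 1) (p (nat_lit 0x119) (nat_lit 1) (p (nat_lit 0xc9) (nat_lit 0) (p (nat_lit 0x89) (nat_lit 1) (p (nat_lit 0x41) (nat_lit 0) (p (nat_lit 0x10a098b090a9a) (nat_lit 0) (p (nat_lit 0x9890a888a1a) (nat_lit 0) (p (nat_lit 0x109088a08079a) (nat_lit 0) (p (nat_lit 0x8880987871a) (nat_lit 0) (p (nat_lit 0x8000000000800080907088a) (nat_lit 0) (p (nat_lit 0x8000000000800078886860a) (nat_lit 0) (p (nat_lit 0x10688060782) (nat_lit 0) (p (nat_lit 0x607858702) (nat_lit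 0) (p (nat_lit 0x10587050482) (nat_lit 0) (p (nat_lit 0x506848402) (nat_lit 0) (p (nat_lit 0x16000c) (nat_lit 0) (p (nat_lit 0x50612) (nat_lit 0) (p (nat_lit 0x40592) (nat_lit 0) (p (nat_lit 0x40492) (nat_lit 0) (p (nat_lit 0x30412) (nat_lit 0) (p (nat_lit 0x30212) (nat_lit 0) (p (nat_lit 0x20192) (nat_lit 0) (p (nat_lit 0x20092) (nat_lit 0) (p (nat_lit 0x10012) (nat_lit 0) pn))))))))))))))))))))))))))) :=
  Cl.node (nat_lit 0x380c2) (nat_lit 1) (by decide +kernel) (ClAll.succ ClAll.zero n269)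

def n311 : Cl (O (nat_lit 5)) (R (nat_lit 104465))
    (p (nat_lit 0x444aa) (nat_lit 7) (p (nat_lit 0x111) (nat_lit 1) (p (nat_lit 0x101) (nat_lit 0) (p (nat_lit 0xc1) (nat_lit 1) (p (nat_lit 0x119) (nat_lit 1) (p (nat_lit 0xc9) (nat_lit 0) (p (nat_lit 0x89) (nat_lit 1) (p (nat_lit 0x41) (nat_lit 0) (p (nat_lit 0x10a098b090a9a) (nat_lit 0) (p (nat_lit 0x9890a888a1a) (nat_lit 0) (p (nat_lit 0x109088a08079a) (nat_lit 0) (p (nat_lit 0x8880987871a) (nat_lit 0) (p (nat_lit 0x8000000000800080907088a) (nat_lit 0) (p (nat_lit 0x8000000000800078886860a) (nat_lit 0) (p (nat_lit 0x10688060782) (nat_lit 0) (p (nat_lit 0x607858702) (nat_lit 0) (p (nat_lit 0x10587050482) (nat_lit 0) (p (nat_lit 0x506848402) (nat_lit 0) (p (nat_lit 0x16000c) (nat_lit 0) (p (nat_lit 0x50612) (nat_lit 0) (p (nat_lit 0x40592) (nat_lit 0) (p (nat_lit 0x40492) (nat_lit 0) (p (nat_lit 0x30412) (nat_lit 0) (p (nat_lit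 0x30212) (nat_lit 0) (p (nat_lit 0x20192) (nat_lit 0) (p (nat_lit 0x20092) (nat_lit 0) (p (nat_lit 0x10012) (nat_lit 0) pn))))))))))))))))))))))))))) :=
  Cl.node (nat_lit 0x380c2) (nat_lit 2) (by decide +kernel) (ClAll.succ (ClAll.succ ClAll.zero n270) n271)

def n312 : Cl (O (nat_lit 5)) (R (nat_lit 104465))
    (p (nat_lit 0x444aa) (nat_lit 7) (p (nat_lit 0x119) (nat_lit 1) (p (nat_lit 0x111) (nat_lit 0) (p (nat_lit 0x101) (nat_lit 0) (p (nat_lit 0x109) (nat_lit 0) (p (nat_lit 0xc9) (nat_lit 1) (p (nat_lit 0x89) (nat_lit 1) (p (nat_lit 0x41) (nat_lit 0) (p (nat_lit 0x10a098b090a9a) (nat_lit 0) (p (nat_lit 0x9890a888a1a) (nat_lit 0) (p (nat_lit 0x109088a08079a) (nat_lit 0) (p (nat_lit 0x8880987871a) (nat_lit 0) (p (nat_lit 0x8000000000800080907088a) (nat_lit 0) (p (nat_lit 0x8000000000800078886860a) (nat_lit 0) (p (nat_lit 0x10688060782) (nat_lit 0) (p (nat_lit 0x607858702)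 (nat_lit 0) (p (nat_lit 0x10587050482) (nat_lit 0) (p (nat_lit 0x506848402) (nat_lit 0) (p (nat_lit 0x16000c) (nat_lit 0) (p (nat_lit 0x50612) (nat_lit 0) (p (nat_lit 0x40592) (nat_lit 0) (p (nat_lit 0x40492) (nat_lit 0) (p (nat_lit 0x30412) (nat_lit 0) (p (nat_lit 0x30212) (nat_lit 0) (p (nat_lit 0x20192) (nat_lit 0) (p (nat_lit 0x20092) (nat_lit 0) (p (nat_lit 0x10012) (nat_lit 0) pn))))))))))))))))))))))))))) :=
  Cl.node (nat_lit 0x380c2) (nat_lit 2) (by decide +kernel) (ClAll.succ (ClAll.succ ClAll.zero s563) n272)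

def n313 : Cl (O (nat_lit 5)) (R (nat_lit 104465))
    (p (nat_lit 0x111) (nat_lit 0) (p (nat_lit 0x89) (nat_lit 0) (p (nat_lit 0x109) (nat_lit 1) (p (nat_lit 0x101) (nat_lit 0) (p (nat_lit 0x119) (nat_lit 0) (p (nat_lit 0xd1) (nat_lit 0) (p (nat_lit 0x81) (nat_lit 0) (p (nat_lit 0x41) (nat_lit 1) (p (nat_lit 0x10a098b090a9a) (nat_lit 0) (p (nat_lit 0x9890a888a1a) (nat_lit 0) (p (nat_lit 0x109088a08079a) (nat_lit 0) (p (nat_lit 0x8880987871a) (nat_lit 0) (p (nat_lit 0x8000000000800080907088a) (nat_lit 0) (p (nat_lit 0x8000000000800078886860a) (nat_lit 0) (p (nat_lit 0x10688060782) (nat_lit 0) (p (nat_lit 0x607858702) (nat_lit 0) (p (nat_lit 0x10587050482) (nat_lit 0) (p (nat_lit 0x506848402) (nat_lit 0) (p (nat_lit 0x16000c) (nat_lit 0) (p (nat_lit 0x50612) (nat_lit 0) (p (nat_lit 0x40592) (nat_lit 0) (p (nat_lit 0x40492) (nat_lit 0) (p (nat_lit 0x30412) (nat_lit 0) (p (nat_lit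 0x30212) (nat_lit 0) (p (nat_lit 0x20192) (nat_lit 0) (p (nat_lit 0x20092) (nat_lit 0) (p (nat_lit 0x10012) (nat_lit 0) pn))))))))))))))))))))))))))) :=
  Cl.node (nat_lit 0x4c42a) (nat_lit 12) (by decide +kernel) (ClAll.succ (ClAll.succ (ClAll.succ (ClAll.succ (ClAll.succ (ClAll.succ (ClAll.succ (ClAll.succ (ClAll.succ (ClAll.succ (ClAll.succ (ClAll.succ ClAll.zero s574) s575) s576) s577) s578) s579) s580) s581) s582) s583) n273) s587)

def n314 : Cl (O (nat_lit 5)) (R (nat_lit 104465))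
    (p (nat_lit 0x111) (nat_lit 1) (p (nat_lit 0x89) (nat_lit 0) (p (nat_lit 0x109) (nat_lit 1) (p (nat_lit 0x101) (nat_lit 0) (p (nat_lit 0x119) (nat_lit 0) (p (nat_lit 0xd1) (nat_lit 0) (p (nat_lit 0x81) (nat_lit 0) (p (nat_lit 0x41) (nat_lit 1) (p (nat_lit 0x10a098b090a9a) (nat_lit 0) (p (nat_lit 0x9890a888a1a) (nat_lit 0) (p (nat_lit 0x109088a08079a) (nat_lit 0) (p (nat_lit 0x8880987871a) (nat_lit 0) (p (nat_lit 0x8000000000800080907088a) (nat_lit 0) (p (nat_lit 0x8000000000800078886860a) (nat_lit 0) (p (nat_lit 0x10688060782) (nat_lit 0) (p (nat_lit 0x607858702) (nat_lit 0) (p (nat_lit 0x10587050482) (nat_lit 0) (p (nat_lit 0x506848402) (nat_lit 0) (p (nat_lit 0x16000c) (nat_lit 0) (p (nat_lit 0x50612) (nat_lit 0) (p (nat_lit 0x40592) (nat_lit 0) (p (nat_lit 0x40492) (nat_lit 0) (p (nat_lit 0x30412) (nat_lit 0) (p (nat_lit 0x30212) (nat_lit 0) (p (nat_lit 0x20192) (nat_lit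 0) (p (nat_lit 0x20092) (nat_lit 0) (p (nat_lit 0x10012) (nat_lit 0) pn))))))))))))))))))))))))))) :=
  Cl.node (nat_lit 0x3cc2a) (nat_lit 12) (by decide +kernel) (ClAll.succ (ClAll.succ (ClAll.succ (ClAll.succ (ClAll.succ (ClAll.succ (ClAll.succ (ClAll.succ (ClAll.succ (ClAll.succ (ClAll.succ (ClAll.succ ClAll.zero s588) s589) n274) s596) s597) s598) s599) s600) s601) s602) s603) s604)

def n315 : Cl (O (nat_lit 5)) (R (nat_lit 104465))
    (p (nat_lit 0xc9) (nat_lit 0) (p (nat_lit 0x89) (nat_lit 1) (p (nat_lit 0x109) (nat_lit 1) (p (nat_lit 0x101) (nat_lit 0) (p (nat_lit 0x119) (nat_lit 0) (p (nat_lit 0xd1) (nat_lit 0) (p (nat_lit 0x81) (nat_lit 0) (p (nat_lit 0x41) (nat_lit 1) (p (nat_lit 0x10a098b090a9a) (nat_lit 0) (p (nat_lit 0x9890a888a1a) (nat_lit 0) (p (nat_lit 0x109088a08079a) (nat_lit 0) (p (nat_lit 0x8880987871a) (nat_lit 0) (p (nat_lit 0x8000000000800080907088a) (nat_lit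 0) (p (nat_lit 0x8000000000800078886860a) (nat_lit 0) (p (nat_lit 0x10688060782) (nat_lit 0) (p (nat_lit 0x607858702) (nat_lit 0) (p (nat_lit 0x10587050482) (nat_lit 0) (p (nat_lit 0x506848402) (nat_lit 0) (p (nat_lit 0x16000c) (nat_lit 0) (p (nat_lit 0x50612) (nat_lit 0) (p (nat_lit 0x40592) (nat_lit 0) (p (nat_lit 0x40492) (nat_lit 0) (p (nat_lit 0x30412) (nat_lit 0) (p (nat_lit 0x30212) (nat_lit 0) (p (nat_lit 0x20192) (nat_lit 0) (p (nat_lit 0x20092) (nat_lit 0) (p (nat_lit 0x10012) (nat_lit 0) pn))))))))))))))))))))))))))) :=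
  Cl.node (nat_lit 0x4c42a) (nat_lit 12) (by decide +kernel) (ClAll.succ (ClAll.succ (ClAll.succ (ClAll.succ (ClAll.succ (ClAll.succ (ClAll.succ (ClAll.succ (ClAll.succ (ClAll.succ (ClAll.succ (ClAll.succ ClAll.zero s605) s606) s607) s608) s609) s610) s611) s612) s613) s614) n275) s625)

def n316 : Cl (O (nat_lit 5)) (R (nat_lit 104465))
    (p (nat_lit 0x3cc2a) (nat_lit 2) (p (nat_lit 0x89) (nat_lit 0) (p (nat_lit 0xc1) (nat_lit 0) (p (nat_lit 0x101) (nat_lit 1) (p (nat_lit 0x119) (nat_lit 0) (p (nat_lit 0xd1) (nat_lit 0) (p (nat_lit 0x81) (nat_lit 0) (p (nat_lit 0x41) (nat_lit 1) (p (nat_lit 0x10a098b090a9a) (nat_lit 0) (p (nat_lit 0x9890a888a1a) (nat_lit 0) (p (nat_lit 0x109088a08079a) (nat_lit 0) (p (nat_lit 0x8880987871a) (nat_lit 0) (p (nat_lit 0x8000000000800080907088a) (nat_lit 0) (p (nat_lit 0x8000000000800078886860a) (nat_lit 0) (p (nat_lit 0x10688060782) (nat_lit 0)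 (p (nat_lit 0x607858702) (nat_lit 0) (p (nat_lit 0x10587050482) (nat_lit 0) (p (nat_lit 0x506848402) (nat_lit 0) (p (nat_lit 0x16000c) (nat_lit 0) (p (nat_lit 0x50612) (nat_lit 0) (p (nat_lit 0x40592) (nat_lit 0) (p (nat_lit 0x40492) (nat_lit 0) (p (nat_lit 0x30412) (nat_lit 0) (p (nat_lit 0x30212) (nat_lit 0) (p (nat_lit 0x20192) (nat_lit 0) (p (nat_lit 0x20092) (nat_lit 0) (p (nat_lit 0x10012) (nat_lit 0) pn))))))))))))))))))))))))))) :=
  Cl.node (nat_lit 0x380c2) (nat_lit 1) (by decide +kernel) (ClAll.succ ClAll.zero n276)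

def n317 : Cl (O (nat_lit 5)) (R (nat_lit 104465))
    (p (nat_lit 0xc9) (nat_lit 0) (p (nat_lit 0x89) (nat_lit 1) (p (nat_lit 0xc1) (nat_lit 0) (p (nat_lit 0x101) (nat_lit 1) (p (nat_lit 0x119) (nat_lit 0) (p (nat_lit 0xd1) (nat_lit 0) (p (nat_lit 0x81) (nat_lit 0) (p (nat_lit 0x41) (nat_lit 1) (p (nat_lit 0x10a098b090a9a) (nat_lit 0) (p (nat_lit 0x9890a888a1a) (nat_lit 0) (p (nat_lit 0x109088a08079a) (nat_lit 0) (p (nat_lit 0x8880987871a) (nat_lit 0) (p (nat_lit 0x8000000000800080907088a) (nat_lit 0) (p (nat_lit 0x8000000000800078886860a) (nat_lit 0) (p (nat_lit 0x10688060782) (nat_lit 0) (p (nat_lit 0x607858702) (nat_lit 0) (p (nat_lit 0x10587050482) (nat_lit 0) (p (nat_lit 0x506848402) (nat_lit 0) (p (nat_lit 0x16000c) (nat_lit 0) (p (nat_lit 0x50612) (nat_lit 0) (p (nat_lit 0x40592) (nat_lit 0) (p (nat_lit 0x40492) (nat_lit 0) (p (nat_lit 0x30412) (nat_lit 0) (p (nat_lit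 0x30212) (nat_lit 0) (p (nat_lit 0x20192) (nat_lit 0) (p (nat_lit 0x20092) (nat_lit 0) (p (nat_lit 0x10012) (nat_lit 0) pn))))))))))))))))))))))))))) :=
  Cl.node (nat_lit 0x4c42a) (nat_lit 12) (by decide +kernel) (ClAll.succ (ClAll.succ (ClAll.succ (ClAll.succ (ClAll.succ (ClAll.succ (ClAll.succ (ClAll.succ (ClAll.succ (ClAll.succ (ClAll.succ (ClAll.succ ClAll.zero s645) s646) s647) s648) s649) s650) s651) s652) s653) s654) n277) s658)

def n318 : Cl (O (nat_lit 5)) (R (nat_lit 104465))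
    (p (nat_lit 0xc9) (nat_lit 1) (p (nat_lit 0x89) (nat_lit 1) (p (nat_lit 0xc1) (nat_lit 0) (p (nat_lit 0x101) (nat_lit 1) (p (nat_lit 0x119) (nat_lit 0) (p (nat_lit 0xd1) (nat_lit 0) (p (nat_lit 0x81) (nat_lit 0) (p (nat_lit 0x41) (nat_lit 1) (p (nat_lit 0x10a098b090a9a) (nat_lit 0) (p (nat_lit 0x9890a888a1a) (nat_lit 0) (p (nat_lit 0x109088a08079a) (nat_lit 0) (p (nat_lit 0x8880987871a) (nat_lit 0) (p (nat_lit 0x8000000000800080907088a) (nat_lit 0) (p (nat_lit 0x8000000000800078886860a) (nat_lit 0) (p (nat_lit 0x10688060782) (nat_lit 0) (p (nat_lit 0x607858702) (nat_lit 0) (p (nat_lit 0x10587050482) (nat_lit 0) (p (nat_lit 0x506848402) (nat_lit 0) (p (nat_lit 0x16000c) (nat_lit 0) (p (nat_lit 0x50612) (nat_lit 0) (p (nat_lit 0x40592) (nat_lit 0) (p (nat_lit 0x40492) (nat_lit 0) (p (nat_lit 0x30412) (nat_lit 0) (p (nat_lit 0x30212) (nat_lit 0) (p (nat_lit 0x20192) (nat_lit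 0) (p (nat_lit 0x20092) (nat_lit 0) (p (nat_lit 0x10012) (nat_lit 0) pn))))))))))))))))))))))))))) :=
  Cl.node (nat_lit 0x4c42a) (nat_lit 12) (by decide +kernel) (ClAll.succ (ClAll.succ (ClAll.succ (ClAll.succ (ClAll.succ (ClAll.succ (ClAll.succ (ClAll.succ (ClAll.succ (ClAll.succ (ClAll.succ (ClAll.succ ClAll.zero s659) s660) s661) s662) s663) s664) s665) s666) s667) s668) n278) s671)

def n319 : Cl (O (nat_lit 5)) (R (nat_lit 104465))
    (p (nat_lit 0x3cc2a) (nat_lit 2) (p (nat_lit 0x89) (nat_lit 0) (p (nat_lit 0xc1) (nat_lit 1) (p (nat_lit 0x101) (nat_lit 1) (p (nat_lit 0x119) (nat_lit 0) (p (nat_lit 0xd1) (nat_lit 0) (p (nat_lit 0x81) (nat_lit 0) (p (nat_lit 0x41) (nat_lit 1) (p (nat_lit 0x10a098b090a9a) (nat_lit 0) (p (nat_lit 0x9890a888a1a) (nat_lit 0) (p (nat_lit 0x109088a08079a) (nat_lit 0) (p (nat_lit 0x8880987871a) (nat_lit 0) (p (nat_lit 0x8000000000800080907088a)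 (nat_lit 0) (p (nat_lit 0x8000000000800078886860a) (nat_lit 0) (p (nat_lit 0x10688060782) (nat_lit 0) (p (nat_lit 0x607858702) (nat_lit 0) (p (nat_lit 0x10587050482) (nat_lit 0) (p (nat_lit 0x506848402) (nat_lit 0) (p (nat_lit 0x16000c) (nat_lit 0) (p (nat_lit 0x50612) (nat_lit 0) (p (nat_lit 0x40592) (nat_lit 0) (p (nat_lit 0x40492) (nat_lit 0) (p (nat_lit 0x30412) (nat_lit 0) (p (nat_lit 0x30212) (nat_lit 0) (p (nat_lit 0x20192) (nat_lit 0) (p (nat_lit 0x20092) (nat_lit 0) (p (nat_lit 0x10012) (nat_lit 0) pn))))))))))))))))))))))))))) :=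
  Cl.node (nat_lit 0x380c2) (nat_lit 1) (by decide +kernel) (ClAll.succ ClAll.zero n279)

def n320 : Cl (O (nat_lit 5)) (R (nat_lit 104465))
    (p (nat_lit 0x109) (nat_lit 0) (p (nat_lit 0x89) (nat_lit 1) (p (nat_lit 0xc9) (nat_lit 1) (p (nat_lit 0xc1) (nat_lit 0) (p (nat_lit 0x119) (nat_lit 1) (p (nat_lit 0xd1) (nat_lit 0) (p (nat_lit 0x81) (nat_lit 0) (p (nat_lit 0x41) (nat_lit 1) (p (nat_lit 0x10a098b090a9a) (nat_lit 0) (p (nat_lit 0x9890a888a1a) (nat_lit 0) (p (nat_lit 0x109088a08079a) (nat_lit 0) (p (nat_lit 0x8880987871a) (nat_lit 0) (p (nat_lit 0x8000000000800080907088a) (nat_lit 0) (p (nat_lit 0x8000000000800078886860a) (nat_lit 0) (p (nat_lit 0x10688060782) (nat_lit 0) (p (nat_lit 0x607858702) (nat_lit 0) (p (nat_lit 0x10587050482) (nat_lit 0) (p (nat_lit 0x506848402) (nat_lit 0) (p (nat_lit 0x16000c) (nat_lit 0) (p (nat_lit 0x50612) (nat_lit 0) (p (nat_lit 0x40592)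 (nat_lit 0) (p (nat_lit 0x40492) (nat_lit 0) (p (nat_lit 0x30412) (nat_lit 0) (p (nat_lit 0x30212) (nat_lit 0) (p (nat_lit 0x20192) (nat_lit 0) (p (nat_lit 0x20092) (nat_lit 0) (p (nat_lit 0x10012) (nat_lit 0) pn))))))))))))))))))))))))))) :=
  Cl.node (nat_lit 0x44c2a) (nat_lit 12) (by decide +kernel) (ClAll.succ (ClAll.succ (ClAll.succ (ClAll.succ (ClAll.succ (ClAll.succ (ClAll.succ (ClAll.succ (ClAll.succ (ClAll.succ (ClAll.succ (ClAll.succ ClAll.zero n280) s704) s705) s706) s707) s708) s709) s710) s711) s712) s713) s714)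

def n321 : Cl (O (nat_lit 5)) (R (nat_lit 104465))
    (p (nat_lit 0x109) (nat_lit 1) (p (nat_lit 0x89) (nat_lit 1) (p (nat_lit 0xc9) (nat_lit 1) (p (nat_lit 0xc1) (nat_lit 0) (p (nat_lit 0x119) (nat_lit 1) (p (nat_lit 0xd1) (nat_lit 0) (p (nat_lit 0x81) (nat_lit 0) (p (nat_lit 0x41) (nat_lit 1) (p (nat_lit 0x10a098b090a9a) (nat_lit 0) (p (nat_lit 0x9890a888a1a) (nat_lit 0) (p (nat_lit 0x109088a08079a) (nat_lit 0) (p (nat_lit 0x8880987871a) (nat_lit 0) (p (nat_lit 0x8000000000800080907088a) (nat_lit 0) (p (nat_lit 0x8000000000800078886860a) (nat_lit 0) (p (nat_lit 0x10688060782) (nat_lit 0) (p (nat_lit 0x607858702) (nat_lit 0) (p (nat_lit 0x10587050482) (nat_lit 0) (p (nat_lit 0x506848402) (nat_lit 0) (p (nat_lit 0x16000c) (nat_lit 0) (p (nat_lit 0x50612) (nat_lit 0) (p (nat_lit 0x40592) (nat_lit 0) (p (nat_lit 0x40492) (nat_lit 0) (p (nat_lit 0x30412) (nat_lit 0) (p (nat_lit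 0x30212) (nat_lit 0) (p (nat_lit 0x20192) (nat_lit 0) (p (nat_lit 0x20092) (nat_lit 0) (p (nat_lit 0x10012) (nat_lit 0) pn))))))))))))))))))))))))))) :=
  Cl.node (nat_lit 0x3c4aa) (nat_lit 12) (by decide +kernel) (ClAll.succ (ClAll.succ (ClAll.succ (ClAll.succ (ClAll.succ (ClAll.succ (ClAll.succ (ClAll.succ (ClAll.succ (ClAll.succ (ClAll.succ (ClAll.succ ClAll.zero s715) s716) s717) s718) s719) s720) s721) s722) s723) s724) s725) s726)

def n322 : Cl (O (nat_lit 5)) (R (nat_lit 104465))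
    (p (nat_lit 0x109) (nat_lit 0) (p (nat_lit 0x89) (nat_lit 1) (p (nat_lit 0x101) (nat_lit 0) (p (nat_lit 0xc1) (nat_lit 1) (p (nat_lit 0x119) (nat_lit 1) (p (nat_lit 0xd1) (nat_lit 0) (p (nat_lit 0x81) (nat_lit 0) (p (nat_lit 0x41) (nat_lit 1) (p (nat_lit 0x10a098b090a9a) (nat_lit 0) (p (nat_lit 0x9890a888a1a) (nat_lit 0) (p (nat_lit 0x109088a08079a) (nat_lit 0) (p (nat_lit 0x8880987871a) (nat_lit 0) (p (nat_lit 0x8000000000800080907088a) (nat_lit 0) (p (nat_lit 0x8000000000800078886860a) (nat_lit 0) (p (nat_lit 0x10688060782) (nat_lit 0) (p (nat_lit 0x607858702) (nat_lit 0) (p (nat_lit 0x10587050482) (nat_lit 0) (p (nat_lit 0x506848402) (nat_lit 0) (p (nat_lit 0x16000c) (nat_lit 0) (p (nat_lit 0x50612) (nat_lit 0) (p (nat_lit 0x40592) (nat_lit 0) (p (nat_lit 0x40492) (nat_lit 0) (p (nat_lit 0x30412) (nat_lit 0) (p (nat_lit 0x30212) (nat_lit 0) (p (nat_lit 0x20192) (nat_lit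 0) (p (nat_lit 0x20092) (nat_lit 0) (p (nat_lit 0x10012) (nat_lit 0) pn))))))))))))))))))))))))))) :=
  Cl.node (nat_lit 0x44c2a) (nat_lit 12) (by decide +kernel) (ClAll.succ (ClAll.succ (ClAll.succ (ClAll.succ (ClAll.succ (ClAll.succ (ClAll.succ (ClAll.succ (ClAll.succ (ClAll.succ (ClAll.succ (ClAll.succ ClAll.zero s728) s729) s730) s731) s732) s733) s734) s735) s736) s737) s738) s739)

def n323 : Cl (O (nat_lit 5)) (R (nat_lit 104465))
    (p (nat_lit 0x109) (nat_lit 1) (p (nat_lit 0x89) (nat_lit 1) (p (nat_lit 0x101) (nat_lit 0) (p (nat_lit 0xc1) (nat_lit 1) (p (nat_lit 0x119) (nat_lit 1) (p (nat_lit 0xd1) (nat_lit 0) (p (nat_lit 0x81) (nat_lit 0) (p (nat_lit 0x41) (nat_lit 1) (p (nat_lit 0x10a098b090a9a) (nat_lit 0) (p (nat_lit 0x9890a888a1a) (nat_lit 0) (p (nat_lit 0x109088a08079a) (nat_lit 0) (p (nat_lit 0x8880987871a) (nat_lit 0) (p (nat_lit 0x8000000000800080907088a) (nat_lit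 0) (p (nat_lit 0x8000000000800078886860a) (nat_lit 0) (p (nat_lit 0x10688060782) (nat_lit 0) (p (nat_lit 0x607858702) (nat_lit 0) (p (nat_lit 0x10587050482) (nat_lit 0) (p (nat_lit 0x506848402) (nat_lit 0) (p (nat_lit 0x16000c) (nat_lit 0) (p (nat_lit 0x50612) (nat_lit 0) (p (nat_lit 0x40592) (nat_lit 0) (p (nat_lit 0x40492) (nat_lit 0) (p (nat_lit 0x30412) (nat_lit 0) (p (nat_lit 0x30212) (nat_lit 0) (p (nat_lit 0x20192) (nat_lit 0) (p (nat_lit 0x20092) (nat_lit 0) (p (nat_lit 0x10012) (nat_lit 0) pn))))))))))))))))))))))))))) :=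
  Cl.node (nat_lit 0x3c4aa) (nat_lit 12) (by decide +kernel) (ClAll.succ (ClAll.succ (ClAll.succ (ClAll.succ (ClAll.succ (ClAll.succ (ClAll.succ (ClAll.succ (ClAll.succ (ClAll.succ (ClAll.succ (ClAll.succ ClAll.zero s740) s741) s742) s743) s744) s745) s746) s747) s748) s749) s750) s751)

def n324 : Cl (O (nat_lit 5)) (R (nat_lit 104465))
    (p (nat_lit 0x3c4aa) (nat_lit 8) (p (nat_lit 0x89) (nat_lit 1) (p (nat_lit 0x101) (nat_lit 1) (p (nat_lit 0xc1) (nat_lit 1) (p (nat_lit 0x119) (nat_lit 1) (p (nat_lit 0xd1) (nat_lit 0) (p (nat_lit 0x81) (nat_lit 0) (p (nat_lit 0x41) (nat_lit 1) (p (nat_lit 0x10a098b090a9a) (nat_lit 0) (p (nat_lit 0x9890a888a1a) (nat_lit 0) (p (nat_lit 0x109088a08079a) (nat_lit 0) (p (nat_lit 0x8880987871a) (nat_lit 0) (p (nat_lit 0x8000000000800080907088a) (nat_lit 0) (p (nat_lit 0x8000000000800078886860a) (nat_lit 0) (p (nat_lit 0x10688060782) (nat_lit 0)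 (p (nat_lit 0x607858702) (nat_lit 0) (p (nat_lit 0x10587050482) (nat_lit 0) (p (nat_lit 0x506848402) (nat_lit 0) (p (nat_lit 0x16000c) (nat_lit 0) (p (nat_lit 0x50612) (nat_lit 0) (p (nat_lit 0x40592) (nat_lit 0) (p (nat_lit 0x40492) (nat_lit 0) (p (nat_lit 0x30412) (nat_lit 0) (p (nat_lit 0x30212) (nat_lit 0) (p (nat_lit 0x20192) (nat_lit 0) (p (nat_lit 0x20092) (nat_lit 0) (p (nat_lit 0x10012) (nat_lit 0) pn))))))))))))))))))))))))))) :=
  Cl.node (nat_lit 0x380c2) (nat_lit 2) (by decide +kernel) (ClAll.succ (ClAll.succ ClAll.zero s772) s773)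

def n325 : Cl (O (nat_lit 5)) (R (nat_lit 104465))
    (p (nat_lit 0xc9) (nat_lit 0) (p (nat_lit 0x89) (nat_lit 1) (p (nat_lit 0x109) (nat_lit 1) (p (nat_lit 0x101) (nat_lit 0) (p (nat_lit 0x111) (nat_lit 0) (p (nat_lit 0xd1) (nat_lit 1) (p (nat_lit 0x81) (nat_lit 0) (p (nat_lit 0x41) (nat_lit 1) (p (nat_lit 0x10a098b090a9a) (nat_lit 0) (p (nat_lit 0x9890a888a1a) (nat_lit 0) (p (nat_lit 0x109088a08079a) (nat_lit 0) (p (nat_lit 0x8880987871a) (nat_lit 0) (p (nat_lit 0x8000000000800080907088a) (nat_lit 0) (p (nat_lit 0x8000000000800078886860a) (nat_lit 0) (p (nat_lit 0x10688060782) (nat_lit 0) (p (nat_lit 0x607858702) (nat_lit 0) (p (nat_lit 0x10587050482) (nat_lit 0) (p (nat_lit 0x506848402) (nat_lit 0) (p (nat_lit 0x16000c) (nat_lit 0) (p (nat_lit 0x50612) (nat_lit 0) (p (nat_lit 0x40592) (nat_lit 0) (p (nat_lit 0x40492) (nat_lit 0) (p (nat_lit 0x30412) (nat_lit 0) (p (nat_lit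 0x30212) (nat_lit 0) (p (nat_lit 0x20192) (nat_lit 0) (p (nat_lit 0x20092) (nat_lit 0) (p (nat_lit 0x10012) (nat_lit 0) pn))))))))))))))))))))))))))) :=
  Cl.node (nat_lit 0x119) (nat_lit 2) (by decide +kernel) (ClAll.succ (ClAll.succ ClAll.zero n281) n282)

def n326 : Cl (O (nat_lit 5)) (R (nat_lit 104465))
    (p (nat_lit 0x3cc2a) (nat_lit 2) (p (nat_lit 0xc9) (nat_lit 0) (p (nat_lit 0x89) (nat_lit 1) (p (nat_lit 0x101) (nat_lit 1) (p (nat_lit 0x111) (nat_lit 0) (p (nat_lit 0xd1) (nat_lit 1) (p (nat_lit 0x81) (nat_lit 0) (p (nat_lit 0x41) (nat_lit 1) (p (nat_lit 0x10a098b090a9a) (nat_lit 0) (p (nat_lit 0x9890a888a1a) (nat_lit 0) (p (nat_lit 0x109088a08079a) (nat_lit 0) (p (nat_lit 0x8880987871a) (nat_lit 0) (p (nat_lit 0x8000000000800080907088a) (nat_lit 0) (p (nat_lit 0x8000000000800078886860a) (nat_lit 0) (p (nat_lit 0x10688060782) (nat_lit 0) (p (nat_lit 0x607858702) (nat_lit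 0) (p (nat_lit 0x10587050482) (nat_lit 0) (p (nat_lit 0x506848402) (nat_lit 0) (p (nat_lit 0x16000c) (nat_lit 0) (p (nat_lit 0x50612) (nat_lit 0) (p (nat_lit 0x40592) (nat_lit 0) (p (nat_lit 0x40492) (nat_lit 0) (p (nat_lit 0x30412) (nat_lit 0) (p (nat_lit 0x30212) (nat_lit 0) (p (nat_lit 0x20192) (nat_lit 0) (p (nat_lit 0x20092) (nat_lit 0) (p (nat_lit 0x10012) (nat_lit 0) pn))))))))))))))))))))))))))) :=
  Cl.node (nat_lit 0x380c2) (nat_lit 1) (by decide +kernel) (ClAll.succ ClAll.zero n283)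

def n327 : Cl (O (nat_lit 5)) (R (nat_lit 104465))
    (p (nat_lit 0x3cc2a) (nat_lit 2) (p (nat_lit 0x109) (nat_lit 0) (p (nat_lit 0xc9) (nat_lit 1) (p (nat_lit 0x89) (nat_lit 1) (p (nat_lit 0x111) (nat_lit 1) (p (nat_lit 0xd1) (nat_lit 1) (p (nat_lit 0x81) (nat_lit 0) (p (nat_lit 0x41) (nat_lit 1) (p (nat_lit 0x10a098b090a9a) (nat_lit 0) (p (nat_lit 0x9890a888a1a) (nat_lit 0) (p (nat_lit 0x109088a08079a) (nat_lit 0) (p (nat_lit 0x8880987871a) (nat_lit 0) (p (nat_lit 0x8000000000800080907088a) (nat_lit 0) (p (nat_lit 0x8000000000800078886860a) (nat_lit 0) (p (nat_lit 0x10688060782) (nat_lit 0) (p (nat_lit 0x607858702) (nat_lit 0) (p (nat_lit 0x10587050482) (nat_lit 0) (p (nat_lit 0x506848402) (nat_lit 0) (p (nat_lit 0x16000c) (nat_lit 0) (p (nat_lit 0x50612) (nat_lit 0) (p (nat_lit 0x40592) (nat_lit 0) (p (nat_lit 0x40492) (nat_lit 0) (p (nat_lit 0x30412) (nat_lit 0) (p (nat_lit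 0x30212) (nat_lit 0) (p (nat_lit 0x20192) (nat_lit 0) (p (nat_lit 0x20092) (nat_lit 0) (p (nat_lit 0x10012) (nat_lit 0) pn))))))))))))))))))))))))))) :=
  Cl.node (nat_lit 0x380c2) (nat_lit 1) (by decide +kernel) (ClAll.succ ClAll.zero n284)

def n328 : Cl (O (nat_lit 5)) (R (nat_lit 104465))
    (p (nat_lit 0xd1) (nat_lit 1) (p (nat_lit 0x111) (nat_lit 1) (p (nat_lit 0x109) (nat_lit 0) (p (nat_lit 0x101) (nat_lit 0) (p (nat_lit 0x119) (nat_lit 0) (p (nat_lit 0xc1) (nat_lit 0) (p (nat_lit 0x81) (nat_lit 1) (p (nat_lit 0x41) (nat_lit 1) (p (nat_lit 0x10a098b090a9a) (nat_lit 0) (p (nat_lit 0x9890a888a1a) (nat_lit 0) (p (nat_lit 0x109088a08079a) (nat_lit 0) (p (nat_lit 0x8880987871a) (nat_lit 0) (p (nat_lit 0x8000000000800080907088a) (nat_lit 0) (p (nat_lit 0x8000000000800078886860a) (nat_lit 0) (p (nat_lit 0x10688060782) (nat_lit 0) (p (nat_lit 0x607858702) (nat_lit 0) (p (nat_lit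 0x10587050482) (nat_lit 0) (p (nat_lit 0x506848402) (nat_lit 0) (p (nat_lit 0x16000c) (nat_lit 0) (p (nat_lit 0x50612) (nat_lit 0) (p (nat_lit 0x40592) (nat_lit 0) (p (nat_lit 0x40492) (nat_lit 0) (p (nat_lit 0x30412) (nat_lit 0) (p (nat_lit 0x30212) (nat_lit 0) (p (nat_lit 0x20192) (nat_lit 0) (p (nat_lit 0x20092) (nat_lit 0) (p (nat_lit 0x10012) (nat_lit 0) pn))))))))))))))))))))))))))) :=
  Cl.node (nat_lit 0x3c4aa) (nat_lit 12) (by decide +kernel) (ClAll.succ (ClAll.succ (ClAll.succ (ClAll.succ (ClAll.succ (ClAll.succ (ClAll.succ (ClAll.succ (ClAll.succ (ClAll.succ (ClAll.succ (ClAll.succ ClAll.zero s889) s890) s891) s892) s893) s894) s895) n285) s898) s899) s900) s901)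

def n329 : Cl (O (nat_lit 5)) (R (nat_lit 104465))
    (p (nat_lit 0xd1) (nat_lit 1) (p (nat_lit 0xc9) (nat_lit 0) (p (nat_lit 0x109) (nat_lit 1) (p (nat_lit 0x101) (nat_lit 0) (p (nat_lit 0x119) (nat_lit 0) (p (nat_lit 0xc1) (nat_lit 0) (p (nat_lit 0x81) (nat_lit 1) (p (nat_lit 0x41) (nat_lit 1) (p (nat_lit 0x10a098b090a9a) (nat_lit 0) (p (nat_lit 0x9890a888a1a) (nat_lit 0) (p (nat_lit 0x109088a08079a) (nat_lit 0) (p (nat_lit 0x8880987871a) (nat_lit 0) (p (nat_lit 0x8000000000800080907088a) (nat_lit 0) (p (nat_lit 0x8000000000800078886860a) (nat_lit 0) (p (nat_lit 0x10688060782) (nat_lit 0) (p (nat_lit 0x607858702) (nat_lit 0) (p (nat_lit 0x10587050482) (nat_lit 0) (p (nat_lit 0x506848402) (nat_lit 0) (p (nat_lit 0x16000c) (nat_lit 0) (p (nat_lit 0x50612) (nat_lit 0) (p (nat_lit 0x40592) (nat_lit 0) (p (nat_lit 0x40492) (nat_lit 0) (p (nat_lit 0x30412) (nat_lit 0) (p (nat_lit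 0x30212) (nat_lit 0) (p (nat_lit 0x20192) (nat_lit 0) (p (nat_lit 0x20092) (nat_lit 0) (p (nat_lit 0x10012) (nat_lit 0) pn))))))))))))))))))))))))))) :=
  Cl.node (nat_lit 0x3c4aa) (nat_lit 12) (by decide +kernel) (ClAll.succ (ClAll.succ (ClAll.succ (ClAll.succ (ClAll.succ (ClAll.succ (ClAll.succ (ClAll.succ (ClAll.succ (ClAll.succ (ClAll.succ (ClAll.succ ClAll.zero s903) s904) s905) s906) s907) s908) s909) s910) s911) s912) s913) s914)

def n330 : Cl (O (nat_lit 5)) (R (nat_lit 104465))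
    (p (nat_lit 0x44c2a) (nat_lit 0) (p (nat_lit 0xd1) (nat_lit 0) (p (nat_lit 0xc9) (nat_lit 0) (p (nat_lit 0x101) (nat_lit 1) (p (nat_lit 0x119) (nat_lit 0) (p (nat_lit 0xc1) (nat_lit 0) (p (nat_lit 0x81) (nat_lit 1) (p (nat_lit 0x41) (nat_lit 1) (p (nat_lit 0x10a098b090a9a) (nat_lit 0) (p (nat_lit 0x9890a888a1a) (nat_lit 0) (p (nat_lit 0x109088a08079a) (nat_lit 0) (p (nat_lit 0x8880987871a) (nat_lit 0) (p (nat_lit 0x8000000000800080907088a) (nat_lit 0) (p (nat_lit 0x8000000000800078886860a) (nat_lit 0) (p (nat_lit 0x10688060782) (nat_lit 0) (p (nat_lit 0x607858702) (nat_lit 0) (p (nat_lit 0x10587050482) (nat_lit 0) (p (nat_lit 0x506848402) (nat_lit 0) (p (nat_lit 0x16000c) (nat_lit 0) (p (nat_lit 0x50612) (nat_lit 0) (p (nat_lit 0x40592) (nat_lit 0) (p (nat_lit 0x40492) (nat_lit 0) (p (nat_lit 0x30412) (nat_lit 0) (p (nat_lit 0x30212) (nat_lit 0) (p (nat_lit 0x20192) (nat_lit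 0) (p (nat_lit 0x20092) (nat_lit 0) (p (nat_lit 0x10012) (nat_lit 0) pn))))))))))))))))))))))))))) :=
  Cl.node (nat_lit 0x380c2) (nat_lit 1) (by decide +kernel) (ClAll.succ ClAll.zero n286)

def n331 : Cl (O (nat_lit 5)) (R (nat_lit 104465))
    (p (nat_lit 0x44c2a) (nat_lit 0) (p (nat_lit 0x111) (nat_lit 0) (p (nat_lit 0x109) (nat_lit 0) (p (nat_lit 0xc9) (nat_lit 1) (p (nat_lit 0x119) (nat_lit 1) (p (nat_lit 0xc1) (nat_lit 0) (p (nat_lit 0x81) (nat_lit 1) (p (nat_lit 0x41) (nat_lit 1) (p (nat_lit 0x10a098b090a9a) (nat_lit 0) (p (nat_lit 0x9890a888a1a) (nat_lit 0) (p (nat_lit 0x109088a08079a) (nat_lit 0) (p (nat_lit 0x8880987871a) (nat_lit 0) (p (nat_lit 0x8000000000800080907088a) (nat_lit 0) (p (nat_lit 0x8000000000800078886860a) (nat_lit 0) (p (nat_lit 0x10688060782) (nat_lit 0) (p (nat_lit 0x607858702) (nat_lit 0) (p (nat_lit 0x10587050482) (nat_lit 0) (p (nat_lit 0x506848402)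 (nat_lit 0) (p (nat_lit 0x16000c) (nat_lit 0) (p (nat_lit 0x50612) (nat_lit 0) (p (nat_lit 0x40592) (nat_lit 0) (p (nat_lit 0x40492) (nat_lit 0) (p (nat_lit 0x30412) (nat_lit 0) (p (nat_lit 0x30212) (nat_lit 0) (p (nat_lit 0x20192) (nat_lit 0) (p (nat_lit 0x20092) (nat_lit 0) (p (nat_lit 0x10012) (nat_lit 0) pn))))))))))))))))))))))))))) :=
  Cl.node (nat_lit 0x380c2) (nat_lit 1) (by decide +kernel) (ClAll.succ ClAll.zero n287)

def n332 : Cl (O (nat_lit 5)) (R (nat_lit 104465))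
    (p (nat_lit 0xc9) (nat_lit 1) (p (nat_lit 0x109) (nat_lit 1) (p (nat_lit 0x101) (nat_lit 0) (p (nat_lit 0x119) (nat_lit 0) (p (nat_lit 0xd1) (nat_lit 0) (p (nat_lit 0x89) (nat_lit 0) (p (nat_lit 0x41) (nat_lit 0) (p (nat_lit 0x10a098b090a9a) (nat_lit 0) (p (nat_lit 0x9890a888a1a) (nat_lit 0) (p (nat_lit 0x109088a08079a) (nat_lit 0) (p (nat_lit 0x8880987871a) (nat_lit 0) (p (nat_lit 0x8000000000800080907088a) (nat_lit 0) (p (nat_lit 0x8000000000800078886860a) (nat_lit 0) (p (nat_lit 0x10688060782) (nat_lit 0) (p (nat_lit 0x607858702) (nat_lit 0) (p (nat_lit 0x10587050482) (nat_lit 0) (p (nat_lit 0x506848402) (nat_lit 0) (p (nat_lit 0x16000c) (nat_lit 0) (p (nat_lit 0x50612) (nat_lit 0) (p (nat_lit 0x40592) (nat_lit 0) (p (nat_lit 0x40492) (nat_lit 0) (p (nat_lit 0x30412) (nat_lit 0) (p (nat_lit 0x30212) (nat_lit 0) (p (nat_lit 0x20192) (nat_lit 0) (p (nat_lit 0x20092) (nat_lit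 0) (p (nat_lit 0x10012) (nat_lit 0) pn)))))))))))))))))))))))))) :=
  Cl.node (nat_lit 0x81) (nat_lit 2) (by decide +kernel) (ClAll.succ (ClAll.succ ClAll.zero n288) n289)

def n333 : Cl (O (nat_lit 5)) (R (nat_lit 104465))
    (p (nat_lit 0xc9) (nat_lit 0) (p (nat_lit 0x81) (nat_lit 0) (p (nat_lit 0x101) (nat_lit 1) (p (nat_lit 0x119) (nat_lit 0) (p (nat_lit 0xd1) (nat_lit 0) (p (nat_lit 0x89) (nat_lit 0) (p (nat_lit 0x41) (nat_lit 0) (p (nat_lit 0x10a098b090a9a) (nat_lit 0) (p (nat_lit 0x9890a888a1a) (nat_lit 0) (p (nat_lit 0x109088a08079a) (nat_lit 0) (p (nat_lit 0x8880987871a) (nat_lit 0) (p (nat_lit 0x8000000000800080907088a) (nat_lit 0) (p (nat_lit 0x8000000000800078886860a) (nat_lit 0) (p (nat_lit 0x10688060782) (nat_lit 0) (p (nat_lit 0x607858702) (nat_lit 0) (p (nat_lit 0x10587050482) (nat_lit 0) (p (nat_lit 0x506848402) (nat_lit 0) (p (nat_lit 0x16000c) (nat_lit 0) (p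 (nat_lit 0x50612) (nat_lit 0) (p (nat_lit 0x40592) (nat_lit 0) (p (nat_lit 0x40492) (nat_lit 0) (p (nat_lit 0x30412) (nat_lit 0) (p (nat_lit 0x30212) (nat_lit 0) (p (nat_lit 0x20192) (nat_lit 0) (p (nat_lit 0x20092) (nat_lit 0) (p (nat_lit 0x10012) (nat_lit 0) pn)))))))))))))))))))))))))) :=
  Cl.node (nat_lit 0x111) (nat_lit 2) (by decide +kernel) (ClAll.succ (ClAll.succ ClAll.zero n290) s46)

def n334 : Cl (O (nat_lit 5)) (R (nat_lit 104465))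
    (p (nat_lit 0xc9) (nat_lit 1) (p (nat_lit 0x81) (nat_lit 0) (p (nat_lit 0x101) (nat_lit 1) (p (nat_lit 0x119) (nat_lit 0) (p (nat_lit 0xd1) (nat_lit 0) (p (nat_lit 0x89) (nat_lit 0) (p (nat_lit 0x41) (nat_lit 0) (p (nat_lit 0x10a098b090a9a) (nat_lit 0) (p (nat_lit 0x9890a888a1a) (nat_lit 0) (p (nat_lit 0x109088a08079a) (nat_lit 0) (p (nat_lit 0x8880987871a) (nat_lit 0) (p (nat_lit 0x8000000000800080907088a) (nat_lit 0) (p (nat_lit 0x8000000000800078886860a) (nat_lit 0) (p (nat_lit 0x10688060782) (nat_lit 0) (p (nat_lit 0x607858702) (nat_lit 0) (p (nat_lit 0x10587050482) (nat_lit 0) (p (nat_lit 0x506848402) (nat_lit 0) (p (nat_lit 0x16000c) (nat_lit 0) (p (nat_lit 0x50612) (nat_lit 0) (p (nat_lit 0x40592) (nat_lit 0) (p (nat_lit 0x40492) (nat_lit 0) (p (nat_lit 0x30412) (nat_lit 0) (p (nat_lit 0x30212) (nat_lit 0) (p (nat_lit 0x20192) (nat_lit 0) (p (nat_lit 0x20092) (nat_lit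 0) (p (nat_lit 0x10012) (nat_lit 0) pn)))))))))))))))))))))))))) :=
  Cl.node (nat_lit 0x111) (nat_lit 2) (by decide +kernel) (ClAll.succ (ClAll.succ ClAll.zero n291) n292)

def n335 : Cl (O (nat_lit 5)) (R (nat_lit 104465))
    (p (nat_lit 0xc1) (nat_lit 0) (p (nat_lit 0x81) (nat_lit 1) (p (nat_lit 0x101) (nat_lit 1) (p (nat_lit 0x119) (nat_lit 0) (p (nat_lit 0xd1) (nat_lit 0) (p (nat_lit 0x89) (nat_lit 0) (p (nat_lit 0x41) (nat_lit 0) (p (nat_lit 0x10a098b090a9a) (nat_lit 0) (p (nat_lit 0x9890a888a1a) (nat_lit 0) (p (nat_lit 0x109088a08079a) (nat_lit 0) (p (nat_lit 0x8880987871a) (nat_lit 0) (p (nat_lit 0x8000000000800080907088a) (nat_lit 0) (p (nat_lit 0x8000000000800078886860a) (nat_lit 0) (p (nat_lit 0x10688060782) (nat_lit 0) (p (nat_lit 0x607858702) (nat_lit 0) (p (nat_lit 0x10587050482) (nat_lit 0) (p (nat_lit 0x506848402) (nat_lit 0) (p (nat_lit 0x16000c) (nat_lit 0)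 (p (nat_lit 0x50612) (nat_lit 0) (p (nat_lit 0x40592) (nat_lit 0) (p (nat_lit 0x40492) (nat_lit 0) (p (nat_lit 0x30412) (nat_lit 0) (p (nat_lit 0x30212) (nat_lit 0) (p (nat_lit 0x20192) (nat_lit 0) (p (nat_lit 0x20092) (nat_lit 0) (p (nat_lit 0x10012) (nat_lit 0) pn)))))))))))))))))))))))))) :=
  Cl.node (nat_lit 0xc9) (nat_lit 2) (by decide +kernel) (ClAll.succ (ClAll.succ ClAll.zero n293) n294)

def n336 : Cl (O (nat_lit 5)) (R (nat_lit 104465))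
    (p (nat_lit 0x109) (nat_lit 1) (p (nat_lit 0xc9) (nat_lit 1) (p (nat_lit 0xc1) (nat_lit 0) (p (nat_lit 0x119) (nat_lit 1) (p (nat_lit 0xd1) (nat_lit 0) (p (nat_lit 0x89) (nat_lit 0) (p (nat_lit 0x41) (nat_lit 0) (p (nat_lit 0x10a098b090a9a) (nat_lit 0) (p (nat_lit 0x9890a888a1a) (nat_lit 0) (p (nat_lit 0x109088a08079a) (nat_lit 0) (p (nat_lit 0x8880987871a) (nat_lit 0) (p (nat_lit 0x8000000000800080907088a) (nat_lit 0) (p (nat_lit 0x8000000000800078886860a) (nat_lit 0) (p (nat_lit 0x10688060782) (nat_lit 0) (p (nat_lit 0x607858702) (nat_lit 0) (p (nat_lit 0x10587050482) (nat_lit 0) (p (nat_lit 0x506848402) (nat_lit 0) (p (nat_lit 0x16000c) (nat_lit 0) (p (nat_lit 0x50612) (nat_lit 0) (p (nat_lit 0x40592) (nat_lit 0) (p (nat_lit 0x40492) (nat_lit 0) (p (nat_lit 0x30412) (nat_lit 0) (p (nat_lit 0x30212) (nat_lit 0) (p (nat_lit 0x20192) (nat_lit 0) (p (nat_lit 0x20092) (nat_lit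 0) (p (nat_lit 0x10012) (nat_lit 0) pn)))))))))))))))))))))))))) :=
  Cl.node (nat_lit 0x3cc2a) (nat_lit 12) (by decide +kernel) (ClAll.succ (ClAll.succ (ClAll.succ (ClAll.succ (ClAll.succ (ClAll.succ (ClAll.succ (ClAll.succ (ClAll.succ (ClAll.succ (ClAll.succ (ClAll.succ ClAll.zero s133) s134) n295) s149) s150) s151) s152) s153) s154) s155) s156) s157)

def n337 : Cl (O (nat_lit 5)) (R (nat_lit 104465))
    (p (nat_lit 0x109) (nat_lit 1) (p (nat_lit 0x81) (nat_lit 0) (p (nat_lit 0xc1) (nat_lit 1) (p (nat_lit 0x119) (nat_lit 1) (p (nat_lit 0xd1) (nat_lit 0) (p (nat_lit 0x89) (nat_lit 0) (p (nat_lit 0x41) (nat_lit 0) (p (nat_lit 0x10a098b090a9a) (nat_lit 0) (p (nat_lit 0x9890a888a1a) (nat_lit 0) (p (nat_lit 0x109088a08079a) (nat_lit 0) (p (nat_lit 0x8880987871a) (nat_lit 0) (p (nat_lit 0x8000000000800080907088a) (nat_lit 0) (p (nat_lit 0x8000000000800078886860a) (nat_lit 0) (p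 (nat_lit 0x10688060782) (nat_lit 0) (p (nat_lit 0x607858702) (nat_lit 0) (p (nat_lit 0x10587050482) (nat_lit 0) (p (nat_lit 0x506848402) (nat_lit 0) (p (nat_lit 0x16000c) (nat_lit 0) (p (nat_lit 0x50612) (nat_lit 0) (p (nat_lit 0x40592) (nat_lit 0) (p (nat_lit 0x40492) (nat_lit 0) (p (nat_lit 0x30412) (nat_lit 0) (p (nat_lit 0x30212) (nat_lit 0) (p (nat_lit 0x20192) (nat_lit 0) (p (nat_lit 0x20092) (nat_lit 0) (p (nat_lit 0x10012) (nat_lit 0) pn)))))))))))))))))))))))))) :=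
  Cl.node (nat_lit 0x3cc2a) (nat_lit 12) (by decide +kernel) (ClAll.succ (ClAll.succ (ClAll.succ (ClAll.succ (ClAll.succ (ClAll.succ (ClAll.succ (ClAll.succ (ClAll.succ (ClAll.succ (ClAll.succ (ClAll.succ ClAll.zero s159) s160) n296) s170) s171) s172) s173) s174) s175) s176) s177) s178)

def n338 : Cl (O (nat_lit 5)) (R (nat_lit 104465))
    (p (nat_lit 0x101) (nat_lit 0) (p (nat_lit 0x81) (nat_lit 1) (p (nat_lit 0xc1) (nat_lit 1) (p (nat_lit 0x119) (nat_lit 1) (p (nat_lit 0xd1) (nat_lit 0) (p (nat_lit 0x89) (nat_lit 0) (p (nat_lit 0x41) (nat_lit 0) (p (nat_lit 0x10a098b090a9a) (nat_lit 0) (p (nat_lit 0x9890a888a1a) (nat_lit 0) (p (nat_lit 0x109088a08079a) (nat_lit 0) (p (nat_lit 0x8880987871a) (nat_lit 0) (p (nat_lit 0x8000000000800080907088a) (nat_lit 0) (p (nat_lit 0x8000000000800078886860a) (nat_lit 0) (p (nat_lit 0x10688060782) (nat_lit 0) (p (nat_lit 0x607858702) (nat_lit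 0) (p (nat_lit 0x10587050482) (nat_lit 0) (p (nat_lit 0x506848402) (nat_lit 0) (p (nat_lit 0x16000c) (nat_lit 0) (p (nat_lit 0x50612) (nat_lit 0) (p (nat_lit 0x40592) (nat_lit 0) (p (nat_lit 0x40492) (nat_lit 0) (p (nat_lit 0x30412) (nat_lit 0) (p (nat_lit 0x30212) (nat_lit 0) (p (nat_lit 0x20192) (nat_lit 0) (p (nat_lit 0x20092) (nat_lit 0) (p (nat_lit 0x10012) (nat_lit 0) pn)))))))))))))))))))))))))) :=
  Cl.node (nat_lit 0x109) (nat_lit 2) (by decide +kernel) (ClAll.succ (ClAll.succ ClAll.zero n297) n298)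

def n339 : Cl (O (nat_lit 5)) (R (nat_lit 104465))
    (p (nat_lit 0x101) (nat_lit 1) (p (nat_lit 0x81) (nat_lit 1) (p (nat_lit 0xc1) (nat_lit 1) (p (nat_lit 0x119) (nat_lit 1) (p (nat_lit 0xd1) (nat_lit 0) (p (nat_lit 0x89) (nat_lit 0) (p (nat_lit 0x41) (nat_lit 0) (p (nat_lit 0x10a098b090a9a) (nat_lit 0) (p (nat_lit 0x9890a888a1a) (nat_lit 0) (p (nat_lit 0x109088a08079a) (nat_lit 0) (p (nat_lit 0x8880987871a) (nat_lit 0) (p (nat_lit 0x8000000000800080907088a) (nat_lit 0) (p (nat_lit 0x8000000000800078886860a) (nat_lit 0) (p (nat_lit 0x10688060782) (nat_lit 0) (p (nat_lit 0x607858702) (nat_lit 0) (p (nat_lit 0x10587050482) (nat_lit 0) (p (nat_lit 0x506848402) (nat_lit 0) (p (nat_lit 0x16000c) (nat_lit 0) (p (nat_lit 0x50612) (nat_lit 0) (p (nat_lit 0x40592) (nat_lit 0) (p (nat_lit 0x40492) (nat_lit 0) (p (nat_lit 0x30412) (nat_lit 0) (p (nat_lit 0x30212) (nat_lit 0) (p (nat_lit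 0x20192) (nat_lit 0) (p (nat_lit 0x20092) (nat_lit 0) (p (nat_lit 0x10012) (nat_lit 0) pn)))))))))))))))))))))))))) :=
  Cl.node (nat_lit 0x444aa) (nat_lit 12) (by decide +kernel) (ClAll.succ (ClAll.succ (ClAll.succ (ClAll.succ (ClAll.succ (ClAll.succ (ClAll.succ (ClAll.succ (ClAll.succ (ClAll.succ (ClAll.succ (ClAll.succ ClAll.zero s227) s228) s229) s230) s231) s232) s233) s234) s235) s236) s237) s238)

def n340 : Cl (O (nat_lit 5)) (R (nat_lit 104465))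
    (p (nat_lit 0xc1) (nat_lit 1) (p (nat_lit 0x109) (nat_lit 1) (p (nat_lit 0x101) (nat_lit 0) (p (nat_lit 0x111) (nat_lit 0) (p (nat_lit 0xd1) (nat_lit 1) (p (nat_lit 0x89) (nat_lit 0) (p (nat_lit 0x41) (nat_lit 0) (p (nat_lit 0x10a098b090a9a) (nat_lit 0) (p (nat_lit 0x9890a888a1a) (nat_lit 0) (p (nat_lit 0x109088a08079a) (nat_lit 0) (p (nat_lit 0x8880987871a) (nat_lit 0) (p (nat_lit 0x8000000000800080907088a) (nat_lit 0) (p (nat_lit 0x8000000000800078886860a) (nat_lit 0) (p (nat_lit 0x10688060782) (nat_lit 0) (p (nat_lit 0x607858702) (nat_lit 0) (p (nat_lit 0x10587050482) (nat_lit 0) (p (nat_lit 0x506848402) (nat_lit 0) (p (nat_lit 0x16000c) (nat_lit 0) (p (nat_lit 0x50612) (nat_lit 0) (p (nat_lit 0x40592) (nat_lit 0) (p (nat_lit 0x40492) (nat_lit 0) (p (nat_lit 0x30412) (nat_lit 0) (p (nat_lit 0x30212) (nat_lit 0) (p (nat_lit 0x20192) (nat_lit 0) (p (nat_lit 0x20092) (nat_lit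 0) (p (nat_lit 0x10012) (nat_lit 0) pn)))))))))))))))))))))))))) :=
  Cl.node (nat_lit 0x200004) (nat_lit 2) (by decide +kernel) (ClAll.succ (ClAll.succ ClAll.zero n299) s255)

def n341 : Cl (O (nat_lit 5)) (R (nat_lit 104465))
    (p (nat_lit 0x119) (nat_lit 0) (p (nat_lit 0x81) (nat_lit 0) (p (nat_lit 0x101) (nat_lit 1) (p (nat_lit 0x111) (nat_lit 0) (p (nat_lit 0xd1) (nat_lit 1) (p (nat_lit 0x89) (nat_lit 0) (p (nat_lit 0x41) (nat_lit 0) (p (nat_lit 0x10a098b090a9a) (nat_lit 0) (p (nat_lit 0x9890a888a1a) (nat_lit 0) (p (nat_lit 0x109088a08079a) (nat_lit 0) (p (nat_lit 0x8880987871a) (nat_lit 0) (p (nat_lit 0x8000000000800080907088a) (nat_lit 0) (p (nat_lit 0x8000000000800078886860a) (nat_lit 0) (p (nat_lit 0x10688060782) (nat_lit 0) (p (nat_lit 0x607858702) (nat_lit 0) (p (nat_lit 0x10587050482) (nat_lit 0) (p (nat_lit 0x506848402) (nat_lit 0) (p (nat_lit 0x16000c) (nat_lit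 0) (p (nat_lit 0x50612) (nat_lit 0) (p (nat_lit 0x40592) (nat_lit 0) (p (nat_lit 0x40492) (nat_lit 0) (p (nat_lit 0x30412) (nat_lit 0) (p (nat_lit 0x30212) (nat_lit 0) (p (nat_lit 0x20192) (nat_lit 0) (p (nat_lit 0x20092) (nat_lit 0) (p (nat_lit 0x10012) (nat_lit 0) pn)))))))))))))))))))))))))) :=
  Cl.node (nat_lit 0x200004) (nat_lit 2) (by decide +kernel) (ClAll.succ (ClAll.succ ClAll.zero n300) s275)

def n342 : Cl (O (nat_lit 5)) (R (nat_lit 104465))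
    (p (nat_lit 0x119) (nat_lit 1) (p (nat_lit 0x81) (nat_lit 0) (p (nat_lit 0x101) (nat_lit 1) (p (nat_lit 0x111) (nat_lit 0) (p (nat_lit 0xd1) (nat_lit 1) (p (nat_lit 0x89) (nat_lit 0) (p (nat_lit 0x41) (nat_lit 0) (p (nat_lit 0x10a098b090a9a) (nat_lit 0) (p (nat_lit 0x9890a888a1a) (nat_lit 0) (p (nat_lit 0x109088a08079a) (nat_lit 0) (p (nat_lit 0x8880987871a) (nat_lit 0) (p (nat_lit 0x8000000000800080907088a) (nat_lit 0) (p (nat_lit 0x8000000000800078886860a) (nat_lit 0) (p (nat_lit 0x10688060782) (nat_lit 0) (p (nat_lit 0x607858702) (nat_lit 0) (p (nat_lit 0x10587050482) (nat_lit 0) (p (nat_lit 0x506848402) (nat_lit 0) (p (nat_lit 0x16000c) (nat_lit 0) (p (nat_lit 0x50612) (nat_lit 0) (p (nat_lit 0x40592) (nat_lit 0) (p (nat_lit 0x40492) (nat_lit 0) (p (nat_lit 0x30412) (nat_lit 0) (p (nat_lit 0x30212) (nat_lit 0) (p (nat_lit 0x20192) (nat_lit 0) (p (nat_lit 0x20092) (nat_lit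 0) (p (nat_lit 0x10012) (nat_lit 0) pn)))))))))))))))))))))))))) :=
  Cl.node (nat_lit 0x3cc2a) (nat_lit 12) (by decide +kernel) (ClAll.succ (ClAll.succ (ClAll.succ (ClAll.succ (ClAll.succ (ClAll.succ (ClAll.succ (ClAll.succ (ClAll.succ (ClAll.succ (ClAll.succ (ClAll.succ ClAll.zero s276) s277) s278) s279) s280) s281) s282) s283) s284) s285) s286) s287)

def n343 : Cl (O (nat_lit 5)) (R (nat_lit 104465))
    (p (nat_lit 0xc1) (nat_lit 0) (p (nat_lit 0x81) (nat_lit 1) (p (nat_lit 0x101) (nat_lit 1) (p (nat_lit 0x111) (nat_lit 0) (p (nat_lit 0xd1) (nat_lit 1) (p (nat_lit 0x89) (nat_lit 0) (p (nat_lit 0x41) (nat_lit 0) (p (nat_lit 0x10a098b090a9a) (nat_lit 0) (p (nat_lit 0x9890a888a1a) (nat_lit 0) (p (nat_lit 0x109088a08079a) (nat_lit 0) (p (nat_lit 0x8880987871a) (nat_lit 0) (p (nat_lit 0x8000000000800080907088a) (nat_lit 0) (p (nat_lit 0x8000000000800078886860a) (nat_lit 0) (p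 (nat_lit 0x10688060782) (nat_lit 0) (p (nat_lit 0x607858702) (nat_lit 0) (p (nat_lit 0x10587050482) (nat_lit 0) (p (nat_lit 0x506848402) (nat_lit 0) (p (nat_lit 0x16000c) (nat_lit 0) (p (nat_lit 0x50612) (nat_lit 0) (p (nat_lit 0x40592) (nat_lit 0) (p (nat_lit 0x40492) (nat_lit 0) (p (nat_lit 0x30412) (nat_lit 0) (p (nat_lit 0x30212) (nat_lit 0) (p (nat_lit 0x20192) (nat_lit 0) (p (nat_lit 0x20092) (nat_lit 0) (p (nat_lit 0x10012) (nat_lit 0) pn)))))))))))))))))))))))))) :=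
  Cl.node (nat_lit 0x119) (nat_lit 2) (by decide +kernel) (ClAll.succ (ClAll.succ ClAll.zero n301) n302)

def n344 : Cl (O (nat_lit 5)) (R (nat_lit 104465))
    (p (nat_lit 0x101) (nat_lit 0) (p (nat_lit 0xc1) (nat_lit 1) (p (nat_lit 0x81) (nat_lit 1) (p (nat_lit 0x111) (nat_lit 1) (p (nat_lit 0xd1) (nat_lit 1) (p (nat_lit 0x89) (nat_lit 0) (p (nat_lit 0x41) (nat_lit 0) (p (nat_lit 0x10a098b090a9a) (nat_lit 0) (p (nat_lit 0x9890a888a1a) (nat_lit 0) (p (nat_lit 0x109088a08079a) (nat_lit 0) (p (nat_lit 0x8880987871a) (nat_lit 0) (p (nat_lit 0x8000000000800080907088a) (nat_lit 0) (p (nat_lit 0x8000000000800078886860a) (nat_lit 0) (p (nat_lit 0x10688060782) (nat_lit 0) (p (nat_lit 0x607858702) (nat_lit 0) (p (nat_lit 0x10587050482) (nat_lit 0) (p (nat_lit 0x506848402) (nat_lit 0) (p (nat_lit 0x16000c) (nat_lit 0) (p (nat_lit 0x50612) (nat_lit 0) (p (nat_lit 0x40592) (nat_lit 0) (p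 (nat_lit 0x40492) (nat_lit 0) (p (nat_lit 0x30412) (nat_lit 0) (p (nat_lit 0x30212) (nat_lit 0) (p (nat_lit 0x20192) (nat_lit 0) (p (nat_lit 0x20092) (nat_lit 0) (p (nat_lit 0x10012) (nat_lit 0) pn)))))))))))))))))))))))))) :=
  Cl.node (nat_lit 0x3cc2a) (nat_lit 12) (by decide +kernel) (ClAll.succ (ClAll.succ (ClAll.succ (ClAll.succ (ClAll.succ (ClAll.succ (ClAll.succ (ClAll.succ (ClAll.succ (ClAll.succ (ClAll.succ (ClAll.succ ClAll.zero s352) s353) n303) s358) s359) s360) s361) s362) s363) s364) s365) s366)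

def n345 : Cl (O (nat_lit 5)) (R (nat_lit 104465))
    (p (nat_lit 0x111) (nat_lit 1) (p (nat_lit 0x109) (nat_lit 0) (p (nat_lit 0x101) (nat_lit 0) (p (nat_lit 0x119) (nat_lit 0) (p (nat_lit 0xc9) (nat_lit 0) (p (nat_lit 0x89) (nat_lit 1) (p (nat_lit 0x41) (nat_lit 0) (p (nat_lit 0x10a098b090a9a) (nat_lit 0) (p (nat_lit 0x9890a888a1a) (nat_lit 0) (p (nat_lit 0x109088a08079a) (nat_lit 0) (p (nat_lit 0x8880987871a) (nat_lit 0) (p (nat_lit 0x8000000000800080907088a) (nat_lit 0) (p (nat_lit 0x8000000000800078886860a) (nat_lit 0) (p (nat_lit 0x10688060782) (nat_lit 0) (p (nat_lit 0x607858702) (nat_lit 0) (p (nat_lit 0x10587050482) (nat_lit 0) (p (nat_lit 0x506848402) (nat_lit 0) (p (nat_lit 0x16000c) (nat_lit 0) (p (nat_lit 0x50612) (nat_lit 0) (p (nat_lit 0x40592) (nat_lit 0) (p (nat_lit 0x40492) (nat_lit 0) (p (nat_lit 0x30412) (nat_lit 0) (p (nat_lit 0x30212) (nat_lit 0) (p (nat_lit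 0x20192) (nat_lit 0) (p (nat_lit 0x20092) (nat_lit 0) (p (nat_lit 0x10012) (nat_lit 0) pn)))))))))))))))))))))))))) :=
  Cl.node (nat_lit 0xd1) (nat_lit 2) (by decide +kernel) (ClAll.succ (ClAll.succ ClAll.zero s369) n304)

def n346 : Cl (O (nat_lit 5)) (R (nat_lit 104465))
    (p (nat_lit 0xd1) (nat_lit 0) (p (nat_lit 0x109) (nat_lit 1) (p (nat_lit 0x101) (nat_lit 0) (p (nat_lit 0x119) (nat_lit 0) (p (nat_lit 0xc9) (nat_lit 0) (p (nat_lit 0x89) (nat_lit 1) (p (nat_lit 0x41) (nat_lit 0) (p (nat_lit 0x10a098b090a9a) (nat_lit 0) (p (nat_lit 0x9890a888a1a) (nat_lit 0) (p (nat_lit 0x109088a08079a) (nat_lit 0) (p (nat_lit 0x8880987871a) (nat_lit 0) (p (nat_lit 0x8000000000800080907088a) (nat_lit 0) (p (nat_lit 0x8000000000800078886860a) (nat_lit 0) (p (nat_lit 0x10688060782) (nat_lit 0) (p (nat_lit 0x607858702) (nat_lit 0) (p (nat_lit 0x10587050482) (nat_lit 0) (p (nat_lit 0x506848402)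 (nat_lit 0) (p (nat_lit 0x16000c) (nat_lit 0) (p (nat_lit 0x50612) (nat_lit 0) (p (nat_lit 0x40592) (nat_lit 0) (p (nat_lit 0x40492) (nat_lit 0) (p (nat_lit 0x30412) (nat_lit 0) (p (nat_lit 0x30212) (nat_lit 0) (p (nat_lit 0x20192) (nat_lit 0) (p (nat_lit 0x20092) (nat_lit 0) (p (nat_lit 0x10012) (nat_lit 0) pn)))))))))))))))))))))))))) :=
  Cl.node (nat_lit 0x200004) (nat_lit 2) (by decide +kernel) (ClAll.succ (ClAll.succ ClAll.zero n305) s428)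

def n347 : Cl (O (nat_lit 5)) (R (nat_lit 104465))
    (p (nat_lit 0xd1) (nat_lit 1) (p (nat_lit 0x109) (nat_lit 1) (p (nat_lit 0x101) (nat_lit 0) (p (nat_lit 0x119) (nat_lit 0) (p (nat_lit 0xc9) (nat_lit 0) (p (nat_lit 0x89) (nat_lit 1) (p (nat_lit 0x41) (nat_lit 0) (p (nat_lit 0x10a098b090a9a) (nat_lit 0) (p (nat_lit 0x9890a888a1a) (nat_lit 0) (p (nat_lit 0x109088a08079a) (nat_lit 0) (p (nat_lit 0x8880987871a) (nat_lit 0) (p (nat_lit 0x8000000000800080907088a) (nat_lit 0) (p (nat_lit 0x8000000000800078886860a) (nat_lit 0) (p (nat_lit 0x10688060782) (nat_lit 0) (p (nat_lit 0x607858702) (nat_lit 0) (p (nat_lit 0x10587050482) (nat_lit 0) (p (nat_lit 0x506848402) (nat_lit 0) (p (nat_lit 0x16000c) (nat_lit 0) (p (nat_lit 0x50612) (nat_lit 0) (p (nat_lit 0x40592) (nat_lit 0) (p (nat_lit 0x40492) (nat_lit 0) (p (nat_lit 0x30412) (nat_lit 0) (p (nat_lit 0x30212) (nat_lit 0) (p (nat_lit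 0x20192) (nat_lit 0) (p (nat_lit 0x20092) (nat_lit 0) (p (nat_lit 0x10012) (nat_lit 0) pn)))))))))))))))))))))))))) :=
  Cl.node (nat_lit 0x444aa) (nat_lit 12) (by decide +kernel) (ClAll.succ (ClAll.succ (ClAll.succ (ClAll.succ (ClAll.succ (ClAll.succ (ClAll.succ (ClAll.succ (ClAll.succ (ClAll.succ (ClAll.succ (ClAll.succ ClAll.zero s429) s430) s431) s432) s433) s434) s435) n306) s460) s461) s462) s463)

def n348 : Cl (O (nat_lit 5)) (R (nat_lit 104465))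
    (p (nat_lit 0xd1) (nat_lit 0) (p (nat_lit 0xc1) (nat_lit 0) (p (nat_lit 0x101) (nat_lit 1) (p (nat_lit 0x119) (nat_lit 0) (p (nat_lit 0xc9) (nat_lit 0) (p (nat_lit 0x89) (nat_lit 1) (p (nat_lit 0x41) (nat_lit 0) (p (nat_lit 0x10a098b090a9a) (nat_lit 0) (p (nat_lit 0x9890a888a1a) (nat_lit 0) (p (nat_lit 0x109088a08079a) (nat_lit 0) (p (nat_lit 0x8880987871a) (nat_lit 0) (p (nat_lit 0x8000000000800080907088a) (nat_lit 0) (p (nat_lit 0x8000000000800078886860a) (nat_lit 0) (p (nat_lit 0x10688060782) (nat_lit 0) (p (nat_lit 0x607858702) (nat_lit 0) (p (nat_lit 0x10587050482) (nat_lit 0) (p (nat_lit 0x506848402) (nat_lit 0) (p (nat_lit 0x16000c) (nat_lit 0) (p (nat_lit 0x50612) (nat_lit 0) (p (nat_lit 0x40592) (nat_lit 0) (p (nat_lit 0x40492) (nat_lit 0) (p (nat_lit 0x30412) (nat_lit 0) (p (nat_lit 0x30212) (nat_lit 0) (p (nat_lit 0x20192) (nat_lit 0) (p (nat_lit 0x20092) (nat_lit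 0) (p (nat_lit 0x10012) (nat_lit 0) pn)))))))))))))))))))))))))) :=
  Cl.node (nat_lit 0x200004) (nat_lit 2) (by decide +kernel) (ClAll.succ (ClAll.succ ClAll.zero n307) s482)

def n349 : Cl (O (nat_lit 5)) (R (nat_lit 104465))
    (p (nat_lit 0xd1) (nat_lit 1) (p (nat_lit 0xc1) (nat_lit 0) (p (nat_lit 0x101) (nat_lit 1) (p (nat_lit 0x119) (nat_lit 0) (p (nat_lit 0xc9) (nat_lit 0) (p (nat_lit 0x89) (nat_lit 1) (p (nat_lit 0x41) (nat_lit 0) (p (nat_lit 0x10a098b090a9a) (nat_lit 0) (p (nat_lit 0x9890a888a1a) (nat_lit 0) (p (nat_lit 0x109088a08079a) (nat_lit 0) (p (nat_lit 0x8880987871a) (nat_lit 0) (p (nat_lit 0x8000000000800080907088a) (nat_lit 0) (p (nat_lit 0x8000000000800078886860a) (nat_lit 0) (p (nat_lit 0x10688060782) (nat_lit 0) (p (nat_lit 0x607858702) (nat_lit 0) (p (nat_lit 0x10587050482) (nat_lit 0) (p (nat_lit 0x506848402) (nat_lit 0) (p (nat_lit 0x16000c) (nat_lit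 0) (p (nat_lit 0x50612) (nat_lit 0) (p (nat_lit 0x40592) (nat_lit 0) (p (nat_lit 0x40492) (nat_lit 0) (p (nat_lit 0x30412) (nat_lit 0) (p (nat_lit 0x30212) (nat_lit 0) (p (nat_lit 0x20192) (nat_lit 0) (p (nat_lit 0x20092) (nat_lit 0) (p (nat_lit 0x10012) (nat_lit 0) pn)))))))))))))))))))))))))) :=
  Cl.node (nat_lit 0x444aa) (nat_lit 12) (by decide +kernel) (ClAll.succ (ClAll.succ (ClAll.succ (ClAll.succ (ClAll.succ (ClAll.succ (ClAll.succ (ClAll.succ (ClAll.succ (ClAll.succ (ClAll.succ (ClAll.succ ClAll.zero s483) s484) s485) s486) s487) s488) s489) n308) s495) s496) s497) s498)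

def n350 : Cl (O (nat_lit 5)) (R (nat_lit 104465))
    (p (nat_lit 0x111) (nat_lit 1) (p (nat_lit 0xd1) (nat_lit 1) (p (nat_lit 0xc1) (nat_lit 0) (p (nat_lit 0x119) (nat_lit 1) (p (nat_lit 0xc9) (nat_lit 0) (p (nat_lit 0x89) (nat_lit 1) (p (nat_lit 0x41) (nat_lit 0) (p (nat_lit 0x10a098b090a9a) (nat_lit 0) (p (nat_lit 0x9890a888a1a) (nat_lit 0) (p (nat_lit 0x109088a08079a) (nat_lit 0) (p (nat_lit 0x8880987871a) (nat_lit 0) (p (nat_lit 0x8000000000800080907088a) (nat_lit 0) (p (nat_lit 0x8000000000800078886860a) (nat_lit 0) (p (nat_lit 0x10688060782) (nat_lit 0) (p (nat_lit 0x607858702) (nat_lit 0) (p (nat_lit 0x10587050482) (nat_lit 0) (p (nat_lit 0x506848402) (nat_lit 0) (p (nat_lit 0x16000c) (nat_lit 0) (p (nat_lit 0x50612) (nat_lit 0) (p (nat_lit 0x40592) (nat_lit 0) (p (nat_lit 0x40492) (nat_lit 0) (p (nat_lit 0x30412) (nat_lit 0) (p (nat_lit 0x30212) (nat_lit 0) (p (nat_lit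 0x20192) (nat_lit 0) (p (nat_lit 0x20092) (nat_lit 0) (p (nat_lit 0x10012) (nat_lit 0) pn)))))))))))))))))))))))))) :=
  Cl.node (nat_lit 0x444aa) (nat_lit 12) (by decide +kernel) (ClAll.succ (ClAll.succ (ClAll.succ (ClAll.succ (ClAll.succ (ClAll.succ (ClAll.succ (ClAll.succ (ClAll.succ (ClAll.succ (ClAll.succ (ClAll.succ ClAll.zero s502) s503) s504) s505) s506) s507) s508) n309) s515) s516) s517) s518)

def n351 : Cl (O (nat_lit 5)) (R (nat_lit 104465))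
    (p (nat_lit 0x111) (nat_lit 0) (p (nat_lit 0x101) (nat_lit 0) (p (nat_lit 0xc1) (nat_lit 1) (p (nat_lit 0x119) (nat_lit 1) (p (nat_lit 0xc9) (nat_lit 0) (p (nat_lit 0x89) (nat_lit 1) (p (nat_lit 0x41) (nat_lit 0) (p (nat_lit 0x10a098b090a9a) (nat_lit 0) (p (nat_lit 0x9890a888a1a) (nat_lit 0) (p (nat_lit 0x109088a08079a) (nat_lit 0) (p (nat_lit 0x8880987871a) (nat_lit 0) (p (nat_lit 0x8000000000800080907088a) (nat_lit 0) (p (nat_lit 0x8000000000800078886860a) (nat_lit 0) (p (nat_lit 0x10688060782) (nat_lit 0) (p (nat_lit 0x607858702) (nat_lit 0) (p (nat_lit 0x10587050482) (nat_lit 0) (p (nat_lit 0x506848402) (nat_lit 0) (p (nat_lit 0x16000c) (nat_lit 0) (p (nat_lit 0x50612) (nat_lit 0) (p (nat_lit 0x40592) (nat_lit 0) (p (nat_lit 0x40492) (nat_lit 0) (p (nat_lit 0x30412) (nat_lit 0) (p (nat_lit 0x30212) (nat_lit 0) (p (nat_lit 0x20192) (nat_lit 0) (p (nat_lit 0x20092) (nat_lit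 0) (p (nat_lit 0x10012) (nat_lit 0) pn)))))))))))))))))))))))))) :=
  Cl.node (nat_lit 0x44c2a) (nat_lit 12) (by decide +kernel) (ClAll.succ (ClAll.succ (ClAll.succ (ClAll.succ (ClAll.succ (ClAll.succ (ClAll.succ (ClAll.succ (ClAll.succ (ClAll.succ (ClAll.succ (ClAll.succ ClAll.zero n310) s523) s524) s525) s526) s527) s528) s529) s530) s531) s532) s533)

def n352 : Cl (O (nat_lit 5)) (R (nat_lit 104465))
    (p (nat_lit 0x111) (nat_lit 1) (p (nat_lit 0x101) (nat_lit 0) (p (nat_lit 0xc1) (nat_lit 1) (p (nat_lit 0x119) (nat_lit 1) (p (nat_lit 0xc9) (nat_lit 0) (p (nat_lit 0x89) (nat_lit 1) (p (nat_lit 0x41) (nat_lit 0) (p (nat_lit 0x10a098b090a9a) (nat_lit 0) (p (nat_lit 0x9890a888a1a) (nat_lit 0) (p (nat_lit 0x109088a08079a) (nat_lit 0) (p (nat_lit 0x8880987871a) (nat_lit 0) (p (nat_lit 0x8000000000800080907088a) (nat_lit 0) (p (nat_lit 0x8000000000800078886860a) (nat_lit 0) (p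 (nat_lit 0x10688060782) (nat_lit 0) (p (nat_lit 0x607858702) (nat_lit 0) (p (nat_lit 0x10587050482) (nat_lit 0) (p (nat_lit 0x506848402) (nat_lit 0) (p (nat_lit 0x16000c) (nat_lit 0) (p (nat_lit 0x50612) (nat_lit 0) (p (nat_lit 0x40592) (nat_lit 0) (p (nat_lit 0x40492) (nat_lit 0) (p (nat_lit 0x30412) (nat_lit 0) (p (nat_lit 0x30212) (nat_lit 0) (p (nat_lit 0x20192) (nat_lit 0) (p (nat_lit 0x20092) (nat_lit 0) (p (nat_lit 0x10012) (nat_lit 0) pn)))))))))))))))))))))))))) :=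
  Cl.node (nat_lit 0x444aa) (nat_lit 12) (by decide +kernel) (ClAll.succ (ClAll.succ (ClAll.succ (ClAll.succ (ClAll.succ (ClAll.succ (ClAll.succ (ClAll.succ (ClAll.succ (ClAll.succ (ClAll.succ (ClAll.succ ClAll.zero s534) s535) s536) s537) s538) s539) s540) n311) s550) s551) s552) s553)

def n353 : Cl (O (nat_lit 5)) (R (nat_lit 104465))
    (p (nat_lit 0x119) (nat_lit 1) (p (nat_lit 0x111) (nat_lit 0) (p (nat_lit 0x101) (nat_lit 0) (p (nat_lit 0x109) (nat_lit 0) (p (nat_lit 0xc9) (nat_lit 1) (p (nat_lit 0x89) (nat_lit 1) (p (nat_lit 0x41) (nat_lit 0) (p (nat_lit 0x10a098b090a9a) (nat_lit 0) (p (nat_lit 0x9890a888a1a) (nat_lit 0) (p (nat_lit 0x109088a08079a) (nat_lit 0) (p (nat_lit 0x8880987871a) (nat_lit 0) (p (nat_lit 0x8000000000800080907088a) (nat_lit 0) (p (nat_lit 0x8000000000800078886860a) (nat_lit 0) (p (nat_lit 0x10688060782) (nat_lit 0) (p (nat_lit 0x607858702) (nat_lit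 0) (p (nat_lit 0x10587050482) (nat_lit 0) (p (nat_lit 0x506848402) (nat_lit 0) (p (nat_lit 0x16000c) (nat_lit 0) (p (nat_lit 0x50612) (nat_lit 0) (p (nat_lit 0x40592) (nat_lit 0) (p (nat_lit 0x40492) (nat_lit 0) (p (nat_lit 0x30412) (nat_lit 0) (p (nat_lit 0x30212) (nat_lit 0) (p (nat_lit 0x20192) (nat_lit 0) (p (nat_lit 0x20092) (nat_lit 0) (p (nat_lit 0x10012) (nat_lit 0) pn)))))))))))))))))))))))))) :=
  Cl.node (nat_lit 0x444aa) (nat_lit 12) (by decide +kernel) (ClAll.succ (ClAll.succ (ClAll.succ (ClAll.succ (ClAll.succ (ClAll.succ (ClAll.succ (ClAll.succ (ClAll.succ (ClAll.succ (ClAll.succ (ClAll.succ ClAll.zero s556) s557) s558) s559) s560) s561) s562) n312) s566) s567) s568) s569)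

def n354 : Cl (O (nat_lit 5)) (R (nat_lit 104465))
    (p (nat_lit 0x89) (nat_lit 0) (p (nat_lit 0x109) (nat_lit 1) (p (nat_lit 0x101) (nat_lit 0) (p (nat_lit 0x119) (nat_lit 0) (p (nat_lit 0xd1) (nat_lit 0) (p (nat_lit 0x81) (nat_lit 0) (p (nat_lit 0x41) (nat_lit 1) (p (nat_lit 0x10a098b090a9a) (nat_lit 0) (p (nat_lit 0x9890a888a1a) (nat_lit 0) (p (nat_lit 0x109088a08079a) (nat_lit 0) (p (nat_lit 0x8880987871a) (nat_lit 0) (p (nat_lit 0x8000000000800080907088a) (nat_lit 0) (p (nat_lit 0x8000000000800078886860a) (nat_lit 0) (p (nat_lit 0x10688060782) (nat_lit 0) (p (nat_lit 0x607858702) (nat_lit 0) (p (nat_lit 0x10587050482) (nat_lit 0) (p (nat_lit 0x506848402) (nat_lit 0) (p (nat_lit 0x16000c) (nat_lit 0) (p (nat_lit 0x50612) (nat_lit 0) (p (nat_lit 0x40592) (nat_lit 0) (p (nat_lit 0x40492) (nat_lit 0) (p (nat_lit 0x30412) (nat_lit 0) (p (nat_lit 0x30212) (nat_lit 0) (p (nat_lit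 0x20192) (nat_lit 0) (p (nat_lit 0x20092) (nat_lit 0) (p (nat_lit 0x10012) (nat_lit 0) pn)))))))))))))))))))))))))) :=
  Cl.node (nat_lit 0x111) (nat_lit 2) (by decide +kernel) (ClAll.succ (ClAll.succ ClAll.zero n313) n314)

def n355 : Cl (O (nat_lit 5)) (R (nat_lit 104465))
    (p (nat_lit 0x89) (nat_lit 1) (p (nat_lit 0x109) (nat_lit 1) (p (nat_lit 0x101) (nat_lit 0) (p (nat_lit 0x119) (nat_lit 0) (p (nat_lit 0xd1) (nat_lit 0) (p (nat_lit 0x81) (nat_lit 0) (p (nat_lit 0x41) (nat_lit 1) (p (nat_lit 0x10a098b090a9a) (nat_lit 0) (p (nat_lit 0x9890a888a1a) (nat_lit 0) (p (nat_lit 0x109088a08079a) (nat_lit 0) (p (nat_lit 0x8880987871a) (nat_lit 0) (p (nat_lit 0x8000000000800080907088a) (nat_lit 0) (p (nat_lit 0x8000000000800078886860a) (nat_lit 0) (p (nat_lit 0x10688060782) (nat_lit 0) (p (nat_lit 0x607858702) (nat_lit 0) (p (nat_lit 0x10587050482) (nat_lit 0) (p (nat_lit 0x506848402)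 (nat_lit 0) (p (nat_lit 0x16000c) (nat_lit 0) (p (nat_lit 0x50612) (nat_lit 0) (p (nat_lit 0x40592) (nat_lit 0) (p (nat_lit 0x40492) (nat_lit 0) (p (nat_lit 0x30412) (nat_lit 0) (p (nat_lit 0x30212) (nat_lit 0) (p (nat_lit 0x20192) (nat_lit 0) (p (nat_lit 0x20092) (nat_lit 0) (p (nat_lit 0x10012) (nat_lit 0) pn)))))))))))))))))))))))))) :=
  Cl.node (nat_lit 0xc9) (nat_lit 2) (by decide +kernel) (ClAll.succ (ClAll.succ ClAll.zero n315) s626)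

def n356 : Cl (O (nat_lit 5)) (R (nat_lit 104465))
    (p (nat_lit 0x89) (nat_lit 0) (p (nat_lit 0xc1) (nat_lit 0) (p (nat_lit 0x101) (nat_lit 1) (p (nat_lit 0x119) (nat_lit 0) (p (nat_lit 0xd1) (nat_lit 0) (p (nat_lit 0x81) (nat_lit 0) (p (nat_lit 0x41) (nat_lit 1) (p (nat_lit 0x10a098b090a9a) (nat_lit 0) (p (nat_lit 0x9890a888a1a) (nat_lit 0) (p (nat_lit 0x109088a08079a) (nat_lit 0) (p (nat_lit 0x8880987871a) (nat_lit 0) (p (nat_lit 0x8000000000800080907088a) (nat_lit 0) (p (nat_lit 0x8000000000800078886860a) (nat_lit 0) (p (nat_lit 0x10688060782) (nat_lit 0) (p (nat_lit 0x607858702) (nat_lit 0) (p (nat_lit 0x10587050482) (nat_lit 0) (p (nat_lit 0x506848402) (nat_lit 0) (p (nat_lit 0x16000c) (nat_lit 0) (p (nat_lit 0x50612) (nat_lit 0) (p (nat_lit 0x40592) (nat_lit 0) (p (nat_lit 0x40492) (nat_lit 0) (p (nat_lit 0x30412) (nat_lit 0) (p (nat_lit 0x30212) (nat_lit 0) (p (nat_lit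 0x20192) (nat_lit 0) (p (nat_lit 0x20092) (nat_lit 0) (p (nat_lit 0x10012) (nat_lit 0) pn)))))))))))))))))))))))))) :=
  Cl.node (nat_lit 0x3cc2a) (nat_lit 12) (by decide +kernel) (ClAll.succ (ClAll.succ (ClAll.succ (ClAll.succ (ClAll.succ (ClAll.succ (ClAll.succ (ClAll.succ (ClAll.succ (ClAll.succ (ClAll.succ (ClAll.succ ClAll.zero s627) s628) n316) s636) s637) s638) s639) s640) s641) s642) s643) s644)

def n357 : Cl (O (nat_lit 5)) (R (nat_lit 104465))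
    (p (nat_lit 0x89) (nat_lit 1) (p (nat_lit 0xc1) (nat_lit 0) (p (nat_lit 0x101) (nat_lit 1) (p (nat_lit 0x119) (nat_lit 0) (p (nat_lit 0xd1) (nat_lit 0) (p (nat_lit 0x81) (nat_lit 0) (p (nat_lit 0x41) (nat_lit 1) (p (nat_lit 0x10a098b090a9a) (nat_lit 0) (p (nat_lit 0x9890a888a1a) (nat_lit 0) (p (nat_lit 0x109088a08079a) (nat_lit 0) (p (nat_lit 0x8880987871a) (nat_lit 0) (p (nat_lit 0x8000000000800080907088a) (nat_lit 0) (p (nat_lit 0x8000000000800078886860a) (nat_lit 0) (p (nat_lit 0x10688060782) (nat_lit 0) (p (nat_lit 0x607858702) (nat_lit 0) (p (nat_lit 0x10587050482) (nat_lit 0) (p (nat_lit 0x506848402) (nat_lit 0) (p (nat_lit 0x16000c) (nat_lit 0) (p (nat_lit 0x50612) (nat_lit 0) (p (nat_lit 0x40592) (nat_lit 0) (p (nat_lit 0x40492) (nat_lit 0) (p (nat_lit 0x30412) (nat_lit 0) (p (nat_lit 0x30212) (nat_lit 0) (p (nat_lit 0x20192) (nat_lit 0) (p (nat_lit 0x20092) (nat_lit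 0) (p (nat_lit 0x10012) (nat_lit 0) pn)))))))))))))))))))))))))) :=
  Cl.node (nat_lit 0xc9) (nat_lit 2) (by decide +kernel) (ClAll.succ (ClAll.succ ClAll.zero n317) n318)

def n358 : Cl (O (nat_lit 5)) (R (nat_lit 104465))
    (p (nat_lit 0x89) (nat_lit 0) (p (nat_lit 0xc1) (nat_lit 1) (p (nat_lit 0x101) (nat_lit 1) (p (nat_lit 0x119) (nat_lit 0) (p (nat_lit 0xd1) (nat_lit 0) (p (nat_lit 0x81) (nat_lit 0) (p (nat_lit 0x41) (nat_lit 1) (p (nat_lit 0x10a098b090a9a) (nat_lit 0) (p (nat_lit 0x9890a888a1a) (nat_lit 0) (p (nat_lit 0x109088a08079a) (nat_lit 0) (p (nat_lit 0x8880987871a) (nat_lit 0) (p (nat_lit 0x8000000000800080907088a) (nat_lit 0) (p (nat_lit 0x8000000000800078886860a) (nat_lit 0) (p (nat_lit 0x10688060782) (nat_lit 0) (p (nat_lit 0x607858702) (nat_lit 0) (p (nat_lit 0x10587050482) (nat_lit 0) (p (nat_lit 0x506848402) (nat_lit 0) (p (nat_lit 0x16000c) (nat_lit 0) (p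 (nat_lit 0x50612) (nat_lit 0) (p (nat_lit 0x40592) (nat_lit 0) (p (nat_lit 0x40492) (nat_lit 0) (p (nat_lit 0x30412) (nat_lit 0) (p (nat_lit 0x30212) (nat_lit 0) (p (nat_lit 0x20192) (nat_lit 0) (p (nat_lit 0x20092) (nat_lit 0) (p (nat_lit 0x10012) (nat_lit 0) pn)))))))))))))))))))))))))) :=
  Cl.node (nat_lit 0x3cc2a) (nat_lit 12) (by decide +kernel) (ClAll.succ (ClAll.succ (ClAll.succ (ClAll.succ (ClAll.succ (ClAll.succ (ClAll.succ (ClAll.succ (ClAll.succ (ClAll.succ (ClAll.succ (ClAll.succ ClAll.zero s672) s673) n319) s679) s680) s681) s682) s683) s684) s685) s686) s687)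

def n359 : Cl (O (nat_lit 5)) (R (nat_lit 104465))
    (p (nat_lit 0x89) (nat_lit 1) (p (nat_lit 0xc1) (nat_lit 1) (p (nat_lit 0x101) (nat_lit 1) (p (nat_lit 0x119) (nat_lit 0) (p (nat_lit 0xd1) (nat_lit 0) (p (nat_lit 0x81) (nat_lit 0) (p (nat_lit 0x41) (nat_lit 1) (p (nat_lit 0x10a098b090a9a) (nat_lit 0) (p (nat_lit 0x9890a888a1a) (nat_lit 0) (p (nat_lit 0x109088a08079a) (nat_lit 0) (p (nat_lit 0x8880987871a) (nat_lit 0) (p (nat_lit 0x8000000000800080907088a) (nat_lit 0) (p (nat_lit 0x8000000000800078886860a) (nat_lit 0) (p (nat_lit 0x10688060782) (nat_lit 0) (p (nat_lit 0x607858702) (nat_lit 0) (p (nat_lit 0x10587050482) (nat_lit 0) (p (nat_lit 0x506848402) (nat_lit 0) (p (nat_lit 0x16000c) (nat_lit 0) (p (nat_lit 0x50612) (nat_lit 0) (p (nat_lit 0x40592) (nat_lit 0) (p (nat_lit 0x40492) (nat_lit 0) (p (nat_lit 0x30412) (nat_lit 0) (p (nat_lit 0x30212) (nat_lit 0) (p (nat_lit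 0x20192) (nat_lit 0) (p (nat_lit 0x20092) (nat_lit 0) (p (nat_lit 0x10012) (nat_lit 0) pn)))))))))))))))))))))))))) :=
  Cl.node (nat_lit 0x3c4aa) (nat_lit 12) (by decide +kernel) (ClAll.succ (ClAll.succ (ClAll.succ (ClAll.succ (ClAll.succ (ClAll.succ (ClAll.succ (ClAll.succ (ClAll.succ (ClAll.succ (ClAll.succ (ClAll.succ ClAll.zero s688) s689) s690) s691) s692) s693) s694) s695) s696) s697) s698) s699)

def n360 : Cl (O (nat_lit 5)) (R (nat_lit 104465))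
    (p (nat_lit 0x89) (nat_lit 1) (p (nat_lit 0xc9) (nat_lit 1) (p (nat_lit 0xc1) (nat_lit 0) (p (nat_lit 0x119) (nat_lit 1) (p (nat_lit 0xd1) (nat_lit 0) (p (nat_lit 0x81) (nat_lit 0) (p (nat_lit 0x41) (nat_lit 1) (p (nat_lit 0x10a098b090a9a) (nat_lit 0) (p (nat_lit 0x9890a888a1a) (nat_lit 0) (p (nat_lit 0x109088a08079a) (nat_lit 0) (p (nat_lit 0x8880987871a) (nat_lit 0) (p (nat_lit 0x8000000000800080907088a) (nat_lit 0) (p (nat_lit 0x8000000000800078886860a) (nat_lit 0) (p (nat_lit 0x10688060782) (nat_lit 0) (p (nat_lit 0x607858702) (nat_lit 0) (p (nat_lit 0x10587050482) (nat_lit 0) (p (nat_lit 0x506848402) (nat_lit 0) (p (nat_lit 0x16000c) (nat_lit 0) (p (nat_lit 0x50612) (nat_lit 0) (p (nat_lit 0x40592) (nat_lit 0) (p (nat_lit 0x40492) (nat_lit 0) (p (nat_lit 0x30412) (nat_lit 0) (p (nat_lit 0x30212) (nat_lit 0) (p (nat_lit 0x20192) (nat_lit 0) (p (nat_lit 0x20092) (nat_lit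 0) (p (nat_lit 0x10012) (nat_lit 0) pn)))))))))))))))))))))))))) :=
  Cl.node (nat_lit 0x109) (nat_lit 2) (by decide +kernel) (ClAll.succ (ClAll.succ ClAll.zero n320) n321)

def n361 : Cl (O (nat_lit 5)) (R (nat_lit 104465))
    (p (nat_lit 0x89) (nat_lit 1) (p (nat_lit 0x101) (nat_lit 0) (p (nat_lit 0xc1) (nat_lit 1) (p (nat_lit 0x119) (nat_lit 1) (p (nat_lit 0xd1) (nat_lit 0) (p (nat_lit 0x81) (nat_lit 0) (p (nat_lit 0x41) (nat_lit 1) (p (nat_lit 0x10a098b090a9a) (nat_lit 0) (p (nat_lit 0x9890a888a1a) (nat_lit 0) (p (nat_lit 0x109088a08079a) (nat_lit 0) (p (nat_lit 0x8880987871a) (nat_lit 0) (p (nat_lit 0x8000000000800080907088a) (nat_lit 0) (p (nat_lit 0x8000000000800078886860a) (nat_lit 0) (p (nat_lit 0x10688060782) (nat_lit 0) (p (nat_lit 0x607858702) (nat_lit 0) (p (nat_lit 0x10587050482) (nat_lit 0) (p (nat_lit 0x506848402) (nat_lit 0) (p (nat_lit 0x16000c) (nat_lit 0)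 (p (nat_lit 0x50612) (nat_lit 0) (p (nat_lit 0x40592) (nat_lit 0) (p (nat_lit 0x40492) (nat_lit 0) (p (nat_lit 0x30412) (nat_lit 0) (p (nat_lit 0x30212) (nat_lit 0) (p (nat_lit 0x20192) (nat_lit 0) (p (nat_lit 0x20092) (nat_lit 0) (p (nat_lit 0x10012) (nat_lit 0) pn)))))))))))))))))))))))))) :=
  Cl.node (nat_lit 0x109) (nat_lit 2) (by decide +kernel) (ClAll.succ (ClAll.succ ClAll.zero n322) n323)

def n362 : Cl (O (nat_lit 5)) (R (nat_lit 104465))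
    (p (nat_lit 0x89) (nat_lit 0) (p (nat_lit 0x101) (nat_lit 1) (p (nat_lit 0xc1) (nat_lit 1) (p (nat_lit 0x119) (nat_lit 1) (p (nat_lit 0xd1) (nat_lit 0) (p (nat_lit 0x81) (nat_lit 0) (p (nat_lit 0x41) (nat_lit 1) (p (nat_lit 0x10a098b090a9a) (nat_lit 0) (p (nat_lit 0x9890a888a1a) (nat_lit 0) (p (nat_lit 0x109088a08079a) (nat_lit 0) (p (nat_lit 0x8880987871a) (nat_lit 0) (p (nat_lit 0x8000000000800080907088a) (nat_lit 0) (p (nat_lit 0x8000000000800078886860a) (nat_lit 0) (p (nat_lit 0x10688060782) (nat_lit 0) (p (nat_lit 0x607858702) (nat_lit 0) (p (nat_lit 0x10587050482) (nat_lit 0) (p (nat_lit 0x506848402) (nat_lit 0) (p (nat_lit 0x16000c) (nat_lit 0) (p (nat_lit 0x50612) (nat_lit 0) (p (nat_lit 0x40592) (nat_lit 0) (p (nat_lit 0x40492) (nat_lit 0) (p (nat_lit 0x30412) (nat_lit 0) (p (nat_lit 0x30212) (nat_lit 0) (p (nat_lit 0x20192) (nat_lit 0) (p (nat_lit 0x20092) (nat_lit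 0) (p (nat_lit 0x10012) (nat_lit 0) pn)))))))))))))))))))))))))) :=
  Cl.node (nat_lit 0x3cc2a) (nat_lit 12) (by decide +kernel) (ClAll.succ (ClAll.succ (ClAll.succ (ClAll.succ (ClAll.succ (ClAll.succ (ClAll.succ (ClAll.succ (ClAll.succ (ClAll.succ (ClAll.succ (ClAll.succ ClAll.zero s752) s753) s754) s755) s756) s757) s758) s759) s760) s761) s762) s763)

def n363 : Cl (O (nat_lit 5)) (R (nat_lit 104465))
    (p (nat_lit 0x89) (nat_lit 1) (p (nat_lit 0x101) (nat_lit 1) (p (nat_lit 0xc1) (nat_lit 1) (p (nat_lit 0x119) (nat_lit 1) (p (nat_lit 0xd1) (nat_lit 0) (p (nat_lit 0x81) (nat_lit 0) (p (nat_lit 0x41) (nat_lit 1) (p (nat_lit 0x10a098b090a9a) (nat_lit 0) (p (nat_lit 0x9890a888a1a) (nat_lit 0) (p (nat_lit 0x109088a08079a) (nat_lit 0) (p (nat_lit 0x8880987871a) (nat_lit 0) (p (nat_lit 0x8000000000800080907088a) (nat_lit 0) (p (nat_lit 0x8000000000800078886860a) (nat_lit 0) (p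 (nat_lit 0x10688060782) (nat_lit 0) (p (nat_lit 0x607858702) (nat_lit 0) (p (nat_lit 0x10587050482) (nat_lit 0) (p (nat_lit 0x506848402) (nat_lit 0) (p (nat_lit 0x16000c) (nat_lit 0) (p (nat_lit 0x50612) (nat_lit 0) (p (nat_lit 0x40592) (nat_lit 0) (p (nat_lit 0x40492) (nat_lit 0) (p (nat_lit 0x30412) (nat_lit 0) (p (nat_lit 0x30212) (nat_lit 0) (p (nat_lit 0x20192) (nat_lit 0) (p (nat_lit 0x20092) (nat_lit 0) (p (nat_lit 0x10012) (nat_lit 0) pn)))))))))))))))))))))))))) :=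
  Cl.node (nat_lit 0x3c4aa) (nat_lit 12) (by decide +kernel) (ClAll.succ (ClAll.succ (ClAll.succ (ClAll.succ (ClAll.succ (ClAll.succ (ClAll.succ (ClAll.succ (ClAll.succ (ClAll.succ (ClAll.succ (ClAll.succ ClAll.zero s764) s765) s766) s767) s768) s769) s770) s771) n324) s774) s775) s776)

def n364 : Cl (O (nat_lit 5)) (R (nat_lit 104465))
    (p (nat_lit 0x89) (nat_lit 1) (p (nat_lit 0x109) (nat_lit 1) (p (nat_lit 0x101) (nat_lit 0) (p (nat_lit 0x111) (nat_lit 0) (p (nat_lit 0xd1) (nat_lit 1) (p (nat_lit 0x81) (nat_lit 0) (p (nat_lit 0x41) (nat_lit 1) (p (nat_lit 0x10a098b090a9a) (nat_lit 0) (p (nat_lit 0x9890a888a1a) (nat_lit 0) (p (nat_lit 0x109088a08079a) (nat_lit 0) (p (nat_lit 0x8880987871a) (nat_lit 0) (p (nat_lit 0x8000000000800080907088a) (nat_lit 0) (p (nat_lit 0x8000000000800078886860a) (nat_lit 0) (p (nat_lit 0x10688060782) (nat_lit 0) (p (nat_lit 0x607858702) (nat_lit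 0) (p (nat_lit 0x10587050482) (nat_lit 0) (p (nat_lit 0x506848402) (nat_lit 0) (p (nat_lit 0x16000c) (nat_lit 0) (p (nat_lit 0x50612) (nat_lit 0) (p (nat_lit 0x40592) (nat_lit 0) (p (nat_lit 0x40492) (nat_lit 0) (p (nat_lit 0x30412) (nat_lit 0) (p (nat_lit 0x30212) (nat_lit 0) (p (nat_lit 0x20192) (nat_lit 0) (p (nat_lit 0x20092) (nat_lit 0) (p (nat_lit 0x10012) (nat_lit 0) pn)))))))))))))))))))))))))) :=
  Cl.node (nat_lit 0xc9) (nat_lit 2) (by decide +kernel) (ClAll.succ (ClAll.succ ClAll.zero n325) s839)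

def n365 : Cl (O (nat_lit 5)) (R (nat_lit 104465))
    (p (nat_lit 0x3cc2a) (nat_lit 1) (p (nat_lit 0x89) (nat_lit 0) (p (nat_lit 0x101) (nat_lit 1) (p (nat_lit 0x111) (nat_lit 0) (p (nat_lit 0xd1) (nat_lit 1) (p (nat_lit 0x81) (nat_lit 0) (p (nat_lit 0x41) (nat_lit 1) (p (nat_lit 0x10a098b090a9a) (nat_lit 0) (p (nat_lit 0x9890a888a1a) (nat_lit 0) (p (nat_lit 0x109088a08079a) (nat_lit 0) (p (nat_lit 0x8880987871a) (nat_lit 0) (p (nat_lit 0x8000000000800080907088a) (nat_lit 0) (p (nat_lit 0x8000000000800078886860a) (nat_lit 0) (p (nat_lit 0x10688060782) (nat_lit 0) (p (nat_lit 0x607858702) (nat_lit 0) (p (nat_lit 0x10587050482) (nat_lit 0) (p (nat_lit 0x506848402) (nat_lit 0) (p (nat_lit 0x16000c) (nat_lit 0) (p (nat_lit 0x50612) (nat_lit 0) (p (nat_lit 0x40592) (nat_lit 0) (p (nat_lit 0x40492) (nat_lit 0) (p (nat_lit 0x30412) (nat_lit 0) (p (nat_lit 0x30212) (nat_lit 0) (p (nat_lit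 0x20192) (nat_lit 0) (p (nat_lit 0x20092) (nat_lit 0) (p (nat_lit 0x10012) (nat_lit 0) pn)))))))))))))))))))))))))) :=
  Cl.node (nat_lit 0x380c2) (nat_lit 2) (by decide +kernel) (ClAll.succ (ClAll.succ ClAll.zero s841) s842)

def n366 : Cl (O (nat_lit 5)) (R (nat_lit 104465))
    (p (nat_lit 0xc9) (nat_lit 0) (p (nat_lit 0x89) (nat_lit 1) (p (nat_lit 0x101) (nat_lit 1) (p (nat_lit 0x111) (nat_lit 0) (p (nat_lit 0xd1) (nat_lit 1) (p (nat_lit 0x81) (nat_lit 0) (p (nat_lit 0x41) (nat_lit 1) (p (nat_lit 0x10a098b090a9a) (nat_lit 0) (p (nat_lit 0x9890a888a1a) (nat_lit 0) (p (nat_lit 0x109088a08079a) (nat_lit 0) (p (nat_lit 0x8880987871a) (nat_lit 0) (p (nat_lit 0x8000000000800080907088a) (nat_lit 0) (p (nat_lit 0x8000000000800078886860a) (nat_lit 0) (p (nat_lit 0x10688060782) (nat_lit 0) (p (nat_lit 0x607858702) (nat_lit 0) (p (nat_lit 0x10587050482) (nat_lit 0) (p (nat_lit 0x506848402)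 (nat_lit 0) (p (nat_lit 0x16000c) (nat_lit 0) (p (nat_lit 0x50612) (nat_lit 0) (p (nat_lit 0x40592) (nat_lit 0) (p (nat_lit 0x40492) (nat_lit 0) (p (nat_lit 0x30412) (nat_lit 0) (p (nat_lit 0x30212) (nat_lit 0) (p (nat_lit 0x20192) (nat_lit 0) (p (nat_lit 0x20092) (nat_lit 0) (p (nat_lit 0x10012) (nat_lit 0) pn)))))))))))))))))))))))))) :=
  Cl.node (nat_lit 0x3cc2a) (nat_lit 12) (by decide +kernel) (ClAll.succ (ClAll.succ (ClAll.succ (ClAll.succ (ClAll.succ (ClAll.succ (ClAll.succ (ClAll.succ (ClAll.succ (ClAll.succ (ClAll.succ (ClAll.succ ClAll.zero s853) s854) n326) s861) s862) s863) s864) s865) s866) s867) s868) s869)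

def n367 : Cl (O (nat_lit 5)) (R (nat_lit 104465))
    (p (nat_lit 0x109) (nat_lit 0) (p (nat_lit 0xc9) (nat_lit 1) (p (nat_lit 0x89) (nat_lit 1) (p (nat_lit 0x111) (nat_lit 1) (p (nat_lit 0xd1) (nat_lit 1) (p (nat_lit 0x81) (nat_lit 0) (p (nat_lit 0x41) (nat_lit 1) (p (nat_lit 0x10a098b090a9a) (nat_lit 0) (p (nat_lit 0x9890a888a1a) (nat_lit 0) (p (nat_lit 0x109088a08079a) (nat_lit 0) (p (nat_lit 0x8880987871a) (nat_lit 0) (p (nat_lit 0x8000000000800080907088a) (nat_lit 0) (p (nat_lit 0x8000000000800078886860a) (nat_lit 0) (p (nat_lit 0x10688060782) (nat_lit 0) (p (nat_lit 0x607858702) (nat_lit 0) (p (nat_lit 0x10587050482) (nat_lit 0) (p (nat_lit 0x506848402) (nat_lit 0) (p (nat_lit 0x16000c) (nat_lit 0) (p (nat_lit 0x50612) (nat_lit 0) (p (nat_lit 0x40592) (nat_lit 0) (p (nat_lit 0x40492) (nat_lit 0) (p (nat_lit 0x30412) (nat_lit 0) (p (nat_lit 0x30212) (nat_lit 0) (p (nat_lit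 0x20192) (nat_lit 0) (p (nat_lit 0x20092) (nat_lit 0) (p (nat_lit 0x10012) (nat_lit 0) pn)))))))))))))))))))))))))) :=
  Cl.node (nat_lit 0x3cc2a) (nat_lit 12) (by decide +kernel) (ClAll.succ (ClAll.succ (ClAll.succ (ClAll.succ (ClAll.succ (ClAll.succ (ClAll.succ (ClAll.succ (ClAll.succ (ClAll.succ (ClAll.succ (ClAll.succ ClAll.zero s873) s874) n327) s877) s878) s879) s880) s881) s882) s883) s884) s885)

def n368 : Cl (O (nat_lit 5)) (R (nat_lit 104465))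
    (p (nat_lit 0x111) (nat_lit 1) (p (nat_lit 0x109) (nat_lit 0) (p (nat_lit 0x101) (nat_lit 0) (p (nat_lit 0x119) (nat_lit 0) (p (nat_lit 0xc1) (nat_lit 0) (p (nat_lit 0x81) (nat_lit 1) (p (nat_lit 0x41) (nat_lit 1) (p (nat_lit 0x10a098b090a9a) (nat_lit 0) (p (nat_lit 0x9890a888a1a) (nat_lit 0) (p (nat_lit 0x109088a08079a) (nat_lit 0) (p (nat_lit 0x8880987871a) (nat_lit 0) (p (nat_lit 0x8000000000800080907088a) (nat_lit 0) (p (nat_lit 0x8000000000800078886860a) (nat_lit 0) (p (nat_lit 0x10688060782) (nat_lit 0) (p (nat_lit 0x607858702) (nat_lit 0) (p (nat_lit 0x10587050482) (nat_lit 0) (p (nat_lit 0x506848402) (nat_lit 0) (p (nat_lit 0x16000c) (nat_lit 0) (p (nat_lit 0x50612) (nat_lit 0) (p (nat_lit 0x40592) (nat_lit 0) (p (nat_lit 0x40492) (nat_lit 0) (p (nat_lit 0x30412) (nat_lit 0) (p (nat_lit 0x30212) (nat_lit 0) (p (nat_lit 0x20192) (nat_lit 0) (p (nat_lit 0x20092) (nat_lit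 0) (p (nat_lit 0x10012) (nat_lit 0) pn)))))))))))))))))))))))))) :=
  Cl.node (nat_lit 0xd1) (nat_lit 2) (by decide +kernel) (ClAll.succ (ClAll.succ ClAll.zero s888) n328)

def n369 : Cl (O (nat_lit 5)) (R (nat_lit 104465))
    (p (nat_lit 0xc9) (nat_lit 0) (p (nat_lit 0x109) (nat_lit 1) (p (nat_lit 0x101) (nat_lit 0) (p (nat_lit 0x119) (nat_lit 0) (p (nat_lit 0xc1) (nat_lit 0) (p (nat_lit 0x81) (nat_lit 1) (p (nat_lit 0x41) (nat_lit 1) (p (nat_lit 0x10a098b090a9a) (nat_lit 0) (p (nat_lit 0x9890a888a1a) (nat_lit 0) (p (nat_lit 0x109088a08079a) (nat_lit 0) (p (nat_lit 0x8880987871a) (nat_lit 0) (p (nat_lit 0x8000000000800080907088a) (nat_lit 0) (p (nat_lit 0x8000000000800078886860a) (nat_lit 0) (p (nat_lit 0x10688060782) (nat_lit 0) (p (nat_lit 0x607858702) (nat_lit 0) (p (nat_lit 0x10587050482) (nat_lit 0) (p (nat_lit 0x506848402) (nat_lit 0) (p (nat_lit 0x16000c) (nat_lit 0)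 (p (nat_lit 0x50612) (nat_lit 0) (p (nat_lit 0x40592) (nat_lit 0) (p (nat_lit 0x40492) (nat_lit 0) (p (nat_lit 0x30412) (nat_lit 0) (p (nat_lit 0x30212) (nat_lit 0) (p (nat_lit 0x20192) (nat_lit 0) (p (nat_lit 0x20092) (nat_lit 0) (p (nat_lit 0x10012) (nat_lit 0) pn)))))))))))))))))))))))))) :=
  Cl.node (nat_lit 0xd1) (nat_lit 2) (by decide +kernel) (ClAll.succ (ClAll.succ ClAll.zero s902) n329)

def n370 : Cl (O (nat_lit 5)) (R (nat_lit 104465))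
    (p (nat_lit 0xd1) (nat_lit 0) (p (nat_lit 0xc9) (nat_lit 0) (p (nat_lit 0x101) (nat_lit 1) (p (nat_lit 0x119) (nat_lit 0) (p (nat_lit 0xc1) (nat_lit 0) (p (nat_lit 0x81) (nat_lit 1) (p (nat_lit 0x41) (nat_lit 1) (p (nat_lit 0x10a098b090a9a) (nat_lit 0) (p (nat_lit 0x9890a888a1a) (nat_lit 0) (p (nat_lit 0x109088a08079a) (nat_lit 0) (p (nat_lit 0x8880987871a) (nat_lit 0) (p (nat_lit 0x8000000000800080907088a) (nat_lit 0) (p (nat_lit 0x8000000000800078886860a) (nat_lit 0) (p (nat_lit 0x10688060782) (nat_lit 0) (p (nat_lit 0x607858702) (nat_lit 0) (p (nat_lit 0x10587050482) (nat_lit 0) (p (nat_lit 0x506848402) (nat_lit 0) (p (nat_lit 0x16000c) (nat_lit 0) (p (nat_lit 0x50612) (nat_lit 0) (p (nat_lit 0x40592) (nat_lit 0) (p (nat_lit 0x40492) (nat_lit 0) (p (nat_lit 0x30412) (nat_lit 0) (p (nat_lit 0x30212) (nat_lit 0) (p (nat_lit 0x20192) (nat_lit 0) (p (nat_lit 0x20092) (nat_lit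 0) (p (nat_lit 0x10012) (nat_lit 0) pn)))))))))))))))))))))))))) :=
  Cl.node (nat_lit 0x44c2a) (nat_lit 12) (by decide +kernel) (ClAll.succ (ClAll.succ (ClAll.succ (ClAll.succ (ClAll.succ (ClAll.succ (ClAll.succ (ClAll.succ (ClAll.succ (ClAll.succ (ClAll.succ (ClAll.succ ClAll.zero n330) s918) s919) s920) s921) s922) s923) s924) s925) s926) s927) s928)

def n371 : Cl (O (nat_lit 5)) (R (nat_lit 104465))
    (p (nat_lit 0xd1) (nat_lit 1) (p (nat_lit 0xc9) (nat_lit 0) (p (nat_lit 0x101) (nat_lit 1) (p (nat_lit 0x119) (nat_lit 0) (p (nat_lit 0xc1) (nat_lit 0) (p (nat_lit 0x81) (nat_lit 1) (p (nat_lit 0x41) (nat_lit 1) (p (nat_lit 0x10a098b090a9a) (nat_lit 0) (p (nat_lit 0x9890a888a1a) (nat_lit 0) (p (nat_lit 0x109088a08079a) (nat_lit 0) (p (nat_lit 0x8880987871a) (nat_lit 0) (p (nat_lit 0x8000000000800080907088a) (nat_lit 0) (p (nat_lit 0x8000000000800078886860a) (nat_lit 0) (p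 (nat_lit 0x10688060782) (nat_lit 0) (p (nat_lit 0x607858702) (nat_lit 0) (p (nat_lit 0x10587050482) (nat_lit 0) (p (nat_lit 0x506848402) (nat_lit 0) (p (nat_lit 0x16000c) (nat_lit 0) (p (nat_lit 0x50612) (nat_lit 0) (p (nat_lit 0x40592) (nat_lit 0) (p (nat_lit 0x40492) (nat_lit 0) (p (nat_lit 0x30412) (nat_lit 0) (p (nat_lit 0x30212) (nat_lit 0) (p (nat_lit 0x20192) (nat_lit 0) (p (nat_lit 0x20092) (nat_lit 0) (p (nat_lit 0x10012) (nat_lit 0) pn)))))))))))))))))))))))))) :=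
  Cl.node (nat_lit 0x3c4aa) (nat_lit 12) (by decide +kernel) (ClAll.succ (ClAll.succ (ClAll.succ (ClAll.succ (ClAll.succ (ClAll.succ (ClAll.succ (ClAll.succ (ClAll.succ (ClAll.succ (ClAll.succ (ClAll.succ ClAll.zero s929) s930) s931) s932) s933) s934) s935) s936) s937) s938) s939) s940)

def n372 : Cl (O (nat_lit 5)) (R (nat_lit 104465))
    (p (nat_lit 0x111) (nat_lit 0) (p (nat_lit 0x109) (nat_lit 0) (p (nat_lit 0xc9) (nat_lit 1) (p (nat_lit 0x119) (nat_lit 1) (p (nat_lit 0xc1) (nat_lit 0) (p (nat_lit 0x81) (nat_lit 1) (p (nat_lit 0x41) (nat_lit 1) (p (nat_lit 0x10a098b090a9a) (nat_lit 0) (p (nat_lit 0x9890a888a1a) (nat_lit 0) (p (nat_lit 0x109088a08079a) (nat_lit 0) (p (nat_lit 0x8880987871a) (nat_lit 0) (p (nat_lit 0x8000000000800080907088a) (nat_lit 0) (p (nat_lit 0x8000000000800078886860a) (nat_lit 0) (p (nat_lit 0x10688060782) (nat_lit 0) (p (nat_lit 0x607858702) (nat_lit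 0) (p (nat_lit 0x10587050482) (nat_lit 0) (p (nat_lit 0x506848402) (nat_lit 0) (p (nat_lit 0x16000c) (nat_lit 0) (p (nat_lit 0x50612) (nat_lit 0) (p (nat_lit 0x40592) (nat_lit 0) (p (nat_lit 0x40492) (nat_lit 0) (p (nat_lit 0x30412) (nat_lit 0) (p (nat_lit 0x30212) (nat_lit 0) (p (nat_lit 0x20192) (nat_lit 0) (p (nat_lit 0x20092) (nat_lit 0) (p (nat_lit 0x10012) (nat_lit 0) pn)))))))))))))))))))))))))) :=
  Cl.node (nat_lit 0x44c2a) (nat_lit 12) (by decide +kernel) (ClAll.succ (ClAll.succ (ClAll.succ (ClAll.succ (ClAll.succ (ClAll.succ (ClAll.succ (ClAll.succ (ClAll.succ (ClAll.succ (ClAll.succ (ClAll.succ ClAll.zero n331) s947) s948) s949) s950) s951) s952) s953) s954) s955) s956) s957)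

def n373 : Cl (O (nat_lit 5)) (R (nat_lit 104465))
    (p (nat_lit 0x111) (nat_lit 1) (p (nat_lit 0x109) (nat_lit 0) (p (nat_lit 0xc9) (nat_lit 1) (p (nat_lit 0x119) (nat_lit 1) (p (nat_lit 0xc1) (nat_lit 0) (p (nat_lit 0x81) (nat_lit 1) (p (nat_lit 0x41) (nat_lit 1) (p (nat_lit 0x10a098b090a9a) (nat_lit 0) (p (nat_lit 0x9890a888a1a) (nat_lit 0) (p (nat_lit 0x109088a08079a) (nat_lit 0) (p (nat_lit 0x8880987871a) (nat_lit 0) (p (nat_lit 0x8000000000800080907088a) (nat_lit 0) (p (nat_lit 0x8000000000800078886860a) (nat_lit 0) (p (nat_lit 0x10688060782) (nat_lit 0) (p (nat_lit 0x607858702) (nat_lit 0) (p (nat_lit 0x10587050482) (nat_lit 0) (p (nat_lit 0x506848402) (nat_lit 0) (p (nat_lit 0x16000c) (nat_lit 0) (p (nat_lit 0x50612) (nat_lit 0) (p (nat_lit 0x40592) (nat_lit 0) (p (nat_lit 0x40492) (nat_lit 0) (p (nat_lit 0x30412) (nat_lit 0) (p (nat_lit 0x30212) (nat_lit 0) (p (nat_lit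 0x20192) (nat_lit 0) (p (nat_lit 0x20092) (nat_lit 0) (p (nat_lit 0x10012) (nat_lit 0) pn)))))))))))))))))))))))))) :=
  Cl.node (nat_lit 0x3c4aa) (nat_lit 12) (by decide +kernel) (ClAll.succ (ClAll.succ (ClAll.succ (ClAll.succ (ClAll.succ (ClAll.succ (ClAll.succ (ClAll.succ (ClAll.succ (ClAll.succ (ClAll.succ (ClAll.succ ClAll.zero s958) s959) s960) s961) s962) s963) s964) s965) s966) s967) s968) s969)

def n374 : Cl (O (nat_lit 5)) (R (nat_lit 104465))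
    (p (nat_lit 0x109) (nat_lit 1) (p (nat_lit 0x101) (nat_lit 0) (p (nat_lit 0x119) (nat_lit 0) (p (nat_lit 0xd1) (nat_lit 0) (p (nat_lit 0x89) (nat_lit 0) (p (nat_lit 0x41) (nat_lit 0) (p (nat_lit 0x10a098b090a9a) (nat_lit 0) (p (nat_lit 0x9890a888a1a) (nat_lit 0) (p (nat_lit 0x109088a08079a) (nat_lit 0) (p (nat_lit 0x8880987871a) (nat_lit 0) (p (nat_lit 0x8000000000800080907088a) (nat_lit 0) (p (nat_lit 0x8000000000800078886860a) (nat_lit 0) (p (nat_lit 0x10688060782) (nat_lit 0) (p (nat_lit 0x607858702) (nat_lit 0) (p (nat_lit 0x10587050482) (nat_lit 0) (p (nat_lit 0x506848402) (nat_lit 0) (p (nat_lit 0x16000c) (nat_lit 0) (p (nat_lit 0x50612) (nat_lit 0) (p (nat_lit 0x40592) (nat_lit 0) (p (nat_lit 0x40492) (nat_lit 0) (p (nat_lit 0x30412) (nat_lit 0) (p (nat_lit 0x30212) (nat_lit 0) (p (nat_lit 0x20192) (nat_lit 0) (p (nat_lit 0x20092) (nat_lit 0) (p (nat_lit 0x10012) (nat_lit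 0) pn))))))))))))))))))))))))) :=
  Cl.node (nat_lit 0xc9) (nat_lit 2) (by decide +kernel) (ClAll.succ (ClAll.succ ClAll.zero s1) n332)

def n375 : Cl (O (nat_lit 5)) (R (nat_lit 104465))
    (p (nat_lit 0x81) (nat_lit 0) (p (nat_lit 0x101) (nat_lit 1) (p (nat_lit 0x119) (nat_lit 0) (p (nat_lit 0xd1) (nat_lit 0) (p (nat_lit 0x89) (nat_lit 0) (p (nat_lit 0x41) (nat_lit 0) (p (nat_lit 0x10a098b090a9a) (nat_lit 0) (p (nat_lit 0x9890a888a1a) (nat_lit 0) (p (nat_lit 0x109088a08079a) (nat_lit 0) (p (nat_lit 0x8880987871a) (nat_lit 0) (p (nat_lit 0x8000000000800080907088a) (nat_lit 0) (p (nat_lit 0x8000000000800078886860a) (nat_lit 0) (p (nat_lit 0x10688060782) (nat_lit 0) (p (nat_lit 0x607858702) (nat_lit 0) (p (nat_lit 0x10587050482) (nat_lit 0) (p (nat_lit 0x506848402) (nat_lit 0) (p (nat_lit 0x16000c) (nat_lit 0) (p (nat_lit 0x50612) (nat_lit 0) (p (nat_lit 0x40592) (nat_lit 0) (p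 (nat_lit 0x40492) (nat_lit 0) (p (nat_lit 0x30412) (nat_lit 0) (p (nat_lit 0x30212) (nat_lit 0) (p (nat_lit 0x20192) (nat_lit 0) (p (nat_lit 0x20092) (nat_lit 0) (p (nat_lit 0x10012) (nat_lit 0) pn))))))))))))))))))))))))) :=
  Cl.node (nat_lit 0xc9) (nat_lit 2) (by decide +kernel) (ClAll.succ (ClAll.succ ClAll.zero n333) n334)

def n376 : Cl (O (nat_lit 5)) (R (nat_lit 104465))
    (p (nat_lit 0x81) (nat_lit 1) (p (nat_lit 0x101) (nat_lit 1) (p (nat_lit 0x119) (nat_lit 0) (p (nat_lit 0xd1) (nat_lit 0) (p (nat_lit 0x89) (nat_lit 0) (p (nat_lit 0x41) (nat_lit 0) (p (nat_lit 0x10a098b090a9a) (nat_lit 0) (p (nat_lit 0x9890a888a1a) (nat_lit 0) (p (nat_lit 0x109088a08079a) (nat_lit 0) (p (nat_lit 0x8880987871a) (nat_lit 0) (p (nat_lit 0x8000000000800080907088a) (nat_lit 0) (p (nat_lit 0x8000000000800078886860a) (nat_lit 0) (p (nat_lit 0x10688060782) (nat_lit 0) (p (nat_lit 0x607858702)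 (nat_lit 0) (p (nat_lit 0x10587050482) (nat_lit 0) (p (nat_lit 0x506848402) (nat_lit 0) (p (nat_lit 0x16000c) (nat_lit 0) (p (nat_lit 0x50612) (nat_lit 0) (p (nat_lit 0x40592) (nat_lit 0) (p (nat_lit 0x40492) (nat_lit 0) (p (nat_lit 0x30412) (nat_lit 0) (p (nat_lit 0x30212) (nat_lit 0) (p (nat_lit 0x20192) (nat_lit 0) (p (nat_lit 0x20092) (nat_lit 0) (p (nat_lit 0x10012) (nat_lit 0) pn))))))))))))))))))))))))) :=
  Cl.node (nat_lit 0xc1) (nat_lit 2) (by decide +kernel) (ClAll.succ (ClAll.succ ClAll.zero n335) s130)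

def n377 : Cl (O (nat_lit 5)) (R (nat_lit 104465))
    (p (nat_lit 0xc9) (nat_lit 1) (p (nat_lit 0xc1) (nat_lit 0) (p (nat_lit 0x119) (nat_lit 1) (p (nat_lit 0xd1) (nat_lit 0) (p (nat_lit 0x89) (nat_lit 0) (p (nat_lit 0x41) (nat_lit 0) (p (nat_lit 0x10a098b090a9a) (nat_lit 0) (p (nat_lit 0x9890a888a1a) (nat_lit 0) (p (nat_lit 0x109088a08079a) (nat_lit 0) (p (nat_lit 0x8880987871a) (nat_lit 0) (p (nat_lit 0x8000000000800080907088a) (nat_lit 0) (p (nat_lit 0x8000000000800078886860a) (nat_lit 0) (p (nat_lit 0x10688060782) (nat_lit 0) (p (nat_lit 0x607858702) (nat_lit 0) (p (nat_lit 0x10587050482) (nat_lit 0) (p (nat_lit 0x506848402) (nat_lit 0) (p (nat_lit 0x16000c) (nat_lit 0) (p (nat_lit 0x50612) (nat_lit 0) (p (nat_lit 0x40592) (nat_lit 0) (p (nat_lit 0x40492) (nat_lit 0) (p (nat_lit 0x30412) (nat_lit 0) (p (nat_lit 0x30212) (nat_lit 0) (p (nat_lit 0x20192) (nat_lit 0) (p (nat_lit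 0x20092) (nat_lit 0) (p (nat_lit 0x10012) (nat_lit 0) pn))))))))))))))))))))))))) :=
  Cl.node (nat_lit 0x109) (nat_lit 2) (by decide +kernel) (ClAll.succ (ClAll.succ ClAll.zero s132) n336)

def n378 : Cl (O (nat_lit 5)) (R (nat_lit 104465))
    (p (nat_lit 0x81) (nat_lit 0) (p (nat_lit 0xc1) (nat_lit 1) (p (nat_lit 0x119) (nat_lit 1) (p (nat_lit 0xd1) (nat_lit 0) (p (nat_lit 0x89) (nat_lit 0) (p (nat_lit 0x41) (nat_lit 0) (p (nat_lit 0x10a098b090a9a) (nat_lit 0) (p (nat_lit 0x9890a888a1a) (nat_lit 0) (p (nat_lit 0x109088a08079a) (nat_lit 0) (p (nat_lit 0x8880987871a) (nat_lit 0) (p (nat_lit 0x8000000000800080907088a) (nat_lit 0) (p (nat_lit 0x8000000000800078886860a) (nat_lit 0) (p (nat_lit 0x10688060782) (nat_lit 0) (p (nat_lit 0x607858702) (nat_lit 0) (p (nat_lit 0x10587050482) (nat_lit 0) (p (nat_lit 0x506848402) (nat_lit 0) (p (nat_lit 0x16000c) (nat_lit 0) (p (nat_lit 0x50612)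 (nat_lit 0) (p (nat_lit 0x40592) (nat_lit 0) (p (nat_lit 0x40492) (nat_lit 0) (p (nat_lit 0x30412) (nat_lit 0) (p (nat_lit 0x30212) (nat_lit 0) (p (nat_lit 0x20192) (nat_lit 0) (p (nat_lit 0x20092) (nat_lit 0) (p (nat_lit 0x10012) (nat_lit 0) pn))))))))))))))))))))))))) :=
  Cl.node (nat_lit 0x109) (nat_lit 2) (by decide +kernel) (ClAll.succ (ClAll.succ ClAll.zero s158) n337)

def n379 : Cl (O (nat_lit 5)) (R (nat_lit 104465))
    (p (nat_lit 0x81) (nat_lit 1) (p (nat_lit 0xc1) (nat_lit 1) (p (nat_lit 0x119) (nat_lit 1) (p (nat_lit 0xd1) (nat_lit 0) (p (nat_lit 0x89) (nat_lit 0) (p (nat_lit 0x41) (nat_lit 0) (p (nat_lit 0x10a098b090a9a) (nat_lit 0) (p (nat_lit 0x9890a888a1a) (nat_lit 0) (p (nat_lit 0x109088a08079a) (nat_lit 0) (p (nat_lit 0x8880987871a) (nat_lit 0) (p (nat_lit 0x8000000000800080907088a) (nat_lit 0) (p (nat_lit 0x8000000000800078886860a) (nat_lit 0) (p (nat_lit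 0x10688060782) (nat_lit 0) (p (nat_lit 0x607858702) (nat_lit 0) (p (nat_lit 0x10587050482) (nat_lit 0) (p (nat_lit 0x506848402) (nat_lit 0) (p (nat_lit 0x16000c) (nat_lit 0) (p (nat_lit 0x50612) (nat_lit 0) (p (nat_lit 0x40592) (nat_lit 0) (p (nat_lit 0x40492) (nat_lit 0) (p (nat_lit 0x30412) (nat_lit 0) (p (nat_lit 0x30212) (nat_lit 0) (p (nat_lit 0x20192) (nat_lit 0) (p (nat_lit 0x20092) (nat_lit 0) (p (nat_lit 0x10012) (nat_lit 0) pn))))))))))))))))))))))))) :=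
  Cl.node (nat_lit 0x101) (nat_lit 2) (by decide +kernel) (ClAll.succ (ClAll.succ ClAll.zero n338) n339)

def n380 : Cl (O (nat_lit 5)) (R (nat_lit 104465))
    (p (nat_lit 0x109) (nat_lit 1) (p (nat_lit 0x101) (nat_lit 0) (p (nat_lit 0x111) (nat_lit 0) (p (nat_lit 0xd1) (nat_lit 1) (p (nat_lit 0x89) (nat_lit 0) (p (nat_lit 0x41) (nat_lit 0) (p (nat_lit 0x10a098b090a9a) (nat_lit 0) (p (nat_lit 0x9890a888a1a) (nat_lit 0) (p (nat_lit 0x109088a08079a) (nat_lit 0) (p (nat_lit 0x8880987871a) (nat_lit 0) (p (nat_lit 0x8000000000800080907088a) (nat_lit 0) (p (nat_lit 0x8000000000800078886860a) (nat_lit 0) (p (nat_lit 0x10688060782) (nat_lit 0) (p (nat_lit 0x607858702) (nat_lit 0) (p (nat_lit 0x10587050482) (nat_lit 0) (p (nat_lit 0x506848402) (nat_lit 0) (p (nat_lit 0x16000c) (nat_lit 0) (p (nat_lit 0x50612) (nat_lit 0) (p (nat_lit 0x40592) (nat_lit 0) (p (nat_lit 0x40492) (nat_lit 0)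 (p (nat_lit 0x30412) (nat_lit 0) (p (nat_lit 0x30212) (nat_lit 0) (p (nat_lit 0x20192) (nat_lit 0) (p (nat_lit 0x20092) (nat_lit 0) (p (nat_lit 0x10012) (nat_lit 0) pn))))))))))))))))))))))))) :=
  Cl.node (nat_lit 0xc1) (nat_lit 2) (by decide +kernel) (ClAll.succ (ClAll.succ ClAll.zero s240) n340)

def n381 : Cl (O (nat_lit 5)) (R (nat_lit 104465))
    (p (nat_lit 0x81) (nat_lit 0) (p (nat_lit 0x101) (nat_lit 1) (p (nat_lit 0x111) (nat_lit 0) (p (nat_lit 0xd1) (nat_lit 1) (p (nat_lit 0x89) (nat_lit 0) (p (nat_lit 0x41) (nat_lit 0) (p (nat_lit 0x10a098b090a9a) (nat_lit 0) (p (nat_lit 0x9890a888a1a) (nat_lit 0) (p (nat_lit 0x109088a08079a) (nat_lit 0) (p (nat_lit 0x8880987871a) (nat_lit 0) (p (nat_lit 0x8000000000800080907088a) (nat_lit 0) (p (nat_lit 0x8000000000800078886860a) (nat_lit 0) (p (nat_lit 0x10688060782) (nat_lit 0) (p (nat_lit 0x607858702) (nat_lit 0) (p (nat_lit 0x10587050482)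 (nat_lit 0) (p (nat_lit 0x506848402) (nat_lit 0) (p (nat_lit 0x16000c) (nat_lit 0) (p (nat_lit 0x50612) (nat_lit 0) (p (nat_lit 0x40592) (nat_lit 0) (p (nat_lit 0x40492) (nat_lit 0) (p (nat_lit 0x30412) (nat_lit 0) (p (nat_lit 0x30212) (nat_lit 0) (p (nat_lit 0x20192) (nat_lit 0) (p (nat_lit 0x20092) (nat_lit 0) (p (nat_lit 0x10012) (nat_lit 0) pn))))))))))))))))))))))))) :=
  Cl.node (nat_lit 0x119) (nat_lit 2) (by decide +kernel) (ClAll.succ (ClAll.succ ClAll.zero n341) n342)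

def n382 : Cl (O (nat_lit 5)) (R (nat_lit 104465))
    (p (nat_lit 0x81) (nat_lit 1) (p (nat_lit 0x101) (nat_lit 1) (p (nat_lit 0x111) (nat_lit 0) (p (nat_lit 0xd1) (nat_lit 1) (p (nat_lit 0x89) (nat_lit 0) (p (nat_lit 0x41) (nat_lit 0) (p (nat_lit 0x10a098b090a9a) (nat_lit 0) (p (nat_lit 0x9890a888a1a) (nat_lit 0) (p (nat_lit 0x109088a08079a) (nat_lit 0) (p (nat_lit 0x8880987871a) (nat_lit 0) (p (nat_lit 0x8000000000800080907088a) (nat_lit 0) (p (nat_lit 0x8000000000800078886860a) (nat_lit 0) (p (nat_lit 0x10688060782) (nat_lit 0) (p (nat_lit 0x607858702) (nat_lit 0) (p (nat_lit 0x10587050482) (nat_lit 0) (p (nat_lit 0x506848402) (nat_lit 0) (p (nat_lit 0x16000c) (nat_lit 0) (p (nat_lit 0x50612) (nat_lit 0) (p (nat_lit 0x40592) (nat_lit 0) (p (nat_lit 0x40492) (nat_lit 0) (p (nat_lit 0x30412) (nat_lit 0) (p (nat_lit 0x30212) (nat_lit 0) (p (nat_lit 0x20192) (nat_lit 0) (p (nat_lit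 0x20092) (nat_lit 0) (p (nat_lit 0x10012) (nat_lit 0) pn))))))))))))))))))))))))) :=
  Cl.node (nat_lit 0xc1) (nat_lit 2) (by decide +kernel) (ClAll.succ (ClAll.succ ClAll.zero n343) s349)

def n383 : Cl (O (nat_lit 5)) (R (nat_lit 104465))
    (p (nat_lit 0xc1) (nat_lit 1) (p (nat_lit 0x81) (nat_lit 1) (p (nat_lit 0x111) (nat_lit 1) (p (nat_lit 0xd1) (nat_lit 1) (p (nat_lit 0x89) (nat_lit 0) (p (nat_lit 0x41) (nat_lit 0) (p (nat_lit 0x10a098b090a9a) (nat_lit 0) (p (nat_lit 0x9890a888a1a) (nat_lit 0) (p (nat_lit 0x109088a08079a) (nat_lit 0) (p (nat_lit 0x8880987871a) (nat_lit 0) (p (nat_lit 0x8000000000800080907088a) (nat_lit 0) (p (nat_lit 0x8000000000800078886860a) (nat_lit 0) (p (nat_lit 0x10688060782) (nat_lit 0) (p (nat_lit 0x607858702) (nat_lit 0) (p (nat_lit 0x10587050482) (nat_lit 0) (p (nat_lit 0x506848402) (nat_lit 0) (p (nat_lit 0x16000c) (nat_lit 0) (p (nat_lit 0x50612)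 (nat_lit 0) (p (nat_lit 0x40592) (nat_lit 0) (p (nat_lit 0x40492) (nat_lit 0) (p (nat_lit 0x30412) (nat_lit 0) (p (nat_lit 0x30212) (nat_lit 0) (p (nat_lit 0x20192) (nat_lit 0) (p (nat_lit 0x20092) (nat_lit 0) (p (nat_lit 0x10012) (nat_lit 0) pn))))))))))))))))))))))))) :=
  Cl.node (nat_lit 0x101) (nat_lit 2) (by decide +kernel) (ClAll.succ (ClAll.succ ClAll.zero n344) s367)

def n384 : Cl (O (nat_lit 5)) (R (nat_lit 104465))
    (p (nat_lit 0x109) (nat_lit 0) (p (nat_lit 0x101) (nat_lit 0) (p (nat_lit 0x119) (nat_lit 0) (p (nat_lit 0xc9) (nat_lit 0) (p (nat_lit 0x89) (nat_lit 1) (p (nat_lit 0x41) (nat_lit 0) (p (nat_lit 0x10a098b090a9a) (nat_lit 0) (p (nat_lit 0x9890a888a1a) (nat_lit 0) (p (nat_lit 0x109088a08079a) (nat_lit 0) (p (nat_lit 0x8880987871a) (nat_lit 0) (p (nat_lit 0x8000000000800080907088a) (nat_lit 0) (p (nat_lit 0x8000000000800078886860a) (nat_lit 0) (p (nat_lit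 0x10688060782) (nat_lit 0) (p (nat_lit 0x607858702) (nat_lit 0) (p (nat_lit 0x10587050482) (nat_lit 0) (p (nat_lit 0x506848402) (nat_lit 0) (p (nat_lit 0x16000c) (nat_lit 0) (p (nat_lit 0x50612) (nat_lit 0) (p (nat_lit 0x40592) (nat_lit 0) (p (nat_lit 0x40492) (nat_lit 0) (p (nat_lit 0x30412) (nat_lit 0) (p (nat_lit 0x30212) (nat_lit 0) (p (nat_lit 0x20192) (nat_lit 0) (p (nat_lit 0x20092) (nat_lit 0) (p (nat_lit 0x10012) (nat_lit 0) pn))))))))))))))))))))))))) :=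
  Cl.node (nat_lit 0x111) (nat_lit 2) (by decide +kernel) (ClAll.succ (ClAll.succ ClAll.zero s368) n345)

def n385 : Cl (O (nat_lit 5)) (R (nat_lit 104465))
    (p (nat_lit 0x109) (nat_lit 1) (p (nat_lit 0x101) (nat_lit 0) (p (nat_lit 0x119) (nat_lit 0) (p (nat_lit 0xc9) (nat_lit 0) (p (nat_lit 0x89) (nat_lit 1) (p (nat_lit 0x41) (nat_lit 0) (p (nat_lit 0x10a098b090a9a) (nat_lit 0) (p (nat_lit 0x9890a888a1a) (nat_lit 0) (p (nat_lit 0x109088a08079a) (nat_lit 0) (p (nat_lit 0x8880987871a) (nat_lit 0) (p (nat_lit 0x8000000000800080907088a) (nat_lit 0) (p (nat_lit 0x8000000000800078886860a) (nat_lit 0) (p (nat_lit 0x10688060782) (nat_lit 0) (p (nat_lit 0x607858702) (nat_lit 0) (p (nat_lit 0x10587050482) (nat_lit 0) (p (nat_lit 0x506848402) (nat_lit 0) (p (nat_lit 0x16000c) (nat_lit 0) (p (nat_lit 0x50612) (nat_lit 0) (p (nat_lit 0x40592) (nat_lit 0) (p (nat_lit 0x40492) (nat_lit 0)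 (p (nat_lit 0x30412) (nat_lit 0) (p (nat_lit 0x30212) (nat_lit 0) (p (nat_lit 0x20192) (nat_lit 0) (p (nat_lit 0x20092) (nat_lit 0) (p (nat_lit 0x10012) (nat_lit 0) pn))))))))))))))))))))))))) :=
  Cl.node (nat_lit 0xd1) (nat_lit 2) (by decide +kernel) (ClAll.succ (ClAll.succ ClAll.zero n346) n347)

def n386 : Cl (O (nat_lit 5)) (R (nat_lit 104465))
    (p (nat_lit 0xc1) (nat_lit 0) (p (nat_lit 0x101) (nat_lit 1) (p (nat_lit 0x119) (nat_lit 0) (p (nat_lit 0xc9) (nat_lit 0) (p (nat_lit 0x89) (nat_lit 1) (p (nat_lit 0x41) (nat_lit 0) (p (nat_lit 0x10a098b090a9a) (nat_lit 0) (p (nat_lit 0x9890a888a1a) (nat_lit 0) (p (nat_lit 0x109088a08079a) (nat_lit 0) (p (nat_lit 0x8880987871a) (nat_lit 0) (p (nat_lit 0x8000000000800080907088a) (nat_lit 0) (p (nat_lit 0x8000000000800078886860a) (nat_lit 0) (p (nat_lit 0x10688060782) (nat_lit 0) (p (nat_lit 0x607858702) (nat_lit 0) (p (nat_lit 0x10587050482)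 (nat_lit 0) (p (nat_lit 0x506848402) (nat_lit 0) (p (nat_lit 0x16000c) (nat_lit 0) (p (nat_lit 0x50612) (nat_lit 0) (p (nat_lit 0x40592) (nat_lit 0) (p (nat_lit 0x40492) (nat_lit 0) (p (nat_lit 0x30412) (nat_lit 0) (p (nat_lit 0x30212) (nat_lit 0) (p (nat_lit 0x20192) (nat_lit 0) (p (nat_lit 0x20092) (nat_lit 0) (p (nat_lit 0x10012) (nat_lit 0) pn))))))))))))))))))))))))) :=
  Cl.node (nat_lit 0xd1) (nat_lit 2) (by decide +kernel) (ClAll.succ (ClAll.succ ClAll.zero n348) n349)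

def n387 : Cl (O (nat_lit 5)) (R (nat_lit 104465))
    (p (nat_lit 0xd1) (nat_lit 1) (p (nat_lit 0xc1) (nat_lit 0) (p (nat_lit 0x119) (nat_lit 1) (p (nat_lit 0xc9) (nat_lit 0) (p (nat_lit 0x89) (nat_lit 1) (p (nat_lit 0x41) (nat_lit 0) (p (nat_lit 0x10a098b090a9a) (nat_lit 0) (p (nat_lit 0x9890a888a1a) (nat_lit 0) (p (nat_lit 0x109088a08079a) (nat_lit 0) (p (nat_lit 0x8880987871a) (nat_lit 0) (p (nat_lit 0x8000000000800080907088a) (nat_lit 0) (p (nat_lit 0x8000000000800078886860a) (nat_lit 0) (p (nat_lit 0x10688060782) (nat_lit 0) (p (nat_lit 0x607858702) (nat_lit 0) (p (nat_lit 0x10587050482) (nat_lit 0) (p (nat_lit 0x506848402) (nat_lit 0) (p (nat_lit 0x16000c) (nat_lit 0) (p (nat_lit 0x50612) (nat_lit 0) (p (nat_lit 0x40592) (nat_lit 0) (p (nat_lit 0x40492) (nat_lit 0) (p (nat_lit 0x30412) (nat_lit 0) (p (nat_lit 0x30212) (nat_lit 0) (p (nat_lit 0x20192) (nat_lit 0) (p (nat_lit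 0x20092) (nat_lit 0) (p (nat_lit 0x10012) (nat_lit 0) pn))))))))))))))))))))))))) :=
  Cl.node (nat_lit 0x111) (nat_lit 2) (by decide +kernel) (ClAll.succ (ClAll.succ ClAll.zero s501) n350)

def n388 : Cl (O (nat_lit 5)) (R (nat_lit 104465))
    (p (nat_lit 0x101) (nat_lit 0) (p (nat_lit 0xc1) (nat_lit 1) (p (nat_lit 0x119) (nat_lit 1) (p (nat_lit 0xc9) (nat_lit 0) (p (nat_lit 0x89) (nat_lit 1) (p (nat_lit 0x41) (nat_lit 0) (p (nat_lit 0x10a098b090a9a) (nat_lit 0) (p (nat_lit 0x9890a888a1a) (nat_lit 0) (p (nat_lit 0x109088a08079a) (nat_lit 0) (p (nat_lit 0x8880987871a) (nat_lit 0) (p (nat_lit 0x8000000000800080907088a) (nat_lit 0) (p (nat_lit 0x8000000000800078886860a) (nat_lit 0) (p (nat_lit 0x10688060782) (nat_lit 0) (p (nat_lit 0x607858702) (nat_lit 0) (p (nat_lit 0x10587050482) (nat_lit 0) (p (nat_lit 0x506848402) (nat_lit 0) (p (nat_lit 0x16000c) (nat_lit 0) (p (nat_lit 0x50612)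 (nat_lit 0) (p (nat_lit 0x40592) (nat_lit 0) (p (nat_lit 0x40492) (nat_lit 0) (p (nat_lit 0x30412) (nat_lit 0) (p (nat_lit 0x30212) (nat_lit 0) (p (nat_lit 0x20192) (nat_lit 0) (p (nat_lit 0x20092) (nat_lit 0) (p (nat_lit 0x10012) (nat_lit 0) pn))))))))))))))))))))))))) :=
  Cl.node (nat_lit 0x111) (nat_lit 2) (by decide +kernel) (ClAll.succ (ClAll.succ ClAll.zero n351) n352)

def n389 : Cl (O (nat_lit 5)) (R (nat_lit 104465))
    (p (nat_lit 0x111) (nat_lit 0) (p (nat_lit 0x101) (nat_lit 0) (p (nat_lit 0x109) (nat_lit 0) (p (nat_lit 0xc9) (nat_lit 1) (p (nat_lit 0x89) (nat_lit 1) (p (nat_lit 0x41) (nat_lit 0) (p (nat_lit 0x10a098b090a9a) (nat_lit 0) (p (nat_lit 0x9890a888a1a) (nat_lit 0) (p (nat_lit 0x109088a08079a) (nat_lit 0) (p (nat_lit 0x8880987871a) (nat_lit 0) (p (nat_lit 0x8000000000800080907088a) (nat_lit 0) (p (nat_lit 0x8000000000800078886860a) (nat_lit 0) (p (nat_lit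 0x10688060782) (nat_lit 0) (p (nat_lit 0x607858702) (nat_lit 0) (p (nat_lit 0x10587050482) (nat_lit 0) (p (nat_lit 0x506848402) (nat_lit 0) (p (nat_lit 0x16000c) (nat_lit 0) (p (nat_lit 0x50612) (nat_lit 0) (p (nat_lit 0x40592) (nat_lit 0) (p (nat_lit 0x40492) (nat_lit 0) (p (nat_lit 0x30412) (nat_lit 0) (p (nat_lit 0x30212) (nat_lit 0) (p (nat_lit 0x20192) (nat_lit 0) (p (nat_lit 0x20092) (nat_lit 0) (p (nat_lit 0x10012) (nat_lit 0) pn))))))))))))))))))))))))) :=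
  Cl.node (nat_lit 0x119) (nat_lit 2) (by decide +kernel) (ClAll.succ (ClAll.succ ClAll.zero s555) n353)

def n390 : Cl (O (nat_lit 5)) (R (nat_lit 104465))
    (p (nat_lit 0x109) (nat_lit 1) (p (nat_lit 0x101) (nat_lit 0) (p (nat_lit 0x119) (nat_lit 0) (p (nat_lit 0xd1) (nat_lit 0) (p (nat_lit 0x81) (nat_lit 0) (p (nat_lit 0x41) (nat_lit 1) (p (nat_lit 0x10a098b090a9a) (nat_lit 0) (p (nat_lit 0x9890a888a1a) (nat_lit 0) (p (nat_lit 0x109088a08079a) (nat_lit 0) (p (nat_lit 0x8880987871a) (nat_lit 0) (p (nat_lit 0x8000000000800080907088a) (nat_lit 0) (p (nat_lit 0x8000000000800078886860a) (nat_lit 0) (p (nat_lit 0x10688060782) (nat_lit 0) (p (nat_lit 0x607858702) (nat_lit 0) (p (nat_lit 0x10587050482) (nat_lit 0) (p (nat_lit 0x506848402) (nat_lit 0) (p (nat_lit 0x16000c) (nat_lit 0) (p (nat_lit 0x50612) (nat_lit 0) (p (nat_lit 0x40592) (nat_lit 0) (p (nat_lit 0x40492) (nat_lit 0)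 (p (nat_lit 0x30412) (nat_lit 0) (p (nat_lit 0x30212) (nat_lit 0) (p (nat_lit 0x20192) (nat_lit 0) (p (nat_lit 0x20092) (nat_lit 0) (p (nat_lit 0x10012) (nat_lit 0) pn))))))))))))))))))))))))) :=
  Cl.node (nat_lit 0x89) (nat_lit 2) (by decide +kernel) (ClAll.succ (ClAll.succ ClAll.zero n354) n355)

def n391 : Cl (O (nat_lit 5)) (R (nat_lit 104465))
    (p (nat_lit 0xc1) (nat_lit 0) (p (nat_lit 0x101) (nat_lit 1) (p (nat_lit 0x119) (nat_lit 0) (p (nat_lit 0xd1) (nat_lit 0) (p (nat_lit 0x81) (nat_lit 0) (p (nat_lit 0x41) (nat_lit 1) (p (nat_lit 0x10a098b090a9a) (nat_lit 0) (p (nat_lit 0x9890a888a1a) (nat_lit 0) (p (nat_lit 0x109088a08079a) (nat_lit 0) (p (nat_lit 0x8880987871a) (nat_lit 0) (p (nat_lit 0x8000000000800080907088a) (nat_lit 0) (p (nat_lit 0x8000000000800078886860a) (nat_lit 0) (p (nat_lit 0x10688060782) (nat_lit 0) (p (nat_lit 0x607858702) (nat_lit 0) (p (nat_lit 0x10587050482)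 (nat_lit 0) (p (nat_lit 0x506848402) (nat_lit 0) (p (nat_lit 0x16000c) (nat_lit 0) (p (nat_lit 0x50612) (nat_lit 0) (p (nat_lit 0x40592) (nat_lit 0) (p (nat_lit 0x40492) (nat_lit 0) (p (nat_lit 0x30412) (nat_lit 0) (p (nat_lit 0x30212) (nat_lit 0) (p (nat_lit 0x20192) (nat_lit 0) (p (nat_lit 0x20092) (nat_lit 0) (p (nat_lit 0x10012) (nat_lit 0) pn))))))))))))))))))))))))) :=
  Cl.node (nat_lit 0x89) (nat_lit 2) (by decide +kernel) (ClAll.succ (ClAll.succ ClAll.zero n356) n357)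

def n392 : Cl (O (nat_lit 5)) (R (nat_lit 104465))
    (p (nat_lit 0xc1) (nat_lit 1) (p (nat_lit 0x101) (nat_lit 1) (p (nat_lit 0x119) (nat_lit 0) (p (nat_lit 0xd1) (nat_lit 0) (p (nat_lit 0x81) (nat_lit 0) (p (nat_lit 0x41) (nat_lit 1) (p (nat_lit 0x10a098b090a9a) (nat_lit 0) (p (nat_lit 0x9890a888a1a) (nat_lit 0) (p (nat_lit 0x109088a08079a) (nat_lit 0) (p (nat_lit 0x8880987871a) (nat_lit 0) (p (nat_lit 0x8000000000800080907088a) (nat_lit 0) (p (nat_lit 0x8000000000800078886860a) (nat_lit 0) (p (nat_lit 0x10688060782) (nat_lit 0) (p (nat_lit 0x607858702) (nat_lit 0) (p (nat_lit 0x10587050482) (nat_lit 0) (p (nat_lit 0x506848402) (nat_lit 0) (p (nat_lit 0x16000c) (nat_lit 0) (p (nat_lit 0x50612) (nat_lit 0) (p (nat_lit 0x40592) (nat_lit 0) (p (nat_lit 0x40492) (nat_lit 0) (p (nat_lit 0x30412) (nat_lit 0) (p (nat_lit 0x30212) (nat_lit 0) (p (nat_lit 0x20192) (nat_lit 0) (p (nat_lit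 0x20092) (nat_lit 0) (p (nat_lit 0x10012) (nat_lit 0) pn))))))))))))))))))))))))) :=
  Cl.node (nat_lit 0x89) (nat_lit 2) (by decide +kernel) (ClAll.succ (ClAll.succ ClAll.zero n358) n359)

def n393 : Cl (O (nat_lit 5)) (R (nat_lit 104465))
    (p (nat_lit 0xc9) (nat_lit 1) (p (nat_lit 0xc1) (nat_lit 0) (p (nat_lit 0x119) (nat_lit 1) (p (nat_lit 0xd1) (nat_lit 0) (p (nat_lit 0x81) (nat_lit 0) (p (nat_lit 0x41) (nat_lit 1) (p (nat_lit 0x10a098b090a9a) (nat_lit 0) (p (nat_lit 0x9890a888a1a) (nat_lit 0) (p (nat_lit 0x109088a08079a) (nat_lit 0) (p (nat_lit 0x8880987871a) (nat_lit 0) (p (nat_lit 0x8000000000800080907088a) (nat_lit 0) (p (nat_lit 0x8000000000800078886860a) (nat_lit 0) (p (nat_lit 0x10688060782) (nat_lit 0) (p (nat_lit 0x607858702) (nat_lit 0) (p (nat_lit 0x10587050482) (nat_lit 0) (p (nat_lit 0x506848402) (nat_lit 0) (p (nat_lit 0x16000c) (nat_lit 0) (p (nat_lit 0x50612)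 (nat_lit 0) (p (nat_lit 0x40592) (nat_lit 0) (p (nat_lit 0x40492) (nat_lit 0) (p (nat_lit 0x30412) (nat_lit 0) (p (nat_lit 0x30212) (nat_lit 0) (p (nat_lit 0x20192) (nat_lit 0) (p (nat_lit 0x20092) (nat_lit 0) (p (nat_lit 0x10012) (nat_lit 0) pn))))))))))))))))))))))))) :=
  Cl.node (nat_lit 0x89) (nat_lit 2) (by decide +kernel) (ClAll.succ (ClAll.succ ClAll.zero s701) n360)

def n394 : Cl (O (nat_lit 5)) (R (nat_lit 104465))
    (p (nat_lit 0x101) (nat_lit 0) (p (nat_lit 0xc1) (nat_lit 1) (p (nat_lit 0x119) (nat_lit 1) (p (nat_lit 0xd1) (nat_lit 0) (p (nat_lit 0x81) (nat_lit 0) (p (nat_lit 0x41) (nat_lit 1) (p (nat_lit 0x10a098b090a9a) (nat_lit 0) (p (nat_lit 0x9890a888a1a) (nat_lit 0) (p (nat_lit 0x109088a08079a) (nat_lit 0) (p (nat_lit 0x8880987871a) (nat_lit 0) (p (nat_lit 0x8000000000800080907088a) (nat_lit 0) (p (nat_lit 0x8000000000800078886860a) (nat_lit 0) (p (nat_lit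 0x10688060782) (nat_lit 0) (p (nat_lit 0x607858702) (nat_lit 0) (p (nat_lit 0x10587050482) (nat_lit 0) (p (nat_lit 0x506848402) (nat_lit 0) (p (nat_lit 0x16000c) (nat_lit 0) (p (nat_lit 0x50612) (nat_lit 0) (p (nat_lit 0x40592) (nat_lit 0) (p (nat_lit 0x40492) (nat_lit 0) (p (nat_lit 0x30412) (nat_lit 0) (p (nat_lit 0x30212) (nat_lit 0) (p (nat_lit 0x20192) (nat_lit 0) (p (nat_lit 0x20092) (nat_lit 0) (p (nat_lit 0x10012) (nat_lit 0) pn))))))))))))))))))))))))) :=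
  Cl.node (nat_lit 0x89) (nat_lit 2) (by decide +kernel) (ClAll.succ (ClAll.succ ClAll.zero s727) n361)

def n395 : Cl (O (nat_lit 5)) (R (nat_lit 104465))
    (p (nat_lit 0x101) (nat_lit 1) (p (nat_lit 0xc1) (nat_lit 1) (p (nat_lit 0x119) (nat_lit 1) (p (nat_lit 0xd1) (nat_lit 0) (p (nat_lit 0x81) (nat_lit 0) (p (nat_lit 0x41) (nat_lit 1) (p (nat_lit 0x10a098b090a9a) (nat_lit 0) (p (nat_lit 0x9890a888a1a) (nat_lit 0) (p (nat_lit 0x109088a08079a) (nat_lit 0) (p (nat_lit 0x8880987871a) (nat_lit 0) (p (nat_lit 0x8000000000800080907088a) (nat_lit 0) (p (nat_lit 0x8000000000800078886860a) (nat_lit 0) (p (nat_lit 0x10688060782) (nat_lit 0) (p (nat_lit 0x607858702) (nat_lit 0) (p (nat_lit 0x10587050482) (nat_lit 0) (p (nat_lit 0x506848402) (nat_lit 0) (p (nat_lit 0x16000c) (nat_lit 0) (p (nat_lit 0x50612) (nat_lit 0) (p (nat_lit 0x40592) (nat_lit 0) (p (nat_lit 0x40492) (nat_lit 0)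 (p (nat_lit 0x30412) (nat_lit 0) (p (nat_lit 0x30212) (nat_lit 0) (p (nat_lit 0x20192) (nat_lit 0) (p (nat_lit 0x20092) (nat_lit 0) (p (nat_lit 0x10012) (nat_lit 0) pn))))))))))))))))))))))))) :=
  Cl.node (nat_lit 0x89) (nat_lit 2) (by decide +kernel) (ClAll.succ (ClAll.succ ClAll.zero n362) n363)

def n396 : Cl (O (nat_lit 5)) (R (nat_lit 104465))
    (p (nat_lit 0x109) (nat_lit 1) (p (nat_lit 0x101) (nat_lit 0) (p (nat_lit 0x111) (nat_lit 0) (p (nat_lit 0xd1) (nat_lit 1) (p (nat_lit 0x81) (nat_lit 0) (p (nat_lit 0x41) (nat_lit 1) (p (nat_lit 0x10a098b090a9a) (nat_lit 0) (p (nat_lit 0x9890a888a1a) (nat_lit 0) (p (nat_lit 0x109088a08079a) (nat_lit 0) (p (nat_lit 0x8880987871a) (nat_lit 0) (p (nat_lit 0x8000000000800080907088a) (nat_lit 0) (p (nat_lit 0x8000000000800078886860a) (nat_lit 0) (p (nat_lit 0x10688060782) (nat_lit 0) (p (nat_lit 0x607858702) (nat_lit 0) (p (nat_lit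 0x10587050482) (nat_lit 0) (p (nat_lit 0x506848402) (nat_lit 0) (p (nat_lit 0x16000c) (nat_lit 0) (p (nat_lit 0x50612) (nat_lit 0) (p (nat_lit 0x40592) (nat_lit 0) (p (nat_lit 0x40492) (nat_lit 0) (p (nat_lit 0x30412) (nat_lit 0) (p (nat_lit 0x30212) (nat_lit 0) (p (nat_lit 0x20192) (nat_lit 0) (p (nat_lit 0x20092) (nat_lit 0) (p (nat_lit 0x10012) (nat_lit 0) pn))))))))))))))))))))))))) :=
  Cl.node (nat_lit 0x89) (nat_lit 2) (by decide +kernel) (ClAll.succ (ClAll.succ ClAll.zero s778) n364)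

def n397 : Cl (O (nat_lit 5)) (R (nat_lit 104465))
    (p (nat_lit 0x89) (nat_lit 0) (p (nat_lit 0x101) (nat_lit 1) (p (nat_lit 0x111) (nat_lit 0) (p (nat_lit 0xd1) (nat_lit 1) (p (nat_lit 0x81) (nat_lit 0) (p (nat_lit 0x41) (nat_lit 1) (p (nat_lit 0x10a098b090a9a) (nat_lit 0) (p (nat_lit 0x9890a888a1a) (nat_lit 0) (p (nat_lit 0x109088a08079a) (nat_lit 0) (p (nat_lit 0x8880987871a) (nat_lit 0) (p (nat_lit 0x8000000000800080907088a) (nat_lit 0) (p (nat_lit 0x8000000000800078886860a) (nat_lit 0) (p (nat_lit 0x10688060782) (nat_lit 0) (p (nat_lit 0x607858702) (nat_lit 0) (p (nat_lit 0x10587050482) (nat_lit 0) (p (nat_lit 0x506848402) (nat_lit 0) (p (nat_lit 0x16000c) (nat_lit 0) (p (nat_lit 0x50612) (nat_lit 0) (p (nat_lit 0x40592) (nat_lit 0) (p (nat_lit 0x40492) (nat_lit 0) (p (nat_lit 0x30412) (nat_lit 0) (p (nat_lit 0x30212) (nat_lit 0) (p (nat_lit 0x20192) (nat_lit 0) (p (nat_lit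 0x20092) (nat_lit 0) (p (nat_lit 0x10012) (nat_lit 0) pn))))))))))))))))))))))))) :=
  Cl.node (nat_lit 0x3cc2a) (nat_lit 12) (by decide +kernel) (ClAll.succ (ClAll.succ (ClAll.succ (ClAll.succ (ClAll.succ (ClAll.succ (ClAll.succ (ClAll.succ (ClAll.succ (ClAll.succ (ClAll.succ (ClAll.succ ClAll.zero s840) n365) s843) s844) s845) s846) s847) s848) s849) s850) s851) s852)

def n398 : Cl (O (nat_lit 5)) (R (nat_lit 104465))
    (p (nat_lit 0x89) (nat_lit 1) (p (nat_lit 0x101) (nat_lit 1) (p (nat_lit 0x111) (nat_lit 0) (p (nat_lit 0xd1) (nat_lit 1) (p (nat_lit 0x81) (nat_lit 0) (p (nat_lit 0x41) (nat_lit 1) (p (nat_lit 0x10a098b090a9a) (nat_lit 0) (p (nat_lit 0x9890a888a1a) (nat_lit 0) (p (nat_lit 0x109088a08079a) (nat_lit 0) (p (nat_lit 0x8880987871a) (nat_lit 0) (p (nat_lit 0x8000000000800080907088a) (nat_lit 0) (p (nat_lit 0x8000000000800078886860a) (nat_lit 0) (p (nat_lit 0x10688060782)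 (nat_lit 0) (p (nat_lit 0x607858702) (nat_lit 0) (p (nat_lit 0x10587050482) (nat_lit 0) (p (nat_lit 0x506848402) (nat_lit 0) (p (nat_lit 0x16000c) (nat_lit 0) (p (nat_lit 0x50612) (nat_lit 0) (p (nat_lit 0x40592) (nat_lit 0) (p (nat_lit 0x40492) (nat_lit 0) (p (nat_lit 0x30412) (nat_lit 0) (p (nat_lit 0x30212) (nat_lit 0) (p (nat_lit 0x20192) (nat_lit 0) (p (nat_lit 0x20092) (nat_lit 0) (p (nat_lit 0x10012) (nat_lit 0) pn))))))))))))))))))))))))) :=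
  Cl.node (nat_lit 0xc9) (nat_lit 2) (by decide +kernel) (ClAll.succ (ClAll.succ ClAll.zero n366) s870)

def n399 : Cl (O (nat_lit 5)) (R (nat_lit 104465))
    (p (nat_lit 0xc9) (nat_lit 1) (p (nat_lit 0x89) (nat_lit 1) (p (nat_lit 0x111) (nat_lit 1) (p (nat_lit 0xd1) (nat_lit 1) (p (nat_lit 0x81) (nat_lit 0) (p (nat_lit 0x41) (nat_lit 1) (p (nat_lit 0x10a098b090a9a) (nat_lit 0) (p (nat_lit 0x9890a888a1a) (nat_lit 0) (p (nat_lit 0x109088a08079a) (nat_lit 0) (p (nat_lit 0x8880987871a) (nat_lit 0) (p (nat_lit 0x8000000000800080907088a) (nat_lit 0) (p (nat_lit 0x8000000000800078886860a) (nat_lit 0) (p (nat_lit 0x10688060782) (nat_lit 0) (p (nat_lit 0x607858702) (nat_lit 0) (p (nat_lit 0x10587050482) (nat_lit 0) (p (nat_lit 0x506848402) (nat_lit 0) (p (nat_lit 0x16000c) (nat_lit 0) (p (nat_lit 0x50612) (nat_lit 0) (p (nat_lit 0x40592) (nat_lit 0) (p (nat_lit 0x40492) (nat_lit 0) (p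 (nat_lit 0x30412) (nat_lit 0) (p (nat_lit 0x30212) (nat_lit 0) (p (nat_lit 0x20192) (nat_lit 0) (p (nat_lit 0x20092) (nat_lit 0) (p (nat_lit 0x10012) (nat_lit 0) pn))))))))))))))))))))))))) :=
  Cl.node (nat_lit 0x109) (nat_lit 2) (by decide +kernel) (ClAll.succ (ClAll.succ ClAll.zero n367) s886)

def n400 : Cl (O (nat_lit 5)) (R (nat_lit 104465))
    (p (nat_lit 0x109) (nat_lit 0) (p (nat_lit 0x101) (nat_lit 0) (p (nat_lit 0x119) (nat_lit 0) (p (nat_lit 0xc1) (nat_lit 0) (p (nat_lit 0x81) (nat_lit 1) (p (nat_lit 0x41) (nat_lit 1) (p (nat_lit 0x10a098b090a9a) (nat_lit 0) (p (nat_lit 0x9890a888a1a) (nat_lit 0) (p (nat_lit 0x109088a08079a) (nat_lit 0) (p (nat_lit 0x8880987871a) (nat_lit 0) (p (nat_lit 0x8000000000800080907088a) (nat_lit 0) (p (nat_lit 0x8000000000800078886860a) (nat_lit 0) (p (nat_lit 0x10688060782) (nat_lit 0) (p (nat_lit 0x607858702) (nat_lit 0) (p (nat_lit 0x10587050482)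 (nat_lit 0) (p (nat_lit 0x506848402) (nat_lit 0) (p (nat_lit 0x16000c) (nat_lit 0) (p (nat_lit 0x50612) (nat_lit 0) (p (nat_lit 0x40592) (nat_lit 0) (p (nat_lit 0x40492) (nat_lit 0) (p (nat_lit 0x30412) (nat_lit 0) (p (nat_lit 0x30212) (nat_lit 0) (p (nat_lit 0x20192) (nat_lit 0) (p (nat_lit 0x20092) (nat_lit 0) (p (nat_lit 0x10012) (nat_lit 0) pn))))))))))))))))))))))))) :=
  Cl.node (nat_lit 0x111) (nat_lit 2) (by decide +kernel) (ClAll.succ (ClAll.succ ClAll.zero s887) n368)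

def n401 : Cl (O (nat_lit 5)) (R (nat_lit 104465))
    (p (nat_lit 0x109) (nat_lit 1) (p (nat_lit 0x101) (nat_lit 0) (p (nat_lit 0x119) (nat_lit 0) (p (nat_lit 0xc1) (nat_lit 0) (p (nat_lit 0x81) (nat_lit 1) (p (nat_lit 0x41) (nat_lit 1) (p (nat_lit 0x10a098b090a9a) (nat_lit 0) (p (nat_lit 0x9890a888a1a) (nat_lit 0) (p (nat_lit 0x109088a08079a) (nat_lit 0) (p (nat_lit 0x8880987871a) (nat_lit 0) (p (nat_lit 0x8000000000800080907088a) (nat_lit 0) (p (nat_lit 0x8000000000800078886860a) (nat_lit 0) (p (nat_lit 0x10688060782) (nat_lit 0) (p (nat_lit 0x607858702) (nat_lit 0) (p (nat_lit 0x10587050482) (nat_lit 0) (p (nat_lit 0x506848402) (nat_lit 0) (p (nat_lit 0x16000c) (nat_lit 0) (p (nat_lit 0x50612) (nat_lit 0) (p (nat_lit 0x40592) (nat_lit 0) (p (nat_lit 0x40492) (nat_lit 0) (p (nat_lit 0x30412) (nat_lit 0) (p (nat_lit 0x30212) (nat_lit 0) (p (nat_lit 0x20192) (nat_lit 0) (p (nat_lit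 0x20092) (nat_lit 0) (p (nat_lit 0x10012) (nat_lit 0) pn))))))))))))))))))))))))) :=
  Cl.node (nat_lit 0xc9) (nat_lit 2) (by decide +kernel) (ClAll.succ (ClAll.succ ClAll.zero n369) s915)

def n402 : Cl (O (nat_lit 5)) (R (nat_lit 104465))
    (p (nat_lit 0xc9) (nat_lit 0) (p (nat_lit 0x101) (nat_lit 1) (p (nat_lit 0x119) (nat_lit 0) (p (nat_lit 0xc1) (nat_lit 0) (p (nat_lit 0x81) (nat_lit 1) (p (nat_lit 0x41) (nat_lit 1) (p (nat_lit 0x10a098b090a9a) (nat_lit 0) (p (nat_lit 0x9890a888a1a) (nat_lit 0) (p (nat_lit 0x109088a08079a) (nat_lit 0) (p (nat_lit 0x8880987871a) (nat_lit 0) (p (nat_lit 0x8000000000800080907088a) (nat_lit 0) (p (nat_lit 0x8000000000800078886860a) (nat_lit 0) (p (nat_lit 0x10688060782) (nat_lit 0) (p (nat_lit 0x607858702) (nat_lit 0) (p (nat_lit 0x10587050482) (nat_lit 0) (p (nat_lit 0x506848402) (nat_lit 0) (p (nat_lit 0x16000c) (nat_lit 0) (p (nat_lit 0x50612)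 (nat_lit 0) (p (nat_lit 0x40592) (nat_lit 0) (p (nat_lit 0x40492) (nat_lit 0) (p (nat_lit 0x30412) (nat_lit 0) (p (nat_lit 0x30212) (nat_lit 0) (p (nat_lit 0x20192) (nat_lit 0) (p (nat_lit 0x20092) (nat_lit 0) (p (nat_lit 0x10012) (nat_lit 0) pn))))))))))))))))))))))))) :=
  Cl.node (nat_lit 0xd1) (nat_lit 2) (by decide +kernel) (ClAll.succ (ClAll.succ ClAll.zero n370) n371)

def n403 : Cl (O (nat_lit 5)) (R (nat_lit 104465))
    (p (nat_lit 0x109) (nat_lit 0) (p (nat_lit 0xc9) (nat_lit 1) (p (nat_lit 0x119) (nat_lit 1) (p (nat_lit 0xc1) (nat_lit 0) (p (nat_lit 0x81) (nat_lit 1) (p (nat_lit 0x41) (nat_lit 1) (p (nat_lit 0x10a098b090a9a) (nat_lit 0) (p (nat_lit 0x9890a888a1a) (nat_lit 0) (p (nat_lit 0x109088a08079a) (nat_lit 0) (p (nat_lit 0x8880987871a) (nat_lit 0) (p (nat_lit 0x8000000000800080907088a) (nat_lit 0) (p (nat_lit 0x8000000000800078886860a) (nat_lit 0) (p (nat_lit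 0x10688060782) (nat_lit 0) (p (nat_lit 0x607858702) (nat_lit 0) (p (nat_lit 0x10587050482) (nat_lit 0) (p (nat_lit 0x506848402) (nat_lit 0) (p (nat_lit 0x16000c) (nat_lit 0) (p (nat_lit 0x50612) (nat_lit 0) (p (nat_lit 0x40592) (nat_lit 0) (p (nat_lit 0x40492) (nat_lit 0) (p (nat_lit 0x30412) (nat_lit 0) (p (nat_lit 0x30212) (nat_lit 0) (p (nat_lit 0x20192) (nat_lit 0) (p (nat_lit 0x20092) (nat_lit 0) (p (nat_lit 0x10012) (nat_lit 0) pn))))))))))))))))))))))))) :=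
  Cl.node (nat_lit 0x111) (nat_lit 2) (by decide +kernel) (ClAll.succ (ClAll.succ ClAll.zero n372) n373)

def n404 : Cl (O (nat_lit 5)) (R (nat_lit 104465))
    (p (nat_lit 0x101) (nat_lit 0) (p (nat_lit 0x119) (nat_lit 0) (p (nat_lit 0xd1) (nat_lit 0) (p (nat_lit 0x89) (nat_lit 0) (p (nat_lit 0x41) (nat_lit 0) (p (nat_lit 0x10a098b090a9a) (nat_lit 0) (p (nat_lit 0x9890a888a1a) (nat_lit 0) (p (nat_lit 0x109088a08079a) (nat_lit 0) (p (nat_lit 0x8880987871a) (nat_lit 0) (p (nat_lit 0x8000000000800080907088a) (nat_lit 0) (p (nat_lit 0x8000000000800078886860a) (nat_lit 0) (p (nat_lit 0x10688060782) (nat_lit 0) (p (nat_lit 0x607858702) (nat_lit 0) (p (nat_lit 0x10587050482) (nat_lit 0) (p (nat_lit 0x506848402) (nat_lit 0) (p (nat_lit 0x16000c) (nat_lit 0) (p (nat_lit 0x50612) (nat_lit 0) (p (nat_lit 0x40592) (nat_lit 0) (p (nat_lit 0x40492) (nat_lit 0) (p (nat_lit 0x30412) (nat_lit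 0) (p (nat_lit 0x30212) (nat_lit 0) (p (nat_lit 0x20192) (nat_lit 0) (p (nat_lit 0x20092) (nat_lit 0) (p (nat_lit 0x10012) (nat_lit 0) pn)))))))))))))))))))))))) :=
  Cl.node (nat_lit 0x109) (nat_lit 2) (by decide +kernel) (ClAll.succ (ClAll.succ ClAll.zero s0) n374)

def n405 : Cl (O (nat_lit 5)) (R (nat_lit 104465))
    (p (nat_lit 0x101) (nat_lit 1) (p (nat_lit 0x119) (nat_lit 0) (p (nat_lit 0xd1) (nat_lit 0) (p (nat_lit 0x89) (nat_lit 0) (p (nat_lit 0x41) (nat_lit 0) (p (nat_lit 0x10a098b090a9a) (nat_lit 0) (p (nat_lit 0x9890a888a1a) (nat_lit 0) (p (nat_lit 0x109088a08079a) (nat_lit 0) (p (nat_lit 0x8880987871a) (nat_lit 0) (p (nat_lit 0x8000000000800080907088a) (nat_lit 0) (p (nat_lit 0x8000000000800078886860a) (nat_lit 0) (p (nat_lit 0x10688060782) (nat_lit 0) (p (nat_lit 0x607858702) (nat_lit 0) (p (nat_lit 0x10587050482) (nat_lit 0) (p (nat_lit 0x506848402) (nat_lit 0)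 (p (nat_lit 0x16000c) (nat_lit 0) (p (nat_lit 0x50612) (nat_lit 0) (p (nat_lit 0x40592) (nat_lit 0) (p (nat_lit 0x40492) (nat_lit 0) (p (nat_lit 0x30412) (nat_lit 0) (p (nat_lit 0x30212) (nat_lit 0) (p (nat_lit 0x20192) (nat_lit 0) (p (nat_lit 0x20092) (nat_lit 0) (p (nat_lit 0x10012) (nat_lit 0) pn)))))))))))))))))))))))) :=
  Cl.node (nat_lit 0x81) (nat_lit 2) (by decide +kernel) (ClAll.succ (ClAll.succ ClAll.zero n375) n376)

def n406 : Cl (O (nat_lit 5)) (R (nat_lit 104465))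
    (p (nat_lit 0xc1) (nat_lit 0) (p (nat_lit 0x119) (nat_lit 1) (p (nat_lit 0xd1) (nat_lit 0) (p (nat_lit 0x89) (nat_lit 0) (p (nat_lit 0x41) (nat_lit 0) (p (nat_lit 0x10a098b090a9a) (nat_lit 0) (p (nat_lit 0x9890a888a1a) (nat_lit 0) (p (nat_lit 0x109088a08079a) (nat_lit 0) (p (nat_lit 0x8880987871a) (nat_lit 0) (p (nat_lit 0x8000000000800080907088a) (nat_lit 0) (p (nat_lit 0x8000000000800078886860a) (nat_lit 0) (p (nat_lit 0x10688060782) (nat_lit 0) (p (nat_lit 0x607858702) (nat_lit 0) (p (nat_lit 0x10587050482) (nat_lit 0) (p (nat_lit 0x506848402) (nat_lit 0) (p (nat_lit 0x16000c) (nat_lit 0) (p (nat_lit 0x50612) (nat_lit 0) (p (nat_lit 0x40592) (nat_lit 0) (p (nat_lit 0x40492) (nat_lit 0) (p (nat_lit 0x30412) (nat_lit 0) (p (nat_lit 0x30212) (nat_lit 0) (p (nat_lit 0x20192) (nat_lit 0) (p (nat_lit 0x20092) (nat_lit 0) (p (nat_lit 0x10012) (nat_lit 0) pn))))))))))))))))))))))))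 :=
  Cl.node (nat_lit 0xc9) (nat_lit 2) (by decide +kernel) (ClAll.succ (ClAll.succ ClAll.zero s131) n377)

def n407 : Cl (O (nat_lit 5)) (R (nat_lit 104465))
    (p (nat_lit 0xc1) (nat_lit 1) (p (nat_lit 0x119) (nat_lit 1) (p (nat_lit 0xd1) (nat_lit 0) (p (nat_lit 0x89) (nat_lit 0) (p (nat_lit 0x41) (nat_lit 0) (p (nat_lit 0x10a098b090a9a) (nat_lit 0) (p (nat_lit 0x9890a888a1a) (nat_lit 0) (p (nat_lit 0x109088a08079a) (nat_lit 0) (p (nat_lit 0x8880987871a) (nat_lit 0) (p (nat_lit 0x8000000000800080907088a) (nat_lit 0) (p (nat_lit 0x8000000000800078886860a) (nat_lit 0) (p (nat_lit 0x10688060782) (nat_lit 0) (p (nat_lit 0x607858702) (nat_lit 0) (p (nat_lit 0x10587050482) (nat_lit 0) (p (nat_lit 0x506848402) (nat_lit 0) (p (nat_lit 0x16000c) (nat_lit 0) (p (nat_lit 0x50612) (nat_lit 0) (p (nat_lit 0x40592) (nat_lit 0) (p (nat_lit 0x40492) (nat_lit 0) (p (nat_lit 0x30412) (nat_lit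 0) (p (nat_lit 0x30212) (nat_lit 0) (p (nat_lit 0x20192) (nat_lit 0) (p (nat_lit 0x20092) (nat_lit 0) (p (nat_lit 0x10012) (nat_lit 0) pn)))))))))))))))))))))))) :=
  Cl.node (nat_lit 0x81) (nat_lit 2) (by decide +kernel) (ClAll.succ (ClAll.succ ClAll.zero n378) n379)

def n408 : Cl (O (nat_lit 5)) (R (nat_lit 104465))
    (p (nat_lit 0x101) (nat_lit 0) (p (nat_lit 0x111) (nat_lit 0) (p (nat_lit 0xd1) (nat_lit 1) (p (nat_lit 0x89) (nat_lit 0) (p (nat_lit 0x41) (nat_lit 0) (p (nat_lit 0x10a098b090a9a) (nat_lit 0) (p (nat_lit 0x9890a888a1a) (nat_lit 0) (p (nat_lit 0x109088a08079a) (nat_lit 0) (p (nat_lit 0x8880987871a) (nat_lit 0) (p (nat_lit 0x8000000000800080907088a) (nat_lit 0) (p (nat_lit 0x8000000000800078886860a) (nat_lit 0) (p (nat_lit 0x10688060782) (nat_lit 0) (p (nat_lit 0x607858702) (nat_lit 0) (p (nat_lit 0x10587050482) (nat_lit 0) (p (nat_lit 0x506848402) (nat_lit 0)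 (p (nat_lit 0x16000c) (nat_lit 0) (p (nat_lit 0x50612) (nat_lit 0) (p (nat_lit 0x40592) (nat_lit 0) (p (nat_lit 0x40492) (nat_lit 0) (p (nat_lit 0x30412) (nat_lit 0) (p (nat_lit 0x30212) (nat_lit 0) (p (nat_lit 0x20192) (nat_lit 0) (p (nat_lit 0x20092) (nat_lit 0) (p (nat_lit 0x10012) (nat_lit 0) pn)))))))))))))))))))))))) :=
  Cl.node (nat_lit 0x109) (nat_lit 2) (by decide +kernel) (ClAll.succ (ClAll.succ ClAll.zero s239) n380)

def n409 : Cl (O (nat_lit 5)) (R (nat_lit 104465))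
    (p (nat_lit 0x101) (nat_lit 1) (p (nat_lit 0x111) (nat_lit 0) (p (nat_lit 0xd1) (nat_lit 1) (p (nat_lit 0x89) (nat_lit 0) (p (nat_lit 0x41) (nat_lit 0) (p (nat_lit 0x10a098b090a9a) (nat_lit 0) (p (nat_lit 0x9890a888a1a) (nat_lit 0) (p (nat_lit 0x109088a08079a) (nat_lit 0) (p (nat_lit 0x8880987871a) (nat_lit 0) (p (nat_lit 0x8000000000800080907088a) (nat_lit 0) (p (nat_lit 0x8000000000800078886860a) (nat_lit 0) (p (nat_lit 0x10688060782) (nat_lit 0) (p (nat_lit 0x607858702) (nat_lit 0) (p (nat_lit 0x10587050482) (nat_lit 0) (p (nat_lit 0x506848402) (nat_lit 0) (p (nat_lit 0x16000c) (nat_lit 0) (p (nat_lit 0x50612) (nat_lit 0) (p (nat_lit 0x40592) (nat_lit 0) (p (nat_lit 0x40492) (nat_lit 0) (p (nat_lit 0x30412) (nat_lit 0) (p (nat_lit 0x30212) (nat_lit 0) (p (nat_lit 0x20192) (nat_lit 0) (p (nat_lit 0x20092) (nat_lit 0) (p (nat_lit 0x10012) (nat_lit 0) pn))))))))))))))))))))))))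 :=
  Cl.node (nat_lit 0x81) (nat_lit 2) (by decide +kernel) (ClAll.succ (ClAll.succ ClAll.zero n381) n382)

def n410 : Cl (O (nat_lit 5)) (R (nat_lit 104465))
    (p (nat_lit 0x81) (nat_lit 1) (p (nat_lit 0x111) (nat_lit 1) (p (nat_lit 0xd1) (nat_lit 1) (p (nat_lit 0x89) (nat_lit 0) (p (nat_lit 0x41) (nat_lit 0) (p (nat_lit 0x10a098b090a9a) (nat_lit 0) (p (nat_lit 0x9890a888a1a) (nat_lit 0) (p (nat_lit 0x109088a08079a) (nat_lit 0) (p (nat_lit 0x8880987871a) (nat_lit 0) (p (nat_lit 0x8000000000800080907088a) (nat_lit 0) (p (nat_lit 0x8000000000800078886860a) (nat_lit 0) (p (nat_lit 0x10688060782) (nat_lit 0) (p (nat_lit 0x607858702) (nat_lit 0) (p (nat_lit 0x10587050482) (nat_lit 0) (p (nat_lit 0x506848402) (nat_lit 0) (p (nat_lit 0x16000c) (nat_lit 0) (p (nat_lit 0x50612) (nat_lit 0) (p (nat_lit 0x40592) (nat_lit 0) (p (nat_lit 0x40492) (nat_lit 0) (p (nat_lit 0x30412) (nat_lit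 0) (p (nat_lit 0x30212) (nat_lit 0) (p (nat_lit 0x20192) (nat_lit 0) (p (nat_lit 0x20092) (nat_lit 0) (p (nat_lit 0x10012) (nat_lit 0) pn)))))))))))))))))))))))) :=
  Cl.node (nat_lit 0xc1) (nat_lit 2) (by decide +kernel) (ClAll.succ (ClAll.succ ClAll.zero s351) n383)

def n411 : Cl (O (nat_lit 5)) (R (nat_lit 104465))
    (p (nat_lit 0x101) (nat_lit 0) (p (nat_lit 0x119) (nat_lit 0) (p (nat_lit 0xc9) (nat_lit 0) (p (nat_lit 0x89) (nat_lit 1) (p (nat_lit 0x41) (nat_lit 0) (p (nat_lit 0x10a098b090a9a) (nat_lit 0) (p (nat_lit 0x9890a888a1a) (nat_lit 0) (p (nat_lit 0x109088a08079a) (nat_lit 0) (p (nat_lit 0x8880987871a) (nat_lit 0) (p (nat_lit 0x8000000000800080907088a) (nat_lit 0) (p (nat_lit 0x8000000000800078886860a) (nat_lit 0) (p (nat_lit 0x10688060782) (nat_lit 0) (p (nat_lit 0x607858702) (nat_lit 0) (p (nat_lit 0x10587050482) (nat_lit 0) (p (nat_lit 0x506848402) (nat_lit 0)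 (p (nat_lit 0x16000c) (nat_lit 0) (p (nat_lit 0x50612) (nat_lit 0) (p (nat_lit 0x40592) (nat_lit 0) (p (nat_lit 0x40492) (nat_lit 0) (p (nat_lit 0x30412) (nat_lit 0) (p (nat_lit 0x30212) (nat_lit 0) (p (nat_lit 0x20192) (nat_lit 0) (p (nat_lit 0x20092) (nat_lit 0) (p (nat_lit 0x10012) (nat_lit 0) pn)))))))))))))))))))))))) :=
  Cl.node (nat_lit 0x109) (nat_lit 2) (by decide +kernel) (ClAll.succ (ClAll.succ ClAll.zero n384) n385)

def n412 : Cl (O (nat_lit 5)) (R (nat_lit 104465))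
    (p (nat_lit 0x101) (nat_lit 1) (p (nat_lit 0x119) (nat_lit 0) (p (nat_lit 0xc9) (nat_lit 0) (p (nat_lit 0x89) (nat_lit 1) (p (nat_lit 0x41) (nat_lit 0) (p (nat_lit 0x10a098b090a9a) (nat_lit 0) (p (nat_lit 0x9890a888a1a) (nat_lit 0) (p (nat_lit 0x109088a08079a) (nat_lit 0) (p (nat_lit 0x8880987871a) (nat_lit 0) (p (nat_lit 0x8000000000800080907088a) (nat_lit 0) (p (nat_lit 0x8000000000800078886860a) (nat_lit 0) (p (nat_lit 0x10688060782) (nat_lit 0) (p (nat_lit 0x607858702) (nat_lit 0) (p (nat_lit 0x10587050482) (nat_lit 0) (p (nat_lit 0x506848402) (nat_lit 0) (p (nat_lit 0x16000c) (nat_lit 0) (p (nat_lit 0x50612) (nat_lit 0) (p (nat_lit 0x40592) (nat_lit 0) (p (nat_lit 0x40492) (nat_lit 0) (p (nat_lit 0x30412) (nat_lit 0) (p (nat_lit 0x30212) (nat_lit 0) (p (nat_lit 0x20192) (nat_lit 0) (p (nat_lit 0x20092) (nat_lit 0) (p (nat_lit 0x10012) (nat_lit 0) pn))))))))))))))))))))))))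 :=
  Cl.node (nat_lit 0xc1) (nat_lit 2) (by decide +kernel) (ClAll.succ (ClAll.succ ClAll.zero n386) s499)

def n413 : Cl (O (nat_lit 5)) (R (nat_lit 104465))
    (p (nat_lit 0xc1) (nat_lit 0) (p (nat_lit 0x119) (nat_lit 1) (p (nat_lit 0xc9) (nat_lit 0) (p (nat_lit 0x89) (nat_lit 1) (p (nat_lit 0x41) (nat_lit 0) (p (nat_lit 0x10a098b090a9a) (nat_lit 0) (p (nat_lit 0x9890a888a1a) (nat_lit 0) (p (nat_lit 0x109088a08079a) (nat_lit 0) (p (nat_lit 0x8880987871a) (nat_lit 0) (p (nat_lit 0x8000000000800080907088a) (nat_lit 0) (p (nat_lit 0x8000000000800078886860a) (nat_lit 0) (p (nat_lit 0x10688060782) (nat_lit 0) (p (nat_lit 0x607858702) (nat_lit 0) (p (nat_lit 0x10587050482) (nat_lit 0) (p (nat_lit 0x506848402) (nat_lit 0) (p (nat_lit 0x16000c) (nat_lit 0) (p (nat_lit 0x50612) (nat_lit 0) (p (nat_lit 0x40592) (nat_lit 0) (p (nat_lit 0x40492) (nat_lit 0) (p (nat_lit 0x30412) (nat_lit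 0) (p (nat_lit 0x30212) (nat_lit 0) (p (nat_lit 0x20192) (nat_lit 0) (p (nat_lit 0x20092) (nat_lit 0) (p (nat_lit 0x10012) (nat_lit 0) pn)))))))))))))))))))))))) :=
  Cl.node (nat_lit 0xd1) (nat_lit 2) (by decide +kernel) (ClAll.succ (ClAll.succ ClAll.zero s500) n387)

def n414 : Cl (O (nat_lit 5)) (R (nat_lit 104465))
    (p (nat_lit 0xc1) (nat_lit 1) (p (nat_lit 0x119) (nat_lit 1) (p (nat_lit 0xc9) (nat_lit 0) (p (nat_lit 0x89) (nat_lit 1) (p (nat_lit 0x41) (nat_lit 0) (p (nat_lit 0x10a098b090a9a) (nat_lit 0) (p (nat_lit 0x9890a888a1a) (nat_lit 0) (p (nat_lit 0x109088a08079a) (nat_lit 0) (p (nat_lit 0x8880987871a) (nat_lit 0) (p (nat_lit 0x8000000000800080907088a) (nat_lit 0) (p (nat_lit 0x8000000000800078886860a) (nat_lit 0) (p (nat_lit 0x10688060782) (nat_lit 0) (p (nat_lit 0x607858702) (nat_lit 0) (p (nat_lit 0x10587050482) (nat_lit 0) (p (nat_lit 0x506848402) (nat_lit 0)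 (p (nat_lit 0x16000c) (nat_lit 0) (p (nat_lit 0x50612) (nat_lit 0) (p (nat_lit 0x40592) (nat_lit 0) (p (nat_lit 0x40492) (nat_lit 0) (p (nat_lit 0x30412) (nat_lit 0) (p (nat_lit 0x30212) (nat_lit 0) (p (nat_lit 0x20192) (nat_lit 0) (p (nat_lit 0x20092) (nat_lit 0) (p (nat_lit 0x10012) (nat_lit 0) pn)))))))))))))))))))))))) :=
  Cl.node (nat_lit 0x101) (nat_lit 2) (by decide +kernel) (ClAll.succ (ClAll.succ ClAll.zero n388) s554)

def n415 : Cl (O (nat_lit 5)) (R (nat_lit 104465))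
    (p (nat_lit 0x101) (nat_lit 0) (p (nat_lit 0x109) (nat_lit 0) (p (nat_lit 0xc9) (nat_lit 1) (p (nat_lit 0x89) (nat_lit 1) (p (nat_lit 0x41) (nat_lit 0) (p (nat_lit 0x10a098b090a9a) (nat_lit 0) (p (nat_lit 0x9890a888a1a) (nat_lit 0) (p (nat_lit 0x109088a08079a) (nat_lit 0) (p (nat_lit 0x8880987871a) (nat_lit 0) (p (nat_lit 0x8000000000800080907088a) (nat_lit 0) (p (nat_lit 0x8000000000800078886860a) (nat_lit 0) (p (nat_lit 0x10688060782) (nat_lit 0) (p (nat_lit 0x607858702) (nat_lit 0) (p (nat_lit 0x10587050482) (nat_lit 0) (p (nat_lit 0x506848402) (nat_lit 0) (p (nat_lit 0x16000c) (nat_lit 0) (p (nat_lit 0x50612) (nat_lit 0) (p (nat_lit 0x40592) (nat_lit 0) (p (nat_lit 0x40492) (nat_lit 0) (p (nat_lit 0x30412) (nat_lit 0) (p (nat_lit 0x30212) (nat_lit 0) (p (nat_lit 0x20192) (nat_lit 0) (p (nat_lit 0x20092) (nat_lit 0) (p (nat_lit 0x10012) (nat_lit 0) pn))))))))))))))))))))))))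 :=
  Cl.node (nat_lit 0x111) (nat_lit 2) (by decide +kernel) (ClAll.succ (ClAll.succ ClAll.zero n389) s570)

def n416 : Cl (O (nat_lit 5)) (R (nat_lit 104465))
    (p (nat_lit 0x101) (nat_lit 0) (p (nat_lit 0x119) (nat_lit 0) (p (nat_lit 0xd1) (nat_lit 0) (p (nat_lit 0x81) (nat_lit 0) (p (nat_lit 0x41) (nat_lit 1) (p (nat_lit 0x10a098b090a9a) (nat_lit 0) (p (nat_lit 0x9890a888a1a) (nat_lit 0) (p (nat_lit 0x109088a08079a) (nat_lit 0) (p (nat_lit 0x8880987871a) (nat_lit 0) (p (nat_lit 0x8000000000800080907088a) (nat_lit 0) (p (nat_lit 0x8000000000800078886860a) (nat_lit 0) (p (nat_lit 0x10688060782) (nat_lit 0) (p (nat_lit 0x607858702) (nat_lit 0) (p (nat_lit 0x10587050482) (nat_lit 0) (p (nat_lit 0x506848402) (nat_lit 0) (p (nat_lit 0x16000c) (nat_lit 0) (p (nat_lit 0x50612) (nat_lit 0) (p (nat_lit 0x40592) (nat_lit 0) (p (nat_lit 0x40492) (nat_lit 0) (p (nat_lit 0x30412) (nat_lit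 0) (p (nat_lit 0x30212) (nat_lit 0) (p (nat_lit 0x20192) (nat_lit 0) (p (nat_lit 0x20092) (nat_lit 0) (p (nat_lit 0x10012) (nat_lit 0) pn)))))))))))))))))))))))) :=
  Cl.node (nat_lit 0x109) (nat_lit 2) (by decide +kernel) (ClAll.succ (ClAll.succ ClAll.zero s573) n390)

def n417 : Cl (O (nat_lit 5)) (R (nat_lit 104465))
    (p (nat_lit 0x101) (nat_lit 1) (p (nat_lit 0x119) (nat_lit 0) (p (nat_lit 0xd1) (nat_lit 0) (p (nat_lit 0x81) (nat_lit 0) (p (nat_lit 0x41) (nat_lit 1) (p (nat_lit 0x10a098b090a9a) (nat_lit 0) (p (nat_lit 0x9890a888a1a) (nat_lit 0) (p (nat_lit 0x109088a08079a) (nat_lit 0) (p (nat_lit 0x8880987871a) (nat_lit 0) (p (nat_lit 0x8000000000800080907088a) (nat_lit 0) (p (nat_lit 0x8000000000800078886860a) (nat_lit 0) (p (nat_lit 0x10688060782) (nat_lit 0) (p (nat_lit 0x607858702) (nat_lit 0) (p (nat_lit 0x10587050482) (nat_lit 0) (p (nat_lit 0x506848402) (nat_lit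 0) (p (nat_lit 0x16000c) (nat_lit 0) (p (nat_lit 0x50612) (nat_lit 0) (p (nat_lit 0x40592) (nat_lit 0) (p (nat_lit 0x40492) (nat_lit 0) (p (nat_lit 0x30412) (nat_lit 0) (p (nat_lit 0x30212) (nat_lit 0) (p (nat_lit 0x20192) (nat_lit 0) (p (nat_lit 0x20092) (nat_lit 0) (p (nat_lit 0x10012) (nat_lit 0) pn)))))))))))))))))))))))) :=
  Cl.node (nat_lit 0xc1) (nat_lit 2) (by decide +kernel) (ClAll.succ (ClAll.succ ClAll.zero n391) n392)

def n418 : Cl (O (nat_lit 5)) (R (nat_lit 104465))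
    (p (nat_lit 0xc1) (nat_lit 0) (p (nat_lit 0x119) (nat_lit 1) (p (nat_lit 0xd1) (nat_lit 0) (p (nat_lit 0x81) (nat_lit 0) (p (nat_lit 0x41) (nat_lit 1) (p (nat_lit 0x10a098b090a9a) (nat_lit 0) (p (nat_lit 0x9890a888a1a) (nat_lit 0) (p (nat_lit 0x109088a08079a) (nat_lit 0) (p (nat_lit 0x8880987871a) (nat_lit 0) (p (nat_lit 0x8000000000800080907088a) (nat_lit 0) (p (nat_lit 0x8000000000800078886860a) (nat_lit 0) (p (nat_lit 0x10688060782) (nat_lit 0) (p (nat_lit 0x607858702) (nat_lit 0) (p (nat_lit 0x10587050482) (nat_lit 0) (p (nat_lit 0x506848402) (nat_lit 0) (p (nat_lit 0x16000c) (nat_lit 0) (p (nat_lit 0x50612) (nat_lit 0) (p (nat_lit 0x40592) (nat_lit 0) (p (nat_lit 0x40492) (nat_lit 0) (p (nat_lit 0x30412) (nat_lit 0) (p (nat_lit 0x30212) (nat_lit 0) (p (nat_lit 0x20192) (nat_lit 0) (p (nat_lit 0x20092) (nat_lit 0) (p (nat_lit 0x10012) (nat_lit 0) pn))))))))))))))))))))))))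 :=
  Cl.node (nat_lit 0xc9) (nat_lit 2) (by decide +kernel) (ClAll.succ (ClAll.succ ClAll.zero s700) n393)

def n419 : Cl (O (nat_lit 5)) (R (nat_lit 104465))
    (p (nat_lit 0xc1) (nat_lit 1) (p (nat_lit 0x119) (nat_lit 1) (p (nat_lit 0xd1) (nat_lit 0) (p (nat_lit 0x81) (nat_lit 0) (p (nat_lit 0x41) (nat_lit 1) (p (nat_lit 0x10a098b090a9a) (nat_lit 0) (p (nat_lit 0x9890a888a1a) (nat_lit 0) (p (nat_lit 0x109088a08079a) (nat_lit 0) (p (nat_lit 0x8880987871a) (nat_lit 0) (p (nat_lit 0x8000000000800080907088a) (nat_lit 0) (p (nat_lit 0x8000000000800078886860a) (nat_lit 0) (p (nat_lit 0x10688060782) (nat_lit 0) (p (nat_lit 0x607858702) (nat_lit 0) (p (nat_lit 0x10587050482) (nat_lit 0) (p (nat_lit 0x506848402) (nat_lit 0) (p (nat_lit 0x16000c) (nat_lit 0) (p (nat_lit 0x50612) (nat_lit 0) (p (nat_lit 0x40592) (nat_lit 0) (p (nat_lit 0x40492) (nat_lit 0) (p (nat_lit 0x30412) (nat_lit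 0) (p (nat_lit 0x30212) (nat_lit 0) (p (nat_lit 0x20192) (nat_lit 0) (p (nat_lit 0x20092) (nat_lit 0) (p (nat_lit 0x10012) (nat_lit 0) pn)))))))))))))))))))))))) :=
  Cl.node (nat_lit 0x101) (nat_lit 2) (by decide +kernel) (ClAll.succ (ClAll.succ ClAll.zero n394) n395)

def n420 : Cl (O (nat_lit 5)) (R (nat_lit 104465))
    (p (nat_lit 0x101) (nat_lit 0) (p (nat_lit 0x111) (nat_lit 0) (p (nat_lit 0xd1) (nat_lit 1) (p (nat_lit 0x81) (nat_lit 0) (p (nat_lit 0x41) (nat_lit 1) (p (nat_lit 0x10a098b090a9a) (nat_lit 0) (p (nat_lit 0x9890a888a1a) (nat_lit 0) (p (nat_lit 0x109088a08079a) (nat_lit 0) (p (nat_lit 0x8880987871a) (nat_lit 0) (p (nat_lit 0x8000000000800080907088a) (nat_lit 0) (p (nat_lit 0x8000000000800078886860a) (nat_lit 0) (p (nat_lit 0x10688060782) (nat_lit 0) (p (nat_lit 0x607858702) (nat_lit 0) (p (nat_lit 0x10587050482) (nat_lit 0) (p (nat_lit 0x506848402) (nat_lit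 0) (p (nat_lit 0x16000c) (nat_lit 0) (p (nat_lit 0x50612) (nat_lit 0) (p (nat_lit 0x40592) (nat_lit 0) (p (nat_lit 0x40492) (nat_lit 0) (p (nat_lit 0x30412) (nat_lit 0) (p (nat_lit 0x30212) (nat_lit 0) (p (nat_lit 0x20192) (nat_lit 0) (p (nat_lit 0x20092) (nat_lit 0) (p (nat_lit 0x10012) (nat_lit 0) pn)))))))))))))))))))))))) :=
  Cl.node (nat_lit 0x109) (nat_lit 2) (by decide +kernel) (ClAll.succ (ClAll.succ ClAll.zero s777) n396)

def n421 : Cl (O (nat_lit 5)) (R (nat_lit 104465))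
    (p (nat_lit 0x101) (nat_lit 1) (p (nat_lit 0x111) (nat_lit 0) (p (nat_lit 0xd1) (nat_lit 1) (p (nat_lit 0x81) (nat_lit 0) (p (nat_lit 0x41) (nat_lit 1) (p (nat_lit 0x10a098b090a9a) (nat_lit 0) (p (nat_lit 0x9890a888a1a) (nat_lit 0) (p (nat_lit 0x109088a08079a) (nat_lit 0) (p (nat_lit 0x8880987871a) (nat_lit 0) (p (nat_lit 0x8000000000800080907088a) (nat_lit 0) (p (nat_lit 0x8000000000800078886860a) (nat_lit 0) (p (nat_lit 0x10688060782) (nat_lit 0) (p (nat_lit 0x607858702) (nat_lit 0) (p (nat_lit 0x10587050482) (nat_lit 0) (p (nat_lit 0x506848402) (nat_lit 0) (p (nat_lit 0x16000c) (nat_lit 0) (p (nat_lit 0x50612) (nat_lit 0) (p (nat_lit 0x40592) (nat_lit 0) (p (nat_lit 0x40492) (nat_lit 0) (p (nat_lit 0x30412) (nat_lit 0) (p (nat_lit 0x30212) (nat_lit 0) (p (nat_lit 0x20192) (nat_lit 0) (p (nat_lit 0x20092) (nat_lit 0) (p (nat_lit 0x10012) (nat_lit 0) pn))))))))))))))))))))))))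 :=
  Cl.node (nat_lit 0x89) (nat_lit 2) (by decide +kernel) (ClAll.succ (ClAll.succ ClAll.zero n397) n398)

def n422 : Cl (O (nat_lit 5)) (R (nat_lit 104465))
    (p (nat_lit 0x89) (nat_lit 1) (p (nat_lit 0x111) (nat_lit 1) (p (nat_lit 0xd1) (nat_lit 1) (p (nat_lit 0x81) (nat_lit 0) (p (nat_lit 0x41) (nat_lit 1) (p (nat_lit 0x10a098b090a9a) (nat_lit 0) (p (nat_lit 0x9890a888a1a) (nat_lit 0) (p (nat_lit 0x109088a08079a) (nat_lit 0) (p (nat_lit 0x8880987871a) (nat_lit 0) (p (nat_lit 0x8000000000800080907088a) (nat_lit 0) (p (nat_lit 0x8000000000800078886860a) (nat_lit 0) (p (nat_lit 0x10688060782) (nat_lit 0) (p (nat_lit 0x607858702) (nat_lit 0) (p (nat_lit 0x10587050482) (nat_lit 0) (p (nat_lit 0x506848402) (nat_lit 0) (p (nat_lit 0x16000c) (nat_lit 0) (p (nat_lit 0x50612) (nat_lit 0) (p (nat_lit 0x40592) (nat_lit 0) (p (nat_lit 0x40492) (nat_lit 0) (p (nat_lit 0x30412) (nat_lit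 0) (p (nat_lit 0x30212) (nat_lit 0) (p (nat_lit 0x20192) (nat_lit 0) (p (nat_lit 0x20092) (nat_lit 0) (p (nat_lit 0x10012) (nat_lit 0) pn)))))))))))))))))))))))) :=
  Cl.node (nat_lit 0xc9) (nat_lit 2) (by decide +kernel) (ClAll.succ (ClAll.succ ClAll.zero s872) n399)

def n423 : Cl (O (nat_lit 5)) (R (nat_lit 104465))
    (p (nat_lit 0x101) (nat_lit 0) (p (nat_lit 0x119) (nat_lit 0) (p (nat_lit 0xc1) (nat_lit 0) (p (nat_lit 0x81) (nat_lit 1) (p (nat_lit 0x41) (nat_lit 1) (p (nat_lit 0x10a098b090a9a) (nat_lit 0) (p (nat_lit 0x9890a888a1a) (nat_lit 0) (p (nat_lit 0x109088a08079a) (nat_lit 0) (p (nat_lit 0x8880987871a) (nat_lit 0) (p (nat_lit 0x8000000000800080907088a) (nat_lit 0) (p (nat_lit 0x8000000000800078886860a) (nat_lit 0) (p (nat_lit 0x10688060782) (nat_lit 0) (p (nat_lit 0x607858702) (nat_lit 0) (p (nat_lit 0x10587050482) (nat_lit 0) (p (nat_lit 0x506848402) (nat_lit 0)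 (p (nat_lit 0x16000c) (nat_lit 0) (p (nat_lit 0x50612) (nat_lit 0) (p (nat_lit 0x40592) (nat_lit 0) (p (nat_lit 0x40492) (nat_lit 0) (p (nat_lit 0x30412) (nat_lit 0) (p (nat_lit 0x30212) (nat_lit 0) (p (nat_lit 0x20192) (nat_lit 0) (p (nat_lit 0x20092) (nat_lit 0) (p (nat_lit 0x10012) (nat_lit 0) pn)))))))))))))))))))))))) :=
  Cl.node (nat_lit 0x109) (nat_lit 2) (by decide +kernel) (ClAll.succ (ClAll.succ ClAll.zero n400) n401)

def n424 : Cl (O (nat_lit 5)) (R (nat_lit 104465))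
    (p (nat_lit 0x101) (nat_lit 1) (p (nat_lit 0x119) (nat_lit 0) (p (nat_lit 0xc1) (nat_lit 0) (p (nat_lit 0x81) (nat_lit 1) (p (nat_lit 0x41) (nat_lit 1) (p (nat_lit 0x10a098b090a9a) (nat_lit 0) (p (nat_lit 0x9890a888a1a) (nat_lit 0) (p (nat_lit 0x109088a08079a) (nat_lit 0) (p (nat_lit 0x8880987871a) (nat_lit 0) (p (nat_lit 0x8000000000800080907088a) (nat_lit 0) (p (nat_lit 0x8000000000800078886860a) (nat_lit 0) (p (nat_lit 0x10688060782) (nat_lit 0) (p (nat_lit 0x607858702) (nat_lit 0) (p (nat_lit 0x10587050482) (nat_lit 0) (p (nat_lit 0x506848402) (nat_lit 0) (p (nat_lit 0x16000c) (nat_lit 0) (p (nat_lit 0x50612) (nat_lit 0) (p (nat_lit 0x40592) (nat_lit 0) (p (nat_lit 0x40492) (nat_lit 0) (p (nat_lit 0x30412) (nat_lit 0) (p (nat_lit 0x30212) (nat_lit 0) (p (nat_lit 0x20192) (nat_lit 0) (p (nat_lit 0x20092) (nat_lit 0) (p (nat_lit 0x10012) (nat_lit 0) pn))))))))))))))))))))))))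 :=
  Cl.node (nat_lit 0xc9) (nat_lit 2) (by decide +kernel) (ClAll.succ (ClAll.succ ClAll.zero n402) s941)

def n425 : Cl (O (nat_lit 5)) (R (nat_lit 104465))
    (p (nat_lit 0xc9) (nat_lit 0) (p (nat_lit 0x119) (nat_lit 1) (p (nat_lit 0xc1) (nat_lit 0) (p (nat_lit 0x81) (nat_lit 1) (p (nat_lit 0x41) (nat_lit 1) (p (nat_lit 0x10a098b090a9a) (nat_lit 0) (p (nat_lit 0x9890a888a1a) (nat_lit 0) (p (nat_lit 0x109088a08079a) (nat_lit 0) (p (nat_lit 0x8880987871a) (nat_lit 0) (p (nat_lit 0x8000000000800080907088a) (nat_lit 0) (p (nat_lit 0x8000000000800078886860a) (nat_lit 0) (p (nat_lit 0x10688060782) (nat_lit 0) (p (nat_lit 0x607858702) (nat_lit 0) (p (nat_lit 0x10587050482) (nat_lit 0) (p (nat_lit 0x506848402) (nat_lit 0) (p (nat_lit 0x16000c) (nat_lit 0) (p (nat_lit 0x50612) (nat_lit 0) (p (nat_lit 0x40592) (nat_lit 0) (p (nat_lit 0x40492) (nat_lit 0) (p (nat_lit 0x30412) (nat_lit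 0) (p (nat_lit 0x30212) (nat_lit 0) (p (nat_lit 0x20192) (nat_lit 0) (p (nat_lit 0x20092) (nat_lit 0) (p (nat_lit 0x10012) (nat_lit 0) pn)))))))))))))))))))))))) :=
  Cl.node (nat_lit 0xd1) (nat_lit 2) (by decide +kernel) (ClAll.succ (ClAll.succ ClAll.zero s942) s943)

def n426 : Cl (O (nat_lit 5)) (R (nat_lit 104465))
    (p (nat_lit 0xc9) (nat_lit 1) (p (nat_lit 0x119) (nat_lit 1) (p (nat_lit 0xc1) (nat_lit 0) (p (nat_lit 0x81) (nat_lit 1) (p (nat_lit 0x41) (nat_lit 1) (p (nat_lit 0x10a098b090a9a) (nat_lit 0) (p (nat_lit 0x9890a888a1a) (nat_lit 0) (p (nat_lit 0x109088a08079a) (nat_lit 0) (p (nat_lit 0x8880987871a) (nat_lit 0) (p (nat_lit 0x8000000000800080907088a) (nat_lit 0) (p (nat_lit 0x8000000000800078886860a) (nat_lit 0) (p (nat_lit 0x10688060782) (nat_lit 0) (p (nat_lit 0x607858702) (nat_lit 0) (p (nat_lit 0x10587050482) (nat_lit 0) (p (nat_lit 0x506848402) (nat_lit 0)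 (p (nat_lit 0x16000c) (nat_lit 0) (p (nat_lit 0x50612) (nat_lit 0) (p (nat_lit 0x40592) (nat_lit 0) (p (nat_lit 0x40492) (nat_lit 0) (p (nat_lit 0x30412) (nat_lit 0) (p (nat_lit 0x30212) (nat_lit 0) (p (nat_lit 0x20192) (nat_lit 0) (p (nat_lit 0x20092) (nat_lit 0) (p (nat_lit 0x10012) (nat_lit 0) pn)))))))))))))))))))))))) :=
  Cl.node (nat_lit 0x109) (nat_lit 2) (by decide +kernel) (ClAll.succ (ClAll.succ ClAll.zero n403) s970)

def n427 : Cl (O (nat_lit 5)) (R (nat_lit 104465))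
    (p (nat_lit 0x119) (nat_lit 0) (p (nat_lit 0xd1) (nat_lit 0) (p (nat_lit 0x89) (nat_lit 0) (p (nat_lit 0x41) (nat_lit 0) (p (nat_lit 0x10a098b090a9a) (nat_lit 0) (p (nat_lit 0x9890a888a1a) (nat_lit 0) (p (nat_lit 0x109088a08079a) (nat_lit 0) (p (nat_lit 0x8880987871a) (nat_lit 0) (p (nat_lit 0x8000000000800080907088a) (nat_lit 0) (p (nat_lit 0x8000000000800078886860a) (nat_lit 0) (p (nat_lit 0x10688060782) (nat_lit 0) (p (nat_lit 0x607858702) (nat_lit 0) (p (nat_lit 0x10587050482) (nat_lit 0) (p (nat_lit 0x506848402) (nat_lit 0) (p (nat_lit 0x16000c) (nat_lit 0) (p (nat_lit 0x50612) (nat_lit 0) (p (nat_lit 0x40592) (nat_lit 0) (p (nat_lit 0x40492) (nat_lit 0) (p (nat_lit 0x30412) (nat_lit 0) (p (nat_lit 0x30212) (nat_lit 0) (p (nat_lit 0x20192) (nat_lit 0) (p (nat_lit 0x20092) (nat_lit 0) (p (nat_lit 0x10012) (nat_lit 0) pn))))))))))))))))))))))) :=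
  Cl.node (nat_lit 0x101) (nat_lit 2) (by decide +kernel) (ClAll.succ (ClAll.succ ClAll.zero n404) n405)

def n428 : Cl (O (nat_lit 5)) (R (nat_lit 104465))
    (p (nat_lit 0x119) (nat_lit 1) (p (nat_lit 0xd1) (nat_lit 0) (p (nat_lit 0x89) (nat_lit 0) (p (nat_lit 0x41) (nat_lit 0) (p (nat_lit 0x10a098b090a9a) (nat_lit 0) (p (nat_lit 0x9890a888a1a) (nat_lit 0) (p (nat_lit 0x109088a08079a) (nat_lit 0) (p (nat_lit 0x8880987871a) (nat_lit 0) (p (nat_lit 0x8000000000800080907088a) (nat_lit 0) (p (nat_lit 0x8000000000800078886860a) (nat_lit 0) (p (nat_lit 0x10688060782) (nat_lit 0) (p (nat_lit 0x607858702) (nat_lit 0) (p (nat_lit 0x10587050482) (nat_lit 0) (p (nat_lit 0x506848402) (nat_lit 0) (p (nat_lit 0x16000c) (nat_lit 0) (p (nat_lit 0x50612) (nat_lit 0) (p (nat_lit 0x40592) (nat_lit 0) (p (nat_lit 0x40492) (nat_lit 0) (p (nat_lit 0x30412) (nat_lit 0) (p (nat_lit 0x30212) (nat_lit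 0) (p (nat_lit 0x20192) (nat_lit 0) (p (nat_lit 0x20092) (nat_lit 0) (p (nat_lit 0x10012) (nat_lit 0) pn))))))))))))))))))))))) :=
  Cl.node (nat_lit 0xc1) (nat_lit 2) (by decide +kernel) (ClAll.succ (ClAll.succ ClAll.zero n406) n407)

def n429 : Cl (O (nat_lit 5)) (R (nat_lit 104465))
    (p (nat_lit 0x111) (nat_lit 0) (p (nat_lit 0xd1) (nat_lit 1) (p (nat_lit 0x89) (nat_lit 0) (p (nat_lit 0x41) (nat_lit 0) (p (nat_lit 0x10a098b090a9a) (nat_lit 0) (p (nat_lit 0x9890a888a1a) (nat_lit 0) (p (nat_lit 0x109088a08079a) (nat_lit 0) (p (nat_lit 0x8880987871a) (nat_lit 0) (p (nat_lit 0x8000000000800080907088a) (nat_lit 0) (p (nat_lit 0x8000000000800078886860a) (nat_lit 0) (p (nat_lit 0x10688060782) (nat_lit 0) (p (nat_lit 0x607858702) (nat_lit 0) (p (nat_lit 0x10587050482) (nat_lit 0) (p (nat_lit 0x506848402) (nat_lit 0) (p (nat_lit 0x16000c) (nat_lit 0) (p (nat_lit 0x50612) (nat_lit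 0) (p (nat_lit 0x40592) (nat_lit 0) (p (nat_lit 0x40492) (nat_lit 0) (p (nat_lit 0x30412) (nat_lit 0) (p (nat_lit 0x30212) (nat_lit 0) (p (nat_lit 0x20192) (nat_lit 0) (p (nat_lit 0x20092) (nat_lit 0) (p (nat_lit 0x10012) (nat_lit 0) pn))))))))))))))))))))))) :=
  Cl.node (nat_lit 0x101) (nat_lit 2) (by decide +kernel) (ClAll.succ (ClAll.succ ClAll.zero n408) n409)

def n430 : Cl (O (nat_lit 5)) (R (nat_lit 104465))
    (p (nat_lit 0x111) (nat_lit 1) (p (nat_lit 0xd1) (nat_lit 1) (p (nat_lit 0x89) (nat_lit 0) (p (nat_lit 0x41) (nat_lit 0) (p (nat_lit 0x10a098b090a9a) (nat_lit 0) (p (nat_lit 0x9890a888a1a) (nat_lit 0) (p (nat_lit 0x109088a08079a) (nat_lit 0) (p (nat_lit 0x8880987871a) (nat_lit 0) (p (nat_lit 0x8000000000800080907088a) (nat_lit 0) (p (nat_lit 0x8000000000800078886860a) (nat_lit 0) (p (nat_lit 0x10688060782) (nat_lit 0) (p (nat_lit 0x607858702) (nat_lit 0) (p (nat_lit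 0x10587050482) (nat_lit 0) (p (nat_lit 0x506848402) (nat_lit 0) (p (nat_lit 0x16000c) (nat_lit 0) (p (nat_lit 0x50612) (nat_lit 0) (p (nat_lit 0x40592) (nat_lit 0) (p (nat_lit 0x40492) (nat_lit 0) (p (nat_lit 0x30412) (nat_lit 0) (p (nat_lit 0x30212) (nat_lit 0) (p (nat_lit 0x20192) (nat_lit 0) (p (nat_lit 0x20092) (nat_lit 0) (p (nat_lit 0x10012) (nat_lit 0) pn))))))))))))))))))))))) :=
  Cl.node (nat_lit 0x81) (nat_lit 2) (by decide +kernel) (ClAll.succ (ClAll.succ ClAll.zero s350) n410)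

def n431 : Cl (O (nat_lit 5)) (R (nat_lit 104465))
    (p (nat_lit 0x119) (nat_lit 0) (p (nat_lit 0xc9) (nat_lit 0) (p (nat_lit 0x89) (nat_lit 1) (p (nat_lit 0x41) (nat_lit 0) (p (nat_lit 0x10a098b090a9a) (nat_lit 0) (p (nat_lit 0x9890a888a1a) (nat_lit 0) (p (nat_lit 0x109088a08079a) (nat_lit 0) (p (nat_lit 0x8880987871a) (nat_lit 0) (p (nat_lit 0x8000000000800080907088a) (nat_lit 0) (p (nat_lit 0x8000000000800078886860a) (nat_lit 0) (p (nat_lit 0x10688060782) (nat_lit 0) (p (nat_lit 0x607858702) (nat_lit 0) (p (nat_lit 0x10587050482) (nat_lit 0) (p (nat_lit 0x506848402) (nat_lit 0) (p (nat_lit 0x16000c) (nat_lit 0) (p (nat_lit 0x50612) (nat_lit 0) (p (nat_lit 0x40592) (nat_lit 0) (p (nat_lit 0x40492) (nat_lit 0) (p (nat_lit 0x30412) (nat_lit 0) (p (nat_lit 0x30212) (nat_lit 0) (p (nat_lit 0x20192) (nat_lit 0) (p (nat_lit 0x20092) (nat_lit 0) (p (nat_lit 0x10012) (nat_lit 0)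 pn))))))))))))))))))))))) :=
  Cl.node (nat_lit 0x101) (nat_lit 2) (by decide +kernel) (ClAll.succ (ClAll.succ ClAll.zero n411) n412)

def n432 : Cl (O (nat_lit 5)) (R (nat_lit 104465))
    (p (nat_lit 0x119) (nat_lit 1) (p (nat_lit 0xc9) (nat_lit 0) (p (nat_lit 0x89) (nat_lit 1) (p (nat_lit 0x41) (nat_lit 0) (p (nat_lit 0x10a098b090a9a) (nat_lit 0) (p (nat_lit 0x9890a888a1a) (nat_lit 0) (p (nat_lit 0x109088a08079a) (nat_lit 0) (p (nat_lit 0x8880987871a) (nat_lit 0) (p (nat_lit 0x8000000000800080907088a) (nat_lit 0) (p (nat_lit 0x8000000000800078886860a) (nat_lit 0) (p (nat_lit 0x10688060782) (nat_lit 0) (p (nat_lit 0x607858702) (nat_lit 0) (p (nat_lit 0x10587050482) (nat_lit 0) (p (nat_lit 0x506848402) (nat_lit 0) (p (nat_lit 0x16000c) (nat_lit 0) (p (nat_lit 0x50612) (nat_lit 0) (p (nat_lit 0x40592) (nat_lit 0) (p (nat_lit 0x40492) (nat_lit 0) (p (nat_lit 0x30412) (nat_lit 0)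 (p (nat_lit 0x30212) (nat_lit 0) (p (nat_lit 0x20192) (nat_lit 0) (p (nat_lit 0x20092) (nat_lit 0) (p (nat_lit 0x10012) (nat_lit 0) pn))))))))))))))))))))))) :=
  Cl.node (nat_lit 0xc1) (nat_lit 2) (by decide +kernel) (ClAll.succ (ClAll.succ ClAll.zero n413) n414)

def n433 : Cl (O (nat_lit 5)) (R (nat_lit 104465))
    (p (nat_lit 0x109) (nat_lit 0) (p (nat_lit 0xc9) (nat_lit 1) (p (nat_lit 0x89) (nat_lit 1) (p (nat_lit 0x41) (nat_lit 0) (p (nat_lit 0x10a098b090a9a) (nat_lit 0) (p (nat_lit 0x9890a888a1a) (nat_lit 0) (p (nat_lit 0x109088a08079a) (nat_lit 0) (p (nat_lit 0x8880987871a) (nat_lit 0) (p (nat_lit 0x8000000000800080907088a) (nat_lit 0) (p (nat_lit 0x8000000000800078886860a) (nat_lit 0) (p (nat_lit 0x10688060782) (nat_lit 0) (p (nat_lit 0x607858702) (nat_lit 0) (p (nat_lit 0x10587050482) (nat_lit 0) (p (nat_lit 0x506848402) (nat_lit 0) (p (nat_lit 0x16000c) (nat_lit 0)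 (p (nat_lit 0x50612) (nat_lit 0) (p (nat_lit 0x40592) (nat_lit 0) (p (nat_lit 0x40492) (nat_lit 0) (p (nat_lit 0x30412) (nat_lit 0) (p (nat_lit 0x30212) (nat_lit 0) (p (nat_lit 0x20192) (nat_lit 0) (p (nat_lit 0x20092) (nat_lit 0) (p (nat_lit 0x10012) (nat_lit 0) pn))))))))))))))))))))))) :=
  Cl.node (nat_lit 0x101) (nat_lit 2) (by decide +kernel) (ClAll.succ (ClAll.succ ClAll.zero n415) s571)

def n434 : Cl (O (nat_lit 5)) (R (nat_lit 104465))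
    (p (nat_lit 0x119) (nat_lit 0) (p (nat_lit 0xd1) (nat_lit 0) (p (nat_lit 0x81) (nat_lit 0) (p (nat_lit 0x41) (nat_lit 1) (p (nat_lit 0x10a098b090a9a) (nat_lit 0) (p (nat_lit 0x9890a888a1a) (nat_lit 0) (p (nat_lit 0x109088a08079a) (nat_lit 0) (p (nat_lit 0x8880987871a) (nat_lit 0) (p (nat_lit 0x8000000000800080907088a) (nat_lit 0) (p (nat_lit 0x8000000000800078886860a) (nat_lit 0) (p (nat_lit 0x10688060782) (nat_lit 0) (p (nat_lit 0x607858702) (nat_lit 0) (p (nat_lit 0x10587050482) (nat_lit 0) (p (nat_lit 0x506848402) (nat_lit 0) (p (nat_lit 0x16000c) (nat_lit 0) (p (nat_lit 0x50612) (nat_lit 0) (p (nat_lit 0x40592) (nat_lit 0) (p (nat_lit 0x40492) (nat_lit 0) (p (nat_lit 0x30412) (nat_lit 0) (p (nat_lit 0x30212) (nat_lit 0) (p (nat_lit 0x20192) (nat_lit 0) (p (nat_lit 0x20092) (nat_lit 0) (p (nat_lit 0x10012) (nat_lit 0) pn))))))))))))))))))))))) :=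
  Cl.node (nat_lit 0x101) (nat_lit 2) (by decide +kernel) (ClAll.succ (ClAll.succ ClAll.zero n416) n417)

def n435 : Cl (O (nat_lit 5)) (R (nat_lit 104465))
    (p (nat_lit 0x119) (nat_lit 1) (p (nat_lit 0xd1) (nat_lit 0) (p (nat_lit 0x81) (nat_lit 0) (p (nat_lit 0x41) (nat_lit 1) (p (nat_lit 0x10a098b090a9a) (nat_lit 0) (p (nat_lit 0x9890a888a1a) (nat_lit 0) (p (nat_lit 0x109088a08079a) (nat_lit 0) (p (nat_lit 0x8880987871a) (nat_lit 0) (p (nat_lit 0x8000000000800080907088a) (nat_lit 0) (p (nat_lit 0x8000000000800078886860a) (nat_lit 0) (p (nat_lit 0x10688060782) (nat_lit 0) (p (nat_lit 0x607858702) (nat_lit 0) (p (nat_lit 0x10587050482) (nat_lit 0) (p (nat_lit 0x506848402) (nat_lit 0) (p (nat_lit 0x16000c) (nat_lit 0) (p (nat_lit 0x50612) (nat_lit 0) (p (nat_lit 0x40592) (nat_lit 0) (p (nat_lit 0x40492) (nat_lit 0) (p (nat_lit 0x30412) (nat_lit 0) (p (nat_lit 0x30212) (nat_lit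 0) (p (nat_lit 0x20192) (nat_lit 0) (p (nat_lit 0x20092) (nat_lit 0) (p (nat_lit 0x10012) (nat_lit 0) pn))))))))))))))))))))))) :=
  Cl.node (nat_lit 0xc1) (nat_lit 2) (by decide +kernel) (ClAll.succ (ClAll.succ ClAll.zero n418) n419)

def n436 : Cl (O (nat_lit 5)) (R (nat_lit 104465))
    (p (nat_lit 0x111) (nat_lit 0) (p (nat_lit 0xd1) (nat_lit 1) (p (nat_lit 0x81) (nat_lit 0) (p (nat_lit 0x41) (nat_lit 1) (p (nat_lit 0x10a098b090a9a) (nat_lit 0) (p (nat_lit 0x9890a888a1a) (nat_lit 0) (p (nat_lit 0x109088a08079a) (nat_lit 0) (p (nat_lit 0x8880987871a) (nat_lit 0) (p (nat_lit 0x8000000000800080907088a) (nat_lit 0) (p (nat_lit 0x8000000000800078886860a) (nat_lit 0) (p (nat_lit 0x10688060782) (nat_lit 0) (p (nat_lit 0x607858702) (nat_lit 0) (p (nat_lit 0x10587050482) (nat_lit 0) (p (nat_lit 0x506848402) (nat_lit 0) (p (nat_lit 0x16000c) (nat_lit 0) (p (nat_lit 0x50612) (nat_lit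 0) (p (nat_lit 0x40592) (nat_lit 0) (p (nat_lit 0x40492) (nat_lit 0) (p (nat_lit 0x30412) (nat_lit 0) (p (nat_lit 0x30212) (nat_lit 0) (p (nat_lit 0x20192) (nat_lit 0) (p (nat_lit 0x20092) (nat_lit 0) (p (nat_lit 0x10012) (nat_lit 0) pn))))))))))))))))))))))) :=
  Cl.node (nat_lit 0x101) (nat_lit 2) (by decide +kernel) (ClAll.succ (ClAll.succ ClAll.zero n420) n421)

def n437 : Cl (O (nat_lit 5)) (R (nat_lit 104465))
    (p (nat_lit 0x111) (nat_lit 1) (p (nat_lit 0xd1) (nat_lit 1) (p (nat_lit 0x81) (nat_lit 0) (p (nat_lit 0x41) (nat_lit 1) (p (nat_lit 0x10a098b090a9a) (nat_lit 0) (p (nat_lit 0x9890a888a1a) (nat_lit 0) (p (nat_lit 0x109088a08079a) (nat_lit 0) (p (nat_lit 0x8880987871a) (nat_lit 0) (p (nat_lit 0x8000000000800080907088a) (nat_lit 0) (p (nat_lit 0x8000000000800078886860a) (nat_lit 0) (p (nat_lit 0x10688060782) (nat_lit 0) (p (nat_lit 0x607858702) (nat_lit 0) (p (nat_lit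 0x10587050482) (nat_lit 0) (p (nat_lit 0x506848402) (nat_lit 0) (p (nat_lit 0x16000c) (nat_lit 0) (p (nat_lit 0x50612) (nat_lit 0) (p (nat_lit 0x40592) (nat_lit 0) (p (nat_lit 0x40492) (nat_lit 0) (p (nat_lit 0x30412) (nat_lit 0) (p (nat_lit 0x30212) (nat_lit 0) (p (nat_lit 0x20192) (nat_lit 0) (p (nat_lit 0x20092) (nat_lit 0) (p (nat_lit 0x10012) (nat_lit 0) pn))))))))))))))))))))))) :=
  Cl.node (nat_lit 0x89) (nat_lit 2) (by decide +kernel) (ClAll.succ (ClAll.succ ClAll.zero s871) n422)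

def n438 : Cl (O (nat_lit 5)) (R (nat_lit 104465))
    (p (nat_lit 0x119) (nat_lit 0) (p (nat_lit 0xc1) (nat_lit 0) (p (nat_lit 0x81) (nat_lit 1) (p (nat_lit 0x41) (nat_lit 1) (p (nat_lit 0x10a098b090a9a) (nat_lit 0) (p (nat_lit 0x9890a888a1a) (nat_lit 0) (p (nat_lit 0x109088a08079a) (nat_lit 0) (p (nat_lit 0x8880987871a) (nat_lit 0) (p (nat_lit 0x8000000000800080907088a) (nat_lit 0) (p (nat_lit 0x8000000000800078886860a) (nat_lit 0) (p (nat_lit 0x10688060782) (nat_lit 0) (p (nat_lit 0x607858702) (nat_lit 0) (p (nat_lit 0x10587050482) (nat_lit 0) (p (nat_lit 0x506848402) (nat_lit 0) (p (nat_lit 0x16000c) (nat_lit 0) (p (nat_lit 0x50612) (nat_lit 0) (p (nat_lit 0x40592) (nat_lit 0) (p (nat_lit 0x40492) (nat_lit 0) (p (nat_lit 0x30412) (nat_lit 0) (p (nat_lit 0x30212) (nat_lit 0) (p (nat_lit 0x20192) (nat_lit 0) (p (nat_lit 0x20092) (nat_lit 0) (p (nat_lit 0x10012) (nat_lit 0)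 pn))))))))))))))))))))))) :=
  Cl.node (nat_lit 0x101) (nat_lit 2) (by decide +kernel) (ClAll.succ (ClAll.succ ClAll.zero n423) n424)

def n439 : Cl (O (nat_lit 5)) (R (nat_lit 104465))
    (p (nat_lit 0x119) (nat_lit 1) (p (nat_lit 0xc1) (nat_lit 0) (p (nat_lit 0x81) (nat_lit 1) (p (nat_lit 0x41) (nat_lit 1) (p (nat_lit 0x10a098b090a9a) (nat_lit 0) (p (nat_lit 0x9890a888a1a) (nat_lit 0) (p (nat_lit 0x109088a08079a) (nat_lit 0) (p (nat_lit 0x8880987871a) (nat_lit 0) (p (nat_lit 0x8000000000800080907088a) (nat_lit 0) (p (nat_lit 0x8000000000800078886860a) (nat_lit 0) (p (nat_lit 0x10688060782) (nat_lit 0) (p (nat_lit 0x607858702) (nat_lit 0) (p (nat_lit 0x10587050482) (nat_lit 0) (p (nat_lit 0x506848402) (nat_lit 0) (p (nat_lit 0x16000c) (nat_lit 0) (p (nat_lit 0x50612) (nat_lit 0) (p (nat_lit 0x40592) (nat_lit 0) (p (nat_lit 0x40492) (nat_lit 0) (p (nat_lit 0x30412) (nat_lit 0)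 (p (nat_lit 0x30212) (nat_lit 0) (p (nat_lit 0x20192) (nat_lit 0) (p (nat_lit 0x20092) (nat_lit 0) (p (nat_lit 0x10012) (nat_lit 0) pn))))))))))))))))))))))) :=
  Cl.node (nat_lit 0xc9) (nat_lit 2) (by decide +kernel) (ClAll.succ (ClAll.succ ClAll.zero n425) n426)

def n440 : Cl (O (nat_lit 5)) (R (nat_lit 104465))
    (p (nat_lit 0xd1) (nat_lit 0) (p (nat_lit 0x89) (nat_lit 0) (p (nat_lit 0x41) (nat_lit 0) (p (nat_lit 0x10a098b090a9a) (nat_lit 0) (p (nat_lit 0x9890a888a1a) (nat_lit 0) (p (nat_lit 0x109088a08079a) (nat_lit 0) (p (nat_lit 0x8880987871a) (nat_lit 0) (p (nat_lit 0x8000000000800080907088a) (nat_lit 0) (p (nat_lit 0x8000000000800078886860a) (nat_lit 0) (p (nat_lit 0x10688060782) (nat_lit 0) (p (nat_lit 0x607858702) (nat_lit 0) (p (nat_lit 0x10587050482) (nat_lit 0) (p (nat_lit 0x506848402) (nat_lit 0) (p (nat_lit 0x16000c) (nat_lit 0) (p (nat_lit 0x50612) (nat_lit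 0) (p (nat_lit 0x40592) (nat_lit 0) (p (nat_lit 0x40492) (nat_lit 0) (p (nat_lit 0x30412) (nat_lit 0) (p (nat_lit 0x30212) (nat_lit 0) (p (nat_lit 0x20192) (nat_lit 0) (p (nat_lit 0x20092) (nat_lit 0) (p (nat_lit 0x10012) (nat_lit 0) pn)))))))))))))))))))))) :=
  Cl.node (nat_lit 0x119) (nat_lit 2) (by decide +kernel) (ClAll.succ (ClAll.succ ClAll.zero n427) n428)

def n441 : Cl (O (nat_lit 5)) (R (nat_lit 104465))
    (p (nat_lit 0xd1) (nat_lit 1) (p (nat_lit 0x89) (nat_lit 0) (p (nat_lit 0x41) (nat_lit 0) (p (nat_lit 0x10a098b090a9a) (nat_lit 0) (p (nat_lit 0x9890a888a1a) (nat_lit 0) (p (nat_lit 0x109088a08079a) (nat_lit 0) (p (nat_lit 0x8880987871a) (nat_lit 0) (p (nat_lit 0x8000000000800080907088a) (nat_lit 0) (p (nat_lit 0x8000000000800078886860a) (nat_lit 0) (p (nat_lit 0x10688060782) (nat_lit 0) (p (nat_lit 0x607858702) (nat_lit 0) (p (nat_lit 0x10587050482) (nat_lit 0)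 (p (nat_lit 0x506848402) (nat_lit 0) (p (nat_lit 0x16000c) (nat_lit 0) (p (nat_lit 0x50612) (nat_lit 0) (p (nat_lit 0x40592) (nat_lit 0) (p (nat_lit 0x40492) (nat_lit 0) (p (nat_lit 0x30412) (nat_lit 0) (p (nat_lit 0x30212) (nat_lit 0) (p (nat_lit 0x20192) (nat_lit 0) (p (nat_lit 0x20092) (nat_lit 0) (p (nat_lit 0x10012) (nat_lit 0) pn)))))))))))))))))))))) :=
  Cl.node (nat_lit 0x111) (nat_lit 2) (by decide +kernel) (ClAll.succ (ClAll.succ ClAll.zero n429) n430)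

def n442 : Cl (O (nat_lit 5)) (R (nat_lit 104465))
    (p (nat_lit 0xc9) (nat_lit 0) (p (nat_lit 0x89) (nat_lit 1) (p (nat_lit 0x41) (nat_lit 0) (p (nat_lit 0x10a098b090a9a) (nat_lit 0) (p (nat_lit 0x9890a888a1a) (nat_lit 0) (p (nat_lit 0x109088a08079a) (nat_lit 0) (p (nat_lit 0x8880987871a) (nat_lit 0) (p (nat_lit 0x8000000000800080907088a) (nat_lit 0) (p (nat_lit 0x8000000000800078886860a) (nat_lit 0) (p (nat_lit 0x10688060782) (nat_lit 0) (p (nat_lit 0x607858702) (nat_lit 0) (p (nat_lit 0x10587050482) (nat_lit 0) (p (nat_lit 0x506848402) (nat_lit 0) (p (nat_lit 0x16000c) (nat_lit 0) (p (nat_lit 0x50612) (nat_lit 0) (p (nat_lit 0x40592) (nat_lit 0) (p (nat_lit 0x40492) (nat_lit 0) (p (nat_lit 0x30412) (nat_lit 0) (p (nat_lit 0x30212) (nat_lit 0) (p (nat_lit 0x20192) (nat_lit 0) (p (nat_lit 0x20092) (nat_lit 0) (p (nat_lit 0x10012) (nat_lit 0) pn)))))))))))))))))))))) :=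
  Cl.node (nat_lit 0x119) (nat_lit 2) (by decide +kernel) (ClAll.succ (ClAll.succ ClAll.zero n431) n432)

def n443 : Cl (O (nat_lit 5)) (R (nat_lit 104465))
    (p (nat_lit 0xc9) (nat_lit 1) (p (nat_lit 0x89) (nat_lit 1) (p (nat_lit 0x41) (nat_lit 0) (p (nat_lit 0x10a098b090a9a) (nat_lit 0) (p (nat_lit 0x9890a888a1a) (nat_lit 0) (p (nat_lit 0x109088a08079a) (nat_lit 0) (p (nat_lit 0x8880987871a) (nat_lit 0) (p (nat_lit 0x8000000000800080907088a) (nat_lit 0) (p (nat_lit 0x8000000000800078886860a) (nat_lit 0) (p (nat_lit 0x10688060782) (nat_lit 0) (p (nat_lit 0x607858702) (nat_lit 0) (p (nat_lit 0x10587050482) (nat_lit 0) (p (nat_lit 0x506848402) (nat_lit 0) (p (nat_lit 0x16000c) (nat_lit 0) (p (nat_lit 0x50612) (nat_lit 0) (p (nat_lit 0x40592) (nat_lit 0) (p (nat_lit 0x40492) (nat_lit 0) (p (nat_lit 0x30412) (nat_lit 0) (p (nat_lit 0x30212) (nat_lit 0) (p (nat_lit 0x20192) (nat_lit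 0) (p (nat_lit 0x20092) (nat_lit 0) (p (nat_lit 0x10012) (nat_lit 0) pn)))))))))))))))))))))) :=
  Cl.node (nat_lit 0x109) (nat_lit 2) (by decide +kernel) (ClAll.succ (ClAll.succ ClAll.zero n433) s572)

def n444 : Cl (O (nat_lit 5)) (R (nat_lit 104465))
    (p (nat_lit 0xd1) (nat_lit 0) (p (nat_lit 0x81) (nat_lit 0) (p (nat_lit 0x41) (nat_lit 1) (p (nat_lit 0x10a098b090a9a) (nat_lit 0) (p (nat_lit 0x9890a888a1a) (nat_lit 0) (p (nat_lit 0x109088a08079a) (nat_lit 0) (p (nat_lit 0x8880987871a) (nat_lit 0) (p (nat_lit 0x8000000000800080907088a) (nat_lit 0) (p (nat_lit 0x8000000000800078886860a) (nat_lit 0) (p (nat_lit 0x10688060782) (nat_lit 0) (p (nat_lit 0x607858702) (nat_lit 0) (p (nat_lit 0x10587050482) (nat_lit 0) (p (nat_lit 0x506848402) (nat_lit 0) (p (nat_lit 0x16000c) (nat_lit 0) (p (nat_lit 0x50612) (nat_lit 0) (p (nat_lit 0x40592) (nat_lit 0) (p (nat_lit 0x40492) (nat_lit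 0) (p (nat_lit 0x30412) (nat_lit 0) (p (nat_lit 0x30212) (nat_lit 0) (p (nat_lit 0x20192) (nat_lit 0) (p (nat_lit 0x20092) (nat_lit 0) (p (nat_lit 0x10012) (nat_lit 0) pn)))))))))))))))))))))) :=
  Cl.node (nat_lit 0x119) (nat_lit 2) (by decide +kernel) (ClAll.succ (ClAll.succ ClAll.zero n434) n435)

def n445 : Cl (O (nat_lit 5)) (R (nat_lit 104465))
    (p (nat_lit 0xd1) (nat_lit 1) (p (nat_lit 0x81) (nat_lit 0) (p (nat_lit 0x41) (nat_lit 1) (p (nat_lit 0x10a098b090a9a) (nat_lit 0) (p (nat_lit 0x9890a888a1a) (nat_lit 0) (p (nat_lit 0x109088a08079a) (nat_lit 0) (p (nat_lit 0x8880987871a) (nat_lit 0) (p (nat_lit 0x8000000000800080907088a) (nat_lit 0) (p (nat_lit 0x8000000000800078886860a) (nat_lit 0) (p (nat_lit 0x10688060782) (nat_lit 0) (p (nat_lit 0x607858702) (nat_lit 0) (p (nat_lit 0x10587050482) (nat_lit 0) (p (nat_lit 0x506848402) (nat_lit 0) (p (nat_lit 0x16000c) (nat_lit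 0) (p (nat_lit 0x50612) (nat_lit 0) (p (nat_lit 0x40592) (nat_lit 0) (p (nat_lit 0x40492) (nat_lit 0) (p (nat_lit 0x30412) (nat_lit 0) (p (nat_lit 0x30212) (nat_lit 0) (p (nat_lit 0x20192) (nat_lit 0) (p (nat_lit 0x20092) (nat_lit 0) (p (nat_lit 0x10012) (nat_lit 0) pn)))))))))))))))))))))) :=
  Cl.node (nat_lit 0x111) (nat_lit 2) (by decide +kernel) (ClAll.succ (ClAll.succ ClAll.zero n436) n437)

def n446 : Cl (O (nat_lit 5)) (R (nat_lit 104465))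
    (p (nat_lit 0xc1) (nat_lit 0) (p (nat_lit 0x81) (nat_lit 1) (p (nat_lit 0x41) (nat_lit 1) (p (nat_lit 0x10a098b090a9a) (nat_lit 0) (p (nat_lit 0x9890a888a1a) (nat_lit 0) (p (nat_lit 0x109088a08079a) (nat_lit 0) (p (nat_lit 0x8880987871a) (nat_lit 0) (p (nat_lit 0x8000000000800080907088a) (nat_lit 0) (p (nat_lit 0x8000000000800078886860a) (nat_lit 0) (p (nat_lit 0x10688060782) (nat_lit 0) (p (nat_lit 0x607858702) (nat_lit 0) (p (nat_lit 0x10587050482) (nat_lit 0) (p (nat_lit 0x506848402) (nat_lit 0) (p (nat_lit 0x16000c) (nat_lit 0) (p (nat_lit 0x50612) (nat_lit 0) (p (nat_lit 0x40592) (nat_lit 0) (p (nat_lit 0x40492) (nat_lit 0) (p (nat_lit 0x30412) (nat_lit 0) (p (nat_lit 0x30212) (nat_lit 0) (p (nat_lit 0x20192) (nat_lit 0) (p (nat_lit 0x20092) (nat_lit 0) (p (nat_lit 0x10012) (nat_lit 0) pn)))))))))))))))))))))) :=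
  Cl.node (nat_lit 0x119) (nat_lit 2) (by decide +kernel) (ClAll.succ (ClAll.succ ClAll.zero n438) n439)

def n447 : Cl (O (nat_lit 5)) (R (nat_lit 104465))
    (p (nat_lit 0x89) (nat_lit 0) (p (nat_lit 0x41) (nat_lit 0) (p (nat_lit 0x10a098b090a9a) (nat_lit 0) (p (nat_lit 0x9890a888a1a) (nat_lit 0) (p (nat_lit 0x109088a08079a) (nat_lit 0) (p (nat_lit 0x8880987871a) (nat_lit 0) (p (nat_lit 0x8000000000800080907088a) (nat_lit 0) (p (nat_lit 0x8000000000800078886860a) (nat_lit 0) (p (nat_lit 0x10688060782) (nat_lit 0) (p (nat_lit 0x607858702) (nat_lit 0) (p (nat_lit 0x10587050482) (nat_lit 0) (p (nat_lit 0x506848402) (nat_lit 0) (p (nat_lit 0x16000c) (nat_lit 0) (p (nat_lit 0x50612) (nat_lit 0) (p (nat_lit 0x40592) (nat_lit 0) (p (nat_lit 0x40492) (nat_lit 0) (p (nat_lit 0x30412) (nat_lit 0) (p (nat_lit 0x30212) (nat_lit 0) (p (nat_lit 0x20192) (nat_lit 0) (p (nat_lit 0x20092) (nat_lit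 0) (p (nat_lit 0x10012) (nat_lit 0) pn))))))))))))))))))))) :=
  Cl.node (nat_lit 0xd1) (nat_lit 2) (by decide +kernel) (ClAll.succ (ClAll.succ ClAll.zero n440) n441)

def n448 : Cl (O (nat_lit 5)) (R (nat_lit 104465))
    (p (nat_lit 0x89) (nat_lit 1) (p (nat_lit 0x41) (nat_lit 0) (p (nat_lit 0x10a098b090a9a) (nat_lit 0) (p (nat_lit 0x9890a888a1a) (nat_lit 0) (p (nat_lit 0x109088a08079a) (nat_lit 0) (p (nat_lit 0x8880987871a) (nat_lit 0) (p (nat_lit 0x8000000000800080907088a) (nat_lit 0) (p (nat_lit 0x8000000000800078886860a) (nat_lit 0) (p (nat_lit 0x10688060782) (nat_lit 0) (p (nat_lit 0x607858702) (nat_lit 0) (p (nat_lit 0x10587050482) (nat_lit 0) (p (nat_lit 0x506848402) (nat_lit 0) (p (nat_lit 0x16000c) (nat_lit 0) (p (nat_lit 0x50612) (nat_lit 0) (p (nat_lit 0x40592) (nat_lit 0) (p (nat_lit 0x40492) (nat_lit 0) (p (nat_lit 0x30412) (nat_lit 0) (p (nat_lit 0x30212) (nat_lit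 0) (p (nat_lit 0x20192) (nat_lit 0) (p (nat_lit 0x20092) (nat_lit 0) (p (nat_lit 0x10012) (nat_lit 0) pn))))))))))))))))))))) :=
  Cl.node (nat_lit 0xc9) (nat_lit 2) (by decide +kernel) (ClAll.succ (ClAll.succ ClAll.zero n442) n443)

def n449 : Cl (O (nat_lit 5)) (R (nat_lit 104465))
    (p (nat_lit 0x81) (nat_lit 0) (p (nat_lit 0x41) (nat_lit 1) (p (nat_lit 0x10a098b090a9a) (nat_lit 0) (p (nat_lit 0x9890a888a1a) (nat_lit 0) (p (nat_lit 0x109088a08079a) (nat_lit 0) (p (nat_lit 0x8880987871a) (nat_lit 0) (p (nat_lit 0x8000000000800080907088a) (nat_lit 0) (p (nat_lit 0x8000000000800078886860a) (nat_lit 0) (p (nat_lit 0x10688060782) (nat_lit 0) (p (nat_lit 0x607858702) (nat_lit 0) (p (nat_lit 0x10587050482) (nat_lit 0) (p (nat_lit 0x506848402) (nat_lit 0) (p (nat_lit 0x16000c) (nat_lit 0) (p (nat_lit 0x50612) (nat_lit 0) (p (nat_lit 0x40592) (nat_lit 0) (p (nat_lit 0x40492) (nat_lit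 0) (p (nat_lit 0x30412) (nat_lit 0) (p (nat_lit 0x30212) (nat_lit 0) (p (nat_lit 0x20192) (nat_lit 0) (p (nat_lit 0x20092) (nat_lit 0) (p (nat_lit 0x10012) (nat_lit 0) pn))))))))))))))))))))) :=
  Cl.node (nat_lit 0xd1) (nat_lit 2) (by decide +kernel) (ClAll.succ (ClAll.succ ClAll.zero n444) n445)

def n450 : Cl (O (nat_lit 5)) (R (nat_lit 104465))
    (p (nat_lit 0x81) (nat_lit 1) (p (nat_lit 0x41) (nat_lit 1) (p (nat_lit 0x10a098b090a9a) (nat_lit 0) (p (nat_lit 0x9890a888a1a) (nat_lit 0) (p (nat_lit 0x109088a08079a) (nat_lit 0) (p (nat_lit 0x8880987871a) (nat_lit 0) (p (nat_lit 0x8000000000800080907088a) (nat_lit 0) (p (nat_lit 0x8000000000800078886860a) (nat_lit 0) (p (nat_lit 0x10688060782) (nat_lit 0) (p (nat_lit 0x607858702) (nat_lit 0) (p (nat_lit 0x10587050482) (nat_lit 0) (p (nat_lit 0x506848402) (nat_lit 0) (p (nat_lit 0x16000c) (nat_lit 0) (p (nat_lit 0x50612) (nat_lit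 0) (p (nat_lit 0x40592) (nat_lit 0) (p (nat_lit 0x40492) (nat_lit 0) (p (nat_lit 0x30412) (nat_lit 0) (p (nat_lit 0x30212) (nat_lit 0) (p (nat_lit 0x20192) (nat_lit 0) (p (nat_lit 0x20092) (nat_lit 0) (p (nat_lit 0x10012) (nat_lit 0) pn))))))))))))))))))))) :=
  Cl.node (nat_lit 0xc1) (nat_lit 2) (by decide +kernel) (ClAll.succ (ClAll.succ ClAll.zero n446) s971)

def n451 : Cl (O (nat_lit 5)) (R (nat_lit 104465))
    (p (nat_lit 0x41) (nat_lit 0) (p (nat_lit 0x10a098b090a9a) (nat_lit 0) (p (nat_lit 0x9890a888a1a) (nat_lit 0) (p (nat_lit 0x109088a08079a) (nat_lit 0) (p (nat_lit 0x8880987871a) (nat_lit 0) (p (nat_lit 0x8000000000800080907088a) (nat_lit 0) (p (nat_lit 0x8000000000800078886860a) (nat_lit 0) (p (nat_lit 0x10688060782) (nat_lit 0) (p (nat_lit 0x607858702) (nat_lit 0) (p (nat_lit 0x10587050482) (nat_lit 0) (p (nat_lit 0x506848402) (nat_lit 0) (p (nat_lit 0x16000c) (nat_lit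 0) (p (nat_lit 0x50612) (nat_lit 0) (p (nat_lit 0x40592) (nat_lit 0) (p (nat_lit 0x40492) (nat_lit 0) (p (nat_lit 0x30412) (nat_lit 0) (p (nat_lit 0x30212) (nat_lit 0) (p (nat_lit 0x20192) (nat_lit 0) (p (nat_lit 0x20092) (nat_lit 0) (p (nat_lit 0x10012) (nat_lit 0) pn)))))))))))))))))))) :=
  Cl.node (nat_lit 0x89) (nat_lit 2) (by decide +kernel) (ClAll.succ (ClAll.succ ClAll.zero n447) n448)

def n452 : Cl (O (nat_lit 5)) (R (nat_lit 104465))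
    (p (nat_lit 0x41) (nat_lit 1) (p (nat_lit 0x10a098b090a9a) (nat_lit 0) (p (nat_lit 0x9890a888a1a) (nat_lit 0) (p (nat_lit 0x109088a08079a) (nat_lit 0) (p (nat_lit 0x8880987871a) (nat_lit 0) (p (nat_lit 0x8000000000800080907088a) (nat_lit 0) (p (nat_lit 0x8000000000800078886860a) (nat_lit 0) (p (nat_lit 0x10688060782) (nat_lit 0) (p (nat_lit 0x607858702) (nat_lit 0) (p (nat_lit 0x10587050482) (nat_lit 0) (p (nat_lit 0x506848402) (nat_lit 0) (p (nat_lit 0x16000c) (nat_lit 0) (p (nat_lit 0x50612) (nat_lit 0) (p (nat_lit 0x40592) (nat_lit 0) (p (nat_lit 0x40492) (nat_lit 0) (p (nat_lit 0x30412) (nat_lit 0) (p (nat_lit 0x30212) (nat_lit 0) (p (nat_lit 0x20192) (nat_lit 0) (p (nat_lit 0x20092) (nat_lit 0) (p (nat_lit 0x10012) (nat_lit 0) pn)))))))))))))))))))) :=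
  Cl.node (nat_lit 0x81) (nat_lit 2) (by decide +kernel) (ClAll.succ (ClAll.succ ClAll.zero n449) n450)

def n453 : Cl (O (nat_lit 5)) (R (nat_lit 104465))
    (p (nat_lit 0x10a098b090a9a) (nat_lit 0) (p (nat_lit 0x9890a888a1a) (nat_lit 0) (p (nat_lit 0x109088a08079a) (nat_lit 0) (p (nat_lit 0x8880987871a) (nat_lit 0) (p (nat_lit 0x8000000000800080907088a) (nat_lit 0) (p (nat_lit 0x8000000000800078886860a) (nat_lit 0) (p (nat_lit 0x10688060782) (nat_lit 0) (p (nat_lit 0x607858702) (nat_lit 0) (p (nat_lit 0x10587050482) (nat_lit 0) (p (nat_lit 0x506848402) (nat_lit 0) (p (nat_lit 0x16000c) (nat_lit 0) (p (nat_lit 0x50612) (nat_lit 0) (p (nat_lit 0x40592) (nat_lit 0) (p (nat_lit 0x40492) (nat_lit 0) (p (nat_lit 0x30412) (nat_lit 0) (p (nat_lit 0x30212) (nat_lit 0) (p (nat_lit 0x20192) (nat_lit 0) (p (nat_lit 0x20092) (nat_lit 0) (p (nat_lit 0x10012) (nat_lit 0) pn)))))))))))))))))))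 :=
  Cl.node (nat_lit 0x41) (nat_lit 2) (by decide +kernel) (ClAll.succ (ClAll.succ ClAll.zero n451) n452)

def n454 : Cl (O (nat_lit 5)) (R (nat_lit 104465))
    (p (nat_lit 0x9890a888a1a) (nat_lit 0) (p (nat_lit 0x109088a08079a) (nat_lit 0) (p (nat_lit 0x8880987871a) (nat_lit 0) (p (nat_lit 0x8000000000800080907088a) (nat_lit 0) (p (nat_lit 0x8000000000800078886860a) (nat_lit 0) (p (nat_lit 0x10688060782) (nat_lit 0) (p (nat_lit 0x607858702) (nat_lit 0) (p (nat_lit 0x10587050482) (nat_lit 0) (p (nat_lit 0x506848402) (nat_lit 0) (p (nat_lit 0x16000c) (nat_lit 0) (p (nat_lit 0x50612) (nat_lit 0) (p (nat_lit 0x40592) (nat_lit 0) (p (nat_lit 0x40492) (nat_lit 0) (p (nat_lit 0x30412) (nat_lit 0) (p (nat_lit 0x30212) (nat_lit 0) (p (nat_lit 0x20192) (nat_lit 0) (p (nat_lit 0x20092) (nat_lit 0) (p (nat_lit 0x10012) (nat_lit 0) pn)))))))))))))))))) :=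
  Cl.node (nat_lit 0x10a098b090a9a) (nat_lit 1) (by decide +kernel) (ClAll.succ ClAll.zero n453)

def n455 : Cl (O (nat_lit 5)) (R (nat_lit 104465))
    (p (nat_lit 0x109088a08079a) (nat_lit 0) (p (nat_lit 0x8880987871a) (nat_lit 0) (p (nat_lit 0x8000000000800080907088a) (nat_lit 0) (p (nat_lit 0x8000000000800078886860a) (nat_lit 0) (p (nat_lit 0x10688060782) (nat_lit 0) (p (nat_lit 0x607858702) (nat_lit 0) (p (nat_lit 0x10587050482) (nat_lit 0) (p (nat_lit 0x506848402) (nat_lit 0) (p (nat_lit 0x16000c) (nat_lit 0) (p (nat_lit 0x50612) (nat_lit 0) (p (nat_lit 0x40592) (nat_lit 0) (p (nat_lit 0x40492) (nat_lit 0) (p (nat_lit 0x30412) (nat_lit 0) (p (nat_lit 0x30212) (nat_lit 0) (p (nat_lit 0x20192) (nat_lit 0) (p (nat_lit 0x20092) (nat_lit 0) (p (nat_lit 0x10012) (nat_lit 0) pn))))))))))))))))) :=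
  Cl.node (nat_lit 0x9890a888a1a) (nat_lit 1) (by decide +kernel) (ClAll.succ ClAll.zero n454)

def n456 : Cl (O (nat_lit 5)) (R (nat_lit 104465))
    (p (nat_lit 0x8880987871a) (nat_lit 0) (p (nat_lit 0x8000000000800080907088a) (nat_lit 0) (p (nat_lit 0x8000000000800078886860a) (nat_lit 0) (p (nat_lit 0x10688060782) (nat_lit 0) (p (nat_lit 0x607858702) (nat_lit 0) (p (nat_lit 0x10587050482) (nat_lit 0) (p (nat_lit 0x506848402) (nat_lit 0) (p (nat_lit 0x16000c) (nat_lit 0) (p (nat_lit 0x50612) (nat_lit 0) (p (nat_lit 0x40592) (nat_lit 0) (p (nat_lit 0x40492) (nat_lit 0) (p (nat_lit 0x30412) (nat_lit 0) (p (nat_lit 0x30212) (nat_lit 0) (p (nat_lit 0x20192) (nat_lit 0) (p (nat_lit 0x20092) (nat_lit 0) (p (nat_lit 0x10012) (nat_lit 0) pn)))))))))))))))) :=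
  Cl.node (nat_lit 0x109088a08079a) (nat_lit 1) (by decide +kernel) (ClAll.succ ClAll.zero n455)

def n457 : Cl (O (nat_lit 5)) (R (nat_lit 104465))
    (p (nat_lit 0x8000000000800080907088a) (nat_lit 0) (p (nat_lit 0x8000000000800078886860a) (nat_lit 0) (p (nat_lit 0x10688060782) (nat_lit 0) (p (nat_lit 0x607858702) (nat_lit 0) (p (nat_lit 0x10587050482) (nat_lit 0) (p (nat_lit 0x506848402) (nat_lit 0) (p (nat_lit 0x16000c) (nat_lit 0) (p (nat_lit 0x50612) (nat_lit 0) (p (nat_lit 0x40592) (nat_lit 0) (p (nat_lit 0x40492) (nat_lit 0) (p (nat_lit 0x30412) (nat_lit 0) (p (nat_lit 0x30212) (nat_lit 0) (p (nat_lit 0x20192) (nat_lit 0) (p (nat_lit 0x20092) (nat_lit 0) (p (nat_lit 0x10012) (nat_lit 0) pn))))))))))))))) :=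
  Cl.node (nat_lit 0x8880987871a) (nat_lit 1) (by decide +kernel) (ClAll.succ ClAll.zero n456)

def n458 : Cl (O (nat_lit 5)) (R (nat_lit 104465))
    (p (nat_lit 0x8000000000800078886860a) (nat_lit 0) (p (nat_lit 0x10688060782) (nat_lit 0) (p (nat_lit 0x607858702) (nat_lit 0) (p (nat_lit 0x10587050482) (nat_lit 0) (p (nat_lit 0x506848402) (nat_lit 0) (p (nat_lit 0x16000c) (nat_lit 0) (p (nat_lit 0x50612) (nat_lit 0) (p (nat_lit 0x40592) (nat_lit 0) (p (nat_lit 0x40492) (nat_lit 0) (p (nat_lit 0x30412) (nat_lit 0) (p (nat_lit 0x30212) (nat_lit 0) (p (nat_lit 0x20192) (nat_lit 0) (p (nat_lit 0x20092) (nat_lit 0) (p (nat_lit 0x10012) (nat_lit 0) pn)))))))))))))) :=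
  Cl.node (nat_lit 0x8000000000800080907088a) (nat_lit 1) (by decide +kernel) (ClAll.succ ClAll.zero n457)

def n459 : Cl (O (nat_lit 5)) (R (nat_lit 104465))
    (p (nat_lit 0x10688060782) (nat_lit 0) (p (nat_lit 0x607858702) (nat_lit 0) (p (nat_lit 0x10587050482) (nat_lit 0) (p (nat_lit 0x506848402) (nat_lit 0) (p (nat_lit 0x16000c) (nat_lit 0) (p (nat_lit 0x50612) (nat_lit 0) (p (nat_lit 0x40592) (nat_lit 0) (p (nat_lit 0x40492) (nat_lit 0) (p (nat_lit 0x30412) (nat_lit 0) (p (nat_lit 0x30212) (nat_lit 0) (p (nat_lit 0x20192) (nat_lit 0) (p (nat_lit 0x20092) (nat_lit 0) (p (nat_lit 0x10012) (nat_lit 0) pn))))))))))))) :=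
  Cl.node (nat_lit 0x8000000000800078886860a) (nat_lit 1) (by decide +kernel) (ClAll.succ ClAll.zero n458)

def n460 : Cl (O (nat_lit 5)) (R (nat_lit 104465))
    (p (nat_lit 0x607858702) (nat_lit 0) (p (nat_lit 0x10587050482) (nat_lit 0) (p (nat_lit 0x506848402) (nat_lit 0) (p (nat_lit 0x16000c) (nat_lit 0) (p (nat_lit 0x50612) (nat_lit 0) (p (nat_lit 0x40592) (nat_lit 0) (p (nat_lit 0x40492) (nat_lit 0) (p (nat_lit 0x30412) (nat_lit 0) (p (nat_lit 0x30212) (nat_lit 0) (p (nat_lit 0x20192) (nat_lit 0) (p (nat_lit 0x20092) (nat_lit 0) (p (nat_lit 0x10012) (nat_lit 0) pn)))))))))))) :=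
  Cl.node (nat_lit 0x10688060782) (nat_lit 1) (by decide +kernel) (ClAll.succ ClAll.zero n459)

def n461 : Cl (O (nat_lit 5)) (R (nat_lit 104465))
    (p (nat_lit 0x10587050482) (nat_lit 0) (p (nat_lit 0x506848402) (nat_lit 0) (p (nat_lit 0x16000c) (nat_lit 0) (p (nat_lit 0x50612) (nat_lit 0) (p (nat_lit 0x40592) (nat_lit 0) (p (nat_lit 0x40492) (nat_lit 0) (p (nat_lit 0x30412) (nat_lit 0) (p (nat_lit 0x30212) (nat_lit 0) (p (nat_lit 0x20192) (nat_lit 0) (p (nat_lit 0x20092) (nat_lit 0) (p (nat_lit 0x10012) (nat_lit 0) pn))))))))))) :=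
  Cl.node (nat_lit 0x607858702) (nat_lit 1) (by decide +kernel) (ClAll.succ ClAll.zero n460)

def n462 : Cl (O (nat_lit 5)) (R (nat_lit 104465))
    (p (nat_lit 0x506848402) (nat_lit 0) (p (nat_lit 0x16000c) (nat_lit 0) (p (nat_lit 0x50612) (nat_lit 0) (p (nat_lit 0x40592) (nat_lit 0) (p (nat_lit 0x40492) (nat_lit 0) (p (nat_lit 0x30412) (nat_lit 0) (p (nat_lit 0x30212) (nat_lit 0) (p (nat_lit 0x20192) (nat_lit 0) (p (nat_lit 0x20092) (nat_lit 0) (p (nat_lit 0x10012) (nat_lit 0) pn)))))))))) :=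
  Cl.node (nat_lit 0x10587050482) (nat_lit 1) (by decide +kernel) (ClAll.succ ClAll.zero n461)

def n463 : Cl (O (nat_lit 5)) (R (nat_lit 104465))
    (p (nat_lit 0x16000c) (nat_lit 0) (p (nat_lit 0x50612) (nat_lit 0) (p (nat_lit 0x40592) (nat_lit 0) (p (nat_lit 0x40492) (nat_lit 0) (p (nat_lit 0x30412) (nat_lit 0) (p (nat_lit 0x30212) (nat_lit 0) (p (nat_lit 0x20192) (nat_lit 0) (p (nat_lit 0x20092) (nat_lit 0) (p (nat_lit 0x10012) (nat_lit 0) pn))))))))) :=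
  Cl.node (nat_lit 0x506848402) (nat_lit 1) (by decide +kernel) (ClAll.succ ClAll.zero n462)

def n464 : Cl (O (nat_lit 5)) (R (nat_lit 104465))
    (p (nat_lit 0x50612) (nat_lit 0) (p (nat_lit 0x40592) (nat_lit 0) (p (nat_lit 0x40492) (nat_lit 0) (p (nat_lit 0x30412) (nat_lit 0) (p (nat_lit 0x30212) (nat_lit 0) (p (nat_lit 0x20192) (nat_lit 0) (p (nat_lit 0x20092) (nat_lit 0) (p (nat_lit 0x10012) (nat_lit 0) pn)))))))) :=
  Cl.node (nat_lit 0x16000c) (nat_lit 2) (by decide +kernel) (ClAll.succ (ClAll.succ ClAll.zero n463) s972)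

def n465 : Cl (O (nat_lit 5)) (R (nat_lit 104465))
    (p (nat_lit 0x40592) (nat_lit 0) (p (nat_lit 0x40492) (nat_lit 0) (p (nat_lit 0x30412) (nat_lit 0) (p (nat_lit 0x30212) (nat_lit 0) (p (nat_lit 0x20192) (nat_lit 0) (p (nat_lit 0x20092) (nat_lit 0) (p (nat_lit 0x10012) (nat_lit 0) pn))))))) :=
  Cl.node (nat_lit 0x50612) (nat_lit 1) (by decide +kernel) (ClAll.succ ClAll.zero n464)

def n466 : Cl (O (nat_lit 5)) (R (nat_lit 104465))
    (p (nat_lit 0x40492) (nat_lit 0) (p (nat_lit 0x30412) (nat_lit 0) (p (nat_lit 0x30212) (nat_lit 0) (p (nat_lit 0x20192) (nat_lit 0) (p (nat_lit 0x20092) (nat_lit 0) (p (nat_lit 0x10012) (nat_lit 0) pn)))))) :=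
  Cl.node (nat_lit 0x40592) (nat_lit 1) (by decide +kernel) (ClAll.succ ClAll.zero n465)

def n467 : Cl (O (nat_lit 5)) (R (nat_lit 104465))
    (p (nat_lit 0x30412) (nat_lit 0) (p (nat_lit 0x30212) (nat_lit 0) (p (nat_lit 0x20192) (nat_lit 0) (p (nat_lit 0x20092) (nat_lit 0) (p (nat_lit 0x10012) (nat_lit 0) pn))))) :=
  Cl.node (nat_lit 0x40492) (nat_lit 1) (by decide +kernel) (ClAll.succ ClAll.zero n466)

def n468 : Cl (O (nat_lit 5)) (R (nat_lit 104465))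
    (p (nat_lit 0x30212) (nat_lit 0) (p (nat_lit 0x20192) (nat_lit 0) (p (nat_lit 0x20092) (nat_lit 0) (p (nat_lit 0x10012) (nat_lit 0) pn)))) :=
  Cl.node (nat_lit 0x30412) (nat_lit 1) (by decide +kernel) (ClAll.succ ClAll.zero n467)

def n469 : Cl (O (nat_lit 5)) (R (nat_lit 104465))
    (p (nat_lit 0x20192) (nat_lit 0) (p (nat_lit 0x20092) (nat_lit 0) (p (nat_lit 0x10012) (nat_lit 0) pn))) :=
  Cl.node (nat_lit 0x30212) (nat_lit 1) (by decide +kernel) (ClAll.succ ClAll.zero n468)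

def n470 : Cl (O (nat_lit 5)) (R (nat_lit 104465))
    (p (nat_lit 0x20092) (nat_lit 0) (p (nat_lit 0x10012) (nat_lit 0) pn)) :=
  Cl.node (nat_lit 0x20192) (nat_lit 1) (by decide +kernel) (ClAll.succ ClAll.zero n469)

def n471 : Cl (O (nat_lit 5)) (R (nat_lit 104465))
    (p (nat_lit 0x10012) (nat_lit 0) pn) :=
  Cl.node (nat_lit 0x20092) (nat_lit 1) (by decide +kernel) (ClAll.succ ClAll.zero n470)

def n472 : Cl (O (nat_lit 5)) (R (nat_lit 104465))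
    pn :=
  Cl.node (nat_lit 0x10012) (nat_lit 1) (by decide +kernel) (ClAll.succ ClAll.zero n471)

theorem top : Cl (O (nat_lit 5)) (R (nat_lit 104465)) pn := n472

end Pool.Agent.Gen.F5.X12CD13m5
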